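import Pool.Agent.Lib.H31J.AOrd

/-!
# Chunk A-CPT: base points of the regions

`a`, `b` the curves with `rk a = e-1`, `rk b = e` (they exist: `rk` is a bijection of `{0..m}`).
`cpt`: `1 ≤ e ≤ m`: real part `τ`, imaginary part `(φ_a(τ) + φ_b(τ))/2`; `e = m+1`: `φ_a(τ) + 1`;
`e = 0`: `φ_b(τ) - 1`.  `pos = e` by `order`, in `D` by `far`.
`mid_im`, `top_im`, `bot_im`: `phi_bd`.
-/

set_option autoImplicit false

namespace PJ

namespace Par

open Set Filter

variable {C : Comb} (P : Par C)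

theorem cpt_image (hC : C.Good) :
    (Finset.range (C.m + 1)).image C.rk = Finset.range (C.m + 1) := by
  refine Finset.eq_of_subset_of_card_le ?_ ?_
  · intro k hk
    rw [Finset.mem_image] at hk
    obtain ⟨i, hi, rfl⟩ := hk
    rw [Finset.mem_range] at hi ⊢
    have := hC.rk_le i (by omega)
    omega
  · rw [Finset.card_image_of_injOn]
    intro i hi j hj hij
    rw [Finset.mem_coe, Finset.mem_range] at hi hj
    exact hC.rk_inj i (by omega) j (by omega) hij

theorem cpt_surj (hC : C.Good) {k : ℕ} (hk : k ≤ C.m) : ∃ i, i ≤ C.m ∧ C.rk i = k := by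
  have h : k ∈ (Finset.range (C.m + 1)).image C.rk := by
    rw [cpt_image hC, Finset.mem_range]
    omega
  rw [Finset.mem_image] at h
  obtain ⟨i, hi, h⟩ := h
  rw [Finset.mem_range] at hi
  exact ⟨i, by omega, h⟩

theorem cpt_card (hC : C.Good) {e : ℕ} (he : e ≤ C.m + 1) :
    ((Finset.range (C.m + 1)).filter (fun i => C.rk i < e)).card = e := by
  have h1 : ((Finset.range (C.m + 1)).filter (fun i => C.rk i < e)).image C.rk =
      Finset.range e := by
    ext k
    rw [Finset.mem_image, Finset.mem_range]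
    constructor
    · rintro ⟨i, hi, rfl⟩
      exact (Finset.mem_filter.mp hi).2
    · intro hk
      obtain ⟨i, hi, rfl⟩ := cpt_surj hC (show k ≤ C.m by omega)
      refine ⟨i, Finset.mem_filter.mpr ⟨Finset.mem_range.mpr (by omega), hk⟩, rfl⟩
  rw [← Finset.card_image_of_injOn (f := C.rk), h1, Finset.card_range]
  intro i hi j hj hij
  rw [Finset.mem_coe, Finset.mem_filter, Finset.mem_range] at hi hj
  exact hC.rk_inj i (by omega) j (by omega) hij

theorem cpt_aux (hC : C.Good) {e : ℕ} (he : e ≤ C.m + 1) {z : ℂ} (hz : P.Lam ≤ z.re)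
    (h1 : ∀ i, i ≤ C.m → C.rk i < e → P.phi i z.re < z.im)
    (h2 : ∀ i, i ≤ C.m → e ≤ C.rk i → z.im < P.phi i z.re) : z ∈ P.D ∧ P.pos z = e := by
  constructor
  · rw [P.far hC hz]
    intro i hi
    rcases Nat.lt_or_ge (C.rk i) e with h | h
    · exact (h1 i hi h).ne
    · exact (h2 i hi h).ne'
  · unfold pos
    rw [← cpt_card hC he]
    congr 1
    ext i
    rw [Finset.mem_filter, Finset.mem_filter, Finset.mem_range]
    refine and_congr_right fun hi => ?_
    constructor
    · intro h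
      by_contra hge
      have := h2 i (by omega) (by omega)
      linarith
    · intro h
      exact h1 i (by omega) h

theorem cpt_le (hC : C.Good) {i i' : ℕ} (hi : i ≤ C.m) (hi' : i' ≤ C.m)
    (h : C.rk i ≤ C.rk i') {x : ℝ} (hx : P.Lam ≤ x) : P.phi i x ≤ P.phi i' x := by
  rcases h.lt_or_eq with h | h
  · exact (P.order hC hi hi' h hx).le
  · rw [hC.rk_inj i hi i' hi' h]

theorem exists_cpt (hC : C.Good) : ∃ c : ℕ → ℝ → ℂ, ∀ e, e ≤ C.m + 1 →
    (∀ τ, P.Lam ≤ τ → c e τ ∈ P.D ∧ (c e τ).re = τ ∧ |(c e τ).im| ≤ 25 ∧ P.pos (c e τ) = e) ∧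
    ContinuousOn (c e) (Ici P.Lam) := by
  have key : ∀ e, e ≤ C.m + 1 → ∃ y : ℝ → ℝ, Continuous y ∧ ∀ τ, P.Lam ≤ τ → |y τ| ≤ 25 ∧
      (∀ i, i ≤ C.m → C.rk i < e → P.phi i τ < y τ) ∧
      (∀ i, i ≤ C.m → e ≤ C.rk i → y τ < P.phi i τ) := by
    intro e he
    rcases Nat.eq_zero_or_pos e with h0 | h0
    · subst h0
      obtain ⟨b, hb, hrb⟩ := cpt_surj hC (Nat.zero_le C.m)
      refine ⟨fun τ => P.phi b τ - 1, (P.phi_cont hC hb).sub continuous_const, fun τ hτ =>
        ⟨?_, fun i _ h => absurd h (Nat.not_lt_zero _), fun i hi _ => ?_⟩⟩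
      · have := abs_le.mp (P.phi_bd hC hb τ)
        rw [abs_le]
        constructor <;> linarith [this.1, this.2]
      · have := P.cpt_le hC hb hi (by omega) hτ
        linarith
    · rcases Nat.lt_or_ge C.m e with hm | hm
      · have hem : e = C.m + 1 := by omega
        subst hem
        obtain ⟨a, ha, hra⟩ := cpt_surj hC (le_refl C.m)
        refine ⟨fun τ => P.phi a τ + 1, (P.phi_cont hC ha).add continuous_const, fun τ hτ =>
          ⟨?_, fun i hi _ => ?_, fun i hi h => ?_⟩⟩
        · have := abs_le.mp (P.phi_bd hC ha τ)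
          rw [abs_le]
          constructor <;> linarith [this.1, this.2]
        · have hri := hC.rk_le i hi
          have := P.cpt_le hC hi ha (by omega) hτ
          linarith
        · have := hC.rk_le i hi
          omega
      · obtain ⟨a, ha, hra⟩ := cpt_surj hC (show e - 1 ≤ C.m by omega)
        obtain ⟨b, hb, hrb⟩ := cpt_surj hC hm
        refine ⟨fun τ => (P.phi a τ + P.phi b τ) / 2,
          ((P.phi_cont hC ha).add (P.phi_cont hC hb)).div_const _, fun τ hτ =>
          ⟨?_, fun i hi h => ?_, fun i hi h => ?_⟩⟩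
        · have h1 := abs_le.mp (P.phi_bd hC ha τ)
          have h2 := abs_le.mp (P.phi_bd hC hb τ)
          rw [abs_le]
          constructor <;> linarith [h1.1, h1.2, h2.1, h2.2]
        · have h1 := P.cpt_le hC hi ha (by omega) hτ
          have h2 := P.order hC ha hb (by omega) hτ
          linarith
        · have h1 := P.cpt_le hC hb hi (by omega) hτ
          have h2 := P.order hC ha hb (by omega) hτ
          linarith
  classical
  choose! y hy1 hy2 using key
  refine ⟨fun e τ => ⟨τ, y e τ⟩, fun e he => ⟨fun τ hτ => ?_, ?_⟩⟩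
  · obtain ⟨h1, h2, h3⟩ := hy2 e he τ hτ
    have h4 := P.cpt_aux hC he (z := ⟨τ, y e τ⟩) hτ h2 h3
    exact ⟨h4.1, rfl, h1, h4.2⟩
  · have h : (fun τ : ℝ => (⟨τ, y e τ⟩ : ℂ)) = fun τ : ℝ => (τ : ℂ) + (y e τ : ℂ) * Complex.I := by
      funext τ
      apply Complex.ext <;> simp
    simp only
    rw [h]
    have hyc := hy1 e he
    exact ((Complex.continuous_ofReal.add
      ((Complex.continuous_ofReal.comp hyc).mul continuous_const))).continuousOn

/-- imaginary parts in the middle regions are bounded -/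
theorem mid_im (hC : C.Good) {z : ℂ} (hz : z ∈ P.D) (hzr : P.Lam ≤ z.re) (h1 : 1 ≤ P.pos z)
    (h2 : P.pos z ≤ C.m) : |z.im| ≤ 20 := by
  obtain ⟨a, ha, hra⟩ := cpt_surj hC (show P.pos z - 1 ≤ C.m by omega)
  obtain ⟨b, hb, hrb⟩ := cpt_surj hC h2
  have h3 := (P.pos_iff hC hz hzr ha).mpr (by omega)
  have h4 := (not_congr (P.pos_iff hC hz hzr hb)).mpr (by omega)
  have h5 := abs_le.mp (P.phi_bd hC ha z.re)
  have h6 := abs_le.mp (P.phi_bd hC hb z.re)
  rw [abs_le]
  constructor <;> linarith [h5.1, h6.2]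

theorem top_im (hC : C.Good) {z : ℂ} (hz : z ∈ P.D) (hzr : P.Lam ≤ z.re)
    (h1 : P.pos z = C.m + 1) : -20 ≤ z.im := by
  have h2 := hC.rk_le 0 (Nat.zero_le _)
  have h3 := (P.pos_iff hC hz hzr (Nat.zero_le _)).mpr (by omega)
  have h4 := abs_le.mp (P.phi_bd hC (Nat.zero_le _) z.re)
  linarith [h4.1]

theorem bot_im (hC : C.Good) {z : ℂ} (hz : z ∈ P.D) (hzr : P.Lam ≤ z.re)
    (h1 : P.pos z = 0) : z.im ≤ 20 := by
  have h3 := (not_congr (P.pos_iff hC hz hzr (Nat.zero_le C.m))).mpr (by omega)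
  have h4 := abs_le.mp (P.phi_bd hC (Nat.zero_le _) z.re)
  linarith [h4.2]

/-- high up we are above all curves, low down below all curves -/
theorem pos_high (hC : C.Good) {z : ℂ} (h : 20 < z.im) : P.pos z = C.m + 1 := by
  unfold pos
  rw [Finset.filter_true_of_mem, Finset.card_range]
  intro i hi
  rw [Finset.mem_range] at hi
  have h4 := abs_le.mp (P.phi_bd hC (show i ≤ C.m by omega) z.re)
  linarith [h4.2]

theorem pos_low (hC : C.Good) {z : ℂ} (h : z.im < -20) : P.pos z = 0 := by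
  unfold pos
  rw [Finset.card_eq_zero, Finset.filter_eq_empty_iff]
  intro i hi
  rw [Finset.mem_range] at hi
  have h4 := abs_le.mp (P.phi_bd hC (show i ≤ C.m by omega) z.re)
  linarith [h4.1]

end Par

end PJ
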