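import Pool.Agent.Lib.H31J.ADefs

/-!
# Chunk A-CONN: elementary properties of `Conn`

`Conn D p q l`: `p` and `q` are joined in `D` by a finite concatenation of `C¹` paths with
`∫ |c'|/|c| ≤ l`.  All proofs are by induction on `Conn`.

* `nonneg`: on a path `‖c' t‖ ≤ l ‖c t‖` with `c t ≠ 0`.
* `norm_le`: `‖q‖ ≤ ‖p‖ exp l` for a path: Grönwall (`norm_le_gronwallBound_of_norm_deriv_right_le`
  with `K = l`, `ε = 0`), `dist_le`: `‖c 1 - c 0‖ ≤ ∫ l ‖c‖ ≤ ‖c 0‖ (exp l - 1)`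
  (`image_norm_le_of_norm_deriv_right_le_deriv_boundary` applied to `c t - c 0` and the
  bound `‖c 0‖ (exp (l t) - 1)`); for `trans`: `‖s-p‖ ≤ ‖s-q‖+‖q-p‖ ≤ ‖q‖(exp l' -1) + ‖p‖(exp l - 1)
  ≤ ‖p‖ (exp (l+l') - 1)`.
* `symm`: reverse the path (`c (1-t)`).
* `local`: straight segments in a small ball around `p ≠ 0`.
* `compact`: for `p₀ ∈ D` the set of `q ∈ D` which are joined to `p₀` for some `l` is open and its complement in
  `D` is open (by `local`), so it is `D` (`IsPreconnected`); a compact `K ⊆ D` is covered by finitely many balls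
  from `local` with `ε = 1`.
-/

set_option autoImplicit false

namespace PJ

open Set

namespace Conn

variable {D D' : Set ℂ} {p q s : ℂ} {l l' : ℝ}

theorem conn_mk {D : Set ℂ} {p q : ℂ} {l : ℝ} (c c' : ℝ → ℂ) (hD : ∀ t ∈ Icc (0 : ℝ) 1, c t ∈ D)
    (hc : ∀ t ∈ Icc (0 : ℝ) 1, HasDerivWithinAt c (c' t) (Icc (0 : ℝ) 1) t)
    (hb : ∀ t ∈ Icc (0 : ℝ) 1, ‖c' t‖ ≤ l * ‖c t‖) (h0 : c 0 = p) (h1 : c 1 = q) :
    Conn D p q l := by
  subst h0 h1
  exact Conn.path c c' l hD hc hb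

theorem left_mem (h : Conn D p q l) : p ∈ D := by
  induction h with
  | path c c' l hD hc hb => exact hD 0 (by simp)
  | trans h h' ih ih' => exact ih

theorem right_mem (h : Conn D p q l) : q ∈ D := by
  induction h with
  | path c c' l hD hc hb => exact hD 1 (by simp)
  | trans h h' ih ih' => exact ih'

theorem rfl' (hp : p ∈ D) : Conn D p p 0 := by
  refine conn_mk (fun _ => p) (fun _ => 0) (fun t _ => hp) (fun t _ => ?_) (fun t _ => ?_) rfl rfl
  · exact hasDerivWithinAt_const _ _ _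
  · simp

theorem nonneg (h0 : (0 : ℂ) ∉ D) (h : Conn D p q l) : 0 ≤ l := by
  induction h with
  | path c c' l hD hc hb =>
    have h1 : c 0 ∈ D := hD 0 (by simp)
    have h2 : c 0 ≠ 0 := fun h => h0 (h ▸ h1)
    have h3 : 0 < ‖c 0‖ := norm_pos_iff.mpr h2
    have h4 := hb 0 (by simp)
    by_contra hl
    push Not at hl
    have : l * ‖c 0‖ < 0 := mul_neg_of_neg_of_pos hl h3
    have := norm_nonneg (c' 0)
    linarith
  | trans h h' ih ih' => exact add_nonneg ih ih'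

theorem symm (h : Conn D p q l) : Conn D q p l := by
  induction h with
  | path c c' l hD hc hb =>
    refine conn_mk (fun t => c (1 - t)) (fun t => -c' (1 - t)) (fun t ht => ?_) (fun t ht => ?_)
      (fun t ht => ?_) (by simp) (by simp)
    · exact hD _ ⟨by linarith [ht.2], by linarith [ht.1]⟩
    · have ht' : 1 - t ∈ Icc (0 : ℝ) 1 := ⟨by linarith [ht.2], by linarith [ht.1]⟩
      have h1 : HasDerivWithinAt (fun t : ℝ => 1 - t) (-1) (Icc (0 : ℝ) 1) t := by
        simpa using ((hasDerivAt_id t).const_sub 1).hasDerivWithinAt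
      have h2 := HasDerivWithinAt.scomp t (hc (1 - t) ht') h1
        (fun x hx => ⟨by linarith [hx.2], by linarith [hx.1]⟩)
      simpa [Function.comp_def] using h2
    · rw [norm_neg]
      exact hb _ ⟨by linarith [ht.2], by linarith [ht.1]⟩
  | trans h h' ih ih' => rw [add_comm]; exact Conn.trans ih' ih

theorem mono (h : Conn D p q l) (hl : l ≤ l') : Conn D p q l' := by
  induction h generalizing l' with
  | path c c' l hD hc hb =>
    refine Conn.path c c' l' hD hc (fun t ht => (hb t ht).trans ?_)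
    exact mul_le_mul_of_nonneg_right hl (norm_nonneg _)
  | @trans p q s a b h h' ih ih' =>
    have h1 : a ≤ l' - b := by linarith
    have h2 := Conn.trans (ih h1) h'
    simpa using h2

theorem mono_set (hD : D ⊆ D') (h : Conn D p q l) : Conn D' p q l := by
  induction h with
  | path c c' l hD' hc hb => exact Conn.path c c' l (fun t ht => hD (hD' t ht)) hc hb
  | trans h h' ih ih' => exact Conn.trans ih ih'

theorem conn_gron (c c' : ℝ → ℂ) (l : ℝ)
    (hc : ∀ t ∈ Icc (0 : ℝ) 1, HasDerivWithinAt c (c' t) (Icc (0 : ℝ) 1) t)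
    (hb : ∀ t ∈ Icc (0 : ℝ) 1, ‖c' t‖ ≤ l * ‖c t‖) :
    ∀ t ∈ Icc (0 : ℝ) 1, ‖c t‖ ≤ ‖c 0‖ * Real.exp (l * t) := by
  intro t ht
  have h := norm_le_gronwallBound_of_norm_deriv_right_le (f := c) (f' := c') (δ := ‖c 0‖) (K := l)
    (ε := 0) (a := 0) (b := 1) (fun x hx => (hc x hx).continuousWithinAt)
    (fun x hx => (hc x (Ico_subset_Icc_self hx)).mono_of_mem_nhdsWithin
      (Icc_mem_nhdsGE_of_mem hx)) le_rfl
    (fun x hx => by simpa using hb x (Ico_subset_Icc_self hx)) t ht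
  rwa [gronwallBound_ε0, sub_zero] at h

theorem norm_le (h0 : (0 : ℂ) ∉ D) (h : Conn D p q l) : ‖q‖ ≤ ‖p‖ * Real.exp l := by
  induction h with
  | path c c' l hD hc hb =>
    have h1 := conn_gron c c' l hc hb 1 (by simp)
    simpa using h1
  | @trans p q s a b h h' ih ih' =>
    calc ‖s‖ ≤ ‖q‖ * Real.exp b := ih'
      _ ≤ (‖p‖ * Real.exp a) * Real.exp b :=
        mul_le_mul_of_nonneg_right ih (Real.exp_pos _).le
      _ = ‖p‖ * Real.exp (a + b) := by rw [Real.exp_add]; ring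

theorem log_le (h0 : (0 : ℂ) ∉ D) (h : Conn D p q l) :
    |Real.log ‖p‖ - Real.log ‖q‖| ≤ l := by
  have hp : p ≠ 0 := fun hh => h0 (hh ▸ h.left_mem)
  have hq : q ≠ 0 := fun hh => h0 (hh ▸ h.right_mem)
  have hp' : 0 < ‖p‖ := norm_pos_iff.mpr hp
  have hq' : 0 < ‖q‖ := norm_pos_iff.mpr hq
  have h1 := norm_le h0 h
  have h2 := norm_le h0 h.symm
  have h3 := Real.log_le_log hq' h1
  have h4 := Real.log_le_log hp' h2
  rw [Real.log_mul hp'.ne' (Real.exp_pos _).ne', Real.log_exp] at h3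
  rw [Real.log_mul hq'.ne' (Real.exp_pos _).ne', Real.log_exp] at h4
  rw [abs_le]
  constructor <;> linarith

theorem dist_le (h0 : (0 : ℂ) ∉ D) (h : Conn D p q l) :
    ‖q - p‖ ≤ ‖p‖ * (Real.exp l - 1) := by
  induction h with
  | path c c' l hD hc hb =>
    have hl : 0 ≤ l := nonneg h0 (Conn.path c c' l hD hc hb)
    have hg := conn_gron c c' l hc hb
    have h1 := image_norm_le_of_norm_deriv_right_le_deriv_boundary (f := fun t => c t - c 0)
      (f' := c') (a := 0) (b := 1) (B := fun t => ‖c 0‖ * (Real.exp (l * t) - 1))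
      (B' := fun t => ‖c 0‖ * (Real.exp (l * t) * l))
      (fun x hx => ((hc x hx).sub_const _).continuousWithinAt)
      (fun x hx => ((hc x (Ico_subset_Icc_self hx)).sub_const _).mono_of_mem_nhdsWithin
        (Icc_mem_nhdsGE_of_mem hx)) (by simp)
      (fun x => by
        have h2 : HasDerivAt (fun t : ℝ => l * t) l x := by
          simpa using (hasDerivAt_id x).const_mul l
        exact (h2.exp.sub_const 1).const_mul _)
      (fun x hx => by
        have hx' := Ico_subset_Icc_self hx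
        calc ‖c' x‖ ≤ l * ‖c x‖ := hb x hx'
          _ ≤ l * (‖c 0‖ * Real.exp (l * x)) := mul_le_mul_of_nonneg_left (hg x hx') hl
          _ = ‖c 0‖ * (Real.exp (l * x) * l) := by ring)
      (x := 1) (by simp)
    simpa using h1
  | @trans p q s a b h h' ih ih' =>
    have hb : 0 ≤ b := nonneg h0 h'
    have h1 := norm_le h0 h
    have h2 : (0 : ℝ) ≤ Real.exp b - 1 := by
      have := Real.one_le_exp hb
      linarith
    calc ‖s - p‖ = ‖(s - q) + (q - p)‖ := by congr 1; ring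
      _ ≤ ‖s - q‖ + ‖q - p‖ := norm_add_le _ _
      _ ≤ ‖q‖ * (Real.exp b - 1) + ‖p‖ * (Real.exp a - 1) := add_le_add ih' ih
      _ ≤ (‖p‖ * Real.exp a) * (Real.exp b - 1) + ‖p‖ * (Real.exp a - 1) := by
        gcongr
      _ = ‖p‖ * (Real.exp (a + b) - 1) := by rw [Real.exp_add]; ring

/-- a path on an interval `[a,b]` -/
theorem path_ab {a b : ℝ} (hab : a ≤ b) (c c' : ℝ → ℂ) (hl : 0 ≤ l)
    (hD : ∀ t ∈ Icc a b, c t ∈ D)
    (hc : ∀ t ∈ Icc a b, HasDerivWithinAt c (c' t) (Icc a b) t)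
    (hb : ∀ t ∈ Icc a b, ‖c' t‖ ≤ l * ‖c t‖) : Conn D (c a) (c b) ((b - a) * l) := by
  have hm : ∀ t ∈ Icc (0 : ℝ) 1, a + t * (b - a) ∈ Icc a b := by
    intro t ht
    constructor
    · nlinarith [ht.1, mul_nonneg ht.1 (sub_nonneg.mpr hab)]
    · nlinarith [ht.2, mul_le_mul_of_nonneg_right ht.2 (sub_nonneg.mpr hab)]
  refine conn_mk (fun t => c (a + t * (b - a))) (fun t => ((b - a : ℝ)) • c' (a + t * (b - a)))
    (fun t ht => hD _ (hm t ht)) (fun t ht => ?_) (fun t ht => ?_) (by simp) (by simp)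
  · have h1 : HasDerivWithinAt (fun t : ℝ => a + t * (b - a)) (b - a) (Icc (0 : ℝ) 1) t := by
      simpa using (((hasDerivAt_id t).mul_const (b - a)).const_add a).hasDerivWithinAt
    exact HasDerivWithinAt.scomp t (hc _ (hm t ht)) h1 hm
  · rw [norm_smul, Real.norm_eq_abs, abs_of_nonneg (sub_nonneg.mpr hab), mul_assoc]
    exact mul_le_mul_of_nonneg_left (hb _ (hm t ht)) (sub_nonneg.mpr hab)

/-- a straight segment -/
theorem seg {ρ : ℝ} (hρ : 0 < ρ) (hD : segment ℝ p q ⊆ D) (hn : ∀ z ∈ segment ℝ p q, ρ ≤ ‖z‖) :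
    Conn D p q (‖q - p‖ / ρ) := by
  have hm : ∀ t ∈ Icc (0 : ℝ) 1, p + t • (q - p) ∈ segment ℝ p q := by
    intro t ht
    rw [segment_eq_image']
    exact ⟨t, ht, rfl⟩
  refine conn_mk (fun t : ℝ => p + t • (q - p)) (fun _ => q - p) (fun t ht => hD (hm t ht))
    (fun t ht => ?_) (fun t ht => ?_) (by simp) (by simp)
  · have h1 : HasDerivAt (fun t : ℝ => p + t • (q - p)) ((1 : ℝ) • (q - p)) t :=
      ((hasDerivAt_id t).smul_const (q - p)).const_add p
    simpa using h1.hasDerivWithinAt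
  · rw [div_mul_eq_mul_div, le_div_iff₀ hρ]
    exact mul_le_mul_of_nonneg_left (hn _ (hm t ht)) (norm_nonneg _)

theorem local_conn (hD : IsOpen D) (h0 : (0 : ℂ) ∉ D) (hp : p ∈ D) {ε : ℝ} (hε : 0 < ε) :
    ∃ δ > 0, ∀ q ∈ Metric.ball p δ, Conn D p q ε := by
  obtain ⟨r, hr, hrD⟩ := Metric.isOpen_iff.mp hD p hp
  have hp0 : p ≠ 0 := fun h => h0 (h ▸ hp)
  have hp' : 0 < ‖p‖ := norm_pos_iff.mpr hp0
  refine ⟨min r (min (‖p‖ / 2) (ε * (‖p‖ / 2))), by positivity, fun q hq => ?_⟩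
  rw [Metric.mem_ball, dist_eq_norm, lt_min_iff, lt_min_iff] at hq
  obtain ⟨h1, h2, h3⟩ := hq
  have hseg : ∀ z ∈ segment ℝ p q, ‖z - p‖ ≤ ‖q - p‖ := by
    intro z hz
    have := (convex_closedBall p ‖q - p‖).segment_subset (x := p) (y := q) (by simp)
      (by simp [dist_eq_norm]) hz
    simpa [dist_eq_norm] using this
  have hc := Conn.seg (D := D) (p := p) (q := q) (ρ := ‖p‖ / 2) (by positivity)
    (fun z hz => hrD (by
      rw [Metric.mem_ball, dist_eq_norm]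
      exact (hseg z hz).trans_lt h1))
    (fun z hz => by
      have := hseg z hz
      have h4 : ‖p‖ ≤ ‖z‖ + ‖z - p‖ := by
        calc ‖p‖ = ‖z - (z - p)‖ := by congr 1; ring
          _ ≤ ‖z‖ + ‖z - p‖ := norm_sub_le _ _
      linarith)
  refine hc.mono ?_
  rw [div_le_iff₀ (by positivity)]
  exact h3.le

/-- image under a map with `|F'|·|z| ≤ k |F z|` -/
theorem map (h0 : (0 : ℂ) ∉ D) (F F' : ℂ → ℂ) {k : ℝ} (hk : 0 ≤ k) (hF : ∀ z ∈ D, F z ∈ D')
    (hd : ∀ z ∈ D, HasDerivAt F (F' z) z) (hb : ∀ z ∈ D, ‖F' z‖ * ‖z‖ ≤ k * ‖F z‖)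
    (h : Conn D p q l) : Conn D' (F p) (F q) (k * l) := by
  induction h with
  | path c c' l hD hc hb' =>
    have hl : 0 ≤ l := nonneg h0 (Conn.path c c' l hD hc hb')
    refine conn_mk (fun t => F (c t)) (fun t => F' (c t) * c' t) (fun t ht => hF _ (hD t ht))
      (fun t ht => ?_) (fun t ht => ?_) rfl rfl
    · exact HasDerivAt.comp_hasDerivWithinAt t (hd _ (hD t ht)) (hc t ht)
    · rw [norm_mul]
      calc ‖F' (c t)‖ * ‖c' t‖ ≤ ‖F' (c t)‖ * (l * ‖c t‖) :=
            mul_le_mul_of_nonneg_left (hb' t ht) (norm_nonneg _)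
        _ = l * (‖F' (c t)‖ * ‖c t‖) := by ring
        _ ≤ l * (k * ‖F (c t)‖) := mul_le_mul_of_nonneg_left (hb _ (hD t ht)) hl
        _ = k * l * ‖F (c t)‖ := by ring
  | trans h h' ih ih' =>
    rw [mul_add]
    exact Conn.trans ih ih'

theorem conn_all (hD : IsOpen D) (h0 : (0 : ℂ) ∉ D) (hc : IsPreconnected D) (hp : p ∈ D)
    (hq : q ∈ D) : ∃ M : ℝ, Conn D p q M := by
  refine hc.induction₂ (fun x y => ∃ M : ℝ, Conn D x y M) ?_ ?_ ?_ hp hq
  · intro x hx
    obtain ⟨δ, hδ, h⟩ := local_conn hD h0 hx one_pos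
    exact mem_nhdsWithin_of_mem_nhds (Filter.mem_of_superset (Metric.ball_mem_nhds x hδ)
      (fun y hy => ⟨1, h y hy⟩))
  · rintro x y z hx hy hz ⟨M, hM⟩ ⟨N, hN⟩
    exact ⟨M + N, Conn.trans hM hN⟩
  · rintro x y hx hy ⟨M, hM⟩
    exact ⟨M, hM.symm⟩

theorem compact (hD : IsOpen D) (h0 : (0 : ℂ) ∉ D) (hc : IsPreconnected D) {K : Set ℂ}
    (hK : IsCompact K) (hKD : K ⊆ D) : ∃ M : ℝ, ∀ p ∈ K, ∀ q ∈ K, Conn D p q M := by
  rcases K.eq_empty_or_nonempty with rfl | ⟨p₀, hp₀⟩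
  · exact ⟨0, by simp⟩
  have key : ∃ M : ℝ, ∀ x ∈ K, Conn D p₀ x M := by
    refine hK.induction_on (p := fun S => ∃ M : ℝ, ∀ x ∈ S, Conn D p₀ x M) ⟨0, by simp⟩ ?_ ?_ ?_
    · rintro S T hST ⟨M, hM⟩
      exact ⟨M, fun x hx => hM x (hST hx)⟩
    · rintro S T ⟨M, hM⟩ ⟨N, hN⟩
      refine ⟨max M N, ?_⟩
      rintro x (hx | hx)
      · exact (hM x hx).mono (le_max_left _ _)
      · exact (hN x hx).mono (le_max_right _ _)
    · intro x hx
      obtain ⟨δ, hδ, h⟩ := local_conn hD h0 (hKD hx) one_pos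
      obtain ⟨M, hM⟩ := conn_all hD h0 hc (hKD hp₀) (hKD hx)
      exact ⟨Metric.ball x δ, mem_nhdsWithin_of_mem_nhds (Metric.ball_mem_nhds x hδ), M + 1,
        fun y hy => Conn.trans hM (h y hy)⟩
  obtain ⟨M, hM⟩ := key
  exact ⟨M + M, fun p hp q hq => Conn.trans (hM p hp).symm (hM q hq)⟩

end Conn

end PJ
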