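import Pool.Agent.Lib.H31J.AOrd
import Pool.Agent.Lib.H31J.AConn

/-!
# Chunk A-REG: paths in the regions far to the right

`reg`: `z, z' ∈ D`, `Re ≥ Λ`, `pos z = pos z' = e`.  By `order`, `pos_iff`, `far`, a point `z` with `Re z ≥ Λ` is in `D` with
`pos z = e` iff `φ_a(Re z) < Im z` (if `e ≥ 1`, `a` the curve with `rk a = e-1`) and `Im z < φ_b(Re z)` (if
`e ≤ m`, `b` the curve with `rk b = e`).
* `1 ≤ e ≤ m`: let `θ ∈ (0,1)` with `Im z = (1-θ)φ_a + θφ_b` at `Re z`; go along
  `s ↦ s + i((1-θ)φ_a(s) + θφ_b(s))` from `s = Re z` to `Re z'` (use the parameter `s = Re z · exp(τ)`; derivative bounded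
  by `1.01`, modulus `≥ s`: length `≤ 1.01 |log (Re z'/Re z)|`), then along the vertical segment to `z'`
  (length `≤ 40/Λ`).  `Re z ≤ ‖z‖ ≤ Re z + 20`.
* `e = m+1`: `a` the top curve, `h = Im z - φ_a(Re z) > 0`, `h'` the same for `z'`, `X = max ‖z‖ ‖z'‖`.  Go along
  `s ↦ s + i(φ_a(s) + h)` from `Re z` to `X`, vertically at `Re = X` to height `φ_a(X) + h'`, and back to
  `z'`.  `‖s + i(φ_a(s)+h)‖ ≥ (s + h)/4`, `s + h ≥ ‖z‖/2`; first length `≤ 5 log ((X+h)/(Re z + h)) ≤ 5 log (6 X/‖z‖)`,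
  vertical: `≤ (h + h')/X ≤ 4`.
* `e = 0`: the mirror image.
(`phi_deriv` holds for `x > Re v_i`, and `Re v_i ≤ r_i + 25 < Λ`.)
-/

set_option autoImplicit false

namespace PJ

namespace Par

open Set Filter

variable {C : Comb} (P : Par C)

theorem reg_exists_rk (hC : C.Good) {e : ℕ} (he : e ≤ C.m) : ∃ a, a ≤ C.m ∧ C.rk a = e := by
  have h1 : (Finset.range (C.m + 1)).image C.rk = Finset.range (C.m + 1) := by
    apply Finset.eq_of_subset_of_card_le
    · intro x hx
      obtain ⟨i, hi, rfl⟩ := Finset.mem_image.1 hx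
      have := hC.rk_le i (by simpa [Nat.lt_succ_iff] using hi)
      simpa [Nat.lt_succ_iff] using this
    · rw [Finset.card_image_of_injOn]
      intro i hi j hj hij
      exact hC.rk_inj i (by simpa [Nat.lt_succ_iff] using hi) j
        (by simpa [Nat.lt_succ_iff] using hj) hij
  have h2 : e ∈ (Finset.range (C.m + 1)).image C.rk := by
    rw [h1]; simpa [Nat.lt_succ_iff] using he
  obtain ⟨a, ha, hae⟩ := Finset.mem_image.1 h2
  exact ⟨a, by simpa [Nat.lt_succ_iff] using ha, hae⟩

theorem reg_order_le (hC : C.Good) {i i' : ℕ} (hi : i ≤ C.m) (hi' : i' ≤ C.m)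
    (h : C.rk i ≤ C.rk i') {x : ℝ} (hx : P.Lam ≤ x) : P.phi i x ≤ P.phi i' x := by
  rcases lt_or_eq_of_le h with h | h
  · exact (P.order hC hi hi' h hx).le
  · rw [hC.rk_inj i hi i' hi' h]

theorem reg_mem_D (hC : C.Good) {e : ℕ} (hem : e ≤ C.m + 1) {w : ℂ} (hw : P.Lam ≤ w.re)
    (h1 : ∀ a, a ≤ C.m → C.rk a + 1 = e → P.phi a w.re < w.im)
    (h2 : ∀ b, b ≤ C.m → C.rk b = e → w.im < P.phi b w.re) : w ∈ P.D := by
  rw [P.far hC hw]
  intro i hi
  have hm := hC.rk_le i hi
  by_cases h : C.rk i < e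
  · obtain ⟨a, ha, hae⟩ := reg_exists_rk (C := C) hC (e := e - 1) (by omega)
    have := h1 a ha (by omega)
    have h3 := P.reg_order_le hC hi ha (by omega) hw
    exact ne_of_lt (lt_of_le_of_lt h3 this)
  · obtain ⟨b, hb, hbe⟩ := reg_exists_rk (C := C) hC (e := e) (by omega)
    have := h2 b hb hbe
    have h3 := P.reg_order_le hC hb hi (by omega) hw
    exact ne_of_gt (lt_of_lt_of_le this h3)

theorem reg_below (hC : C.Good) {z : ℂ} (hz : z ∈ P.D) (hzr : P.Lam ≤ z.re) {a : ℕ}
    (ha : a ≤ C.m) (h : C.rk a + 1 = P.pos z) : P.phi a z.re < z.im :=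
  (P.pos_iff hC hz hzr ha).2 (by omega)

theorem reg_above (hC : C.Good) {z : ℂ} (hz : z ∈ P.D) (hzr : P.Lam ≤ z.re) {b : ℕ}
    (hb : b ≤ C.m) (h : C.rk b = P.pos z) : z.im < P.phi b z.re := by
  have h1 : ¬ P.phi b z.re < z.im := by
    rw [P.pos_iff hC hz hzr hb]; omega
  have h2 := (P.far hC hzr).1 hz b hb
  exact lt_of_le_of_ne (not_lt.1 h1) (Ne.symm h2)

theorem reg_phi_deriv (hC : C.Good) {i : ℕ} (hi : i ≤ C.m) {x : ℝ} (hx : P.Lam ≤ x) :
    ∃ d : ℝ, |d| ≤ 1 / 1000 ∧ HasDerivAt (P.phi i) d x := by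
  apply P.phi_deriv hC hi
  have hL := P.Lam_ge'
  rcases Nat.eq_zero_or_pos i with rfl | h
  · rw [P.v0]; simp; linarith
  · have h1 := P.Lam_ge hC h hi
    have h2 := (P.v_re h hi).2.1
    have h3 := P.r_ge h
    have h4 := P.R_ge
    linarith

/-- the basic path along a graph -/
theorem reg_path {D : Set ℂ} {x X k : ℝ} (hx : 0 < x + k) (hxX : x ≤ X) (h h' : ℝ → ℝ)
    (hD : ∀ s ∈ Icc x X, (s : ℂ) + (h s : ℂ) * Complex.I ∈ D)
    (hd : ∀ s ∈ Icc x X, HasDerivAt h (h' s) s) (hb : ∀ s ∈ Icc x X, |h' s| ≤ 1 / 100)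
    (hn : ∀ s ∈ Icc x X, s + k ≤ 3 * ‖(s : ℂ) + (h s : ℂ) * Complex.I‖) :
    Conn D ((x : ℂ) + (h x : ℂ) * Complex.I) ((X : ℂ) + (h X : ℂ) * Complex.I)
      ((Real.log (X + k) - Real.log (x + k)) * 4) := by
  have hX : 0 < X + k := by linarith
  have hab : Real.log (x + k) ≤ Real.log (X + k) := Real.log_le_log hx (by linarith)
  have hmem : ∀ t ∈ Icc (Real.log (x + k)) (Real.log (X + k)), Real.exp t - k ∈ Icc x X := by
    intro t ht
    have h1 : x + k ≤ Real.exp t := by
      rw [← Real.exp_log hx]; exact Real.exp_le_exp.2 ht.1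
    have h2 : Real.exp t ≤ X + k := by
      rw [← Real.exp_log hX]; exact Real.exp_le_exp.2 ht.2
    exact ⟨by linarith, by linarith⟩
  have key := Conn.path_ab (D := D) hab
    (fun t : ℝ => ((Real.exp t - k : ℝ) : ℂ) + (h (Real.exp t - k) : ℂ) * Complex.I)
    (fun t : ℝ => (Real.exp t : ℂ) * (1 + (h' (Real.exp t - k) : ℂ) * Complex.I))
    (l := 4) (by norm_num)
    (fun t ht => hD _ (hmem t ht))
    (by
      intro t ht
      have h1 : HasDerivAt (fun t : ℝ => Real.exp t - k) (Real.exp t) t :=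
        (Real.hasDerivAt_exp t).sub_const k
      have h2 : HasDerivAt (fun t : ℝ => h (Real.exp t - k))
          (h' (Real.exp t - k) * Real.exp t) t := (hd _ (hmem t ht)).comp t h1
      have h3 := h1.ofReal_comp
      have h4 := h2.ofReal_comp
      have h5 : HasDerivAt (fun t : ℝ => ((Real.exp t - k : ℝ) : ℂ)
          + (h (Real.exp t - k) : ℂ) * Complex.I)
          ((Real.exp t : ℂ) + ((h' (Real.exp t - k) * Real.exp t : ℝ) : ℂ) * Complex.I) t :=
        h3.add (h4.mul_const Complex.I)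
      refine HasDerivAt.hasDerivWithinAt ?_
      refine h5.congr_deriv ?_
      push_cast
      ring)
    (by
      intro t ht
      have h1 := hb _ (hmem t ht)
      have h2 := hn _ (hmem t ht)
      have h3 : ‖(Real.exp t : ℂ) * (1 + (h' (Real.exp t - k) : ℂ) * Complex.I)‖
          ≤ Real.exp t * (1 + 1 / 100) := by
        rw [norm_mul]
        have e1 : ‖(Real.exp t : ℂ)‖ = Real.exp t := by
          rw [Complex.norm_real, Real.norm_eq_abs, abs_of_pos (Real.exp_pos t)]
        rw [e1]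
        apply mul_le_mul_of_nonneg_left _ (Real.exp_pos t).le
        refine (norm_add_le _ _).trans ?_
        rw [norm_one, norm_mul, Complex.norm_I, mul_one, Complex.norm_real, Real.norm_eq_abs]
        linarith
      have h4 : Real.exp t ≤ 3 * ‖((Real.exp t - k : ℝ) : ℂ)
          + (h (Real.exp t - k) : ℂ) * Complex.I‖ := by linarith
      have h5 := Real.exp_pos t
      show _ ≤ 4 * ‖((Real.exp t - k : ℝ) : ℂ) + (h (Real.exp t - k) : ℂ) * Complex.I‖
      linarith)
  simp only [Real.exp_log hx, Real.exp_log hX, add_sub_cancel_right] at key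
  exact key

/-- vertical segments -/
theorem reg_vert {D : Set ℂ} {x y y' : ℝ} (hx : 0 < x)
    (hD : ∀ s ∈ Icc (min y y') (max y y'), (x : ℂ) + (s : ℂ) * Complex.I ∈ D) :
    Conn D ((x : ℂ) + (y : ℂ) * Complex.I) ((x : ℂ) + (y' : ℂ) * Complex.I) (|y' - y| / x) := by
  have hseg : ∀ z ∈ segment ℝ ((x : ℂ) + (y : ℂ) * Complex.I) ((x : ℂ) + (y' : ℂ) * Complex.I),
      ∃ s ∈ Icc (min y y') (max y y'), z = (x : ℂ) + (s : ℂ) * Complex.I := by
    rintro z ⟨a, b, ha, hb, hab, rfl⟩
    refine ⟨a * y + b * y', ⟨?_, ?_⟩, ?_⟩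
    · have h1 : a * min y y' ≤ a * y := mul_le_mul_of_nonneg_left (min_le_left _ _) ha
      have h2 : b * min y y' ≤ b * y' := mul_le_mul_of_nonneg_left (min_le_right _ _) hb
      have h3 : a * min y y' + b * min y y' = min y y' := by rw [← add_mul, hab, one_mul]
      linarith
    · have h1 : a * y ≤ a * max y y' := mul_le_mul_of_nonneg_left (le_max_left _ _) ha
      have h2 : b * y' ≤ b * max y y' := mul_le_mul_of_nonneg_left (le_max_right _ _) hb
      have h3 : a * max y y' + b * max y y' = max y y' := by rw [← add_mul, hab, one_mul]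
      linarith
    · have : (a : ℂ) + (b : ℂ) = 1 := by exact_mod_cast hab
      simp only [Complex.real_smul]
      push_cast
      linear_combination (x : ℂ) * this
  have := Conn.seg (D := D) (p := (x : ℂ) + (y : ℂ) * Complex.I)
    (q := (x : ℂ) + (y' : ℂ) * Complex.I) hx
    (fun z hz => by obtain ⟨s, hs, rfl⟩ := hseg z hz; exact hD s hs)
    (fun z hz => by
      obtain ⟨s, hs, rfl⟩ := hseg z hz
      have h1 : ((x : ℂ) + (s : ℂ) * Complex.I).re = x := by simp
      calc x = ((x : ℂ) + (s : ℂ) * Complex.I).re := h1.symm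
        _ ≤ |((x : ℂ) + (s : ℂ) * Complex.I).re| := le_abs_self _
        _ ≤ _ := Complex.abs_re_le_norm _)
  refine Conn.mono this ?_
  apply le_of_eq
  congr 1
  have : (x : ℂ) + (y' : ℂ) * Complex.I - ((x : ℂ) + (y : ℂ) * Complex.I)
      = ((y' - y : ℝ) : ℂ) * Complex.I := by push_cast; ring
  rw [this, norm_mul, Complex.norm_I, mul_one, Complex.norm_real, Real.norm_eq_abs]

theorem reg_phi_deriv' (hC : C.Good) {i : ℕ} (hi : i ≤ C.m) {x : ℝ} (hx : P.Lam ≤ x) :
    |deriv (P.phi i) x| ≤ 1 / 1000 ∧ HasDerivAt (P.phi i) (deriv (P.phi i) x) x := by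
  obtain ⟨d, hd, h⟩ := P.reg_phi_deriv hC hi hx
  rw [h.deriv]
  exact ⟨hd, h⟩

theorem reg_eta (z : ℂ) : z = (z.re : ℂ) + (z.im : ℂ) * Complex.I := (Complex.re_add_im z).symm

theorem reg_mid (hC : C.Good) {e : ℕ} (hem : e ≤ C.m + 1) {a b : ℕ} (ha : a ≤ C.m) (hb : b ≤ C.m)
    (hae : C.rk a + 1 = e) (hbe : C.rk b = e) {z z' : ℂ} (hz : z ∈ P.D) (hz' : z' ∈ P.D)
    (hzr : P.Lam ≤ z.re) (hzr' : P.Lam ≤ z'.re) (hpz : P.pos z = e) (hpz' : P.pos z' = e)
    (hle : z.re ≤ z'.re) : Conn P.D z z' ((Real.log z'.re - Real.log z.re) * 4 + 1) := by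
  have hL := P.Lam_ge'
  have hx0 : 0 < z.re := by linarith
  have hx0' : 0 < z'.re := by linarith
  have h1 := P.reg_below hC hz hzr ha (by rw [hae, hpz])
  have h2 := P.reg_above hC hz hzr hb (by rw [hbe, hpz])
  have h1' := P.reg_below hC hz' hzr' ha (by rw [hae, hpz'])
  have h2' := P.reg_above hC hz' hzr' hb (by rw [hbe, hpz'])
  set θ : ℝ := (z.im - P.phi a z.re) / (P.phi b z.re - P.phi a z.re) with hθ
  have hd : 0 < P.phi b z.re - P.phi a z.re := by linarith
  have hθ0 : 0 < θ := div_pos (by linarith) hd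
  have hθ1 : θ < 1 := by rw [hθ, div_lt_one hd]; linarith
  have hθe : (1 - θ) * P.phi a z.re + θ * P.phi b z.re = z.im := by
    have : θ * (P.phi b z.re - P.phi a z.re) = z.im - P.phi a z.re := by
      rw [hθ]; field_simp
    linarith
  have hab : ∀ s, P.Lam ≤ s → P.phi a s < P.phi b s := by
    intro s hs
    exact P.order hC ha hb (by omega) hs
  have hin : ∀ s, P.Lam ≤ s → ∀ y, P.phi a s < y → y < P.phi b s →
      (s : ℂ) + (y : ℂ) * Complex.I ∈ P.D := by
    intro s hs y hy1 hy2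
    apply P.reg_mem_D hC hem (by simpa using hs)
    · intro a' ha' hae'
      have : a' = a := hC.rk_inj a' ha' a ha (by omega)
      subst this
      simpa using hy1
    · intro b' hb' hbe'
      have : b' = b := hC.rk_inj b' hb' b hb (by omega)
      subst this
      simpa using hy2
  have hp1 := reg_path (D := P.D) (x := z.re) (X := z'.re) (k := 0) (by linarith) hle
    (fun s => (1 - θ) * P.phi a s + θ * P.phi b s)
    (fun s => (1 - θ) * deriv (P.phi a) s + θ * deriv (P.phi b) s)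
    (by
      intro s hs
      have hs' : P.Lam ≤ s := hzr.trans hs.1
      have h3 := hab s hs'
      refine hin s hs' _ ?_ ?_
      · show P.phi a s < (1 - θ) * P.phi a s + θ * P.phi b s
        nlinarith
      · show (1 - θ) * P.phi a s + θ * P.phi b s < P.phi b s
        nlinarith)
    (by
      intro s hs
      have hs' : P.Lam ≤ s := hzr.trans hs.1
      exact ((P.reg_phi_deriv' hC ha hs').2.const_mul _).add
        ((P.reg_phi_deriv' hC hb hs').2.const_mul _))
    (by
      intro s hs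
      have hs' : P.Lam ≤ s := hzr.trans hs.1
      have e1 := abs_le.1 (P.reg_phi_deriv' hC ha hs').1
      have e2 := abs_le.1 (P.reg_phi_deriv' hC hb hs').1
      show |(1 - θ) * deriv (P.phi a) s + θ * deriv (P.phi b) s| ≤ 1 / 100
      rw [abs_le]
      constructor <;> nlinarith)
    (by
      intro s hs
      have hs' : P.Lam ≤ s := hzr.trans hs.1
      have e1 := Complex.abs_re_le_norm ((s : ℂ)
        + (((1 - θ) * P.phi a s + θ * P.phi b s : ℝ) : ℂ) * Complex.I)
      have e2 : ((s : ℂ)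
        + (((1 - θ) * P.phi a s + θ * P.phi b s : ℝ) : ℂ) * Complex.I).re = s := by simp
      rw [e2] at e1
      have e3 := le_abs_self s
      show s + 0 ≤ 3 * ‖(s : ℂ) + (((1 - θ) * P.phi a s + θ * P.phi b s : ℝ) : ℂ) * Complex.I‖
      linarith)
  have hp2 := reg_vert (D := P.D) (x := z'.re)
    (y := (1 - θ) * P.phi a z'.re + θ * P.phi b z'.re) (y' := z'.im) hx0'
    (by
      intro s hs
      have h3 := hab _ hzr'
      have e1 : P.phi a z'.re < (1 - θ) * P.phi a z'.re + θ * P.phi b z'.re := by nlinarith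
      have e2 : (1 - θ) * P.phi a z'.re + θ * P.phi b z'.re < P.phi b z'.re := by nlinarith
      exact hin _ hzr' s (lt_of_lt_of_le (lt_min e1 h1') hs.1)
        (lt_of_le_of_lt hs.2 (max_lt e2 h2')))
  simp only [hθe, ← reg_eta, add_zero] at hp1 hp2
  refine Conn.mono (hp1.trans hp2) ?_
  have h3 := hab _ hzr'
  have e1 : P.phi a z'.re < (1 - θ) * P.phi a z'.re + θ * P.phi b z'.re := by nlinarith
  have e2 : (1 - θ) * P.phi a z'.re + θ * P.phi b z'.re < P.phi b z'.re := by nlinarith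
  have b1 := abs_le.1 (P.phi_bd hC ha z'.re)
  have b2 := abs_le.1 (P.phi_bd hC hb z'.re)
  have e3 : |z'.im - ((1 - θ) * P.phi a z'.re + θ * P.phi b z'.re)| / z'.re ≤ 1 := by
    rw [div_le_one hx0', abs_le]
    constructor <;> linarith
  linarith

/-- half of the path in the top or bottom region -/
theorem reg_half (hC : C.Good) {i : ℕ} (hi : i ≤ C.m) {σ : ℝ} (hσ : σ * σ = 1) (hσ' : |σ| = 1)
    (hD : ∀ w : ℂ, P.Lam ≤ w.re → 0 < σ * (w.im - P.phi i w.re) → w ∈ P.D) {z : ℂ}
    (hzr : P.Lam ≤ z.re) (hz : 0 < σ * (z.im - P.phi i z.re)) {X : ℝ} (hX : ‖z‖ ≤ X) :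
    Conn P.D z ((X : ℂ) + ((P.phi i X + (z.im - P.phi i z.re) : ℝ) : ℂ) * Complex.I)
      ((Real.log X - Real.log ‖z‖ + 2) * 4) ∧ σ * (z.im - P.phi i z.re) ≤ ‖z‖ + 20 := by
  have hL := P.Lam_ge'
  have hx0 : 0 < z.re := by linarith
  have hxn : z.re ≤ ‖z‖ := (le_abs_self _).trans (Complex.abs_re_le_norm z)
  have hyn : |z.im| ≤ ‖z‖ := Complex.abs_im_le_norm z
  set k : ℝ := σ * (z.im - P.phi i z.re) with hk
  have hσk : σ * k = z.im - P.phi i z.re := by rw [hk, ← mul_assoc, hσ, one_mul]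
  have hkabs : k = |z.im - P.phi i z.re| := by
    rw [← hσk, abs_mul, hσ', one_mul, abs_of_pos hz]
  have hbd := P.phi_bd hC hi z.re
  have hk1 : k ≤ ‖z‖ + 20 := by
    rw [hkabs]
    have := abs_sub z.im (P.phi i z.re)
    linarith
  have hk2 : ‖z‖ ≤ z.re + k + 20 := by
    have e1 : ‖z‖ ≤ |z.re| + |z.im| := Complex.norm_le_abs_re_add_abs_im z
    have e2 : |z.im| ≤ |z.im - P.phi i z.re| + |P.phi i z.re| := by
      have := abs_add_le (z.im - P.phi i z.re) (P.phi i z.re)
      simpa using this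
    rw [abs_of_pos hx0] at e1
    rw [hkabs]
    linarith
  refine ⟨?_, hk1⟩
  have hp1 := reg_path (D := P.D) (x := z.re) (X := X) (k := k) (by linarith) (hxn.trans hX)
    (fun s => P.phi i s + σ * k)
    (fun s => deriv (P.phi i) s)
    (by
      intro s hs
      have hs' : P.Lam ≤ s := hzr.trans hs.1
      apply hD
      · simpa using hs'
      · have e1 : ((s : ℂ) + ((P.phi i s + σ * k : ℝ) : ℂ) * Complex.I).im
            = P.phi i s + σ * k := by simp
        have e2 : ((s : ℂ) + ((P.phi i s + σ * k : ℝ) : ℂ) * Complex.I).re = s := by simp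
        show 0 < σ * (((s : ℂ) + ((P.phi i s + σ * k : ℝ) : ℂ) * Complex.I).im - _)
        rw [e1, e2, add_sub_cancel_left, ← mul_assoc, hσ, one_mul]
        exact hz)
    (by
      intro s hs
      have hs' : P.Lam ≤ s := hzr.trans hs.1
      exact (P.reg_phi_deriv' hC hi hs').2.add_const _)
    (by
      intro s hs
      have hs' : P.Lam ≤ s := hzr.trans hs.1
      have := (P.reg_phi_deriv' hC hi hs').1
      exact this.trans (by norm_num))
    (by
      intro s hs
      have hs' : P.Lam ≤ s := hzr.trans hs.1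
      have e1 : ((s : ℂ) + ((P.phi i s + σ * k : ℝ) : ℂ) * Complex.I).im
            = P.phi i s + σ * k := by simp
      have e2 : ((s : ℂ) + ((P.phi i s + σ * k : ℝ) : ℂ) * Complex.I).re = s := by simp
      have e3 := Complex.abs_re_le_norm ((s : ℂ) + ((P.phi i s + σ * k : ℝ) : ℂ) * Complex.I)
      have e4 := Complex.abs_im_le_norm ((s : ℂ) + ((P.phi i s + σ * k : ℝ) : ℂ) * Complex.I)
      rw [e2] at e3
      rw [e1] at e4
      have e5 := le_abs_self s
      have e6 : k - 20 ≤ |P.phi i s + σ * k| := by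
        have h1 : |σ * k| = k := by rw [abs_mul, hσ', one_mul, abs_of_pos hz]
        have h2 : |σ * k| ≤ |P.phi i s + σ * k| + |P.phi i s| := by
          have := abs_sub (P.phi i s + σ * k) (P.phi i s)
          simpa using this
        have h3 := P.phi_bd hC hi s
        linarith
      show s + k ≤ 3 * ‖(s : ℂ) + ((P.phi i s + σ * k : ℝ) : ℂ) * Complex.I‖
      linarith)
  have e0 : P.phi i z.re + σ * k = z.im := by rw [hσk]; ring
  simp only [e0, ← reg_eta] at hp1
  rw [hσk] at hp1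
  refine Conn.mono hp1 ?_
  have hX0 : 0 < X := by linarith
  have hz0 : 0 < ‖z‖ := by linarith
  have l1 : Real.log (X + k) ≤ Real.log 3 + Real.log X := by
    rw [← Real.log_mul (by norm_num) hX0.ne']
    apply Real.log_le_log (by linarith)
    linarith
  have l2 : Real.log ‖z‖ ≤ Real.log 2 + Real.log (z.re + k) := by
    rw [← Real.log_mul (by norm_num) (by linarith)]
    apply Real.log_le_log hz0
    linarith
  have l3 : Real.log 3 + Real.log 2 ≤ 2 := by
    rw [← Real.log_mul (by norm_num) (by norm_num)]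
    rw [Real.log_le_iff_le_exp (by norm_num)]
    have h1 := Real.exp_one_gt_d9
    have h2 : Real.exp 2 = Real.exp 1 * Real.exp 1 := by rw [← Real.exp_add]; norm_num
    rw [h2]
    nlinarith
  linarith

theorem reg_side (hC : C.Good) {i : ℕ} (hi : i ≤ C.m) {σ : ℝ} (hσ : σ * σ = 1) (hσ' : |σ| = 1)
    (hD : ∀ w : ℂ, P.Lam ≤ w.re → 0 < σ * (w.im - P.phi i w.re) → w ∈ P.D) {z z' : ℂ}
    (hzr : P.Lam ≤ z.re) (hz : 0 < σ * (z.im - P.phi i z.re))
    (hzr' : P.Lam ≤ z'.re) (hz' : 0 < σ * (z'.im - P.phi i z'.re)) :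
    Conn P.D z z' (18 * (1 + |Real.log ‖z‖ - Real.log ‖z'‖|)) := by
  have hL := P.Lam_ge'
  have hxn : z.re ≤ ‖z‖ := (le_abs_self _).trans (Complex.abs_re_le_norm z)
  have hxn' : z'.re ≤ ‖z'‖ := (le_abs_self _).trans (Complex.abs_re_le_norm z')
  set X : ℝ := max ‖z‖ ‖z'‖ with hX
  obtain ⟨c1, k1⟩ := P.reg_half hC hi hσ hσ' hD hzr hz (X := X) (le_max_left _ _)
  obtain ⟨c2, k2⟩ := P.reg_half hC hi hσ hσ' hD hzr' hz' (X := X) (le_max_right _ _)
  have hXz : ‖z‖ ≤ X := le_max_left _ _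
  have hXz' : ‖z'‖ ≤ X := le_max_right _ _
  have hX0 : 0 < X := by linarith
  have c3 := reg_vert (D := P.D) (x := X) (y := P.phi i X + (z.im - P.phi i z.re))
    (y' := P.phi i X + (z'.im - P.phi i z'.re)) hX0
    (by
      intro s hs
      apply hD
      · have : P.Lam ≤ X := by linarith
        simpa using this
      · have e1 : ((X : ℂ) + (s : ℂ) * Complex.I).im = s := by simp
        have e2 : ((X : ℂ) + (s : ℂ) * Complex.I).re = X := by simp
        rw [e1, e2]
        have hcase : σ = 1 ∨ σ = -1 := by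
          have : (σ - 1) * (σ + 1) = 0 := by ring_nf; nlinarith
          rcases mul_eq_zero.1 this with h | h
          · left; linarith
          · right; linarith
        rcases hcase with h | h
        · subst h
          have : P.phi i X < s := lt_of_lt_of_le (lt_min (by linarith) (by linarith)) hs.1
          linarith
        · subst h
          have : s < P.phi i X := lt_of_le_of_lt hs.2 (max_lt (by linarith) (by linarith))
          linarith)
  refine Conn.mono ((c1.trans c3).trans c2.symm) ?_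
  have hv : |P.phi i X + (z'.im - P.phi i z'.re) - (P.phi i X + (z.im - P.phi i z.re))| / X
      ≤ 2 := by
    rw [div_le_iff₀ hX0]
    have e1 : |σ * (z'.im - P.phi i z'.re) - σ * (z.im - P.phi i z.re)| =
        |P.phi i X + (z'.im - P.phi i z'.re) - (P.phi i X + (z.im - P.phi i z.re))| := by
      rw [← mul_sub, abs_mul, hσ', one_mul]
      congr 1
      ring
    rw [← e1, abs_le]
    constructor <;> linarith
  have hlz : Real.log X - Real.log ‖z‖ ≤ |Real.log ‖z‖ - Real.log ‖z'‖| := by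
    rcases max_choice ‖z‖ ‖z'‖ with h | h
    · rw [hX, h]; simp
    · rw [hX, h, abs_sub_comm]; exact le_abs_self _
  have hlz' : Real.log X - Real.log ‖z'‖ ≤ |Real.log ‖z‖ - Real.log ‖z'‖| := by
    rcases max_choice ‖z‖ ‖z'‖ with h | h
    · rw [hX, h]; exact le_abs_self _
    · rw [hX, h]; simp
  have := abs_nonneg (Real.log ‖z‖ - Real.log ‖z'‖)
  linarith

theorem reg_mid_log {z : ℂ} (hzr : P.Lam ≤ z.re) (hi : |z.im| ≤ 20) :
    Real.log z.re ≤ Real.log ‖z‖ ∧ Real.log ‖z‖ ≤ Real.log z.re + 1 / 2 := by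
  have hL := P.Lam_ge'
  have hx0 : 0 < z.re := by linarith
  have hxn : z.re ≤ ‖z‖ := (le_abs_self _).trans (Complex.abs_re_le_norm z)
  refine ⟨Real.log_le_log hx0 hxn, ?_⟩
  have e1 : ‖z‖ ≤ |z.re| + |z.im| := Complex.norm_le_abs_re_add_abs_im z
  rw [abs_of_pos hx0] at e1
  have e2 : ‖z‖ ≤ z.re * Real.exp (1 / 2) := by
    have := Real.add_one_le_exp (1 / 2 : ℝ)
    nlinarith
  calc Real.log ‖z‖ ≤ Real.log (z.re * Real.exp (1 / 2)) :=
        Real.log_le_log (by linarith) e2
    _ = Real.log z.re + 1 / 2 := by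
        rw [Real.log_mul hx0.ne' (Real.exp_pos _).ne', Real.log_exp]

theorem reg (hC : C.Good) : ∃ M : ℝ, 0 < M ∧ ∀ z z' : ℂ, z ∈ P.D → z' ∈ P.D → P.Lam ≤ z.re →
    P.Lam ≤ z'.re → P.pos z = P.pos z' →
    Conn P.D z z' (M * (1 + |Real.log ‖z‖ - Real.log ‖z'‖|)) := by
  refine ⟨18, by norm_num, ?_⟩
  intro z z' hz hz' hzr hzr' hpos
  have hem := P.pos_le z
  rcases Nat.eq_zero_or_pos (P.pos z) with h0 | h0
  · -- bottom
    obtain ⟨b, hb, hbe⟩ := reg_exists_rk (C := C) hC (e := 0) (Nat.zero_le _)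
    have h1 := P.reg_above hC hz hzr hb (by rw [hbe, h0])
    have h2 := P.reg_above hC hz' hzr' hb (by rw [hbe, ← hpos, h0])
    apply P.reg_side hC hb (σ := -1) (by norm_num) (by norm_num) _ hzr (by linarith) hzr'
      (by linarith)
    intro w hw hw'
    apply P.reg_mem_D hC (e := 0) (Nat.zero_le _) hw
    · intro a _ hae
      omega
    · intro b' hb' hbe'
      have : b' = b := hC.rk_inj b' hb' b hb (by omega)
      subst this
      linarith
  · rcases Nat.lt_or_ge C.m (P.pos z) with hm | hm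
    · -- top
      have hpe : P.pos z = C.m + 1 := by omega
      obtain ⟨a, ha, hae⟩ := reg_exists_rk (C := C) hC (e := C.m) le_rfl
      have h1 := P.reg_below hC hz hzr ha (by rw [hae, hpe])
      have h2 := P.reg_below hC hz' hzr' ha (by rw [hae, ← hpos, hpe])
      apply P.reg_side hC ha (σ := 1) (by norm_num) (by norm_num) _ hzr (by linarith) hzr'
        (by linarith)
      intro w hw hw'
      apply P.reg_mem_D hC (e := C.m + 1) le_rfl hw
      · intro a' ha' hae'
        have : a' = a := hC.rk_inj a' ha' a ha (by omega)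
        subst this
        linarith
      · intro b hb hbe
        have := hC.rk_le b hb
        omega
    · obtain ⟨a, ha, hae⟩ := reg_exists_rk (C := C) hC (e := P.pos z - 1) (by omega)
      obtain ⟨b, hb, hbe⟩ := reg_exists_rk (C := C) hC (e := P.pos z) hm
      have hz1 := P.reg_below hC hz hzr ha (by omega)
      have hz2 := P.reg_above hC hz hzr hb (by omega)
      have hz1' := P.reg_below hC hz' hzr' ha (by omega)
      have hz2' := P.reg_above hC hz' hzr' hb (by omega)
      have i1 : |z.im| ≤ 20 := by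
        have b1 := abs_le.1 (P.phi_bd hC ha z.re)
        have b2 := abs_le.1 (P.phi_bd hC hb z.re)
        rw [abs_le]; constructor <;> linarith
      have i1' : |z'.im| ≤ 20 := by
        have b1 := abs_le.1 (P.phi_bd hC ha z'.re)
        have b2 := abs_le.1 (P.phi_bd hC hb z'.re)
        rw [abs_le]; constructor <;> linarith
      obtain ⟨l1, l2⟩ := P.reg_mid_log hzr i1
      obtain ⟨l1', l2'⟩ := P.reg_mid_log hzr' i1'
      have n1 := abs_nonneg (Real.log ‖z‖ - Real.log ‖z'‖)
      have n2 := le_abs_self (Real.log ‖z‖ - Real.log ‖z'‖)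
      have n3 := neg_le_abs (Real.log ‖z‖ - Real.log ‖z'‖)
      rcases le_total z.re z'.re with h | h
      · refine Conn.mono (P.reg_mid hC hem ha hb (by omega) hbe hz hz' hzr hzr' rfl hpos.symm h) ?_
        linarith
      · refine Conn.mono (P.reg_mid hC hem ha hb (by omega) hbe hz' hz hzr' hzr hpos.symm rfl
          h).symm ?_
        linarith

end Par

end PJ
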