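import Pool.Agent.Lib.H31J.ABaseA
import Pool.Agent.Lib.H31J.AReg
import Pool.Agent.Lib.H31J.ACpt

/-!
# Chunk A-NEAR: every point far to the right is near a base point

`z ∈ D`, `Re z ≥ Λ`; find `p ∈ LL` with `pos (bb p) = pos z` and `|log ‖z‖ - log ‖bb p‖| ≤ M'` (`M'` independent of `z`), then `reg`.
Let `e = pos z ≤ m+1`.
* `1 ≤ e ≤ m`: take the point `(u,e',t_e)` of `exists_arc` for `e` (chosen once for each of the finitely many `e`) with the
  potential `t = max t_e (Re z + log ‖lam‖)` (`LL_up`).  `|Im z| ≤ 20` (`mid_im`), `|u_0| ≤ 3`,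
  `Re z ≤ ‖z‖ ≤ Re z + 20`, and by `bb_re`, `bb_im`: `Re z ≤ ‖bb p‖ ≤ Re z + t_e + ts + 40`; `Re z ≥ Λ ≥ 1`.
* `e = m+1`: take one `q ∈ LL` (`exists_arc` for `0`), `j = max 4 ⌈Im z/2π⌉`, `p = consPt j q` with the potential raised to
  `t = max t' (Re z + log ‖lam‖)`, `t' = log (1 + t_q + 2π|q_0|)` does not depend on `z`; `e_0 = de j _ = m+1` (`de_top`);
  `Im z ≥ -20` (`top_im`), so `|2πj - Im z| ≤ 60`; sizes comparable: `(Re + |Im|)/2 ≤ ‖·‖ ≤ Re + |Im|`.
* `e = 0`: mirror image with `j = min (-5) ⌊Im z/2π⌋` (`de_bot`, `bot_im`).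
-/

set_option autoImplicit false

namespace PJ

namespace Par

open Set Filter

variable {C : Comb} (P : Par C)

/-- comparison of sizes: `a` is `1 + potential + 2π|letter|` -/
theorem near_size (hC : C.Good) {z : ℂ} (hz : P.Lam ≤ z.re) {T t' : ℝ} (ht' : 0 ≤ t') (hT : t' ≤ T)
    {j : ℤ} (hj : |z.im - 2 * Real.pi * (j : ℝ)| ≤ 60) :
    |Real.log ‖z‖ - Real.log (1 + max t' (z.re + Real.log ‖P.lam‖) + 2 * Real.pi * |(j : ℝ)|)| ≤
      Real.log 61 + Real.log (63 + T + Real.log ‖P.lam‖) := by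
  have hts := P.bb_ts hC
  have hpi := Real.pi_pos
  have h5 := le_max_left t' (z.re + Real.log ‖P.lam‖)
  have h6 := le_max_right t' (z.re + Real.log ‖P.lam‖)
  have h7 : max t' (z.re + Real.log ‖P.lam‖) ≤ T + (z.re + Real.log ‖P.lam‖) := by
    apply max_le <;> linarith [hts.1, hts.2.1, hts.2.2]
  have h9 : |2 * Real.pi * (j : ℝ)| = 2 * Real.pi * |(j : ℝ)| := by
    rw [abs_mul, abs_of_pos (by positivity)]
  have h10 : |z.im| ≤ 2 * Real.pi * |(j : ℝ)| + 60 := by
    have := abs_add_le (z.im - 2 * Real.pi * (j : ℝ)) (2 * Real.pi * (j : ℝ))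
    rw [sub_add_cancel, h9] at this
    linarith
  have h11 : 2 * Real.pi * |(j : ℝ)| ≤ |z.im| + 60 := by
    have := abs_sub_abs_le_abs_sub (2 * Real.pi * (j : ℝ)) z.im
    rw [h9, abs_sub_comm] at this
    linarith
  have h12 := Complex.norm_le_abs_re_add_abs_im z
  rw [abs_of_nonneg (by linarith [hts.2.2] : (0 : ℝ) ≤ z.re)] at h12
  have h13 := Complex.re_le_norm z
  have h14 := Complex.abs_im_le_norm z
  set a := 1 + max t' (z.re + Real.log ‖P.lam‖) + 2 * Real.pi * |(j : ℝ)| with ha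
  have hu : 0 ≤ 2 * Real.pi * |(j : ℝ)| := by positivity
  have ha1 : 1 ≤ a := by linarith
  have hb1 : 1 ≤ ‖z‖ := by linarith [hts.2.2]
  have hA : ‖z‖ ≤ 61 * a := by linarith [hts.2.1]
  have hB : a ≤ (63 + T + Real.log ‖P.lam‖) * ‖z‖ := by
    have h15 : a ≤ 61 + T + Real.log ‖P.lam‖ + 2 * ‖z‖ := by linarith
    have h16 : 0 ≤ (61 + T + Real.log ‖P.lam‖) * (‖z‖ - 1) := by
      apply mul_nonneg <;> linarith [hts.2.1]
    nlinarith
  have hl1 : 0 ≤ Real.log 61 := Real.log_nonneg (by norm_num)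
  have hl2 : 0 ≤ Real.log (63 + T + Real.log ‖P.lam‖) := Real.log_nonneg (by linarith [hts.2.1])
  have hA' := Real.log_le_log (by linarith) hA
  have hB' := Real.log_le_log (by linarith) hB
  rw [Real.log_mul (by linarith) (by linarith)] at hA'
  rw [Real.log_mul (by linarith [hts.2.1]) (by linarith)] at hB'
  rw [abs_le]
  constructor <;> linarith

theorem bb_near (hC : C.Good) {c : ℕ → ℝ → ℂ} (hc : P.Cpt c) :
    ∃ M : ℝ, ∀ z ∈ P.D, P.Lam ≤ z.re → ∃ p ∈ C.LL, Conn P.D z (P.bb c p) M := by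
  obtain ⟨M0, hM0⟩ := P.bb_size hC hc
  obtain ⟨M1, hM1, hreg⟩ := P.reg hC
  have hex : ∀ e : ℕ, ∃ p : Pt, p ∈ C.LL ∧ (e ≤ C.m + 1 → p.2.1 0 = e ∧ ∀ n, |p.1 n| ≤ 3) := by
    intro e
    by_cases he : e ≤ C.m + 1
    · obtain ⟨p, hp, h1, h2⟩ := exists_arc C hC e he
      exact ⟨p, hp, fun _ => ⟨h1, h2⟩⟩
    · obtain ⟨p, hp, _⟩ := exists_arc C hC 0 (Nat.zero_le _)
      exact ⟨p, hp, fun h => absurd h he⟩
  choose F hF hF' using hex
  set t1 : ℝ := Real.log (1 + (F 0).2.2 + 2 * Real.pi * |((F 0).1 0 : ℝ)|) with ht1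
  set T : ℝ := (∑ e ∈ Finset.range (C.m + 2), (F e).2.2) + t1 with hT
  have hpi := Real.pi_pos
  have ht1n : 0 ≤ t1 := by
    apply Real.log_nonneg
    have := LL_nonneg C (hF 0)
    have h2 : 0 ≤ 2 * Real.pi * |((F 0).1 0 : ℝ)| := by positivity
    linarith
  have hTe : ∀ e, e ≤ C.m + 1 → (F e).2.2 ≤ T := by
    intro e he
    have := Finset.single_le_sum (f := fun e => (F e).2.2) (fun i _ => LL_nonneg C (hF i))
      (Finset.mem_range.2 (Nat.lt_succ_of_le he))
    linarith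
  have hTt : t1 ≤ T := by
    have := Finset.sum_nonneg (s := Finset.range (C.m + 2)) (f := fun e => (F e).2.2)
      (fun i _ => LL_nonneg C (hF i))
    linarith
  set M' : ℝ := Real.log 61 + Real.log (63 + T + Real.log ‖P.lam‖) with hM'
  refine ⟨M1 * (1 + (M' + M0)), ?_⟩
  intro z hz hzr
  -- reduction
  have key : ∀ p ∈ C.LL, ∀ t' : ℝ, 0 ≤ t' → t' ≤ T → p.2.2 = max t' (z.re + Real.log ‖P.lam‖) →
      p.2.1 0 = P.pos z → |z.im - 2 * Real.pi * (p.1 0 : ℝ)| ≤ 60 →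
      Conn P.D z (P.bb c p) (M1 * (1 + (M' + M0))) := by
    intro p hp t' ht' htT hpt hpe him
    have h1 := hM0 p hp
    rw [hpt] at h1
    have h2 := P.near_size hC hzr ht' htT him
    have h3 := hreg z (P.bb c p) hz (P.bb_mem hC hc hp) hzr (P.bb_Lam hC hc hp)
      (by rw [P.bb_pos hC hc hp, hpe])
    refine h3.mono ?_
    apply mul_le_mul_of_nonneg_left _ hM1.le
    rw [abs_le] at h1 h2
    have : |Real.log ‖z‖ - Real.log ‖P.bb c p‖| ≤ M' + M0 := by
      rw [abs_le]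
      constructor <;> linarith [h1.1, h1.2, h2.1, h2.2]
    linarith
  have hpi3 := Real.pi_gt_d2
  have hpi4 := Real.pi_lt_d2
  have hcons : ∀ j : ℤ, C.de j ((F 0).2.1 0) = P.pos z → |z.im - 2 * Real.pi * (j : ℝ)| ≤ 60 →
      ∃ p ∈ C.LL, Conn P.D z (P.bb c p) (M1 * (1 + (M' + M0))) := by
    intro j hj him
    have h1 := cons_mem C j (hF 0)
    have h2 : ((consPt C j (F 0)).1, (consPt C j (F 0)).2.1,
        max (consPt C j (F 0)).2.2 (z.re + Real.log ‖P.lam‖)) ∈ C.LL :=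
      LL_up C h1 (le_max_left _ _)
    exact ⟨_, h2, key _ h2 t1 ht1n hTt rfl hj him⟩
  rcases Nat.eq_zero_or_pos (P.pos z) with h0 | h0
  · -- below everything
    have him := P.bot_im hC hz hzr h0
    have hj5 : min (-5) ⌊z.im / (2 * Real.pi)⌋ ≤ (-5 : ℤ) := min_le_left _ _
    apply hcons (min (-5) ⌊z.im / (2 * Real.pi)⌋)
    · rw [de_bot C hC hj5, h0]
    · have h2 := Int.floor_le (z.im / (2 * Real.pi))
      have h3 := Int.lt_floor_add_one (z.im / (2 * Real.pi))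
      rw [le_div_iff₀ (by positivity)] at h2
      rw [div_lt_iff₀ (by positivity)] at h3
      rcases le_total (-5) ⌊z.im / (2 * Real.pi)⌋ with h | h
      · rw [min_eq_left h]
        have h4 : (-5 : ℝ) ≤ (⌊z.im / (2 * Real.pi)⌋ : ℝ) := by exact_mod_cast h
        have h5 : -5 * (2 * Real.pi) ≤ (⌊z.im / (2 * Real.pi)⌋ : ℝ) * (2 * Real.pi) :=
          mul_le_mul_of_nonneg_right h4 (by positivity)
        rw [abs_le]
        push_cast
        constructor <;> linarith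
      · rw [min_eq_right h, abs_le]
        constructor <;> linarith
  · rcases Nat.lt_or_ge C.m (P.pos z) with h1 | h1
    · -- above everything
      have h1' : P.pos z = C.m + 1 := le_antisymm (P.pos_le z) h1
      have him := P.top_im hC hz hzr h1'
      have hj4 : (4 : ℤ) ≤ max 4 ⌈z.im / (2 * Real.pi)⌉ := le_max_left _ _
      apply hcons (max 4 ⌈z.im / (2 * Real.pi)⌉)
      · rw [de_top C hC hj4, h1']
      · have h2 := Int.le_ceil (z.im / (2 * Real.pi))
        have h3 := Int.ceil_lt_add_one (z.im / (2 * Real.pi))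
        rw [div_le_iff₀ (by positivity)] at h2
        have h3' : (⌈z.im / (2 * Real.pi)⌉ : ℝ) - 1 < z.im / (2 * Real.pi) := by linarith
        rw [lt_div_iff₀ (by positivity)] at h3'
        rcases le_total ⌈z.im / (2 * Real.pi)⌉ 4 with h | h
        · rw [max_eq_left h]
          have h4 : (⌈z.im / (2 * Real.pi)⌉ : ℝ) ≤ 4 := by exact_mod_cast h
          have h5 : (⌈z.im / (2 * Real.pi)⌉ : ℝ) * (2 * Real.pi) ≤ 4 * (2 * Real.pi) :=
            mul_le_mul_of_nonneg_right h4 (by positivity)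
          rw [abs_le]
          push_cast
          constructor <;> linarith
        · rw [max_eq_right h, abs_le]
          constructor <;> linarith
    · -- in the middle
      have him := P.mid_im hC hz hzr h0 h1
      have he : P.pos z ≤ C.m + 1 := P.pos_le z
      obtain ⟨h2, h3⟩ := hF' (P.pos z) he
      have h4 : ((F (P.pos z)).1, (F (P.pos z)).2.1,
          max (F (P.pos z)).2.2 (z.re + Real.log ‖P.lam‖)) ∈ C.LL :=
        LL_up C (hF (P.pos z)) (le_max_left _ _)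
      refine ⟨_, h4, key _ h4 _ (LL_nonneg C (hF _)) (hTe _ he) rfl h2 ?_⟩
      have h5 : |((F (P.pos z)).1 0 : ℝ)| ≤ 3 := by exact_mod_cast h3 0
      have h6 : |2 * Real.pi * ((F (P.pos z)).1 0 : ℝ)| ≤ 2 * Real.pi * 3 := by
        rw [abs_mul, abs_of_pos (by positivity : (0 : ℝ) < 2 * Real.pi)]
        exact mul_le_mul_of_nonneg_left h5 (by positivity)
      have h7 := abs_sub z.im (2 * Real.pi * ((F (P.pos z)).1 0 : ℝ))
      show |z.im - 2 * Real.pi * ((F (P.pos z)).1 0 : ℝ)| ≤ 60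
      linarith

end Par

end PJ
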