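import Pool.Agent.Lib.H31J.ABaseB
import Pool.Agent.Lib.H31J.ANear

/-! # Part A: the base points, assembly (done) -/

set_option autoImplicit false

namespace PJ

namespace Par

open Set Filter

variable {C : Comb} (P : Par C)

theorem exists_base (hC : C.Good) : ∃ b : Pt → ℂ, P.Base b := by
  obtain ⟨c, hc⟩ := P.exists_cpt hC
  have hc' : P.Cpt c := hc
  refine ⟨P.bb c, ?_⟩
  exact
    { mem := fun p hp => P.bb_mem hC hc' hp
      cont := P.bb_cont hC hc'
      step := P.bb_step hC hc'
      size := P.bb_size hC hc'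
      re_ge := fun p hp => ⟨P.bb_Lam hC hc' hp,
        le_trans (sub_le_sub_right (le_max_left _ _) _) (P.bb_re hC hc' hp).1⟩
      pos_eq := fun p hp => P.bb_pos hC hc' hp
      bdd := P.bb_bdd hC hc'
      near := P.bb_near hC hc' }

end Par

end PJ
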