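import Pool.Agent.Lib.H31J.AModel

/-!
# Chunk A-MODELB: compactness, end points, arcs

* `LL_closed`: `Tn` is continuous in `(u,t)` (each `u_n` is locally constant), `e_n = de u_n e_{n+1}` is a closed condition.
* `LL_compact`: `|u_0| ≤ B`, `0 ≤ t ≤ B`; `T_{n+1} ≤ exp T_n`, `2π|u_{n+1}| ≤ exp T_n - 1` bound all `u_n` and `T_n`
  by constants `B_n`, so the set is a closed subset of a product of compact sets
  (finite sets of integers, `{0..m+1}`, `[0,B]`): `isCompact_univ_pi`.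
* `Tn_escape`: there is `s < t` with all `T_n(s) ≥ 0`; `Tn_gap`.
* `end_bdd`: let `β ≥ 0` with `exp β - 1 - 2π B ≥ β` .  Pull `β` back from time `n` (`modelb_pull`); forward `x ↦ exp x - 1 - 2πB`
  maps `[β,∞)` into itself.  So `t` is not an end point.
* `exists_arc`: iterate `hC.surj`; then all letters are `≤ 3`, and any `t ≥ β` (as above with `B = 3`) is allowed.
* `de_top`: `x ≥ 4 > sg i`; `de_bot`: `x ≤ -4 < sg i`.
-/

set_option autoImplicit false

namespace PJ

open Set Filter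

theorem modelb_cont (n : ℕ) : Continuous fun p : Pt => Tn p.1 p.2.2 n := by
  induction n with
  | zero => exact continuous_snd.comp continuous_snd
  | succ n ih =>
    simp only [Tn]
    refine Continuous.sub (Continuous.sub ?_ continuous_const) ?_
    · exact Real.continuous_exp.comp ih
    · refine Continuous.mul continuous_const ?_
      have h : Continuous fun k : ℤ => |(k : ℝ)| := continuous_of_discreteTopology
      exact h.comp ((continuous_apply (n + 1)).comp continuous_fst)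

theorem LL_closed (C : Comb) : IsClosed C.LL := by
  have h : C.LL = ⋂ n : ℕ, ({p : Pt | 0 ≤ Tn p.1 p.2.2 n} ∩
      {p : Pt | p.2.1 n = C.de (p.1 n) (p.2.1 (n + 1))}) := by
    ext p
    simp only [Comb.LL, mem_iInter]
    rfl
  rw [h]
  refine isClosed_iInter fun n => IsClosed.inter ?_ ?_
  · exact isClosed_le continuous_const (modelb_cont n)
  · refine isClosed_eq ?_ ?_
    · exact (continuous_apply n).comp (continuous_fst.comp continuous_snd)
    · have h1 : Continuous fun q : ℤ × ℕ => C.de q.1 q.2 := continuous_of_discreteTopology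
      have h2 : Continuous fun p : Pt => (p.1 n, p.2.1 (n + 1)) :=
        ((continuous_apply n).comp continuous_fst).prodMk
          ((continuous_apply (n + 1)).comp (continuous_fst.comp continuous_snd))
      exact h1.comp h2

/-- bounds for the potentials -/
noncomputable def modelb_b (B : ℝ) : ℕ → ℝ
  | 0 => B
  | n + 1 => Real.exp (modelb_b B n)

/-- bounds for the letters -/
noncomputable def modelb_c (B : ℝ) : ℕ → ℝ
  | 0 => B
  | n + 1 => Real.exp (modelb_b B n)

theorem modelb_T_le (C : Comb) {B : ℝ} {p : Pt} (hp : p ∈ C.LL) (h : p.2.2 ≤ B) (n : ℕ) :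
    Tn p.1 p.2.2 n ≤ modelb_b B n := by
  have hpi := Real.pi_pos
  induction n with
  | zero => exact h
  | succ n ih =>
    simp only [Tn, modelb_b]
    have h1 := Real.exp_le_exp.mpr ih
    have h2 : 0 ≤ 2 * Real.pi * |(p.1 (n + 1) : ℝ)| := by positivity
    linarith

theorem modelb_u_le (C : Comb) {B : ℝ} {p : Pt} (hp : p ∈ C.LL) (h : p.2.2 ≤ B)
    (h0 : |(p.1 0 : ℝ)| ≤ B) (n : ℕ) : |(p.1 n : ℝ)| ≤ modelb_c B n := by
  cases n with
  | zero => exact h0
  | succ n =>
    simp only [modelb_c]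
    have h1 := Real.exp_le_exp.mpr (modelb_T_le C hp h n)
    have h2 := (hp (n + 1)).1
    simp only [Tn] at h2
    have h3 : |(p.1 (n + 1) : ℝ)| ≤ 2 * Real.pi * |(p.1 (n + 1) : ℝ)| := by
      nlinarith [abs_nonneg (p.1 (n + 1) : ℝ), Real.pi_gt_three]
    linarith

theorem LL_compact (C : Comb) (B : ℝ) :
    IsCompact {p : Pt | p ∈ C.LL ∧ p.2.2 ≤ B ∧ |(p.1 0 : ℝ)| ≤ B} := by
  have hcl : IsClosed {p : Pt | p ∈ C.LL ∧ p.2.2 ≤ B ∧ |(p.1 0 : ℝ)| ≤ B} := by
    refine (LL_closed C).inter (IsClosed.inter ?_ ?_)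
    · exact isClosed_le (continuous_snd.comp continuous_snd) continuous_const
    · have h : Continuous fun k : ℤ => |(k : ℝ)| := continuous_of_discreteTopology
      exact isClosed_le (h.comp ((continuous_apply 0).comp continuous_fst)) continuous_const
  have hU : IsCompact {u : ℕ → ℤ | ∀ n, u n ∈ {k : ℤ | |(k : ℝ)| ≤ modelb_c B n}} := by
    have h1 : ∀ n, IsCompact {k : ℤ | |(k : ℝ)| ≤ modelb_c B n} := by
      intro n
      refine Set.Finite.isCompact ?_
      refine (Set.finite_Icc (-⌈modelb_c B n⌉) ⌈modelb_c B n⌉).subset ?_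
      intro k hk
      have hk' : |(k : ℝ)| ≤ modelb_c B n := hk
      have h2 := abs_le.mp (hk'.trans (Int.le_ceil _))
      constructor
      · exact_mod_cast h2.1
      · exact_mod_cast h2.2
    have := isCompact_univ_pi h1
    refine this.of_isClosed_subset ?_ ?_
    · have e : {u : ℕ → ℤ | ∀ n, u n ∈ {k : ℤ | |(k : ℝ)| ≤ modelb_c B n}} =
          Set.pi univ fun n => {k : ℤ | |(k : ℝ)| ≤ modelb_c B n} := by
        ext u
        simp [Set.mem_pi]
      rw [e]
      exact this.isClosed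
    · intro u hu n _
      exact hu n
  have hE : IsCompact (Set.pi univ fun _ : ℕ => {k : ℕ | k ≤ C.m + 1}) :=
    isCompact_univ_pi fun _ => (Set.finite_Iic (C.m + 1)).isCompact
  have hprod := hU.prod (hE.prod (isCompact_Icc (a := (0 : ℝ)) (b := B)))
  refine hprod.of_isClosed_subset hcl ?_
  rintro p ⟨hp, hB, h0⟩
  refine ⟨fun n => modelb_u_le C hp hB h0 n, fun n _ => LL_le C hp n, LL_nonneg C hp, hB⟩

/-- not an end point: the potentials tend to infinity -/
theorem Tn_escape (C : Comb) {p : Pt} (hp : p ∈ C.LL) (h : ¬ IsEnd p.1 p.2.2) :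
    Tendsto (fun n => Tn p.1 p.2.2 n) atTop atTop := by
  unfold IsEnd at h
  push Not at h
  obtain ⟨s, hst, hs⟩ := h
  refine tendsto_atTop_mono (fun n => ?_) (Tn_gap p.1 hs hst)
  linarith [hs n]

/-- pulling back a potential -/
theorem modelb_pull (n : ℕ) : ∀ (u : ℕ → ℤ) (x : ℝ), 0 ≤ x →
    ∃ s, Tn u s n = x ∧ ∀ k ≤ n, 0 ≤ Tn u s k := by
  induction n with
  | zero =>
    intro u x hx
    refine ⟨x, rfl, fun k hk => ?_⟩
    have : k = 0 := by omega
    subst this
    exact hx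
  | succ n ih =>
    intro u x hx
    obtain ⟨s1, h1, h2⟩ := ih (fun k => u (k + 1)) x hx
    have hs1 : 0 ≤ s1 := h2 0 (Nat.zero_le _)
    have hpi := Real.pi_pos
    have hpos : 0 < 1 + s1 + 2 * Real.pi * |(u 1 : ℝ)| := by positivity
    have hT1 : Tn u (Real.log (1 + s1 + 2 * Real.pi * |(u 1 : ℝ)|)) 1 = s1 := by
      rw [Tn_one, Real.exp_log hpos]
      ring
    refine ⟨Real.log (1 + s1 + 2 * Real.pi * |(u 1 : ℝ)|), ?_, fun k hk => ?_⟩
    · rw [Tn_succ', hT1, h1]
    · cases k with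
      | zero =>
        show 0 ≤ Real.log (1 + s1 + 2 * Real.pi * |(u 1 : ℝ)|)
        refine Real.log_nonneg ?_
        have : 0 ≤ 2 * Real.pi * |(u 1 : ℝ)| := by positivity
        linarith
      | succ k =>
        rw [Tn_succ', hT1]
        exact h2 k (by omega)

/-- the fixed lower bound -/
theorem modelb_beta {B : ℝ} (hB : 0 ≤ B) :
    2 * Real.pi * B + 2 ≤ Real.exp (2 * Real.pi * B + 2) - 1 - 2 * Real.pi * B := by
  have hpi := Real.pi_pos
  have h0 : 0 ≤ 2 * Real.pi * B := by positivity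
  have h1 := Real.quadratic_le_exp_of_nonneg (show 0 ≤ 2 * Real.pi * B + 2 by linarith)
  nlinarith

theorem modelb_stay {u : ℕ → ℤ} {B s : ℝ} (hB : 0 ≤ B) (hu : ∀ n, |(u n : ℝ)| ≤ B) (n : ℕ)
    (h : 2 * Real.pi * B + 2 ≤ Tn u s n) (j : ℕ) : 2 * Real.pi * B + 2 ≤ Tn u s (n + j) := by
  have hpi := Real.pi_pos
  induction j with
  | zero => exact h
  | succ j ih =>
    have h1 := Real.exp_le_exp.mpr ih
    have h2 := modelb_beta hB
    have h3 : 2 * Real.pi * |(u (n + j + 1) : ℝ)| ≤ 2 * Real.pi * B := by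
      have := hu (n + j + 1)
      have h4 : 0 < 2 * Real.pi := by positivity
      exact mul_le_mul_of_nonneg_left this h4.le
    show 2 * Real.pi * B + 2 ≤ Real.exp (Tn u s (n + j)) - 1 - 2 * Real.pi * |(u (n + j + 1) : ℝ)|
    linarith

theorem end_bdd (C : Comb) {p : Pt} (hp : p ∈ C.LL) (h : IsEnd p.1 p.2.2) (B : ℤ)
    (hB : ∀ n, |p.1 n| ≤ B) : ∃ β : ℝ, ∀ n, Tn p.1 p.2.2 n ≤ β := by
  have hBr : ∀ n, |(p.1 n : ℝ)| ≤ (B : ℝ) := by
    intro n
    have := hB n
    rw [← Int.cast_abs]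
    exact_mod_cast this
  have hB0 : 0 ≤ (B : ℝ) := (abs_nonneg _).trans (hBr 0)
  have hpi := Real.pi_pos
  have h0 : 0 ≤ 2 * Real.pi * (B : ℝ) := by positivity
  refine ⟨2 * Real.pi * B + 2, fun n => ?_⟩
  by_contra hlt
  push Not at hlt
  obtain ⟨s, hs, hs2⟩ := modelb_pull n p.1 (2 * Real.pi * B + 2) (by linarith)
  have hst : s < p.2.2 := by
    by_contra hge
    push Not at hge
    have h5 : Tn p.1 p.2.2 n ≤ Tn p.1 s n := (Tn_strictMono p.1 n).monotone hge
    linarith
  obtain ⟨k, hk⟩ := h s hst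
  rcases le_total k n with hkn | hkn
  · linarith [hs2 k hkn]
  · obtain ⟨j, rfl⟩ := Nat.exists_eq_add_of_le hkn
    have := modelb_stay hB0 hBr n hs.ge j
    linarith

/-- for every arc `e ≤ m+1` there is a point of the model with `e_0 = e` and small letters -/
theorem exists_arc (C : Comb) (hC : C.Good) (e : ℕ) (he : e ≤ C.m + 1) :
    ∃ p ∈ C.LL, p.2.1 0 = e ∧ ∀ n, |p.1 n| ≤ 3 := by
  have hsurj : ∀ x : {e : ℕ // e ≤ C.m + 1}, ∃ q : ℤ × {e : ℕ // e ≤ C.m + 1},
      |q.1| ≤ 3 ∧ C.de q.1 q.2.1 = x.1 := by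
    intro x
    obtain ⟨j, hj, e', he', hde⟩ := hC.surj x.1 x.2
    exact ⟨(j, ⟨e', he'⟩), hj, hde⟩
  choose F hF1 hF2 using hsurj
  set E : ℕ → {e : ℕ // e ≤ C.m + 1} := fun n =>
    Nat.rec (⟨e, he⟩ : {e : ℕ // e ≤ C.m + 1}) (fun _ x => (F x).2) n with hE
  have hE1 : ∀ n, E (n + 1) = (F (E n)).2 := fun n => rfl
  set u : ℕ → ℤ := fun n => (F (E n)).1 with hu
  have hu3 : ∀ n, |u n| ≤ 3 := fun n => hF1 _
  have hur : ∀ n, |(u n : ℝ)| ≤ (3 : ℝ) := by
    intro n
    have := hu3 n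
    rw [← Int.cast_abs]
    exact_mod_cast this
  have hpi := Real.pi_pos
  refine ⟨(u, fun n => (E n).1, 2 * Real.pi * 3 + 2), ?_, rfl, hu3⟩
  intro n
  constructor
  · have := modelb_stay (u := u) (s := 2 * Real.pi * 3 + 2) (by norm_num : (0 : ℝ) ≤ 3) hur 0
      (le_refl _) n
    rw [zero_add] at this
    show 0 ≤ Tn u (2 * Real.pi * 3 + 2) n
    linarith
  · show (E n).1 = C.de (u n) (E (n + 1)).1
    rw [hE1]
    exact (hF2 (E n)).symm

theorem de_top (C : Comb) (hC : C.Good) {j : ℤ} (hj : 4 ≤ j) (e : ℕ) : C.de j e = C.m + 1 := by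
  unfold Comb.de
  have hx : 4 ≤ C.x j e := by
    unfold Comb.x
    split_ifs <;> omega
  rw [Finset.filter_true_of_mem, Finset.card_range]
  intro i hi
  rw [Finset.mem_range] at hi
  rcases Nat.lt_or_ge i C.m with h | h
  · right
    refine ⟨h, Or.inl ?_⟩
    have := abs_le.mp (hC.sg_le i)
    omega
  · left
    exact ⟨by omega, by omega⟩

theorem de_bot (C : Comb) (hC : C.Good) {j : ℤ} (hj : j ≤ -5) (e : ℕ) : C.de j e = 0 := by
  unfold Comb.de
  have hx : C.x j e ≤ -4 := by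
    unfold Comb.x
    split_ifs <;> omega
  rw [Finset.card_eq_zero, Finset.filter_eq_empty_iff]
  intro i hi h
  have := abs_le.mp (hC.sg_le i)
  rcases h with ⟨_, h1⟩ | ⟨_, h1 | ⟨h1, _⟩⟩ <;> omega

end PJ
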