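import Pool.Agent.Lib.H31J.AInv

/-!
# Chunk A-INVF: where the pieces of `A` are

* `U_sub`: `w ∈ U \ K` is in `D`: for `i < m` the set `g i '' K` is in `{|Im - 2π sg i| ≤ 1/100}` (`g_im`) and `U` is in
  `{|Im - π + arg lam| < 2}` (`vm_im`, `lam_arg`); `Re w > 0`; `g m = id`.
* `gU_sub`: `g i w ∈ D` for `w ∈ U \ K`: if `g i w ∈ A` then `w = f^{m-i}(g i w) ∈ A` (`iter_A`, `iter_g`).
* `far`: for `Re z ≥ Λ`: `z ∈ A` iff `z` is on one of the graphs: the discs are to the left (`g_re_le`, `g0_re_le`,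
  `Lam_ge`), and `phi_mem`, `phi_curve` for the rays (`Re v_i ≤ r_i + 25 < Λ`).
-/

set_option autoImplicit false

namespace PJ

namespace Par

open Set Filter

variable {C : Comb} (P : Par C)

theorem U_sub (hC : C.Good) {w : ℂ} (hw : w ∈ P.U) (hwK : w ∉ P.K) : w ∈ P.D := by
  intro hA
  have hL := P.Lam_ge'
  have hm := hC.m_pos
  have hvm := (P.v_re hm le_rfl).1
  have hr := P.r_ge hm
  have hR := P.R_ge
  obtain ⟨hw1, hw2⟩ := hw
  rcases hA with h | ⟨i, hi, u, hu, hue⟩
  · simp only [mem_setOf_eq] at h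
    linarith
  · rcases Nat.lt_or_ge i C.m with h | h
    · have h1 := P.g_im hC h (P.K_sub_U hu)
      rw [hue] at h1
      rw [P.vm_im] at hw2
      have h2 := P.lam_arg hC
      have h3 := Real.pi_gt_d2
      have h4 := Real.pi_lt_d2
      rw [abs_le] at h1 h2
      rw [abs_lt] at hw2
      rcases le_or_gt (C.sg i) 0 with h0 | h0
      · have h5 : ((C.sg i : ℤ) : ℝ) ≤ 0 := by exact_mod_cast h0
        have h6 : 2 * Real.pi * (C.sg i : ℝ) ≤ 0 :=
          mul_nonpos_of_nonneg_of_nonpos (by linarith) h5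
        linarith [h1.2, hw2.1]
      · have h5 : (1 : ℝ) ≤ (C.sg i : ℝ) := by exact_mod_cast h0
        have h6 : 2 * Real.pi ≤ 2 * Real.pi * (C.sg i : ℝ) := by nlinarith
        linarith [h1.1, hw2.2]
    · have : i = C.m := le_antisymm hi h
      subst this
      rw [P.g_last] at hue
      rw [hue] at hu
      exact hwK hu

theorem gU_sub (hC : C.Good) {i : ℕ} (hi : i ≤ C.m) {w : ℂ} (hw : w ∈ P.U) (hwK : w ∉ P.K) :
    P.g i w ∈ P.D := by
  intro hA
  have h1 := P.iter_A hC hA (C.m - i)
  rw [P.iter_g hC hi hw] at h1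
  exact P.U_sub hC hw hwK h1

theorem far (hC : C.Good) {z : ℂ} (hz : P.Lam ≤ z.re) :
    z ∈ P.D ↔ ∀ i, i ≤ C.m → P.phi i z.re ≠ z.im := by
  have hL := P.Lam_ge'
  constructor
  · intro hD i hi he
    have hvi : (P.v i).re ≤ z.re := by
      rcases Nat.eq_zero_or_pos i with h | h
      · subst h
        rw [P.v0, Complex.zero_re]
        linarith
      · have h1 := (P.v_re h hi).2.1
        have h2 := P.Lam_ge hC h hi
        have h3 := P.r_ge h
        have h4 := P.R_ge
        linarith
    obtain ⟨t, ht, ht'⟩ := P.phi_mem hC hi hvi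
    rw [he, Complex.re_add_im] at ht'
    exact hD (Or.inr ⟨i, hi, _, Or.inr ⟨t, ht, rfl⟩, ht'⟩)
  · intro h hA
    rcases hA with h1 | ⟨i, hi, w, hw, hwz⟩
    · simp only [mem_setOf_eq] at h1
      linarith
    · rcases hw with hw | ⟨t, ht, htw⟩
      · have hwU : w ∈ P.U := P.K_sub_U (Or.inl hw)
        have hre : w.re ≤ (P.v C.m).re + 1 := by
          have := le_trans (Complex.re_le_norm (w - P.v C.m)) hw
          rw [Complex.sub_re] at this
          linarith
        rcases Nat.eq_zero_or_pos i with h0 | h0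
        · subst h0
          have h2 := P.g0_re_le hC hwU hre
          rw [hwz] at h2
          linarith
        · have h2 := P.g_re_le hC h0 hi hwU hre
          have h3 := P.Lam_ge hC h0 hi
          have h4 := P.r_ge h0
          have h5 := P.R_ge
          rw [hwz] at h2
          linarith
      · subst htw
        have h2 := P.phi_curve hC hi ht
        rw [hwz] at h2
        exact h i hi h2

end Par

end PJ
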