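import Pool.Agent.Lib.H31J.AInvC

/-!
# Chunk A-L: the inverse branches `L j` on `D`

`L j z = Log z - Log lam + 2πi (j + bel z)`, `bel z = 1` iff `Im z < φ_0(Re z)`; `φ_0(x) = 0` for `x ≤ 0`
(`v 0 = 0`, `phi_left`), the curve number 0 is `{x + iφ_0(x) : x ≥ 0} ⊆ A` (`phi_mem`).

* `L_deriv`: let `z ∈ D`.  If `Re z ≥ 0`: `z` is not on the graph of `φ_0` (`Re z = 0`: `z ≠ 0`), so `bel` is
  constant near `z` (`φ_0` is continuous); `z ∉ (-∞,0]`.  If `Re z < 0` and `Im z ≠ 0`: `φ_0 = 0` near `Re z`.  If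
  `Re z < 0`, `Im z = 0`: near `z`, `L j z' = Log(-z') + πi - Log lam + 2πij` for both signs of `Im z'`
  (`Complex.log_neg...`).  Derivative `1/z`.
* `L_f`: `exp` of everything.
* `L_D`: `f (L j z) = z ∉ A` and `f_A`.
* `exists_L`: if `f z ≠ 0` then `z - (Log (f z) - Log lam) ∈ 2πiℤ` (`Complex.exp_eq_exp_iff_exists_int`).
-/

set_option autoImplicit false

namespace PJ

namespace Par

open Set Filter

variable {C : Comb} (P : Par C)

theorem f_L (hC : C.Good) (j : ℤ) {z : ℂ} (hz : z ≠ 0) : P.f (P.L j z) = z := by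
  have hl := P.lam_ne hC
  unfold f L
  have h1 : Complex.log z - Complex.log P.lam + 2 * Real.pi * Complex.I * ((j + P.bel z : ℤ) : ℂ)
      = (Complex.log z - Complex.log P.lam) + ((j + P.bel z : ℤ) : ℂ) * (2 * Real.pi * Complex.I) := by
    ring
  rw [h1, Complex.exp_add, Complex.exp_int_mul_two_pi_mul_I, Complex.exp_sub, Complex.exp_log hz,
    Complex.exp_log hl]
  field_simp

theorem L_D (hC : C.Good) (j : ℤ) {z : ℂ} (hz : z ∈ P.D) : P.L j z ∈ P.D := by
  intro hA
  have hz0 : z ≠ 0 := fun h => P.zero_notin hC (h ▸ hz)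
  apply hz
  have := P.f_A hC hA
  rwa [P.f_L hC j hz0] at this

theorem L_aux_phi (hC : C.Good) {z : ℂ} (hz : z ∈ P.D) (hr : 0 ≤ z.re) : z.im ≠ P.phi 0 z.re := by
  intro h
  have h0 : (P.v 0).re ≤ z.re := by rw [P.v0]; simpa using hr
  obtain ⟨t, ht, htt⟩ := P.phi_mem hC (Nat.zero_le _) h0
  apply P.curve0_sub ht
  rw [htt, ← h, Complex.re_add_im]
  exact hz

theorem L_aux_left (hC : C.Good) {x : ℝ} (hx : x ≤ 0) : P.phi 0 x = 0 := by
  rw [P.phi_left hC (Nat.zero_le _) (by rw [P.v0]; simpa using hx), P.v0]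
  simp

theorem L_aux_bel (hC : C.Good) {z : ℂ} (h : z.im ≠ P.phi 0 z.re) :
    ∀ᶠ z' in nhds z, P.bel z' = P.bel z := by
  have hc : Continuous (fun z' : ℂ => P.phi 0 z'.re - z'.im) :=
    ((P.phi_cont hC (Nat.zero_le _)).comp Complex.continuous_re).sub Complex.continuous_im
  rcases lt_or_gt_of_ne h with h | h
  · have : ∀ᶠ z' in nhds z, 0 < P.phi 0 z'.re - z'.im :=
      hc.continuousAt.eventually_const_lt (by linarith)
    filter_upwards [this] with z' hz'
    unfold bel
    rw [if_pos (by linarith), if_pos h]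
  · have : ∀ᶠ z' in nhds z, P.phi 0 z'.re - z'.im < 0 :=
      hc.continuousAt.eventually_lt_const (by linarith)
    filter_upwards [this] with z' hz'
    unfold bel
    rw [if_neg (by linarith), if_neg (by linarith)]

theorem L_aux_slit (hC : C.Good) (j : ℤ) {z : ℂ} (hs : z ∈ Complex.slitPlane)
    (h : z.im ≠ P.phi 0 z.re) : HasDerivAt (P.L j) (z⁻¹) z := by
  have h1 : HasDerivAt (fun z' : ℂ => Complex.log z' - Complex.log P.lam +
      2 * Real.pi * Complex.I * ((j + P.bel z : ℤ) : ℂ)) (z⁻¹) z :=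
    ((Complex.hasDerivAt_log hs).sub_const _).add_const _
  apply h1.congr_of_eventuallyEq
  filter_upwards [P.L_aux_bel hC h] with z' hz'
  unfold L
  rw [hz']

theorem L_deriv (hC : C.Good) (j : ℤ) {z : ℂ} (hz : z ∈ P.D) :
    HasDerivAt (P.L j) (z⁻¹) z := by
  rcases le_or_gt 0 z.re with hr | hr
  · have h := P.L_aux_phi hC hz hr
    apply P.L_aux_slit hC j _ h
    rcases hr.lt_or_eq with hr' | hr'
    · exact Or.inl hr'
    · right
      rw [← hr', P.L_aux_left hC le_rfl] at h
      exact h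
  · by_cases hi : z.im = 0
    · have h1 : HasDerivAt (fun z' : ℂ => Complex.log (-z') + Real.pi * Complex.I -
          Complex.log P.lam + 2 * Real.pi * Complex.I * (j : ℂ)) (z⁻¹) z := by
        have hs : -z ∈ Complex.slitPlane := Or.inl (by simpa using hr)
        have h2 : HasDerivAt (fun z' : ℂ => Complex.log (-z')) ((-1) / (-z)) z :=
          (hasDerivAt_neg z).clog hs
        have h3 : ((-1 : ℂ)) / (-z) = z⁻¹ := by rw [neg_div_neg_eq, one_div]
        rw [h3] at h2
        exact ((h2.add_const _).sub_const _).add_const _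
      apply h1.congr_of_eventuallyEq
      have hre : ∀ᶠ z' : ℂ in nhds z, z'.re < 0 :=
        Complex.continuous_re.continuousAt.eventually_lt_const hr
      filter_upwards [hre] with z' hz'
      have hphi : P.phi 0 z'.re = 0 := P.L_aux_left hC hz'.le
      unfold L
      have hz0 : z' ≠ 0 := by
        intro h; rw [h] at hz'; simp at hz'
      rcases lt_or_ge z'.im 0 with hi' | hi'
      · have hb : P.bel z' = 1 := by unfold bel; rw [hphi, if_pos hi']
        have ha : Complex.arg (-z') = Complex.arg z' + Real.pi :=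
          Complex.arg_neg_eq_arg_add_pi_of_im_neg hi'
        rw [hb]
        have : Complex.log (-z') = Complex.log z' + Real.pi * Complex.I := by
          unfold Complex.log
          rw [ha, norm_neg]
          push_cast
          ring
        rw [this]
        push_cast
        ring
      · have hb : P.bel z' = 0 := by unfold bel; rw [hphi, if_neg (not_lt.2 hi')]
        have ha : Complex.arg (-z') = Complex.arg z' - Real.pi := by
          rw [Complex.arg_neg_eq_arg_sub_pi_iff]
          rcases hi'.lt_or_eq with h | h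
          · exact Or.inl h
          · exact Or.inr ⟨h.symm, hz'⟩
        rw [hb]
        have : Complex.log (-z') = Complex.log z' - Real.pi * Complex.I := by
          unfold Complex.log
          rw [ha, norm_neg]
          push_cast
          ring
        rw [this]
        push_cast
        ring
    · apply P.L_aux_slit hC j (Or.inr hi)
      rw [P.L_aux_left hC hr.le]
      exact hi

theorem exists_L (hC : C.Good) (z : ℂ) : ∃ j : ℤ, P.L j (P.f z) = z := by
  have hl := P.lam_ne hC
  have hf : P.f z ≠ 0 := mul_ne_zero hl (Complex.exp_ne_zero _)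
  have h1 : Complex.exp z = Complex.exp (Complex.log (P.f z) - Complex.log P.lam) := by
    rw [Complex.exp_sub, Complex.exp_log hf, Complex.exp_log hl]
    unfold f
    field_simp
  rw [Complex.exp_eq_exp_iff_exists_int] at h1
  obtain ⟨n, hn⟩ := h1
  refine ⟨n - P.bel (P.f z), ?_⟩
  unfold L
  conv_rhs => rw [hn]
  push_cast
  ring

theorem L_inj {j j' : ℤ} {z : ℂ} (h : P.L j z = P.L j' z) : j = j' := by
  unfold L at h
  have h1 : 2 * Real.pi * Complex.I * ((j + P.bel z : ℤ) : ℂ)
      = 2 * Real.pi * Complex.I * ((j' + P.bel z : ℤ) : ℂ) := by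
    simpa using h
  have h2 : (2 * Real.pi * Complex.I : ℂ) ≠ 0 := Complex.two_pi_I_ne_zero
  have h3 := mul_left_cancel₀ h2 h1
  have h4 : j + P.bel z = j' + P.bel z := by exact_mod_cast h3
  linarith

theorem L_re (hC : C.Good) (j : ℤ) (z : ℂ) :
    (P.L j z).re = Real.log ‖z‖ - Real.log ‖P.lam‖ := by
  unfold L
  simp [Complex.log_re]

theorem L_aux_im (j : ℤ) (z : ℂ) :
    (P.L j z).im = z.arg - P.lam.arg + 2 * Real.pi * ((j + P.bel z : ℤ) : ℝ) := by
  unfold L
  have : ((2 * Real.pi * Complex.I * ((j + P.bel z : ℤ) : ℂ)) : ℂ)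
      = ((2 * Real.pi * ((j + P.bel z : ℤ) : ℝ) : ℝ) : ℂ) * Complex.I := by
    push_cast; ring
  rw [this]
  simp only [Complex.add_im, Complex.sub_im, Complex.log_im, Complex.re_ofReal_mul,
    Complex.im_ofReal_mul, Complex.I_im, mul_one]

theorem L_im (hC : C.Good) (j : ℤ) (z : ℂ) : |(P.L j z).im - 2 * Real.pi * (j : ℝ)| ≤ 10 := by
  rw [P.L_aux_im]
  have h1 := Complex.neg_pi_lt_arg z
  have h2 := Complex.arg_le_pi z
  have h3 := abs_le.1 (P.lam_arg hC)
  have hpi := Real.pi_lt_d2
  have hb : P.bel z = 0 ∨ P.bel z = 1 := by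
    unfold bel
    split_ifs
    · exact Or.inr rfl
    · exact Or.inl rfl
  rw [abs_le]
  rcases hb with hb | hb
  · rw [hb]
    push_cast
    constructor <;> linarith [h3.1, h3.2]
  · rw [hb]
    push_cast
    constructor <;> nlinarith [h3.1, h3.2, Real.pi_pos]

/-- a point of `JJ` is `L_{j_0} ∘ … ∘ L_{j_{n-1}} (f^n z)` for its itinerary -/
theorem itin (hC : C.Good) (z : ℂ) : ∃ j : ℕ → ℤ, ∀ n, P.L (j n) (P.f^[n + 1] z) = P.f^[n] z := by
  choose j hj using fun n : ℕ => P.exists_L hC (P.f^[n] z)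
  refine ⟨j, fun n => ?_⟩
  rw [Function.iterate_succ_apply']
  exact hj n

theorem L_JJ (hC : C.Good) (j : ℤ) {z : ℂ} (hz : z ∈ P.JJ) : P.L j z ∈ P.JJ := by
  have hz0 : z ∈ P.D := hz 0
  have hne : z ≠ 0 := fun h => P.zero_notin hC (h ▸ hz0)
  intro n
  cases n with
  | zero => exact P.L_D hC j hz0
  | succ n =>
    rw [Function.iterate_succ_apply, P.f_L hC j hne]
    exact hz n

theorem Lw_D (hC : C.Good) (w : List ℤ) {z : ℂ} (hz : z ∈ P.D) : P.Lw w z ∈ P.D := by
  induction w with
  | nil => exact hz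
  | cons j w ih => exact P.L_D hC j ih

theorem f_Lw (hC : C.Good) (w : List ℤ) {z : ℂ} (hz : z ∈ P.D) :
    P.f^[w.length] (P.Lw w z) = z := by
  induction w with
  | nil => rfl
  | cons j w ih =>
    have h := P.Lw_D hC w hz
    have hne : P.Lw w z ≠ 0 := fun h' => P.zero_notin hC (h' ▸ h)
    rw [List.length_cons, Function.iterate_succ_apply]
    have : P.Lw (j :: w) z = P.L j (P.Lw w z) := rfl
    rw [this, P.f_L hC j hne]
    exact ih

/-- if `z_n = f^n z`, `L (j n) z_{n+1} = z_n`, then `Lw [j_0,…,j_{n-1}] z_n = z` -/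
theorem Lw_iter (j : ℕ → ℤ) (z : ℂ) (h : ∀ n, P.L (j n) (P.f^[n + 1] z) = P.f^[n] z) (n : ℕ) :
    P.Lw ((List.range n).map j) (P.f^[n] z) = z := by
  induction n generalizing j z with
  | zero => rfl
  | succ n ih =>
    rw [List.range_succ_eq_map, List.map_cons, List.map_map, Function.iterate_succ_apply]
    have h1 := ih (j ∘ Nat.succ) (P.f z) (fun k => by
      have := h (k + 1)
      rw [Function.iterate_succ_apply, Function.iterate_succ_apply (f := P.f) (n := k)] at this
      exact this)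
    have : P.Lw (j 0 :: List.map (j ∘ Nat.succ) (List.range n)) (P.f^[n] (P.f z))
        = P.L (j 0) (P.Lw (List.map (j ∘ Nat.succ) (List.range n)) (P.f^[n] (P.f z))) := rfl
    rw [this, h1]
    have h0 := h 0
    simpa using h0

end Par

end PJ
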