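import Pool.Agent.Lib.H31J.ALift
import Pool.Agent.Lib.H31J.AL
import Pool.Agent.Lib.H31J.AInvF

/-!
# Chunk A-ORD: order of the curves far to the right, and `pos`

`order`: for `x ≥ Λ`, `i, i' ≤ m`: `rk i < rk i' → φ_i(x) < φ_{i'}(x)`.  Downward induction on `max i i'`… (induction on
`2m - i - i'`): if both `< m`: `rk_cmp`; `sg i < sg i'`: `phi_near` (`2π - 2/100 > 0`); `sg i = sg i'` and
`rk (i+1) < rk (i'+1)`: let `z = x + iφ_{i'}(x)`, `z = Log w - Log lam + 2πi sg i'` with `w` on the curve `i'+1`,
`Re w ≥ Λ`; by induction `φ_{i+1}(Re w) < φ_{i'+1}(Re w) = Im w`; apply `lift` to `i`.  If `i < m = i'`: `rk_last`,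
`sg i ≤ 0`, `φ_i ≤ 1/100 < π - arg lam`.  If `i = m > i'`: not `rk i' < rk m`, so `sg i' ≥ 1`, `φ_{i'} ≥ 2π - 1/100`.
(`rk i ≠ rk i'` for `i ≠ i'` is `rk_inj`.)

`pos_iff`: for `z ∈ D`, `Re z ≥ Λ`, `i ≤ m`: `φ_i(Re z) < Im z ↔ rk i < pos z`: the set of the curves below `z` is downward
closed for the rank (`order`, `far`), the ranks are a bijection of `{0..m}` (`rk_le`, `rk_inj`), so it is
`{i : rk i < pos z}`.

`pos_L`: for `z ∈ D`, `Re z ≥ Λ`, `Re (L j z) ≥ Λ`: `pos (L j z) = de j (pos z)`.  `bel z = 1` iff `Im z < φ_0(Re z)` iff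
not `φ_0 < Im` (`far`) iff `pos z ≤ rk 0` (`pos_iff`), so `L j z = Log z - Log lam + 2πi x` with
`x = C.x j (pos z)`; count with `lift`, `lift_last`, `pos_iff`.
-/

set_option autoImplicit false

namespace PJ

namespace Par

open Set Filter

variable {C : Comb} (P : Par C)

theorem ord_exp_le (x : ℝ) (hx : 100 ≤ x) : x + 20 ≤ Real.exp x := by
  have h := Real.add_one_le_exp (x / 2)
  have h1 : Real.exp x = Real.exp (x / 2) * Real.exp (x / 2) := by
    rw [← Real.exp_add]; congr 1; ring
  rw [h1]
  have h2 : 0 ≤ x / 2 + 1 := by linarith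
  calc x + 20 ≤ (x / 2 + 1) * (x / 2 + 1) := by nlinarith
    _ ≤ Real.exp (x / 2) * Real.exp (x / 2) := mul_le_mul h h h2 (Real.exp_pos _).le

theorem order_aux (hC : C.Good) (n : ℕ) : ∀ i i' : ℕ, (C.m - i) + (C.m - i') ≤ n → i ≤ C.m →
    i' ≤ C.m → C.rk i < C.rk i' → ∀ x : ℝ, P.Lam ≤ x → P.phi i x < P.phi i' x := by
  have hL := P.Lam_ge'
  have hpi := Real.pi_gt_three
  have harg := P.lam_arg hC
  rw [abs_le] at harg
  induction n with
  | zero =>
    intro i i' h hi hi' hr
    have h1 : i = C.m := by omega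
    have h2 : i' = C.m := by omega
    subst h1
    rw [h2] at hr
    exact absurd hr (lt_irrefl _)
  | succ n ih =>
    intro i i' h hi hi' hr x hx
    rcases hi.eq_or_lt with rfl | hi1
    · rcases hi'.eq_or_lt with h2 | hi1'
      · rw [h2] at hr
        exact absurd hr (lt_irrefl _)
      · have h3 : ¬ (C.rk i' < C.rk C.m) := by omega
        rw [hC.rk_last i' hi1'] at h3
        push Not at h3
        have h4 : (1 : ℝ) ≤ (C.sg i' : ℝ) := by exact_mod_cast h3
        have h5 := P.phi_near hC hi1' x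
        rw [abs_le] at h5
        rw [P.phi_last hC]
        have h6 : 2 * Real.pi ≤ 2 * Real.pi * (C.sg i' : ℝ) := by nlinarith
        linarith
    · rcases hi'.eq_or_lt with h2 | hi1'
      · subst h2
        rw [hC.rk_last i hi1] at hr
        have h4 : (C.sg i : ℝ) ≤ 0 := by exact_mod_cast hr
        have h5 := P.phi_near hC hi1 x
        rw [abs_le] at h5
        rw [P.phi_last hC]
        have h6 : 2 * Real.pi * (C.sg i : ℝ) ≤ 0 := by nlinarith
        linarith
      · rw [hC.rk_cmp i hi1 i' hi1'] at hr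
        rcases hr with h3 | ⟨h3, h4⟩
        · have h4 : (C.sg i : ℝ) + 1 ≤ (C.sg i' : ℝ) := by exact_mod_cast h3
          have h5 := P.phi_near hC hi1 x
          have h6 := P.phi_near hC hi1' x
          rw [abs_le] at h5 h6
          have h7 : 2 * Real.pi * (C.sg i : ℝ) + 2 * Real.pi ≤ 2 * Real.pi * (C.sg i' : ℝ) := by
            nlinarith
          linarith
        · obtain ⟨t, ht, hgt⟩ := P.phi_mem hC hi' ((P.lift_v_re_le hC hi').trans hx)
          have hU := P.lift_ray_mem hC ht
          have hg := P.g_succ hi1' (P.v C.m + (t : ℂ))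
          rw [hgt] at hg
          have hcur := P.phi_curve hC (i := i' + 1) hi1' ht
          set w := P.g (i' + 1) (P.v C.m + (t : ℂ)) with hw
          have hre := congrArg Complex.re hg
          rw [lift_re] at hre
          simp only [Complex.add_re, Complex.ofReal_re, Complex.mul_re, Complex.I_re, mul_zero,
            Complex.ofReal_im, Complex.I_im, mul_one, sub_self, add_zero] at hre
          have hwr : 0 < w.re := by
            have h5 := P.g_re hC (Nat.succ_pos i') hi1' hU
            have h6 := P.r_ge (Nat.succ_pos i')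
            have h7 := P.R_ge
            simp only [Nat.succ_eq_add_one] at h5 h6
            linarith
          have hwn : 0 < ‖w‖ := hwr.trans_le (Complex.re_le_norm w)
          have hlp := P.log_lam_pos hC
          have hwn2 : Real.exp x ≤ ‖w‖ := by
            rw [← Real.le_log_iff_exp_le hwn]
            linarith
          have hwim : |w.im| ≤ 20 := by
            rw [← hcur]; exact P.phi_bd hC hi1' _
          have hwre : P.Lam ≤ w.re := by
            have h5 := Complex.norm_le_abs_re_add_abs_im w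
            rw [abs_of_pos hwr] at h5
            have h6 := ord_exp_le x (by linarith)
            linarith
          have h8 := ih (i + 1) (i' + 1) (by omega) hi1 hi1' h4 w.re hwre
          rw [hcur] at h8
          have h9 := (P.lift hC hi1 hg hwr.le (by simpa using hx)).1.mpr (Or.inr ⟨h3, h8⟩)
          simpa using h9

theorem order (hC : C.Good) {i i' : ℕ} (hi : i ≤ C.m) (hi' : i' ≤ C.m)
    (h : C.rk i < C.rk i') {x : ℝ} (hx : P.Lam ≤ x) : P.phi i x < P.phi i' x :=
  P.order_aux hC _ i i' le_rfl hi hi' h x hx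

theorem ord_down (T : Finset ℕ) (hT : ∀ k ∈ T, ∀ k', k' < k → k' ∈ T) : ∀ k, k ∈ T ↔ k < T.card := by
  have h1 : T ⊆ Finset.range T.card := by
    intro k hk
    rw [Finset.mem_range]
    have h2 : Finset.range (k + 1) ⊆ T := by
      intro j hj
      rw [Finset.mem_range] at hj
      rcases (Nat.lt_succ_iff.mp hj).eq_or_lt with rfl | h
      · exact hk
      · exact hT k hk j h
    have := Finset.card_le_card h2
    rw [Finset.card_range] at this
    omega
  have h3 : T = Finset.range T.card := Finset.eq_of_subset_of_card_le h1 (by simp)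
  intro k
  constructor
  · intro h
    exact Finset.mem_range.mp (h1 h)
  · intro h
    rw [h3]
    exact Finset.mem_range.mpr h

theorem ord_surj (hC : C.Good) {k : ℕ} (hk : k ≤ C.m) : ∃ i, i ≤ C.m ∧ C.rk i = k := by
  have h1 : Set.InjOn C.rk (Finset.range (C.m + 1) : Set ℕ) := by
    intro i hi j hj h
    simp only [Finset.coe_range, Set.mem_Iio] at hi hj
    exact hC.rk_inj i (by omega) j (by omega) h
  have h2 : (Finset.range (C.m + 1)).image C.rk ⊆ Finset.range (C.m + 1) := by
    intro j hj
    rw [Finset.mem_image] at hj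
    obtain ⟨i, hi, rfl⟩ := hj
    rw [Finset.mem_range] at hi ⊢
    have := hC.rk_le i (by omega)
    omega
  have h3 : (Finset.range (C.m + 1)).image C.rk = Finset.range (C.m + 1) := by
    refine Finset.eq_of_subset_of_card_le h2 ?_
    rw [Finset.card_image_of_injOn h1]
  have h4 : k ∈ (Finset.range (C.m + 1)).image C.rk := by
    rw [h3, Finset.mem_range]; omega
  rw [Finset.mem_image] at h4
  obtain ⟨i, hi, rfl⟩ := h4
  rw [Finset.mem_range] at hi
  exact ⟨i, by omega, rfl⟩

theorem pos_iff (hC : C.Good) {z : ℂ} (hz : z ∈ P.D) (hzr : P.Lam ≤ z.re) {i : ℕ}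
    (hi : i ≤ C.m) : P.phi i z.re < z.im ↔ C.rk i < P.pos z := by
  classical
  set S := (Finset.range (C.m + 1)).filter (fun i => P.phi i z.re < z.im) with hS
  have hpos : P.pos z = S.card := by
    unfold pos
    congr
  have hinj : Set.InjOn C.rk (S : Set ℕ) := by
    intro a ha b hb h
    rw [Finset.mem_coe, hS, Finset.mem_filter, Finset.mem_range] at ha hb
    exact hC.rk_inj a (by omega) b (by omega) h
  have hcard : (S.image C.rk).card = S.card := Finset.card_image_of_injOn hinj
  have hdown : ∀ k ∈ S.image C.rk, ∀ k', k' < k → k' ∈ S.image C.rk := by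
    intro k hk k' hk'
    rw [Finset.mem_image] at hk
    obtain ⟨a, ha, rfl⟩ := hk
    rw [hS, Finset.mem_filter, Finset.mem_range] at ha
    have h1 := hC.rk_le a (by omega)
    obtain ⟨b, hb, hbk⟩ := ord_surj hC (k := k') (by omega)
    rw [Finset.mem_image]
    refine ⟨b, ?_, hbk⟩
    rw [hS, Finset.mem_filter, Finset.mem_range]
    exact ⟨by omega, (P.order hC hb (by omega) (by omega) hzr).trans ha.2⟩
  have hd := ord_down _ hdown (C.rk i)
  rw [hcard, ← hpos] at hd
  rw [← hd]
  constructor
  · intro h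
    exact Finset.mem_image_of_mem _ (by
      rw [hS, Finset.mem_filter, Finset.mem_range]; exact ⟨by omega, h⟩)
  · intro h
    rw [Finset.mem_image] at h
    obtain ⟨a, ha, hai⟩ := h
    rw [hS, Finset.mem_filter, Finset.mem_range] at ha
    have := hC.rk_inj a (by omega) i hi hai
    rw [← this]
    exact ha.2

theorem pos_le (z : ℂ) : P.pos z ≤ C.m + 1 := by
  unfold pos
  exact (Finset.card_filter_le _ _).trans (by simp)

theorem bel_eq (hC : C.Good) {z : ℂ} (hz : z ∈ P.D) (hzr : P.Lam ≤ z.re) :
    P.bel z = if P.pos z ≤ C.rk 0 then 1 else 0 := by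
  have h1 := P.pos_iff hC hz hzr (Nat.zero_le _)
  have h2 := (P.far hC hzr).mp hz 0 (Nat.zero_le _)
  unfold bel
  by_cases h : z.im < P.phi 0 z.re
  · rw [if_pos h, if_pos]
    by_contra h3
    push Not at h3
    have := h1.mpr h3
    linarith
  · rw [if_neg h, if_neg]
    intro h3
    have h4 : ¬ (P.phi 0 z.re < z.im) := by
      rw [h1]; omega
    push Not at h h4
    exact h2 (le_antisymm h h4)

theorem pos_L (hC : C.Good) {z : ℂ} (hz : z ∈ P.D) (hzr : P.Lam ≤ z.re) (j : ℤ)
    (hL : P.Lam ≤ (P.L j z).re) : P.pos (P.L j z) = C.de j (P.pos z) := by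
  classical
  have hLam := P.Lam_ge'
  have hzr0 : 0 ≤ z.re := by linarith
  have hz0 : z ≠ 0 := by
    rintro rfl
    simp only [Complex.zero_re] at hzr
    linarith
  have hx : (j + P.bel z : ℤ) = C.x j (P.pos z) := by
    rw [P.bel_eq hC hz hzr]
    unfold Comb.x
    rfl
  have hLz : P.L j z = Complex.log z - Complex.log P.lam
      + 2 * Real.pi * Complex.I * ((C.x j (P.pos z) : ℤ) : ℂ) := by
    rw [← hx]
    rfl
  unfold pos Comb.de
  rw [Finset.filter_congr_decidable]
  refine congrArg Finset.card (Finset.filter_congr ?_)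
  intro i hi
  rw [Finset.mem_range] at hi
  rcases (Nat.lt_succ_iff.mp hi).eq_or_lt with h | h
  · subst h
    rw [(P.lift_last hC hLz hzr0 hz0).1]
    constructor
    · intro h2; exact Or.inl ⟨rfl, h2⟩
    · rintro (⟨_, h2⟩ | ⟨h2, _⟩)
      · exact h2
      · exact absurd h2 (lt_irrefl _)
  · rw [(P.lift hC h hLz hzr0 hL).1, P.pos_iff hC hz hzr (i := i + 1) h]
    constructor
    · intro h2; exact Or.inr ⟨h, h2⟩
    · rintro (⟨h2, _⟩ | ⟨_, h2⟩)
      · omega
      · exact h2

end Par

end PJ
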