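import Pool.Agent.Lib.H31J.ABaseDefs
import Pool.Agent.Lib.H31J.AOrd
import Pool.Agent.Lib.H31J.AModelB

/-!
# Chunk A-BASEA: elementary properties of the base points

`p = (u,e,t) ∈ LL`, `τ = exp (max t ts)`, `ts = Λ + log ‖lam‖ + 100`, `bb p = L u_0 (c e_1 τ)`.
* `τ ≥ ts ≥ Λ` (`log_lam_pos`); `e_1 ≤ m+1` (`LL_le`), so `c e_1 τ ∈ D` and `bb p ∈ D` (`L_D`).
* `τ ≤ ‖c e_1 τ‖ ≤ τ + 25 ≤ 2τ`, `Re (bb p) = log ‖c‖ - log ‖lam‖` (`L_re`), so
  `max t ts - log ‖lam‖ ≤ Re (bb p) ≤ max t ts - log ‖lam‖ + 1`; `|Im (bb p) - 2πu_0| ≤ 10` (`L_im`).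
* `pos (bb p) = de u_0 (pos c) = de u_0 e_1 = e_0` (`pos_L`).
* `bb_norm`: `(1 + t + 2π|u_0|)/M ≤ ‖bb p‖ ≤ M (1 + t + 2π|u_0|)`: from
  `(Re + |Im|)/2 ≤ ‖·‖ ≤ Re + |Im|`, and `‖bb p‖ ≥ Λ ≥ 1`.
* continuity: on `LL` the letter `u_0` and the arc `e_1` are locally constant, `c e_1` is continuous on
  `[Λ,∞)`, `L j` is continuous on `D` (`L_deriv`).
-/

set_option autoImplicit false

namespace PJ

namespace Par

open Set Filter

variable {C : Comb} (P : Par C)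

theorem bb_ts (hC : C.Good) : P.Lam + Real.log ‖P.lam‖ + 100 = P.ts ∧ 1 ≤ Real.log ‖P.lam‖ ∧
    (10 : ℝ) ^ 6 ≤ P.Lam := ⟨rfl, P.log_lam_pos hC, P.Lam_ge'⟩

theorem bb_tau (hC : C.Good) (t : ℝ) : P.Lam ≤ Real.exp (max t P.ts) := by
  have h := P.bb_ts hC
  have h1 := Real.add_one_le_exp (max t P.ts)
  have h2 := le_max_right t P.ts
  linarith [h.1, h.2.1]

theorem bb_z (hC : C.Good) {c : ℕ → ℝ → ℂ} (hc : P.Cpt c) {p : Pt} (hp : p ∈ C.LL) :
    c (p.2.1 1) (Real.exp (max p.2.2 P.ts)) ∈ P.D ∧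
    (c (p.2.1 1) (Real.exp (max p.2.2 P.ts))).re = Real.exp (max p.2.2 P.ts) ∧
    |(c (p.2.1 1) (Real.exp (max p.2.2 P.ts))).im| ≤ 25 ∧
    P.pos (c (p.2.1 1) (Real.exp (max p.2.2 P.ts))) = p.2.1 1 :=
  (hc (p.2.1 1) (LL_le C hp 1)).1 _ (P.bb_tau hC _)

theorem bb_logz (hC : C.Good) {c : ℕ → ℝ → ℂ} (hc : P.Cpt c) {p : Pt} (hp : p ∈ C.LL) :
    max p.2.2 P.ts ≤ Real.log ‖c (p.2.1 1) (Real.exp (max p.2.2 P.ts))‖ ∧
    Real.log ‖c (p.2.1 1) (Real.exp (max p.2.2 P.ts))‖ ≤ max p.2.2 P.ts + 1 := by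
  obtain ⟨_, h2, h3, _⟩ := P.bb_z hC hc hp
  set z := c (p.2.1 1) (Real.exp (max p.2.2 P.ts)) with hz
  set τ := Real.exp (max p.2.2 P.ts) with hτ
  have h5 : P.Lam ≤ τ := P.bb_tau hC _
  have h6 := P.Lam_ge'
  have hpos : 0 < τ := Real.exp_pos _
  have h7 : τ ≤ ‖z‖ := by
    rw [← h2]
    exact Complex.re_le_norm z
  have h8 : ‖z‖ ≤ τ + 25 := by
    have := Complex.norm_le_abs_re_add_abs_im z
    rw [h2, abs_of_pos hpos] at this
    linarith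
  constructor
  · have := Real.log_le_log hpos h7
    rwa [hτ, Real.log_exp] at this
  · have h9 : ‖z‖ ≤ Real.exp (max p.2.2 P.ts + 1) := by
      rw [Real.exp_add, ← hτ]
      have := Real.exp_one_gt_d9
      nlinarith
    have := Real.log_le_log (by linarith) h9
    rwa [Real.log_exp] at this

theorem bb_mem (hC : C.Good) {c : ℕ → ℝ → ℂ} (hc : P.Cpt c) {p : Pt} (hp : p ∈ C.LL) :
    P.bb c p ∈ P.D := P.L_D hC _ (P.bb_z hC hc hp).1

theorem bb_re (hC : C.Good) {c : ℕ → ℝ → ℂ} (hc : P.Cpt c) {p : Pt} (hp : p ∈ C.LL) :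
    max p.2.2 P.ts - Real.log ‖P.lam‖ ≤ (P.bb c p).re ∧
    (P.bb c p).re ≤ max p.2.2 P.ts - Real.log ‖P.lam‖ + 1 := by
  obtain ⟨h1, h2⟩ := P.bb_logz hC hc hp
  unfold Par.bb
  rw [P.L_re hC]
  constructor <;> linarith

theorem bb_Lam (hC : C.Good) {c : ℕ → ℝ → ℂ} (hc : P.Cpt c) {p : Pt} (hp : p ∈ C.LL) :
    P.Lam ≤ (P.bb c p).re := by
  have h1 := (P.bb_re hC hc hp).1
  have h2 := le_max_right p.2.2 P.ts
  have h3 := P.bb_ts hC
  linarith [h3.1]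

theorem bb_im (hC : C.Good) (c : ℕ → ℝ → ℂ) (p : Pt) :
    |(P.bb c p).im - 2 * Real.pi * (p.1 0 : ℝ)| ≤ 10 := P.L_im hC _ _

theorem bb_pos (hC : C.Good) {c : ℕ → ℝ → ℂ} (hc : P.Cpt c) {p : Pt} (hp : p ∈ C.LL) :
    P.pos (P.bb c p) = p.2.1 0 := by
  obtain ⟨h1, h2, _, h4⟩ := P.bb_z hC hc hp
  have h5 : P.Lam ≤ (c (p.2.1 1) (Real.exp (max p.2.2 P.ts))).re := by
    rw [h2]
    exact P.bb_tau hC _
  have h6 := P.pos_L hC h1 h5 (p.1 0) (P.bb_Lam hC hc hp)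
  unfold Par.bb
  rw [h6, h4]
  exact ((hp 0).2).symm

theorem bb_size (hC : C.Good) {c : ℕ → ℝ → ℂ} (hc : P.Cpt c) : ∃ M : ℝ, ∀ p ∈ C.LL,
    |Real.log ‖P.bb c p‖ - Real.log (1 + p.2.2 + 2 * Real.pi * |(p.1 0 : ℝ)|)| ≤ M := by
  have hts := P.bb_ts hC
  refine ⟨Real.log (P.ts + 12) + Real.log (13 + Real.log ‖P.lam‖), ?_⟩
  intro p hp
  have ht := LL_nonneg C hp
  obtain ⟨h1, h2⟩ := P.bb_re hC hc hp
  have h3 := P.bb_im hC c p
  have h4 := P.bb_Lam hC hc hp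
  have h5 := le_max_left p.2.2 P.ts
  have h5' : max p.2.2 P.ts ≤ p.2.2 + P.ts := by
    apply max_le <;> linarith [hts.1, hts.2.1, hts.2.2]
  have hpi := Real.pi_pos
  have h6 := Complex.norm_le_abs_re_add_abs_im (P.bb c p)
  have h7 := Complex.re_le_norm (P.bb c p)
  have h8 := Complex.abs_im_le_norm (P.bb c p)
  rw [abs_of_nonneg (by linarith [hts.2.2] : (0 : ℝ) ≤ (P.bb c p).re)] at h6
  have h9 : |2 * Real.pi * (p.1 0 : ℝ)| = 2 * Real.pi * |(p.1 0 : ℝ)| := by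
    rw [abs_mul, abs_of_pos (by positivity)]
  have h10 : |(P.bb c p).im| ≤ 2 * Real.pi * |(p.1 0 : ℝ)| + 10 := by
    have := abs_add_le ((P.bb c p).im - 2 * Real.pi * (p.1 0 : ℝ)) (2 * Real.pi * (p.1 0 : ℝ))
    rw [sub_add_cancel, h9] at this
    linarith
  have h11 : 2 * Real.pi * |(p.1 0 : ℝ)| ≤ |(P.bb c p).im| + 10 := by
    have := abs_sub_abs_le_abs_sub (2 * Real.pi * (p.1 0 : ℝ)) (P.bb c p).im
    rw [h9, abs_sub_comm] at this
    linarith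
  set a := 1 + p.2.2 + 2 * Real.pi * |(p.1 0 : ℝ)| with ha
  set b := ‖P.bb c p‖ with hb
  have hu : 0 ≤ 2 * Real.pi * |(p.1 0 : ℝ)| := by positivity
  have ha1 : 1 ≤ a := by linarith
  have hb1 : 1 ≤ b := by linarith [hts.2.2]
  have hA : b ≤ (P.ts + 12) * a := by
    have : b ≤ p.2.2 + P.ts + 11 + 2 * Real.pi * |(p.1 0 : ℝ)| := by linarith [hts.2.1]
    have h12 : (P.ts + 12) * 1 ≤ (P.ts + 12) * a := by
      apply mul_le_mul_of_nonneg_left ha1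
      linarith [hts.1, hts.2.1, hts.2.2]
    have h13 : 0 ≤ (P.ts + 11) * (a - 1) := by
      apply mul_nonneg <;> linarith [hts.1, hts.2.1, hts.2.2]
    nlinarith
  have hB : a ≤ (13 + Real.log ‖P.lam‖) * b := by
    have : a ≤ 2 * b + 11 + Real.log ‖P.lam‖ := by linarith
    have h13 : 0 ≤ (11 + Real.log ‖P.lam‖) * (b - 1) := by
      apply mul_nonneg <;> linarith [hts.1, hts.2.1, hts.2.2]
    nlinarith
  have hp1 : 0 < P.ts + 12 := by linarith [hts.1, hts.2.1, hts.2.2]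
  have hp2 : 0 < 13 + Real.log ‖P.lam‖ := by linarith [hts.1, hts.2.1, hts.2.2]
  have hl1 : 0 ≤ Real.log (P.ts + 12) := Real.log_nonneg (by linarith [hts.1, hts.2.1, hts.2.2])
  have hl2 : 0 ≤ Real.log (13 + Real.log ‖P.lam‖) :=
    Real.log_nonneg (by linarith [hts.1, hts.2.1, hts.2.2])
  have hA' := Real.log_le_log (by linarith) hA
  have hB' := Real.log_le_log (by linarith) hB
  rw [Real.log_mul (by linarith) (by linarith)] at hA' hB'
  rw [abs_le]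
  constructor <;> linarith

theorem bb_cont (hC : C.Good) {c : ℕ → ℝ → ℂ} (hc : P.Cpt c) : ContinuousOn (P.bb c) C.LL := by
  intro p0 hp0
  have hj : ∀ᶠ p in nhdsWithin p0 C.LL, p.1 0 = p0.1 0 := by
    have h1 : Continuous (fun p : Pt => p.1 0) := (continuous_apply 0).comp continuous_fst
    exact mem_nhdsWithin_of_mem_nhds
      (h1.continuousAt.preimage_mem_nhds ((isOpen_discrete {p0.1 0}).mem_nhds rfl))
  have he : ∀ᶠ p in nhdsWithin p0 C.LL, p.2.1 1 = p0.2.1 1 := by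
    have h1 : Continuous (fun p : Pt => p.2.1 1) :=
      (continuous_apply 1).comp (continuous_fst.comp continuous_snd)
    exact mem_nhdsWithin_of_mem_nhds
      (h1.continuousAt.preimage_mem_nhds ((isOpen_discrete {p0.2.1 1}).mem_nhds rfl))
  have hτ : Continuous (fun p : Pt => Real.exp (max p.2.2 P.ts)) :=
    Real.continuous_exp.comp ((continuous_snd.comp continuous_snd).max continuous_const)
  have h2 : ContinuousWithinAt (fun p : Pt => c (p0.2.1 1) (Real.exp (max p.2.2 P.ts))) C.LL p0 := by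
    have h3 := (hc (p0.2.1 1) (LL_le C hp0 1)).2
    have h4 : ContinuousWithinAt (c (p0.2.1 1)) (Ici P.Lam)
        ((fun p : Pt => Real.exp (max p.2.2 P.ts)) p0) := h3 _ (P.bb_tau hC _)
    exact ContinuousWithinAt.comp (f := fun p : Pt => Real.exp (max p.2.2 P.ts)) h4
      hτ.continuousAt.continuousWithinAt (fun p _ => P.bb_tau hC _)
  have hmain : ContinuousWithinAt
      (fun p : Pt => P.L (p0.1 0) (c (p0.2.1 1) (Real.exp (max p.2.2 P.ts)))) C.LL p0 := by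
    have h5 : ContinuousAt (P.L (p0.1 0))
        ((fun p : Pt => c (p0.2.1 1) (Real.exp (max p.2.2 P.ts))) p0) :=
      (P.L_deriv hC (p0.1 0) (P.bb_z hC hc hp0).1).continuousAt
    exact ContinuousAt.comp_continuousWithinAt
      (f := fun p : Pt => c (p0.2.1 1) (Real.exp (max p.2.2 P.ts))) h5 h2
  refine hmain.congr_of_eventuallyEq ?_ rfl
  filter_upwards [hj, he] with p h1 h2
  simp only [Par.bb, h1, h2]

end Par

end PJ
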