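import Pool.Agent.Lib.H31J.AExp
import Pool.Agent.Lib.H31J.AConn

/-!
# Chunk A-CONTR: the compositions `Lw w` contract logarithmic lengths

`contr`: for `z ∈ D` put `z_n = z` (`n = w.length`), `z_l = L_{j_l} z_{l+1}`; then `f^l z_0 = z_l`, `z_l ∈ D`, and
`(Lw w)'(z) = ∏_{l=1}^{n} z_l⁻¹`, so `‖(Lw w)'(z)‖ ‖z‖ = (∏_{l<n} ‖z_l‖)⁻¹ ‖z_0‖ ≤ (c κ^n)⁻¹ ‖Lw w z‖`.  Apply
`Conn.map`.
`contr1`: the case of one letter: `‖L'(z)‖ ‖z‖ = 1 = ‖L z‖ / ‖L z‖ ≤ ρ⁻¹ ‖L z‖`.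
-/

set_option autoImplicit false

namespace PJ

namespace Par

open Set Filter

variable {C : Comb} (P : Par C)

/-- derivative of `Lw` -/
noncomputable def contrD : List ℤ → ℂ → ℂ
  | [], _ => 1
  | _ :: w, z => (P.Lw w z)⁻¹ * contrD w z

theorem contr_cons (j : ℤ) (w : List ℤ) (z : ℂ) : P.Lw (j :: w) z = P.L j (P.Lw w z) := rfl

theorem contr_deriv (hC : C.Good) (w : List ℤ) {z : ℂ} (hz : z ∈ P.D) :
    HasDerivAt (P.Lw w) (P.contrD w z) z := by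
  induction w with
  | nil =>
    have : P.Lw [] = fun z => z := rfl
    rw [this]
    exact hasDerivAt_id z
  | cons j w ih =>
    have h1 : P.Lw (j :: w) = fun z => P.L j (P.Lw w z) := rfl
    rw [h1]
    exact (P.L_deriv hC j (P.Lw_D hC w hz)).comp z ih

theorem contr_iter (hC : C.Good) (w : List ℤ) {z : ℂ} (hz : z ∈ P.D) :
    ∀ l, l < w.length → P.f^[l] (P.Lw w z) ∈ P.D := by
  induction w with
  | nil => intro l hl; simp at hl
  | cons j w ih =>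
    intro l hl
    rcases Nat.eq_zero_or_pos l with h0 | hp
    · subst h0
      exact P.Lw_D hC _ hz
    · obtain ⟨k, rfl⟩ : ∃ k, l = k + 1 := ⟨l - 1, by omega⟩
      rw [Function.iterate_succ_apply, contr_cons]
      have hne : P.Lw w z ≠ 0 := fun h => P.zero_notin hC (h ▸ P.Lw_D hC w hz)
      rw [P.f_L hC j hne]
      exact ih k (by simpa using hl)

theorem contr_norm (hC : C.Good) (w : List ℤ) {z : ℂ} (hz : z ∈ P.D) :
    ‖P.contrD w z‖ * (∏ l ∈ Finset.range w.length, ‖P.f^[l] (P.Lw w z)‖) * ‖z‖ =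
      ‖P.Lw w z‖ := by
  induction w with
  | nil => simp [contrD, Lw]
  | cons j w ih =>
    have hne : P.Lw w z ≠ 0 := fun h => P.zero_notin hC (h ▸ P.Lw_D hC w hz)
    have hn : ‖P.Lw w z‖ ≠ 0 := norm_ne_zero_iff.2 hne
    rw [List.length_cons, Finset.prod_range_succ', contr_cons]
    have h1 : ∀ l, P.f^[l + 1] (P.L j (P.Lw w z)) = P.f^[l] (P.Lw w z) := by
      intro l
      rw [Function.iterate_succ_apply, P.f_L hC j hne]
    simp only [h1]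
    have h2 : ‖P.contrD (j :: w) z‖ = ‖P.Lw w z‖⁻¹ * ‖P.contrD w z‖ := by
      show ‖(P.Lw w z)⁻¹ * P.contrD w z‖ = _
      rw [norm_mul, norm_inv]
    rw [h2]
    have h3 : P.f^[0] (P.L j (P.Lw w z)) = P.L j (P.Lw w z) := rfl
    rw [h3]
    calc _ = ‖P.Lw w z‖⁻¹ * (‖P.contrD w z‖ *
        (∏ l ∈ Finset.range w.length, ‖P.f^[l] (P.Lw w z)‖) * ‖z‖) *
          ‖P.L j (P.Lw w z)‖ := by ring
      _ = ‖P.Lw w z‖⁻¹ * ‖P.Lw w z‖ * ‖P.L j (P.Lw w z)‖ := by rw [ih]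
      _ = _ := by rw [inv_mul_cancel₀ hn, one_mul]

theorem contr (hC : C.Good) : ∃ M κ : ℝ, 0 < M ∧ 1 < κ ∧ ∀ (w : List ℤ) (p q : ℂ) (l : ℝ),
    Conn P.D p q l → Conn P.D (P.Lw w p) (P.Lw w q) (M * (κ⁻¹) ^ w.length * l) := by
  obtain ⟨c, κ, hc, hκ, hb⟩ := P.prod_bound hC
  refine ⟨c⁻¹, κ, by positivity, hκ, ?_⟩
  intro w p q l h
  have hκ0 : 0 < κ := by linarith
  refine Conn.map (P.zero_notin hC) (P.Lw w) (P.contrD w) (by positivity)
    (fun z hz => P.Lw_D hC w hz) (fun z hz => P.contr_deriv hC w hz) (fun z hz => ?_) h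
  have h1 := P.contr_norm hC w hz
  have h2 := hb w.length (P.Lw w z) (P.contr_iter hC w hz)
  set Q := ∏ l ∈ Finset.range w.length, ‖P.f^[l] (P.Lw w z)‖ with hQ
  have h3 : 0 < c * κ ^ w.length := by positivity
  have h4 : c⁻¹ * κ⁻¹ ^ w.length = (c * κ ^ w.length)⁻¹ := by
    rw [mul_inv, inv_pow]
  rw [h4, inv_mul_eq_div, le_div_iff₀ h3, ← h1]
  calc ‖P.contrD w z‖ * ‖z‖ * (c * κ ^ w.length)
      ≤ ‖P.contrD w z‖ * ‖z‖ * Q := mul_le_mul_of_nonneg_left h2 (by positivity)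
    _ = _ := by ring

theorem contr1 (hC : C.Good) : ∃ M : ℝ, 0 < M ∧ ∀ (j : ℤ) (p q : ℂ) (l : ℝ),
    Conn P.D p q l → Conn P.D (P.L j p) (P.L j q) (M * l) := by
  obtain ⟨M, κ, hM, hκ, h⟩ := P.contr hC
  have hκ0 : 0 < κ := by linarith
  refine ⟨M * κ⁻¹, by positivity, ?_⟩
  intro j p q l hl
  have := h [j] p q l hl
  simpa [Lw] using this

end Par

end PJ
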