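import Pool.Agent.Lib.H31J.AReg
import Pool.Agent.Lib.H31J.ACpt

/-!
# Chunk A-PC: `D` is connected

Notation: `V_i = g i '' U`, open (`g i` has nonzero derivative), contains `g i '' K`, and
`V_i \ A = g i '' (U \ K)` (`gU_sub`, `g_inj`).
(1) `U \ K` is connected: a point with `Im w > Im v_m` is joined vertically to the convex set
  `Im w > Im v_m + 1/2`, a point with `Im w < Im v_m` to `Im w < Im v_m - 1/2`, a point with
  `Im w = Im v_m` is in the convex set `Re w < Re v_m - 1/2`.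
(2) far regions: `D_e = {z ∈ D, Re z ≥ Λ, pos z = e}` is connected (`reg`).
(3) `g i '' (U \ K)` meets `D_{rk i}` and `D_{rk i + 1}`: `q = g i (v_m + T)` with `T` large is on the
  graph of `φ_i`, `V_i` is a neighbourhood of `q`, the points `q ± iε` are in `D`, hence in `g i '' (U \ K)`.
(4) Let `z ∈ D`, ray `z + t`, `t ≥ 0`.  If it does not meet `A` it ends in some `D_e`.  Otherwise let
  `t_1 = min {t ≥ 0 : z + t ∈ A}`.  `z + t_1 ∈ ⋃ V_i`, open, so `z + t' ∈ V_i ∩ D` for some `t' < t_1`.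
-/

set_option autoImplicit false

namespace PJ

namespace Par

open Set Filter Topology

variable {C : Comb} (P : Par C)

/-- joined by a preconnected subset -/
def pcJ (S : Set ℂ) (z z' : ℂ) : Prop := ∃ t, t ⊆ S ∧ IsPreconnected t ∧ z ∈ t ∧ z' ∈ t

theorem pcJ.symm {S : Set ℂ} {z z' : ℂ} (h : pcJ S z z') : pcJ S z' z := by
  obtain ⟨t, h1, h2, h3, h4⟩ := h
  exact ⟨t, h1, h2, h4, h3⟩

theorem pcJ.trans {S : Set ℂ} {z z' z'' : ℂ} (h : pcJ S z z') (h' : pcJ S z' z'') :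
    pcJ S z z'' := by
  obtain ⟨t, h1, h2, h3, h4⟩ := h
  obtain ⟨s, k1, k2, k3, k4⟩ := h'
  exact ⟨t ∪ s, union_subset h1 k1, IsPreconnected.union z' h4 k3 h2 k2, Or.inl h3, Or.inr k4⟩

theorem pcJ_of_conn {S : Set ℂ} {z z' : ℂ} {l : ℝ} (h : Conn S z z' l) : pcJ S z z' := by
  induction h with
  | path c c' l hD hc hb =>
    refine ⟨c '' Icc 0 1, ?_, ?_, ⟨0, by simp, rfl⟩, ⟨1, by simp, rfl⟩⟩
    · rintro _ ⟨t, ht, rfl⟩
      exact hD t ht
    · apply isPreconnected_Icc.image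
      intro t ht
      exact (hc t ht).continuousWithinAt
  | trans h1 h2 ih1 ih2 => exact ih1.trans ih2

theorem pc_cvx_lt (α β r : ℝ) : Convex ℝ {w : ℂ | α * w.re + β * w.im < r} := by
  apply convex_halfSpace_lt
  constructor
  · intro x y
    simp
    ring
  · intro c x
    simp
    ring

theorem pc_cvx_le (α β r : ℝ) : Convex ℝ {w : ℂ | α * w.re + β * w.im ≤ r} := by
  apply convex_halfSpace_le
  constructor
  · intro x y
    simp
    ring
  · intro c x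
    simp
    ring

theorem pc_notK {w : ℂ} (h : w ∉ P.K) : 1 / 4 < (w.re - (P.v C.m).re) ^ 2
    + (w.im - (P.v C.m).im) ^ 2 ∧ (w.im = (P.v C.m).im → w.re < (P.v C.m).re) := by
  simp only [K, mem_ofPred_eq, not_or, not_le, not_exists, not_and] at h
  obtain ⟨h1, h2⟩ := h
  constructor
  · have e1 : ‖w - P.v C.m‖ ^ 2 = (w.re - (P.v C.m).re) ^ 2 + (w.im - (P.v C.m).im) ^ 2 := by
      rw [Complex.sq_norm, Complex.normSq_apply]
      simp
      ring
    rw [← e1]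
    nlinarith
  · intro him
    by_contra hre
    push Not at hre
    apply h2 (w.re - (P.v C.m).re) (by linarith)
    apply Complex.ext
    · simp
    · simp [him]

theorem pc_notK' {w : ℂ} (h1 : 1 / 4 < (w.re - (P.v C.m).re) ^ 2 + (w.im - (P.v C.m).im) ^ 2)
    (h2 : w.im = (P.v C.m).im → w.re < (P.v C.m).re) : w ∉ P.K := by
  intro h
  rcases h with h | ⟨t, ht, h⟩
  · have e1 : ‖w - P.v C.m‖ ^ 2 = (w.re - (P.v C.m).re) ^ 2 + (w.im - (P.v C.m).im) ^ 2 := by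
      rw [Complex.sq_norm, Complex.normSq_apply]
      simp
      ring
    rw [← e1] at h1
    have := norm_nonneg (w - P.v C.m)
    nlinarith
  · have e1 : w.im = (P.v C.m).im := by rw [h]; simp
    have e2 : w.re = (P.v C.m).re + t := by rw [h]; simp
    have := h2 e1
    linarith

theorem pc_half {σ : ℝ} (hσ : σ = 1 ∨ σ = -1) {w : ℂ} (hw : w ∈ P.U) (hwK : w ∉ P.K)
    (h : 0 < σ * (w.im - (P.v C.m).im)) :
    pcJ (P.U \ P.K) w (((P.v C.m).re - 1 : ℝ) + (((P.v C.m).im + σ : ℝ) : ℂ) * Complex.I) := by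
  set a := (P.v C.m).re with ha
  set b := (P.v C.m).im with hb
  have hσσ : σ * σ = 1 := by rcases hσ with rfl | rfl <;> norm_num
  obtain ⟨k1, k2⟩ := P.pc_notK hwK
  obtain ⟨u1, u2⟩ := hw
  rw [← ha] at k1 k2 u1
  rw [← hb] at k1 k2 u2
  have u3 : σ * (w.im - b) < 2 := by
    rw [abs_lt] at u2
    rcases hσ with rfl | rfl <;> linarith
  -- the convex set
  have hH : IsPreconnected {w : ℂ | a - 2 < w.re ∧ 1 / 2 < σ * (w.im - b) ∧ σ * (w.im - b) < 2} := by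
    have : {w : ℂ | a - 2 < w.re ∧ 1 / 2 < σ * (w.im - b) ∧ σ * (w.im - b) < 2}
        = {w : ℂ | (-1) * w.re + 0 * w.im < 2 - a} ∩ ({w : ℂ | 0 * w.re + (-σ) * w.im
          < - (1 / 2) - σ * b} ∩ {w : ℂ | 0 * w.re + σ * w.im < 2 + σ * b}) := by
      ext z
      simp only [mem_ofPred_eq, mem_inter_iff]
      constructor
      · rintro ⟨h1, h2, h3⟩
        refine ⟨by linarith, by linarith, by linarith⟩
      · rintro ⟨h1, h2, h3⟩
        refine ⟨by linarith, by linarith, by linarith⟩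
    rw [this]
    exact ((pc_cvx_lt _ _ _).inter ((pc_cvx_lt _ _ _).inter (pc_cvx_lt _ _ _))).isPreconnected
  have hHs : {w : ℂ | a - 2 < w.re ∧ 1 / 2 < σ * (w.im - b) ∧ σ * (w.im - b) < 2}
      ⊆ P.U \ P.K := by
    rintro z ⟨h1, h2, h3⟩
    have hz4 : 1 / 4 < (z.im - b) ^ 2 := by
      have : (z.im - b) ^ 2 = (σ * (z.im - b)) ^ 2 := by
        rw [mul_pow, pow_two σ, hσσ, one_mul]
      rw [this]; nlinarith
    refine ⟨⟨h1, ?_⟩, ?_⟩
    · rw [← hb, abs_lt]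
      rcases hσ with rfl | rfl <;> constructor <;> linarith
    · apply P.pc_notK'
      · rw [← ha, ← hb]
        nlinarith [sq_nonneg (z.re - a)]
      · rw [← ha, ← hb]
        intro h0
        rw [h0] at h2
        simp at h2
        linarith
  have hbase : (((a - 1 : ℝ) : ℂ) + ((b + σ : ℝ) : ℂ) * Complex.I) ∈
      {w : ℂ | a - 2 < w.re ∧ 1 / 2 < σ * (w.im - b) ∧ σ * (w.im - b) < 2} := by
    have e1 : (((a - 1 : ℝ) : ℂ) + ((b + σ : ℝ) : ℂ) * Complex.I).re = a - 1 := by simp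
    have e2 : (((a - 1 : ℝ) : ℂ) + ((b + σ : ℝ) : ℂ) * Complex.I).im = b + σ := by simp
    simp only [mem_ofPred_eq]
    rw [e1, e2, add_sub_cancel_left, hσσ]
    refine ⟨by linarith, by norm_num, by norm_num⟩
  by_cases h12 : 1 / 2 < σ * (w.im - b)
  · exact ⟨_, hHs, hH, ⟨u1, h12, u3⟩, hbase⟩
  · push Not at h12
    have hT : IsPreconnected {z : ℂ | z.re = w.re ∧ σ * (w.im - b) ≤ σ * (z.im - b) ∧
        σ * (z.im - b) < 2} := by
      have : {z : ℂ | z.re = w.re ∧ σ * (w.im - b) ≤ σ * (z.im - b) ∧ σ * (z.im - b) < 2}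
        = ({z : ℂ | 1 * z.re + 0 * z.im ≤ w.re} ∩ {z : ℂ | (-1) * z.re + 0 * z.im ≤ -w.re}) ∩
          ({z : ℂ | 0 * z.re + (-σ) * z.im ≤ - σ * w.im} ∩
            {z : ℂ | 0 * z.re + σ * z.im < 2 + σ * b}) := by
        ext z
        simp only [mem_ofPred_eq, mem_inter_iff]
        constructor
        · rintro ⟨h1, h2, h3⟩
          refine ⟨⟨by linarith, by linarith⟩, by linarith, by linarith⟩
        · rintro ⟨⟨h1, h1'⟩, h2, h3⟩
          refine ⟨by linarith, by linarith, by linarith⟩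
      rw [this]
      exact (((pc_cvx_le _ _ _).inter (pc_cvx_le _ _ _)).inter
        ((pc_cvx_le _ _ _).inter (pc_cvx_lt _ _ _))).isPreconnected
    have hTs : {z : ℂ | z.re = w.re ∧ σ * (w.im - b) ≤ σ * (z.im - b) ∧ σ * (z.im - b) < 2}
        ⊆ P.U \ P.K := by
      rintro z ⟨h1, h2, h3⟩
      refine ⟨⟨by rw [h1]; exact u1, ?_⟩, ?_⟩
      · rw [← hb, abs_lt]
        rcases hσ with rfl | rfl <;> constructor <;> linarith
      · apply P.pc_notK'
        · rw [← ha, ← hb, h1]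
          have e1 : (z.im - b) ^ 2 = (σ * (z.im - b)) ^ 2 := by
            rw [mul_pow, pow_two σ, hσσ, one_mul]
          have e2 : (w.im - b) ^ 2 = (σ * (w.im - b)) ^ 2 := by
            rw [mul_pow, pow_two σ, hσσ, one_mul]
          have e3 : (w.im - b) ^ 2 ≤ (z.im - b) ^ 2 := by
            rw [e1, e2]; nlinarith
          linarith
        · rw [← ha, ← hb]
          intro h0
          rw [h0] at h2
          simp at h2
          linarith
    have hq : ((w.re : ℂ) + ((b + σ : ℝ) : ℂ) * Complex.I).re = w.re := by simp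
    have hq' : ((w.re : ℂ) + ((b + σ : ℝ) : ℂ) * Complex.I).im = b + σ := by simp
    have j1 : pcJ (P.U \ P.K) w ((w.re : ℂ) + ((b + σ : ℝ) : ℂ) * Complex.I) := by
      refine ⟨_, hTs, hT, ⟨rfl, le_rfl, u3⟩, ?_⟩
      simp only [mem_ofPred_eq]
      rw [hq, hq', add_sub_cancel_left, hσσ]
      refine ⟨rfl, by linarith, by norm_num⟩
    have j2 : pcJ (P.U \ P.K) ((w.re : ℂ) + ((b + σ : ℝ) : ℂ) * Complex.I)
        (((a - 1 : ℝ) : ℂ) + ((b + σ : ℝ) : ℂ) * Complex.I) := by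
      refine ⟨_, hHs, hH, ?_, hbase⟩
      simp only [mem_ofPred_eq]
      rw [hq, hq', add_sub_cancel_left, hσσ]
      refine ⟨u1, by norm_num, by norm_num⟩
    exact j1.trans j2

theorem pc_left {w w' : ℂ} (hw : w ∈ P.U) (hw' : w' ∈ P.U) (h : w.re < (P.v C.m).re - 1 / 2)
    (h' : w'.re < (P.v C.m).re - 1 / 2) : pcJ (P.U \ P.K) w w' := by
  set a := (P.v C.m).re with ha
  set b := (P.v C.m).im with hb
  have hH : IsPreconnected {w : ℂ | a - 2 < w.re ∧ w.re < a - 1 / 2 ∧ |w.im - b| < 2} := by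
    have : {w : ℂ | a - 2 < w.re ∧ w.re < a - 1 / 2 ∧ |w.im - b| < 2}
        = ({w : ℂ | (-1) * w.re + 0 * w.im < 2 - a} ∩ {w : ℂ | 1 * w.re + 0 * w.im < a - 1 / 2}) ∩
          ({w : ℂ | 0 * w.re + (-1) * w.im < 2 - b} ∩ {w : ℂ | 0 * w.re + 1 * w.im < 2 + b}) := by
      ext z
      simp only [mem_ofPred_eq, mem_inter_iff, abs_lt]
      constructor
      · rintro ⟨h1, h2, h3, h4⟩
        refine ⟨⟨by linarith, by linarith⟩, by linarith, by linarith⟩
      · rintro ⟨⟨h1, h2⟩, h3, h4⟩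
        refine ⟨by linarith, by linarith, by linarith, by linarith⟩
    rw [this]
    exact (((pc_cvx_lt _ _ _).inter (pc_cvx_lt _ _ _)).inter
      ((pc_cvx_lt _ _ _).inter (pc_cvx_lt _ _ _))).isPreconnected
  refine ⟨_, ?_, hH, ⟨hw.1, h, hw.2⟩, ⟨hw'.1, h', hw'.2⟩⟩
  rintro z ⟨h1, h2, h3⟩
  refine ⟨⟨h1, h3⟩, ?_⟩
  apply P.pc_notK'
  · rw [← ha, ← hb]
    nlinarith [sq_nonneg (z.im - b)]
  · intro _
    linarith

theorem pc_UK : IsPreconnected (P.U \ P.K) := by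
  set a := (P.v C.m).re with ha
  set b := (P.v C.m).im with hb
  have hbp : ∀ σ : ℝ, σ = 1 ∨ σ = -1 →
      (((a - 1 : ℝ) : ℂ) + ((b + σ : ℝ) : ℂ) * Complex.I) ∈ P.U := by
    intro σ hσ
    constructor
    · rw [← ha]; simp
    · have e2 : (((a - 1 : ℝ) : ℂ) + ((b + σ : ℝ) : ℂ) * Complex.I).im = b + σ := by simp
      rw [← hb, e2, add_sub_cancel_left]
      rcases hσ with rfl | rfl <;> norm_num
  have hbp' : ∀ σ : ℝ,
      (((a - 1 : ℝ) : ℂ) + ((b + σ : ℝ) : ℂ) * Complex.I).re < a - 1 / 2 := by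
    intro σ
    have e2 : (((a - 1 : ℝ) : ℂ) + ((b + σ : ℝ) : ℂ) * Complex.I).re = a - 1 := by simp
    rw [e2]; linarith
  have key : ∀ w ∈ P.U \ P.K,
      pcJ (P.U \ P.K) w (((a - 1 : ℝ) : ℂ) + ((b + 1 : ℝ) : ℂ) * Complex.I) := by
    rintro w ⟨hw, hwK⟩
    rcases lt_trichotomy w.im b with h | h | h
    · have j1 := P.pc_half (σ := -1) (Or.inr rfl) hw hwK (by rw [← hb]; linarith)
      have j2 := P.pc_left (hbp (-1) (Or.inr rfl)) (hbp 1 (Or.inl rfl)) (hbp' _) (hbp' _)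
      exact j1.trans j2
    · obtain ⟨k1, k2⟩ := P.pc_notK hwK
      have k3 := k2 h
      refine P.pc_left hw (hbp 1 (Or.inl rfl)) ?_ (hbp' _)
      rw [h, ← hb, ← ha, sub_self] at k1
      rw [← ha] at k3 ⊢
      nlinarith
    · exact P.pc_half (σ := 1) (Or.inl rfl) hw hwK (by rw [← hb]; linarith)
  apply isPreconnected_of_forall_pair
  intro x hx y hy
  obtain ⟨t, h1, h2, h3, h4⟩ := (key x hx).trans (key y hy).symm
  exact ⟨t, h1, h3, h4, h2⟩

theorem pc_gUK (hC : C.Good) {i : ℕ} (hi : i ≤ C.m) {p q : ℂ} (hp : p ∈ P.g i '' (P.U \ P.K))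
    (hq : q ∈ P.g i '' (P.U \ P.K)) : pcJ P.D p q := by
  refine ⟨P.g i '' (P.U \ P.K), ?_, ?_, hp, hq⟩
  · rintro _ ⟨w, ⟨hw, hwK⟩, rfl⟩
    exact P.gU_sub hC hi hw hwK
  · apply P.pc_UK.image
    intro w hw
    exact (P.g_deriv hC hi hw.1).continuousAt.continuousWithinAt

theorem pc_open (hC : C.Good) {i : ℕ} (hi : i ≤ C.m) {w : ℂ} (hw : w ∈ P.U) :
    P.g i '' P.U ∈ 𝓝 (P.g i w) := by
  have h1 : DifferentiableOn ℂ (P.g i) P.U := fun z hz =>
    (P.g_deriv hC hi hz).differentiableAt.differentiableWithinAt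
  have h2 : AnalyticAt ℂ (P.g i) w := h1.analyticAt (P.U_open.mem_nhds hw)
  have h3 := h2.hasStrictDerivAt
  have h4 : deriv (P.g i) w ≠ 0 := by
    rw [(P.g_deriv hC hi hw).deriv]
    intro h0
    have := (P.g_cone hC hi hw).1
    rw [h0] at this
    simp at this
  have h5 := h3.map_nhds_eq h4
  rw [← h5]
  exact image_mem_map (P.U_open.mem_nhds hw)

theorem pc_gK_sub {i : ℕ} (hi : i ≤ C.m) {w : ℂ} (hw : w ∈ P.K) : P.g i w ∉ P.D := by
  intro h
  exact h (Or.inr ⟨i, hi, w, hw, rfl⟩)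

theorem pc_pos_eq (hC : C.Good) {z : ℂ} (hz : z ∈ P.D) (hzr : P.Lam ≤ z.re) {e : ℕ}
    (he : e ≤ C.m + 1) (h : ∀ i, i ≤ C.m → (P.phi i z.re < z.im ↔ C.rk i < e)) :
    P.pos z = e := by
  have hp := P.pos_le z
  have h' : ∀ i, i ≤ C.m → (C.rk i < P.pos z ↔ C.rk i < e) := by
    intro i hi
    rw [← P.pos_iff hC hz hzr hi, h i hi]
  rcases lt_trichotomy (P.pos z) e with hlt | heq | hgt
  · obtain ⟨a, ha, hae⟩ := reg_exists_rk (C := C) hC (e := P.pos z) (by omega)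
    have := h' a ha
    omega
  · exact heq
  · obtain ⟨a, ha, hae⟩ := reg_exists_rk (C := C) hC (e := e) (by omega)
    have := h' a ha
    omega

theorem pc_adj (hC : C.Good) {i : ℕ} (hi : i ≤ C.m) :
    ∃ p q, p ∈ P.g i '' (P.U \ P.K) ∧ q ∈ P.g i '' (P.U \ P.K) ∧ p ∈ P.D ∧ q ∈ P.D ∧
      P.Lam ≤ p.re ∧ P.Lam ≤ q.re ∧ P.pos p = C.rk i ∧ P.pos q = C.rk i + 1 := by
  obtain ⟨T, hT⟩ := P.g_tendsto hC hi P.Lam
  set t0 : ℝ := max 0 (T - (P.v C.m).re) with ht0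
  have ht0' : 0 ≤ t0 := le_max_left _ _
  have hK0 : P.v C.m + (t0 : ℂ) ∈ P.K := Or.inr ⟨t0, ht0', rfl⟩
  have hU0 := P.K_sub_U hK0
  have hre0 : P.Lam ≤ (P.g i (P.v C.m + (t0 : ℂ))).re := by
    apply hT _ hU0
    have : T - (P.v C.m).re ≤ t0 := le_max_right _ _
    simp
    linarith
  have hphi := P.phi_curve hC hi ht0'
  set q0 := P.g i (P.v C.m + (t0 : ℂ)) with hq0
  have hV := P.pc_open hC hi hU0
  rw [← hq0] at hV
  -- eventually small
  have hmap : Tendsto (fun ε : ℝ => q0 + (ε : ℂ) * Complex.I) (𝓝 0) (𝓝 q0) := by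
    have : Continuous (fun ε : ℝ => q0 + (ε : ℂ) * Complex.I) := by fun_prop
    have h2 := this.tendsto 0
    simpa using h2
  have hmap2 : Tendsto (fun ε : ℝ => q0.im + ε) (𝓝 0) (𝓝 q0.im) := by
    have : Continuous (fun ε : ℝ => q0.im + ε) := by fun_prop
    have h2 := this.tendsto 0
    simpa using h2
  have e1 : ∀ᶠ ε : ℝ in 𝓝 0, q0 + (ε : ℂ) * Complex.I ∈ P.g i '' P.U := hmap hV
  have e2 : ∀ᶠ ε : ℝ in 𝓝 0, ∀ j ∈ Finset.range (C.m + 1),
      (C.rk j < C.rk i → P.phi j q0.re < q0.im + ε) ∧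
      (C.rk i < C.rk j → q0.im + ε < P.phi j q0.re) := by
    rw [Filter.eventually_all_finset]
    intro j hj
    have hj' : j ≤ C.m := by simpa [Nat.lt_succ_iff] using hj
    rw [Filter.eventually_and]
    constructor
    · by_cases h : C.rk j < C.rk i
      · have := P.order hC hj' hi h hre0
        rw [hphi] at this
        filter_upwards [hmap2.eventually (lt_mem_nhds this)] with ε hε _
        exact hε
      · exact Eventually.of_forall (fun ε h' => absurd h' h)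
    · by_cases h : C.rk i < C.rk j
      · have := P.order hC hi hj' h hre0
        rw [hphi] at this
        filter_upwards [hmap2.eventually (gt_mem_nhds this)] with ε hε _
        exact hε
      · exact Eventually.of_forall (fun ε h' => absurd h' h)
  have e3 := e1.and e2
  have hre : ∀ ε : ℝ, (q0 + (ε : ℂ) * Complex.I).re = q0.re := by intro ε; simp
  have him : ∀ ε : ℝ, (q0 + (ε : ℂ) * Complex.I).im = q0.im + ε := by intro ε; simp
  have hrki := hC.rk_le i hi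
  have key : ∀ ε : ℝ, ε ≠ 0 → (q0 + (ε : ℂ) * Complex.I ∈ P.g i '' P.U ∧
      ∀ j ∈ Finset.range (C.m + 1),
      (C.rk j < C.rk i → P.phi j q0.re < q0.im + ε) ∧
      (C.rk i < C.rk j → q0.im + ε < P.phi j q0.re)) →
      q0 + (ε : ℂ) * Complex.I ∈ P.D ∧ q0 + (ε : ℂ) * Complex.I ∈ P.g i '' (P.U \ P.K) ∧
      (∀ j, j ≤ C.m → C.rk j ≠ C.rk i → (P.phi j q0.re < q0.im + ε ↔ C.rk j < C.rk i)) := by
    rintro ε hε ⟨h1, h2⟩
    have h2' : ∀ j, j ≤ C.m → (C.rk j < C.rk i → P.phi j q0.re < q0.im + ε) ∧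
      (C.rk i < C.rk j → q0.im + ε < P.phi j q0.re) := by
      intro j hj
      exact h2 j (by simpa [Nat.lt_succ_iff] using hj)
    have hD : q0 + (ε : ℂ) * Complex.I ∈ P.D := by
      rw [P.far hC (by rw [hre]; exact hre0)]
      intro j hj
      rw [hre, him]
      rcases lt_trichotomy (C.rk j) (C.rk i) with h | h | h
      · exact ne_of_lt ((h2' j hj).1 h)
      · rw [hC.rk_inj j hj i hi h, hphi]
        intro h0
        apply hε
        linarith
      · exact ne_of_gt ((h2' j hj).2 h)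
    refine ⟨hD, ?_, ?_⟩
    · obtain ⟨w, hw, hwe⟩ := h1
      refine ⟨w, ⟨hw, ?_⟩, hwe⟩
      intro hwK
      rw [← hwe] at hD
      exact P.pc_gK_sub hi hwK hD
    · intro j hj hne
      constructor
      · intro h
        rcases lt_trichotomy (C.rk j) (C.rk i) with h' | h' | h'
        · exact h'
        · exact absurd h' hne
        · have := (h2' j hj).2 h'
          linarith
      · exact (h2' j hj).1
  -- a positive and a negative ε
  obtain ⟨ε₁, hε₁, hpos⟩ : ∃ ε : ℝ, (q0 + (ε : ℂ) * Complex.I ∈ P.g i '' P.U ∧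
      ∀ j ∈ Finset.range (C.m + 1),
      (C.rk j < C.rk i → P.phi j q0.re < q0.im + ε) ∧
      (C.rk i < C.rk j → q0.im + ε < P.phi j q0.re)) ∧ 0 < ε := by
    have h1 : ∀ᶠ ε : ℝ in 𝓝[>] 0, _ := e3.filter_mono nhdsWithin_le_nhds
    exact (h1.and self_mem_nhdsWithin).exists
  obtain ⟨ε₂, hε₂, hneg⟩ : ∃ ε : ℝ, (q0 + (ε : ℂ) * Complex.I ∈ P.g i '' P.U ∧
      ∀ j ∈ Finset.range (C.m + 1),
      (C.rk j < C.rk i → P.phi j q0.re < q0.im + ε) ∧
      (C.rk i < C.rk j → q0.im + ε < P.phi j q0.re)) ∧ ε < 0 := by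
    have h1 : ∀ᶠ ε : ℝ in 𝓝[<] 0, _ := e3.filter_mono nhdsWithin_le_nhds
    exact (h1.and self_mem_nhdsWithin).exists
  obtain ⟨p1, p2, p3⟩ := key ε₁ hpos.ne' hε₁
  obtain ⟨q1, q2, q3⟩ := key ε₂ hneg.ne hε₂
  refine ⟨_, _, q2, p2, q1, p1, by rw [hre]; exact hre0, by rw [hre]; exact hre0, ?_, ?_⟩
  · apply P.pc_pos_eq hC q1 (by rw [hre]; exact hre0) (by omega)
    intro j hj
    rw [hre, him]
    by_cases hne : C.rk j = C.rk i
    · rw [hC.rk_inj j hj i hi hne, hphi]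
      constructor
      · intro h; linarith
      · intro h; omega
    · exact q3 j hj hne
  · apply P.pc_pos_eq hC p1 (by rw [hre]; exact hre0) (by omega)
    intro j hj
    rw [hre, him]
    by_cases hne : C.rk j = C.rk i
    · rw [hC.rk_inj j hj i hi hne, hphi]
      constructor
      · intro _; omega
      · intro _; linarith
    · rw [p3 j hj hne]
      omega

theorem pc_far (hC : C.Good) {z z' : ℂ} (hz : z ∈ P.D) (hz' : z' ∈ P.D) (hzr : P.Lam ≤ z.re)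
    (hzr' : P.Lam ≤ z'.re) (h : P.pos z = P.pos z') : pcJ P.D z z' := by
  obtain ⟨M, _, hM⟩ := P.reg hC
  exact pcJ_of_conn (hM z z' hz hz' hzr hzr' h)

theorem pc_far0 (hC : C.Good) (e : ℕ) (he : e ≤ C.m + 1) : ∀ z z' : ℂ, z ∈ P.D → z' ∈ P.D →
    P.Lam ≤ z.re → P.Lam ≤ z'.re → P.pos z = 0 → P.pos z' = e → pcJ P.D z z' := by
  induction e with
  | zero =>
    intro z z' hz hz' hzr hzr' h h'
    exact P.pc_far hC hz hz' hzr hzr' (by rw [h, h'])
  | succ e ih =>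
    intro z z' hz hz' hzr hzr' h h'
    obtain ⟨i, hi, hie⟩ := reg_exists_rk (C := C) hC (e := e) (by omega)
    obtain ⟨p, q, hp, hq, hpD, hqD, hpr, hqr, hpp, hqp⟩ := P.pc_adj hC hi
    have j1 := ih (by omega) z p hz hpD hzr hpr h (by omega)
    have j2 := P.pc_gUK hC hi hp hq
    have j3 := P.pc_far hC hqD hz' hqr hzr' (by omega)
    exact (j1.trans j2).trans j3

theorem pc_far_all (hC : C.Good) {z z' : ℂ} (hz : z ∈ P.D) (hz' : z' ∈ P.D)
    (hzr : P.Lam ≤ z.re) (hzr' : P.Lam ≤ z'.re) : pcJ P.D z z' := by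
  obtain ⟨i, hi, hie⟩ := reg_exists_rk (C := C) hC (e := 0) (Nat.zero_le _)
  obtain ⟨p, q, hp, hq, hpD, hqD, hpr, hqr, hpp, hqp⟩ := P.pc_adj hC hi
  have j1 := P.pc_far0 hC _ (P.pos_le z) p z hpD hz hpr hzr (by omega) rfl
  have j2 := P.pc_far0 hC _ (P.pos_le z') p z' hpD hz' hpr hzr' (by omega) rfl
  exact j1.symm.trans j2

theorem pc_ray {z : ℂ} {t' : ℝ} (ht' : 0 ≤ t')
    (h : ∀ t ∈ Icc (0 : ℝ) t', z + (t : ℂ) ∈ P.D) : pcJ P.D z (z + (t' : ℂ)) := by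
  refine ⟨(fun t : ℝ => z + (t : ℂ)) '' Icc 0 t', ?_, ?_, ⟨0, ⟨le_rfl, ht'⟩, by simp⟩,
    ⟨t', ⟨ht', le_rfl⟩, rfl⟩⟩
  · rintro _ ⟨t, ht, rfl⟩
    exact h t ht
  · apply isPreconnected_Icc.image
    fun_prop

theorem pc_to_far (hC : C.Good) {z : ℂ} (hz : z ∈ P.D) :
    ∃ p ∈ P.D, P.Lam ≤ p.re ∧ pcJ P.D z p := by
  by_cases hB : ∃ t : ℝ, 0 ≤ t ∧ z + (t : ℂ) ∈ P.A
  · have hcont : Continuous (fun t : ℝ => z + (t : ℂ)) := by fun_prop
    have hcl : IsClosed {t : ℝ | 0 ≤ t ∧ z + (t : ℂ) ∈ P.A} :=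
      isClosed_Ici.inter ((P.A_closed hC).preimage hcont)
    have hne : {t : ℝ | 0 ≤ t ∧ z + (t : ℂ) ∈ P.A}.Nonempty := hB
    have hbb : BddBelow {t : ℝ | 0 ≤ t ∧ z + (t : ℂ) ∈ P.A} := ⟨0, fun t ht => ht.1⟩
    have hmem := hcl.csInf_mem hne hbb
    set t1 := sInf {t : ℝ | 0 ≤ t ∧ z + (t : ℂ) ∈ P.A} with ht1
    obtain ⟨h0, hA⟩ := hmem
    have hpos : 0 < t1 := by
      rcases lt_or_eq_of_le h0 with h | h
      · exact h
      · exfalso
        rw [← h] at hA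
        apply hz
        simpa using hA
    have hbefore : ∀ t, 0 ≤ t → t < t1 → z + (t : ℂ) ∈ P.D := by
      intro t ht htt hA'
      have : t1 ≤ t := csInf_le hbb ⟨ht, hA'⟩
      linarith
    obtain ⟨i, hi, w, hw, hwe⟩ : ∃ i, i ≤ C.m ∧ ∃ w ∈ P.K, P.g i w = z + (t1 : ℂ) := by
      rcases hA with hA | hA
      · exfalso
        have h1 := P.D_re hz
        have h2 : (z + (t1 : ℂ)).re = z.re + t1 := by simp
        simp only [mem_ofPred_eq] at hA
        rw [h2] at hA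
        linarith
      · exact hA
    have hV := P.pc_open hC hi (P.K_sub_U hw)
    rw [hwe] at hV
    have e1 : ∀ᶠ t : ℝ in 𝓝 t1, z + (t : ℂ) ∈ P.g i '' P.U := (hcont.tendsto t1) hV
    have e2 : ∀ᶠ t : ℝ in 𝓝 t1, 0 ≤ t := (lt_mem_nhds hpos).mono (fun t ht => ht.le)
    have e3 : ∀ᶠ t : ℝ in 𝓝[<] t1, z + (t : ℂ) ∈ P.g i '' P.U ∧ 0 ≤ t :=
      (e1.and e2).filter_mono nhdsWithin_le_nhds
    obtain ⟨t', ⟨h1, h2⟩, h3⟩ := (e3.and self_mem_nhdsWithin).exists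
    have h3' : t' < t1 := h3
    have hD' := hbefore t' h2 h3'
    have h4 : z + (t' : ℂ) ∈ P.g i '' (P.U \ P.K) := by
      obtain ⟨w', hw', hwe'⟩ := h1
      refine ⟨w', ⟨hw', ?_⟩, hwe'⟩
      intro hwK
      rw [← hwe'] at hD'
      exact P.pc_gK_sub hi hwK hD'
    obtain ⟨p, q, hp, hq, hpD, hqD, hpr, hqr, hpp, hqp⟩ := P.pc_adj hC hi
    refine ⟨p, hpD, hpr, ?_⟩
    have j1 := P.pc_ray h2 (fun t ht => hbefore t ht.1 (lt_of_le_of_lt ht.2 h3'))
    exact j1.trans (P.pc_gUK hC hi h4 hp)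
  · push Not at hB
    set t' : ℝ := max 0 (P.Lam - z.re) with ht'
    have h1 : 0 ≤ t' := le_max_left _ _
    have h2 : P.Lam - z.re ≤ t' := le_max_right _ _
    refine ⟨z + (t' : ℂ), hB t' h1, ?_, P.pc_ray h1 (fun t ht => hB t ht.1)⟩
    simp
    linarith

theorem D_conn (hC : C.Good) : IsPreconnected P.D := by
  apply isPreconnected_of_forall_pair
  intro x hx y hy
  obtain ⟨p, hp, hpr, hxp⟩ := P.pc_to_far hC hx
  obtain ⟨q, hq, hqr, hyq⟩ := P.pc_to_far hC hy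
  obtain ⟨t, h1, h2, h3, h4⟩ := (hxp.trans (P.pc_far_all hC hp hq hpr hqr)).trans hyq.symm
  exact ⟨t, h1, h3, h4, h2⟩

end Par

end PJ
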