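import Pool.Agent.Lib.H31J.ABaseA
import Pool.Agent.Lib.H31J.APC
import Pool.Agent.Lib.H31J.AContr

/-!
# Chunk A-BASEB: base points and `Conn`

* `bb_step`: `bb p = L u_0 z`, `z = c e_1 τ`, `τ = exp (max t ts)`, and `z' = bb (shiftPt p)`; `z, z' ∈ D`, `Re ≥ Λ`,
  `pos z = e_1 = pos z'`; `T_1 = exp t - 1 - 2π|u_1| ≥ 0`.  `|log ‖z‖ - log ‖z'‖| ≤ M'` by `bb_logz` and `bb_size`
  (`1 + T_1 + 2π|u_1| = exp t`).  Then `reg` and `contr1` (`Conn.mono`).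
* `bb_bdd`: same `u`, `t, t' ≤ B`: `bb p = L u_0 z`, `bb q = L u_0 z'` with `z, z'` in the compact set
  `⋃_{e ≤ m+1} c e '' [exp ts, exp (max B ts)] ⊆ D`: `Conn.compact` (`D_open`, `zero_notin`, `D_conn`) and `contr1`.
-/

set_option autoImplicit false

namespace PJ

namespace Par

open Set Filter

variable {C : Comb} (P : Par C)

theorem bb_step (hC : C.Good) {c : ℕ → ℝ → ℂ} (hc : P.Cpt c) : ∃ M : ℝ, ∀ p ∈ C.LL,
    Conn P.D (P.bb c p) (P.L (p.1 0) (P.bb c (shiftPt p))) M := by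
  obtain ⟨M0, hM0⟩ := P.bb_size hC hc
  obtain ⟨M1, hM1, hreg⟩ := P.reg hC
  obtain ⟨M2, hM2, hcon⟩ := P.contr1 hC
  have hts := P.bb_ts hC
  refine ⟨M2 * (M1 * (1 + (M0 + P.ts + 1))), ?_⟩
  intro p hp
  have hs := shift_mem C hp
  have ht := LL_nonneg C hp
  obtain ⟨h1, h2, _, h4⟩ := P.bb_z hC hc hp
  obtain ⟨h5, h6⟩ := P.bb_logz hC hc hp
  have h7 : P.Lam ≤ (c (p.2.1 1) (Real.exp (max p.2.2 P.ts))).re := by
    rw [h2]
    exact P.bb_tau hC _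
  have h8 := P.bb_mem hC hc hs
  have h9 := P.bb_Lam hC hc hs
  have h10 : P.pos (c (p.2.1 1) (Real.exp (max p.2.2 P.ts))) = P.pos (P.bb c (shiftPt p)) := by
    rw [h4, P.bb_pos hC hc hs]
    rfl
  have h11 := hreg _ _ h1 h8 h7 h9 h10
  have h12 := hM0 _ hs
  have h13 : 1 + (shiftPt p).2.2 + 2 * Real.pi * |((shiftPt p).1 0 : ℝ)| = Real.exp p.2.2 := by
    show 1 + Tn p.1 p.2.2 1 + 2 * Real.pi * |(p.1 1 : ℝ)| = Real.exp p.2.2
    rw [Tn_one]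
    ring
  rw [h13, Real.log_exp] at h12
  have h14 := le_max_left p.2.2 P.ts
  have h15 : max p.2.2 P.ts ≤ p.2.2 + P.ts := by
    apply max_le <;> linarith [hts.1, hts.2.1, hts.2.2]
  apply hcon
  refine h11.mono ?_
  apply mul_le_mul_of_nonneg_left _ hM1.le
  have h16 : |Real.log ‖c (p.2.1 1) (Real.exp (max p.2.2 P.ts))‖ -
      Real.log ‖P.bb c (shiftPt p)‖| ≤ M0 + P.ts + 1 := by
    rw [abs_le] at h12 ⊢
    constructor <;> linarith [h12.1, h12.2, hts.1, hts.2.1, hts.2.2]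
  linarith

theorem bb_bdd (hC : C.Good) {c : ℕ → ℝ → ℂ} (hc : P.Cpt c) (B : ℝ) :
    ∃ M : ℝ, ∀ p ∈ C.LL, ∀ q ∈ C.LL, p.1 = q.1 → p.2.2 ≤ B → q.2.2 ≤ B →
    Conn P.D (P.bb c p) (P.bb c q) M := by
  obtain ⟨M2, hM2, hcon⟩ := P.contr1 hC
  set K : Set ℂ := ⋃ e ∈ Set.Iic (C.m + 1),
    c e '' Icc (Real.exp P.ts) (Real.exp (max B P.ts)) with hK
  have hLam : P.Lam ≤ Real.exp P.ts := by
    have := P.bb_tau hC P.ts
    rwa [max_self] at this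
  have hKc : IsCompact K := by
    apply (Set.finite_Iic (C.m + 1)).isCompact_biUnion
    intro e he
    apply isCompact_Icc.image_of_continuousOn
    exact (hc e he).2.mono fun x hx => le_trans hLam hx.1
  have hKD : K ⊆ P.D := by
    intro z hz
    simp only [hK, mem_iUnion, mem_Iic, mem_image, exists_prop] at hz
    obtain ⟨e, he, x, hx, rfl⟩ := hz
    exact ((hc e he).1 x (le_trans hLam hx.1)).1
  obtain ⟨M, hM⟩ := Conn.compact (P.D_open hC) (P.zero_notin hC) (P.D_conn hC) hKc hKD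
  have hmem : ∀ p ∈ C.LL, p.2.2 ≤ B → c (p.2.1 1) (Real.exp (max p.2.2 P.ts)) ∈ K := by
    intro p hp hB
    simp only [hK, mem_iUnion, mem_Iic, mem_image, exists_prop]
    exact ⟨_, LL_le C hp 1, _, ⟨Real.exp_le_exp.2 (le_max_right _ _),
      Real.exp_le_exp.2 (max_le_max hB le_rfl)⟩, rfl⟩
  refine ⟨M2 * M, ?_⟩
  intro p hp q hq hpq hpB hqB
  have h1 := hcon (p.1 0) _ _ _ (hM _ (hmem p hp hpB) _ (hmem q hq hqB))
  unfold Par.bb
  rw [← hpq]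
  exact h1

end Par

end PJ
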