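import Pool.Agent.Lib.H31J.ADefs

/-! # Part A: definition of the base points -/

set_option autoImplicit false

namespace PJ

namespace Par

open Set Filter

variable {C : Comb} (P : Par C)

/-- `c` as in `exists_cpt` -/
def Cpt (c : ℕ → ℝ → ℂ) : Prop := ∀ e, e ≤ C.m + 1 →
    (∀ τ, P.Lam ≤ τ → c e τ ∈ P.D ∧ (c e τ).re = τ ∧ |(c e τ).im| ≤ 25 ∧ P.pos (c e τ) = e) ∧
    ContinuousOn (c e) (Ici P.Lam)

/-- the threshold -/
noncomputable def ts : ℝ := P.Lam + Real.log ‖P.lam‖ + 100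

/-- the base point in `D` of a point of the model -/
noncomputable def bb (c : ℕ → ℝ → ℂ) (p : Pt) : ℂ :=
  P.L (p.1 0) (c (p.2.1 1) (Real.exp (max p.2.2 P.ts)))

/-- the properties of the base points -/
structure Base (b : Pt → ℂ) : Prop where
  mem : ∀ p ∈ C.LL, b p ∈ P.D
  cont : ContinuousOn b C.LL
  step : ∃ M : ℝ, ∀ p ∈ C.LL, Conn P.D (b p) (P.L (p.1 0) (b (shiftPt p))) M
  size : ∃ M : ℝ, ∀ p ∈ C.LL,
    |Real.log ‖b p‖ - Real.log (1 + p.2.2 + 2 * Real.pi * |(p.1 0 : ℝ)|)| ≤ M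
  re_ge : ∀ p ∈ C.LL, P.Lam ≤ (b p).re ∧ p.2.2 - Real.log ‖P.lam‖ ≤ (b p).re
  pos_eq : ∀ p ∈ C.LL, P.pos (b p) = p.2.1 0
  bdd : ∀ B : ℝ, ∃ M : ℝ, ∀ p ∈ C.LL, ∀ q ∈ C.LL, p.1 = q.1 → p.2.2 ≤ B → q.2.2 ≤ B →
    Conn P.D (b p) (b q) M
  near : ∃ M : ℝ, ∀ z ∈ P.D, P.Lam ≤ z.re → ∃ p ∈ C.LL, Conn P.D z (b p) M

/-- the approximations of the parametrization -/
noncomputable def Gn (b : Pt → ℂ) (n : ℕ) (p : Pt) : ℂ :=
  P.Lw ((List.range n).map p.1) (b (shiftPt^[n] p))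

/-- the properties of the parametrization, before the identification of its image -/
structure Para (b G : Pt → ℂ) : Prop where
  cont : ContinuousOn G C.LL
  mem : ∀ p ∈ C.LL, G p ∈ P.JJ
  near : ∃ M : ℝ, ∀ p ∈ C.LL, Conn P.D (b p) (G p) M
  step : ∀ p ∈ C.LL, G p = P.L (p.1 0) (G (shiftPt p))
  equiv : ∀ p ∈ C.LL, P.f (G p) = G (shiftPt p)

end Par

end PJ
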