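import Pool.Agent.Lib.H31J.Defs

/-!
# Part A: definitions

`Par C` : the parameter `lam` together with its post-singular orbit `v 0 = 0, v 1 = lam, …, v m` and the
real comparison orbit `r`.  `f` the map, `g i` the inverse branch of `f^(m-i)` near the curve number `m`
(a horizontal ray), `A` the closed forward invariant set, `D` its complement, `L j` the inverse
branches of `f` on `D`, `phi i` the function whose graph is the `i`-th curve, `pos z` the number of
curves below `z`.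
-/

set_option autoImplicit false

namespace PJ

open Set

/-- The parameter and its data. -/
structure Par (C : Comb) where
  lam : ℂ
  R : ℝ
  r : ℕ → ℝ
  v : ℕ → ℂ
  hR : 10 ^ 6 * ((C.m : ℝ) + 1) ≤ R
  r1 : r 1 = R
  rS : ∀ k, 1 ≤ k → r (k + 1) = R * Real.exp (r k)
  v0 : v 0 = 0
  v1 : v 1 = lam
  vlog : ∀ i, i < C.m → v i = Complex.log (v (i + 1)) - Complex.log lam
    + 2 * Real.pi * Complex.I * (C.sg i : ℂ)
  vm : v C.m = (Real.log (r (C.m + 1)) : ℂ) + Real.pi * Complex.I - Complex.log lam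
  vclose : ∀ i, 1 ≤ i → i ≤ C.m → ‖v i - (r i : ℂ)‖ ≤ 25

/-- `C¹` paths in `D` of logarithmic length `∫ |c'|/|c| ≤ ℓ` (finite concatenations). -/
inductive Conn (D : Set ℂ) : ℂ → ℂ → ℝ → Prop
  | path (c c' : ℝ → ℂ) (l : ℝ) (hD : ∀ t ∈ Icc (0 : ℝ) 1, c t ∈ D)
      (hc : ∀ t ∈ Icc (0 : ℝ) 1, HasDerivWithinAt c (c' t) (Icc (0 : ℝ) 1) t)
      (hb : ∀ t ∈ Icc (0 : ℝ) 1, ‖c' t‖ ≤ l * ‖c t‖) : Conn D (c 0) (c 1) l
  | trans {p q s : ℂ} {l l' : ℝ} (h : Conn D p q l) (h' : Conn D q s l') : Conn D p s (l + l')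

namespace Par

variable {C : Comb} (P : Par C)

/-- The map `z ↦ lam * exp z` (same shape as in the frozen statement). -/
noncomputable def f : ℂ → ℂ := fun w => P.lam * Complex.exp w

/-- `Λ = r_{m+1}`: the singular orbit reaches `-Λ` at time `m+1`. -/
noncomputable def Lam : ℝ := P.r (C.m + 1)

/-- auxiliary: `gk k = g (m-k)`. -/
noncomputable def gk : ℕ → ℂ → ℂ
  | 0, w => w
  | k + 1, w => Complex.log (gk k w) - Complex.log P.lam
      + 2 * Real.pi * Complex.I * (C.sg (C.m - (k + 1)) : ℂ)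

/-- Inverse branch of `f^(m-i)`: `g m w = w`, `g i w = Log (g (i+1) w) - Log lam + 2πi·sg i`. -/
noncomputable def g (i : ℕ) (w : ℂ) : ℂ := P.gk (C.m - i) w

/-- The half strip around the last curve. -/
def U : Set ℂ := {w | (P.v C.m).re - 2 < w.re ∧ |w.im - (P.v C.m).im| < 2}

/-- The last curve (a horizontal ray) together with a disc around its end point. -/
def K : Set ℂ := {w | ‖w - P.v C.m‖ ≤ 1 / 2 ∨ ∃ t : ℝ, 0 ≤ t ∧ w = P.v C.m + (t : ℂ)}

/-- The closed forward invariant set. -/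
def A : Set ℂ := {z | z.re ≤ -P.Lam / 2} ∪ {z | ∃ i, i ≤ C.m ∧ ∃ w ∈ P.K, P.g i w = z}

/-- Its complement. -/
def D : Set ℂ := (P.A)ᶜ

open Classical in
/-- The `i`-th curve is `{x + i φ_i(x) : x ≥ Re v_i}`; `φ_i` is extended by the constant `Im v_i`. -/
noncomputable def phi (i : ℕ) (x : ℝ) : ℝ :=
  if h : ∃ t : ℝ, 0 ≤ t ∧ (P.g i (P.v C.m + (t : ℂ))).re = x then
    (P.g i (P.v C.m + (h.choose : ℂ))).im
  else (P.v i).im

/-- `1` below the curve number `0`, `0` otherwise. -/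
noncomputable def bel (z : ℂ) : ℤ := if z.im < P.phi 0 z.re then 1 else 0

/-- The inverse branches of `f`, analytic off the curve number `0`. -/
noncomputable def L (j : ℤ) (z : ℂ) : ℂ :=
  Complex.log z - Complex.log P.lam + 2 * Real.pi * Complex.I * ((j + P.bel z : ℤ) : ℂ)

/-- `L_{j_0} ∘ L_{j_1} ∘ …` -/
noncomputable def Lw (w : List ℤ) (z : ℂ) : ℂ := w.foldr (fun j x => P.L j x) z

/-- number of curves below `z` -/
noncomputable def pos (z : ℂ) : ℕ :=
  ((Finset.range (C.m + 1)).filter (fun i => P.phi i z.re < z.im)).card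

/-- The Julia set, dynamically. -/
def JJ : Set ℂ := {z | ∀ n : ℕ, P.f^[n] z ∈ P.D}

end Par

/-- prepend a letter to a point of the model -/
noncomputable def consPt (C : Comb) (j : ℤ) (p : Pt) : Pt :=
  (fun n => Nat.casesOn n j p.1, fun n => Nat.casesOn n (C.de j (p.2.1 0)) p.2.1,
    Real.log (1 + p.2.2 + 2 * Real.pi * |(p.1 0 : ℝ)|))

end PJ
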