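import Pool.Agent.Lib.H31J.AL

/-!
# Chunk A-EXP: expansion

`block`: let `z_l = f^l z`, `z_0, …, z_{m+1} ∈ D`.  Then there is `1 ≤ n ≤ m+2` with `∏_{l<n} ‖z_l‖ ≥ 2`.
Proof: if `‖z_0‖ ≥ 2`, take `n = 1`.  Otherwise put `a_l = z_l - v_l` (`l ≤ m`; `a_0 = z_0`), so
`z_{l+1} = v_{l+1} exp(a_l)`, `a_{l+1} = v_{l+1} (exp(a_l) - 1)` for `l < m`.  Since `z_m ∈ D` is not in
`closedBall (v m) (1/2) ⊆ K ⊆ A` (`g m = id`), `‖a_m‖ > 1/2`.  Let `k ≤ m` be the first index with `‖a_k‖ > 1/2`.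
If `k = 0`: `‖z_0‖ > 1/2` and `‖z_1‖ = ‖lam‖ exp(Re z_0) ≥ (R-25) exp(-2)`: `n = 2`.
If `k ≥ 1`: `∏_{l=0}^{k} ‖z_l‖ = ‖a_0‖ ∏_{l=1}^{k} ‖v_l‖ ‖exp(a_{l-1})‖` and
`‖a_k‖ = ‖a_0‖ ∏_{l=1}^{k} ‖v_l‖ ‖(exp(a_{l-1})-1)/a_{l-1}‖` (`a_{l-1} ≠ 0`), quotient
`∏ ‖a_{l-1} exp(a_{l-1})/(exp(a_{l-1})-1)‖`.  The last factor is `≥ 0.4` (`‖a‖ ≤ 1/2`); for `l < k`:
`‖a_{l-1}‖ ≤ 2‖a_l‖/‖v_l‖ ≤ 2/R`, factor `≥ 1 - 4/R`, product `≥ 1/2` (`m ≤ R/10^6`).  So
`∏_{l=0}^{k} ‖z_l‖ ≥ 0.2 ‖a_k‖ ≥ 0.1`.  If `‖a_k‖ ≥ 10` take `n = k+1 ≤ m+1`.  Otherwise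
`‖z_{k+1}‖ = ‖f z_k‖ = ‖v_{k+1}‖ exp(Re a_k) ≥ (R-25) exp(-10) ≥ 20` (for `k = m` read `‖v_{m+1}‖ = Λ`, `f_vm`),
take `n = k+2 ≤ m+2`.

`prod_bound`: with `ρ ≤ 1` from `ball_sub_A`, `N = m+2`, `κ = 2^{1/N}`, `c = ρ^N / 2`, strong induction on `n`: for
`n ≤ N`: product `≥ ρ^N ≥ c κ^N`.  For `n > N` split off a block of length `b ≤ N` with product `≥ 2 ≥ κ^b`.
-/

set_option autoImplicit false

namespace PJ

namespace Par

open Set Filter

variable {C : Comb} (P : Par C)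

theorem exp_aux_low {a : ℂ} (ha : ‖a‖ ≤ 1 / 2) : ‖a‖ / 2 ≤ ‖Complex.exp a - 1‖ := by
  have h1 : ‖Complex.exp a - 1 - a‖ ≤ ‖a‖ ^ 2 :=
    Complex.norm_exp_sub_one_sub_id_le (by linarith)
  have h2 : ‖a‖ ≤ ‖Complex.exp a - 1‖ + ‖Complex.exp a - 1 - a‖ := by
    calc ‖a‖ = ‖(Complex.exp a - 1) - (Complex.exp a - 1 - a)‖ := by congr 1; ring
      _ ≤ _ := norm_sub_le _ _
  have h3 : ‖a‖ ^ 2 ≤ ‖a‖ / 2 := by nlinarith [norm_nonneg a]
  linarith

theorem exp_aux_up {a : ℂ} (ha : ‖a‖ ≤ 1 / 2) :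
    ‖Complex.exp a - 1‖ ≤ ‖Complex.exp a‖ * (‖a‖ * (1 + ‖a‖)) := by
  have h1 : ‖Complex.exp (-a) - 1 - (-a)‖ ≤ ‖-a‖ ^ 2 :=
    Complex.norm_exp_sub_one_sub_id_le (by rw [norm_neg]; linarith)
  rw [norm_neg] at h1
  have h2 : Complex.exp a - 1 = Complex.exp a * (a - (Complex.exp (-a) - 1 - (-a))) := by
    have : Complex.exp a * Complex.exp (-a) = 1 := by
      rw [← Complex.exp_add]; simp
    calc Complex.exp a - 1 = Complex.exp a - Complex.exp a * Complex.exp (-a) := by rw [this]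
      _ = _ := by ring
  rw [h2, norm_mul]
  apply mul_le_mul_of_nonneg_left _ (norm_nonneg _)
  calc ‖a - (Complex.exp (-a) - 1 - (-a))‖ ≤ ‖a‖ + ‖Complex.exp (-a) - 1 - (-a)‖ :=
        norm_sub_le _ _
    _ ≤ ‖a‖ + ‖a‖ ^ 2 := by linarith
    _ = _ := by ring

theorem exp_aux_step (hC : C.Good) {l : ℕ} (hl : l < C.m) (w : ℂ) :
    P.f w = P.v (l + 1) * Complex.exp (w - P.v l) := by
  rw [← P.f_v hC hl]
  unfold f
  rw [mul_assoc, ← Complex.exp_add]
  congr 2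
  ring

theorem exp_aux_nv (hC : C.Good) {l : ℕ} (hl : 1 ≤ l) (hlm : l ≤ C.m) :
    P.R / 2 ≤ ‖P.v l‖ := by
  have h1 := (P.v_norm hl hlm).1
  have h2 := P.r_ge hl
  linarith

theorem exp_aux_exp10 : Real.exp 10 ≤ 25000 := by
  have h1 : Real.exp 10 = Real.exp 1 ^ 10 := by
    rw [← Real.exp_nat_mul]; norm_num
  rw [h1]
  have h2 : Real.exp 1 ≤ 2.7182818286 := Real.exp_one_lt_d9.le
  calc Real.exp 1 ^ 10 ≤ (2.7182818286 : ℝ) ^ 10 :=
        pow_le_pow_left₀ (Real.exp_pos _).le h2 10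
    _ ≤ 25000 := by norm_num

theorem exp_aux_exp10' {x : ℝ} (hx : -10 ≤ x) : 1 / 25000 ≤ Real.exp x := by
  have h1 : Real.exp (-10) ≤ Real.exp x := Real.exp_le_exp.2 hx
  have h2 : 1 / 25000 ≤ Real.exp (-10) := by
    rw [Real.exp_neg, one_div]
    exact inv_anti₀ (Real.exp_pos _) exp_aux_exp10
  linarith

theorem exp_aux_next (hC : C.Good) {l : ℕ} (hl : l ≤ C.m) (w : ℂ)
    (hw : ‖w - P.v l‖ ≤ 10) : 19 ≤ ‖P.f w‖ := by
  have hR := P.R_ge
  have hre : -10 ≤ (w - P.v l).re := by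
    have := Complex.abs_re_le_norm (w - P.v l)
    have := abs_le.1 (this.trans hw)
    exact this.1
  have he := exp_aux_exp10' hre
  rcases Nat.lt_or_ge l C.m with h | h
  · rw [P.exp_aux_step hC h w, norm_mul, Complex.norm_exp]
    have h1 := P.exp_aux_nv hC (l := l + 1) (by omega) (by omega)
    have h2 : (500000 : ℝ) ≤ ‖P.v (l + 1)‖ := by linarith
    calc (19 : ℝ) ≤ 500000 * (1 / 25000) := by norm_num
      _ ≤ _ := mul_le_mul h2 he (by norm_num) (by linarith)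
  · have hlm : l = C.m := by omega
    subst hlm
    have h3 : P.f w = -(P.Lam : ℂ) * Complex.exp (w - P.v C.m) := by
      rw [← P.f_vm hC]; congr 1; ring
    have hL := P.Lam_ge'
    rw [h3, norm_mul, Complex.norm_exp, norm_neg, Complex.norm_real,
      Real.norm_of_nonneg (by linarith)]
    have h2 : (500000 : ℝ) ≤ P.Lam := by linarith
    calc (19 : ℝ) ≤ 500000 * (1 / 25000) := by norm_num
      _ ≤ _ := mul_le_mul h2 he (by norm_num) (by linarith)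

theorem block (hC : C.Good) (z : ℂ) (hz : ∀ l, l ≤ C.m + 1 → P.f^[l] z ∈ P.D) :
    ∃ n, 1 ≤ n ∧ n ≤ C.m + 2 ∧ 2 ≤ ∏ l ∈ Finset.range n, ‖P.f^[l] z‖ := by
  have hm := hC.m_pos
  have hR := P.hR
  have hR6 := P.R_ge
  by_cases h0 : 2 ≤ ‖z‖
  · exact ⟨1, le_refl _, by omega, by simpa using h0⟩
  rw [not_le] at h0
  set a : ℕ → ℂ := fun l => P.f^[l] z - P.v l with ha
  have hex : ∃ k, 1 / 2 < ‖a k‖ := by
    refine ⟨C.m, ?_⟩
    by_contra hcon
    rw [not_lt] at hcon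
    have h1 := hz C.m (by omega)
    apply h1
    right
    exact ⟨C.m, le_refl _, P.f^[C.m] z, Or.inl hcon, P.g_last _⟩
  classical
  set k := Nat.find hex with hk
  have hk1 : 1 / 2 < ‖a k‖ := Nat.find_spec hex
  have hk2 : ∀ l < k, ‖a l‖ ≤ 1 / 2 := fun l hl => not_lt.1 (Nat.find_min hex hl)
  have hkm : k ≤ C.m := by
    apply Nat.find_min'
    by_contra hcon
    rw [not_lt] at hcon
    have h1 := hz C.m (by omega)
    apply h1
    right
    exact ⟨C.m, le_refl _, P.f^[C.m] z, Or.inl hcon, P.g_last _⟩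
  -- the product up to k
  set Q : ℕ → ℝ := fun l => ∏ i ∈ Finset.range (l + 1), ‖P.f^[i] z‖ with hQ
  have hQs : ∀ l, Q (l + 1) = Q l * ‖P.f^[l + 1] z‖ := fun l => Finset.prod_range_succ _ _
  set ε : ℝ := 1 / (2 * ((C.m : ℝ) + 1)) with hε
  have hm0 : (0 : ℝ) ≤ C.m := Nat.cast_nonneg _
  have hε0 : 0 < ε := by rw [hε]; positivity
  have hstep : ∀ l, l < k → ‖a (l + 1)‖ = ‖P.v (l + 1)‖ * ‖Complex.exp (a l) - 1‖ ∧
      ‖P.f^[l + 1] z‖ = ‖P.v (l + 1)‖ * ‖Complex.exp (a l)‖ := by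
    intro l hl
    have h1 : P.f^[l + 1] z = P.v (l + 1) * Complex.exp (a l) := by
      rw [Function.iterate_succ_apply']
      exact P.exp_aux_step hC (by omega) _
    constructor
    · have h2 : a (l + 1) = P.v (l + 1) * (Complex.exp (a l) - 1) := by
        show P.f^[l + 1] z - P.v (l + 1) = _
        rw [h1]; ring
      rw [h2, norm_mul]
    · rw [h1, norm_mul]
  have hmul : ∀ l, l < k → ∀ s : ℝ, 0 ≤ s → ‖a l‖ * s ≤ Q l →
      ‖a (l + 1)‖ * s ≤ Q (l + 1) * (1 + ‖a l‖) := by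
    intro l hl s hs hq
    obtain ⟨e1, e2⟩ := hstep l hl
    rw [hQs, e1, e2]
    have h3 := exp_aux_up (hk2 l hl)
    calc ‖P.v (l + 1)‖ * ‖Complex.exp (a l) - 1‖ * s
        ≤ ‖P.v (l + 1)‖ * (‖Complex.exp (a l)‖ * (‖a l‖ * (1 + ‖a l‖))) * s := by
          apply mul_le_mul_of_nonneg_right _ hs
          exact mul_le_mul_of_nonneg_left h3 (norm_nonneg _)
      _ = (‖a l‖ * s) * (‖P.v (l + 1)‖ * ‖Complex.exp (a l)‖ * (1 + ‖a l‖)) := by ring
      _ ≤ Q l * (‖P.v (l + 1)‖ * ‖Complex.exp (a l)‖ * (1 + ‖a l‖)) := by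
          apply mul_le_mul_of_nonneg_right hq
          positivity
      _ = _ := by ring
  have hclaim : ∀ l, l < k → ‖a l‖ * ((1 + ε)⁻¹) ^ l ≤ Q l := by
    intro l
    induction l with
    | zero =>
      intro _
      have : a 0 = z := by simp [ha, P.v0]
      rw [this]
      simp [hQ]
    | succ l ih =>
      intro hl
      have h1 := hmul l (by omega) (((1 + ε)⁻¹) ^ l) (by positivity) (ih (by omega))
      have h2 : ‖a l‖ ≤ ε := by
        have h3 := exp_aux_low (hk2 l (by omega))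
        have h4 := (hstep l (by omega)).1
        have h5 := P.exp_aux_nv hC (l := l + 1) (by omega) (by omega)
        have h6 := hk2 (l + 1) hl
        rw [h4] at h6
        have h7 : P.R / 2 * (‖a l‖ / 2) ≤ 1 / 2 := by
          refine le_trans ?_ h6
          exact mul_le_mul h5 h3 (by positivity) (norm_nonneg _)
        have h8 : ‖a l‖ * P.R ≤ 2 := by linarith
        rw [hε, le_div_iff₀ (by positivity)]
        have h9 : 0 ≤ ‖a l‖ := norm_nonneg _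
        nlinarith
      have h10 : 0 ≤ Q (l + 1) := Finset.prod_nonneg fun i _ => norm_nonneg _
      have h11 : ‖a (l + 1)‖ * ((1 + ε)⁻¹) ^ l ≤ Q (l + 1) * (1 + ε) :=
        h1.trans (mul_le_mul_of_nonneg_left (by linarith) h10)
      rw [pow_succ, ← mul_assoc]
      rw [← div_eq_mul_inv, div_le_iff₀ (by linarith)]
      exact h11
  have hQ0 : ∀ l, 0 ≤ Q l := fun l => Finset.prod_nonneg fun i _ => norm_nonneg _
  -- lower bound at k
  have hQk : ‖a k‖ / 3 ≤ Q k := by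
    rcases Nat.eq_zero_or_pos k with hk0 | hkp
    · have h1 : a k = z := by rw [hk0]; simp [ha, P.v0]
      have h2 : Q k = ‖z‖ := by rw [hk0]; simp [hQ]
      rw [h1, h2]
      have := norm_nonneg z
      linarith
    · obtain ⟨l, hl⟩ : ∃ l, k = l + 1 := ⟨k - 1, by omega⟩
      have h1 := hmul l (by omega) (((1 + ε)⁻¹) ^ l) (by positivity) (hclaim l (by omega))
      rw [← hl] at h1
      have h2 : ‖a l‖ ≤ 1 / 2 := hk2 l (by omega)
      have h3 : (1 / 2 : ℝ) ≤ ((1 + ε)⁻¹) ^ l := by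
        rw [inv_pow, one_div]
        apply inv_anti₀ (by positivity)
        have h4 : (1 + ε) ^ l ≤ (Real.exp ε) ^ l := by
          apply pow_le_pow_left₀ (by linarith)
          have := Real.add_one_le_exp ε
          linarith
        have h5 : (Real.exp ε) ^ l ≤ 2 := by
          rw [← Real.exp_nat_mul]
          have h6 : (l : ℝ) * ε ≤ 1 / 2 := by
            rw [hε, mul_one_div, div_le_iff₀ (by positivity)]
            have : (l : ℝ) ≤ C.m := by exact_mod_cast (by omega : l ≤ C.m)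
            linarith
          have h7 : Real.exp ((l : ℝ) * ε) ≤ Real.exp (1 / 2) := Real.exp_le_exp.2 h6
          have h8 : Real.exp (1 / 2 : ℝ) ≤ 2 := by
            have := Real.exp_bound' (x := (1 / 2 : ℝ)) (by norm_num) (by norm_num) (n := 2)
              (by norm_num)
            refine this.trans ?_
            norm_num [Finset.sum_range_succ, Nat.factorial]
          linarith
        linarith
      have h4 : Q k * (1 + ‖a l‖) ≤ Q k * (3 / 2) :=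
        mul_le_mul_of_nonneg_left (by linarith) (hQ0 k)
      have h5 : ‖a k‖ * (1 / 2) ≤ ‖a k‖ * ((1 + ε)⁻¹) ^ l :=
        mul_le_mul_of_nonneg_left h3 (norm_nonneg _)
      linarith
  by_cases hbig : 10 ≤ ‖a k‖
  · refine ⟨k + 1, by omega, by omega, ?_⟩
    have : (2 : ℝ) ≤ Q k := by linarith
    exact this
  · rw [not_le] at hbig
    refine ⟨k + 2, by omega, by omega, ?_⟩
    have h1 : (19 : ℝ) ≤ ‖P.f^[k + 1] z‖ := by
      rw [Function.iterate_succ_apply']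
      exact P.exp_aux_next hC hkm _ hbig.le
    have h2 : Q (k + 1) = Q k * ‖P.f^[k + 1] z‖ := hQs k
    have h3 : (2 : ℝ) ≤ Q (k + 1) := by
      rw [h2]
      have : (1 / 6 : ℝ) ≤ Q k := by linarith
      nlinarith
    exact h3

theorem prod_bound (hC : C.Good) : ∃ c κ : ℝ, 0 < c ∧ 1 < κ ∧ ∀ (n : ℕ) (z : ℂ),
    (∀ l, l < n → P.f^[l] z ∈ P.D) → c * κ ^ n ≤ ∏ l ∈ Finset.range n, ‖P.f^[l] z‖ := by
  obtain ⟨ρ0, hρ0, hρD⟩ := P.ball_sub_A hC
  set ρ : ℝ := min ρ0 1 with hρ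
  have hρp : 0 < ρ := lt_min hρ0 one_pos
  have hρ1 : ρ ≤ 1 := min_le_right _ _
  set N : ℕ := C.m + 2 with hN
  have hNpos : (0 : ℝ) < N := by exact_mod_cast (by omega : 0 < N)
  set κ : ℝ := (2 : ℝ) ^ ((1 : ℝ) / N) with hκ
  have hκ1 : 1 < κ := Real.one_lt_rpow (by norm_num) (by positivity)
  have hκN : κ ^ N = 2 := by
    rw [hκ, ← Real.rpow_natCast, ← Real.rpow_mul (by norm_num)]
    rw [one_div, inv_mul_cancel₀ hNpos.ne', Real.rpow_one]
  have hκle : ∀ b, b ≤ N → κ ^ b ≤ 2 := by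
    intro b hb
    rw [← hκN]
    exact pow_le_pow_right₀ hκ1.le hb
  refine ⟨ρ ^ N / 2, κ, by positivity, hκ1, ?_⟩
  intro n
  induction n using Nat.strong_induction_on with
  | _ n ih =>
    intro z hz
    rcases Nat.lt_or_ge N n with hlt | hge
    · obtain ⟨b, hb1, hb2, hb3⟩ := P.block hC z (fun l hl => hz l (by omega))
      have hsplit : ∏ l ∈ Finset.range n, ‖P.f^[l] z‖ =
          (∏ l ∈ Finset.range b, ‖P.f^[l] z‖) *
            ∏ l ∈ Finset.range (n - b), ‖P.f^[l] (P.f^[b] z)‖ := by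
        have h1 : n = b + (n - b) := by omega
        conv_lhs => rw [h1]
        rw [Finset.prod_range_add]
        congr 1
        apply Finset.prod_congr rfl
        intro l _
        rw [← Function.iterate_add_apply, Nat.add_comm]
      have hrec := ih (n - b) (by omega) (P.f^[b] z) (by
        intro l hl
        rw [← Function.iterate_add_apply]
        exact hz _ (by omega))
      rw [hsplit]
      have h2 : κ ^ n = κ ^ b * κ ^ (n - b) := by
        rw [← pow_add]; congr 1; omega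
      have h3 : κ ^ b ≤ 2 := hκle b (by omega)
      have h4 : 0 ≤ ρ ^ N / 2 * κ ^ (n - b) := by positivity
      calc ρ ^ N / 2 * κ ^ n = κ ^ b * (ρ ^ N / 2 * κ ^ (n - b)) := by rw [h2]; ring
        _ ≤ 2 * (ρ ^ N / 2 * κ ^ (n - b)) := mul_le_mul_of_nonneg_right h3 h4
        _ ≤ _ := mul_le_mul hb3 hrec h4 (by linarith)
    · have h1 : ρ ^ n ≤ ∏ l ∈ Finset.range n, ‖P.f^[l] z‖ := by
        calc ρ ^ n = ∏ l ∈ Finset.range n, ρ := by simp
          _ ≤ _ := by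
            apply Finset.prod_le_prod
            · intro i _; exact hρp.le
            · intro i hi
              exact (min_le_left _ _).trans (hρD _ (hz i (Finset.mem_range.1 hi))).le
      have h2 : ρ ^ N ≤ ρ ^ n := pow_le_pow_of_le_one hρp.le hρ1 hge
      have h3 : κ ^ n ≤ 2 := hκle n hge
      have h4 : 0 ≤ ρ ^ N / 2 := by positivity
      calc ρ ^ N / 2 * κ ^ n ≤ ρ ^ N / 2 * 2 := mul_le_mul_of_nonneg_left h3 h4
        _ = ρ ^ N := by ring
        _ ≤ _ := h2.trans h1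

end Par

end PJ
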