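import Pool.Agent.Lib.H31J.ACpt
import Pool.Agent.Lib.H31J.AConn

/-!
# Chunk A-SEP: separation of the far regions

`sep`: for `ℓ` there is `X1`: if `z, z'` are joined by `Conn D z z' ℓ` and `Re z, Re z' ≥ X1` then `pos z = pos z'`.
Extended position on `D ∩ {‖z‖ > Y}`, `Y = 2Λ + 100`: `ê z = pos z` if `Re z ≥ Λ`; if `Re z < Λ`: `m+1` for `Im z > 0`, `0` for
`Im z ≤ 0` (`Re z > -Λ/2` in `D`, so `|Im z| > Λ`).  It is locally constant on `D ∩ {‖z‖ > Y}`: for `Re z > Λ`
because all `φ_i(Re z) ≠ Im z` (`far`) and `φ_i` is continuous; for `Re z ≤ Λ` because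
`|Im z| > 20` and `pos_high`, `pos_low`.  By induction on `Conn`: if `‖z‖ > Y exp ℓ` then `ê z = ê z'` (on a path
`‖c t‖ ≥ ‖z‖ exp (-ℓ) > Y`, and `ê ∘ c` is locally constant on the connected set `[0,1]`; apply `norm_le`/`log_le` to the
piece `[0,t]`).  `X1 = Y exp |ℓ| + Λ + 1`.
-/

set_option autoImplicit false

namespace PJ

namespace Par

open Set Filter

variable {C : Comb} (P : Par C)

open Classical in
/-- extended position -/
noncomputable def sep_eh (z : ℂ) : ℕ :=
  if P.Lam ≤ z.re then P.pos z else if 0 < z.im then C.m + 1 else 0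

theorem sep_loc (hC : C.Good) {z : ℂ} (hz : z ∈ P.D) (hn : 2 * P.Lam + 100 < ‖z‖) :
    ∀ᶠ z' in nhds z, P.sep_eh z' = P.sep_eh z := by
  have hL := P.Lam_ge'
  rcases lt_or_ge P.Lam z.re with hr | hr
  · have hfar := (P.far hC hr.le).1 hz
    have h1 : ∀ᶠ z' : ℂ in nhds z, P.Lam < z'.re :=
      Complex.continuous_re.continuousAt.eventually_const_lt hr
    have h2 : ∀ᶠ z' : ℂ in nhds z, ∀ i ∈ Finset.range (C.m + 1),
        (P.phi i z'.re < z'.im ↔ P.phi i z.re < z.im) := by
      rw [Filter.eventually_all_finset]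
      intro i hi
      have him : i ≤ C.m := by
        have := Finset.mem_range.1 hi; omega
      have hc : Continuous (fun z' : ℂ => P.phi i z'.re - z'.im) :=
        ((P.phi_cont hC him).comp Complex.continuous_re).sub Complex.continuous_im
      rcases lt_or_gt_of_ne (hfar i him) with h | h
      · have : ∀ᶠ z' in nhds z, P.phi i z'.re - z'.im < 0 :=
          hc.continuousAt.eventually_lt_const (by linarith)
        filter_upwards [this] with z' hz'
        constructor
        · intro _; exact h
        · intro _; linarith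
      · have : ∀ᶠ z' in nhds z, 0 < P.phi i z'.re - z'.im :=
          hc.continuousAt.eventually_const_lt (by linarith)
        filter_upwards [this] with z' hz'
        constructor
        · intro h'; linarith
        · intro h'; linarith
    filter_upwards [h1, h2] with z' hz1 hz2
    unfold sep_eh
    rw [if_pos hz1.le, if_pos hr.le]
    unfold pos
    congr 1
    apply Finset.filter_congr
    intro i hi
    exact hz2 i hi
  · have hre := P.D_re hz
    have hnorm : ‖z‖ ≤ |z.re| + |z.im| := Complex.norm_le_abs_re_add_abs_im z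
    have hab : |z.re| ≤ P.Lam := by
      rw [abs_le]; constructor <;> linarith
    have him : 20 < |z.im| := by linarith
    have key : ∀ z' : ℂ, 20 < z'.im → P.sep_eh z' = C.m + 1 := by
      intro z' h
      unfold sep_eh
      split_ifs
      · exact P.pos_high hC h
      · rfl
      · exfalso; linarith
    have key' : ∀ z' : ℂ, z'.im < -20 → P.sep_eh z' = 0 := by
      intro z' h
      unfold sep_eh
      split_ifs
      · exact P.pos_low hC h
      · exfalso; linarith
      · rfl
    rcases lt_abs.1 him with h | h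
    · have : ∀ᶠ z' : ℂ in nhds z, 20 < z'.im :=
        Complex.continuous_im.continuousAt.eventually_const_lt h
      filter_upwards [this] with z' hz'
      rw [key z' hz', key z h]
    · have h' : z.im < -20 := by linarith
      have : ∀ᶠ z' : ℂ in nhds z, z'.im < -20 :=
        Complex.continuous_im.continuousAt.eventually_lt_const h'
      filter_upwards [this] with z' hz'
      rw [key' z' hz', key' z h']

theorem sep_conn (hC : C.Good) {p q : ℂ} {l : ℝ} (h : Conn P.D p q l)
    (hp : (2 * P.Lam + 100) * Real.exp l < ‖p‖) : P.sep_eh p = P.sep_eh q := by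
  have h0 := P.zero_notin hC
  have hL := P.Lam_ge'
  induction h with
  | path c c' l hD hc hb =>
    have hconn : Conn P.D (c 0) (c 1) l := Conn.path c c' l hD hc hb
    have hl : 0 ≤ l := hconn.nonneg h0
    have hnorm : ∀ t ∈ Icc (0 : ℝ) 1, 2 * P.Lam + 100 < ‖c t‖ := by
      intro t ht
      have hsub : Icc (0 : ℝ) t ⊆ Icc 0 1 := Icc_subset_Icc_right ht.2
      have h1 : Conn P.D (c 0) (c t) ((t - 0) * l) :=
        Conn.path_ab ht.1 c c' hl (fun s hs => hD s (hsub hs))
          (fun s hs => (hc s (hsub hs)).mono hsub) (fun s hs => hb s (hsub hs))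
      have h2 := h1.symm.norm_le h0
      have h3 : Real.exp ((t - 0) * l) ≤ Real.exp l := by
        apply Real.exp_le_exp.2
        nlinarith [ht.1, ht.2]
      have h4 : ‖c 0‖ ≤ ‖c t‖ * Real.exp l := h2.trans (by gcongr)
      have h5 : (2 * P.Lam + 100) * Real.exp l < ‖c t‖ * Real.exp l := lt_of_lt_of_le hp h4
      exact lt_of_mul_lt_mul_right h5 (Real.exp_pos l).le
    have hcont : ContinuousOn (fun t => P.sep_eh (c t)) (Icc (0 : ℝ) 1) := by
      intro t ht
      have hct : ContinuousWithinAt c (Icc (0 : ℝ) 1) t := (hc t ht).continuousWithinAt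
      have hev : ∀ᶠ s in nhdsWithin t (Icc (0 : ℝ) 1), P.sep_eh (c s) = P.sep_eh (c t) :=
        hct.eventually (P.sep_loc hC (hD t ht) (hnorm t ht))
      exact (tendsto_const_nhds.congr' (hev.mono fun s hs => hs.symm))
    exact isPreconnected_Icc.constant hcont (left_mem_Icc.2 zero_le_one)
      (right_mem_Icc.2 zero_le_one)
  | trans h1 h2 ih1 ih2 =>
    rename_i p q s l l'
    have hl : 0 ≤ l := h1.nonneg h0
    have hl' : 0 ≤ l' := h2.nonneg h0
    have e1 : (2 * P.Lam + 100) * Real.exp l < ‖p‖ := by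
      refine lt_of_le_of_lt ?_ hp
      apply mul_le_mul_of_nonneg_left (Real.exp_le_exp.2 (by linarith)) (by linarith)
    have e2 : ‖p‖ ≤ ‖q‖ * Real.exp l := h1.symm.norm_le h0
    have e3 : (2 * P.Lam + 100) * Real.exp l' < ‖q‖ := by
      have h3 : (2 * P.Lam + 100) * Real.exp l' * Real.exp l < ‖q‖ * Real.exp l := by
        have : (2 * P.Lam + 100) * Real.exp l' * Real.exp l
            = (2 * P.Lam + 100) * Real.exp (l + l') := by
          rw [Real.exp_add]; ring
        rw [this]
        exact lt_of_lt_of_le hp e2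
      exact lt_of_mul_lt_mul_right h3 (Real.exp_pos l).le
    exact (ih1 e1).trans (ih2 e3)

theorem sep (hC : C.Good) (l : ℝ) : ∃ X1 : ℝ, P.Lam ≤ X1 ∧ ∀ z z' : ℂ, X1 ≤ z.re → X1 ≤ z'.re →
    Conn P.D z z' l → P.pos z = P.pos z' := by
  have hL := P.Lam_ge'
  have hY : 0 < 2 * P.Lam + 100 := by linarith
  have hE : 0 < (2 * P.Lam + 100) * Real.exp |l| := mul_pos hY (Real.exp_pos _)
  refine ⟨(2 * P.Lam + 100) * Real.exp |l| + P.Lam + 1, by linarith, ?_⟩
  intro z z' hz hz' h
  have h1 : (2 * P.Lam + 100) * Real.exp l < ‖z‖ := by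
    have h2 : z.re ≤ ‖z‖ := Complex.re_le_norm z
    have h3 : (2 * P.Lam + 100) * Real.exp l ≤ (2 * P.Lam + 100) * Real.exp |l| :=
      mul_le_mul_of_nonneg_left (Real.exp_le_exp.2 (le_abs_self l)) hY.le
    linarith
  have h4 := P.sep_conn hC h h1
  unfold sep_eh at h4
  rwa [if_pos (by linarith), if_pos (by linarith)] at h4

end Par

end PJ
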