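import Pool.Agent.Lib.H31J.AGlim
import Pool.Agent.Lib.H31J.ASep

/-!
# Chunk A-FIB: the fibres of the parametrization

* `fib_u`: `G p = G q → p.1 = q.1`: `L (p.1 0) (G (shiftPt p)) = L (q.1 0) (G (shiftPt q))`, and
  `G (shiftPt p) = f (G p) = G (shiftPt q)`, so `p.1 0 = q.1 0` (`L_inj`); induction.
* `fib_t`: moreover `p.2.2 = q.2.2`: if `t < t'` (same `u`): `T'_n - T_n → ∞` (`Tn_gap`).  For all `n`:
  `|log ‖b (shift^n p)‖ - log ‖b (shift^n q)‖| ≤ 2M` since `G (shift^n p) = G (shift^n q)`.  By `size`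
  the same (other constant) for `log (1 + T_n + 2π|u_n|) = T_{n-1}` (`n ≥ 1`): contradiction.
* `fib_e`: if `p = (u,e,t)`, `q = (u,e',t)`, not end points, then `T_n → ∞` (`Tn_escape`), `b (shift^n p)`,
  `b (shift^n q)` are joined by `Conn D … (2M)` and have real parts `→ ∞` (`re_ge`), so by `sep` and `pos_eq`:
  `e_n = e'_n` for large `n`, hence `e = e'` (`e_n = de u_n e_{n+1}`).
* `fib_end`: if `p = (u,e,t)`, `q = (u,e',t)`, `e ≠ e'`, `IsEnd u t`: by `hC.multi` the letters `u_n` are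
  bounded, by `end_bdd` the `T_n` are bounded by some `β`; `Base.bdd` gives
  `Conn D (b (shift^n p)) (b (shift^n q)) M''` for all `n`, hence
  `Conn D (G (shift^n p)) (G (shift^n q)) (M''+2M)`, and by `contr` (`G p = Lw [u_0..u_{n-1}] (G (shift^n p))`)
  the distance of `G p` and `G q` is `≤ ‖G p‖ (exp (M κ^{-n} (…)) - 1) → 0`: `G p = G q`.
-/

set_option autoImplicit false

namespace PJ

namespace Par

open Set Filter

variable {C : Comb} (P : Par C)

theorem Para.AFib_shift {b G : Pt → ℂ} (hG : P.Para b G) (n : ℕ) :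
    ∀ p ∈ C.LL, ∀ q ∈ C.LL, G p = G q → G (shiftPt^[n] p) = G (shiftPt^[n] q) := by
  induction n with
  | zero => intro p _ q _ h; exact h
  | succ n ih =>
    intro p hp q hq h
    rw [Function.iterate_succ_apply, Function.iterate_succ_apply]
    apply ih _ (shift_mem C hp) _ (shift_mem C hq)
    rw [← hG.equiv p hp, ← hG.equiv q hq, h]

theorem AFib_one (p : Pt) (n : ℕ) : (shiftPt^[n] p).1 0 = p.1 n := by
  rw [shift_iter]; simp

theorem AFib_T (p : Pt) (n : ℕ) : (shiftPt^[n] p).2.2 = Tn p.1 p.2.2 n := by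
  rw [shift_iter]

theorem AFib_e (p : Pt) (n : ℕ) : (shiftPt^[n] p).2.1 0 = p.2.1 n := by
  rw [shift_iter]; simp

theorem Para.AFib_u {b G : Pt → ℂ} (hG : P.Para b G) {p q : Pt}
    (hp : p ∈ C.LL) (hq : q ∈ C.LL) (h : G p = G q) : p.1 = q.1 := by
  funext n
  have h1 := hG.AFib_shift P n p hp q hq h
  have h2 := hG.AFib_shift P (n + 1) p hp q hq h
  rw [Function.iterate_succ_apply', Function.iterate_succ_apply'] at h2
  rw [hG.step _ (shift_iter_mem C hp n), hG.step _ (shift_iter_mem C hq n), h2, AFib_one,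
    AFib_one] at h1
  exact P.L_inj h1

theorem Para.AFib_bb {b G : Pt → ℂ} (hG : P.Para b G) : ∃ M : ℝ, ∀ p ∈ C.LL, ∀ q ∈ C.LL,
    G p = G q → ∀ n : ℕ, Conn P.D (b (shiftPt^[n] p)) (b (shiftPt^[n] q)) M := by
  obtain ⟨M, hM⟩ := hG.near
  refine ⟨M + M, fun p hp q hq h n => ?_⟩
  have h1 := hM _ (shift_iter_mem C hp n)
  have h2 := hM _ (shift_iter_mem C hq n)
  rw [← hG.AFib_shift P n p hp q hq h] at h2
  exact h1.trans h2.symm

theorem Para.AFib_t_aux (hC : C.Good) {b G : Pt → ℂ} (hb : P.Base b) (hG : P.Para b G) {p q : Pt}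
    (hp : p ∈ C.LL) (hq : q ∈ C.LL) (h : G p = G q) : ¬ p.2.2 < q.2.2 := by
  intro hlt
  have hu := hG.AFib_u P hp hq h
  obtain ⟨M, hM⟩ := hG.AFib_bb P
  obtain ⟨M2, hM2⟩ := hb.size
  have h0 := P.zero_notin hC
  have hgap := Tn_gap p.1 (fun n => (hp n).1) hlt
  have hval : ∀ (r : Pt) (n : ℕ), 1 + (shiftPt^[n + 1] r).2.2 +
      2 * Real.pi * |((shiftPt^[n + 1] r).1 0 : ℝ)| = Real.exp (Tn r.1 r.2.2 n) := by
    intro r n
    rw [AFib_T, AFib_one]
    show 1 + (Real.exp (Tn r.1 r.2.2 n) - 1 - 2 * Real.pi * |(r.1 (n + 1) : ℝ)|) + _ = _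
    ring
  have hbound : ∀ n : ℕ, Tn p.1 q.2.2 n - Tn p.1 p.2.2 n ≤ M + 2 * M2 := by
    intro n
    have h1 := (abs_le.1 ((hM p hp q hq h (n + 1)).log_le h0)).1
    have h2 := (abs_le.1 (hM2 _ (shift_iter_mem C hp (n + 1)))).2
    have h3 := (abs_le.1 (hM2 _ (shift_iter_mem C hq (n + 1)))).1
    rw [hval, Real.log_exp] at h2 h3
    rw [← hu] at h3
    linarith
  obtain ⟨n, hn⟩ := (hgap.eventually (eventually_gt_atTop (M + 2 * M2))).exists
  exact absurd (hbound n) (not_le.2 hn)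

theorem Para.AFib_t (hC : C.Good) {b G : Pt → ℂ} (hb : P.Base b) (hG : P.Para b G) {p q : Pt}
    (hp : p ∈ C.LL) (hq : q ∈ C.LL) (h : G p = G q) : p.2.2 = q.2.2 :=
  le_antisymm (not_lt.1 (hG.AFib_t_aux P hC hb hq hp h.symm))
    (not_lt.1 (hG.AFib_t_aux P hC hb hp hq h))

theorem AFib_back {p q : Pt} (hp : p ∈ C.LL) (hq : q ∈ C.LL) (hu : p.1 = q.1) {N : ℕ}
    (hN : ∀ n, N ≤ n → p.2.1 n = q.2.1 n) : p.2.1 = q.2.1 := by
  funext n
  by_cases h : N ≤ n
  · exact hN n h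
  · push Not at h
    have key : ∀ k : ℕ, k ≤ N → p.2.1 (N - k) = q.2.1 (N - k) := by
      intro k
      induction k with
      | zero => intro _; exact hN _ (by simp)
      | succ k ih =>
        intro hk
        have h1 := ih (by omega)
        have h2 : N - (k + 1) + 1 = N - k := by omega
        rw [(hp (N - (k + 1))).2, (hq (N - (k + 1))).2, h2, h1, hu]
    have h3 := key (N - n) (by omega)
    have h4 : N - (N - n) = n := by omega
    rwa [h4] at h3

theorem Para.AFib_ne (hC : C.Good) {b G : Pt → ℂ} (hb : P.Base b) (hG : P.Para b G) {p q : Pt}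
    (hp : p ∈ C.LL) (hq : q ∈ C.LL) (h : G p = G q) (he : ¬ IsEnd p.1 p.2.2) : p = q := by
  have hu := hG.AFib_u P hp hq h
  have ht := hG.AFib_t P hC hb hp hq h
  obtain ⟨M, hM⟩ := hG.AFib_bb P
  obtain ⟨X1, -, hX1⟩ := P.sep hC M
  have hesc := Tn_escape C hp he
  have hev := hesc.eventually (eventually_ge_atTop (X1 + Real.log ‖P.lam‖))
  obtain ⟨N, hN⟩ := eventually_atTop.1 hev
  have he' : p.2.1 = q.2.1 := by
    apply AFib_back hp hq hu (N := N)
    intro n hn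
    have h1 := hN n hn
    have h2 := (hb.re_ge _ (shift_iter_mem C hp n)).2
    have h3 := (hb.re_ge _ (shift_iter_mem C hq n)).2
    rw [AFib_T] at h2 h3
    rw [← hu, ← ht] at h3
    have h4 := hX1 _ _ (by linarith) (by linarith) (hM p hp q hq h n)
    rwa [hb.pos_eq _ (shift_iter_mem C hp n), hb.pos_eq _ (shift_iter_mem C hq n), AFib_e,
      AFib_e] at h4
  exact Prod.ext hu (Prod.ext he' ht)

theorem Para.AFib_Lw {b G : Pt → ℂ} (hG : P.Para b G) (n : ℕ) : ∀ p ∈ C.LL,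
    P.Lw ((List.range n).map p.1) (G (shiftPt^[n] p)) = G p := by
  induction n with
  | zero => intro p _; rfl
  | succ n ih =>
    intro p hp
    have h1 := ih _ (shift_mem C hp)
    rw [hG.step p hp, ← h1]
    unfold Lw
    rw [List.range_succ_eq_map, List.map_cons, List.map_map, List.foldr_cons,
      Function.iterate_succ_apply]
    rfl

theorem Para.AFib_end (hC : C.Good) {b G : Pt → ℂ} (hb : P.Base b) (hG : P.Para b G) {p q : Pt}
    (hp : p ∈ C.LL) (hq : q ∈ C.LL) (hu : p.1 = q.1) (ht : p.2.2 = q.2.2)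
    (he : IsEnd p.1 p.2.2) : G p = G q := by
  by_cases hee : p.2.1 = q.2.1
  · rw [show p = q from Prod.ext hu (Prod.ext hee ht)]
  have hX : (p.1, p.2.1) ∈ C.X := fun n => (hp n).2
  have hX' : (p.1, q.2.1) ∈ C.X := by
    intro n
    show q.2.1 n = C.de (p.1 n) (q.2.1 (n + 1))
    rw [hu]
    exact (hq n).2
  obtain ⟨B, hB⟩ := hC.multi p.1 p.2.1 q.2.1 hX hX' hee
  obtain ⟨β, hβ⟩ := end_bdd C hp he B hB
  obtain ⟨M2, hM2⟩ := hb.bdd β
  obtain ⟨M, hM⟩ := hG.near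
  obtain ⟨M1, κ, hM1, hκ, hcon⟩ := P.contr hC
  have h0 := P.zero_notin hC
  have hc : ∀ n : ℕ, Conn P.D (G p) (G q) (M1 * (κ⁻¹) ^ n * (M + (M2 + M))) := by
    intro n
    have h1 : Conn P.D (b (shiftPt^[n] p)) (b (shiftPt^[n] q)) M2 := by
      apply hM2 _ (shift_iter_mem C hp n) _ (shift_iter_mem C hq n)
      · rw [shift_iter, shift_iter, hu]
      · rw [AFib_T]; exact hβ n
      · rw [AFib_T, ← hu, ← ht]; exact hβ n
    have h2 := (hM _ (shift_iter_mem C hp n)).symm.trans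
      (h1.trans (hM _ (shift_iter_mem C hq n)))
    have h3 := hcon ((List.range n).map p.1) _ _ _ h2
    rw [hG.AFib_Lw P n p hp] at h3
    have h4 := hG.AFib_Lw P n q hq
    rw [← hu] at h4
    rw [h4] at h3
    simpa using h3
  have hlim : Tendsto (fun n : ℕ => ‖G p‖ *
      (Real.exp (M1 * (κ⁻¹) ^ n * (M + (M2 + M))) - 1)) atTop (nhds 0) := by
    have h2 : Tendsto (fun n : ℕ => (κ⁻¹) ^ n) atTop (nhds 0) :=
      tendsto_pow_atTop_nhds_zero_of_lt_one (inv_nonneg.2 (by linarith))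
        (inv_lt_one_of_one_lt₀ hκ)
    have h3 : Tendsto (fun n : ℕ => M1 * (κ⁻¹) ^ n * (M + (M2 + M))) atTop (nhds 0) := by
      simpa using (h2.const_mul M1).mul_const (M + (M2 + M))
    have h4 := (((Real.continuous_exp.tendsto 0).comp h3).sub_const 1).const_mul ‖G p‖
    simpa [Function.comp_def] using h4
  have hle : ‖G q - G p‖ ≤ 0 := ge_of_tendsto' hlim fun n => (hc n).dist_le h0
  have h5 : G q - G p = 0 := norm_le_zero_iff.1 hle
  exact (sub_eq_zero.1 h5).symm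

theorem Para.fib (hC : C.Good) {b G : Pt → ℂ} (hb : P.Base b) (hG : P.Para b G) :
    ∀ p ∈ C.LL, ∀ q ∈ C.LL, (G p = G q ↔ Rel p q) := by
  intro p hp q hq
  constructor
  · intro h
    by_cases he : IsEnd p.1 p.2.2
    · exact Or.inr ⟨hG.AFib_u P hp hq h, hG.AFib_t P hC hb hp hq h, he⟩
    · exact Or.inl (hG.AFib_ne P hC hb hp hq h he)
  · rintro (rfl | ⟨hu, ht, he⟩)
    · rfl
    · exact hG.AFib_end P hC hb hp hq hu ht he

end Par

end PJ
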