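import Pool.Agent.Lib.H31J.ASize

/-!
# Chunk A-G: the inverse branches `g i` near the last curve

`U` is the half strip of width 4 around the ray `v m + [0,∞)`.  Downward induction on `i`:
for `w ∈ U`: `Re (g i w) ≥ r i - 28` (`1 ≤ i ≤ m`), because for `i < m`
`Re (g i w) = log ‖g (i+1) w‖ - log ‖lam‖ ≥ log (r (i+1) - 28) - log (R + 25) ≥ r i - 1`
(`log r (i+1) = log R + r i`); `|Im (g i w) - 2π sg i| ≤ |arg (g (i+1) w)| + |arg lam| ≤ 1/100`
(`|Im g (i+1) w| ≤ 25`, `Re ≥ R - 28`).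
Upper bound (`g_re_le`): if moreover `Re w ≤ Re v_m + 1` then `Re (g i w) ≤ r i + 28` (`1 ≤ i ≤ m`),
`Re (g 0 w) ≤ 1`.
Derivative: chain rule, `(g i)' (w) = ∏_{l=i+1}^{m} (g l w)⁻¹`.  Each factor has
`|Im| ≤ 26/(R-28) · Re`, and the product of `k` numbers with `|Im| ≤ a Re`, `0 < Re`, `k a ≤ 1/100` satisfies
`|Im| ≤ 2 k a Re`, `0 < Re`; here `2 m · 26/(R - 28) ≤ 1/1000`.
`iter_g`: `f^{m-i} (g i w) = w` since `f (g i w) = g (i+1) w` (`exp (Log z) = z`, `exp (2πi k) = 1`).
-/

set_option autoImplicit false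

namespace PJ

namespace Par

open Set Filter

variable {C : Comb} (P : Par C)

theorem g_last (w : ℂ) : P.g C.m w = w := by
  simp [Par.g, Par.gk]

theorem g_succ {i : ℕ} (hi : i < C.m) (w : ℂ) : P.g i w = Complex.log (P.g (i + 1) w)
    - Complex.log P.lam + 2 * Real.pi * Complex.I * (C.sg i : ℂ) := by
  unfold Par.g
  obtain ⟨k, hk⟩ : ∃ k, C.m = i + 1 + k := ⟨C.m - (i + 1), by omega⟩
  have h1 : C.m - i = k + 1 := by omega
  have h2 : C.m - (i + 1) = k := by omega
  rw [h1, h2]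
  have h3 : C.m - (k + 1) = i := by omega
  simp only [Par.gk, h3]

theorem ag_arctan_le {a : ℝ} (ha : 0 ≤ a) : Real.arctan a ≤ a := by
  have h1 : 0 ≤ Real.arctan a := by
    have := Real.arctan_strictMono.monotone ha
    rwa [Real.arctan_zero] at this
  have h2 := Real.le_tan h1 (Real.arctan_lt_pi_div_two a)
  rwa [Real.tan_arctan] at h2

theorem ag_arg_le {z : ℂ} {a : ℝ} (h0 : 0 < z.re) (h : |z.im| ≤ a * z.re) : |z.arg| ≤ a := by
  have h1 : z.arg = Real.arctan (z.im / z.re) := by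
    rw [← Complex.tan_arg, Real.arctan_tan]
    · have := Complex.abs_arg_lt_pi_div_two_iff.mpr (Or.inl h0)
      linarith [(abs_lt.mp this).1]
    · have := Complex.abs_arg_lt_pi_div_two_iff.mpr (Or.inl h0)
      linarith [(abs_lt.mp this).2]
  have h2 : |z.im / z.re| ≤ a := by
    rw [abs_div, abs_of_pos h0, div_le_iff₀ h0]; exact h
  have ha : 0 ≤ a := le_trans (abs_nonneg _) h2
  rw [h1]
  have h3 := abs_le.mp h2
  rw [abs_le]
  constructor
  · have h4 : Real.arctan (-a) ≤ Real.arctan (z.im / z.re) := Real.arctan_strictMono.monotone h3.1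
    have h5 : Real.arctan a ≤ a := ag_arctan_le ha
    rw [Real.arctan_neg] at h4
    linarith
  · have h4 : Real.arctan (z.im / z.re) ≤ Real.arctan a := Real.arctan_strictMono.monotone h3.2
    have h5 : Real.arctan a ≤ a := ag_arctan_le ha
    linarith

theorem ag_re {i : ℕ} (hi : i < C.m) (w : ℂ) : (P.g i w).re =
    Real.log ‖P.g (i + 1) w‖ - Real.log ‖P.lam‖ := by
  rw [P.g_succ hi w]
  simp [Complex.log_re]

theorem ag_im {i : ℕ} (hi : i < C.m) (w : ℂ) : (P.g i w).im =
    (P.g (i + 1) w).arg - P.lam.arg + 2 * Real.pi * (C.sg i : ℝ) := by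
  rw [P.g_succ hi w]
  simp [Complex.log_im]

theorem ag_sg (hC : C.Good) (i : ℕ) : |(C.sg i : ℝ)| ≤ 3 := by
  have := hC.sg_le i
  exact_mod_cast this

/-- lower bound for a logarithm: `log (r - 28) ≥ log r - 1/1000` for `r ≥ 10^6` -/
theorem ag_log_lo {r x : ℝ} (hr : (10 : ℝ) ^ 6 ≤ r) (hx : r - 28 ≤ x) :
    Real.log r - 1 / 1000 ≤ Real.log x := by
  have h1 : (0 : ℝ) < r := by linarith [show (0 : ℝ) < 10 ^ 6 by norm_num]
  have h2 : (0 : ℝ) < x := by linarith [show (28 : ℝ) < 10 ^ 6 by norm_num]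
  have h3 : Real.log (r / x) ≤ r / x - 1 := Real.log_le_sub_one_of_pos (div_pos h1 h2)
  rw [Real.log_div h1.ne' h2.ne'] at h3
  have h4 : r / x ≤ 1 + 1 / 1000 := by
    rw [div_le_iff₀ h2]
    norm_num at hr ⊢
    linarith
  linarith

theorem ag_log_hi {r x : ℝ} (hr : (10 : ℝ) ^ 6 ≤ r) (hx0 : 0 < x) (hx : x ≤ r + 100) :
    Real.log x ≤ Real.log r + 1 / 1000 := by
  have h1 : (0 : ℝ) < r := by linarith [show (0 : ℝ) < 10 ^ 6 by norm_num]
  have h3 : Real.log (x / r) ≤ x / r - 1 := Real.log_le_sub_one_of_pos (div_pos hx0 h1)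
  rw [Real.log_div hx0.ne' h1.ne'] at h3
  have h4 : x / r ≤ 1 + 1 / 1000 := by
    rw [div_le_iff₀ h1]
    norm_num at hr ⊢
    linarith
  linarith

theorem ag_r_ge {i : ℕ} (hi : 1 ≤ i) : (10 : ℝ) ^ 6 ≤ P.r i := le_trans P.R_ge (P.r_ge hi)

theorem ag_main (hC : C.Good) {w : ℂ} (hw : w ∈ P.U) : ∀ k i : ℕ, i + k = C.m → 1 ≤ i →
    P.r i - 28 ≤ (P.g i w).re ∧ |(P.g i w).im| ≤ 20 := by
  have hm := hC.m_pos
  have hvre := P.v_re (i := C.m) hm le_rfl
  have hU : (P.v C.m).re - 2 < w.re ∧ |w.im - (P.v C.m).im| < 2 := hw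
  have hlam := P.lam_arg hC
  have hll := P.log_lam hC
  have hpi : Real.pi < 3.15 := Real.pi_lt_d2
  have hpi0 : 0 < Real.pi := Real.pi_pos
  intro k
  induction k with
  | zero =>
    intro i hi h1
    have hi' : i = C.m := by omega
    subst hi'
    rw [P.g_last]
    refine ⟨by linarith [hU.1, hvre.1], ?_⟩
    have h3 := abs_lt.mp hU.2
    rw [P.vm_im] at h3
    have h4 := abs_le.mp hlam
    rw [abs_le]
    constructor <;> linarith [h3.1, h3.2, h4.1, h4.2]
  | succ k ih =>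
    intro i hi h1
    obtain ⟨ih1, ih2⟩ := ih (i + 1) (by omega) (by omega)
    have him : i < C.m := by omega
    have hr1 : (10 : ℝ) ^ 6 ≤ P.r (i + 1) := P.ag_r_ge (by omega)
    have hre0 : 0 < (P.g (i + 1) w).re := by norm_num at hr1 ⊢; linarith
    refine ⟨?_, ?_⟩
    · rw [P.ag_re him]
      have h5 : P.r (i + 1) - 28 ≤ ‖P.g (i + 1) w‖ := ih1.trans (Complex.re_le_norm _)
      have h6 := ag_log_lo hr1 h5
      rw [P.log_r_succ h1] at h6
      have h7 := abs_le.mp hll
      linarith [h7.1, h7.2]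
    · rw [P.ag_im him]
      have h8 : |(P.g (i + 1) w).arg| ≤ 1 / 1000 := by
        refine ag_arg_le hre0 (le_trans ih2 ?_)
        norm_num at hr1 ⊢
        linarith
      have h9 := abs_le.mp h8
      have h10 := abs_le.mp hlam
      have h11 := abs_le.mp (ag_sg hC i)
      rw [abs_le]
      constructor <;> nlinarith [h9.1, h9.2, h10.1, h10.2, h11.1, h11.2]

theorem g_re (hC : C.Good) {i : ℕ} (hi : 1 ≤ i) (him : i ≤ C.m) {w : ℂ} (hw : w ∈ P.U) :
    P.r i - 28 ≤ (P.g i w).re := (P.ag_main hC hw (C.m - i) i (by omega) hi).1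

theorem ag_re_pos (hC : C.Good) {i : ℕ} (hi : 1 ≤ i) (him : i ≤ C.m) {w : ℂ} (hw : w ∈ P.U) :
    (10 : ℝ) ^ 6 - 28 ≤ (P.g i w).re := by
  have := P.g_re hC hi him hw
  have h2 := P.ag_r_ge hi
  linarith

theorem ag_arg (hC : C.Good) {i : ℕ} (hi : 1 ≤ i) (him : i ≤ C.m) {w : ℂ} (hw : w ∈ P.U) :
    |(P.g i w).arg| ≤ 1 / 1000 := by
  have h := P.ag_main hC hw (C.m - i) i (by omega) hi
  have h1 := P.ag_re_pos hC hi him hw
  have h0 : 0 < (P.g i w).re := by norm_num at h1 ⊢; linarith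
  refine ag_arg_le h0 (le_trans h.2 ?_)
  norm_num at h1 ⊢
  linarith

theorem g0_re (hC : C.Good) {w : ℂ} (hw : w ∈ P.U) : -(1 / 100) ≤ (P.g 0 w).re := by
  have hm := hC.m_pos
  rw [P.ag_re (by omega : 0 < C.m)]
  have h1 := P.g_re hC le_rfl hm hw
  have h5 : P.r 1 - 28 ≤ ‖P.g (0 + 1) w‖ := h1.trans (Complex.re_le_norm _)
  have h6 := ag_log_lo (P.ag_r_ge le_rfl) h5
  have h7 := abs_le.mp (P.log_lam hC)
  rw [P.r1] at h6
  linarith [h7.1, h7.2]

theorem g_im (hC : C.Good) {i : ℕ} (hi : i < C.m) {w : ℂ} (hw : w ∈ P.U) :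
    |(P.g i w).im - 2 * Real.pi * (C.sg i : ℝ)| ≤ 1 / 100 := by
  rw [P.ag_im hi]
  have h1 := abs_le.mp (P.ag_arg hC (i := i + 1) (by omega) (by omega) hw)
  have h2 := abs_le.mp (P.lam_arg hC)
  rw [abs_le]
  constructor <;> linarith [h1.1, h1.2, h2.1, h2.2]

theorem g_im' (hC : C.Good) {i : ℕ} (hi : i ≤ C.m) {w : ℂ} (hw : w ∈ P.U) :
    |(P.g i w).im| ≤ 20 := by
  rcases Nat.lt_or_ge 0 i with h | h
  · exact (P.ag_main hC hw (C.m - i) i (by omega) h).2
  · have hm := hC.m_pos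
    have h0 : i = 0 := by omega
    subst h0
    have h1 := P.g_im hC (i := 0) (by omega) hw
    rw [hC.sg0] at h1
    simp only [Int.cast_zero, mul_zero, sub_zero] at h1
    linarith

theorem g_re_le (hC : C.Good) {i : ℕ} (hi : 1 ≤ i) (him : i ≤ C.m) {w : ℂ} (hw : w ∈ P.U)
    (hw' : w.re ≤ (P.v C.m).re + 1) : (P.g i w).re ≤ P.r i + 28 := by
  have hm := hC.m_pos
  have hvre := P.v_re (i := C.m) hm le_rfl
  have key : ∀ k i : ℕ, i + k = C.m → 1 ≤ i → (P.g i w).re ≤ P.r i + 28 := by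
    intro k
    induction k with
    | zero =>
      intro i hi h1
      have hi' : i = C.m := by omega
      subst hi'
      rw [P.g_last]
      linarith [hvre.2.1]
    | succ k ih =>
      intro i hi h1
      have ih1 := ih (i + 1) (by omega) (by omega)
      have him : i < C.m := by omega
      have hr1 : (10 : ℝ) ^ 6 ≤ P.r (i + 1) := P.ag_r_ge (by omega)
      rw [P.ag_re him]
      have h2 := P.ag_re_pos hC (i := i + 1) (by omega) (by omega) hw
      have h3 := P.g_im' hC (i := i + 1) (by omega) hw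
      have h4 : ‖P.g (i + 1) w‖ ≤ P.r (i + 1) + 100 := by
        have h5 := Complex.norm_le_abs_re_add_abs_im (P.g (i + 1) w)
        rw [abs_of_pos (by norm_num at h2 ⊢; linarith : 0 < (P.g (i + 1) w).re)] at h5
        linarith
      have h5 : 0 < ‖P.g (i + 1) w‖ := by
        have := Complex.re_le_norm (P.g (i + 1) w)
        norm_num at h2 ⊢
        intro h0
        rw [h0] at h2
        norm_num at h2
      have h6 := ag_log_hi hr1 h5 h4
      rw [P.log_r_succ h1] at h6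
      have h7 := abs_le.mp (P.log_lam hC)
      linarith [h7.1, h7.2]
  exact key (C.m - i) i (by omega) hi

theorem ag_ne (hC : C.Good) {i : ℕ} (hi : 1 ≤ i) (him : i ≤ C.m) {w : ℂ} (hw : w ∈ P.U) :
    P.g i w ≠ 0 := by
  intro h0
  have h2 := P.ag_re_pos hC hi him hw
  rw [h0] at h2
  norm_num at h2

theorem g0_re_le (hC : C.Good) {w : ℂ} (hw : w ∈ P.U)
    (hw' : w.re ≤ (P.v C.m).re + 1) : (P.g 0 w).re ≤ 1 := by
  have hm := hC.m_pos
  rw [P.ag_re (by omega : 0 < C.m)]
  have h1 := P.g_re_le hC le_rfl hm hw hw'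
  have h2 := P.ag_re_pos hC le_rfl hm hw
  have h3 := P.g_im' hC hm hw
  have h4 : ‖P.g (0 + 1) w‖ ≤ P.r 1 + 100 := by
    have h5 := Complex.norm_le_abs_re_add_abs_im (P.g 1 w)
    rw [abs_of_pos (by norm_num at h2 ⊢; linarith : 0 < (P.g 1 w).re)] at h5
    show ‖P.g 1 w‖ ≤ _
    linarith
  have h5 : 0 < ‖P.g (0 + 1) w‖ := norm_pos_iff.mpr (P.ag_ne hC le_rfl hm hw)
  have h6 := ag_log_hi (P.ag_r_ge le_rfl) h5 h4
  have h7 := abs_le.mp (P.log_lam hC)
  rw [P.r1] at h6
  linarith [h7.1, h7.2]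

theorem f_g (hC : C.Good) {i : ℕ} (hi : i < C.m) {w : ℂ} (hw : w ∈ P.U) :
    P.f (P.g i w) = P.g (i + 1) w := by
  have h1 := P.ag_ne hC (i := i + 1) (by omega) (by omega) hw
  have h2 := P.lam_ne hC
  unfold Par.f
  rw [P.g_succ hi w, Complex.exp_add, Complex.exp_sub, Complex.exp_log h1, Complex.exp_log h2]
  have h3 : Complex.exp (2 * Real.pi * Complex.I * (C.sg i : ℂ)) = 1 := by
    rw [Complex.exp_eq_one_iff]
    exact ⟨C.sg i, by ring⟩
  rw [h3]
  field_simp

theorem iter_g (hC : C.Good) {i : ℕ} (hi : i ≤ C.m) {w : ℂ} (hw : w ∈ P.U) :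
    P.f^[C.m - i] (P.g i w) = w := by
  have key : ∀ k i : ℕ, i + k = C.m → P.f^[k] (P.g i w) = w := by
    intro k
    induction k with
    | zero =>
      intro i hi
      have hi' : i = C.m := by omega
      subst hi'
      simp [P.g_last]
    | succ k ih =>
      intro i hi
      rw [Function.iterate_succ_apply, P.f_g hC (by omega) hw]
      exact ih (i + 1) (by omega)
  exact key (C.m - i) i (by omega)

theorem g_v (hC : C.Good) {i : ℕ} (hi : i ≤ C.m) : P.g i (P.v C.m) = P.v i := by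
  have key : ∀ k i : ℕ, i + k = C.m → P.g i (P.v C.m) = P.v i := by
    intro k
    induction k with
    | zero =>
      intro i hi
      have hi' : i = C.m := by omega
      subst hi'
      exact P.g_last _
    | succ k ih =>
      intro i hi
      rw [P.g_succ (by omega), ih (i + 1) (by omega), P.vlog i (by omega)]
  exact key (C.m - i) i (by omega)

theorem g_inj (hC : C.Good) {i : ℕ} (hi : i ≤ C.m) : InjOn (P.g i) P.U := by
  intro w hw w' hw' h
  rw [← P.iter_g hC hi hw, ← P.iter_g hC hi hw', h]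

theorem g_deriv (hC : C.Good) {i : ℕ} (hi : i ≤ C.m) {w : ℂ} (hw : w ∈ P.U) :
    HasDerivAt (P.g i) (∏ l ∈ Finset.Ioc i C.m, (P.g l w)⁻¹) w := by
  have key : ∀ k i : ℕ, i + k = C.m →
      HasDerivAt (P.g i) (∏ l ∈ Finset.Ioc i C.m, (P.g l w)⁻¹) w := by
    intro k
    induction k with
    | zero =>
      intro i hi
      have hi' : i = C.m := by omega
      subst hi'
      simp only [Finset.Ioc_self, Finset.prod_empty]
      have : P.g C.m = id := by
        funext z; exact P.g_last z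
      rw [this]
      exact hasDerivAt_id w
    | succ k ih =>
      intro i hi
      have ih1 := ih (i + 1) (by omega)
      have h1 : Finset.Ioc i C.m = insert (i + 1) (Finset.Ioc (i + 1) C.m) := by
        ext x
        simp only [Finset.mem_Ioc, Finset.mem_insert]
        omega
      rw [h1, Finset.prod_insert (by simp)]
      have h2 : P.g i = fun z => Complex.log (P.g (i + 1) z)
          - Complex.log P.lam + 2 * Real.pi * Complex.I * (C.sg i : ℂ) := by
        funext z; exact P.g_succ (by omega) z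
      rw [h2]
      have h3 : P.g (i + 1) w ∈ Complex.slitPlane := by
        left
        have := P.ag_re_pos hC (i := i + 1) (by omega) (by omega) hw
        norm_num at this ⊢
        linarith
      have h4 := ((ih1.clog h3).sub_const (Complex.log P.lam)).add_const
        (2 * Real.pi * Complex.I * (C.sg i : ℂ))
      refine h4.congr_deriv ?_
      rw [div_eq_mul_inv, mul_comm]
  exact key (C.m - i) i (by omega)

theorem ag_prod {a : ℝ} (ha : 0 ≤ a) (z : ℕ → ℂ) (s : Finset ℕ)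
    (hz : ∀ l ∈ s, 0 < (z l).re ∧ |(z l).im| ≤ a * (z l).re) (hs : 2 * (s.card : ℝ) * a ≤ 1 / 1000) :
    0 < (∏ l ∈ s, z l).re ∧ |(∏ l ∈ s, z l).im| ≤ 2 * (s.card : ℝ) * a * (∏ l ∈ s, z l).re := by
  classical
  induction s using Finset.induction_on with
  | empty => simp
  | insert j s hj ih =>
    rw [Finset.prod_insert hj]
    rw [Finset.card_insert_of_notMem hj] at hs ⊢
    push_cast at hs ⊢
    have hc0 : (0 : ℝ) ≤ (s.card : ℝ) := Nat.cast_nonneg _
    have hsa : 2 * (s.card : ℝ) * a ≤ 1 / 1000 := by nlinarith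
    obtain ⟨h1, h2⟩ := ih (fun l hl => hz l (Finset.mem_insert_of_mem hl)) hsa
    obtain ⟨h3, h4⟩ := hz j (Finset.mem_insert_self j s)
    set q := ∏ l ∈ s, z l with hq
    set b := 2 * (s.card : ℝ) * a with hb
    have hb0 : 0 ≤ b := by positivity
    have ha1 : a ≤ 1 / 1000 := by nlinarith
    rw [Complex.mul_re, Complex.mul_im]
    set x := (z j).re
    set y := (z j).im
    set X := q.re
    set Y := q.im
    have hyY : |y * Y| ≤ a * b * (x * X) := by
      rw [abs_mul]
      calc |y| * |Y| ≤ (a * x) * (b * X) := mul_le_mul h4 h2 (abs_nonneg _) (by positivity)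
        _ = a * b * (x * X) := by ring
    have hxX : 0 < x * X := mul_pos h3 h1
    have hyY' := abs_le.mp hyY
    have hab : a * b ≤ 1 / 1000000 := by nlinarith
    have hlow : (1 - a * b) * (x * X) ≤ x * X - y * Y := by nlinarith [hyY'.2]
    refine ⟨?_, ?_⟩
    · nlinarith
    · have h5 : |x * Y + y * X| ≤ (a + b) * (x * X) := by
        calc |x * Y + y * X| ≤ |x * Y| + |y * X| := abs_add_le _ _
          _ = x * |Y| + |y| * X := by rw [abs_mul, abs_mul, abs_of_pos h3, abs_of_pos h1]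
          _ ≤ x * (b * X) + (a * x) * X :=
              add_le_add (mul_le_mul_of_nonneg_left h2 h3.le) (mul_le_mul_of_nonneg_right h4 h1.le)
          _ = (a + b) * (x * X) := by ring
      have h6 : a + b ≤ (b + 2 * a) * (1 - a * b) := by
        have : (b + 2 * a) * b ≤ 1 := by nlinarith
        nlinarith [mul_nonneg ha hb0, mul_le_mul_of_nonneg_left this ha]
      calc |x * Y + y * X| ≤ (a + b) * (x * X) := h5
        _ ≤ ((b + 2 * a) * (1 - a * b)) * (x * X) := mul_le_mul_of_nonneg_right h6 hxX.le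
        _ = (b + 2 * a) * ((1 - a * b) * (x * X)) := by ring
        _ ≤ (b + 2 * a) * (x * X - y * Y) := mul_le_mul_of_nonneg_left hlow (by positivity)
        _ = 2 * ((s.card : ℝ) + 1) * a * (x * X - y * Y) := by rw [hb]; ring

theorem g_cone (hC : C.Good) {i : ℕ} (hi : i ≤ C.m) {w : ℂ} (hw : w ∈ P.U) :
    0 < (∏ l ∈ Finset.Ioc i C.m, (P.g l w)⁻¹).re ∧
    |(∏ l ∈ Finset.Ioc i C.m, (P.g l w)⁻¹).im| ≤
      (∏ l ∈ Finset.Ioc i C.m, (P.g l w)⁻¹).re / 1000 := by
  have hR := P.R_ge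
  have hmR := P.hR
  have hR28 : 0 < P.R - 28 := by norm_num at hR; linarith
  have hm0 : (0 : ℝ) ≤ (C.m : ℝ) := Nat.cast_nonneg _
  have hcard : ((Finset.Ioc i C.m).card : ℝ) ≤ (C.m : ℝ) := by
    rw [Nat.card_Ioc]
    exact_mod_cast Nat.sub_le _ _
  have hc0 : (0 : ℝ) ≤ ((Finset.Ioc i C.m).card : ℝ) := Nat.cast_nonneg _
  have ha0 : (0 : ℝ) ≤ 20 / (P.R - 28) := by positivity
  have hs : 2 * ((Finset.Ioc i C.m).card : ℝ) * (20 / (P.R - 28)) ≤ 1 / 1000 := by
    rw [mul_div_assoc', div_le_iff₀ hR28]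
    norm_num at hmR
    nlinarith
  have h := ag_prod ha0 (fun l => (P.g l w)⁻¹) (Finset.Ioc i C.m) (by
    intro l hl
    rw [Finset.mem_Ioc] at hl
    have h1 : P.R - 28 ≤ (P.g l w).re :=
      le_trans (by linarith [P.r_ge (i := l) (by omega)]) (P.g_re hC (by omega) hl.2 hw)
    have h2 := P.g_im' hC (i := l) hl.2 hw
    have h3 : 0 < (P.g l w).re := by linarith
    have h4 : P.g l w ≠ 0 := P.ag_ne hC (by omega) hl.2 hw
    have h5 : 0 < Complex.normSq (P.g l w) := Complex.normSq_pos.mpr h4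
    show 0 < ((P.g l w)⁻¹).re ∧ |((P.g l w)⁻¹).im| ≤ 20 / (P.R - 28) * ((P.g l w)⁻¹).re
    rw [Complex.inv_re, Complex.inv_im]
    refine ⟨div_pos h3 h5, ?_⟩
    rw [abs_div, abs_neg, abs_of_pos h5, mul_div_assoc']
    refine div_le_div_of_nonneg_right ?_ h5.le
    refine le_trans h2 ?_
    rw [div_mul_eq_mul_div, le_div_iff₀ hR28]
    nlinarith) hs
  refine ⟨h.1, le_trans h.2 ?_⟩
  have h9 := mul_le_mul_of_nonneg_right hs h.1.le
  linarith

/-- uniformly in the height `|η| < 2` -/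
theorem g_tendsto (hC : C.Good) {i : ℕ} (hi : i ≤ C.m) (B : ℝ) :
    ∃ T : ℝ, ∀ w ∈ P.U, T ≤ w.re → B ≤ (P.g i w).re := by
  have key : ∀ k i : ℕ, i + k = C.m → ∀ B : ℝ,
      ∃ T : ℝ, ∀ w ∈ P.U, T ≤ w.re → B ≤ (P.g i w).re := by
    intro k
    induction k with
    | zero =>
      intro i hi B
      have hi' : i = C.m := by omega
      subst hi'
      exact ⟨B, fun w _ h => by rw [P.g_last]; exact h⟩
    | succ k ih =>
      intro i hi B
      obtain ⟨T, hT⟩ := ih (i + 1) (by omega) (Real.exp (B + Real.log ‖P.lam‖))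
      refine ⟨T, fun w hw h => ?_⟩
      have h1 := hT w hw h
      rw [P.ag_re (by omega)]
      have h2 : Real.exp (B + Real.log ‖P.lam‖) ≤ ‖P.g (i + 1) w‖ :=
        h1.trans (Complex.re_le_norm _)
      have h3 := Real.log_le_log (Real.exp_pos _) h2
      rw [Real.log_exp] at h3
      linarith
  exact key (C.m - i) i (by omega) B

theorem K_sub_U : P.K ⊆ P.U := by
  intro w hw
  rcases hw with h | ⟨t, ht, rfl⟩
  · have h1 := (Complex.abs_re_le_norm (w - P.v C.m)).trans h
    have h2 := (Complex.abs_im_le_norm (w - P.v C.m)).trans h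
    rw [Complex.sub_re] at h1
    rw [Complex.sub_im] at h2
    have h3 := abs_le.mp h1
    refine ⟨by linarith [h3.1], by linarith⟩
  · refine ⟨?_, ?_⟩
    · simp only [Complex.add_re, Complex.ofReal_re]
      linarith
    · simp

theorem U_open : IsOpen P.U := by
  have h1 : IsOpen {w : ℂ | (P.v C.m).re - 2 < w.re} :=
    isOpen_lt continuous_const Complex.continuous_re
  have h2 : IsOpen {w : ℂ | |w.im - (P.v C.m).im| < 2} :=
    isOpen_lt ((Complex.continuous_im.sub continuous_const).abs) continuous_const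
  exact h1.inter h2

theorem K_closed : IsClosed P.K := by
  have h1 : IsClosed {w : ℂ | ‖w - P.v C.m‖ ≤ 1 / 2} :=
    isClosed_le ((continuous_id.sub continuous_const).norm) continuous_const
  have h2 : IsClosed {w : ℂ | (P.v C.m).re ≤ w.re ∧ w.im = (P.v C.m).im} :=
    (isClosed_le continuous_const Complex.continuous_re).inter
      (isClosed_eq Complex.continuous_im continuous_const)
  have h3 : P.K = {w : ℂ | ‖w - P.v C.m‖ ≤ 1 / 2} ∪
      {w : ℂ | (P.v C.m).re ≤ w.re ∧ w.im = (P.v C.m).im} := by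
    ext w
    constructor
    · rintro (h | ⟨t, ht, rfl⟩)
      · exact Or.inl h
      · refine Or.inr ⟨?_, ?_⟩
        · simp only [Complex.add_re, Complex.ofReal_re]
          linarith
        · simp
    · rintro (h | ⟨h1, h2⟩)
      · exact Or.inl h
      · refine Or.inr ⟨w.re - (P.v C.m).re, by linarith, ?_⟩
        apply Complex.ext
        · simp
        · simp [h2]
  rw [h3]
  exact h1.union h2

/-- image of the last piece -/
theorem f_K (hC : C.Good) {w : ℂ} (hw : w ∈ P.K) : (P.f w).re < -P.Lam / 2 := by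
  have hL := P.Lam_ge'
  have hL0 : 0 < P.Lam := by norm_num at hL; linarith
  obtain ⟨ζ, hζ⟩ : ∃ ζ : ℂ, w = P.v C.m + ζ := ⟨w - P.v C.m, by ring⟩
  rw [hζ, P.f_vm hC]
  have h1 : (-(P.Lam : ℂ) * Complex.exp ζ).re = -(P.Lam * (Real.exp ζ.re * Real.cos ζ.im)) := by
    rw [← Complex.ofReal_neg, Complex.re_ofReal_mul, Complex.exp_re]
    ring
  rw [h1]
  have h2 : 1 / 2 < Real.exp ζ.re * Real.cos ζ.im := by
    rcases hw with h | ⟨t, ht, h⟩
    · have h3 : ‖ζ‖ ≤ 1 / 2 := by
        have : w - P.v C.m = ζ := by rw [hζ]; ring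
        rw [← this]; exact h
      have h4 := abs_le.mp ((Complex.abs_re_le_norm ζ).trans h3)
      have h5 := abs_le.mp ((Complex.abs_im_le_norm ζ).trans h3)
      have h6 : 1 - ζ.im ^ 2 / 2 ≤ Real.cos ζ.im := Real.one_sub_sq_div_two_le_cos
      have h7 : (0.875 : ℝ) ≤ Real.cos ζ.im := by nlinarith
      have h8 : (0.6 : ℝ) < Real.exp ζ.re := by
        have h9 : Real.exp (-(1 / 2)) ≤ Real.exp ζ.re := Real.exp_le_exp.mpr h4.1
        have h10 : Real.exp (1 / 2) ^ 2 = Real.exp 1 := by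
          rw [← Real.exp_nat_mul]; norm_num
        have h11 := Real.exp_one_lt_d9
        have h12 : Real.exp (1 / 2) < 1.66 := by
          have := Real.exp_pos (1 / 2 : ℝ)
          nlinarith
        have h13 : Real.exp (-(1 / 2)) * Real.exp (1 / 2) = 1 := by
          rw [← Real.exp_add]; norm_num
        have h14 := Real.exp_pos (1 / 2 : ℝ)
        have h15 := Real.exp_pos (-(1 / 2) : ℝ)
        nlinarith
      nlinarith
    · have h3 : ζ = (t : ℂ) := by
        have : P.v C.m + ζ = P.v C.m + (t : ℂ) := by rw [← hζ, ← h]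
        exact add_left_cancel this
      rw [h3]
      simp only [Complex.ofReal_re, Complex.ofReal_im, Real.cos_zero, mul_one]
      have := Real.add_one_le_exp t
      linarith
  nlinarith


end Par

end PJ
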