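import Pool.Agent.Lib.H31J.AGn

/-!
# Chunk A-GLIM: the parametrization `G`

By `Gn_conn`, `norm_le`, `dist_le`: `‖G_k p‖ ≤ ‖b p‖ exp M`, `‖G_n p - G_k p‖ ≤ ‖b p‖ exp M (exp (M κ^{-n}) - 1)` for `n ≤ k`:
the sequence converges; let `G p` be the limit (for `p ∈ LL`).  The convergence is uniform on the sets where `‖b p‖` is
bounded, and each point of `LL` has a neighbourhood in `LL` where `‖b‖` is bounded (`Base.cont`); each `G_n` is continuous on `LL`
(`Gn_cont`): so `G` is continuous on `LL`.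
`f (G_{n+1} p) = G_n (shiftPt p)` gives `f (G p) = G (shiftPt p)`, so `f^n (G p) = G (shiftPt^n p)` is in the closure of
`D`, hence has real part `≥ -Λ/2` for every `n` (`D_re`): `G p ∈ JJ` by `JJ_eq`.  In particular `G p ∈ D`
(`JJ_sub_D`), `G p = L u_0 (G (shiftPt p))` (`L_{u_0}` is continuous at `G (shiftPt p) ∈ D` and `L_Gn`), and
`Conn D (b p) (G p) (M + 1)`: `local_conn` at `G p` (`D_open`) and `G_n p → G p`, `Gn_zero`.
-/

set_option autoImplicit false

namespace PJ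

namespace Par

open Set Filter

variable {C : Comb} (P : Par C)

theorem AGlim_f_cont : Continuous P.f :=
  continuous_const.mul Complex.continuous_exp

theorem AGlim_dist (hC : C.Good) {b : Pt → ℂ} (hb : P.Base b) : ∃ M κ : ℝ, 0 < M ∧ 1 < κ ∧
    (∀ p ∈ C.LL, ∀ n k : ℕ, n ≤ k → Conn P.D (P.Gn b n p) (P.Gn b k p) (M * (κ⁻¹) ^ n)) ∧
    ∀ p ∈ C.LL, ∀ n k : ℕ, n ≤ k → dist (P.Gn b n p) (P.Gn b k p) ≤
      ‖b p‖ * Real.exp M * (Real.exp (M * (κ⁻¹) ^ n) - 1) := by
  obtain ⟨M, κ, hM, hκ, hcon⟩ := P.Gn_conn hC hb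
  refine ⟨M, κ, hM, hκ, hcon, ?_⟩
  intro p hp n k hnk
  have h0 := P.zero_notin hC
  have h1 := (hcon p hp n k hnk).dist_le h0
  have h2 := (hcon p hp 0 n (Nat.zero_le _)).norm_le h0
  rw [P.Gn_zero, pow_zero, mul_one] at h2
  have h3 : 0 ≤ Real.exp (M * κ⁻¹ ^ n) - 1 := by
    have : 0 < κ⁻¹ := inv_pos.2 (by linarith)
    have : 0 ≤ M * κ⁻¹ ^ n := by positivity
    linarith [Real.add_one_le_exp (M * κ⁻¹ ^ n)]
  rw [dist_comm, dist_eq_norm]
  exact h1.trans (mul_le_mul_of_nonneg_right h2 h3)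

theorem AGlim_eps {M κ : ℝ} (hκ : 1 < κ) :
    Tendsto (fun n : ℕ => Real.exp (M * (κ⁻¹) ^ n) - 1) atTop (nhds 0) := by
  have h1 : Tendsto (fun n : ℕ => (κ⁻¹) ^ n) atTop (nhds 0) :=
    tendsto_pow_atTop_nhds_zero_of_lt_one (inv_nonneg.2 (by linarith))
      (inv_lt_one_of_one_lt₀ hκ)
  have h2 : Tendsto (fun n : ℕ => M * (κ⁻¹) ^ n) atTop (nhds 0) := by
    simpa using h1.const_mul M
  have h3 := (Real.continuous_exp.tendsto 0).comp h2
  have h4 := h3.sub_const 1
  simpa [Function.comp_def] using h4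

theorem exists_para (hC : C.Good) {b : Pt → ℂ} (hb : P.Base b) : ∃ G : Pt → ℂ, P.Para b G := by
  obtain ⟨M, κ, hM, hκ, hcon, hdist⟩ := P.AGlim_dist hC hb
  have h0 := P.zero_notin hC
  have heps := AGlim_eps (M := M) hκ
  have hkpos : 0 < κ⁻¹ := inv_pos.2 (by linarith)
  have heps0 : ∀ n : ℕ, 0 ≤ Real.exp (M * κ⁻¹ ^ n) - 1 := by
    intro n
    have : 0 ≤ M * κ⁻¹ ^ n := by positivity
    linarith [Real.add_one_le_exp (M * κ⁻¹ ^ n)]
  set G : Pt → ℂ := fun p => limUnder atTop (fun n : ℕ => P.Gn b n p) with hG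
  have hlim : ∀ p ∈ C.LL, Tendsto (fun n : ℕ => P.Gn b n p) atTop (nhds (G p)) := by
    intro p hp
    apply tendsto_nhds_limUnder
    apply cauchySeq_tendsto_of_complete
    apply cauchySeq_of_le_tendsto_0
      (fun n => 2 * (‖b p‖ * Real.exp M * (Real.exp (M * κ⁻¹ ^ n) - 1)))
    · intro n k N hn hk
      have h1 := hdist p hp N n hn
      have h2 := hdist p hp N k hk
      have h3 := dist_triangle (P.Gn b n p) (P.Gn b N p) (P.Gn b k p)
      rw [dist_comm] at h1
      linarith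
    · have := (heps.const_mul (‖b p‖ * Real.exp M)).const_mul 2
      simpa using this
  have hbd : ∀ p ∈ C.LL, ∀ n : ℕ, dist (G p) (P.Gn b n p) ≤
      ‖b p‖ * Real.exp M * (Real.exp (M * κ⁻¹ ^ n) - 1) := by
    intro p hp n
    rw [dist_comm]
    have h1 : Tendsto (fun k => dist (P.Gn b n p) (P.Gn b k p)) atTop
        (nhds (dist (P.Gn b n p) (G p))) := tendsto_const_nhds.dist (hlim p hp)
    refine le_of_tendsto h1 ?_
    filter_upwards [eventually_ge_atTop n] with k hk using hdist p hp n k hk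
  have hcont : ContinuousOn G C.LL := by
    have hlu : TendstoLocallyUniformlyOn (fun n : ℕ => P.Gn b n) G atTop C.LL := by
      rw [Metric.tendstoLocallyUniformlyOn_iff]
      intro ε hε p hp
      have hbc : ContinuousWithinAt (fun q => ‖b q‖) C.LL p := (hb.cont p hp).norm
      have hev : ∀ᶠ q in nhdsWithin p C.LL, ‖b q‖ < ‖b p‖ + 1 :=
        hbc.eventually (isOpen_Iio.mem_nhds (by simp : ‖b p‖ < ‖b p‖ + 1))
      refine ⟨{q | ‖b q‖ < ‖b p‖ + 1 ∧ q ∈ C.LL}, ?_, ?_⟩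
      · filter_upwards [hev, self_mem_nhdsWithin] with q h1 h2 using ⟨h1, h2⟩
      · have hs : Tendsto (fun n : ℕ => (‖b p‖ + 1) * Real.exp M *
            (Real.exp (M * κ⁻¹ ^ n) - 1)) atTop (nhds 0) := by
          simpa using heps.const_mul ((‖b p‖ + 1) * Real.exp M)
        filter_upwards [hs.eventually (isOpen_Iio.mem_nhds hε)] with n hn q hq
        refine lt_of_le_of_lt (hbd q hq.2 n) (lt_of_le_of_lt ?_ hn)
        have h1 := heps0 n
        have h2 := hq.1.le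
        have h3 := Real.exp_pos M
        gcongr
    exact hlu.continuousOn (Frequently.of_forall fun n => P.Gn_cont hC hb n)
  have hequiv : ∀ p ∈ C.LL, P.f (G p) = G (shiftPt p) := by
    intro p hp
    have h1 : Tendsto (fun n : ℕ => P.f (P.Gn b (n + 1) p)) atTop (nhds (P.f (G p))) :=
      (P.AGlim_f_cont.tendsto _).comp ((hlim p hp).comp (tendsto_add_atTop_nat 1))
    have h2 : (fun n : ℕ => P.f (P.Gn b (n + 1) p)) = fun n => P.Gn b n (shiftPt p) :=
      funext fun n => P.f_Gn hC hb n hp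
    rw [h2] at h1
    exact tendsto_nhds_unique h1 (hlim _ (shift_mem C hp))
  have hre : ∀ p ∈ C.LL, -P.Lam / 2 ≤ (G p).re := by
    intro p hp
    have h1 : Tendsto (fun n : ℕ => (P.Gn b n p).re) atTop (nhds (G p).re) :=
      (Complex.continuous_re.tendsto _).comp (hlim p hp)
    exact ge_of_tendsto' h1 fun n => (P.D_re (P.Gn_mem hC hb n hp)).le
  have hiter : ∀ n : ℕ, ∀ p ∈ C.LL, P.f^[n] (G p) = G (shiftPt^[n] p) := by
    intro n
    induction n with
    | zero => intro p _; rfl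
    | succ n ih =>
      intro p hp
      rw [Function.iterate_succ_apply, Function.iterate_succ_apply, hequiv p hp,
        ih _ (shift_mem C hp)]
  have hJJ : ∀ p ∈ C.LL, G p ∈ P.JJ := by
    intro p hp
    rw [P.JJ_eq hC]
    intro n
    rw [hiter n p hp]
    exact hre _ (shift_iter_mem C hp n)
  have hGD : ∀ p ∈ C.LL, G p ∈ P.D := fun p hp => P.JJ_sub_D (hJJ p hp)
  refine ⟨G, hcont, hJJ, ⟨M + 1, ?_⟩, ?_, hequiv⟩
  · intro p hp
    obtain ⟨δ, hδ, hloc⟩ := Conn.local_conn (P.D_open hC) h0 (hGD p hp) one_pos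
    have h1 := (hlim p hp).eventually (Metric.ball_mem_nhds _ hδ)
    obtain ⟨n, hn⟩ := h1.exists
    have h2 := hcon p hp 0 n (Nat.zero_le _)
    rw [P.Gn_zero, pow_zero, mul_one] at h2
    exact h2.trans (hloc _ hn).symm
  · intro p hp
    have hL : ContinuousAt (P.L (p.1 0)) (G (shiftPt p)) :=
      (P.L_deriv hC (p.1 0) (hGD _ (shift_mem C hp))).continuousAt
    have h1 : Tendsto (fun n : ℕ => P.L (p.1 0) (P.Gn b n (shiftPt p))) atTop
        (nhds (P.L (p.1 0) (G (shiftPt p)))) :=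
      hL.tendsto.comp (hlim _ (shift_mem C hp))
    have h2 : (fun n : ℕ => P.L (p.1 0) (P.Gn b n (shiftPt p))) = fun n => P.Gn b (n + 1) p :=
      funext fun n => P.L_Gn b n p
    rw [h2] at h1
    exact tendsto_nhds_unique ((hlim p hp).comp (tendsto_add_atTop_nat 1)) h1

end Par

end PJ
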