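import Pool.Agent.Lib.H31J.ABase

/-!
# Chunk A-GN: the approximations `G_n`

`G_n p := Lw [u_0,…,u_{n-1}] (b (shiftPt^n p))`.
* `Gn_mem`: `Lw_D`.  `Gn_zero`, `L_Gn`: `L u_0 (G_n (shiftPt p)) = G_{n+1} p` (definition of `Lw` on a cons), `f_Gn`: `f_L`.
* `Gn_conn`: `Base.step` for `shiftPt^k p` and `contr` give `Conn D (G_k p) (G_{k+1} p) (M κ^{-k} M')`
  (`G_{k+1} p = Lw [u_0..u_{k-1}] (L u_k (b (shiftPt^{k+1} p)))`); sum the geometric series.
* `Gn_cont`: `shiftPt` is continuous and maps `LL` to `LL`, `u_0,…,u_{n-1}` are locally constant, `L j` is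
  continuous on `D` and maps `D` to `D`: induction on `n` with `L_Gn`.
-/

set_option autoImplicit false

namespace PJ

namespace Par

open Set Filter

variable {C : Comb} (P : Par C)

theorem Gn_zero (b : Pt → ℂ) (p : Pt) : P.Gn b 0 p = b p := by
  simp [Gn, Lw]

theorem L_Gn (b : Pt → ℂ) (n : ℕ) (p : Pt) : P.L (p.1 0) (P.Gn b n (shiftPt p)) = P.Gn b (n + 1) p := by
  unfold Gn Lw
  rw [List.range_succ_eq_map, List.map_cons, List.map_map, List.foldr_cons,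
    Function.iterate_succ_apply]
  rfl

theorem Gn_mem (hC : C.Good) {b : Pt → ℂ} (hb : P.Base b) (n : ℕ) {p : Pt} (hp : p ∈ C.LL) :
    P.Gn b n p ∈ P.D :=
  P.Lw_D hC _ (hb.mem _ (shift_iter_mem C hp n))

theorem f_Gn (hC : C.Good) {b : Pt → ℂ} (hb : P.Base b) (n : ℕ) {p : Pt} (hp : p ∈ C.LL) :
    P.f (P.Gn b (n + 1) p) = P.Gn b n (shiftPt p) := by
  rw [← P.L_Gn b n p]
  apply P.f_L hC
  intro h
  exact P.zero_notin hC (h ▸ P.Gn_mem hC hb n (shift_mem C hp))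

theorem Gn_conn (hC : C.Good) {b : Pt → ℂ} (hb : P.Base b) : ∃ M κ : ℝ, 0 < M ∧ 1 < κ ∧
    ∀ p ∈ C.LL, ∀ n k : ℕ, n ≤ k → Conn P.D (P.Gn b n p) (P.Gn b k p) (M * (κ⁻¹) ^ n) := by
  obtain ⟨M1, κ, hM1, hκ, hcon⟩ := P.contr hC
  obtain ⟨M0, hM0⟩ := hb.step
  have hκ0 : 0 < κ := by linarith
  have hk1 : κ⁻¹ < 1 := inv_lt_one_of_one_lt₀ hκ
  have hk0 : 0 < κ⁻¹ := inv_pos.2 hκ0
  have hd : 0 < 1 - κ⁻¹ := by linarith
  have hA : 0 < M1 * |M0| + 1 := by positivity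
  have hstep : ∀ p ∈ C.LL, ∀ k : ℕ,
      Conn P.D (P.Gn b k p) (P.Gn b (k + 1) p) (M1 * (κ⁻¹) ^ k * M0) := by
    intro p hp k
    have h1 := hM0 _ (shift_iter_mem C hp k)
    have h2 := hcon ((List.range k).map p.1) _ _ _ h1
    have h3 : P.Lw ((List.range k).map p.1)
        (P.L ((shiftPt^[k] p).1 0) (b (shiftPt (shiftPt^[k] p)))) = P.Gn b (k + 1) p := by
      unfold Gn Lw
      rw [List.range_succ, List.map_append, List.foldr_append, ← Function.iterate_succ_apply' shiftPt]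
      have h4 : (shiftPt^[k] p).1 0 = p.1 k := by rw [shift_iter]; simp
      rw [h4]
      rfl
    rw [h3] at h2
    simpa [Gn] using h2
  refine ⟨(M1 * |M0| + 1) / (1 - κ⁻¹), κ, div_pos hA hd, hκ, ?_⟩
  intro p hp n k hnk
  have key : ∀ j : ℕ, Conn P.D (P.Gn b n p) (P.Gn b (n + j) p)
      ((M1 * |M0| + 1) / (1 - κ⁻¹) * ((κ⁻¹) ^ n - (κ⁻¹) ^ (n + j))) := by
    intro j
    induction j with
    | zero => simpa using Conn.rfl' (P.Gn_mem hC hb n hp)
    | succ j ih =>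
      have h1 := hstep p hp (n + j)
      refine (Conn.trans ih h1).mono ?_
      have hp0 : 0 < κ⁻¹ ^ (n + j) := by positivity
      have h2 : M1 * κ⁻¹ ^ (n + j) * M0 ≤ (M1 * |M0| + 1) * κ⁻¹ ^ (n + j) := by
        have h3 : M1 * κ⁻¹ ^ (n + j) * M0 ≤ M1 * κ⁻¹ ^ (n + j) * |M0| :=
          mul_le_mul_of_nonneg_left (le_abs_self _) (by positivity)
        nlinarith
      have h4 : (M1 * |M0| + 1) / (1 - κ⁻¹) * (κ⁻¹ ^ n - κ⁻¹ ^ (n + (j + 1)))
          = (M1 * |M0| + 1) / (1 - κ⁻¹) * (κ⁻¹ ^ n - κ⁻¹ ^ (n + j))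
            + (M1 * |M0| + 1) * κ⁻¹ ^ (n + j) := by
        have h5 : κ⁻¹ ^ (n + (j + 1)) = κ⁻¹ ^ (n + j) * κ⁻¹ := by rw [← add_assoc, pow_succ]
        have h6 : (M1 * |M0| + 1) / (1 - κ⁻¹) * (1 - κ⁻¹) = M1 * |M0| + 1 :=
          div_mul_cancel₀ _ hd.ne'
        rw [h5]
        generalize κ⁻¹ ^ (n + j) = y
        generalize κ⁻¹ ^ n = x
        generalize (M1 * |M0| + 1) / (1 - κ⁻¹) = q at h6 ⊢
        rw [← h6]
        ring
      rw [h4]
      linarith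
  obtain ⟨j, rfl⟩ := Nat.exists_eq_add_of_le hnk
  refine (key j).mono ?_
  have hp0 : 0 < κ⁻¹ ^ (n + j) := by positivity
  have hq : 0 < (M1 * |M0| + 1) / (1 - κ⁻¹) := div_pos hA hd
  nlinarith

theorem Gn_cont (hC : C.Good) {b : Pt → ℂ} (hb : P.Base b) (n : ℕ) :
    ContinuousOn (P.Gn b n) C.LL := by
  induction n with
  | zero =>
    have h : P.Gn b 0 = b := funext fun p => P.Gn_zero b p
    rw [h]
    exact hb.cont
  | succ n ih =>
    intro p hp
    have hev : ∀ᶠ q : Pt in nhdsWithin p C.LL, q.1 0 = p.1 0 := by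
      apply nhdsWithin_le_nhds
      have hc : ContinuousAt (fun q : Pt => q.1 0) p :=
        ((continuous_apply 0).comp continuous_fst).continuousAt
      have := hc.eventually (IsOpen.mem_nhds (isOpen_discrete {p.1 0}) rfl)
      filter_upwards [this] with q hq using hq
    have hsh : ContinuousWithinAt (fun q => P.Gn b n (shiftPt q)) C.LL p :=
      ContinuousWithinAt.comp (t := C.LL) (ih _ (shift_mem C hp)) shift_cont.continuousWithinAt
        (fun q hq => shift_mem C hq)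
    have hL : ContinuousAt (P.L (p.1 0)) (P.Gn b n (shiftPt p)) :=
      (P.L_deriv hC (p.1 0) (P.Gn_mem hC hb n (shift_mem C hp))).continuousAt
    have h1 : ContinuousWithinAt (fun q => P.L (p.1 0) (P.Gn b n (shiftPt q))) C.LL p :=
      ContinuousAt.comp_continuousWithinAt (f := fun q => P.Gn b n (shiftPt q))
        (g := P.L (p.1 0)) (x := p) hL hsh
    refine h1.congr_of_eventuallyEq ?_ ?_
    · filter_upwards [hev] with q hq
      rw [← P.L_Gn b n q, hq]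
    · rw [← P.L_Gn b n p]

end Par

end PJ
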