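import Pool.Agent.Lib.H31J.APhi

/-!
# Chunk A-INV: the invariant set `A`

`A = {Re ≤ -Λ/2} ∪ ⋃_{i ≤ m} g i (K)`, `K` = ray `v m + [0,∞)` together with the closed disc of radius 1/2
around `v m`.

* `ball0`: a small closed disc around `0` is contained in `g 0 (closedBall (v m) (1/2))`: put
  `ρ = (1/2) ∏_{l=1}^{m} (2‖v l‖)⁻¹`, `z_0 = z`, `z_{l+1} = f z_l`; `‖z_l - v_l‖ ≤ ρ ∏_{k≤l} 2‖v k‖ ≤ 1/2`
  (`z_{l+1} - v_{l+1} = v_{l+1} (exp (z_l - v_l) - 1)` for `l<m`, `|exp a - 1| ≤ 2|a|`), so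
  `w := z_m ∈ closedBall (v m) (1/2) ⊆ K`, and `g i w = z_i` by downward induction:
  `z_i - (Log z_{i+1} - Log lam + 2πi sg i) ∈ 2πiℤ` and it is small because `v_i` satisfies the same
  equation with `v_{i+1}` and `Log` is continuous near `v_{i+1}` (`‖z_{i+1} - v_{i+1}‖ ≤ 1/2`,
  `Re v_{i+1} ≥ R - 25`).  The constant is such that `‖lam‖ exp (-Λ/2) ≤ ρ` (`small`): `f_H`.
* `f_A`: `f (g i w) = g (i+1) w` (`i<m`), `f (g m w) = f w` has `Re < -Λ/2` (`f_K`), `f {Re ≤ -Λ/2} ⊆` the small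
  disc (`f_H`).
* `basin`: a point of `A` is mapped to `{Re < -Λ/2}` after finitely many steps: `f^{m-i} (g i w) = w`, `f_K`.
* `curve0_sub`: `v m + t ∈ K`.
-/

set_option autoImplicit false

namespace PJ

namespace Par

open Set Filter

variable {C : Comb} (P : Par C)

theorem inv_ball_mem {w : ℂ} (hw : ‖w - P.v C.m‖ ≤ 1 / 2) : w ∈ P.K := Or.inl hw

theorem inv_step (hC : C.Good) {i : ℕ} (hi : i < C.m) (δ : ℂ) :
    P.f (P.v i + δ) = P.v (i + 1) * Complex.exp δ := by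
  have h := P.f_v hC hi
  have e : P.f (P.v i + δ) = P.f (P.v i) * Complex.exp δ := by
    simp only [Par.f, Complex.exp_add]
    ring
  rw [e, h]

theorem inv_v_re (hC : C.Good) {i : ℕ} (hi : 1 ≤ i) (him : i ≤ C.m) : 100 ≤ (P.v i).re := by
  have h1 := (P.v_re hi him).1
  have h2 := P.r_ge hi
  have h3 := P.R_ge
  linarith

theorem inv_one_le (hC : C.Good) {i : ℕ} (hi : 1 ≤ i) (him : i ≤ C.m) : 1 ≤ ‖P.v i‖ := by
  have h1 := P.inv_v_re hC hi him
  have h2 := Complex.re_le_norm (P.v i)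
  linarith

theorem inv_log (hC : C.Good) {i : ℕ} (hi : i < C.m) {δ : ℂ} (hδ : ‖δ‖ ≤ 1 / 2) :
    Complex.log (P.v (i + 1) * Complex.exp δ) = Complex.log (P.v (i + 1)) + δ := by
  have hre := P.inv_v_re hC (Nat.succ_le_succ (Nat.zero_le i)) (Nat.succ_le_of_lt hi)
  have hne : P.v (i + 1) ≠ 0 := by
    intro h0
    rw [Nat.succ_eq_add_one, h0] at hre
    simp at hre
    linarith
  have harg : |(P.v (i + 1)).arg| < Real.pi / 2 := by
    rw [Complex.abs_arg_lt_pi_div_two_iff]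
    left
    linarith
  have him : |δ.im| ≤ 1 / 2 := le_trans (Complex.abs_im_le_norm δ) hδ
  have hpi := Real.pi_gt_three
  rw [abs_lt] at harg
  rw [abs_le] at him
  have e : P.v (i + 1) * Complex.exp δ = Complex.exp (Complex.log (P.v (i + 1)) + δ) := by
    rw [Complex.exp_add, Complex.exp_log hne]
  rw [e, Complex.log_exp]
  · rw [Complex.add_im, Complex.log_im]
    linarith
  · rw [Complex.add_im, Complex.log_im]
    linarith

theorem inv_expsub {δ : ℂ} (hδ : ‖δ‖ ≤ 1 / 2) : ‖Complex.exp δ - 1‖ ≤ 2 * ‖δ‖ := by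
  exact Complex.norm_exp_sub_one_le (by linarith)

theorem ball0 (hC : C.Good) : ∃ ρ : ℝ, 0 < ρ ∧ ‖P.lam‖ * Real.exp (-P.Lam / 2) ≤ ρ ∧
    ∀ z : ℂ, ‖z‖ ≤ ρ → ∃ w : ℂ, ‖w - P.v C.m‖ ≤ 1 / 2 ∧ P.g 0 w = z := by
  have hpos : ∀ i ∈ Finset.Icc 1 C.m, 1 ≤ ‖P.v i‖ := by
    intro i hi
    rw [Finset.mem_Icc] at hi
    exact P.inv_one_le hC hi.1 hi.2
  have hPpos : 0 < ∏ i ∈ Finset.Icc 1 C.m, (2 * ‖P.v i‖) :=
    Finset.prod_pos fun i hi => by linarith [hpos i hi]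
  have hP4 : ∏ i ∈ Finset.Icc 1 C.m, (2 * ‖P.v i‖) ≤ ∏ i ∈ Finset.Icc 1 C.m, (4 * ‖P.v i‖) :=
    Finset.prod_le_prod (fun i hi => by linarith [hpos i hi]) fun i hi => by linarith [hpos i hi]
  refine ⟨(1 / 2) * (∏ i ∈ Finset.Icc 1 C.m, (2 * ‖P.v i‖))⁻¹, by positivity, ?_, ?_⟩
  · have h := P.small hC
    have hL := P.Lam_ge'
    have ha : 0 ≤ ‖P.lam‖ * Real.exp (-P.Lam / 2) := by positivity
    rw [← div_eq_mul_inv, le_div_iff₀ hPpos]
    have h1 : ∏ i ∈ Finset.Icc 1 C.m, (2 * ‖P.v i‖) ≤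
        (∏ i ∈ Finset.Icc 1 C.m, (4 * ‖P.v i‖)) * (4 * P.Lam) := by
      calc ∏ i ∈ Finset.Icc 1 C.m, (2 * ‖P.v i‖) ≤ ∏ i ∈ Finset.Icc 1 C.m, (4 * ‖P.v i‖) := hP4
        _ = (∏ i ∈ Finset.Icc 1 C.m, (4 * ‖P.v i‖)) * 1 := (mul_one _).symm
        _ ≤ _ := mul_le_mul_of_nonneg_left (by linarith) (by linarith)
    have h2 := mul_le_mul_of_nonneg_left h1 ha
    linarith
  · intro z hz
    have hmain : ∀ l, l ≤ C.m → ‖P.f^[l] z - P.v l‖ *
        ∏ i ∈ Finset.Ioc l C.m, (2 * ‖P.v i‖) ≤ 1 / 2 ∧ ‖P.f^[l] z - P.v l‖ ≤ 1 / 2 := by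
      have hge1 : ∀ l, 1 ≤ ∏ i ∈ Finset.Ioc l C.m, (2 * ‖P.v i‖) := by
        intro l
        apply Finset.prod_induction (fun i => 2 * ‖P.v i‖) (fun x : ℝ => 1 ≤ x)
          (fun a b ha hb => one_le_mul_of_one_le_of_one_le ha hb) le_rfl
        intro i hi
        rw [Finset.mem_Ioc] at hi
        have := hpos i (Finset.mem_Icc.2 ⟨by omega, hi.2⟩)
        show 1 ≤ 2 * ‖P.v i‖
        linarith
      intro l hl
      induction l with
      | zero =>
        have e : Finset.Ioc 0 C.m = Finset.Icc 1 C.m := by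
          ext i
          simp only [Finset.mem_Ioc, Finset.mem_Icc]
          omega
        have h1 : ‖P.f^[0] z - P.v 0‖ * ∏ i ∈ Finset.Ioc 0 C.m, (2 * ‖P.v i‖) ≤ 1 / 2 := by
          rw [Function.iterate_zero, id, P.v0, sub_zero, e]
          rw [← div_eq_mul_inv, le_div_iff₀ hPpos] at hz
          exact hz
        refine ⟨h1, ?_⟩
        nlinarith [hge1 0, norm_nonneg (P.f^[0] z - P.v 0)]
      | succ l ih =>
        obtain ⟨ih1, ih2⟩ := ih (by omega)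
        have e : P.f^[l + 1] z - P.v (l + 1) =
            P.v (l + 1) * (Complex.exp (P.f^[l] z - P.v l) - 1) := by
          rw [Function.iterate_succ_apply']
          have := P.inv_step hC (i := l) (by omega) (P.f^[l] z - P.v l)
          rw [add_sub_cancel] at this
          rw [this]
          ring
        have h3 : ‖P.f^[l + 1] z - P.v (l + 1)‖ ≤ 2 * ‖P.v (l + 1)‖ * ‖P.f^[l] z - P.v l‖ := by
          rw [e, norm_mul]
          have := inv_expsub ih2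
          nlinarith [norm_nonneg (P.v (l + 1))]
        have hsplit : ∏ i ∈ Finset.Ioc l C.m, (2 * ‖P.v i‖) =
            (2 * ‖P.v (l + 1)‖) * ∏ i ∈ Finset.Ioc (l + 1) C.m, (2 * ‖P.v i‖) := by
          have hI : Finset.Ioc l C.m = insert (l + 1) (Finset.Ioc (l + 1) C.m) := by
            ext i
            simp only [Finset.mem_Ioc, Finset.mem_insert]
            omega
          rw [hI, Finset.prod_insert (by simp)]
        have h1 : ‖P.f^[l + 1] z - P.v (l + 1)‖ * ∏ i ∈ Finset.Ioc (l + 1) C.m, (2 * ‖P.v i‖)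
            ≤ 1 / 2 := by
          refine le_trans (mul_le_mul_of_nonneg_right h3 (by linarith [hge1 (l + 1)])) ?_
          rw [hsplit] at ih1
          linarith
        refine ⟨h1, ?_⟩
        nlinarith [hge1 (l + 1), norm_nonneg (P.f^[l + 1] z - P.v (l + 1))]
    have hdown : ∀ k, k ≤ C.m → P.g (C.m - k) (P.f^[C.m] z) = P.f^[C.m - k] z := by
      intro k hk
      induction k with
      | zero => rw [Nat.sub_zero, P.g_last]
      | succ k ih =>
        have ih' := ih (by omega)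
        have e1 : C.m - (k + 1) + 1 = C.m - k := by omega
        rw [P.g_succ (by omega : C.m - (k + 1) < C.m), e1, ih']
        have h4 : P.f^[C.m - k] z = P.v (C.m - (k + 1) + 1) *
            Complex.exp (P.f^[C.m - (k + 1)] z - P.v (C.m - (k + 1))) := by
          have hs := P.inv_step hC (i := C.m - (k + 1)) (by omega)
            (P.f^[C.m - (k + 1)] z - P.v (C.m - (k + 1)))
          rw [add_sub_cancel, ← Function.iterate_succ_apply' P.f, Nat.succ_eq_add_one, e1] at hs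
          rw [e1]
          exact hs
        rw [h4, P.inv_log hC (by omega) (hmain _ (by omega)).2]
        have h5 := P.vlog (C.m - (k + 1)) (by omega)
        linear_combination -h5
    refine ⟨P.f^[C.m] z, (hmain C.m le_rfl).2, ?_⟩
    have := hdown C.m le_rfl
    rwa [Nat.sub_self, Function.iterate_zero, id] at this

theorem f_H (hC : C.Good) {z : ℂ} (hz : z.re ≤ -P.Lam / 2) :
    ∃ w : ℂ, ‖w - P.v C.m‖ ≤ 1 / 2 ∧ P.g 0 w = P.f z := by
  obtain ⟨ρ, _, h1, h2⟩ := P.ball0 hC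
  apply h2
  refine le_trans ?_ h1
  simp only [Par.f, norm_mul, Complex.norm_exp]
  exact mul_le_mul_of_nonneg_left (Real.exp_le_exp.2 hz) (norm_nonneg _)

theorem f_A (hC : C.Good) {z : ℂ} (hz : z ∈ P.A) : P.f z ∈ P.A := by
  rcases hz with hz | ⟨i, hi, w, hw, rfl⟩
  · obtain ⟨w, hw, hw'⟩ := P.f_H hC hz
    exact Or.inr ⟨0, Nat.zero_le _, w, Or.inl hw, hw'⟩
  · rcases Nat.lt_or_ge i C.m with h | h
    · rw [P.f_g hC h (P.K_sub_U hw)]
      exact Or.inr ⟨i + 1, h, w, hw, rfl⟩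
    · have : i = C.m := le_antisymm hi h
      subst this
      rw [P.g_last]
      exact Or.inl (P.f_K hC hw).le

theorem iter_A (hC : C.Good) {z : ℂ} (hz : z ∈ P.A) (n : ℕ) : P.f^[n] z ∈ P.A := by
  induction n with
  | zero => exact hz
  | succ n ih =>
    rw [Function.iterate_succ_apply']
    exact P.f_A hC ih

theorem inv_basin (hC : C.Good) {i : ℕ} (hi : i ≤ C.m) {w : ℂ} (hw : w ∈ P.K) :
    (P.f^[C.m - i + 1] (P.g i w)).re < -P.Lam / 2 := by
  rw [Function.iterate_succ_apply', P.iter_g hC hi (P.K_sub_U hw)]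
  exact P.f_K hC hw

theorem basin (hC : C.Good) {z : ℂ} (hz : z ∈ P.A) : ∃ n : ℕ, (P.f^[n] z).re < -P.Lam / 2 := by
  rcases hz with hz | ⟨i, hi, w, hw, rfl⟩
  · obtain ⟨w, hw, hw'⟩ := P.f_H hC hz
    have h := P.inv_basin hC (Nat.zero_le C.m) (P.inv_ball_mem hw)
    rw [hw', ← Function.iterate_succ_apply] at h
    exact ⟨_, h⟩
  · exact ⟨_, P.inv_basin hC hi hw⟩

theorem ball_sub_A (hC : C.Good) : ∃ ρ : ℝ, 0 < ρ ∧ ∀ z ∈ P.D, ρ < ‖z‖ := by
  obtain ⟨ρ, h0, _, h2⟩ := P.ball0 hC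
  refine ⟨ρ, h0, fun z hz => ?_⟩
  by_contra hc
  push Not at hc
  obtain ⟨w, hw, hw'⟩ := h2 z hc
  exact hz (Or.inr ⟨0, Nat.zero_le _, w, Or.inl hw, hw'⟩)

theorem zero_notin (hC : C.Good) : (0 : ℂ) ∉ P.D := by
  obtain ⟨ρ, h0, h1⟩ := P.ball_sub_A hC
  intro h
  have := h1 0 h
  rw [norm_zero] at this
  linarith

theorem D_re {z : ℂ} (hz : z ∈ P.D) : -P.Lam / 2 < z.re := by
  by_contra hc
  push Not at hc
  exact hz (Or.inl hc)

theorem curve0_sub {t : ℝ} (ht : 0 ≤ t) : P.g 0 (P.v C.m + (t : ℂ)) ∉ P.D := by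
  intro h
  exact h (Or.inr ⟨0, Nat.zero_le _, _, Or.inr ⟨t, ht, rfl⟩, rfl⟩)

end Par

end PJ
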