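import Pool.Agent.Lib.H31J.AInv

/-!
# Chunk A-INVC: `A` is closed, description of `JJ`

* `A_closed`: `g i '' K` is closed: if `g i (w_k) → z`, `w_k ∈ K`, then `w_k = f^{m-i}(g i (w_k)) → f^{m-i} z =: w ∈ K`
  (`iter_g`, `K_closed`), and `g i (w_k) → g i w` (`g_deriv`, `K_sub_U`), so `z = g i w`.  Finite union over `i ≤ m`.
* `JJ_eq`: `⊆` is `D_re`.  `⊇`: if `f^n z ∈ A` then `Re (f^{n+k} z) < -Λ/2` for some `k` (`basin`).
-/

set_option autoImplicit false

namespace PJ

namespace Par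

open Set Filter

variable {C : Comb} (P : Par C)

theorem invc_f_cont : Continuous P.f := by
  unfold Par.f
  fun_prop

theorem invc_iter_cont (n : ℕ) : Continuous (P.f^[n]) := P.invc_f_cont.iterate n

theorem invc_closed (hC : C.Good) {i : ℕ} (hi : i ≤ C.m) : IsClosed (P.g i '' P.K) := by
  apply IsSeqClosed.isClosed
  intro x z hx hz
  choose w hw hwx using hx
  have h1 : Tendsto w atTop (nhds (P.f^[C.m - i] z)) := by
    have h2 := ((P.invc_iter_cont (C.m - i)).tendsto z).comp hz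
    refine h2.congr fun n => ?_
    simp only [Function.comp_apply]
    rw [← hwx n, P.iter_g hC hi (P.K_sub_U (hw n))]
  have h3 : P.f^[C.m - i] z ∈ P.K := P.K_closed.isSeqClosed hw h1
  refine ⟨_, h3, ?_⟩
  have h4 : ContinuousAt (P.g i) (P.f^[C.m - i] z) :=
    (P.g_deriv hC hi (P.K_sub_U h3)).continuousAt
  have h5 := h4.tendsto.comp h1
  refine tendsto_nhds_unique h5 (hz.congr fun n => ?_)
  simp only [Function.comp_apply]
  exact (hwx n).symm

theorem A_closed (hC : C.Good) : IsClosed P.A := by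
  have h1 : IsClosed {z : ℂ | z.re ≤ -P.Lam / 2} :=
    isClosed_le Complex.continuous_re continuous_const
  have h2 : {z | ∃ i, i ≤ C.m ∧ ∃ w ∈ P.K, P.g i w = z} =
      ⋃ i ∈ Set.Iic C.m, P.g i '' P.K := by
    ext z
    simp only [mem_setOf_eq, mem_iUnion, mem_Iic, mem_image, exists_prop]
  have h3 : IsClosed {z | ∃ i, i ≤ C.m ∧ ∃ w ∈ P.K, P.g i w = z} := by
    rw [h2]
    exact (Set.finite_Iic C.m).isClosed_biUnion fun i hi => P.invc_closed hC hi
  exact h1.union h3

theorem D_open (hC : C.Good) : IsOpen P.D := (P.A_closed hC).isOpen_compl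

/-- `JJ` is the set of points whose orbit never enters the left half plane `Re < -Λ/2`. -/
theorem JJ_eq (hC : C.Good) : P.JJ = {z | ∀ n : ℕ, -P.Lam / 2 ≤ (P.f^[n] z).re} := by
  ext z
  constructor
  · intro h n
    exact (P.D_re (h n)).le
  · intro h n hn
    obtain ⟨k, hk⟩ := P.basin hC hn
    have h1 := h (k + n)
    rw [Function.iterate_add_apply] at h1
    linarith

theorem JJ_closed (hC : C.Good) : IsClosed P.JJ := by
  rw [P.JJ_eq hC]
  have : {z : ℂ | ∀ n : ℕ, -P.Lam / 2 ≤ (P.f^[n] z).re} =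
      ⋂ n : ℕ, {z : ℂ | -P.Lam / 2 ≤ (P.f^[n] z).re} := by
    ext z
    simp
  rw [this]
  exact isClosed_iInter fun n =>
    isClosed_le continuous_const (Complex.continuous_re.comp (P.invc_iter_cont n))

theorem JJ_sub_D : P.JJ ⊆ P.D := fun _ hz => hz 0

theorem f_JJ {z : ℂ} (hz : z ∈ P.JJ) : P.f z ∈ P.JJ := by
  intro n
  have := hz (n + 1)
  rwa [Function.iterate_succ_apply] at this

end Par

end PJ
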