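import Pool.Agent.Lib.H31J.AInv

/-!
# Chunk A-JULF: points outside `JJ` are in the Fatou set

Let `H = {Re ≤ -Λ/2}`, `F = f^{m+2}`.  For `z ∈ H`: `f z = g 0 w` with `‖w - v m‖ ≤ 1/2` (`f_H`), `f^{m+1} z = w` (`iter_g`),
`F z = f w` and `Re (F z) < -Λ/2` (`f_K`).  Derivative: `F'(z) = ∏_{l=1}^{m+2} f^l(z)`, with
`‖f z‖ ≤ ‖lam‖ exp(-Λ/2)`, `‖f^{l+1} z‖ = ‖g l w‖ ≤ 4 ‖v l‖` for `1 ≤ l ≤ m` (`g_re`, `g_re_le`, `g_im'`, `v_norm`; `r l ≥ 10^6`), `‖F z‖ = ‖f w‖ ≤ 2Λ`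
(`f_vm`): by `small` `‖F'‖ ≤ 1/2` on the convex set `H`, so `F` maps `H` into `H` and is `1/2`-Lipschitz; it has a fixed point
`z*` and `F^k → z*` uniformly on `H` (`‖F^{k+1} z - z*‖ ≤ 2^{-k} · 4Λ`, since `F(H)` is in the disc of radius `2Λ`).
If `z ∉ JJ` then `Re (f^n z) < -Λ/2` for some `n` (`JJ_eq`), `U := (f^n)⁻¹ {Re < -Λ/2}` is an open neighbourhood of `z`.
Given `φ` strictly increasing, infinitely many of the numbers `φ k - n` are in one residue class `i` mod `m+2`; let `ψ` enumerate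
those `k` (with `φ k ≥ n`).  On `U`: `f^{φ(ψ k)} = f^i ∘ F^{n_k} ∘ f^n` with `n_k → ∞`, converges uniformly on `U` to the
constant `f^i z*` (`f^i` is uniformly continuous near `z*`), so locally uniformly.
-/

set_option autoImplicit false

namespace PJ

namespace Par

open Set Filter Topology

variable {C : Comb} (P : Par C)

theorem julf_deriv (n : ℕ) (z : ℂ) :
    HasDerivAt (P.f^[n]) (∏ l ∈ Finset.range n, P.f^[l + 1] z) z := by
  induction n with
  | zero => simpa using hasDerivAt_id z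
  | succ n ih =>
    have h1 : HasDerivAt P.f (P.f (P.f^[n] z)) (P.f^[n] z) :=
      (Complex.hasDerivAt_exp (P.f^[n] z)).const_mul P.lam
    have h2 := h1.comp z ih
    rw [Finset.prod_range_succ, mul_comm, Function.iterate_succ']
    exact h2

theorem julf_cont (n : ℕ) : Continuous (P.f^[n]) :=
  continuous_iff_continuousAt.2 fun z => (P.julf_deriv n z).continuousAt

theorem julf_gw (hC : C.Good) {w : ℂ} (hw : w ∈ P.U) :
    ∀ l, l ≤ C.m → P.f^[l] (P.g 0 w) = P.g l w := by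
  intro l
  induction l with
  | zero => intro _; rfl
  | succ l ih =>
    intro hl
    rw [Function.iterate_succ_apply', ih (by omega), P.f_g hC (by omega) hw]

theorem julf_gnorm (hC : C.Good) {w : ℂ} (hw : ‖w - P.v C.m‖ ≤ 1 / 2) {l : ℕ} (hl : 1 ≤ l)
    (hlm : l ≤ C.m) : ‖P.g l w‖ ≤ 4 * ‖P.v l‖ := by
  have hwK : w ∈ P.K := Or.inl hw
  have hwU : w ∈ P.U := P.K_sub_U hwK
  have h1 : w.re ≤ (P.v C.m).re + 1 := by
    have := Complex.abs_re_le_norm (w - P.v C.m)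
    have := abs_le.1 (this.trans hw)
    rw [Complex.sub_re] at this
    linarith
  have h2 := P.g_re_le hC hl hlm hwU h1
  have h3 := P.g_im' hC hlm hwU
  have h4 := P.g_re hC hl hlm hwU
  have h5 := (P.v_norm hl hlm).1
  have h6 := P.r_ge hl
  have h7 := P.R_ge
  have h8 := Complex.norm_le_abs_re_add_abs_im (P.g l w)
  rw [abs_of_nonneg (by linarith : 0 ≤ (P.g l w).re)] at h8
  linarith

/-- data of a point in the left half plane -/
theorem julf_H (hC : C.Good) {z : ℂ} (hz : z.re ≤ -P.Lam / 2) :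
    (P.f^[C.m + 2] z).re ≤ -P.Lam / 2 ∧ ‖P.f^[C.m + 2] z‖ ≤ 4 * P.Lam ∧
    ‖∏ l ∈ Finset.range (C.m + 2), P.f^[l + 1] z‖ ≤ 1 / 2 := by
  obtain ⟨w, hw, hgw⟩ := P.f_H hC hz
  have hwK : w ∈ P.K := Or.inl hw
  have hwU : w ∈ P.U := P.K_sub_U hwK
  have hL := P.Lam_ge'
  have hit : ∀ l, l ≤ C.m → P.f^[l + 1] z = P.g l w := by
    intro l hl
    rw [Function.iterate_succ_apply, ← hgw]
    exact P.julf_gw hC hwU l hl
  have hm1 : P.f^[C.m + 2] z = P.f w := by
    rw [Function.iterate_succ_apply', hit C.m (le_refl _), P.g_last]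
  have hnorm : ‖P.f w‖ ≤ 4 * P.Lam := by
    have h1 : P.f w = -(P.Lam : ℂ) * Complex.exp (w - P.v C.m) := by
      rw [← P.f_vm hC]; congr 1; ring
    rw [h1, norm_mul, Complex.norm_exp, norm_neg, Complex.norm_real,
      Real.norm_of_nonneg (by linarith)]
    have h2 : (w - P.v C.m).re ≤ 1 := by
      have := Complex.abs_re_le_norm (w - P.v C.m)
      have := abs_le.1 (this.trans hw)
      linarith
    have h3 : Real.exp (w - P.v C.m).re ≤ Real.exp 1 := Real.exp_le_exp.2 h2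
    have h4 : Real.exp 1 ≤ 2.7182818286 := Real.exp_one_lt_d9.le
    nlinarith
  refine ⟨?_, ?_, ?_⟩
  · rw [hm1]; exact (P.f_K hC hwK).le
  · rw [hm1]; exact hnorm
  · rw [norm_prod, Finset.prod_range_succ, Finset.prod_range_succ']
    have e1 : ‖P.f^[C.m + 1 + 1] z‖ ≤ 4 * P.Lam := by
      have : P.f^[C.m + 1 + 1] z = P.f^[C.m + 2] z := rfl
      rw [this, hm1]; exact hnorm
    have e2 : ‖P.f^[0 + 1] z‖ ≤ ‖P.lam‖ * Real.exp (-P.Lam / 2) := by
      have : P.f^[0 + 1] z = P.f z := rfl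
      rw [this]
      unfold f
      rw [norm_mul, Complex.norm_exp]
      exact mul_le_mul_of_nonneg_left (Real.exp_le_exp.2 hz) (norm_nonneg _)
    have e3 : ∏ l ∈ Finset.range C.m, ‖P.f^[l + 1 + 1] z‖ ≤
        ∏ i ∈ Finset.Icc 1 C.m, (4 * ‖P.v i‖) := by
      have h1 : ∏ i ∈ Finset.Icc 1 C.m, (4 * ‖P.v i‖) =
          ∏ l ∈ Finset.range C.m, (4 * ‖P.v (l + 1)‖) := by
        rw [Finset.range_eq_Ico, Finset.prod_Ico_add' (fun i => 4 * ‖P.v i‖) 0 C.m 1]
        rfl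
      rw [h1]
      apply Finset.prod_le_prod
      · intro i _; exact norm_nonneg _
      · intro i hi
        have hi' := Finset.mem_range.1 hi
        rw [hit (i + 1) (by omega)]
        exact P.julf_gnorm hC hw (by omega) (by omega)
    have hs := P.small hC
    have e4 : 0 ≤ ∏ l ∈ Finset.range C.m, ‖P.f^[l + 1 + 1] z‖ :=
      Finset.prod_nonneg fun i _ => norm_nonneg _
    have e5 : 0 ≤ ∏ i ∈ Finset.Icc 1 C.m, (4 * ‖P.v i‖) := e4.trans e3
    calc (∏ l ∈ Finset.range C.m, ‖P.f^[l + 1 + 1] z‖) * ‖P.f^[0 + 1] z‖ *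
          ‖P.f^[C.m + 1 + 1] z‖
        ≤ (∏ i ∈ Finset.Icc 1 C.m, (4 * ‖P.v i‖)) * (‖P.lam‖ * Real.exp (-P.Lam / 2)) *
          (4 * P.Lam) := by
          apply mul_le_mul _ e1 (norm_nonneg _)
          · positivity
          · exact mul_le_mul e3 e2 (norm_nonneg _) e5
      _ = ‖P.lam‖ * Real.exp (-P.Lam / 2) * ((∏ i ∈ Finset.Icc 1 C.m, (4 * ‖P.v i‖)) *
            (4 * P.Lam)) := by ring
      _ ≤ 1 / 2 := by linarith

theorem julf_lip (hC : C.Good) {a b : ℂ} (ha : a.re ≤ -P.Lam / 2) (hb : b.re ≤ -P.Lam / 2) :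
    ‖P.f^[C.m + 2] a - P.f^[C.m + 2] b‖ ≤ 1 / 2 * ‖a - b‖ := by
  have hconv : Convex ℝ {z : ℂ | z.re ≤ -P.Lam / 2} := convex_halfSpace_re_le _
  exact hconv.norm_image_sub_le_of_norm_hasDerivWithin_le (f := P.f^[C.m + 2])
    (f' := fun z => ∏ l ∈ Finset.range (C.m + 2), P.f^[l + 1] z) (C := 1 / 2) (x := b) (y := a)
    (fun z _ => (P.julf_deriv _ z).hasDerivWithinAt)
    (fun z hz => (P.julf_H hC hz).2.2) hb ha

/-- uniform convergence to the attracting cycle on the half plane -/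
theorem julf_conv (hC : C.Good) : ∃ y : ℂ, ∀ ε : ℝ, 0 < ε → ∀ᶠ k : ℕ in atTop,
    ∀ z : ℂ, z.re ≤ -P.Lam / 2 → ‖(P.f^[C.m + 2])^[k] z - y‖ < ε := by
  set F := P.f^[C.m + 2] with hF
  set H : Set ℂ := {z : ℂ | z.re ≤ -P.Lam / 2} with hH
  have hHc : IsClosed H := isClosed_le Complex.continuous_re continuous_const
  have hmaps : MapsTo F H H := fun z hz => (P.julf_H hC hz).1
  have hcontr : ContractingWith (1 / 2) (hmaps.restrict F H H) := by
    refine ⟨by rw [div_lt_one (by norm_num)]; norm_num, ?_⟩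
    apply LipschitzWith.of_dist_le_mul
    intro a b
    have h := P.julf_lip hC a.2 b.2
    rw [Subtype.dist_eq, Subtype.dist_eq, dist_eq_norm, dist_eq_norm]
    have : (((1 / 2 : NNReal)) : ℝ) = 1 / 2 := by norm_num
    rw [this]
    exact h
  have hL := P.Lam_ge'
  have hx0 : ((-P.Lam : ℝ) : ℂ) ∈ H := by
    show ((-P.Lam : ℝ) : ℂ).re ≤ -P.Lam / 2
    rw [Complex.ofReal_re]; linarith
  obtain ⟨y, hy, hfix, -⟩ := ContractingWith.exists_fixedPoint' hHc.isComplete hmaps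
    hcontr hx0 (edist_ne_top _ _)
  have hfix' : F y = y := hfix
  have hk : ∀ k : ℕ, ∀ z ∈ H, F^[k] z ∈ H ∧ ‖F^[k] z - y‖ ≤ (1 / 2) ^ k * ‖z - y‖ := by
    intro k
    induction k with
    | zero => intro z hz; simpa using hz
    | succ k ih =>
      intro z hz
      obtain ⟨i1, i2⟩ := ih z hz
      rw [Function.iterate_succ_apply']
      refine ⟨hmaps i1, ?_⟩
      have h1 := P.julf_lip hC i1 hy
      rw [← hF, hfix'] at h1
      refine h1.trans ?_
      rw [pow_succ]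
      linarith
  refine ⟨y, fun ε hε => ?_⟩
  have ht : Tendsto (fun k : ℕ => (1 / 2 : ℝ) ^ k * (4 * P.Lam + ‖y‖)) atTop (𝓝 0) := by
    have := (tendsto_pow_atTop_nhds_zero_of_lt_one (r := (1 / 2 : ℝ)) (by norm_num)
      (by norm_num)).mul_const (4 * P.Lam + ‖y‖)
    simpa using this
  have h2 := ht.eventually_lt_const hε
  obtain ⟨k0, hk0⟩ := eventually_atTop.1 h2
  refine eventually_atTop.2 ⟨k0 + 1, fun k hk' z hz => ?_⟩
  obtain ⟨j, rfl⟩ : ∃ j, k = j + 1 := ⟨k - 1, by omega⟩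
  rw [Function.iterate_succ_apply]
  have h3 := (hk j (F z) (hmaps hz)).2
  have h4 : ‖F z‖ ≤ 4 * P.Lam := (P.julf_H hC hz).2.1
  have h5 : ‖F z - y‖ ≤ 4 * P.Lam + ‖y‖ := (norm_sub_le _ _).trans (by linarith)
  calc ‖F^[j] (F z) - y‖ ≤ (1 / 2) ^ j * ‖F z - y‖ := h3
    _ ≤ (1 / 2) ^ j * (4 * P.Lam + ‖y‖) := mul_le_mul_of_nonneg_left h5 (by positivity)
    _ < ε := hk0 j (by omega)

theorem julf_out (hC : C.Good) {z : ℂ} (hz : z ∉ P.JJ) : ∃ U ∈ 𝓝 z, ∃ q : ℕ, 0 < q ∧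
    ∃ p : ℕ → ℂ, ∀ r < q, TendstoUniformlyOn (fun n : ℕ => P.f^[q * n + r]) (fun _ => p r)
      atTop U := by
  obtain ⟨N, hN⟩ : ∃ N : ℕ, (P.f^[N] z).re < -P.Lam / 2 := by
    have h1 : ∃ n : ℕ, P.f^[n] z ∈ P.A := by
      by_contra hcon
      apply hz
      intro n hn
      exact hcon ⟨n, hn⟩
    obtain ⟨n, hn⟩ := h1
    obtain ⟨k, hk⟩ := P.basin hC hn
    refine ⟨k + n, ?_⟩
    rw [Function.iterate_add_apply]
    exact hk
  set U : Set ℂ := {x : ℂ | (P.f^[N] x).re < -P.Lam / 2} with hU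
  have hUo : IsOpen U := isOpen_lt (Complex.continuous_re.comp (P.julf_cont N)) continuous_const
  obtain ⟨y, hy⟩ := P.julf_conv hC
  refine ⟨U, hUo.mem_nhds hN, C.m + 2, by omega,
    fun r => P.f^[((C.m + 2) * N - N + r) % (C.m + 2)] y, ?_⟩
  intro r hr
  set q := C.m + 2 with hq
  set s := q * N - N + r with hs
  rw [Metric.tendstoUniformlyOn_iff]
  intro ε hε
  have hc := Metric.continuous_iff.1 (P.julf_cont (s % q)) y ε hε
  obtain ⟨δ, hδ, hδ'⟩ := hc
  obtain ⟨k0, hk0⟩ := eventually_atTop.1 (hy δ hδ)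
  refine eventually_atTop.2 ⟨N + k0, fun n hn x hx => ?_⟩
  have e1 : q * n + r = s % q + (q * ((n - N) + s / q) + N) := by
    obtain ⟨d, rfl⟩ : ∃ d, n = N + d := ⟨n - N, by omega⟩
    have h1 : N + d - N = d := by omega
    have h2 : q * (s / q) + s % q = s := Nat.div_add_mod s q
    have h3 : N ≤ q * N := by rw [hq]; nlinarith
    rw [h1, Nat.mul_add, Nat.mul_add]
    omega
  have e2 : P.f^[q * n + r] x = P.f^[s % q] ((P.f^[q])^[(n - N) + s / q] (P.f^[N] x)) := by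
    rw [e1, Function.iterate_add_apply, Function.iterate_add_apply, Function.iterate_mul]
  show dist (P.f^[s % q] y) (P.f^[q * n + r] x) < ε
  rw [e2, dist_comm]
  apply hδ'
  rw [dist_eq_norm]
  exact hk0 _ ((by omega : k0 ≤ n - N).trans (Nat.le_add_right _ _)) _ (le_of_lt hx)

theorem Jul_sub_JJ (hC : C.Good) : Jul P.lam ⊆ P.JJ := by
  intro z hz
  by_contra hzJ
  apply hz
  obtain ⟨U, hU, q, hq, p, hp⟩ := P.julf_out hC hzJ
  refine ⟨U, hU, ?_⟩
  intro φ hφ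
  have hfreq : ∃ r < q, ∃ᶠ k in atTop, φ k % q = r := by
    by_contra hcon
    push Not at hcon
    have h1 : ∀ r ∈ Finset.range q, ∀ᶠ k in atTop, φ k % q ≠ r := by
      intro r hr
      have := hcon r (Finset.mem_range.1 hr)
      exact this
    have h2 : ∀ᶠ k in atTop, ∀ r ∈ Finset.range q, φ k % q ≠ r :=
      (Filter.eventually_all_finset _).2 h1
    obtain ⟨k, hk⟩ := h2.exists
    exact hk (φ k % q) (Finset.mem_range.2 (Nat.mod_lt _ hq)) rfl
  obtain ⟨r, hr, hfr⟩ := hfreq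
  obtain ⟨ψ, hψ, hψr⟩ := Filter.extraction_of_frequently_atTop hfr
  refine ⟨ψ, hψ, Or.inl ⟨fun _ => p r, ?_⟩⟩
  have h3 := hp r hr
  have h4 : Tendsto (fun k => φ (ψ k) / q) atTop atTop := by
    have h5 : Tendsto (fun k => φ (ψ k)) atTop atTop := (hφ.comp hψ).tendsto_atTop
    exact (Nat.tendsto_div_const_atTop hq.ne').comp h5
  have h6 : TendstoUniformlyOn (fun k : ℕ => P.f^[q * (φ (ψ k) / q) + r]) (fun _ => p r)
      atTop U := by
    intro u hu
    exact h4.eventually (h3 u hu)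
  have h7 : (fun k : ℕ => P.f^[q * (φ (ψ k) / q) + r]) = fun k : ℕ => P.f^[φ (ψ k)] := by
    funext k
    have : q * (φ (ψ k) / q) + r = φ (ψ k) := by
      have := Nat.div_add_mod (φ (ψ k)) q
      rw [hψr k] at this
      exact this
    rw [this]
  rw [h7] at h6
  exact h6.tendstoLocallyUniformlyOn

end Par

end PJ
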