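import Pool.Agent.Lib.H31J.AExp

/-!
# Chunk A-JULJ: points of `JJ` are in the Julia set

Let `z ∈ JJ` and suppose `U ∈ 𝓝 z` is as in the definition of `Jul`; let `ball z r ⊆ U`, `0 < r`.  Take `φ = id`, get
`ψ`, `n_k = ψ k → ∞`.  `‖(f^n)'(z)‖ = ∏_{l=1}^{n} ‖f^l z‖ = (∏_{l<n} ‖f^l z‖) ‖f^n z‖/‖z‖ ≥ c κ^n ‖f^n z‖/‖z‖`
(`prod_bound`, `JJ ⊆ D`).
(a) locally uniform convergence on `U`, hence on the open ball: the derivatives converge (`TendstoLocallyUniformlyOn.deriv`), so
they are bounded at `z`; but `‖f^n z‖ ≥ ρ` (`ball_sub_A`): contradiction.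
(b) `f^{n_k} → ∞` uniformly on `closedBall z (r/2)`: for large `k`, `‖f^{n_k}‖ > ‖lam‖ e` there, so `h = f^{n_k - 1}` has
`Re h > 1` on it (`‖f^{n}‖ = ‖lam‖ exp(Re f^{n-1})`).  Schwarz lemma (`Complex.norm_deriv_le_div_of_mapsTo_ball`) for
`(h - h z)/(h + conj (h z))`, which maps `ball z (r/2)` into the unit disc: `‖h'(z)‖ ≤ 2 Re h(z)/(r/2) ≤ 4‖h z‖/r`.  But
`‖h'(z)‖ ≥ c κ^{n_k-1} ‖h z‖/‖z‖`: contradiction for large `k`.
-/

set_option autoImplicit false

namespace PJ

namespace Par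

open Set Filter Topology

variable {C : Comb} (P : Par C)

theorem julj_cauchy {g : ℂ → ℂ} {z : ℂ} {r B : ℝ} (hr : 0 < r)
    (hg : DifferentiableOn ℂ g (Metric.ball z r)) (h : ∀ w ∈ Metric.ball z r, |(g w).im| ≤ B) :
    ‖deriv g z‖ ≤ Real.exp B / (r / 2) * Real.exp B := by
  set E : ℂ → ℂ := fun w => Complex.exp (-Complex.I * g w) with hE
  have hEd : DifferentiableOn ℂ E (Metric.ball z r) := (hg.const_mul _).cexp
  have e1 : ∀ w, ‖E w‖ = Real.exp (g w).im := by
    intro w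
    rw [hE]
    simp only [Complex.norm_exp]
    congr 1
    simp
  have hEn : ∀ w ∈ Metric.ball z r, ‖E w‖ ≤ Real.exp B := by
    intro w hw
    rw [e1]
    exact Real.exp_le_exp.2 ((le_abs_self _).trans (h w hw))
  have hEz : ‖deriv E z‖ ≤ Real.exp B / (r / 2) :=
    Complex.norm_deriv_le_of_forall_mem_sphere_norm_le (by positivity)
      (hEd.diffContOnCl_ball (Metric.closedBall_subset_ball (by linarith)))
      (fun w hw => hEn w (Metric.sphere_subset_closedBall.trans
        (Metric.closedBall_subset_ball (by linarith)) hw))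
  have hzb : z ∈ Metric.ball z r := Metric.mem_ball_self hr
  have h1 : HasDerivAt g (deriv g z) z :=
    (hg.differentiableAt (Metric.isOpen_ball.mem_nhds hzb)).hasDerivAt
  have h2 : HasDerivAt (fun w => -Complex.I * g w) (-Complex.I * deriv g z) z := h1.const_mul _
  have h4 : deriv E z = E z * (-Complex.I * deriv g z) := h2.cexp.deriv
  rw [h4, norm_mul, norm_mul, norm_neg, Complex.norm_I, one_mul, e1] at hEz
  have h5 : Real.exp (-B) ≤ Real.exp (g z).im := Real.exp_le_exp.2 (abs_le.1 (h z hzb)).1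
  have h6 : Real.exp (-B) * ‖deriv g z‖ ≤ Real.exp B / (r / 2) :=
    (mul_le_mul_of_nonneg_right h5 (norm_nonneg _)).trans hEz
  calc ‖deriv g z‖ = (Real.exp (-B) * ‖deriv g z‖) * Real.exp B := by
        rw [Real.exp_neg]; field_simp
    _ ≤ _ := mul_le_mul_of_nonneg_right h6 (Real.exp_pos _).le

theorem julj_deriv (n : ℕ) (z : ℂ) :
    HasDerivAt (P.f^[n]) (∏ l ∈ Finset.range n, P.f^[l + 1] z) z := by
  induction n with
  | zero => simpa using hasDerivAt_id z
  | succ n ih =>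
    have h1 : HasDerivAt P.f (P.f (P.f^[n] z)) (P.f^[n] z) :=
      (Complex.hasDerivAt_exp (P.f^[n] z)).const_mul P.lam
    have h2 := h1.comp z ih
    rw [Finset.prod_range_succ, mul_comm, Function.iterate_succ']
    exact h2

theorem julj_diff (n : ℕ) : Differentiable ℂ (P.f^[n]) :=
  fun z => (P.julj_deriv n z).differentiableAt

theorem julj_f_JJ {z : ℂ} (hz : z ∈ P.JJ) (n : ℕ) : P.f^[n] z ∈ P.JJ := by
  intro k
  rw [← Function.iterate_add_apply]
  exact hz _

theorem julj_growth (hC : C.Good) : ∃ c κ : ℝ, 0 < c ∧ 1 < κ ∧ ∀ z ∈ P.JJ, ∀ n : ℕ,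
    c * κ ^ n ≤ ‖∏ l ∈ Finset.range n, P.f^[l + 1] z‖ := by
  obtain ⟨c, κ, hc, hκ, hb⟩ := P.prod_bound hC
  refine ⟨c, κ, hc, hκ, ?_⟩
  intro z hz n
  have h1 := hb n (P.f z) (fun l _ => P.julj_f_JJ hz 1 l)
  rw [norm_prod]
  simpa [Function.iterate_succ_apply] using h1

theorem JJ_sub_Jul (hC : C.Good) : P.JJ ⊆ Jul P.lam := by
  obtain ⟨c, κ, hc, hκ, hb⟩ := P.julj_growth hC
  intro z hz
  have htend : Tendsto (fun n : ℕ => c * κ ^ n) atTop atTop :=
    (tendsto_pow_atTop_atTop_of_one_lt hκ).const_mul_atTop hc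
  have hgrow : Tendsto (fun n : ℕ => ‖∏ l ∈ Finset.range n, P.f^[l + 1] z‖) atTop atTop :=
    tendsto_atTop_mono (fun n => hb z hz n) htend
  rintro ⟨U, hU, hnorm⟩
  obtain ⟨ψ, hψ, hcase⟩ := hnorm id strictMono_id
  rcases hcase with ⟨g, hg⟩ | hinf
  · -- locally uniform limit
    set V := interior U with hV
    have hVo : IsOpen V := isOpen_interior
    have hzV : z ∈ V := mem_interior_iff_mem_nhds.2 hU
    have hg' : TendstoLocallyUniformlyOn (fun k : ℕ => P.f^[ψ k]) g atTop V :=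
      hg.mono interior_subset
    have hder := hg'.deriv (Eventually.of_forall fun k => (P.julj_diff (ψ k)).differentiableOn)
      hVo
    have h1 : Tendsto (fun k => deriv (P.f^[ψ k]) z) atTop (𝓝 (deriv g z)) :=
      hder.tendsto_at hzV
    have h2 := h1.norm
    have h3 : Tendsto (fun k => ‖deriv (P.f^[ψ k]) z‖) atTop atTop := by
      have h4 : (fun k => ‖deriv (P.f^[ψ k]) z‖) =
          fun k => ‖∏ l ∈ Finset.range (ψ k), P.f^[l + 1] z‖ := by
        funext k
        rw [(P.julj_deriv (ψ k) z).deriv]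
      rw [h4]
      exact hgrow.comp hψ.tendsto_atTop
    exact not_tendsto_nhds_of_tendsto_atTop h3 _ h2
  · -- escape
    obtain ⟨r, hr, hrU⟩ := Metric.mem_nhds_iff.1 hU
    have hK : Metric.closedBall z (r / 2) ⊆ U :=
      (Metric.closedBall_subset_ball (by linarith)).trans hrU
    have h1 := hinf _ hK (isCompact_closedBall z (r / 2)) (‖P.lam‖ * Real.exp 1)
    set M : ℝ := Real.exp 2 / (r / 2 / 2) * Real.exp 2 with hM
    have h2 : ∀ᶠ k in atTop, M < c * κ ^ (ψ k - 2) := by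
      have h3 : Tendsto (fun k => ψ k - 2) atTop atTop :=
        (tendsto_sub_atTop_nat 2).comp hψ.tendsto_atTop
      exact (htend.comp h3).eventually_gt_atTop M
    have h4 : ∀ᶠ k in atTop, 2 ≤ ψ k := hψ.tendsto_atTop.eventually_ge_atTop 2
    obtain ⟨k, hk1, hk2, hk3⟩ := (h1.and (h2.and h4)).exists
    obtain ⟨n, hn⟩ : ∃ n, ψ k = n + 2 := ⟨ψ k - 2, by omega⟩
    rw [hn, Nat.add_sub_cancel] at hk2
    -- `h = f^[n+1]` has real part `> 1`
    have hre : ∀ x ∈ Metric.closedBall z (r / 2), 1 < (P.f^[n + 1] x).re := by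
      intro x hx
      have h5 : ‖P.lam‖ * Real.exp 1 < ‖P.f^[ψ k] x‖ := hk1 x hx
      rw [hn, Function.iterate_succ_apply'] at h5
      have h6 : ‖P.f (P.f^[n + 1] x)‖ = ‖P.lam‖ * Real.exp (P.f^[n + 1] x).re := by
        unfold f
        rw [norm_mul, Complex.norm_exp]
      rw [h6] at h5
      have h7 : 0 < ‖P.lam‖ := norm_pos_iff.2 (P.lam_ne hC)
      exact Real.exp_lt_exp.1 (lt_of_mul_lt_mul_left h5 h7.le)
    have hslit : ∀ x ∈ Metric.ball z (r / 2), P.f^[n + 1] x ∈ Complex.slitPlane := by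
      intro x hx
      left
      have := hre x (Metric.ball_subset_closedBall hx)
      linarith
    have hgd : DifferentiableOn ℂ (fun x => Complex.log (P.f^[n + 1] x))
        (Metric.ball z (r / 2)) :=
      (P.julj_diff (n + 1)).differentiableOn.clog hslit
    have him : ∀ x ∈ Metric.ball z (r / 2), |(Complex.log (P.f^[n + 1] x)).im| ≤ 2 := by
      intro x hx
      rw [Complex.log_im]
      have h8 : |Complex.arg (P.f^[n + 1] x)| ≤ Real.pi / 2 := by
        rw [Complex.abs_arg_le_pi_div_two_iff]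
        have := hre x (Metric.ball_subset_closedBall hx)
        linarith
      have := Real.pi_le_four
      linarith
    have hC1 := julj_cauchy (by linarith : 0 < r / 2) hgd him
    have hzb : z ∈ Metric.ball z (r / 2) := Metric.mem_ball_self (by linarith)
    have hd : deriv (fun x => Complex.log (P.f^[n + 1] x)) z =
        (∏ l ∈ Finset.range (n + 1), P.f^[l + 1] z) / P.f^[n + 1] z :=
      ((P.julj_deriv (n + 1) z).clog (hslit z hzb)).deriv
    have hne : P.f^[n + 1] z ≠ 0 := Complex.slitPlane_ne_zero (hslit z hzb)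
    rw [hd, Finset.prod_range_succ, mul_div_assoc, div_self hne, mul_one] at hC1
    have h9 := hb z hz n
    linarith

end Par

end PJ
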