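import Pool.Agent.Lib.H31J.APhi

/-!
# Chunk A-LIFT: graphs and the logarithm

`circle`: let `i ≤ m`, `q` on the graph of `φ_i` with `Re q ≥ Λ` (`Im q = φ_i (Re q)`), `‖w‖ = ‖q‖`,
`Re w ≥ 0`.  Then `φ_i (Re w) < Im w ↔ arg q < arg w`, and `arg q < arg w ↔ Im q < Im w`
(both in the closed right half plane, same modulus).  Proof: `|Re w - Re q| ≤ 10 |Im w - Im q|`:
`(Re w)² + (Im w)² = (Re q)² + (Im q)²`, `|Im q| ≤ 20`, `Re q ≥ Λ ≥ 10^6`:
`|Re w - Re q| (Re w + Re q) = |Im w - Im q| |Im w + Im q|`, `|Im w + Im q| ≤ 2‖q‖ ≤ 3 Re q`.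
So `|φ_i(Re w) - Im q| = |φ_i(Re w) - φ_i(Re q)| ≤ |Re w - Re q|/1000 ≤ |Im w - Im q|/100`, and
`Im w - φ_i(Re w)` has the sign of `Im w - Im q`.

`lift`: let `i < m`, `z = Log w - Log lam + 2πi x`, `x ∈ ℤ`, `w ∈ ℂ`, `Re w ≥ Λ`, `Re z ≥ Λ`.  Then `φ_i(Re z) < Im z` iff
`sg i < x` or (`sg i = x` and `φ_{i+1}(Re w) < Im w`), and the same with `>` and `=` replaced
(`φ_i(Re z) = Im z` iff `sg i = x` and `φ_{i+1}(Re w) = Im w`).  Proof: `Re z ≥ Λ ≥ Re v_i`, so by `phi_mem`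
`Re z + iφ_i(Re z) = g i (v m + t)` for some `t ≥ 0`, `= Log q - Log lam + 2πi sg i` with
`q = g (i+1) (v m + t)` on the curve `i+1`; `‖q‖ = ‖w‖` (real parts), `Re q ≥ Λ - 1`… (`|Im q| ≤ 20`, `‖q‖ = ‖w‖ ≥ ` huge:
`log ‖w‖ ≥ Λ + log ‖lam‖`).  So `Im z - φ_i(Re z) = arg w - arg q + 2π (x - sg i)`, `|arg w| ≤ π/2`,
`|arg q|` small; use `circle` if `x = sg i`.
`lift_last`: for `i = m`: `φ_m = π - arg lam` and `Im z = arg w - arg lam + 2πx`: above iff `x ≥ 1`.

-/

set_option autoImplicit false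

namespace PJ

namespace Par

open Set Filter

variable {C : Comb} (P : Par C)

theorem lift_arg_iff {q w : ℂ} (hq0 : 0 < ‖q‖) (hn : ‖w‖ = ‖q‖) (hq : 0 ≤ q.re) (hw : 0 ≤ w.re) :
    q.arg < w.arg ↔ q.im < w.im := by
  have hq1 := Complex.abs_im_le_norm q
  have hw1 := Complex.abs_im_le_norm w
  rw [Complex.arg_of_re_nonneg hq, Complex.arg_of_re_nonneg hw, hn]
  have hqm : q.im / ‖q‖ ∈ Icc (-1 : ℝ) 1 := by
    rw [abs_le] at hq1
    constructor
    · rw [le_div_iff₀ hq0]; linarith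
    · rw [div_le_iff₀ hq0]; linarith
  have hwm : w.im / ‖q‖ ∈ Icc (-1 : ℝ) 1 := by
    rw [hn, abs_le] at hw1
    constructor
    · rw [le_div_iff₀ hq0]; linarith
    · rw [div_le_iff₀ hq0]; linarith
  rw [Real.strictMonoOn_arcsin.lt_iff_lt hqm hwm, div_lt_div_iff_of_pos_right hq0]

theorem lift_close (hC : C.Good) {i : ℕ} (hi : i ≤ C.m) {q w : ℂ} (hq : q.im = P.phi i q.re)
    (hqr : 1000 ≤ q.re) (hn : ‖w‖ = ‖q‖) (hw : 0 ≤ w.re) :
    |P.phi i w.re - q.im| ≤ |w.im - q.im| / 100 := by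
  have h1 := P.phi_lip hC hi w.re q.re
  rw [← hq] at h1
  have h2 : |q.im| ≤ 20 := by rw [hq]; exact P.phi_bd hC hi _
  have h3 : ‖q‖ ≤ q.re + 20 := by
    have h4 := Complex.norm_le_abs_re_add_abs_im q
    rw [abs_of_nonneg (by linarith : (0 : ℝ) ≤ q.re)] at h4
    linarith
  have h5 : ‖w‖ ^ 2 = ‖q‖ ^ 2 := by rw [hn]
  rw [← Complex.normSq_eq_norm_sq, ← Complex.normSq_eq_norm_sq, Complex.normSq_apply,
    Complex.normSq_apply] at h5
  have h6 : (w.re - q.re) * (w.re + q.re) = (q.im - w.im) * (q.im + w.im) := by nlinarith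
  have h7 : |w.re - q.re| * (w.re + q.re) = |w.im - q.im| * |q.im + w.im| := by
    rw [← abs_of_nonneg (by linarith : (0 : ℝ) ≤ w.re + q.re), ← abs_mul, h6, abs_mul,
      abs_sub_comm]
  have h8 : |q.im + w.im| ≤ 3 * q.re := by
    have h9 := Complex.abs_im_le_norm w
    rw [hn] at h9
    calc |q.im + w.im| ≤ |q.im| + |w.im| := abs_add_le _ _
      _ ≤ 20 + (q.re + 20) := by linarith
      _ ≤ 3 * q.re := by linarith
  have h10 : |w.re - q.re| * q.re ≤ |w.im - q.im| * 3 * q.re := by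
    calc |w.re - q.re| * q.re ≤ |w.re - q.re| * (w.re + q.re) :=
          mul_le_mul_of_nonneg_left (by linarith) (abs_nonneg _)
      _ = |w.im - q.im| * |q.im + w.im| := h7
      _ ≤ |w.im - q.im| * (3 * q.re) := mul_le_mul_of_nonneg_left h8 (abs_nonneg _)
      _ = |w.im - q.im| * 3 * q.re := by ring
  have h11 : |w.re - q.re| ≤ |w.im - q.im| * 3 := le_of_mul_le_mul_right h10 (by linarith)
  have := abs_nonneg (w.im - q.im)
  linarith

theorem circle (hC : C.Good) {i : ℕ} (hi : i ≤ C.m) {q w : ℂ} (hq : q.im = P.phi i q.re)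
    (hqr : 1000 ≤ q.re) (hn : ‖w‖ = ‖q‖) (hw : 0 ≤ w.re) :
    (P.phi i w.re < w.im ↔ q.arg < w.arg) ∧ (w.im < P.phi i w.re ↔ w.arg < q.arg) := by
  have hq0 : 0 < ‖q‖ := by
    have := Complex.re_le_norm q
    linarith
  have hc := P.lift_close hC hi hq hqr hn hw
  rw [abs_le] at hc
  rw [lift_arg_iff hq0 hn (by linarith) hw, lift_arg_iff (hn ▸ hq0) hn.symm hw (by linarith)]
  constructor
  · constructor
    · intro h
      by_contra h'
      push Not at h'
      rw [abs_of_nonpos (by linarith)] at hc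
      linarith
    · intro h
      rw [abs_of_nonneg (by linarith)] at hc
      linarith
  · constructor
    · intro h
      by_contra h'
      push Not at h'
      rw [abs_of_nonneg (by linarith)] at hc
      linarith
    · intro h
      rw [abs_of_nonpos (by linarith)] at hc
      linarith

theorem lift_ray_mem (hC : C.Good) {t : ℝ} (ht : 0 ≤ t) : P.v C.m + (t : ℂ) ∈ P.U :=
  P.K_sub_U (Or.inr ⟨t, ht, rfl⟩)

theorem lift_v_re_le (hC : C.Good) {i : ℕ} (hi : i ≤ C.m) : (P.v i).re ≤ P.Lam := by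
  rcases Nat.eq_zero_or_pos i with rfl | h
  · rw [P.v0]
    have := P.Lam_ge'
    simp only [Complex.zero_re]
    linarith
  · have h1 := P.v_re h hi
    have h2 := P.Lam_ge hC h hi
    have h3 := P.r_ge h
    have h4 := P.R_ge
    linarith [h1.2.1]

theorem lift_im {w lam : ℂ} {x : ℤ} :
    (Complex.log w - Complex.log lam + 2 * Real.pi * Complex.I * (x : ℂ)).im =
      w.arg - lam.arg + 2 * Real.pi * (x : ℝ) := by
  simp [Complex.log_im]

theorem lift_re {w lam : ℂ} {x : ℤ} :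
    (Complex.log w - Complex.log lam + 2 * Real.pi * Complex.I * (x : ℂ)).re =
      Real.log ‖w‖ - Real.log ‖lam‖ := by
  simp [Complex.log_re]

/-- the key identity -/
theorem lift_key (hC : C.Good) {i : ℕ} (hi : i < C.m) {z w : ℂ} {x : ℤ}
    (hz : z = Complex.log w - Complex.log P.lam + 2 * Real.pi * Complex.I * (x : ℂ))
    (hzr : P.Lam ≤ z.re) :
    ∃ q : ℂ, q.im = P.phi (i + 1) q.re ∧ 1000 ≤ q.re ∧ ‖w‖ = ‖q‖ ∧
      z.im - P.phi i z.re = w.arg - q.arg + 2 * Real.pi * ((x : ℝ) - (C.sg i : ℝ)) := by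
  have hL := P.Lam_ge'
  obtain ⟨t, ht, hgt⟩ := P.phi_mem hC hi.le ((P.lift_v_re_le hC hi.le).trans hzr)
  have hU := P.lift_ray_mem hC ht
  have hg := P.g_succ hi (P.v C.m + (t : ℂ))
  rw [hgt] at hg
  set q := P.g (i + 1) (P.v C.m + (t : ℂ)) with hq
  have hqr : 1000 ≤ q.re := by
    have h1 := P.g_re hC (Nat.succ_pos i) hi hU
    have h2 := P.r_ge (Nat.succ_pos i)
    have h3 := P.R_ge
    simp only [Nat.succ_eq_add_one] at h1 h2
    linarith
  have hqn : 0 < ‖q‖ := by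
    have := Complex.re_le_norm q
    linarith
  have hre := congrArg Complex.re hg
  have him := congrArg Complex.im hg
  rw [lift_re] at hre
  rw [lift_im] at him
  simp only [Complex.add_re, Complex.ofReal_re, Complex.mul_re, Complex.I_re, mul_zero,
    Complex.ofReal_im, Complex.I_im, mul_one, sub_self, add_zero, Complex.add_im,
    Complex.mul_im, zero_add] at hre him
  have hzre : z.re = Real.log ‖w‖ - Real.log ‖P.lam‖ := by rw [hz, lift_re]
  have hlog : Real.log ‖w‖ = Real.log ‖q‖ := by linarith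
  have hlp := P.log_lam_pos hC
  have hwn : 0 < ‖w‖ := by
    rcases (norm_nonneg w).eq_or_lt with h | h
    · rw [← h, Real.log_zero] at hzre
      linarith
    · exact h
  refine ⟨q, (P.phi_curve hC hi ht).symm, hqr, Real.log_injOn_pos hwn hqn hlog, ?_⟩
  rw [him, hz, lift_im]
  ring

theorem lift (hC : C.Good) {i : ℕ} (hi : i < C.m) {z w : ℂ} {x : ℤ}
    (hz : z = Complex.log w - Complex.log P.lam + 2 * Real.pi * Complex.I * (x : ℂ))
    (hw : 0 ≤ w.re) (hzr : P.Lam ≤ z.re) :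
    (P.phi i z.re < z.im ↔ (C.sg i < x ∨ (C.sg i = x ∧ P.phi (i + 1) w.re < w.im))) ∧
    (z.im < P.phi i z.re ↔ (x < C.sg i ∨ (C.sg i = x ∧ w.im < P.phi (i + 1) w.re))) := by
  obtain ⟨q, hq, hqr, hn, hkey⟩ := P.lift_key hC hi hz hzr
  have hc := P.circle hC hi hq hqr hn hw
  have hpi := Real.pi_pos
  have h1 : |w.arg| ≤ Real.pi / 2 := Complex.abs_arg_le_pi_div_two_iff.mpr hw
  have h2 : |q.arg| ≤ Real.pi / 2 := Complex.abs_arg_le_pi_div_two_iff.mpr (by linarith)
  rw [abs_le] at h1 h2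
  rw [hc.1, hc.2]
  rcases lt_trichotomy (C.sg i) x with h | h | h
  · have h3 : (1 : ℝ) ≤ (x : ℝ) - (C.sg i : ℝ) := by
      have : C.sg i + 1 ≤ x := h
      have : (C.sg i : ℝ) + 1 ≤ (x : ℝ) := by exact_mod_cast this
      linarith
    have h4 : 2 * Real.pi ≤ 2 * Real.pi * ((x : ℝ) - (C.sg i : ℝ)) := by nlinarith
    have h5 : P.phi i z.re < z.im := by linarith
    constructor
    · exact ⟨fun _ => Or.inl h, fun _ => h5⟩
    · constructor
      · intro h6; linarith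
      · rintro (h6 | ⟨h6, _⟩)
        · omega
        · omega
  · have h3 : (x : ℝ) - (C.sg i : ℝ) = 0 := by rw [h]; ring
    rw [h3, mul_zero, add_zero] at hkey
    constructor
    · constructor
      · intro h6
        exact Or.inr ⟨h, by linarith⟩
      · rintro (h6 | ⟨_, h6⟩)
        · omega
        · linarith
    · constructor
      · intro h6
        exact Or.inr ⟨h, by linarith⟩
      · rintro (h6 | ⟨_, h6⟩)
        · omega
        · linarith
  · have h3 : (x : ℝ) - (C.sg i : ℝ) ≤ -1 := by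
      have : x + 1 ≤ C.sg i := h
      have : (x : ℝ) + 1 ≤ (C.sg i : ℝ) := by exact_mod_cast this
      linarith
    have h4 : 2 * Real.pi * ((x : ℝ) - (C.sg i : ℝ)) ≤ -(2 * Real.pi) := by nlinarith
    have h5 : z.im < P.phi i z.re := by linarith
    constructor
    · constructor
      · intro h6; linarith
      · rintro (h6 | ⟨h6, _⟩)
        · omega
        · omega
    · exact ⟨fun _ => Or.inl h, fun _ => h5⟩

theorem lift_last (hC : C.Good) {z w : ℂ} {x : ℤ}
    (hz : z = Complex.log w - Complex.log P.lam + 2 * Real.pi * Complex.I * (x : ℂ))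
    (hw : 0 ≤ w.re) (hw0 : w ≠ 0) :
    (P.phi C.m z.re < z.im ↔ 1 ≤ x) ∧ P.phi C.m z.re ≠ z.im := by
  have him : z.im = w.arg - P.lam.arg + 2 * Real.pi * (x : ℝ) := by rw [hz, lift_im]
  have hpi := Real.pi_pos
  have h1 : |w.arg| ≤ Real.pi / 2 := Complex.abs_arg_le_pi_div_two_iff.mpr hw
  rw [abs_le] at h1
  rw [P.phi_last hC, him]
  rcases le_or_gt 1 x with h | h
  · have h3 : (1 : ℝ) ≤ (x : ℝ) := by exact_mod_cast h
    have h4 : 2 * Real.pi ≤ 2 * Real.pi * (x : ℝ) := by nlinarith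
    refine ⟨⟨fun _ => h, fun _ => by linarith⟩, ?_⟩
    intro h5
    linarith
  · have h3 : (x : ℝ) ≤ 0 := by
      have : x ≤ 0 := by omega
      exact_mod_cast this
    have h4 : 2 * Real.pi * (x : ℝ) ≤ 0 := by nlinarith
    refine ⟨⟨fun h5 => by linarith, fun h5 => by omega⟩, ?_⟩
    intro h5
    linarith

end Par

end PJ
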