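import Pool.Agent.Lib.H31J.AGlim

/-!
# Chunk A-SURJ: properness, image and fibres of the parametrization

* `proper`: `Conn D (b p) (G p) M` and `size` give `1 + t + 2π|u_0| ≤ exp (2M) ‖G p‖` up to constants.
* `G_cons`: `G (consPt j p) = L j (G p)` (`step`, `shift_cons`, `cons_zero`).
* `image_closed`: the image of `LL` is closed: locally it is the image of a compact set
  (`proper`, `LL_compact`, `cont`).
* `near_JJ`: every `z ∈ JJ` satisfies `Conn D z (G p) M` for some `p ∈ LL`: if `Re z ≥ Λ` by `Base.near` and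
  `Para.near`.  If `Re z < Λ`: `w = f z ∈ JJ`, `‖w‖ ≤ ‖lam‖ exp Λ`; `JJ ∩ closedBall 0 (…)` is a compact subset of `D`; with a fixed
  `p₀ ∈ LL`, `Conn.compact` (applied to the union with `{G p₀}`) gives `Conn D w (G p₀) M'`; `z = L j w` for some `j`
  (`exists_L`), `contr1`, `G_cons`.
* `surj`: let `z ∈ JJ` with itinerary `j` (`itin`).  For each `n` let `p_n ∈ LL` with `Conn D (f^n z) (G p_n) M`; then
  `Conn D z (G q_n) (M' κ^{-n} M)` with `q_n = j_0 … j_{n-1} p_n ∈ LL` (`contr`, `Lw_iter`, `G_cons`), so `G q_n → z`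
  (`dist_le`); the image is closed.
-/

set_option autoImplicit false

namespace PJ

namespace Par

open Set Filter

variable {C : Comb} (P : Par C)

theorem Para.proper (hC : C.Good) {b G : Pt → ℂ} (hb : P.Base b) (hG : P.Para b G) :
    ∀ R : ℝ, ∃ B : ℝ, ∀ p ∈ C.LL, ‖G p‖ ≤ R → p.2.2 ≤ B ∧ |(p.1 0 : ℝ)| ≤ B := by
  intro R
  obtain ⟨M1, hM1⟩ := hG.near
  obtain ⟨M2, hM2⟩ := hb.size
  have h0 := P.zero_notin hC
  refine ⟨Real.exp (Real.log (max R 1) + M1 + M2), ?_⟩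
  intro p hp hR
  have hGD : G p ∈ P.D := P.JJ_sub_D (hG.mem p hp)
  have hG0 : 0 < ‖G p‖ := norm_pos_iff.2 fun h => h0 (h ▸ hGD)
  have h1 := (abs_le.1 ((hM1 p hp).log_le h0)).2
  have h2 := (abs_le.1 (hM2 p hp)).1
  have h3 : Real.log ‖G p‖ ≤ Real.log (max R 1) :=
    Real.log_le_log hG0 (hR.trans (le_max_left _ _))
  have ht := LL_nonneg C hp
  have hu : 0 ≤ |(p.1 0 : ℝ)| := abs_nonneg _
  have hpi := Real.pi_gt_three
  have hpos : 0 < 1 + p.2.2 + 2 * Real.pi * |(p.1 0 : ℝ)| := by positivity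
  have h4 : Real.log (1 + p.2.2 + 2 * Real.pi * |(p.1 0 : ℝ)|) ≤
      Real.log (max R 1) + M1 + M2 := by linarith
  have h5 := (Real.log_le_iff_le_exp hpos).1 h4
  have h6 : |(p.1 0 : ℝ)| ≤ 2 * Real.pi * |(p.1 0 : ℝ)| := by nlinarith
  have h7 : 0 ≤ 2 * Real.pi * |(p.1 0 : ℝ)| := by positivity
  constructor <;> linarith

theorem Para.G_cons (hC : C.Good) {b G : Pt → ℂ} (hG : P.Para b G) (j : ℤ) {p : Pt}
    (hp : p ∈ C.LL) : G (consPt C j p) = P.L j (G p) := by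
  have h := hG.step _ (cons_mem C j hp)
  rwa [shift_cons C j hp, cons_zero] at h

theorem Para.image_closed (hC : C.Good) {b G : Pt → ℂ} (hb : P.Base b) (hG : P.Para b G) :
    IsClosed (G '' C.LL) := by
  rw [← isSeqClosed_iff_isClosed]
  intro x a hx ha
  choose p hp hpx using hx
  obtain ⟨R, hR⟩ := ha.norm.bddAbove_range
  obtain ⟨B, hB⟩ := hG.proper P hC hb R
  have hK := LL_compact C B
  have hmem : ∀ n, p n ∈ {p : Pt | p ∈ C.LL ∧ p.2.2 ≤ B ∧ |(p.1 0 : ℝ)| ≤ B} := by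
    intro n
    refine ⟨hp n, hB _ (hp n) ?_⟩
    rw [hpx]
    exact hR ⟨n, rfl⟩
  obtain ⟨q, hq, φ, hφ, hlim⟩ := hK.isSeqCompact hmem
  refine ⟨q, hq.1, ?_⟩
  have h1 : Tendsto (fun n => G (p (φ n))) atTop (nhds (G q)) := by
    have h2 : Tendsto (fun n => p (φ n)) atTop (nhdsWithin q C.LL) :=
      tendsto_nhdsWithin_iff.2 ⟨hlim, Eventually.of_forall fun n => hp _⟩
    exact (hG.cont q hq.1).tendsto.comp h2
  have h3 : Tendsto (fun n => G (p (φ n))) atTop (nhds a) := by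
    have h4 : (fun n => G (p (φ n))) = fun n => x (φ n) := funext fun n => hpx _
    rw [h4]
    exact ha.comp hφ.tendsto_atTop
  exact tendsto_nhds_unique h1 h3

theorem Para.near_JJ (hC : C.Good) {b G : Pt → ℂ} (hb : P.Base b) (hG : P.Para b G) :
    ∃ M : ℝ, ∀ z ∈ P.JJ, ∃ p ∈ C.LL, Conn P.D z (G p) M := by
  obtain ⟨M1, hM1⟩ := hG.near
  obtain ⟨M3, hM3⟩ := hb.near
  obtain ⟨M4, hM4, hcon⟩ := P.contr1 hC
  have h0 := P.zero_notin hC
  obtain ⟨p0, hp0, -, -⟩ := exists_arc C hC 0 (Nat.zero_le _)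
  have hcomp : IsCompact ((P.JJ ∩ Metric.closedBall 0 (‖P.lam‖ * Real.exp P.Lam)) ∪ {G p0}) :=
    ((isCompact_closedBall _ _).inter_left (P.JJ_closed hC)).union isCompact_singleton
  have hsub : (P.JJ ∩ Metric.closedBall 0 (‖P.lam‖ * Real.exp P.Lam)) ∪ {G p0} ⊆ P.D := by
    rintro x (hx | hx)
    · exact P.JJ_sub_D hx.1
    · rw [mem_singleton_iff.1 hx]
      exact P.JJ_sub_D (hG.mem p0 hp0)
  obtain ⟨M', hM'⟩ := Conn.compact (P.D_open hC) h0 (P.D_conn hC) hcomp hsub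
  refine ⟨max (M3 + M1) (M4 * M'), ?_⟩
  intro z hz
  rcases le_or_gt P.Lam z.re with h | h
  · obtain ⟨p, hp, hc⟩ := hM3 z (P.JJ_sub_D hz) h
    exact ⟨p, hp, (hc.trans (hM1 p hp)).mono (le_max_left _ _)⟩
  · obtain ⟨j, hj⟩ := P.exists_L hC z
    have hw : P.f z ∈ (P.JJ ∩ Metric.closedBall 0 (‖P.lam‖ * Real.exp P.Lam)) ∪ {G p0} := by
      refine Or.inl ⟨P.f_JJ hz, ?_⟩
      rw [mem_closedBall_zero_iff]
      show ‖P.lam * Complex.exp z‖ ≤ _
      rw [norm_mul, Complex.norm_exp]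
      exact mul_le_mul_of_nonneg_left (Real.exp_le_exp.2 h.le) (norm_nonneg _)
    have h1 := hM' _ hw _ (Or.inr rfl)
    have h2 := hcon j _ _ _ h1
    rw [hj, ← hG.G_cons P hC j hp0] at h2
    exact ⟨consPt C j p0, cons_mem C j hp0, h2.mono (le_max_right _ _)⟩

theorem Para.ASurj_Lw (hC : C.Good) {b G : Pt → ℂ} (hG : P.Para b G) (w : List ℤ) {p : Pt}
    (hp : p ∈ C.LL) : ∃ q ∈ C.LL, P.Lw w (G p) = G q := by
  induction w with
  | nil => exact ⟨p, hp, rfl⟩
  | cons j w ih =>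
    obtain ⟨q, hq, h⟩ := ih
    refine ⟨consPt C j q, cons_mem C j hq, ?_⟩
    rw [hG.G_cons P hC j hq, ← h]
    rfl

theorem Para.surj (hC : C.Good) {b G : Pt → ℂ} (hb : P.Base b) (hG : P.Para b G) :
    G '' C.LL = P.JJ := by
  apply Subset.antisymm
  · rintro _ ⟨p, hp, rfl⟩
    exact hG.mem p hp
  · intro z hz
    obtain ⟨M, hM⟩ := hG.near_JJ P hC hb
    obtain ⟨M', κ, hM', hκ, hcon⟩ := P.contr hC
    obtain ⟨j, hj⟩ := P.itin hC z
    have h0 := P.zero_notin hC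
    have hiter : ∀ n : ℕ, P.f^[n] z ∈ P.JJ := by
      intro n
      induction n with
      | zero => exact hz
      | succ n ih => rw [Function.iterate_succ_apply']; exact P.f_JJ ih
    have hq : ∀ n : ℕ, ∃ q ∈ C.LL, Conn P.D z (G q) (M' * (κ⁻¹) ^ n * M) := by
      intro n
      obtain ⟨p, hp, hc⟩ := hM _ (hiter n)
      have h1 := hcon ((List.range n).map j) _ _ _ hc
      rw [P.Lw_iter j z hj n] at h1
      obtain ⟨q, hq, he⟩ := hG.ASurj_Lw P hC ((List.range n).map j) hp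
      rw [he] at h1
      exact ⟨q, hq, by simpa using h1⟩
    choose q hqL hqc using hq
    have hlim : Tendsto (fun n => G (q n)) atTop (nhds z) := by
      rw [tendsto_iff_norm_sub_tendsto_zero]
      have h1 : Tendsto (fun n : ℕ => ‖z‖ * (Real.exp (M' * (κ⁻¹) ^ n * M) - 1)) atTop
          (nhds 0) := by
        have h2 : Tendsto (fun n : ℕ => (κ⁻¹) ^ n) atTop (nhds 0) :=
          tendsto_pow_atTop_nhds_zero_of_lt_one (inv_nonneg.2 (by linarith))
            (inv_lt_one_of_one_lt₀ hκ)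
        have h3 : Tendsto (fun n : ℕ => M' * (κ⁻¹) ^ n * M) atTop (nhds 0) := by
          simpa using (h2.const_mul M').mul_const M
        have h4 := (((Real.continuous_exp.tendsto 0).comp h3).sub_const 1).const_mul ‖z‖
        simpa [Function.comp_def] using h4
      exact squeeze_zero (fun n => norm_nonneg _) (fun n => (hqc n).dist_le h0) h1
    have hcl := hG.image_closed P hC hb
    exact hcl.mem_of_tendsto hlim (Eventually.of_forall fun n => ⟨q n, hqL n, rfl⟩)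

end Par

end PJ
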