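import Pool.Agent.Lib.H31J.AGlim
import Pool.Agent.Lib.H31J.ASep

/-!
# Chunk A-TAIL: the hairs far to the right

* `im_bd`: `G p = L u_0 (…)` and `L_im`.  `re_bd`: `G p ∈ D`, `D_re`.
* `tail`: `‖G (u,e,s)‖ ≥ exp (-M) ‖b‖ ≥ exp(-M') (1+s) → ∞` (`size`), imaginary part bounded (`im_bd`), real part
  bounded below, so the real part tends to `+∞`.
* `branch`: `G p = L u_0 (G (shiftPt p)) = Log (…) - Log lam + 2πi (u_0 + bel (G (shiftPt p)))`.  For `s → ∞` the points
  `G (shiftPt p)` (`= G (shift u, shift e, T_1(s))`, `T_1(s) → ∞`) and `b (shiftPt p)` have real parts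
  `→ ∞` and are joined by `Conn D … M`; `sep`: `pos (G (shiftPt p)) = pos (b (shiftPt p)) = e_1`; `bel_eq`:
  `bel = 1` iff `e_1 ≤ rk 0`, i.e. `u_0 + bel = C.x (u 0) (e 1)`.
-/

set_option autoImplicit false

namespace PJ

namespace Par

open Set Filter

variable {C : Comb} (P : Par C)

theorem Para.im_bd (hC : C.Good) {b G : Pt → ℂ} (hG : P.Para b G) :
    ∀ p ∈ C.LL, |(G p).im - 2 * Real.pi * (p.1 0 : ℝ)| ≤ 10 := by
  intro p hp
  rw [hG.step p hp]
  exact P.L_im hC _ _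

theorem Para.re_bd {b G : Pt → ℂ} (hG : P.Para b G) :
    ∃ M : ℝ, ∀ p ∈ C.LL, -M ≤ (G p).re := by
  refine ⟨P.Lam / 2, fun p hp => ?_⟩
  have := P.D_re (P.JJ_sub_D (hG.mem p hp))
  linarith

theorem Para.tail (hC : C.Good) {b G : Pt → ℂ} (hb : P.Base b) (hG : P.Para b G) :
    ∀ (u : ℕ → ℤ) (e : ℕ → ℕ) (t : ℝ), (u, e, t) ∈ C.LL →
    Filter.Tendsto (fun s : ℝ => (G (u, e, s)).re) Filter.atTop Filter.atTop := by
  intro u e t hp
  obtain ⟨M, hM⟩ := hG.near
  obtain ⟨M', hM'⟩ := hb.size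
  obtain ⟨M0, hM0⟩ := Para.re_bd P hG
  have h0 := P.zero_notin hC
  have hpi := Real.pi_pos
  have hmem : ∀ s, t ≤ s → (u, e, s) ∈ C.LL := fun s hs => LL_up C hp hs
  have hlow : ∀ s, max t 0 ≤ s → Real.exp (-(M + M')) * s ≤ ‖G (u, e, s)‖ := by
    intro s hs
    have hts : t ≤ s := (le_max_left _ _).trans hs
    have hs0 : 0 ≤ s := (le_max_right _ _).trans hs
    have hq := hmem s hts
    have h1 := (hM _ hq).symm.norm_le h0
    have h2 := abs_le.mp (hM' _ hq)
    have h3 : Real.log (1 + s + 2 * Real.pi * |(u 0 : ℝ)|) - M' ≤ Real.log ‖b (u, e, s)‖ := by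
      have := h2.1
      simp only at this
      linarith
    have hbn : 0 < ‖b (u, e, s)‖ := by
      rw [norm_pos_iff]
      intro hz
      have := hb.mem _ hq
      rw [hz] at this
      exact h0 this
    have hpos : 0 < 1 + s + 2 * Real.pi * |(u 0 : ℝ)| := by positivity
    have h4 := Real.exp_le_exp.mpr h3
    rw [Real.exp_log hbn, Real.exp_sub, Real.exp_log hpos] at h4
    have h5 : s * Real.exp (-M') ≤ ‖b (u, e, s)‖ := by
      refine le_trans ?_ h4
      rw [Real.exp_neg, ← div_eq_mul_inv]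
      refine div_le_div_of_nonneg_right ?_ (Real.exp_pos _).le
      have : 0 ≤ 2 * Real.pi * |(u 0 : ℝ)| := by positivity
      linarith
    have h6 : s * Real.exp (-M') ≤ ‖G (u, e, s)‖ * Real.exp M := h5.trans h1
    have h7 : Real.exp (-(M + M')) * s = s * Real.exp (-M') * Real.exp (-M) := by
      rw [neg_add, Real.exp_add]
      ring
    rw [h7]
    calc s * Real.exp (-M') * Real.exp (-M) ≤ ‖G (u, e, s)‖ * Real.exp M * Real.exp (-M) :=
          mul_le_mul_of_nonneg_right h6 (Real.exp_pos _).le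
      _ = ‖G (u, e, s)‖ := by
          rw [mul_assoc, ← Real.exp_add, add_neg_cancel, Real.exp_zero, mul_one]
  have hnorm : Tendsto (fun s : ℝ => Real.exp (-(M + M')) * s -
      (2 * Real.pi * |(u 0 : ℝ)| + 10)) atTop atTop := by
    have h1 : Tendsto (fun s : ℝ => Real.exp (-(M + M')) * s) atTop atTop :=
      tendsto_id.const_mul_atTop (Real.exp_pos _)
    exact tendsto_atTop_add_const_right atTop (-(2 * Real.pi * |(u 0 : ℝ)| + 10)) h1
  refine tendsto_atTop_mono' atTop ?_ hnorm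
  filter_upwards [eventually_ge_atTop (max t 0),
    hnorm.eventually_gt_atTop M0] with s hs hs2
  have h1 := hlow s hs
  have hq := hmem s ((le_max_left _ _).trans hs)
  have h2 := Para.im_bd P hC hG _ hq
  have h3 := hM0 _ hq
  have h4 : |(G (u, e, s)).im| ≤ 2 * Real.pi * |(u 0 : ℝ)| + 10 := by
    have h5 : (G (u, e, s)).im = ((G (u, e, s)).im - 2 * Real.pi * (u 0 : ℝ)) +
        2 * Real.pi * (u 0 : ℝ) := by ring
    have h6 := abs_add_le ((G (u, e, s)).im - 2 * Real.pi * (u 0 : ℝ)) (2 * Real.pi * (u 0 : ℝ))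
    rw [← h5, abs_mul, abs_of_pos (show 0 < 2 * Real.pi by positivity)] at h6
    have h7 : |(G (u, e, s)).im - 2 * Real.pi * (u 0 : ℝ)| ≤ 10 := h2
    linarith
  have h5 := Complex.norm_le_abs_re_add_abs_im (G (u, e, s))
  have h6 : Real.exp (-(M + M')) * s - (2 * Real.pi * |(u 0 : ℝ)| + 10) ≤ |(G (u, e, s)).re| := by
    linarith
  rcases le_total 0 (G (u, e, s)).re with h7 | h7
  · rwa [abs_of_nonneg h7] at h6
  · rw [abs_of_nonpos h7] at h6
    exfalso
    linarith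

theorem Para.branch (hC : C.Good) {b G : Pt → ℂ} (hb : P.Base b) (hG : P.Para b G) :
    ∀ (u : ℕ → ℤ) (e : ℕ → ℕ) (t : ℝ), (u, e, t) ∈ C.LL → ∃ T : ℝ, ∀ s, T ≤ s →
    G (u, e, s) = Complex.log (G (shiftPt (u, e, s))) - Complex.log P.lam
      + 2 * Real.pi * Complex.I * (C.x (u 0) (e 1) : ℂ) := by
  intro u e t hp
  obtain ⟨M, hM⟩ := hG.near
  obtain ⟨X1, hX1, hsep⟩ := P.sep hC M
  have hT1 := Tn_tendsto u 1
  have hsh : ∀ s, shiftPt (u, e, s) = (fun n => u (n + 1), fun n => e (n + 1), Tn u s 1) :=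
    fun s => rfl
  have htail := Para.tail P hC hb hG _ _ _ (shift_mem C hp)
  have hGre : Tendsto (fun s : ℝ => (G (shiftPt (u, e, s))).re) atTop atTop := by
    have := htail.comp hT1
    exact this
  have hev := (hGre.eventually_ge_atTop X1).and ((hT1.eventually_ge_atTop
    (X1 + Real.log ‖P.lam‖)).and (eventually_ge_atTop t))
  obtain ⟨T, hT⟩ := eventually_atTop.mp hev
  refine ⟨T, fun s hs => ?_⟩
  obtain ⟨h1, h2, h3⟩ := hT s hs
  have hq : (u, e, s) ∈ C.LL := LL_up C hp h3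
  have hq' := shift_mem C hq
  have hbre := (hb.re_ge _ hq').2
  have hbX : X1 ≤ (b (shiftPt (u, e, s))).re := by
    refine le_trans ?_ hbre
    show X1 ≤ Tn u s 1 - Real.log ‖P.lam‖
    linarith
  have hpos := hsep _ _ hbX h1 (hM _ hq')
  rw [hb.pos_eq _ hq'] at hpos
  have hpos' : P.pos (G (shiftPt (u, e, s))) = e 1 := hpos.symm
  have hGD := P.JJ_sub_D (hG.mem _ hq')
  have hbel := P.bel_eq hC hGD (hX1.trans h1)
  rw [hpos'] at hbel
  rw [hG.step _ hq]
  unfold L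
  rw [hbel]
  rfl

end Par

end PJ
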