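import Pool.Agent.Lib.H31J.APar
import Pool.Agent.Lib.H31J.ASurj
import Pool.Agent.Lib.H31J.AFib
import Pool.Agent.Lib.H31J.ATail
import Pool.Agent.Lib.H31J.AJulF
import Pool.Agent.Lib.H31J.AJulJ

/-! # Part A: assembly -/

set_option autoImplicit false

namespace PJ

/-- Part A (analysis). -/
theorem analytic (C : Comb) (hC : C.Good) : ∃ (lam : ℂ) (G : Pt → ℂ), Interface C lam G := by
  obtain ⟨P⟩ := exists_par C hC
  obtain ⟨b, hb⟩ := P.exists_base hC
  obtain ⟨G, hG⟩ := P.exists_para hC hb
  refine ⟨P.lam, G, ?_⟩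
  exact
    { lam_ne := P.lam_ne hC
      cont := hG.cont
      image := by
        rw [Par.Para.surj P hC hb hG]
        exact Set.Subset.antisymm (P.JJ_sub_Jul hC) (P.Jul_sub_JJ hC)
      fib := Par.Para.fib P hC hb hG
      proper := Par.Para.proper P hC hb hG
      im_bd := Par.Para.im_bd P hC hG
      re_bd := Par.Para.re_bd P hG
      equiv := hG.equiv
      tail := Par.Para.tail P hC hb hG
      branch := Par.Para.branch P hC hb hG }

end PJ
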