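import Pool.Agent.Lib.H31J.ADefs

/-!
# Chunk A-MODEL: the potentials and the model space

Everything about `Tn` and `Comb.LL` (no complex analysis).
`T_{n+1} = exp T_n - 1 - 2π|u_{n+1}|`; `Tn u t (n+1) = Tn (shift u) (Tn u t 1) n` (induction).
`Tn_gap`: if `0 ≤ T_n(s)` for all `n` and `s < t` then `d_n = T_n(t) - T_n(s) > 0` satisfies
`d_{n+1} = exp T_n(s) (exp d_n - 1) ≥ exp d_n - 1 ≥ d_n + d_n²/2`, so `d_n ≥ d_0 + n d_0²/2 → ∞`.
`cons_mem`, `shift_cons`: `T_1 = exp (log (1+t+2π|u_0|)) - 1 - 2π|u_0| = t`.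
-/

set_option autoImplicit false

namespace PJ

open Set Filter

theorem Tn_succ' (u : ℕ → ℤ) (t : ℝ) (n : ℕ) :
    Tn u t (n + 1) = Tn (fun k => u (k + 1)) (Tn u t 1) n := by
  induction n with
  | zero => rfl
  | succ n ih =>
    rw [Tn, ih]
    rfl

theorem Tn_strictMono (u : ℕ → ℤ) (n : ℕ) : StrictMono fun t => Tn u t n := by
  induction n with
  | zero => exact strictMono_id
  | succ n ih =>
    intro s t hst
    have h := Real.exp_lt_exp.mpr (ih hst)
    simp only [Tn]
    linarith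

theorem Tn_cont (u : ℕ → ℤ) (n : ℕ) : Continuous fun t => Tn u t n := by
  induction n with
  | zero => exact continuous_id
  | succ n ih =>
    simp only [Tn]
    exact ((Real.continuous_exp.comp ih).sub continuous_const).sub continuous_const

theorem Tn_tendsto (u : ℕ → ℤ) (n : ℕ) : Tendsto (fun t => Tn u t n) atTop atTop := by
  induction n with
  | zero => exact tendsto_id
  | succ n ih =>
    have h := Real.tendsto_exp_atTop.comp ih
    have h2 := tendsto_atTop_add_const_right atTop (-1 - 2 * Real.pi * |(u (n + 1) : ℝ)|) h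
    refine h2.congr fun t => ?_
    simp only [Tn, Function.comp]
    ring

theorem Tn_gap (u : ℕ → ℤ) {s t : ℝ} (h : ∀ n, 0 ≤ Tn u s n) (hst : s < t) :
    Tendsto (fun n => Tn u t n - Tn u s n) atTop atTop := by
  set d : ℕ → ℝ := fun n => Tn u t n - Tn u s n with hd
  have hd0 : 0 < d 0 := by
    simp only [hd, Tn]
    linarith
  have hstep : ∀ n, 0 < d n → d n + d n ^ 2 / 2 ≤ d (n + 1) := by
    intro n hn
    have h1 : d (n + 1) = Real.exp (Tn u s n) * (Real.exp (d n) - 1) := by
      simp only [hd, Tn]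
      rw [mul_sub, ← Real.exp_add]
      ring_nf
    have h2 : 1 + d n + d n ^ 2 / 2 ≤ Real.exp (d n) := Real.quadratic_le_exp_of_nonneg hn.le
    have h3 : 1 ≤ Real.exp (Tn u s n) := Real.one_le_exp (h n)
    have h4 : 0 ≤ Real.exp (d n) - 1 := by nlinarith [sq_nonneg (d n)]
    rw [h1]
    nlinarith
  have hlow : ∀ n : ℕ, d 0 + n * (d 0 ^ 2 / 2) ≤ d n ∧ d 0 ≤ d n := by
    intro n
    induction n with
    | zero => simp
    | succ n ih =>
      have hpos : 0 < d n := lt_of_lt_of_le hd0 ih.2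
      have h1 := hstep n hpos
      have h2 : d 0 ^ 2 ≤ d n ^ 2 := by nlinarith [ih.2]
      constructor
      · push_cast
        linarith [ih.1]
      · nlinarith [ih.2, sq_nonneg (d n)]
  have h5 : Tendsto (fun n : ℕ => d 0 + n * (d 0 ^ 2 / 2)) atTop atTop := by
    refine tendsto_atTop_add_const_left atTop (d 0) ?_
    exact tendsto_natCast_atTop_atTop.atTop_mul_const (by positivity)
  exact tendsto_atTop_mono (fun n => (hlow n).1) h5

theorem Tn_one (u : ℕ → ℤ) (t : ℝ) : Tn u t 1 = Real.exp t - 1 - 2 * Real.pi * |(u 1 : ℝ)| := rfl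

theorem de_le (C : Comb) (j : ℤ) (e : ℕ) : C.de j e ≤ C.m + 1 := by
  unfold Comb.de
  refine (Finset.card_filter_le _ _).trans ?_
  rw [Finset.card_range]

theorem LL_le (C : Comb) {p : Pt} (hp : p ∈ C.LL) (n : ℕ) : p.2.1 n ≤ C.m + 1 := by
  rw [(hp n).2]
  exact de_le C _ _

theorem LL_nonneg (C : Comb) {p : Pt} (hp : p ∈ C.LL) : 0 ≤ p.2.2 := (hp 0).1

theorem LL_up (C : Comb) {u : ℕ → ℤ} {e : ℕ → ℕ} {t s : ℝ} (hp : (u, e, t) ∈ C.LL)
    (hts : t ≤ s) : (u, e, s) ∈ C.LL := by
  intro n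
  have h := hp n
  exact ⟨h.1.trans ((Tn_strictMono u n).monotone hts), h.2⟩

theorem shift_mem (C : Comb) {p : Pt} (hp : p ∈ C.LL) : shiftPt p ∈ C.LL := by
  intro n
  have h := hp (n + 1)
  refine ⟨?_, h.2⟩
  have h1 := h.1
  rw [Tn_succ'] at h1
  exact h1

theorem shift_cons_aux (C : Comb) (j : ℤ) {p : Pt} (hp : p ∈ C.LL) :
    Tn (consPt C j p).1 (consPt C j p).2.2 1 = p.2.2 := by
  have h0 := LL_nonneg C hp
  have hpi := Real.pi_pos
  rw [Tn_one]
  show Real.exp (Real.log (1 + p.2.2 + 2 * Real.pi * |(p.1 0 : ℝ)|)) - 1 -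
    2 * Real.pi * |(p.1 0 : ℝ)| = p.2.2
  rw [Real.exp_log (by positivity)]
  ring

theorem cons_mem (C : Comb) (j : ℤ) {p : Pt} (hp : p ∈ C.LL) : consPt C j p ∈ C.LL := by
  intro n
  have h0 := LL_nonneg C hp
  have hpi := Real.pi_pos
  cases n with
  | zero =>
    refine ⟨?_, rfl⟩
    show 0 ≤ Real.log (1 + p.2.2 + 2 * Real.pi * |(p.1 0 : ℝ)|)
    refine Real.log_nonneg ?_
    have : 0 ≤ 2 * Real.pi * |(p.1 0 : ℝ)| := by positivity
    linarith
  | succ n =>
    refine ⟨?_, ?_⟩
    · rw [Tn_succ', shift_cons_aux C j hp]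
      exact (hp n).1
    · exact (hp n).2

theorem shift_cons (C : Comb) (j : ℤ) {p : Pt} (hp : p ∈ C.LL) : shiftPt (consPt C j p) = p := by
  unfold shiftPt
  rw [shift_cons_aux C j hp]
  rfl

theorem cons_zero (C : Comb) (j : ℤ) (p : Pt) : (consPt C j p).1 0 = j := rfl

theorem shift_iter (p : Pt) (n : ℕ) : shiftPt^[n] p =
    (fun k => p.1 (n + k), fun k => p.2.1 (n + k), Tn p.1 p.2.2 n) := by
  induction n with
  | zero => simp [Tn]
  | succ n ih =>
    rw [Function.iterate_succ_apply', ih]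
    unfold shiftPt
    simp only [Tn, Prod.mk.injEq]
    refine ⟨?_, ?_, trivial⟩
    · funext k
      ring_nf
    · funext k
      ring_nf

theorem shift_iter_mem (C : Comb) {p : Pt} (hp : p ∈ C.LL) (n : ℕ) : shiftPt^[n] p ∈ C.LL := by
  induction n with
  | zero => exact hp
  | succ n ih =>
    rw [Function.iterate_succ_apply']
    exact shift_mem C ih

theorem shift_cont : Continuous shiftPt := by
  unfold shiftPt
  refine Continuous.prodMk ?_ (Continuous.prodMk ?_ ?_)
  · exact continuous_pi fun n => (continuous_apply (n + 1)).comp continuous_fst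
  · exact continuous_pi fun n =>
      (continuous_apply (n + 1)).comp (continuous_fst.comp continuous_snd)
  · show Continuous fun p : Pt => Real.exp p.2.2 - 1 - 2 * Real.pi * |(p.1 1 : ℝ)|
    refine Continuous.sub (Continuous.sub ?_ continuous_const) ?_
    · exact Real.continuous_exp.comp (continuous_snd.comp continuous_snd)
    · refine Continuous.mul continuous_const ?_
      have h : Continuous fun k : ℤ => |(k : ℝ)| := continuous_of_discreteTopology
      exact h.comp ((continuous_apply 1).comp continuous_fst)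

end PJ
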