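import Pool.Agent.Lib.H31J.ADefs

/-!
# Chunk A-PAR: existence of the parameter

Banach fixed point theorem on the closed ball `B = closedBall (R : ℂ) 25` with `R = 10^6 (m+1)`.
`r 0` arbitrary, `r 1 = R`, `r (k+1) = R exp (r k)`.  For `lam ∈ B` define downwards
`V m = log (r (m+1)) + π i - Log lam` and `V i = Log (V (i+1)) - Log lam + 2πi·sg i` for
`i = m-1, …, 1`.  Claims, by downward induction: `‖V i - r i‖ ≤ 25`:
real part: `log |V (i+1)| - log |lam|` with `log (r (i+1)) = log R + r i`,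
`|log |V(i+1)| - log r(i+1)| ≤ 50/r(i+1)`, `|log |lam| - log R| ≤ 50/R`; imaginary part:
`|arg V(i+1)| ≤ 50/r(i+1)`, `2π·3 < 19`, `|arg lam| ≤ 50/R`; so `|Im| ≤ 20`, `|Re - r i| ≤ 1`.
For `V m` : `|Re - r m| ≤ 1`, `|Im| ≤ 4`.  And `lam ↦ V i` is Lipschitz with constant `≤ 4/R`
(`Log` is `2/ρ`-Lipschitz on the convex set `Re > ρ/2`…).  So `lam ↦ V 1` maps `B` into `B` and is a
contraction: fixed point `lam = V 1`.  Put `v 0 = 0`, `v i = V i` for `1 ≤ i ≤ m`; for `i = 0`:
`v 0 = Log (v 1) - Log lam + 2πi·sg 0` holds because `v 1 = lam`, `sg 0 = 0`.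
(Case `m = 1`: `V 1 = V m`.)
-/

set_option autoImplicit false

namespace PJ

open Complex

theorem par_arg_bd {z : ℂ} (hz : 0 < z.re) : |arg z| ≤ 2 * (|z.im| / z.re) := by
  have h1 : |arg z| ≤ Real.pi / 2 := Complex.abs_arg_le_pi_div_two_iff.2 hz.le
  have hn : 0 < ‖z‖ := lt_of_lt_of_le hz (Complex.re_le_norm z)
  have h2 : Real.sin (arg z) = z.im / ‖z‖ := Complex.sin_arg z
  have h3 : 2 / Real.pi * |arg z| ≤ Real.sin |arg z| :=
    Real.mul_le_sin (abs_nonneg _) h1
  have h4 : Real.sin |arg z| = |z.im| / ‖z‖ := by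
    rcases le_or_gt 0 (arg z) with h | h
    · have h5 : 0 ≤ z.im := Complex.arg_nonneg_iff.1 h
      rw [abs_of_nonneg h, h2, abs_of_nonneg h5]
    · have h5 : z.im < 0 := Complex.arg_neg_iff.1 h
      rw [abs_of_neg h, Real.sin_neg, h2, abs_of_neg h5]
      ring
  have h5 : |z.im| / ‖z‖ ≤ |z.im| / z.re :=
    div_le_div_of_nonneg_left (abs_nonneg _) hz (Complex.re_le_norm z)
  have h6 : 2 / Real.pi * |arg z| ≤ |z.im| / z.re := by
    rw [h4] at h3; linarith
  have hpi := Real.pi_pos
  have hpi4 := Real.pi_le_four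
  rw [div_mul_eq_mul_div, div_le_iff₀ hpi] at h6
  have h7 : 0 ≤ |z.im| / z.re := by positivity
  nlinarith

theorem par_log_lip {x0 : ℝ} (hx0 : 0 < x0) {a b : ℂ} (ha : x0 ≤ a.re) (hb : x0 ≤ b.re) :
    ‖log a - log b‖ ≤ ‖a - b‖ / x0 := by
  have hconv : Convex ℝ {z : ℂ | x0 ≤ z.re} := by
    exact convex_halfSpace_re_ge x0
  have h := hconv.norm_image_sub_le_of_norm_hasDerivWithin_le (f := Complex.log)
    (f' := fun z => z⁻¹) (C := 1 / x0) (x := b) (y := a) ?_ ?_ hb ha
  · rw [div_mul_eq_mul_div, one_mul] at h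
    exact h
  · intro z hz
    have hz' : z ∈ slitPlane := by
      left
      exact lt_of_lt_of_le hx0 hz
    exact (Complex.hasDerivAt_log hz').hasDerivWithinAt
  · intro z hz
    rw [norm_inv, one_div]
    apply inv_anti₀ hx0
    exact le_trans hz (Complex.re_le_norm z)

theorem par_log_close {r x : ℝ} (hr : 10 ^ 6 ≤ r) (h : |x - r| ≤ 100) :
    |Real.log x - Real.log r| ≤ 1 / 1000 := by
  have hr0 : 0 < r := by linarith
  obtain ⟨h1, h2⟩ := abs_le.1 h
  have hx0 : 0 < x := by linarith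
  have e1 : Real.log x - Real.log r = Real.log (x / r) := (Real.log_div hx0.ne' hr0.ne').symm
  rw [e1, abs_le]
  constructor
  · have h3 := Real.one_sub_inv_le_log_of_pos (x := x / r) (by positivity)
    rw [inv_div] at h3
    have h4 : r / x ≤ 1 + 1 / 1000 := by
      rw [div_le_iff₀ hx0]; linarith
    linarith
  · have h3 := Real.log_le_sub_one_of_pos (x := x / r) (by positivity)
    have h4 : x / r ≤ 1 + 1 / 1000 := by
      rw [div_le_iff₀ hr0]; linarith
    linarith

/-- the comparison orbit -/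
noncomputable def parR (R : ℝ) : ℕ → ℝ
  | 0 => 0
  | 1 => R
  | n + 2 => R * Real.exp (parR R (n + 1))

theorem parR_ge {R : ℝ} (hR : 1 ≤ R) (n : ℕ) (hn : 1 ≤ n) : R ≤ parR R n := by
  induction n, hn using Nat.le_induction with
  | base => exact le_refl _
  | succ n hn ih =>
    obtain ⟨k, rfl⟩ : ∃ k, n = k + 1 := ⟨n - 1, by omega⟩
    show R ≤ R * Real.exp (parR R (k + 1))
    have : 1 ≤ Real.exp (parR R (k + 1)) := Real.one_le_exp (by linarith)
    nlinarith

theorem parR_log {R : ℝ} (hR : 0 < R) (n : ℕ) (hn : 1 ≤ n) :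
    Real.log (parR R (n + 1)) = Real.log R + parR R n := by
  obtain ⟨k, rfl⟩ : ∃ k, n = k + 1 := ⟨n - 1, by omega⟩
  show Real.log (R * Real.exp (parR R (k + 1))) = _
  rw [Real.log_mul hR.ne' (Real.exp_pos _).ne', Real.log_exp]

/-- backward orbit -/
noncomputable def parV (m : ℕ) (sg : ℕ → ℤ) (R : ℝ) (c : ℂ) : ℕ → ℂ
  | 0 => (Real.log (parR R (m + 1)) : ℂ) + Real.pi * I - log c
  | k + 1 => log (parV m sg R c k) - log c + 2 * Real.pi * I * (sg (m - 1 - k) : ℂ)

theorem parV_bd {R : ℝ} (hR : 10 ^ 6 ≤ R) (m : ℕ) (hm : 1 ≤ m) (sg : ℕ → ℤ)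
    (hsg : ∀ i, |sg i| ≤ 3) {c : ℂ} (hc : ‖c - (R : ℂ)‖ ≤ 25) (k : ℕ) (hk : k ≤ m - 1) :
    |(parV m sg R c k).re - parR R (m - k)| ≤ 1 ∧ |(parV m sg R c k).im| ≤ 20 := by
  have hc1 : |c.re - R| ≤ 25 := by
    have := Complex.abs_re_le_norm (c - (R : ℂ))
    simp only [Complex.sub_re, Complex.ofReal_re] at this
    linarith
  have hc2 : |c.im| ≤ 25 := by
    have := Complex.abs_im_le_norm (c - (R : ℂ))
    simp only [Complex.sub_im, Complex.ofReal_im, sub_zero] at this
    linarith
  obtain ⟨hc3, hc4⟩ := abs_le.1 hc1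
  have hcre : 0 < c.re := by linarith
  have hargc : |arg c| ≤ 1 / 1000 := by
    refine (par_arg_bd hcre).trans ?_
    have : |c.im| / c.re ≤ 1 / 2000 := by
      rw [div_le_iff₀ hcre]; linarith
    linarith
  have hcn : |‖c‖ - R| ≤ 25 := by
    have h1 := abs_norm_sub_norm_le c (R : ℂ)
    rw [Complex.norm_real, Real.norm_of_nonneg (by linarith : (0 : ℝ) ≤ R)] at h1
    linarith
  have hlogc : |Real.log ‖c‖ - Real.log R| ≤ 1 / 1000 := par_log_close hR (by linarith)
  obtain ⟨g1, g2⟩ := abs_le.1 hargc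
  obtain ⟨g3, g4⟩ := abs_le.1 hlogc
  have hpi : Real.pi < 3.15 := Real.pi_lt_d2
  have hpi0 := Real.pi_pos
  induction k with
  | zero =>
    have e1 : (parV m sg R c 0).re = Real.log (parR R (m + 1)) - Real.log ‖c‖ := by
      simp [parV, Complex.log_re]
    have e2 : (parV m sg R c 0).im = Real.pi - arg c := by
      simp [parV, Complex.log_im]
    rw [e1, e2, parR_log (by linarith) m hm, Nat.sub_zero]
    constructor
    · rw [abs_le]; constructor <;> linarith
    · rw [abs_le]; constructor <;> linarith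
  | succ k ih =>
    obtain ⟨i1, i3⟩ := ih (by omega)
    obtain ⟨i1, i2⟩ := abs_le.1 i1
    set W := parV m sg R c k with hW
    have hRk : R ≤ parR R (m - k) := parR_ge (by linarith) _ (by omega)
    have hWre : 0 < W.re := by linarith
    have hWn : |‖W‖ - parR R (m - k)| ≤ 21 := by
      have h1 := abs_norm_sub_norm_le W (parR R (m - k) : ℂ)
      rw [Complex.norm_real, Real.norm_of_nonneg (by linarith : (0 : ℝ) ≤ parR R (m - k))] at h1
      have h2 := Complex.norm_le_abs_re_add_abs_im (W - (parR R (m - k) : ℂ))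
      simp only [Complex.sub_re, Complex.ofReal_re, Complex.sub_im, Complex.ofReal_im,
        sub_zero] at h2
      have h3 : |W.re - parR R (m - k)| ≤ 1 := abs_le.2 ⟨i1, i2⟩
      linarith
    have hlog : |Real.log ‖W‖ - Real.log (parR R (m - k))| ≤ 1 / 1000 :=
      par_log_close (by linarith) (by linarith)
    have e0 : parV m sg R c (k + 1) =
        log W - log c + 2 * Real.pi * I * (sg (m - 1 - k) : ℂ) := rfl
    have e1 : (parV m sg R c (k + 1)).re = Real.log ‖W‖ - Real.log ‖c‖ := by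
      rw [e0]
      simp [Complex.log_re]
    have e2 : (parV m sg R c (k + 1)).im =
        arg W - arg c + 2 * Real.pi * (sg (m - 1 - k) : ℝ) := by
      rw [e0]
      simp [Complex.log_im]
    have e3 : Real.log (parR R (m - k)) = Real.log R + parR R (m - (k + 1)) := by
      have : m - k = (m - (k + 1)) + 1 := by omega
      rw [this]
      exact parR_log (by linarith) _ (by omega)
    rw [e3] at hlog
    obtain ⟨g5, g6⟩ := abs_le.1 hlog
    rw [e1, e2]
    constructor
    · rw [abs_le]; constructor <;> linarith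
    · have h1 : |arg W| ≤ 1 / 1000 := by
        refine (par_arg_bd hWre).trans ?_
        have : |W.im| / W.re ≤ 1 / 2000 := by
          rw [div_le_iff₀ hWre]; linarith
        linarith
      have h2 : |(sg (m - 1 - k) : ℝ)| ≤ 3 := by
        have := hsg (m - 1 - k)
        exact_mod_cast this
      have h3 : |2 * Real.pi * (sg (m - 1 - k) : ℝ)| ≤ 18.9 := by
        rw [abs_mul, abs_of_pos (by positivity)]
        nlinarith [abs_nonneg (sg (m - 1 - k) : ℝ)]
      have a1 := abs_le.1 h1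
      have a3 := abs_le.1 h3
      rw [abs_le]
      constructor <;> linarith

theorem parV_lip {R : ℝ} (hR : 10 ^ 6 ≤ R) (m : ℕ) (hm : 1 ≤ m) (sg : ℕ → ℤ)
    (hsg : ∀ i, |sg i| ≤ 3) {c c' : ℂ} (hc : ‖c - (R : ℂ)‖ ≤ 25) (hc' : ‖c' - (R : ℂ)‖ ≤ 25)
    (k : ℕ) (hk : k ≤ m - 1) :
    ‖parV m sg R c k - parV m sg R c' k‖ ≤ 4 / R * ‖c - c'‖ := by
  have key : ∀ c : ℂ, ‖c - (R : ℂ)‖ ≤ 25 → R / 2 ≤ c.re := by
    intro c hc
    have := Complex.abs_re_le_norm (c - (R : ℂ))
    simp only [Complex.sub_re, Complex.ofReal_re] at this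
    have := abs_le.1 (this.trans hc)
    linarith
  have hl : ‖log c - log c'‖ ≤ ‖c - c'‖ / (R / 2) :=
    par_log_lip (by linarith) (key c hc) (key c' hc')
  have hn : 0 ≤ ‖c - c'‖ := norm_nonneg _
  have e4 : ‖c - c'‖ / (R / 2) = 2 / R * ‖c - c'‖ := by field_simp
  rw [e4] at hl
  have hR0 : 0 < R := by linarith
  induction k with
  | zero =>
    have e1 : parV m sg R c 0 - parV m sg R c' 0 = -(log c - log c') := by
      simp only [parV]; ring
    rw [e1, norm_neg]
    refine hl.trans ?_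
    apply mul_le_mul_of_nonneg_right _ hn
    apply div_le_div_of_nonneg_right _ hR0.le
    norm_num
  | succ k ih =>
    have ih' := ih (by omega)
    obtain ⟨a1, a3⟩ := parV_bd hR m hm sg hsg hc k (by omega)
    obtain ⟨b1, b3⟩ := parV_bd hR m hm sg hsg hc' k (by omega)
    have hRk : R ≤ parR R (m - k) := parR_ge (by linarith) _ (by omega)
    have e1 : parV m sg R c (k + 1) - parV m sg R c' (k + 1) =
        (log (parV m sg R c k) - log (parV m sg R c' k)) - (log c - log c') := by
      simp only [parV]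
      ring
    have h2 := par_log_lip (x0 := R / 2) (a := parV m sg R c k) (b := parV m sg R c' k)
      (by linarith) (by have := abs_le.1 a1; linarith) (by have := abs_le.1 b1; linarith)
    rw [e1]
    calc _ ≤ ‖log (parV m sg R c k) - log (parV m sg R c' k)‖
          + ‖log c - log c'‖ := norm_sub_le _ _
      _ ≤ (4 / R * ‖c - c'‖) / (R / 2) + 2 / R * ‖c - c'‖ := by
          have : ‖parV m sg R c k - parV m sg R c' k‖ / (R / 2)
            ≤ (4 / R * ‖c - c'‖) / (R / 2) := div_le_div_of_nonneg_right ih' (by linarith)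
          linarith
      _ ≤ 4 / R * ‖c - c'‖ := by
          have e5 : (4 / R * ‖c - c'‖) / (R / 2) = (8 / R) * (1 / R * ‖c - c'‖) := by
            field_simp; ring
          have e6 : 2 / R * ‖c - c'‖ = 2 * (1 / R * ‖c - c'‖) := by ring
          have e7 : 4 / R * ‖c - c'‖ = 4 * (1 / R * ‖c - c'‖) := by ring
          rw [e5, e6, e7]
          have h8 : 8 / R ≤ 2 := by rw [div_le_iff₀ hR0]; linarith
          have h9 : 0 ≤ 1 / R * ‖c - c'‖ := by positivity
          nlinarith

theorem exists_par (C : Comb) (hC : C.Good) : Nonempty (Par C) := by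
  set m := C.m with hmd
  have hm : 1 ≤ m := hC.m_pos
  have hsg := hC.sg_le
  have hsg0 := hC.sg0
  set R : ℝ := 10 ^ 6 * ((m : ℝ) + 1) with hRd
  have hm0 : (0 : ℝ) ≤ m := Nat.cast_nonneg _
  have hR : (10 : ℝ) ^ 6 ≤ R := by rw [hRd]; nlinarith
  set F : ℂ → ℂ := fun c => parV m C.sg R c (m - 1) with hF
  have hmaps : Set.MapsTo F (Metric.closedBall (R : ℂ) 25) (Metric.closedBall (R : ℂ) 25) := by
    intro c hc
    rw [Metric.mem_closedBall, dist_eq_norm] at hc ⊢
    obtain ⟨a1, a3⟩ := parV_bd hR m hm C.sg hsg hc (m - 1) (le_refl _)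
    have e1 : m - (m - 1) = 1 := by omega
    rw [e1] at a1
    have h2 := Complex.norm_le_abs_re_add_abs_im (F c - (R : ℂ))
    simp only [Complex.sub_re, Complex.ofReal_re, Complex.sub_im, Complex.ofReal_im,
      sub_zero] at h2
    have a1' : |(F c).re - R| ≤ 1 := a1
    have a3' : |(F c).im| ≤ 20 := a3
    linarith
  have hcontr : ContractingWith (1 / 50)
      (hmaps.restrict F (Metric.closedBall (R : ℂ) 25) (Metric.closedBall (R : ℂ) 25)) := by
    refine ⟨by rw [div_lt_one (by norm_num)]; norm_num, ?_⟩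
    apply LipschitzWith.of_dist_le_mul
    intro a b
    have ha := a.2
    have hb := b.2
    rw [Metric.mem_closedBall, dist_eq_norm] at ha hb
    have h := parV_lip hR m hm C.sg hsg ha hb (m - 1) (le_refl _)
    rw [Subtype.dist_eq, Subtype.dist_eq, dist_eq_norm, dist_eq_norm]
    have h2 : 4 / R ≤ 1 / 50 := by
      rw [div_le_div_iff₀ (by linarith) (by norm_num)]
      linarith
    refine h.trans ?_
    have : (((1 / 50 : NNReal)) : ℝ) = 1 / 50 := by norm_num
    rw [this]
    exact mul_le_mul_of_nonneg_right h2 (norm_nonneg _)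
  have hx0mem : (R : ℂ) ∈ Metric.closedBall (R : ℂ) 25 := by
    rw [Metric.mem_closedBall, dist_self]; norm_num
  obtain ⟨c, hc, hfix, -⟩ := ContractingWith.exists_fixedPoint'
    (Metric.isClosed_closedBall (x := (R : ℂ)) (ε := 25)).isComplete hmaps
    hcontr hx0mem (edist_ne_top _ _)
  have hfix' : parV m C.sg R c (m - 1) = c := hfix
  rw [Metric.mem_closedBall, dist_eq_norm] at hc
  have e1 : m - (m - 1) = 1 := by omega
  refine ⟨⟨c, R, parR R, fun i => if i = 0 then 0 else parV m C.sg R c (m - i), le_refl _, rfl, ?_,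
    by simp, ?_, ?_, ?_, ?_⟩⟩
  · intro k hk
    obtain ⟨j, rfl⟩ : ∃ j, k = j + 1 := ⟨k - 1, by omega⟩
    rfl
  · simp only [one_ne_zero, if_false]
    exact hfix'
  · intro i hi
    rcases Nat.eq_zero_or_pos i with h0 | hpos
    · subst h0
      have h1 : m - (0 + 1) = m - 1 := by omega
      simp only [if_true, Nat.zero_add, one_ne_zero, if_false, hfix', hsg0]
      simp
    · have h1 : i ≠ 0 := by omega
      have h2 : i + 1 ≠ 0 := by omega
      simp only [h1, h2, if_false]
      have e1 : m - i = (m - (i + 1)) + 1 := by omega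
      have e2 : m - 1 - (m - (i + 1)) = i := by omega
      conv_lhs => rw [e1]
      simp only [parV]
      rw [e2]
  · have h1 : m ≠ 0 := by omega
    simp only [h1, if_false, Nat.sub_self, ← hmd]
    rfl
  · intro i hi him
    have h1 : i ≠ 0 := by omega
    simp only [h1, if_false]
    obtain ⟨a1, a3⟩ := parV_bd hR m hm C.sg hsg hc (m - i) (by omega)
    have e1 : m - (m - i) = i := by omega
    rw [e1] at a1
    have h2 := Complex.norm_le_abs_re_add_abs_im (parV m C.sg R c (m - i) - (parR R i : ℂ))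
    simp only [Complex.sub_re, Complex.ofReal_re, Complex.sub_im, Complex.ofReal_im,
      sub_zero] at h2
    linarith

end PJ
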