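import Pool.Agent.Lib.H31J.AG

/-!
# Chunk A-PHI: the curves are graphs

`γ_i(t) = g i (v m + t)`, `t ≥ 0`.  By `g_deriv`, `g_cone` the real part has positive derivative and
`|Im γ_i'| ≤ Re γ_i'/1000`; so `t ↦ Re γ_i(t)` is strictly increasing, `→ ∞` (`g_tendsto`), onto
`[Re v_i, ∞)` (`γ_i(0) = v_i`, intermediate value theorem), and `|Im γ_i(t) - Im γ_i(s)| ≤
|Re γ_i(t) - Re γ_i(s)|/1000` (monotonicity of `Re ± 1000·Im`…).  By definition `phi i x` is the imaginary
part of the point of the curve with real part `x`, and `Im v_i` for `x < Re v_i` (for `x = Re v_i` the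
only parameter is `t = 0`).  Derivative for `x > Re v_i`: inverse function theorem in one variable
(`HasDerivAt.of_local_left_inverse`) for `Re γ_i`.
-/

set_option autoImplicit false

namespace PJ

namespace Par

open Set Filter

variable {C : Comb} (P : Par C)

theorem phi_mem_U {t : ℝ} (ht : -2 < t) : P.v C.m + (t : ℂ) ∈ P.U := by
  refine ⟨?_, ?_⟩
  · simp only [Complex.add_re, Complex.ofReal_re]
    linarith
  · simp only [Complex.add_im, Complex.ofReal_im, add_zero, sub_self, abs_zero]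
    norm_num

/-- the complex derivative of the curve at the parameter `t` -/
noncomputable def phiD (i : ℕ) (t : ℝ) : ℂ :=
  ∏ l ∈ Finset.Ioc i C.m, (P.g l (P.v C.m + (t : ℂ)))⁻¹

theorem phi_hasDeriv (hC : C.Good) {i : ℕ} (hi : i ≤ C.m) {t : ℝ} (ht : -2 < t) :
    HasDerivAt (fun z : ℂ => P.g i (P.v C.m + z)) (P.phiD i t) (t : ℂ) :=
  HasDerivAt.comp_const_add (P.v C.m) (t : ℂ) (P.g_deriv hC hi (P.phi_mem_U ht))

theorem phi_strict (hC : C.Good) {i : ℕ} (hi : i ≤ C.m) {t : ℝ} (ht : -2 < t) :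
    HasStrictDerivAt (fun z : ℂ => P.g i (P.v C.m + z)) (P.phiD i t) (t : ℂ) := by
  have hU : P.U ∈ nhds (P.v C.m + (t : ℂ)) := P.U_open.mem_nhds (P.phi_mem_U ht)
  have hd : DifferentiableOn ℂ (P.g i) P.U := fun w hw =>
    (P.g_deriv hC hi hw).differentiableAt.differentiableWithinAt
  have h1 : HasStrictDerivAt (P.g i) (P.phiD i t) (P.v C.m + (t : ℂ)) := by
    have h2 := (hd.analyticAt hU).hasStrictDerivAt
    rwa [(P.g_deriv hC hi (P.phi_mem_U ht)).deriv] at h2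
  have h3 : HasStrictDerivAt (fun z : ℂ => P.v C.m + z) 1 (t : ℂ) :=
    (hasStrictDerivAt_id (t : ℂ)).const_add _
  have h4 := HasStrictDerivAt.comp (t : ℂ) h1 h3
  rw [mul_one] at h4
  exact h4

theorem phi_re_deriv (hC : C.Good) {i : ℕ} (hi : i ≤ C.m) {t : ℝ} (ht : -2 < t) :
    HasDerivAt (fun t : ℝ => (P.g i (P.v C.m + (t : ℂ))).re) (P.phiD i t).re t :=
  (P.phi_hasDeriv hC hi ht).real_of_complex

theorem phi_im_deriv (hC : C.Good) {i : ℕ} (hi : i ≤ C.m) {t : ℝ} (ht : -2 < t) :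
    HasDerivAt (fun t : ℝ => (P.g i (P.v C.m + (t : ℂ))).im) (P.phiD i t).im t := by
  have h1 := ((P.phi_hasDeriv hC hi ht).const_mul (-Complex.I)).real_of_complex
  have h2 : (fun x : ℝ => ((-Complex.I) * P.g i (P.v C.m + (x : ℂ))).re) =
      fun t : ℝ => (P.g i (P.v C.m + (t : ℂ))).im := by
    funext x
    simp
  have h3 : ((-Complex.I) * P.phiD i t).re = (P.phiD i t).im := by simp
  rw [h2, h3] at h1
  exact h1

theorem phi_strictMono (hC : C.Good) {i : ℕ} (hi : i ≤ C.m) :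
    StrictMonoOn (fun t : ℝ => (P.g i (P.v C.m + (t : ℂ))).re) (Ici 0) := by
  refine strictMonoOn_of_deriv_pos (convex_Ici 0) ?_ ?_
  · intro t ht
    exact (P.phi_re_deriv hC hi (by simp only [mem_Ici] at ht; linarith)).continuousAt.continuousWithinAt
  · intro t ht
    rw [interior_Ici, mem_Ioi] at ht
    rw [(P.phi_re_deriv hC hi (by linarith)).deriv]
    exact (P.g_cone hC hi (P.phi_mem_U (by linarith))).1

theorem phi_cone_mono (hC : C.Good) {i : ℕ} (hi : i ≤ C.m) (e : ℝ) (he : |e| ≤ 1000) :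
    MonotoneOn (fun t : ℝ => (P.g i (P.v C.m + (t : ℂ))).re +
      e * (P.g i (P.v C.m + (t : ℂ))).im) (Ici 0) := by
  have hd : ∀ t : ℝ, -2 < t → HasDerivAt (fun t : ℝ => (P.g i (P.v C.m + (t : ℂ))).re +
      e * (P.g i (P.v C.m + (t : ℂ))).im) ((P.phiD i t).re + e * (P.phiD i t).im) t := by
    intro t ht
    exact (P.phi_re_deriv hC hi ht).add ((P.phi_im_deriv hC hi ht).const_mul e)
  refine monotoneOn_of_deriv_nonneg (convex_Ici 0) ?_ ?_ ?_
  · intro t ht
    exact (hd t (by simp only [mem_Ici] at ht; linarith)).continuousAt.continuousWithinAt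
  · intro t ht
    rw [interior_Ici, mem_Ioi] at ht
    exact (hd t (by linarith)).differentiableAt.differentiableWithinAt
  · intro t ht
    rw [interior_Ici, mem_Ioi] at ht
    rw [(hd t (by linarith)).deriv]
    obtain ⟨h1, h2⟩ := P.g_cone hC hi (P.phi_mem_U (t := t) (by linarith))
    have h3 : |e * (P.phiD i t).im| ≤ (P.phiD i t).re := by
      rw [abs_mul]
      calc |e| * |(P.phiD i t).im| ≤ 1000 * ((P.phiD i t).re / 1000) :=
            mul_le_mul he h2 (abs_nonneg _) (by norm_num)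
        _ = (P.phiD i t).re := by ring
    have := neg_abs_le (e * (P.phiD i t).im)
    linarith

theorem phi_curve_lip (hC : C.Good) {i : ℕ} (hi : i ≤ C.m) {s t : ℝ} (hs : 0 ≤ s) (hst : s ≤ t) :
    |(P.g i (P.v C.m + (t : ℂ))).im - (P.g i (P.v C.m + (s : ℂ))).im| ≤
      ((P.g i (P.v C.m + (t : ℂ))).re - (P.g i (P.v C.m + (s : ℂ))).re) / 1000 := by
  have h1 := P.phi_cone_mono hC hi 1000 (by norm_num) (mem_Ici.2 hs) (mem_Ici.2 (hs.trans hst)) hst
  have h2 := P.phi_cone_mono hC hi (-1000) (by norm_num) (mem_Ici.2 hs) (mem_Ici.2 (hs.trans hst)) hst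
  simp only at h1 h2
  rw [abs_le]
  constructor <;> linarith

theorem phi_curve (hC : C.Good) {i : ℕ} (hi : i ≤ C.m) {t : ℝ} (ht : 0 ≤ t) :
    P.phi i (P.g i (P.v C.m + (t : ℂ))).re = (P.g i (P.v C.m + (t : ℂ))).im := by
  have h : ∃ s : ℝ, 0 ≤ s ∧ (P.g i (P.v C.m + (s : ℂ))).re = (P.g i (P.v C.m + (t : ℂ))).re :=
    ⟨t, ht, rfl⟩
  unfold Par.phi
  rw [dif_pos h]
  have h1 := h.choose_spec
  have h2 : h.choose = t := (P.phi_strictMono hC hi).injOn (mem_Ici.2 h1.1) (mem_Ici.2 ht) h1.2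
  rw [h2]

theorem phi_g_zero (hC : C.Good) {i : ℕ} (hi : i ≤ C.m) :
    P.g i (P.v C.m + ((0 : ℝ) : ℂ)) = P.v i := by
  rw [Complex.ofReal_zero, add_zero, P.g_v hC hi]

theorem phi_surj (hC : C.Good) {i : ℕ} (hi : i ≤ C.m) {x : ℝ} (hx : (P.v i).re ≤ x) :
    ∃ t : ℝ, 0 ≤ t ∧ (P.g i (P.v C.m + (t : ℂ))).re = x := by
  obtain ⟨T, hT⟩ := P.g_tendsto hC hi x
  set T' : ℝ := max 0 (T - (P.v C.m).re) with hT'
  have h0 : 0 ≤ T' := le_max_left _ _
  have h1 : x ≤ (P.g i (P.v C.m + (T' : ℂ))).re := by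
    refine hT _ (P.phi_mem_U (by linarith)) ?_
    have := le_max_right 0 (T - (P.v C.m).re)
    simp only [Complex.add_re, Complex.ofReal_re]
    linarith
  have hcont : ContinuousOn (fun t : ℝ => (P.g i (P.v C.m + (t : ℂ))).re) (Icc 0 T') := by
    intro t ht
    exact (P.phi_re_deriv hC hi (by linarith [ht.1])).continuousAt.continuousWithinAt
  have hivt := intermediate_value_Icc h0 hcont
  have hx' : x ∈ Icc ((P.g i (P.v C.m + ((0 : ℝ) : ℂ))).re) (P.g i (P.v C.m + (T' : ℂ))).re := by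
    rw [P.phi_g_zero hC hi]
    exact ⟨hx, h1⟩
  obtain ⟨t, ht, hte⟩ := hivt hx'
  exact ⟨t, ht.1, hte⟩

/-- `x + i φ_i(x)` is a point of the curve, `x ≥ Re v_i` -/
theorem phi_mem (hC : C.Good) {i : ℕ} (hi : i ≤ C.m) {x : ℝ} (hx : (P.v i).re ≤ x) :
    ∃ t : ℝ, 0 ≤ t ∧ P.g i (P.v C.m + (t : ℂ)) = (x : ℂ) + (P.phi i x : ℂ) * Complex.I := by
  obtain ⟨t, ht, hte⟩ := P.phi_surj hC hi hx
  refine ⟨t, ht, ?_⟩
  have h1 := P.phi_curve hC hi ht
  rw [hte] at h1
  apply Complex.ext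
  · simp [hte]
  · simp [h1]

theorem curve_re (hC : C.Good) {i : ℕ} (hi : i ≤ C.m) {t : ℝ} (ht : 0 ≤ t) :
    (P.v i).re ≤ (P.g i (P.v C.m + (t : ℂ))).re := by
  have h1 : (P.g i (P.v C.m + ((0 : ℝ) : ℂ))).re ≤ (P.g i (P.v C.m + (t : ℂ))).re :=
    (P.phi_strictMono hC hi).monotoneOn (mem_Ici.2 le_rfl) (mem_Ici.2 ht) ht
  rwa [P.phi_g_zero hC hi] at h1

theorem phi_left (hC : C.Good) {i : ℕ} (hi : i ≤ C.m) {x : ℝ} (hx : x ≤ (P.v i).re) :
    P.phi i x = (P.v i).im := by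
  rcases hx.lt_or_eq with h | h
  · have hn : ¬ ∃ t : ℝ, 0 ≤ t ∧ (P.g i (P.v C.m + (t : ℂ))).re = x := by
      rintro ⟨t, ht, hte⟩
      have := P.curve_re hC hi ht
      linarith
    unfold Par.phi
    rw [dif_neg hn]
  · have h1 := P.phi_curve hC hi (t := 0) le_rfl
    rw [P.phi_g_zero hC hi] at h1
    rw [h, h1]

theorem phi_max (hC : C.Good) {i : ℕ} (hi : i ≤ C.m) (x : ℝ) :
    P.phi i (max x (P.v i).re) = P.phi i x := by
  rcases le_total x (P.v i).re with h | h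
  · rw [max_eq_right h, P.phi_left hC hi h, P.phi_left hC hi le_rfl]
  · rw [max_eq_left h]

theorem phi_lip_aux (hC : C.Good) {i : ℕ} (hi : i ≤ C.m) {x y : ℝ} (hx : (P.v i).re ≤ x)
    (hxy : x ≤ y) : |P.phi i x - P.phi i y| ≤ |x - y| / 1000 := by
  obtain ⟨s, hs, hse⟩ := P.phi_surj hC hi hx
  obtain ⟨t, ht, hte⟩ := P.phi_surj hC hi (hx.trans hxy)
  have hst : s ≤ t := by
    by_contra hcon
    push Not at hcon
    have h5 : (P.g i (P.v C.m + (t : ℂ))).re < (P.g i (P.v C.m + (s : ℂ))).re :=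
      P.phi_strictMono hC hi (mem_Ici.2 ht) (mem_Ici.2 hs) hcon
    linarith
  have h1 := P.phi_curve_lip hC hi hs hst
  have h2 := P.phi_curve hC hi hs
  have h3 := P.phi_curve hC hi ht
  rw [hse] at h2
  rw [hte] at h3
  rw [hse, hte, ← h2, ← h3] at h1
  rw [abs_sub_comm, abs_sub_comm x y, abs_of_nonneg (sub_nonneg.2 hxy)]
  exact h1

theorem phi_lip (hC : C.Good) {i : ℕ} (hi : i ≤ C.m) (x y : ℝ) :
    |P.phi i x - P.phi i y| ≤ |x - y| / 1000 := by
  rw [← P.phi_max hC hi x, ← P.phi_max hC hi y]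
  have h0 : |max x (P.v i).re - max y (P.v i).re| ≤ |x - y| :=
    abs_max_sub_max_le_abs x y (P.v i).re
  have h1 : |P.phi i (max x (P.v i).re) - P.phi i (max y (P.v i).re)| ≤
      |max x (P.v i).re - max y (P.v i).re| / 1000 := by
    rcases le_total (max x (P.v i).re) (max y (P.v i).re) with h | h
    · exact P.phi_lip_aux hC hi (le_max_right _ _) h
    · rw [abs_sub_comm, abs_sub_comm (max x (P.v i).re)]
      exact P.phi_lip_aux hC hi (le_max_right _ _) h
  linarith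

theorem phi_cont (hC : C.Good) {i : ℕ} (hi : i ≤ C.m) : Continuous (P.phi i) := by
  have h : LipschitzWith 1 (P.phi i) := by
    refine LipschitzWith.of_dist_le_mul fun x y => ?_
    rw [Real.dist_eq, Real.dist_eq, NNReal.coe_one, one_mul]
    have := P.phi_lip hC hi x y
    have := abs_nonneg (x - y)
    linarith
  exact h.continuous

theorem phi_bd (hC : C.Good) {i : ℕ} (hi : i ≤ C.m) (x : ℝ) : |P.phi i x| ≤ 20 := by
  rw [← P.phi_max hC hi x]
  obtain ⟨t, ht, hte⟩ := P.phi_surj hC hi (le_max_right x (P.v i).re)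
  rw [← hte, P.phi_curve hC hi ht]
  exact P.g_im' hC hi (P.phi_mem_U (by linarith))

/-- `x ≥ Re v_i` is not needed, since `phi i` is constant on the left -/
theorem phi_near (hC : C.Good) {i : ℕ} (hi : i < C.m) (x : ℝ) :
    |P.phi i x - 2 * Real.pi * (C.sg i : ℝ)| ≤ 1 / 100 := by
  rw [← P.phi_max hC hi.le x]
  obtain ⟨t, ht, hte⟩ := P.phi_surj hC hi.le (le_max_right x (P.v i).re)
  rw [← hte, P.phi_curve hC hi.le ht]
  exact P.g_im hC hi (P.phi_mem_U (by linarith))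

theorem phi_last (hC : C.Good) (x : ℝ) : P.phi C.m x = Real.pi - P.lam.arg := by
  rw [← P.phi_max hC le_rfl x]
  obtain ⟨t, ht, hte⟩ := P.phi_surj hC le_rfl (le_max_right x (P.v C.m).re)
  rw [← hte, P.phi_curve hC le_rfl ht, P.g_last, ← P.vm_im]
  simp

theorem phi_deriv (hC : C.Good) {i : ℕ} (hi : i ≤ C.m) {x : ℝ} (hx : (P.v i).re < x) :
    ∃ d : ℝ, |d| ≤ 1 / 1000 ∧ HasDerivAt (P.phi i) d x := by
  obtain ⟨t, ht, hte⟩ := P.phi_surj hC hi hx.le
  have ht0 : 0 < t := by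
    rcases ht.lt_or_eq with h | h
    · exact h
    · exfalso
      rw [← h, P.phi_g_zero hC hi] at hte
      linarith
  set h : ℝ → ℝ := fun t => (P.g i (P.v C.m + (t : ℂ))).re with hh
  obtain ⟨hc1, hc2⟩ := P.g_cone hC hi (P.phi_mem_U (t := t) (by linarith))
  have hc1' : 0 < (P.phiD i t).re := hc1
  have hc2' : |(P.phiD i t).im| ≤ (P.phiD i t).re / 1000 := hc2
  have hst : HasStrictDerivAt h (P.phiD i t).re t :=
    (P.phi_strict hC hi (t := t) (by linarith)).real_of_complex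
  have hinv := hst.to_localInverse hc1'.ne'
  have hevr := (hst.hasStrictFDerivAt_equiv hc1'.ne').eventually_right_inverse
  have hhx : h t = x := hte
  set T : ℝ → ℝ := hst.localInverse h (P.phiD i t).re t hc1'.ne' with hT
  have hTx : T (h t) = t := (hst.hasStrictFDerivAt_equiv hc1'.ne').localInverse_apply_image
  rw [hhx] at hinv hTx
  have hpos : ∀ᶠ y in nhds x, 0 < T y := by
    have hcon : ContinuousAt T x := hinv.hasDerivAt.continuousAt
    refine hcon.eventually (lt_mem_nhds ?_)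
    rw [hTx]
    exact ht0
  have hevr' : ∀ᶠ y in nhds x, h (T y) = y := by
    rw [← hhx]
    exact hevr
  have him : HasDerivAt (fun t : ℝ => (P.g i (P.v C.m + (t : ℂ))).im) (P.phiD i t).im (T x) := by
    rw [hTx]
    exact P.phi_im_deriv hC hi (by linarith)
  have hcomp := HasDerivAt.comp x him hinv.hasDerivAt
  refine ⟨(P.phiD i t).im * (P.phiD i t).re⁻¹, ?_, ?_⟩
  · rw [abs_mul, abs_inv, abs_of_pos hc1', ← div_eq_mul_inv, div_le_iff₀ hc1']
    linarith
  · refine hcomp.congr_of_eventuallyEq ?_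
    filter_upwards [hpos, hevr'] with y hy1 hy2
    have h1 := P.phi_curve hC hi hy1.le
    have h2 : (P.g i (P.v C.m + (T y : ℂ))).re = y := hy2
    rw [h2] at h1
    exact h1

end Par

end PJ
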