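import Pool.Agent.Lib.H31J.APar

/-!
# Chunk A-SIZE: sizes of the constants

All follow from `r_{k+1} = R exp(r_k) ≥ R (1 + r_k + r_k²/2)`, `R ≥ 10^6 (m+1)`, and `‖v i - r i‖ ≤ 25`.
`vm` gives `f (v m) = lam exp(log Λ + πi - Log lam) = -Λ`.
`small`: the left side is at most `(2R) (8 r_m)^m (4Λ) exp(-Λ/2)` and `Λ = R exp(r_m)`,
`m ≤ R/10^6`: e.g. `(8 r_m)^m ≤ exp(m · 8 r_m) ≤ exp(R r_m /10)`, `8 R ≤ exp R`…,
`Λ ≤ 8·exp(Λ/8)` and `Λ ≥ R (1+r_m+r_m²/2)`.
-/

set_option autoImplicit false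

namespace PJ

namespace Par

open Set

variable {C : Comb} (P : Par C)

theorem R_ge : (10 : ℝ) ^ 6 ≤ P.R := by
  have h := P.hR
  have hm : (0 : ℝ) ≤ (C.m : ℝ) := Nat.cast_nonneg _
  nlinarith

theorem r_ge {i : ℕ} (hi : 1 ≤ i) : P.R ≤ P.r i := by
  have hR := P.R_ge
  induction i, hi using Nat.le_induction with
  | base => exact P.r1.ge
  | succ k hk ih =>
    rw [P.rS k hk]
    have h1 : 1 ≤ Real.exp (P.r k) := Real.one_le_exp (by linarith)
    nlinarith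

theorem r_mono {i j : ℕ} (hi : 1 ≤ i) (hij : i ≤ j) : P.r i ≤ P.r j := by
  have hR := P.R_ge
  induction j, hij using Nat.le_induction with
  | base => exact le_refl _
  | succ k hk ih =>
    rw [P.rS k (hi.trans hk)]
    have h1 := Real.add_one_le_exp (P.r k)
    have h2 := P.r_ge (hi.trans hk)
    nlinarith

theorem Lam_ge (hC : C.Good) {i : ℕ} (hi : 1 ≤ i) (him : i ≤ C.m) :
    1000 * P.r i + 1000 ≤ P.Lam := by
  have hR := P.R_ge
  have h1 := P.rS C.m (hi.trans him)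
  have h2 := P.r_mono hi him
  have h3 := Real.add_one_le_exp (P.r C.m)
  have h4 := P.r_ge hi
  unfold Par.Lam
  rw [h1]
  nlinarith

theorem Lam_ge' : (10 : ℝ) ^ 6 ≤ P.Lam :=
  P.R_ge.trans (P.r_ge (Nat.succ_le_succ (Nat.zero_le _)))

theorem size_lam_close (hC : C.Good) : ‖P.lam - (P.R : ℂ)‖ ≤ 25 := by
  have h := P.vclose 1 le_rfl hC.m_pos
  rwa [P.v1, P.r1] at h

theorem lam_norm (hC : C.Good) : P.R - 25 ≤ ‖P.lam‖ ∧ ‖P.lam‖ ≤ P.R + 25 := by
  have h := P.size_lam_close hC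
  have hR := P.R_ge
  have h1 := abs_norm_sub_norm_le P.lam (P.R : ℂ)
  rw [Complex.norm_real, Real.norm_of_nonneg (by linarith : (0 : ℝ) ≤ P.R)] at h1
  have h2 := abs_le.1 (h1.trans h)
  constructor <;> linarith

theorem lam_ne (hC : C.Good) : P.lam ≠ 0 := by
  intro h0
  have h := (P.lam_norm hC).1
  rw [h0, norm_zero] at h
  have hR := P.R_ge
  linarith

theorem size_re_im {z : ℂ} {r : ℝ} (h : ‖z - (r : ℂ)‖ ≤ 25) :
    r - 25 ≤ z.re ∧ z.re ≤ r + 25 ∧ |z.im| ≤ 25 := by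
  have h1 := Complex.abs_re_le_norm (z - (r : ℂ))
  have h2 := Complex.abs_im_le_norm (z - (r : ℂ))
  simp only [Complex.sub_re, Complex.ofReal_re, Complex.sub_im, Complex.ofReal_im,
    sub_zero] at h1 h2
  obtain ⟨h3, h4⟩ := abs_le.1 (h1.trans h)
  exact ⟨by linarith, by linarith, h2.trans h⟩

theorem lam_arg (hC : C.Good) : |P.lam.arg| ≤ 1 / 1000 := by
  have hR := P.R_ge
  obtain ⟨h1, h2, h3⟩ := size_re_im (P.size_lam_close hC)
  have h4 : 0 < P.lam.re := by linarith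
  refine (par_arg_bd h4).trans ?_
  have : |P.lam.im| / P.lam.re ≤ 1 / 2000 := by
    rw [div_le_iff₀ h4]; linarith
  linarith

theorem log_lam (hC : C.Good) : |Real.log ‖P.lam‖ - Real.log P.R| ≤ 1 / 1000 := by
  refine par_log_close P.R_ge ?_
  obtain ⟨h1, h2⟩ := P.lam_norm hC
  rw [abs_le]
  constructor <;> linarith

theorem log_lam_pos (hC : C.Good) : 1 ≤ Real.log ‖P.lam‖ := by
  have hR := P.R_ge
  obtain ⟨h1, h2⟩ := P.lam_norm hC
  rw [Real.le_log_iff_exp_le (by linarith)]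
  have h3 := Real.exp_one_lt_d9
  linarith

theorem log_r_succ {i : ℕ} (hi : 1 ≤ i) : Real.log (P.r (i + 1)) = Real.log P.R + P.r i := by
  have hR := P.R_ge
  rw [P.rS i hi, Real.log_mul (by linarith) (Real.exp_pos _).ne', Real.log_exp]

theorem v_re {i : ℕ} (hi : 1 ≤ i) (him : i ≤ C.m) :
    P.r i - 25 ≤ (P.v i).re ∧ (P.v i).re ≤ P.r i + 25 ∧ |(P.v i).im| ≤ 25 :=
  size_re_im (P.vclose i hi him)

theorem v_norm {i : ℕ} (hi : 1 ≤ i) (him : i ≤ C.m) :
    P.r i / 2 ≤ ‖P.v i‖ ∧ ‖P.v i‖ ≤ 2 * P.r i := by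
  have h := P.vclose i hi him
  have hR := P.R_ge
  have hr := P.r_ge hi
  have h1 := abs_norm_sub_norm_le (P.v i) (P.r i : ℂ)
  rw [Complex.norm_real, Real.norm_of_nonneg (by linarith : (0 : ℝ) ≤ P.r i)] at h1
  have h2 := abs_le.1 (h1.trans h)
  constructor <;> linarith

/-- `f (v i) = v (i+1)` for `i < m`. -/
theorem f_v (hC : C.Good) {i : ℕ} (hi : i < C.m) : P.f (P.v i) = P.v (i + 1) := by
  have hR := P.R_ge
  have h1 := (P.v_norm (i := i + 1) (by omega) (by omega)).1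
  have h2 := P.r_ge (i := i + 1) (by omega)
  have hv : P.v (i + 1) ≠ 0 := by
    intro h0
    rw [h0, norm_zero] at h1
    linarith
  unfold Par.f
  rw [P.vlog i hi, Complex.exp_add, Complex.exp_sub, Complex.exp_log hv,
    Complex.exp_log (P.lam_ne hC)]
  have h3 : Complex.exp (2 * Real.pi * Complex.I * (C.sg i : ℂ)) = 1 := by
    rw [Complex.exp_eq_one_iff]
    exact ⟨C.sg i, by ring⟩
  rw [h3, mul_one]
  have := P.lam_ne hC
  field_simp

/-- `f (v m + ζ) = -Λ exp ζ`. -/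
theorem f_vm (hC : C.Good) (ζ : ℂ) : P.f (P.v C.m + ζ) = -(P.Lam : ℂ) * Complex.exp ζ := by
  have hR := P.R_ge
  have hL : 0 < P.r (C.m + 1) := by
    have := P.r_ge (i := C.m + 1) (by omega)
    linarith
  unfold Par.f Par.Lam
  have h0 := P.lam_ne hC
  rw [P.vm, Complex.exp_add, Complex.exp_sub, Complex.exp_add, Complex.exp_log h0,
    Complex.exp_pi_mul_I, ← Complex.ofReal_exp, Real.exp_log hL]
  field_simp

theorem vm_im : (P.v C.m).im = Real.pi - P.lam.arg := by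
  rw [P.vm]
  simp [Complex.log_im]

theorem vm_re (hC : C.Good) : (P.v C.m).re = P.r C.m + Real.log P.R - Real.log ‖P.lam‖ := by
  rw [P.vm, P.log_r_succ hC.m_pos]
  simp only [Complex.sub_re, Complex.add_re, Complex.ofReal_re, Complex.mul_re, Complex.I_re,
    mul_zero, Complex.ofReal_im, Complex.I_im, mul_one, sub_self, add_zero, Complex.log_re]
  ring

/-- everything else is tiny compared with `exp (Λ/2)` -/
theorem small (hC : C.Good) :
    ‖P.lam‖ * Real.exp (-P.Lam / 2) * ((∏ i ∈ Finset.Icc 1 C.m, (4 * ‖P.v i‖)) * (4 * P.Lam))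
      ≤ 1 / 8 := by
  have hR := P.R_ge
  have hm := hC.m_pos
  obtain ⟨hl1, hl2⟩ := P.lam_norm hC
  set q : ℝ := P.r C.m with hq
  have hqR : P.R ≤ q := P.r_ge hm
  have hLq : P.Lam = P.R * Real.exp q := P.rS C.m hm
  set L : ℝ := P.Lam with hL
  have hLL : P.R * (1 + q) ≤ L := by
    rw [hLq]
    have := Real.add_one_le_exp q
    nlinarith
  have hR0 : 0 < P.R := by linarith
  have hL0 : 0 < L := by nlinarith
  -- the product
  have hprod : (∏ i ∈ Finset.Icc 1 C.m, (4 * ‖P.v i‖)) ≤ (8 * q) ^ C.m := by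
    calc (∏ i ∈ Finset.Icc 1 C.m, (4 * ‖P.v i‖)) ≤ ∏ i ∈ Finset.Icc 1 C.m, (8 * q) := by
          refine Finset.prod_le_prod (fun i _ => by positivity) fun i hi => ?_
          rw [Finset.mem_Icc] at hi
          have h1 := (P.v_norm hi.1 hi.2).2
          have h2 := P.r_mono hi.1 hi.2
          linarith
      _ = (8 * q) ^ C.m := by simp
  have hE : 0 < Real.exp (L / 8) := Real.exp_pos _
  have hm6 : (10 : ℝ) ^ 6 * (C.m : ℝ) ≤ P.R := by
    have h := P.hR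
    linarith
  have hpow : (8 * q) ^ C.m ≤ Real.exp (L / 8) := by
    have h1 : 8 * q ≤ Real.exp (8 * q) := by
      have := Real.add_one_le_exp (8 * q)
      linarith
    calc (8 * q) ^ C.m ≤ (Real.exp (8 * q)) ^ C.m := by
          apply pow_le_pow_left₀ (by linarith) h1
      _ = Real.exp ((C.m : ℝ) * (8 * q)) := by rw [← Real.exp_nat_mul]
      _ ≤ Real.exp (L / 8) := by
          apply Real.exp_le_exp.2
          have hm0 : (0 : ℝ) ≤ (C.m : ℝ) := Nat.cast_nonneg _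
          nlinarith
  have hRe : 64 * P.R ≤ Real.exp (L / 8) := by
    have h1 := Real.add_one_le_exp (64 * P.R)
    have h2 : Real.exp (64 * P.R) ≤ Real.exp (L / 8) := by
      apply Real.exp_le_exp.2
      nlinarith
    linarith
  have hLe : L ≤ 8 * Real.exp (L / 8) := by
    have := Real.add_one_le_exp (L / 8)
    linarith
  have h8 : 8 ≤ Real.exp (L / 8) := by linarith
  have hprod0 : 0 ≤ ∏ i ∈ Finset.Icc 1 C.m, (4 * ‖P.v i‖) :=
    Finset.prod_nonneg fun i _ => by positivity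
  have hexp : Real.exp (-L / 2) * (Real.exp (L / 8)) ^ 4 = 1 := by
    rw [← Real.exp_nat_mul, ← Real.exp_add]
    rw [show -L / 2 + ((4 : ℕ) : ℝ) * (L / 8) = 0 by push_cast; ring, Real.exp_zero]
  have hEn : 0 < Real.exp (-L / 2) := Real.exp_pos _
  have hkey : ‖P.lam‖ * ((∏ i ∈ Finset.Icc 1 C.m, (4 * ‖P.v i‖)) * (4 * L)) ≤
      (1 / 8) * (Real.exp (L / 8)) ^ 4 := by
    set E := Real.exp (L / 8) with hEdef
    have a1 : ‖P.lam‖ ≤ E / 32 := by linarith
    have a2 : (∏ i ∈ Finset.Icc 1 C.m, (4 * ‖P.v i‖)) ≤ E := hprod.trans hpow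
    have a3 : 4 * L ≤ 32 * E := by linarith
    have a4 : (∏ i ∈ Finset.Icc 1 C.m, (4 * ‖P.v i‖)) * (4 * L) ≤ E * (32 * E) :=
      mul_le_mul a2 a3 (by linarith) hE.le
    calc ‖P.lam‖ * ((∏ i ∈ Finset.Icc 1 C.m, (4 * ‖P.v i‖)) * (4 * L))
        ≤ (E / 32) * (E * (32 * E)) := by
          apply mul_le_mul a1 a4 _ (by positivity)
          positivity
      _ = E ^ 3 := by ring
      _ ≤ (1 / 8) * E ^ 4 := by
          have h3 : 0 < E ^ 3 := by positivity
          nlinarith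
  calc ‖P.lam‖ * Real.exp (-L / 2) * ((∏ i ∈ Finset.Icc 1 C.m, (4 * ‖P.v i‖)) * (4 * L))
      = Real.exp (-L / 2) *
        (‖P.lam‖ * ((∏ i ∈ Finset.Icc 1 C.m, (4 * ‖P.v i‖)) * (4 * L))) := by ring
    _ ≤ Real.exp (-L / 2) * ((1 / 8) * (Real.exp (L / 8)) ^ 4) :=
        mul_le_mul_of_nonneg_left hkey hEn.le
    _ = (1 / 8) * (Real.exp (-L / 2) * (Real.exp (L / 8)) ^ 4) := by ring
    _ = 1 / 8 := by rw [hexp, mul_one]

end Par

end PJ
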