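import Pool.Agent.Lib.H31J.CW

/-! # PJ part C, file CA: arms over the centers, windows -/

set_option autoImplicit false

namespace PJ

open Filter Topology

variable {C : Comb}

theorem CA_step (hC : C.Sym) (τ : Fin 3) (b : ℕ) (hb : b ∈ arm τ) (n : ℕ) :
    C.Ea τ b n = C.de (cen τ n) (C.Ea τ b (n + 1)) := by
  have h1 : seg (cen τ) (n + 17 * n) 18 = seg (cen τ) 0 18 := by
    simp only [seg]
    apply List.map_congr_left
    intro r _
    have e : n + 17 * n + r = (0 + r) + 18 * n := by ring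
    rw [e, cen_add]
  have h2 : C.dw (seg (cen τ) n (17 * n + 18)) b = C.Ea τ b n := by
    rw [seg_add, dw_append, h1]
    have h3 : C.dw (seg (cen τ) 0 18) b = b := hC.ret_arm τ b hb
    rw [h3, Comb.Ea]
  have h4 : C.dw (seg (cen τ) n (17 * (n + 1) + 1)) b
      = C.de (cen τ n) (C.Ea τ b (n + 1)) := by
    rw [seg_succ, dw_cons, Comb.Ea]
  have h5 : 17 * n + 18 = 17 * (n + 1) + 1 := by ring
  rw [← h2, ← h4, h5]

/-- windows: if `v` begins with `P ≥ 6` letters of the center then the arcs are the ones of an arm of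
the center up to `P - 6` (by `win` there is `b_i` with `f i = Ea b_i i` for each `i ≤ P - 6`, and
`b_i = b_{i+1}` by `win_inj` since `Ea b i = de (cen i) (Ea b (i+1))`). -/
theorem win_arm (hC : C.Sym) (τ : Fin 3) (v : ℕ → ℤ) (f : ℕ → ℕ) (h : (v, f) ∈ C.X) (P : ℕ)
    (hP : 6 ≤ P) (hv : Agree P v (cen τ)) :
    f 0 ∈ arm τ ∧ ∀ i, i + 6 ≤ P → f i = C.Ea τ (f 0) i := by
  have hex : ∀ i, i + 6 ≤ P → ∃ b ∈ arm τ, f i = C.Ea τ b i := by
    intro i hi
    have h1 := X_dw h i 6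
    have h2 : seg v i 6 = seg (cen τ) i 6 := by
      simp only [seg]
      apply List.map_congr_left
      intro r hr
      rw [List.mem_range] at hr
      exact hv _ (by omega)
    rw [h2] at h1
    obtain ⟨b, hb, hb2⟩ := hC.win τ i (f (i + 6)) (X_le hC h _)
    exact ⟨b, hb, h1.trans hb2⟩
  have h0 : f 0 ∈ arm τ := by
    obtain ⟨b, hb, hb2⟩ := hex 0 hP
    have : C.Ea τ b 0 = b := by simp [Comb.Ea, seg_zero, dw_nil]
    rw [this] at hb2
    rw [hb2]; exact hb
  refine ⟨h0, ?_⟩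
  intro i
  induction i with
  | zero =>
    intro _
    simp [Comb.Ea, seg_zero, dw_nil]
  | succ i ih =>
    intro hi
    have ih' := ih (by omega)
    obtain ⟨b, hb, hb2⟩ := hex (i + 1) hi
    have h3 : f i = C.Ea τ b i := by
      have h4 : f i = C.de (v i) (f (i + 1)) := h i
      rw [CA_step hC τ b hb i, ← hb2, h4, hv i (by omega)]
    have h5 : b = f 0 := hC.win_inj τ i b (f 0) hb h0 (h3.symm.trans ih')
    rw [hb2, h5]

theorem Ea_mem (hC : C.Sym) (τ : Fin 3) (b : ℕ) (hb : b ∈ arm τ) : (cen τ, C.Ea τ b) ∈ C.X :=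
  fun n => CA_step hC τ b hb n

theorem Ea_zero (C : Comb) (τ : Fin 3) (b : ℕ) : C.Ea τ b 0 = b := by
  simp [Comb.Ea, seg_zero, dw_nil]

theorem cen_arm (hC : C.Sym) (τ : Fin 3) (f : ℕ → ℕ) (h : (cen τ, f) ∈ C.X) :
    f 0 ∈ arm τ ∧ f = C.Ea τ (f 0) := by
  have h1 := fun P (hP : 6 ≤ P) => win_arm hC τ (cen τ) f h P hP (fun _ _ => rfl)
  refine ⟨(h1 6 le_rfl).1, ?_⟩
  funext i
  exact (h1 (i + 6) (by omega)).2 i le_rfl

end PJ
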