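import Pool.Agent.Lib.H31J.CW

/-! # PJ part C, file CA2: existence and continuity of arms (compactness) -/

set_option autoImplicit false

namespace PJ

open Filter Topology

variable {C : Comb}

/-- a bounded sequence of naturals is almost constant along an ultrafilter -/
theorem CA2_lim (g : ℕ → ℕ) (hg : ∀ n, g n ≤ 17) :
    ∃ c, ∀ᶠ n in (hyperfilter ℕ : Filter ℕ), g n = c := by
  have h1 : ∀ᶠ n in (hyperfilter ℕ : Filter ℕ), ∃ c ∈ Set.Iic 17, g n = c :=
    Eventually.of_forall fun n => ⟨g n, hg n, rfl⟩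
  obtain ⟨c, -, hc⟩ := (Ultrafilter.eventually_exists_mem_iff (Set.finite_Iic 17)).1 h1
  exact ⟨c, hc⟩

theorem CA2_ge (i : ℕ) : ∀ᶠ n in (hyperfilter ℕ : Filter ℕ), i ≤ n := by
  have h : (hyperfilter ℕ : Filter ℕ) ≤ atTop := by
    rw [← Nat.cofinite_eq_atTop]
    exact hyperfilter_le_cofinite
  exact h (eventually_ge_atTop i)

/-- existence of arms over every itinerary (compactness) -/
theorem exists_arcs (hC : C.Sym) (u : ℕ → ℤ) : ∃ e, (u, e) ∈ C.X := by
  have h : ∀ i : ℕ, ∃ c, ∀ᶠ n in (hyperfilter ℕ : Filter ℕ), C.dw (seg u i (n - i)) 0 = c :=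
    fun i => CA2_lim _ fun n => dw_le hC _ _ (by norm_num)
  choose e he using h
  refine ⟨e, fun i => ?_⟩
  have h1 := ((he i).and (he (i + 1))).and (CA2_ge (i + 1))
  obtain ⟨n, ⟨h2, h3⟩, h4⟩ := h1.exists
  have h5 : n - i = (n - (i + 1)) + 1 := by omega
  rw [h5, seg_succ, dw_cons, h3] at h2
  exact h2.symm

/-- continuity of the arcs at a sequence with only one arm (compactness) -/
theorem arcs_cont (hC : C.Sym) (u : ℕ → ℤ) (e : ℕ → ℕ) (h : (u, e) ∈ C.X)
    (hu : ∀ e', (u, e') ∈ C.X → e' = e) (N : ℕ) :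
    ∃ N2, ∀ (w : ℕ → ℤ) (g : ℕ → ℕ), (w, g) ∈ C.X → Agree N2 u w → Agree N e g := by
  by_contra hcon
  push Not at hcon
  choose w g hX hA hN using hcon
  have hl : ∀ i : ℕ, ∃ c, ∀ᶠ n in (hyperfilter ℕ : Filter ℕ), g n i = c :=
    fun i => CA2_lim _ fun n => X_le hC (hX n) i
  choose e' he' using hl
  have hX' : (u, e') ∈ C.X := by
    intro i
    obtain ⟨n, ⟨h2, h3⟩, h4⟩ := (((he' i).and (he' (i + 1))).and (CA2_ge (i + 1))).exists
    have h5 : g n i = C.de (w n i) (g n (i + 1)) := hX n i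
    rw [h2, h3, ← hA n i (by omega)] at h5
    exact h5
  have hee := hu e' hX'
  subst hee
  have hall : ∀ᶠ n in (hyperfilter ℕ : Filter ℕ), ∀ k ∈ Finset.range N, g n k = e' k := by
    rw [Filter.eventually_all_finset]
    exact fun k _ => he' k
  obtain ⟨n, hn⟩ := hall.exists
  exact hN n fun k hk => (hn k (Finset.mem_range.2 hk)).symm

end PJ
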