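import Pool.Agent.Lib.H31J.CP

/-! # PJ part C, file CK: contraction factors of words -/

set_option autoImplicit false

namespace PJ

open Filter Topology

theorem CK_cons_le (i : ℤ) (x : List ℤ) : kap (i :: x) ≤ kap x := by
  have h1 : 0 ≤ Lw (i :: x) 0 := Lw_nonneg _ _ le_rfl
  have h2 := kap_pos x
  show kap x / (1 + Lw (i :: x) 0) ≤ kap x
  rw [div_le_iff₀ (by linarith)]
  nlinarith

theorem CK_two_pi (j : ℤ) (h0 : j ≠ 0) : 1 ≤ 2 * Real.pi * |(j : ℝ)| := by
  have h1 : (1 : ℝ) ≤ |(j : ℝ)| := by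
    have : (1 : ℤ) ≤ |j| := Int.one_le_abs h0
    exact_mod_cast this
  have h2 := Real.pi_gt_three
  nlinarith

theorem kap_of_mem (w : List ℤ) (j : ℤ) (hj : j ∈ w) (h0 : j ≠ 0) : kap w ≤ 1 / 2 := by
  induction w with
  | nil => simp at hj
  | cons i x ih =>
    rcases List.mem_cons.1 hj with h | h
    · subst h
      have h1 : 0 ≤ Lw x 0 := Lw_nonneg _ _ le_rfl
      have h2 : 0 ≤ Real.log (1 + Lw x 0) := Real.log_nonneg (by linarith)
      have h3 := CK_two_pi j h0
      have h4 := kap_le_one x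
      show kap x / (1 + (2 * Real.pi * |(j : ℝ)| + Real.log (1 + Lw x 0))) ≤ 1 / 2
      rw [div_le_iff₀ (by linarith)]
      linarith
    · exact (CK_cons_le i x).trans (ih h)

/-- every deviation word contracts, except some with child type `0` -/
theorem kap_blk (τ : Fin 3) (a : Dv τ) : kap (blk τ a.1) ≤ 1 / 2 ∨ (τ ≠ 0 ∧ cty τ a.1 = 0) := by
  by_cases h : a.1.2 = 0
  · right
    have h1 := a.2
    rw [h] at h1
    constructor
    · intro h2
      subst h2
      simp [cen] at h1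
    · unfold cty
      rw [h]
      simp
  · left
    exact kap_of_mem _ _ (by simp [blk]) h

theorem CK_lw_zero (p : ℕ) (j : ℤ) (hj : j ≠ 0) :
    1 / ((p : ℝ) + 1) ≤ Lw (List.replicate p 0 ++ [j]) 0 := by
  induction p with
  | zero =>
    have h3 := CK_two_pi j hj
    show _ ≤ 2 * Real.pi * |(j : ℝ)| + Real.log (1 + 0)
    simp
    linarith
  | succ p ih =>
    have h0 : (0 : ℝ) < (p : ℝ) + 1 := by positivity
    set y := Lw (List.replicate p 0 ++ [j]) 0 with hy
    have hy0 : 0 < y := lt_of_lt_of_le (by positivity) ih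
    have h1 : Lw (List.replicate (p + 1) 0 ++ [j]) 0 = 2 * Real.pi * |((0 : ℤ) : ℝ)| + Real.log (1 + y) := by
      rw [List.replicate_succ, List.cons_append]
      rfl
    rw [h1]
    have h2 : 1 - (1 + y)⁻¹ ≤ Real.log (1 + y) := Real.one_sub_inv_le_log_of_pos (by linarith)
    have h3 : 1 / (((p + 1 : ℕ) : ℝ) + 1) ≤ 1 - (1 + y)⁻¹ := by
      have h4 : 1 - (1 + y)⁻¹ = y / (1 + y) := by field_simp; ring
      rw [h4, div_le_div_iff₀ (by positivity) (by linarith)]
      rw [div_le_iff₀ h0] at ih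
      push_cast
      nlinarith
    simp
    simp at h3
    linarith

theorem CK_kap_zero (p : ℕ) (j : ℤ) (hj : j ≠ 0) :
    kap (List.replicate p 0 ++ [j]) ≤ 1 / ((p : ℝ) + 2) := by
  induction p with
  | zero =>
    have := kap_of_mem [j] j (by simp) hj
    simpa using this
  | succ p ih =>
    have h1 := CK_lw_zero (p + 1) j hj
    have h2 : kap (List.replicate (p + 1) 0 ++ [j])
        = kap (List.replicate p 0 ++ [j]) / (1 + Lw (List.replicate (p + 1) 0 ++ [j]) 0) := by
      rw [List.replicate_succ, List.cons_append]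
      rfl
    rw [h2]
    have h3 := kap_pos (List.replicate p 0 ++ [j])
    have h4 : (0 : ℝ) < (p : ℝ) + 2 := by positivity
    push_cast at h1 ⊢
    set L := Lw (List.replicate (p + 1) 0 ++ [j]) 0
    have h5 : 0 < 1 / ((p : ℝ) + 1 + 1) := by positivity
    rw [div_le_div_iff₀ (by linarith) (by positivity)]
    rw [div_le_iff₀ (by positivity)] at h1
    rw [le_div_iff₀ h4] at ih
    nlinarith

theorem CK_seg_zero (p : ℕ) : seg (cen 0) 0 p = List.replicate p 0 := by
  apply List.ext_getElem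
  · simp
  · intro n h1 h2
    simp [seg, cen]

theorem CK_seg_six' (τ : Fin 3) (hτ : τ ≠ 0) (i q : ℕ) :
    kap (seg (cen τ) i (6 * q)) ≤ (1 / 2) ^ q := by
  induction q with
  | zero => simpa [seg_zero] using kap_le_one []
  | succ q ih =>
    have h1 : 6 * (q + 1) = 6 * q + 6 := by ring
    rw [h1, seg_add]
    have h2 : kap (seg (cen τ) (i + 6 * q) 6) ≤ 1 / 2 := by
      obtain ⟨r, hr, hr2⟩ : ∃ r, r < 6 ∧ (i + 6 * q + r) % 2 = 1 := by
        by_cases h : (i + 6 * q) % 2 = 1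
        · exact ⟨0, by norm_num, by omega⟩
        · exact ⟨1, by norm_num, by omega⟩
      apply kap_of_mem _ (cen τ (i + 6 * q + r))
      · unfold seg
        rw [List.mem_map]
        exact ⟨r, by simpa using hr, rfl⟩
      · unfold cen
        rw [if_neg hτ]
        split_ifs <;> simp
    refine (kap_append _ _).trans ?_
    rw [pow_succ]
    exact mul_le_mul ih h2 (kap_pos _).le (by positivity)

theorem CK_seg_six (τ : Fin 3) (hτ : τ ≠ 0) (q : ℕ) : kap (seg (cen τ) 0 (6 * q)) ≤ (1 / 2) ^ q :=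
  CK_seg_six' τ hτ 0 q

/-- For `τ = 0` by `Lw (0^p j) 0 ≥ 1/(p+1)` and `kap (0^p j) ≤ 1/(p+2)` (induction on `p`, with
`log (1+y) ≥ y/(1+y)`); for `τ = 1, 2` by the nonzero letters of the center. -/
theorem kap_blk_small (η : ℝ) (hη : 0 < η) :
    ∃ P : ℕ, ∀ (τ : Fin 3) (a : Dv τ), P ≤ a.1.1 → kap (blk τ a.1) ≤ η := by
  obtain ⟨q, hq⟩ := exists_pow_lt_of_lt_one hη (by norm_num : (1 / 2 : ℝ) < 1)
  obtain ⟨n, hn⟩ := exists_nat_one_div_lt hη
  refine ⟨max (6 * q) n, fun τ a ha => ?_⟩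
  have h1 : 6 * q ≤ a.1.1 := (le_max_left _ _).trans ha
  have h2 : n ≤ a.1.1 := (le_max_right _ _).trans ha
  by_cases hτ : τ = 0
  · subst hτ
    have hj : a.1.2 ≠ 0 := by
      have := a.2
      simpa [cen] using this
    unfold blk
    rw [CK_seg_zero]
    refine (CK_kap_zero _ _ hj).trans ?_
    have h3 : (n : ℝ) ≤ a.1.1 := by exact_mod_cast h2
    have h4 : 1 / ((a.1.1 : ℝ) + 2) ≤ 1 / ((n : ℝ) + 1) :=
      one_div_le_one_div_of_le (by positivity) (by linarith)
    linarith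
  · unfold blk
    obtain ⟨r, hr⟩ := Nat.exists_eq_add_of_le h1
    rw [hr, seg_add, List.append_assoc]
    have h3 := kap_append (seg (cen τ) 0 (6 * q)) (seg (cen τ) (0 + 6 * q) r ++ [a.1.2])
    have h4 := CK_seg_six τ hτ q
    have h5 := kap_le_one (seg (cen τ) (0 + 6 * q) r ++ [a.1.2])
    have h6 := kap_pos (seg (cen τ) 0 (6 * q))
    nlinarith

end PJ
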