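import Pool.Agent.Lib.H31J.CY
import Pool.Agent.Lib.H31J.CK

/-! # PJ part C, file CC1: potentials of centers -/

set_option autoImplicit false

namespace PJ

open Filter Topology

theorem CC1_cen_abs (τ : Fin 3) (n : ℕ) : |cen τ n| ≤ 2 := by
  rw [abs_of_nonneg (cen_nonneg τ n)]
  exact cen_le τ n

theorem Ad_cen (τ : Fin 3) : Ad (cen τ) := (Ad_of_bdd _ (CC1_cen_abs τ)).1

theorem Y_cen_le (τ : Fin 3) : Y (cen τ) ≤ 16 := (Ad_of_bdd _ (CC1_cen_abs τ)).2

theorem CC1_Lw_zero_cons (x : List ℤ) (y : ℝ) : Lw (0 :: x) y = Real.log (1 + Lw x y) := by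
  show 2 * Real.pi * |((0 : ℤ) : ℝ)| + Real.log (1 + Lw x y) = _
  simp

theorem Y_cen_zero : Y (cen 0) = 0 := by
  have h : ∀ n, Lw (seg (cen 0) 0 n) 0 = 0 := by
    intro n
    rw [CK_seg_zero]
    induction n with
    | zero => rfl
    | succ n ih =>
      rw [List.replicate_succ, CC1_Lw_zero_cons, ih]
      simp
  unfold Y
  simp only [h]
  exact ciSup_const

theorem CC1_iter (B : ℝ) (hB : 0 ≤ B) :
    Tendsto (fun p => Lw (List.replicate p 0) B) atTop (𝓝 0) := by
  have hn : ∀ p, 0 ≤ Lw (List.replicate p 0) B := fun p => Lw_nonneg _ _ hB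
  have hs : ∀ p, Lw (List.replicate (p + 1) 0) B = Real.log (1 + Lw (List.replicate p 0) B) := by
    intro p
    rw [List.replicate_succ, CC1_Lw_zero_cons]
  have ha : Antitone (fun p => Lw (List.replicate p 0) B) := by
    apply antitone_nat_of_succ_le
    intro p
    rw [hs]
    have := Real.log_le_sub_one_of_pos (show 0 < 1 + Lw (List.replicate p 0) B by linarith [hn p])
    linarith
  have hb : BddBelow (Set.range (fun p => Lw (List.replicate p 0) B)) :=
    ⟨0, by rintro _ ⟨p, rfl⟩; exact hn p⟩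
  have hl := tendsto_atTop_ciInf ha hb
  set L := ⨅ p, Lw (List.replicate p 0) B with hL
  have hL0 : 0 ≤ L := le_ciInf hn
  have h1 : Tendsto (fun p => Lw (List.replicate (p + 1) 0) B) atTop (𝓝 L) :=
    hl.comp (tendsto_add_atTop_nat 1)
  have h2 : Tendsto (fun p => Real.log (1 + Lw (List.replicate p 0) B)) atTop
      (𝓝 (Real.log (1 + L))) :=
    (hl.const_add 1).log (by linarith)
  have h3 : L = Real.log (1 + L) := by
    refine tendsto_nhds_unique h1 ?_
    simp only [hs]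
    exact h2
  have h4 : L = 0 := by
    by_contra hne
    have h5 : 0 < L := lt_of_le_of_ne hL0 (Ne.symm hne)
    have := Real.log_lt_sub_one_of_pos (show 0 < 1 + L by linarith) (by linarith)
    linarith
  rw [h4] at hl
  exact hl

/-- For `τ = 0`: the iterates of `log (1 + ·)` tend to `0`; for `τ = 1, 2`: contraction. -/
theorem tendsto_cen (τ : Fin 3) (B : ℝ) (hB : 0 ≤ B) :
    Tendsto (fun p => Lw (seg (cen τ) 0 p) B) atTop (𝓝 (Y (cen τ))) := by
  by_cases hτ : τ = 0
  · subst hτ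
    rw [Y_cen_zero]
    simp only [CK_seg_zero]
    exact CC1_iter B hB
  · rw [Metric.tendsto_atTop]
    intro ε hε
    obtain ⟨q, hq⟩ := exists_pow_lt_of_lt_one (show 0 < ε / (B + 17) by positivity)
      (by norm_num : (1 / 2 : ℝ) < 1)
    refine ⟨6 * q + 1, fun n hn => ?_⟩
    obtain ⟨r, hr⟩ := Nat.exists_eq_add_of_le hn
    have h1 : n = (6 * q + r) + 1 := by omega
    have hb := Ad_of_bdd (sh n (cen τ)) (fun k => CC1_cen_abs τ (n + k))
    have h2 : Y (cen τ) = Lw (seg (cen τ) 0 n) (Y (sh n (cen τ))) := by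
      rw [← Y_pre _ _ hb.1, pre_seg]
    have hY0 := Y_nonneg (sh n (cen τ))
    have hY1 := hb.2
    rw [Real.dist_eq, h2]
    generalize Y (sh n (cen τ)) = y at hY0 hY1
    rw [h1, seg_succ]
    have h3 : Lw (cen τ 0 :: seg (cen τ) (0 + 1) (6 * q + r)) B
        - Lw (cen τ 0 :: seg (cen τ) (0 + 1) (6 * q + r)) y
        = mw (seg (cen τ) (0 + 1) (6 * q + r)) B - mw (seg (cen τ) (0 + 1) (6 * q + r)) y := by
      show (2 * Real.pi * |((cen τ 0 : ℤ) : ℝ)| + Real.log (1 + Lw _ B))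
        - (2 * Real.pi * |((cen τ 0 : ℤ) : ℝ)| + Real.log (1 + Lw _ y)) = _
      unfold mw
      ring
    rw [h3]
    have h4 := mw_lip (seg (cen τ) (0 + 1) (6 * q + r)) y B hY0 hB
    have h5 : kap (seg (cen τ) (0 + 1) (6 * q + r)) ≤ (1 / 2) ^ q := by
      rw [seg_add]
      have h6 := kap_append (seg (cen τ) (0 + 1) (6 * q)) (seg (cen τ) (0 + 1 + 6 * q) r)
      have h7 := CK_seg_six' τ hτ (0 + 1) q
      have h8 := kap_le_one (seg (cen τ) (0 + 1 + 6 * q) r)
      have h9 := kap_pos (seg (cen τ) (0 + 1) (6 * q))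
      nlinarith
    have h10 : |B - y| ≤ B + 17 := by
      rw [abs_le]
      constructor <;> linarith
    have h11 : (1 / 2 : ℝ) ^ q * (B + 17) < ε := by
      rw [lt_div_iff₀ (by positivity)] at hq
      exact hq
    have h12 : kap (seg (cen τ) (0 + 1) (6 * q + r)) * |B - y| ≤ (1 / 2) ^ q * (B + 17) :=
      mul_le_mul h5 h10 (abs_nonneg _) (by positivity)
    linarith

theorem tendsto_mw_cen (x : List ℤ) (τ : Fin 3) (B : ℝ) (hB : 0 ≤ B) :
    Tendsto (fun p => mw (x ++ seg (cen τ) 0 p) B) atTop (𝓝 (mw x (Y (cen τ)))) := by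
  simp only [mw_append]
  have h1 : ContinuousWithinAt (mw x) (Set.Ici 0) (Y (cen τ)) :=
    mw_cont x _ (Y_nonneg _)
  refine h1.tendsto.comp ?_
  rw [tendsto_nhdsWithin_iff]
  exact ⟨tendsto_cen τ B hB, Eventually.of_forall fun p => Lw_nonneg _ _ hB⟩

end PJ
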