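import Pool.Agent.Lib.H31J.CC1

/-! # PJ part C, file CC2: potentials of deviations -/

set_option autoImplicit false

namespace PJ

open Filter Topology

theorem CC2_single (j : ℤ) : Lw [j] 0 = 2 * Real.pi * |(j : ℝ)| := by
  simp [Lw]

theorem CC2_single_nonneg (j : ℤ) : 0 ≤ Lw [j] 0 := Lw_nonneg [j] 0 le_rfl

theorem CC2_blk (x : List ℤ) (τ : Fin 3) (a : ℕ × ℤ) :
    mw (x ++ blk τ a) 0 = mw (x ++ seg (cen τ) 0 a.1) (2 * Real.pi * |(a.2 : ℝ)|) := by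
  rw [blk, ← List.append_assoc, mw_append, CC2_single]

theorem blk_lower (x : List ℤ) (τ : Fin 3) (a : ℕ × ℤ) :
    -(16 * kap x) ≤ mw (x ++ blk τ a) 0 - mw x (Y (cen τ)) := by
  have h1 : 0 ≤ Lw (blk τ a) 0 := Lw_nonneg _ 0 le_rfl
  have h2 : mw x 0 ≤ mw x (Lw (blk τ a) 0) := mw_mono x 0 _ le_rfl h1
  have h3 : |mw x (Y (cen τ)) - mw x 0| ≤ kap x * |Y (cen τ) - 0| :=
    mw_lip x 0 (Y (cen τ)) le_rfl (Y_nonneg _)
  have h4 : kap x * |Y (cen τ) - 0| ≤ kap x * 16 := by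
    apply mul_le_mul_of_nonneg_left _ (kap_pos x).le
    rw [sub_zero, abs_of_nonneg (Y_nonneg _)]
    exact Y_cen_le τ
  have h5 := le_abs_self (mw x (Y (cen τ)) - mw x 0)
  rw [mw_append]
  linarith

/-- finitely many deviations with bounded position and bounded potential -/
theorem blk_finite (x : List ℤ) (τ : Fin 3) (P : ℕ) (B : ℝ) :
    {a : Dv τ | a.1.1 ≤ P ∧ mw (x ++ blk τ a.1) 0 ≤ B}.Finite := by
  have h1 : ∀ᶠ y : ℝ in atTop, ∀ p ∈ Finset.range (P + 1),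
      B < mw (x ++ seg (cen τ) 0 p) y := by
    rw [Filter.eventually_all_finset]
    intro p _
    exact (mw_atTop (x ++ seg (cen τ) 0 p)).eventually_gt_atTop B
  obtain ⟨K, hK⟩ := Filter.eventually_atTop.1 h1
  obtain ⟨L, hL⟩ := exists_nat_gt K
  have hfin : ((Set.Iic P) ×ˢ (Set.Icc (-(L : ℤ)) (L : ℤ))).Finite :=
    (Set.finite_Iic P).prod (Set.finite_Icc _ _)
  refine (hfin.preimage (Subtype.val_injective (p := fun a : ℕ × ℤ => a.2 ≠ cen τ a.1)).injOn).subset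
    ?_
  rintro a ⟨ha, hb⟩
  simp only [Set.mem_preimage, Set.mem_prod, Set.mem_Iic, Set.mem_Icc]
  refine ⟨ha, ?_⟩
  rw [← abs_le]
  by_contra hc
  push Not at hc
  have h2 : (L : ℝ) < |(a.1.2 : ℝ)| := by
    have : ((L : ℤ) : ℝ) < ((|a.1.2| : ℤ) : ℝ) := by exact_mod_cast hc
    simpa using this
  have h3 : K ≤ 2 * Real.pi * |(a.1.2 : ℝ)| := by
    have hpi := Real.pi_gt_three
    nlinarith [abs_nonneg (a.1.2 : ℝ)]
  have h4 := hK _ h3 a.1.1 (Finset.mem_range.2 (by omega))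
  rw [← CC2_blk] at h4
  linarith

theorem blk_finite_below (x : List ℤ) (τ : Fin 3) (η : ℝ) (hη : 0 < η) :
    {a : Dv τ | mw (x ++ blk τ a.1) 0 - mw x (Y (cen τ)) < -η}.Finite := by
  have h1 := (tendsto_mw_cen x τ 0 le_rfl).eventually
    (lt_mem_nhds (show mw x (Y (cen τ)) - η < mw x (Y (cen τ)) by linarith))
  obtain ⟨P, hP⟩ := Filter.eventually_atTop.1 h1
  refine (blk_finite x τ P (mw x (Y (cen τ)))).subset ?_
  intro a ha
  simp only [Set.mem_ofPred_eq] at ha ⊢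
  refine ⟨?_, by linarith⟩
  by_contra hc
  push Not at hc
  have h2 := hP a.1.1 hc.le
  have h3 : mw (x ++ seg (cen τ) 0 a.1.1) 0 ≤ mw (x ++ blk τ a.1) 0 := by
    rw [CC2_blk]
    exact mw_mono _ _ _ le_rfl (by positivity)
  linarith

/-- Density: for large `p ≡ p0` take `Z` with `mw (x ++ cen|p) Z = mw x (Y cen) + r`
(intermediate value theorem; `Z → ∞` by `tendsto_mw_cen`), `j = ⌊Z / 2π⌋`, and `mw_sub_le'`. -/
theorem blk_dense (x : List ℤ) (τ : Fin 3) (p0 : ℕ) (r η : ℝ) (hr : 0 < r) (hη : 0 < η) :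
    {a : Dv τ | (∃ q, a.1.1 = p0 + 18 * q) ∧ 3 ≤ a.1.2 ∧
      |mw (x ++ blk τ a.1) 0 - mw x (Y (cen τ)) - r| < η}.Infinite := by
  have hpi := Real.pi_pos
  apply Set.Infinite.of_image (fun a : Dv τ => a.1.1)
  apply Set.infinite_of_forall_exists_gt
  intro N
  set B : ℝ := max (8 * Real.pi) (2 * Real.pi + 2 * Real.pi / η) with hB
  have hB1 : 8 * Real.pi ≤ B := le_max_left _ _
  have hB2 : 2 * Real.pi + 2 * Real.pi / η ≤ B := le_max_right _ _
  have hB0 : 0 ≤ B := by nlinarith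
  have h1 := (tendsto_mw_cen x τ B hB0).eventually
    (gt_mem_nhds (show mw x (Y (cen τ)) < mw x (Y (cen τ)) + r by linarith))
  obtain ⟨P, hP⟩ := Filter.eventually_atTop.1 h1
  set q : ℕ := max P (N + 1) with hq
  set p : ℕ := p0 + 18 * q with hp
  have hpP : P ≤ p := by have := le_max_left P (N + 1); omega
  have hpN : N < p := by have := le_max_right P (N + 1); omega
  have h2 := hP p hpP
  set w : List ℤ := x ++ seg (cen τ) 0 p with hw
  obtain ⟨Z1, hZ1⟩ := Filter.eventually_atTop.1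
    ((mw_atTop w).eventually_ge_atTop (mw x (Y (cen τ)) + r))
  set Z2 := max B Z1
  have h3 : mw x (Y (cen τ)) + r ≤ mw w Z2 := hZ1 Z2 (le_max_right _ _)
  have hBZ : B ≤ Z2 := le_max_left _ _
  have hcont : ContinuousOn (mw w) (Set.Icc B Z2) :=
    (mw_cont w).mono (fun y hy => Set.mem_Ici.2 (hB0.trans hy.1))
  obtain ⟨Z, hZ, hZe⟩ := intermediate_value_Icc hBZ hcont ⟨h2.le, h3⟩
  have hZB : B ≤ Z := hZ.1
  set j : ℤ := ⌊Z / (2 * Real.pi)⌋ with hj
  have hj1 : (j : ℝ) ≤ Z / (2 * Real.pi) := Int.floor_le _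
  have hj2 : Z / (2 * Real.pi) < j + 1 := Int.lt_floor_add_one _
  have hj3 : (3 : ℤ) ≤ j := by
    rw [hj, Int.le_floor]
    rw [le_div_iff₀ (by positivity)]
    push_cast
    nlinarith
  have hj3' : (3 : ℝ) ≤ (j : ℝ) := by exact_mod_cast hj3
  have hy1 : 2 * Real.pi * (j : ℝ) ≤ Z := by
    rw [le_div_iff₀ (by positivity)] at hj1
    linarith
  have hy2 : Z - 2 * Real.pi < 2 * Real.pi * (j : ℝ) := by
    rw [div_lt_iff₀ (by positivity)] at hj2
    linarith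
  have hjne : j ≠ cen τ p := by
    have := cen_le τ p
    omega
  refine ⟨p, ⟨⟨(p, j), hjne⟩, ⟨⟨q, rfl⟩, hj3, ?_⟩, rfl⟩, hpN⟩
  have e1 : mw (x ++ blk τ (p, j)) 0 = mw w (2 * Real.pi * (j : ℝ)) := by
    rw [CC2_blk]
    simp only
    rw [abs_of_nonneg (by linarith : (0 : ℝ) ≤ (j : ℝ))]
  have hy0 : 0 ≤ 2 * Real.pi * (j : ℝ) := by positivity
  have h4 := mw_sub_le' w (2 * Real.pi * (j : ℝ)) Z hy0 hy1
  have h5 := mw_mono w (2 * Real.pi * (j : ℝ)) Z hy0 hy1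
  have h6 : (Z - 2 * Real.pi * (j : ℝ)) / (1 + 2 * Real.pi * (j : ℝ)) < η := by
    rw [div_lt_iff₀ (by positivity)]
    have h7 : 2 * Real.pi / η * η = 2 * Real.pi := by field_simp
    nlinarith
  show |mw (x ++ blk τ (p, j)) 0 - mw x (Y (cen τ)) - r| < η
  rw [e1, abs_lt]
  constructor <;> linarith

end PJ
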