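import Pool.Agent.Lib.H31J.CC1

/-! # PJ part C, file CC3: potentials of special children -/

set_option autoImplicit false

namespace PJ

open Filter Topology

theorem CC3_cases (τ : Fin 3) (a : ℕ × ℤ) (h : cty τ a ≠ 0) :
    (a.2 = 1 ∧ cty τ a = 1) ∨ (a.2 = 2 ∧ cty τ a = 2) := by
  unfold cty at h ⊢
  by_cases h1 : τ = 0 ∧ a.2 = 1
  · left
    rw [if_pos h1]
    exact ⟨h1.2, rfl⟩
  · rw [if_neg h1] at h ⊢
    by_cases h2 : τ = 1 ∧ a.2 = 2 ∧ a.1 % 2 = 1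
    · right
      rw [if_pos h2]
      exact ⟨h2.2.1, rfl⟩
    · rw [if_neg h2] at h
      exact absurd rfl h

theorem CC3_abs (τ σ : Fin 3) (a : ℕ × ℤ) (ha : |a.2| ≤ 2) (n : ℕ) :
    |pre (blk τ a) (cen σ) n| ≤ 2 := by
  rcases lt_trichotomy n a.1 with h | h | h
  · rw [pre_blk_lt τ a _ n h]
    exact CC1_cen_abs τ n
  · rw [h, pre_blk_eq]
    exact ha
  · have h1 := congrFun (sh_pre (blk τ a) (cen σ)) (n - (a.1 + 1))
    rw [blk_length] at h1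
    have h2 : a.1 + 1 + (n - (a.1 + 1)) = n := by omega
    simp only [sh, h2] at h1
    rw [h1]
    exact CC1_cen_abs σ _

/-- special children -/
theorem blk_special (x : List ℤ) (τ : Fin 3) (a : ℕ × ℤ) (h : cty τ a ≠ 0) :
    |mw (x ++ blk τ a) (Y (cen (cty τ a))) - mw x (Y (cen τ))| ≤ 16 * kap x := by
  have ha : |a.2| ≤ 2 := by
    rcases CC3_cases τ a h with h1 | h1 <;> rw [h1.1] <;> norm_num
  have h1 := (Ad_of_bdd _ (CC3_abs τ (cty τ a) a ha)).2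
  rw [Y_pre _ _ (Ad_cen _)] at h1
  rw [mw_append]
  have h2 : 0 ≤ Lw (blk τ a) (Y (cen (cty τ a))) := Lw_nonneg _ _ (Y_nonneg _)
  have h3 := mw_lip x (Y (cen τ)) (Lw (blk τ a) (Y (cen (cty τ a)))) (Y_nonneg _) h2
  refine h3.trans ?_
  rw [mul_comm 16]
  refine mul_le_mul_of_nonneg_left ?_ (kap_pos x).le
  have h4 := Y_nonneg (cen τ)
  have h5 := Y_cen_le τ
  rw [abs_le]
  constructor <;> linarith

theorem blk_special_small (x : List ℤ) (τ : Fin 3) (η : ℝ) (hη : 0 < η) :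
    ∃ P : ℕ, ∀ a : ℕ × ℤ, cty τ a ≠ 0 → P ≤ a.1 →
      |mw (x ++ blk τ a) (Y (cen (cty τ a))) - mw x (Y (cen τ))| < η := by
  have key : ∀ (j : ℤ) (c : Fin 3), ∃ P : ℕ, ∀ p, P ≤ p →
      |mw (x ++ (seg (cen τ) 0 p ++ [j])) (Y (cen c)) - mw x (Y (cen τ))| < η := by
    intro j c
    have h1 : 0 ≤ Lw [j] (Y (cen c)) := Lw_nonneg _ _ (Y_nonneg _)
    have h2 := tendsto_mw_cen x τ _ h1
    rw [Metric.tendsto_atTop] at h2
    obtain ⟨P, hP⟩ := h2 η hη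
    refine ⟨P, fun p hp => ?_⟩
    have h3 := hP p hp
    rw [Real.dist_eq] at h3
    rw [← List.append_assoc, mw_append]
    exact h3
  obtain ⟨P1, h1⟩ := key 1 1
  obtain ⟨P2, h2⟩ := key 2 2
  refine ⟨max P1 P2, fun a ha hP => ?_⟩
  unfold blk
  rcases CC3_cases τ a ha with h | h
  · rw [h.1, h.2]
    exact h1 _ ((le_max_left _ _).trans hP)
  · rw [h.1, h.2]
    exact h2 _ ((le_max_right _ _).trans hP)

end PJ
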