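import Pool.Agent.Lib.H31J.CT2
import Pool.Agent.Lib.H31J.CA

/-! # PJ part C, file CCor1: correspondence of the arms at one stage -/

set_option autoImplicit false

namespace PJ

open Filter Topology

variable {C C' : Comb} (M : Mt C C')

/-- `π_i' = th π_i` for the arcs `f` over `v`, `f'` over `out s0 v`, at the stage `i` -/
def Mt.CorAt (M : Mt C C') (v : ℕ → ℤ) (f f' : ℕ → ℕ) (i : ℕ) : Prop :=
  C'.ret (M.stg v i).1.ty (f' (M.stg v i).1.x'.length)
    = M.th (M.stg v i).1.ty (C.ret (M.stg v i).1.ty (f (M.stg v i).1.x.length))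

theorem cc1_arm_le (τ : Fin 3) (b : ℕ) (h : b ∈ arm τ) : b ≤ 17 := by
  unfold arm at h
  split_ifs at h <;> simp at h <;> omega

theorem cc1_dw {D : Comb} (x y : List ℤ) (w : ℕ → ℤ) (e : ℕ → ℕ)
    (h : (pre x (pre y w), e) ∈ D.X) : e x.length = D.dw y (e (x ++ y).length) := by
  have h1 := X_sh h x.length
  rw [sh_pre] at h1
  have h2 := X_dw h1 0 y.length
  rw [seg_pre] at h2
  have h3 : sh x.length e 0 = e x.length := by simp [sh]
  have h4 : sh x.length e (0 + y.length) = e (x ++ y).length := by simp [sh]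
  rw [h3, h4] at h2
  exact h2

/-- one step of the parse: the deviation and the two relations between the arcs -/
theorem cc1_step (v : ℕ → ℤ) (f f' : ℕ → ℕ) (h : (v, f) ∈ C.X)
    (h' : (M.out s0 v, f') ∈ C'.X) (i : ℕ) (hi : (M.stg v i).2 ≠ cen (M.stg v i).1.ty) :
    ∃ a : Dv (M.stg v i).1.ty, (M.stg v (i + 1)).1 = M.nxt (M.stg v i).1 a ∧
      C.ret (M.stg v i).1.ty (f (M.stg v i).1.x.length) =
        C.par (M.stg v i).1.ty a.1 (f (M.stg v (i + 1)).1.x.length) ∧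
      C'.ret (M.stg v i).1.ty (f' (M.stg v i).1.x'.length) =
        C'.par (M.stg v i).1.ty (M.phi (M.stg v i).1 a).1
          (f' (M.stg v (i + 1)).1.x'.length) := by
  have h1 := stg_pre M v i
  have h2 := stg_out M v i
  rw [stg_succ]
  generalize M.stg v i = q at hi h1 h2
  obtain ⟨s, w⟩ := q
  simp only at hi h1 h2
  rw [step_dev M s w hi]
  refine ⟨dv s.ty w hi, rfl, ?_, ?_⟩
  · have h3 := pre_blk_dv s.ty w hi
    rw [← h3] at h1
    rw [← h1] at h
    have h4 := cc1_dw _ _ _ _ h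
    simp only [Comb.par]
    rw [h4]
    rfl
  · rw [out_dev M s w hi] at h2
    rw [← h2] at h'
    have h4 := cc1_dw _ _ _ _ h'
    simp only [Comb.par]
    rw [h4]
    rfl

/-- one stage back, by `compat` and `par_phi` -/
theorem corAt_back (hC : C.Sym) (hC' : C'.Sym) (v : ℕ → ℤ) (f f' : ℕ → ℕ) (h : (v, f) ∈ C.X)
    (h' : (M.out s0 v, f') ∈ C'.X) (i : ℕ) (hi : (M.stg v i).2 ≠ cen (M.stg v i).1.ty)
    (hc : M.CorAt v f f' (i + 1)) : M.CorAt v f f' i := by
  obtain ⟨a, h1, h2, h3⟩ := cc1_step M v f f' h h' i hi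
  unfold Mt.CorAt at hc ⊢
  rw [h2, h3]
  have hf := X_le hC h (M.stg v (i + 1)).1.x.length
  have hf' := X_le hC' h' (M.stg v (i + 1)).1.x'.length
  rw [hC.compat _ a _ hf, hC'.compat _ (M.phi _ a) _ hf', M.cty_phi]
  have h4 : (M.stg v (i + 1)).1.ty = cty (M.stg v i).1.ty a.1 := by rw [h1]; rfl
  rw [h4] at hc
  rw [hc]
  exact M.par_phi _ a _ (hC.ret_mem _ _ hf)

/-- a child of type `0` gives the correspondence without any assumption (`compat0`, `par_phi`) -/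
theorem corAt_zero (hC : C.Sym) (hC' : C'.Sym) (v : ℕ → ℤ) (f f' : ℕ → ℕ) (h : (v, f) ∈ C.X)
    (h' : (M.out s0 v, f') ∈ C'.X) (i : ℕ) (hi : (M.stg v i).2 ≠ cen (M.stg v i).1.ty)
    (hc : (M.stg v (i + 1)).1.ty = 0) : M.CorAt v f f' i := by
  obtain ⟨a, h1, h2, h3⟩ := cc1_step M v f f' h h' i hi
  unfold Mt.CorAt
  rw [h2, h3]
  have hf := X_le hC h (M.stg v (i + 1)).1.x.length
  have hf' := X_le hC' h' (M.stg v (i + 1)).1.x'.length
  have h4 : (M.stg v (i + 1)).1.ty = cty (M.stg v i).1.ty a.1 := by rw [h1]; rfl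
  have h5 : cty (M.stg v i).1.ty a.1 = 0 := h4.symm.trans hc
  rw [hC.compat _ a _ hf]
  have h6 := hC.ret_mem (cty (M.stg v i).1.ty a.1) _ hf
  have h7 := (M.th_mem (cty (M.stg v i).1.ty a.1) _).2 h6
  rw [← M.par_phi _ a _ h6]
  apply hC'.compat0 _ (M.phi _ a)
  · rw [M.cty_phi]
    exact h5
  · exact hf'
  · exact cc1_arm_le _ _ h7

theorem cc1_cty_one (τ : Fin 3) (a : ℕ × ℤ) (h : τ ≠ 0) : cty τ a ≠ 1 := by
  unfold cty
  rw [if_neg (fun h' => h h'.1)]
  split_ifs <;> decide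

theorem cc1_cty_two (τ : Fin 3) (a : ℕ × ℤ) (h : τ ≠ 1) : cty τ a ≠ 2 := by
  unfold cty
  split_ifs with h1 h2
  · decide
  · exact absurd h2.1 h
  · decide

/-- types along the stages: one of three successive children has type `0` -/
theorem ty_zero (v : ℕ → ℤ) (i : ℕ) (h : M.Go (s0, v) (i + 3)) :
    (M.stg v (i + 1)).1.ty = 0 ∨ (M.stg v (i + 2)).1.ty = 0 ∨ (M.stg v (i + 3)).1.ty = 0 := by
  have hstep : ∀ k, k < i + 3 → ∃ a : ℕ × ℤ,
      (M.stg v (k + 1)).1.ty = cty (M.stg v k).1.ty a := by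
    intro k hk
    have h1 : (M.stg v k).2 ≠ cen (M.stg v k).1.ty := h k hk
    rw [stg_succ]
    generalize M.stg v k = q at h1
    obtain ⟨s, w⟩ := q
    simp only at h1
    rw [step_dev M s w h1]
    exact ⟨_, rfl⟩
  obtain ⟨a, ha⟩ := hstep (i + 1) (by omega)
  obtain ⟨b, hb⟩ := hstep (i + 2) (by omega)
  by_contra hne
  push Not at hne
  obtain ⟨h1, h2, h3⟩ := hne
  have h4 := cc1_cty_one _ a h1
  rw [← ha] at h4
  have h5 : (M.stg v (i + 3)).1.ty ≠ 1 := by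
    rw [hb]
    exact cc1_cty_one _ b h2
  have h6 : (M.stg v (i + 3)).1.ty ≠ 2 := by
    rw [hb]
    exact cc1_cty_two _ b h4
  generalize (M.stg v (i + 3)).1.ty = t at h3 h5 h6
  fin_cases t
  · exact h3 rfl
  · exact h5 rfl
  · exact h6 rfl

end PJ
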