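import Pool.Agent.Lib.H31J.CT3
import Pool.Agent.Lib.H31J.CA2
import Pool.Agent.Lib.H31J.CCor1

/-! # PJ part C, file CCor: correspondence of the arms -/

set_option autoImplicit false

namespace PJ

open Filter Topology

variable {C C' : Comb} (M : Mt C C')

/-- going back from a stage where the correspondence holds -/
theorem cco_down (hC : C.Sym) (hC' : C'.Sym) (v : ℕ → ℤ) (f f' : ℕ → ℕ) (h : (v, f) ∈ C.X)
    (h' : (M.out s0 v, f') ∈ C'.X) (i : ℕ) (k : ℕ) (hg : M.Go (s0, v) (i + k))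
    (hc : M.CorAt v f f' (i + k)) : M.CorAt v f f' i := by
  induction k with
  | zero => exact hc
  | succ k ih =>
    apply ih (fun m hm => hg m (by omega))
    exact corAt_back M hC hC' v f f' h h' (i + k) (hg (i + k) (by omega)) hc

/-- It is enough to know the correspondence at the stages where the parse has stopped. -/
theorem cor_of (hC : C.Sym) (hC' : C'.Sym) (v : ℕ → ℤ) (f f' : ℕ → ℕ) (h : (v, f) ∈ C.X)
    (h' : (M.out s0 v, f') ∈ C'.X)
    (hs : ∀ i, (M.stg v i).2 = cen (M.stg v i).1.ty → M.CorAt v f f' i) : M.Cor v f f' := by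
  intro i
  change M.CorAt v f f' i
  rcases go_or_stop M v with hg | ⟨j, hg, hj⟩
  · rcases ty_zero M v i (hg _) with h0 | h0 | h0
    · exact corAt_zero M hC hC' v f f' h h' i (hg (i + 1) i (by omega)) h0
    · exact cco_down M hC hC' v f f' h h' i 1 (hg _)
        (corAt_zero M hC hC' v f f' h h' (i + 1) (hg (i + 2) (i + 1) (by omega)) h0)
    · exact cco_down M hC hC' v f f' h h' i 2 (hg _)
        (corAt_zero M hC hC' v f f' h h' (i + 2) (hg (i + 3) (i + 2) (by omega)) h0)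
  · rcases le_total j i with hji | hij
    · have h1 := stg_stop M v j hj i hji
      apply hs
      rw [h1]
      exact hj
    · obtain ⟨k, rfl⟩ := Nat.exists_eq_add_of_le hij
      exact cco_down M hC hC' v f f' h h' i k hg (hs _ hj)

/-- the image of a sequence whose parse stops -/
theorem cco_stop (v : ℕ → ℤ) (j : ℕ) (hj : (M.stg v j).2 = cen (M.stg v j).1.ty) :
    pre (M.stg v j).1.x' (cen (M.stg v j).1.ty) = M.out s0 v := by
  have h1 := stg_out M v j
  rw [hj, out_cen] at h1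
  exact h1

theorem cor_exists (hC : C.Sym) (hC' : C'.Sym) (v : ℕ → ℤ) (f : ℕ → ℕ) (h : (v, f) ∈ C.X) :
    ∃ f', (M.out s0 v, f') ∈ C'.X ∧ M.Cor v f f' := by
  rcases go_or_stop M v with hg | ⟨j, hg, hj⟩
  · obtain ⟨f', hf'⟩ := exists_arcs hC' (M.out s0 v)
    refine ⟨f', hf', cor_of M hC hC' v f f' h hf' ?_⟩
    intro i hi
    exact absurd hi (hg (i + 1) i (by omega))
  · have h1 := cco_stop M v j hj
    have h2 := hC.ret_mem (M.stg v j).1.ty _ (X_le hC h (M.stg v j).1.x.length)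
    have h3 := (M.th_mem _ _).2 h2
    have h4 := pe_mem (Ea_mem hC' _ _ h3) (M.stg v j).1.x'
    rw [h1] at h4
    refine ⟨_, h4, cor_of M hC hC' v f _ h h4 ?_⟩
    intro i hi
    have hji : j ≤ i := by
      by_contra hlt
      exact hg i (by omega) hi
    have h5 := stg_stop M v j hj i hji
    unfold Mt.CorAt
    rw [h5]
    have h6 := congrFun (sh_pe C' (M.stg v j).1.x' (C'.Ea (M.stg v j).1.ty
      (M.th (M.stg v j).1.ty (C.ret (M.stg v j).1.ty (f (M.stg v j).1.x.length))))) 0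
    simp only [sh, Nat.add_zero] at h6
    rw [h6, Ea_zero]
    exact hC'.ret_arm _ _ h3

/-- if the parse never stops then there is only one arm over the image -/
theorem unique_of_go (hC' : C'.Sym) (v : ℕ → ℤ) (hg : ∀ i, M.Go (s0, v) i) (f' f'' : ℕ → ℕ)
    (h' : (M.out s0 v, f') ∈ C'.X) (h'' : (M.out s0 v, f'') ∈ C'.X) : f' = f'' := by
  by_contra hne
  obtain ⟨k, τ, hk⟩ := hC'.uniq _ _ _ h' h'' hne
  obtain ⟨i, hi⟩ := stops M.symm (M.out s0 v) k τ hk
  have h1 := (go_symm M v (i + 1)).2 (hg _)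
  exact h1 i (by omega) hi

theorem cor_unique (hC : C.Sym) (hC' : C'.Sym) (v : ℕ → ℤ) (f f' f'' : ℕ → ℕ)
    (h : (v, f) ∈ C.X) (h' : (M.out s0 v, f') ∈ C'.X) (h'' : (M.out s0 v, f'') ∈ C'.X)
    (hc' : M.Cor v f f') (hc'' : M.Cor v f f'') : f' = f'' := by
  rcases go_or_stop M v with hg | ⟨j, hg, hj⟩
  · exact unique_of_go M hC' v hg f' f'' h' h''
  · have h1 := cco_stop M v j hj
    have key : ∀ g : ℕ → ℕ, (M.out s0 v, g) ∈ C'.X → M.Cor v f g →
        g = C'.pe (M.stg v j).1.x' (C'.Ea (M.stg v j).1.ty (M.th (M.stg v j).1.ty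
          (C.ret (M.stg v j).1.ty (f (M.stg v j).1.x.length)))) := by
      intro g hg hcg
      rw [← h1] at hg
      have h2 := pe_eq hg
      have h3 := X_sh hg (M.stg v j).1.x'.length
      rw [sh_pre] at h3
      obtain ⟨h4, h5⟩ := cen_arm hC' _ _ h3
      have h6 : sh (M.stg v j).1.x'.length g 0 = g (M.stg v j).1.x'.length := by simp [sh]
      rw [h6] at h4 h5
      have h7 := hcg j
      rw [hC'.ret_arm _ _ h4] at h7
      rw [h7] at h5
      rw [h5] at h2
      exact h2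
    rw [key f' h' hc', key f'' h'' hc'']

theorem cor_symm (v : ℕ → ℤ) (f f' : ℕ → ℕ) (h : M.Cor v f f') :
    M.symm.Cor (M.out s0 v) f' f := by
  intro i
  rw [stg_symm]
  simp only [St.swap]
  rw [h i]
  exact ((M.th _).symm_apply_apply _).symm

/-! ### the function `arc` -/

theorem arc_spec (hC : C.Sym) (hC' : C'.Sym) (v : ℕ → ℤ) (f : ℕ → ℕ) (h : (v, f) ∈ C.X) :
    (M.out s0 v, M.arc v f) ∈ C'.X ∧ M.Cor v f (M.arc v f) := by
  have h1 := cor_exists M hC hC' v f h
  rw [Mt.arc, dif_pos h1]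
  exact Classical.choose_spec h1

theorem arc_symm (hC : C.Sym) (hC' : C'.Sym) (v : ℕ → ℤ) (f : ℕ → ℕ) (h : (v, f) ∈ C.X) :
    M.symm.arc (M.out s0 v) (M.arc v f) = f := by
  obtain ⟨h1, h2⟩ := arc_spec M hC hC' v f h
  have h3 := cor_symm M v f _ h2
  obtain ⟨h4, h5⟩ := arc_spec M.symm hC' hC _ _ h1
  have h6 : M.symm.out s0 (M.out s0 v) = v := out_symm M s0 v
  refine cor_unique M.symm hC' hC (M.out s0 v) (M.arc v f) _ _ h1 h4 ?_ h5 h3
  rw [h6]
  exact h

end PJ
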