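import Pool.Agent.Lib.H31J.CStop1
import Pool.Agent.Lib.H31J.CCor

/-! # PJ part C, file CStop2: continuity of the arcs at a sequence whose parse stops -/

set_option autoImplicit false

namespace PJ

open Filter Topology

variable {C C' : Comb} (M : Mt C C')

/-- For `P ≥ 6` the arc `g |x|` lies in `arm τ` and equals `f |x|`, so by `Cor` (stage `i`) and
`win_arm` the arcs of the images agree at `|x'|` and up to `|x'| + P - 6`; before `|x'|` by `X_dw`. -/
theorem stop_arc (hC : C.Sym) (hC' : C'.Sym) (v : ℕ → ℤ) (f : ℕ → ℕ) (h : (v, f) ∈ C.X) (i : ℕ)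
    (hg : M.Go (s0, v) i) (hs : (M.stg v i).2 = cen (M.stg v i).1.ty) (N : ℕ) (B : ℝ) :
    ∃ N2, ∀ w g, (w, g) ∈ C.X → Agree N2 v w → Agree N2 f g → Ad w → mu w ≤ B →
      Agree N (M.arc v f) (M.arc w g) := by
  obtain ⟨N3, hN3⟩ := stop_far M v i hg hs (N + 6) B
  set s := (M.stg v i).1 with hsdef
  set n := s.x.length with hn
  set n' := s.x'.length with hn'
  refine ⟨max N3 (n + 1), fun w g hwg hvw hfg hwa hwB => ?_⟩
  have hfgn : f n = g n := hfg n (lt_of_lt_of_le (Nat.lt_succ_self n) (le_max_right _ _))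
  have hv2 : sh n v = cen s.ty := by
    have := stg_sh M v i
    rw [← this]
    exact hs
  by_cases hwv : w = v
  · subst hwv
    -- the same itinerary: the same arms
    have e1 : (cen s.ty, sh n f) ∈ C.X := by
      have := X_sh h n
      rwa [hv2] at this
    have e2 : (cen s.ty, sh n g) ∈ C.X := by
      have := X_sh hwg n
      rwa [hv2] at this
    have e3 : sh n f = sh n g := by
      rw [(cen_arm hC s.ty _ e1).2, (cen_arm hC s.ty _ e2).2]
      have : sh n f 0 = sh n g 0 := by simpa [sh] using hfgn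
      rw [this]
    have e4 : w = pre s.x (sh n w) := by
      have := stg_pre M w i
      rw [stg_sh] at this
      exact this.symm
    have e5 : f = g := by
      have h1 : (pre s.x (sh n w), f) ∈ C.X := by rw [← e4]; exact h
      have h2 : (pre s.x (sh n w), g) ∈ C.X := by rw [← e4]; exact hwg
      rw [pe_eq h1, pe_eq h2, ← hn, e3]
    rw [e5]
    exact fun _ _ => rfl
  · obtain ⟨a, ha1, ha2, ha3, ha4⟩ := hN3 w (hvw.mono (le_max_left _ _)) hwa hwB hwv
    have hwn : Agree n v w := hvw.mono (le_trans (Nat.le_succ n) (le_max_right _ _))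
    obtain ⟨-, hws, -⟩ := stg_agree M v w i hg hwn
    obtain ⟨hf1, hf2⟩ := arc_spec M hC hC' v f h
    obtain ⟨hg1, hg2⟩ := arc_spec M hC hC' w g hwg
    have c1 := hf2 i
    have c2 := hg2 i
    rw [hws] at c2
    rw [← hsdef] at c1 c2
    rw [← hn, ← hn'] at c1 c2
    rw [← hfgn] at c2
    -- the tails
    have ov : sh n' (M.out s0 v) = cen s.ty := by
      have := stg_out M v i
      rw [← this, ← hsdef, hn', sh_pre, hs, out_cen]
    have t1 : (cen s.ty, sh n' (M.arc v f)) ∈ C'.X := by
      have := X_sh hf1 n'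
      rwa [ov] at this
    have t2 : (sh n' (M.out s0 w), sh n' (M.arc w g)) ∈ C'.X := X_sh hg1 n'
    have ag : Agree (N + 6) (sh n' (M.out s0 w)) (cen s.ty) := by
      have := agree_sh ha4
      rw [ov] at this
      exact this.symm
    obtain ⟨w1, w2⟩ := win_arm hC' s.ty _ _ t2 (N + 6) (by omega) ag
    obtain ⟨w3, w4⟩ := cen_arm hC' s.ty _ t1
    have z1 : sh n' (M.arc v f) 0 = M.arc v f n' := by simp [sh]
    have z2 : sh n' (M.arc w g) 0 = M.arc w g n' := by simp [sh]
    have eq0 : M.arc v f n' = M.arc w g n' := by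
      have r1 := hC'.ret_arm s.ty _ w3
      have r2 := hC'.ret_arm s.ty _ w1
      rw [z1] at r1
      rw [z2] at r2
      rw [← r1, ← r2, c1, c2]
    have agt : Agree (N + 1) (sh n' (M.arc v f)) (sh n' (M.arc w g)) := by
      intro k hk
      rw [w2 k (by omega), z2, ← eq0, ← z1]
      exact congrFun w4 k
    have p1 : M.out s0 v = pre s.x' (sh n' (M.out s0 v)) := by
      have := stg_out M v i
      rw [← hsdef] at this
      conv_lhs => rw [← this]
      rw [← this, hn', sh_pre]
    have p2 : M.out s0 w = pre s.x' (sh n' (M.out s0 w)) := by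
      have := stg_out M w i
      rw [hws, ← hsdef] at this
      conv_lhs => rw [← this]
      rw [← this, hn', sh_pre]
    have q1 : (pre s.x' (sh n' (M.out s0 v)), M.arc v f) ∈ C'.X := by rw [← p1]; exact hf1
    have q2 : (pre s.x' (sh n' (M.out s0 w)), M.arc w g) ∈ C'.X := by rw [← p2]; exact hg1
    have fin := pe_agree C' s.x' _ _ (N + 1) (by omega) agt
    rw [hn', ← pe_eq q1, ← pe_eq q2] at fin
    exact fin.mono (by omega)

end PJ
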