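import Pool.Agent.Lib.H31J.CStop1

/-! # PJ part C, file CStop3: continuity of the potentials at a sequence whose parse stops -/

set_option autoImplicit false

namespace PJ

open Filter Topology

variable {C C' : Comb} (M : Mt C C')

/-- `main_stg` at the stage `i + 1` for `w`, `dd_tend`, `kap_append`, `kap_blk_small` -/
theorem stop_pot (v : ℕ → ℤ) (i : ℕ) (hg : M.Go (s0, v) i)
    (hs : (M.stg v i).2 = cen (M.stg v i).1.ty) (η : ℝ) (hη : 0 < η) (B : ℝ) :
    ∃ N2, ∀ w, Agree N2 v w → Ad w → mu w ≤ B →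
      |(mu (M.out s0 w) - mu w) - (mu (M.out s0 v) - mu v)| < η := by
  -- the potentials of `v`
  have hvp : v = pre (M.stg v i).1.x (cen (M.stg v i).1.ty) := by
    have := stg_pre M v i
    rw [hs] at this
    exact this.symm
  have hop : M.out s0 v = pre (M.stg v i).1.x' (cen (M.stg v i).1.ty) := by
    have := stg_out M v i
    rw [hs, out_cen] at this
    exact this.symm
  have hd : mu (M.out s0 v) - mu v = dd (M.stg v i).1 := by
    have e1 : mu v = mw (M.stg v i).1.x (Y (cen (M.stg v i).1.ty)) := by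
      conv_lhs => rw [hvp]
      exact mu_pre _ _ (Ad_cen _)
    have e2 : mu (M.out s0 v) = mw (M.stg v i).1.x' (Y (cen (M.stg v i).1.ty)) := by
      rw [hop]
      exact mu_pre _ _ (Ad_cen _)
    rw [e1, e2, dd]
  obtain ⟨P1, hP1⟩ := kap_blk_small (η / 300) (by positivity)
  have h1 : ∀ᶠ a : Dv (M.stg v i).1.ty in cofinite,
      |dd ((M.stg v i).1.nx a.1 (M.phi (M.stg v i).1 a).1) - dd (M.stg v i).1| < η / 2 := by
    have := (M.dd_tend (M.stg v i).1).eventually (Metric.ball_mem_nhds _ (half_pos hη))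
    filter_upwards [this] with a ha
    simpa [Real.dist_eq] using ha
  rw [eventually_cofinite] at h1
  obtain ⟨P2, hP2⟩ := (h1.image (fun a : Dv (M.stg v i).1.ty => a.1.1)).bddAbove
  obtain ⟨N2, hN2⟩ := stop_far M v i hg hs (max P1 (P2 + 1)) B
  refine ⟨N2, fun w hw hwa hwB => ?_⟩
  by_cases hne : w = v
  · rw [hne, sub_self, abs_zero]
    exact hη
  obtain ⟨a, ha1, ha2, ha3, -⟩ := hN2 w hw hwa hwB hne
  have h2 := main_stg M w hwa (i + 1)
  rw [ha3] at h2
  simp only at h2
  have h3 : |dd (M.nxt (M.stg v i).1 a) - dd (M.stg v i).1| < η / 2 := by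
    by_contra hcon
    have : a.1.1 ≤ P2 := hP2 ⟨a, hcon, rfl⟩
    have := le_trans (le_max_right _ _) ha1
    omega
  have h4 : kap (M.nxt (M.stg v i).1 a).x ≤ η / 300 := by
    have e1 : (M.nxt (M.stg v i).1 a).x = (M.stg v i).1.x ++ blk (M.stg v i).1.ty a.1 := rfl
    rw [e1]
    have e2 := kap_append (M.stg v i).1.x (blk (M.stg v i).1.ty a.1)
    have e3 := kap_le_one (M.stg v i).1.x
    have e4 := kap_pos (blk (M.stg v i).1.ty a.1)
    have e5 := hP1 _ a (le_trans (le_max_left _ _) ha1)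
    nlinarith
  have h5 : kap (M.nxt (M.stg v i).1 a).x' ≤ η / 300 := by
    have e1 : (M.nxt (M.stg v i).1 a).x' = (M.stg v i).1.x' ++ blk (M.stg v i).1.ty
      (M.phi (M.stg v i).1 a).1 := rfl
    rw [e1]
    have e2 := kap_append (M.stg v i).1.x' (blk (M.stg v i).1.ty (M.phi (M.stg v i).1 a).1)
    have e3 := kap_le_one (M.stg v i).1.x'
    have e4 := kap_pos (blk (M.stg v i).1.ty (M.phi (M.stg v i).1 a).1)
    have e5 := hP1 _ (M.phi (M.stg v i).1 a) (le_trans (le_max_left _ _) ha2)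
    nlinarith
  rw [hd]
  have h6 := abs_lt.1 h3
  have h7 := abs_le.1 h2
  rw [abs_lt]
  constructor <;> linarith [h6.1, h6.2, h7.1, h7.2]

end PJ
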