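import Pool.Agent.Lib.H31J.CGo
import Pool.Agent.Lib.H31J.CStop2
import Pool.Agent.Lib.H31J.CStop3

/-! # PJ part C, file CCont: continuity of the components of the map -/

set_option autoImplicit false

namespace PJ

open Filter Topology

variable {C C' : Comb} (M : Mt C C')

theorem cont_all (hC : C.Sym) (hC' : C'.Sym) (v : ℕ → ℤ) (f : ℕ → ℕ) (h : (v, f) ∈ C.X)
    (hv : Ad v) (N : ℕ) (η : ℝ) (hη : 0 < η) (B : ℝ) :
    ∃ N2, ∀ w g, (w, g) ∈ C.X → Agree N2 v w → Agree N2 f g → Ad w → mu w ≤ B →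
      Agree N (M.out s0 v) (M.out s0 w) ∧ Agree N (M.arc v f) (M.arc w g) ∧
      |(mu (M.out s0 w) - mu w) - (mu (M.out s0 v) - mu v)| < η := by
  rcases go_or_stop M v with hg | ⟨i, hg, hs⟩
  · obtain ⟨n1, h1⟩ := go_out M v hg N
    obtain ⟨n2, h2⟩ := go_arc M hC hC' v f h hg N
    obtain ⟨n3, h3⟩ := go_pot M v hg hv η hη
    refine ⟨max n1 (max n2 n3), fun w g hw ha _ hwa _ => ?_⟩
    exact ⟨h1 w (ha.mono (by omega)), h2 w g hw (ha.mono (by omega)), h3 w hwa (ha.mono (by omega))⟩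
  · obtain ⟨n1, h1⟩ := stop_out M v i hg hs N B
    obtain ⟨n2, h2⟩ := stop_arc M hC hC' v f h i hg hs N B
    obtain ⟨n3, h3⟩ := stop_pot M v i hg hs η hη B
    refine ⟨max n1 (max n2 n3), fun w g hw ha hb hwa hwb => ?_⟩
    exact ⟨h1 w (ha.mono (by omega)) hwa hwb,
      h2 w g hw (ha.mono (by omega)) (hb.mono (by omega)) hwa hwb,
      h3 w (ha.mono (by omega)) hwa hwb⟩

end PJ
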