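import Pool.Agent.Lib.H31J.CD1

/-! # PJ part C, file CD: the potentials of the image -/

set_option autoImplicit false

namespace PJ

open Filter Topology

variable {C C' : Comb} (M : Mt C C')

theorem cd_Ltr_append (x : List ℤ) (v : ℕ → ℤ) (n : ℕ) :
    mw (x ++ seg v 0 n) 0 = mw x (Lw (seg v 0 n) 0) := mw_append _ _ _

/-- admissibility from the boundedness of `mw x` of the initial segments -/
theorem cd_Ad_of (x : List ℤ) (v : ℕ → ℤ) (t : ℝ)
    (h : ∀ i : ℕ, ∃ n, i ≤ n ∧ mw x (Lw (seg v 0 n) 0) ≤ t) : Ad v := by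
  obtain ⟨B, hB⟩ := (eventually_atTop.1 ((mw_atTop x).eventually_gt_atTop t))
  refine ⟨B, ?_⟩
  rintro _ ⟨i, rfl⟩
  obtain ⟨n, hn, h2⟩ := h i
  by_contra hlt
  push Not at hlt
  have h3 : B ≤ Lw (seg v 0 n) 0 := le_trans hlt.le (Ltr_mono v hn)
  exact absurd h2 (not_le.2 (hB _ h3))

/-- the limit along a sequence of lengths -/
theorem cd_tendsto (x : List ℤ) (v : ℕ → ℤ) (h : Ad v) (l : ℕ → ℕ) (hl : Tendsto l atTop atTop) :
    Tendsto (fun i => mw (x ++ seg v 0 (l i)) 0) atTop (𝓝 (mw x (Y v))) := by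
  have h1 : Tendsto (fun i => Lw (seg v 0 (l i)) 0) atTop (𝓝 (Y v)) := (tendsto_Y v h).comp hl
  have h2 : Tendsto (fun i => Lw (seg v 0 (l i)) 0) atTop (𝓝[Set.Ici 0] (Y v)) :=
    tendsto_nhdsWithin_iff.2 ⟨h1, Eventually.of_forall fun i => Lw_nonneg _ _ le_rfl⟩
  have h3 := (mw_cont x (Y v) (Y_nonneg v))
  have h4 := h3.tendsto.comp h2
  refine h4.congr fun i => ?_
  exact (mw_append _ _ _).symm

/-- MAIN ESTIMATE.  If the parse stops: `mu` of both sides is the one of the centers at the last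
stage.  Otherwise `mw s_i.x (Y cen) → mu (pre s.x v)` since `mw s_i.x 0 = mw (seg (pre s.x v) 0 n) 0`
with `n = s_i.x.length → ∞` and `kap s_i.x → 0`; `dd s_i` converges (Cauchy by `dd_stages`), hence
`mw s_i.x' (Y cen)` and `mw s_i.x' 0` converge to the same limit, so `pre s.x' (out s v)` is
admissible with this limit as `mu`. -/
theorem main_est (s : St) (v : ℕ → ℤ) (h : Ad v) :
    Ad (M.out s v) ∧
    |(mw s.x' (Y (M.out s v)) - mw s.x (Y v)) - dd s| ≤ 68 * (kap s.x + kap s.x') := by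
  have hs1 := kap_pos s.x
  have hs2 := kap_pos s.x'
  by_cases hst : ∃ i, (M.step^[i] (s, v)).2 = cen (M.step^[i] (s, v)).1.ty
  · obtain ⟨i, hi⟩ := hst
    obtain ⟨z, z', h1, h2, h3, h4, -⟩ := stages M s v i
    have h5 := cd1_iter_dd M i (s, v)
    generalize M.step^[i] (s, v) = q at hi h1 h2 h3 h4 h5
    obtain ⟨r, w⟩ := q
    simp only at hi h1 h2 h3 h4 h5
    subst hi
    rw [out_cen] at h4
    have hA := Ad_cen r.ty
    constructor
    · rw [h4, Ad_pre]
      exact hA
    · rw [h4, h3, Y_pre _ _ hA, Y_pre _ _ hA, ← mw_append, ← mw_append, ← h1, ← h2]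
      exact h5
  · push Not at hst
    have hgo : ∀ i, M.Go (s, v) i := fun i k _ => hst k
    -- the words
    choose z z' h1 h2 h3 h4 h5 using fun i => stages M s v i
    have hz : ∀ i, z i = seg v 0 (z i).length := by
      intro i
      have := seg_pre (z i) (M.step^[i] (s, v)).2
      rw [← h3 i] at this
      exact this.symm
    have hz' : ∀ i, z' i = seg (M.out s v) 0 (z' i).length := by
      intro i
      have := seg_pre (z' i) (M.out (M.step^[i] (s, v)).1 (M.step^[i] (s, v)).2)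
      rw [← h4 i] at this
      exact this.symm
    have hl : Tendsto (fun i => (z i).length) atTop atTop :=
      tendsto_atTop_mono (fun i => (h5 i (hgo i)).1) tendsto_id
    have hl' : Tendsto (fun i => (z' i).length) atTop atTop :=
      tendsto_atTop_mono (fun i => (h5 i (hgo i)).2) tendsto_id
    -- the comparison of `mw _ 0` with `mw _ (Y cen)`
    have hY : ∀ (x : List ℤ) (τ : Fin 3), |mw x (Y (cen τ)) - mw x 0| ≤ 16 * kap x := by
      intro x τ
      have e1 := mw_lip x 0 (Y (cen τ)) le_rfl (Y_nonneg _)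
      rw [sub_zero, abs_of_nonneg (Y_nonneg _)] at e1
      have e2 := Y_cen_le τ
      have e3 := kap_pos x
      nlinarith
    have hmain : ∀ i, |(mw (M.step^[i] (s, v)).1.x' 0 - mw (M.step^[i] (s, v)).1.x 0) - dd s| ≤
        68 * (kap s.x + kap s.x') + 16 * (kap (M.step^[i] (s, v)).1.x +
          kap (M.step^[i] (s, v)).1.x') := by
      intro i
      have e1 := hY (M.step^[i] (s, v)).1.x (M.step^[i] (s, v)).1.ty
      have e2 := hY (M.step^[i] (s, v)).1.x' (M.step^[i] (s, v)).1.ty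
      have e3 := cd1_iter_dd M i (s, v)
      simp only [dd] at e3 ⊢
      rw [abs_le] at e1 e2 e3 ⊢
      constructor
      · linarith [e1.1, e1.2, e2.1, e2.2, e3.1, e3.2]
      · linarith [e1.1, e1.2, e2.1, e2.2, e3.1, e3.2]
    have ha : Tendsto (fun i => mw (M.step^[i] (s, v)).1.x 0) atTop (𝓝 (mw s.x (Y v))) := by
      refine (cd_tendsto s.x v h _ hl).congr fun i => ?_
      rw [h1 i, ← hz i]
    have hale : ∀ i, mw (M.step^[i] (s, v)).1.x 0 ≤ mw s.x (Y v) := by
      intro i
      rw [h1 i, mw_append]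
      apply mw_mono _ _ _ (Lw_nonneg _ _ le_rfl)
      have := le_Y v h (z i).length
      rwa [← hz i] at this
    have hAd : Ad (M.out s v) := by
      refine cd_Ad_of s.x' (M.out s v) (mw s.x (Y v) + dd s + 68 * (kap s.x + kap s.x') + 32) ?_
      intro i
      refine ⟨(z' i).length, (h5 i (hgo i)).2, ?_⟩
      rw [← hz' i, ← mw_append, ← h2 i]
      have e1 := (abs_le.1 (hmain i)).2
      have e2 := hale i
      have e3 := kap_le_one (M.step^[i] (s, v)).1.x
      have e4 := kap_le_one (M.step^[i] (s, v)).1.x'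
      linarith
    refine ⟨hAd, ?_⟩
    have hb : Tendsto (fun i => mw (M.step^[i] (s, v)).1.x' 0) atTop
        (𝓝 (mw s.x' (Y (M.out s v)))) := by
      refine (cd_tendsto s.x' (M.out s v) hAd _ hl').congr fun i => ?_
      rw [h2 i, ← hz' i]
    have hlim : Tendsto (fun i => |(mw (M.step^[i] (s, v)).1.x' 0 -
        mw (M.step^[i] (s, v)).1.x 0) - dd s|) atTop
        (𝓝 |(mw s.x' (Y (M.out s v)) - mw s.x (Y v)) - dd s|) :=
      ((hb.sub ha).sub_const _).abs
    apply le_of_forall_pos_le_add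
    intro η hη
    obtain ⟨i0, hi0⟩ := cd1_tendsto M (s, v) hgo (η / 32) (by positivity)
    refine le_of_tendsto hlim (eventually_atTop.2 ⟨i0, fun i hi => ?_⟩)
    have e1 := hmain i
    have e2 := hi0 i hi
    linarith [e2.1, e2.2]

/-- the case of the `i`-th stage of the parse from the root -/
theorem main_stg (v : ℕ → ℤ) (h : Ad v) (i : ℕ) :
    |(mu (M.out s0 v) - mu v) - dd (M.stg v i).1|
      ≤ 68 * (kap (M.stg v i).1.x + kap (M.stg v i).1.x') := by
  have h1 : Ad (M.stg v i).2 := by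
    have := stg_pre M v i
    rw [← this, Ad_pre] at h
    exact h
  obtain ⟨h2, h3⟩ := main_est M (M.stg v i).1 (M.stg v i).2 h1
  rw [← mu_pre _ _ h1, ← mu_pre _ _ h2, stg_pre, stg_out] at h3
  exact h3

end PJ
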