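import Pool.Agent.Lib.H31J.CT2
import Pool.Agent.Lib.H31J.CC1

/-! # PJ part C, file CD1: contraction and differences along the stages -/

set_option autoImplicit false

namespace PJ

open Filter Topology

variable {C C' : Comb} (M : Mt C C')

/-! ### one step and two steps -/

theorem cd1_step_cases (q : St × (ℕ → ℤ)) :
    (q.2 = cen q.1.ty ∧ M.step q = q) ∨
      ∃ a : Dv q.1.ty, (M.step q).1 = M.nxt q.1 a ∧ q.2 ≠ cen q.1.ty := by
  by_cases h : q.2 = cen q.1.ty
  · left
    refine ⟨h, ?_⟩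
    rw [Mt.step, dif_pos h]
  · right
    refine ⟨dv q.1.ty q.2 h, ?_, h⟩
    rw [Mt.step, dif_neg h]

theorem cd1_nxt_x (s : St) (a : Dv s.ty) : (M.nxt s a).x = s.x ++ blk s.ty a.1 := rfl

theorem cd1_nxt_x' (s : St) (a : Dv s.ty) :
    (M.nxt s a).x' = s.x' ++ blk s.ty (M.phi s a).1 := rfl

theorem cd1_nxt_ty (s : St) (a : Dv s.ty) : (M.nxt s a).ty = cty s.ty a.1 := rfl

theorem cd1_kap_mul (x y : List ℤ) : kap (x ++ y) ≤ kap x := by
  have h1 := kap_append x y
  have h2 := kap_le_one y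
  have h3 := kap_pos x
  nlinarith

theorem cd1_kap_one (s : St) (a : Dv s.ty) :
    kap (M.nxt s a).x ≤ kap s.x ∧ kap (M.nxt s a).x' ≤ kap s.x' :=
  ⟨cd1_kap_mul _ _, cd1_kap_mul _ _⟩

theorem cd1_half (x y z : List ℤ) (h : kap y ≤ 1 / 2 ∨ kap z ≤ 1 / 2) :
    kap ((x ++ y) ++ z) ≤ kap x / 2 := by
  have h1 := kap_append (x ++ y) z
  have h2 := kap_append x y
  have hx := kap_pos x
  have hy := kap_pos y
  have hz := kap_pos z
  have hy1 := kap_le_one y
  have hz1 := kap_le_one z
  have h3 : kap ((x ++ y) ++ z) ≤ kap x * kap y * kap z :=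
    h1.trans (mul_le_mul_of_nonneg_right h2 hz.le)
  have h4 : kap y * kap z ≤ 1 / 2 := by
    rcases h with h | h
    · nlinarith
    · nlinarith
  nlinarith

theorem cd1_kap_two (s : St) (a : Dv s.ty) (b : Dv (M.nxt s a).ty) :
    kap (M.nxt (M.nxt s a) b).x ≤ kap s.x / 2 ∧
      kap (M.nxt (M.nxt s a) b).x' ≤ kap s.x' / 2 := by
  constructor
  · rw [cd1_nxt_x, cd1_nxt_x]
    apply cd1_half
    rcases kap_blk s.ty a with h | ⟨-, h⟩
    · exact Or.inl h
    · right
      rcases kap_blk _ b with h' | ⟨h', -⟩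
      · exact h'
      · exact absurd h h'
  · rw [cd1_nxt_x', cd1_nxt_x']
    apply cd1_half
    rcases kap_blk s.ty (M.phi s a) with h | ⟨-, h⟩
    · exact Or.inl h
    · right
      rw [M.cty_phi] at h
      rcases kap_blk _ (M.phi (M.nxt s a) b) with h' | ⟨h', -⟩
      · exact h'
      · exact absurd h h'

/-- two steps -/
theorem cd1_step_two (q : St × (ℕ → ℤ)) (h0 : q.2 ≠ cen q.1.ty)
    (h1 : (M.step q).2 ≠ cen (M.step q).1.ty) :
    kap (M.step (M.step q)).1.x ≤ kap q.1.x / 2 ∧
      kap (M.step (M.step q)).1.x' ≤ kap q.1.x' / 2 := by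
  rcases cd1_step_cases M q with ⟨h, -⟩ | ⟨a, ha, -⟩
  · exact absurd h h0
  · rcases cd1_step_cases M (M.step q) with ⟨h, -⟩ | ⟨b, hb, -⟩
    · exact absurd h h1
    · rw [hb]
      generalize M.step q = r at ha b
      obtain ⟨r1, r2⟩ := r
      simp only at ha b
      subst ha
      exact cd1_kap_two M q.1 a b

theorem cd1_step_one (q : St × (ℕ → ℤ)) :
    kap (M.step q).1.x ≤ kap q.1.x ∧ kap (M.step q).1.x' ≤ kap q.1.x' := by
  rcases cd1_step_cases M q with ⟨-, h⟩ | ⟨a, ha, -⟩
  · rw [h]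
    exact ⟨le_rfl, le_rfl⟩
  · rw [ha]
    exact cd1_kap_one M q.1 a

theorem cd1_iter_le (q : St × (ℕ → ℤ)) (n : ℕ) :
    kap (M.step^[n] q).1.x ≤ kap q.1.x ∧ kap (M.step^[n] q).1.x' ≤ kap q.1.x' := by
  induction n with
  | zero => exact ⟨le_rfl, le_rfl⟩
  | succ n ih =>
    rw [Function.iterate_succ_apply']
    have h := cd1_step_one M (M.step^[n] q)
    exact ⟨h.1.trans ih.1, h.2.trans ih.2⟩

theorem cd1_step_dd (q : St × (ℕ → ℤ)) :
    |dd (M.step q).1 - dd q.1| ≤ 17 * (kap q.1.x + kap q.1.x') := by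
  have h1 := kap_pos q.1.x
  have h2 := kap_pos q.1.x'
  rcases cd1_step_cases M q with ⟨-, h⟩ | ⟨a, ha, -⟩
  · rw [h, sub_self, abs_zero]
    positivity
  · rw [ha]
    exact M.dd_phi q.1 a

/-- sum of the differences -/
theorem cd1_iter_dd (n : ℕ) : ∀ q : St × (ℕ → ℤ),
    |dd (M.step^[n] q).1 - dd q.1| ≤ 68 * (kap q.1.x + kap q.1.x') := by
  induction n using Nat.strong_induction_on with
  | _ n ih =>
    intro q
    have h1 := kap_pos q.1.x
    have h2 := kap_pos q.1.x'
    match n, ih with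
    | 0, _ =>
      simp only [Function.iterate_zero, id_eq, sub_self, abs_zero]
      positivity
    | 1, _ =>
      have h3 := cd1_step_dd M q
      rw [Function.iterate_one]
      linarith
    | n + 2, ih =>
      have h3 := cd1_step_dd M q
      rw [Function.iterate_succ_apply, Function.iterate_succ_apply]
      by_cases c0 : q.2 = cen q.1.ty
      · have e : M.step q = q := by rw [Mt.step, dif_pos c0]
        rw [e, e]
        exact ih n (by omega) q
      · by_cases c1 : (M.step q).2 = cen (M.step q).1.ty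
        · have e : M.step (M.step q) = M.step q := by
            rw [Mt.step, dif_pos c1]
          have e2 : ∀ m, M.step^[m] (M.step q) = M.step q := by
            intro m
            induction m with
            | zero => rfl
            | succ m ihm => rw [Function.iterate_succ_apply', ihm, e]
          rw [e, e2]
          linarith
        · have h4 := ih n (by omega) (M.step (M.step q))
          have h5 := cd1_step_two M q c0 c1
          have h6 := cd1_step_dd M (M.step q)
          have h7 := cd1_step_one M q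
          have h8 := abs_sub_le (dd (M.step^[n] (M.step (M.step q))).1)
            (dd (M.step (M.step q)).1) (dd q.1)
          have h9 := abs_sub_le (dd (M.step (M.step q)).1) (dd (M.step q).1) (dd q.1)
          linarith [h5.1, h5.2, h7.1, h7.2]

theorem cd1_iter_pow (q : St × (ℕ → ℤ)) (n : ℕ) (h : M.Go q (2 * n)) :
    kap (M.step^[2 * n] q).1.x ≤ (1 / 2) ^ n ∧ kap (M.step^[2 * n] q).1.x' ≤ (1 / 2) ^ n := by
  induction n with
  | zero =>
    simp only [Nat.mul_zero, Function.iterate_zero, id_eq, pow_zero]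
    exact ⟨kap_le_one _, kap_le_one _⟩
  | succ n ih =>
    have h1 := ih (fun k hk => h k (by omega))
    have h2 := cd1_step_two M (M.step^[2 * n] q) (h (2 * n) (by omega))
      (by
        have := h (2 * n + 1) (by omega)
        rwa [Function.iterate_succ_apply'] at this)
    have e : 2 * (n + 1) = 2 * n + 1 + 1 := by ring
    rw [e, Function.iterate_succ_apply', Function.iterate_succ_apply']
    constructor
    · rw [pow_succ]
      linarith [h1.1, h2.1]
    · rw [pow_succ]
      linarith [h1.2, h2.2]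

theorem cd1_tendsto (q : St × (ℕ → ℤ)) (h : ∀ i, M.Go q i) (η : ℝ) (hη : 0 < η) :
    ∃ i0, ∀ i, i0 ≤ i → kap (M.step^[i] q).1.x ≤ η ∧ kap (M.step^[i] q).1.x' ≤ η := by
  obtain ⟨n, hn⟩ := exists_pow_lt_of_lt_one hη (by norm_num : (1 / 2 : ℝ) < 1)
  refine ⟨2 * n, fun i hi => ?_⟩
  have h1 := cd1_iter_pow M q n (h _)
  obtain ⟨m, rfl⟩ := Nat.exists_eq_add_of_le hi
  rw [Nat.add_comm, Function.iterate_add_apply]
  have h2 := cd1_iter_le M (M.step^[2 * n] q) m
  exact ⟨(h2.1.trans h1.1).trans hn.le, (h2.2.trans h1.2).trans hn.le⟩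

/-- contraction of the words along the stages: a factor `1/2` at least in every second stage -/
theorem kap_stages (s : St) (v : ℕ → ℤ) (i : ℕ) (h : M.Go (s, v) (i + 2)) :
    kap (M.step^[i + 2] (s, v)).1.x ≤ kap (M.step^[i] (s, v)).1.x / 2 ∧
    kap (M.step^[i + 2] (s, v)).1.x' ≤ kap (M.step^[i] (s, v)).1.x' / 2 := by
  have h2 := cd1_step_two M (M.step^[i] (s, v)) (h i (by omega))
    (by
      have := h (i + 1) (by omega)
      rwa [Function.iterate_succ_apply'] at this)
  have e : i + 2 = i + 1 + 1 := rfl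
  rw [e, Function.iterate_succ_apply', Function.iterate_succ_apply']
  exact h2

theorem kap_stages_le (s : St) (v : ℕ → ℤ) (i k : ℕ) (h : i ≤ k) :
    kap (M.step^[k] (s, v)).1.x ≤ kap (M.step^[i] (s, v)).1.x ∧
    kap (M.step^[k] (s, v)).1.x' ≤ kap (M.step^[i] (s, v)).1.x' := by
  obtain ⟨m, rfl⟩ := Nat.exists_eq_add_of_le h
  rw [Nat.add_comm, Function.iterate_add_apply]
  exact cd1_iter_le M (M.step^[i] (s, v)) m

/-- `kap` of the words of a parse that never stops tends to zero -/
theorem kap_tendsto (v : ℕ → ℤ) (h : ∀ i, M.Go (s0, v) i) (η : ℝ) (hη : 0 < η) :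
    ∃ i0, ∀ i, i0 ≤ i → kap (M.stg v i).1.x ≤ η ∧ kap (M.stg v i).1.x' ≤ η :=
  cd1_tendsto M (s0, v) h η hη

/-- sum of the `dd_phi` along the stages (geometric series with ratio `1/2` for every two stages) -/
theorem dd_stages (s : St) (v : ℕ → ℤ) (i k : ℕ) (h : i ≤ k) :
    |dd (M.step^[k] (s, v)).1 - dd (M.step^[i] (s, v)).1|
      ≤ 68 * (kap (M.step^[i] (s, v)).1.x + kap (M.step^[i] (s, v)).1.x') := by
  obtain ⟨m, rfl⟩ := Nat.exists_eq_add_of_le h
  rw [Nat.add_comm, Function.iterate_add_apply]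
  exact cd1_iter_dd M m (M.step^[i] (s, v))

end PJ
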