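import Pool.Agent.Lib.H31J.Defs

/-!
# Project PJ, part C: definitions

Homeomorphism of the model spaces `combA.LL` and `combB.LL` (PROOF.md section 2, with the small
changes described in README_C.md).

Conventions.  The first letter `u 0` of an itinerary plays no role for the potentials, so a point
`(u,e,t)` is treated through `v = sh 1 u`, `f = sh 1 e`.  All words below are words in the letters
after the first one.
-/

set_option autoImplicit false

namespace PJ

open Filter Topology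

/-! ### sequences and words -/

/-- prepend a letter to a sequence -/
def consS {α : Type} (a : α) (v : ℕ → α) : ℕ → α
  | 0 => a
  | n + 1 => v n

/-- prepend a word to a sequence -/
def pre {α : Type} : List α → (ℕ → α) → ℕ → α
  | [], v => v
  | a :: x, v => consS a (pre x v)

/-- shift of a sequence -/
def sh {α : Type} (n : ℕ) (v : ℕ → α) : ℕ → α := fun k => v (n + k)

/-- the word `v_i ... v_{i+k-1}` -/
def seg {α : Type} (v : ℕ → α) (i k : ℕ) : List α := (List.range k).map fun r => v (i + r)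

/-- agreement of the first `n` letters -/
def Agree {α : Type} (n : ℕ) (v w : ℕ → α) : Prop := ∀ k, k < n → v k = w k

/-! ### centers, arms, deviations -/

/-- the three centers `0^oo`, `(01)^oo`, `(010102)^oo` -/
def cen (τ : Fin 3) (n : ℕ) : ℤ :=
  if τ = 0 then 0 else if τ = 1 then (if n % 2 = 1 then 1 else 0)
  else (if n % 6 = 5 then 2 else if n % 2 = 1 then 1 else 0)

/-- the arms over the centers -/
def arm (τ : Fin 3) : Finset ℕ := if τ = 0 then {0, 9} else if τ = 1 then {0, 3, 6} else {0, 1, 2}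

/-- the deviations from the center of type `τ`: position and letter -/
abbrev Dv (τ : Fin 3) : Type := {a : ℕ × ℤ // a.2 ≠ cen τ a.1}

/-- type of the child -/
def cty (τ : Fin 3) (a : ℕ × ℤ) : Fin 3 :=
  if τ = 0 ∧ a.2 = 1 then 1 else if τ = 1 ∧ a.2 = 2 ∧ a.1 % 2 = 1 then 2 else 0

/-- the word that belongs to a deviation -/
def blk (τ : Fin 3) (a : ℕ × ℤ) : List ℤ := seg (cen τ) 0 a.1 ++ [a.2]

/-! ### arcs -/

/-- the composition of the transition functions along a word -/
def Comb.dw (C : Comb) (w : List ℤ) (e : ℕ) : ℕ := w.foldr C.de e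

/-- the return map -/
def Comb.ret (C : Comb) (τ : Fin 3) (e : ℕ) : ℕ := C.dw (seg (cen τ) 0 18) e

/-- the map to the arms of the parent -/
def Comb.par (C : Comb) (τ : Fin 3) (a : ℕ × ℤ) (e : ℕ) : ℕ := C.ret τ (C.dw (blk τ a) e)

/-- the sequence of arcs of the arm `b` over `cen τ` -/
def Comb.Ea (C : Comb) (τ : Fin 3) (b : ℕ) (i : ℕ) : ℕ := C.dw (seg (cen τ) i (17 * i)) b

/-- The symbolic facts (finite checks), PROOF.md section 1. -/
structure Comb.Sym (C : Comb) : Prop where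
  de_le : ∀ j e, C.de j e ≤ 17
  ret_mem : ∀ τ e, e ≤ 17 → C.ret τ e ∈ arm τ
  ret_arm : ∀ τ b, b ∈ arm τ → C.ret τ b = b
  win : ∀ τ i e, e ≤ 17 → ∃ b ∈ arm τ, C.dw (seg (cen τ) i 6) e = C.Ea τ b i
  win_inj : ∀ τ i b b', b ∈ arm τ → b' ∈ arm τ → C.Ea τ b i = C.Ea τ b' i → b = b'
  compat : ∀ τ (a : Dv τ) e, e ≤ 17 → C.par τ a.1 e = C.par τ a.1 (C.ret (cty τ a.1) e)
  compat0 : ∀ τ (a : Dv τ) e e', cty τ a.1 = 0 → e ≤ 17 → e' ≤ 17 → C.par τ a.1 e = C.par τ a.1 e'
  dens : ∀ τ b, b ∈ arm τ → ∃ p0 : ℕ, ∀ (q : ℕ) (j : ℤ), 3 ≤ j → ∀ e, e ≤ 17 →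
    C.par τ (p0 + 18 * q, j) e = b
  uniq : ∀ (u : ℕ → ℤ) (e e' : ℕ → ℕ), (u, e) ∈ C.X → (u, e') ∈ C.X → e ≠ e' →
    ∃ (k : ℕ) (τ : Fin 3), sh k u = cen τ

/-- prepend arcs over a word: the arcs over `pre w v` from the arcs `f` over `v` -/
def Comb.pe (C : Comb) : List ℤ → (ℕ → ℕ) → ℕ → ℕ
  | [], f => f
  | a :: w, f => consS (C.dw (a :: w) (f 0)) (Comb.pe C w f)

/-! ### potentials -/

/-- `Lw w y` = `y`-value (potential plus `2π|first letter|`) of `w v` if `y` is the one of `v` -/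
noncomputable def Lw : List ℤ → ℝ → ℝ
  | [], y => y
  | j :: x, y => 2 * Real.pi * |(j : ℝ)| + Real.log (1 + Lw x y)

/-- potential of `r w v` (`r` any letter) if `y` is the `y`-value of `v` -/
noncomputable def mw (w : List ℤ) (y : ℝ) : ℝ := Real.log (1 + Lw w y)

/-- Lipschitz constant of `mw w` on `[0,∞)` -/
noncomputable def kap : List ℤ → ℝ
  | [] => 1
  | j :: x => kap x / (1 + Lw (j :: x) 0)

/-- `v` is admissible -/
def Ad (v : ℕ → ℤ) : Prop := BddAbove (Set.range fun n => Lw (seg v 0 n) 0)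

/-- the `y`-value of a sequence -/
noncomputable def Y (v : ℕ → ℤ) : ℝ := ⨆ n, Lw (seg v 0 n) 0

/-- smallest potential of `r v` (`r` any letter) -/
noncomputable def mu (v : ℕ → ℤ) : ℝ := Real.log (1 + Y v)

/-! ### states and matchings -/

/-- a pair of matched nodes -/
structure St where
  x : List ℤ
  x' : List ℤ
  ty : Fin 3

/-- the root -/
def s0 : St := ⟨[], [], 0⟩

/-- exchange of the two sides -/
abbrev St.swap (s : St) : St := ⟨s.x', s.x, s.ty⟩

/-- the child of a pair of nodes belonging to a pair of deviations -/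
def St.nx (s : St) (a a' : ℕ × ℤ) : St := ⟨s.x ++ blk s.ty a, s.x' ++ blk s.ty a', cty s.ty a⟩

/-- difference of the potentials of the centers of the two nodes -/
noncomputable def dd (s : St) : ℝ := mw s.x' (Y (cen s.ty)) - mw s.x (Y (cen s.ty))

/-- matching of the nodes of `C` and of `C'` -/
structure Mt (C C' : Comb) where
  th : Fin 3 → Equiv.Perm ℕ
  th_mem : ∀ τ b, th τ b ∈ arm τ ↔ b ∈ arm τ
  phi : (s : St) → (Dv s.ty ≃ Dv s.ty)
  cty_phi : ∀ s a, cty s.ty (phi s a).1 = cty s.ty a.1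
  par_phi : ∀ s a g, g ∈ arm (cty s.ty a.1) →
    C'.par s.ty (phi s a).1 (th (cty s.ty a.1) g) = th s.ty (C.par s.ty a.1 g)
  dd_phi : ∀ s a, |dd (s.nx a.1 (phi s a).1) - dd s| ≤ 17 * (kap s.x + kap s.x')
  dd_tend : ∀ s, Tendsto (fun a : Dv s.ty => dd (s.nx a.1 (phi s a).1)) cofinite (𝓝 (dd s))

/-- the first deviation of `v` from `cen τ` -/
noncomputable def dv (τ : Fin 3) (v : ℕ → ℤ) (h : v ≠ cen τ) : Dv τ :=
  ⟨(@Nat.find _ (Classical.decPred _) (Function.ne_iff.1 h),
      v (@Nat.find _ (Classical.decPred _) (Function.ne_iff.1 h))),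
    @Nat.find_spec _ (Classical.decPred _) (Function.ne_iff.1 h)⟩

section
open Classical

variable {C C' : Comb} (M : Mt C C')

/-- the next state when the first deviation of the input is `a` -/
noncomputable def Mt.nxt (s : St) (a : Dv s.ty) : St := s.nx a.1 (M.phi s a).1

/-- the transducer: image of the sequence `v`, read in the state `s` -/
noncomputable def Mt.out (s : St) (v : ℕ → ℤ) (n : ℕ) : ℤ :=
  if h : v = cen s.ty then cen s.ty n
  else
    if n < (M.phi s (dv s.ty v h)).1.1 then cen s.ty n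
    else if n = (M.phi s (dv s.ty v h)).1.1 then (M.phi s (dv s.ty v h)).1.2
    else Mt.out (M.nxt s (dv s.ty v h)) (sh ((dv s.ty v h).1.1 + 1) v)
      (n - (M.phi s (dv s.ty v h)).1.1 - 1)
termination_by n
decreasing_by omega

/-- one stage of the parse -/
noncomputable def Mt.step (q : St × (ℕ → ℤ)) : St × (ℕ → ℤ) :=
  if h : q.2 = cen q.1.ty then q
  else (M.nxt q.1 (dv q.1.ty q.2 h), sh ((dv q.1.ty q.2 h).1.1 + 1) q.2)

/-- the `i`-th stage of the parse of `v` (the letters after the first one of an itinerary) -/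
noncomputable def Mt.stg (v : ℕ → ℤ) (i : ℕ) : St × (ℕ → ℤ) := M.step^[i] (s0, v)

/-- Correspondence of arcs: `f` over `v`, `f'` over `out s0 v`. -/
def Mt.Cor (v : ℕ → ℤ) (f f' : ℕ → ℕ) : Prop :=
  ∀ i, C'.ret (M.stg v i).1.ty (f' (M.stg v i).1.x'.length)
    = M.th (M.stg v i).1.ty (C.ret (M.stg v i).1.ty (f (M.stg v i).1.x.length))

/-- the arcs of the image -/
noncomputable def Mt.arc (v : ℕ → ℤ) (f : ℕ → ℕ) : ℕ → ℕ :=
  if h : ∃ f', (M.out s0 v, f') ∈ C'.X ∧ M.Cor v f f' then Classical.choose h else fun _ => 0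

/-- The map of the model spaces. -/
noncomputable def Mt.F (p : Pt) : Pt :=
  (consS (p.1 0) (M.out s0 (sh 1 p.1)),
   consS (C'.de (p.1 0) (M.arc (sh 1 p.1) (sh 1 p.2.1) 0)) (M.arc (sh 1 p.1) (sh 1 p.2.1)),
   p.2.2 + (mu (M.out s0 (sh 1 p.1)) - mu (sh 1 p.1)))

end

end PJ
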