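import Pool.Agent.Lib.H31J.CY

/-! # PJ part C, file CL: description of the model space -/

set_option autoImplicit false

namespace PJ

open Filter Topology

theorem CL_Tn_sh (u : ℕ → ℤ) (t : ℝ) (n : ℕ) : Tn u t (n + 1) = Tn (sh 1 u) (Tn u t 1) n := by
  induction n with
  | zero => rfl
  | succ n ih =>
    show Real.exp (Tn u t (n + 1)) - 1 - 2 * Real.pi * |(u (n + 1 + 1) : ℝ)|
      = Real.exp (Tn (sh 1 u) (Tn u t 1) n) - 1 - 2 * Real.pi * |((sh 1 u (n + 1) : ℤ) : ℝ)|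
    rw [ih]
    have : sh 1 u (n + 1) = u (n + 1 + 1) := by
      simp only [sh]
      congr 1
      omega
    rw [this]

/-- `0 ≤ T_n` for all `n ≤ N` iff `t ≥ mw (u_1 ... u_N) 0` -/
theorem Tn_iff (u : ℕ → ℤ) (t : ℝ) (N : ℕ) :
    (∀ n, n ≤ N → 0 ≤ Tn u t n) ↔ mw (seg (sh 1 u) 0 N) 0 ≤ t := by
  induction N generalizing u t with
  | zero =>
    rw [seg_zero]
    have h1 : mw [] 0 = 0 := by simp [mw, Lw]
    rw [h1]
    constructor
    · intro h
      exact h 0 le_rfl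
    · intro h n hn
      have : n = 0 := by omega
      subst this
      exact h
  | succ N ih =>
    have h1 : (∀ n, n ≤ N + 1 → 0 ≤ Tn u t n) ↔
        (0 ≤ t ∧ ∀ n, n ≤ N → 0 ≤ Tn (sh 1 u) (Tn u t 1) n) := by
      constructor
      · intro h
        refine ⟨h 0 (by omega), fun n hn => ?_⟩
        rw [← CL_Tn_sh]
        exact h (n + 1) (by omega)
      · rintro ⟨h0, h⟩ n hn
        cases n with
        | zero => exact h0
        | succ n =>
          rw [CL_Tn_sh]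
          exact h n (by omega)
    rw [h1, ih]
    have h2 : seg (sh 1 u) 0 (N + 1) = u 1 :: seg (sh 1 (sh 1 u)) 0 N := by
      rw [seg_succ, seg_sh (sh 1 u) 1 0 N]
      rfl
    rw [h2]
    set x := seg (sh 1 (sh 1 u)) 0 N with hx
    have h3 : mw (u 1 :: x) 0 = Real.log (1 + 2 * Real.pi * |(u 1 : ℝ)| + mw x 0) := by
      show Real.log (1 + (2 * Real.pi * |(u 1 : ℝ)| + Real.log (1 + Lw x 0))) = _
      unfold mw
      congr 1
      ring
    have h4 : Tn u t 1 = Real.exp t - 1 - 2 * Real.pi * |(u 1 : ℝ)| := rfl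
    have h5 : 0 ≤ mw x 0 := mw_nonneg _ _ le_rfl
    have h6 : 0 ≤ 2 * Real.pi * |(u 1 : ℝ)| := by positivity
    rw [h3, h4, Real.log_le_iff_le_exp (by linarith)]
    constructor
    · rintro ⟨_, h⟩
      linarith
    · intro h
      refine ⟨?_, by linarith⟩
      by_contra hneg
      have : Real.exp t < 1 := by
        rw [← Real.exp_zero]
        exact Real.exp_lt_exp.2 (not_le.1 hneg)
      linarith

theorem CL_all (u : ℕ → ℤ) (t : ℝ) :
    (∀ n, 0 ≤ Tn u t n) ↔ (Ad (sh 1 u) ∧ mu (sh 1 u) ≤ t) := by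
  constructor
  · intro h
    exact mu_le _ _ fun N => (Tn_iff u t N).1 fun n _ => h n
  · rintro ⟨h1, h2⟩ n
    exact (Tn_iff u t n).2 ((mw_seg_le_mu _ h1 n).trans h2) n le_rfl

theorem LL_iff (C : Comb) (p : Pt) :
    p ∈ C.LL ↔ (p.1, p.2.1) ∈ C.X ∧ Ad (sh 1 p.1) ∧ mu (sh 1 p.1) ≤ p.2.2 := by
  rw [← CL_all]
  constructor
  · intro h
    exact ⟨fun n => (h n).2, fun n => (h n).1⟩
  · rintro ⟨h1, h2⟩ n
    exact ⟨h2 n, h1 n⟩

theorem isEnd_iff (C : Comb) (p : Pt) (hp : p ∈ C.LL) :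
    IsEnd p.1 p.2.2 ↔ p.2.2 = mu (sh 1 p.1) := by
  obtain ⟨_, h1, h2⟩ := (LL_iff C p).1 hp
  constructor
  · intro h
    by_contra hne
    obtain ⟨n, hn⟩ := h (mu (sh 1 p.1)) (lt_of_le_of_ne h2 (Ne.symm hne))
    have := (CL_all p.1 (mu (sh 1 p.1))).2 ⟨h1, le_rfl⟩ n
    linarith
  · intro h s hs
    by_contra hne
    have h3 : ∀ n, 0 ≤ Tn p.1 s n := by
      intro n
      by_contra h4
      exact hne ⟨n, not_le.1 h4⟩
    have := ((CL_all p.1 s).1 h3).2
    linarith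

end PJ
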