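import Pool.Agent.Lib.H31J.CCor
import Pool.Agent.Lib.H31J.CD
import Pool.Agent.Lib.H31J.CL

/-! # PJ part C, file CF1: the map F of the model spaces -/

set_option autoImplicit false

namespace PJ

open Filter Topology

variable {C C' : Comb} (M : Mt C C')

theorem F_mem (hC : C.Sym) (hC' : C'.Sym) (p : Pt) (hp : p ∈ C.LL) : M.F p ∈ C'.LL := by
  obtain ⟨h1, h2, h3⟩ := (LL_iff C p).1 hp
  have h4 : (sh 1 p.1, sh 1 p.2.1) ∈ C.X := X_sh h1 1
  obtain ⟨h5, -⟩ := arc_spec M hC hC' _ _ h4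
  refine (LL_iff C' _).2 ⟨?_, ?_, ?_⟩
  · exact (X_consS _ _).2 ⟨rfl, h5⟩
  · simp only [Mt.F, sh_consS]
    exact (main_est M s0 _ h2).1
  · simp only [Mt.F, sh_consS]
    linarith

theorem F_symm (hC : C.Sym) (hC' : C'.Sym) (p : Pt) (hp : p ∈ C.LL) : M.symm.F (M.F p) = p := by
  obtain ⟨h1, h2, h3⟩ := (LL_iff C p).1 hp
  have h4 : (sh 1 p.1, sh 1 p.2.1) ∈ C.X := X_sh h1 1
  have h5 : M.symm.out s0 (M.out s0 (sh 1 p.1)) = sh 1 p.1 := out_symm M s0 _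
  have h6 := arc_symm M hC hC' _ _ h4
  have h7 : C.de (p.1 0) (sh 1 p.2.1 0) = p.2.1 0 := (h1 0).symm
  refine Prod.ext ?_ (Prod.ext ?_ ?_)
  · simp only [Mt.F, sh_consS, consS_zero, h5]
    exact consS_sh _
  · simp only [Mt.F, sh_consS, consS_zero, h6, h7]
    exact consS_sh _
  · simp only [Mt.F, sh_consS, h5]
    ring

theorem F_rel (hC : C.Sym) (hC' : C'.Sym) (p q : Pt) (hp : p ∈ C.LL) (hq : q ∈ C.LL)
    (h : Rel p q) : Rel (M.F p) (M.F q) := by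
  rcases h with rfl | ⟨h1, h2, h3⟩
  · exact Or.inl rfl
  · refine Or.inr ⟨?_, ?_, ?_⟩
    · simp only [Mt.F, h1]
    · simp only [Mt.F, h1, h2]
    · rw [isEnd_iff C' _ (F_mem M hC hC' p hp)]
      rw [isEnd_iff C p hp] at h3
      simp only [Mt.F, sh_consS, h3]
      ring

end PJ
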