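import Pool.Agent.Lib.H31J.CF1
import Pool.Agent.Lib.H31J.CCont

/-! # PJ part C, file CF2: continuity of the map F -/

set_option autoImplicit false

namespace PJ

open Filter Topology

variable {C C' : Comb} (M : Mt C C')

theorem eventually_agree {α : Type} [TopologicalSpace α] [DiscreteTopology α] (n : ℕ)
    (v : ℕ → α) : ∀ᶠ w in 𝓝 v, Agree n v w := by
  have h : ∀ k ∈ {k : ℕ | k < n}, ∀ᶠ w : ℕ → α in 𝓝 v, v k = w k := by
    intro k _
    have h1 : ∀ᶠ x in 𝓝 (v k), v k = x := by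
      rw [nhds_discrete]; exact eventually_pure.2 rfl
    exact ((continuous_apply k).tendsto v).eventually h1
  exact (eventually_all_finite (Set.finite_lt_nat n)).2 h

theorem tendsto_of_agree {X : Type} {α : Type} [TopologicalSpace α] [DiscreteTopology α]
    {l : Filter X} {F : X → ℕ → α} {v : ℕ → α} (h : ∀ N, ∀ᶠ x in l, Agree N v (F x)) :
    Tendsto F l (𝓝 v) := by
  rw [tendsto_pi_nhds]
  intro n
  refine tendsto_nhds_of_eventually_eq ?_
  filter_upwards [h (n + 1)] with x hx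
  exact (hx n (Nat.lt_succ_self n)).symm

theorem F_cont_aux (hC : C.Sym) (hC' : C'.Sym) (p : Pt) (hp : p ∈ C.LL) (N : ℕ) (η : ℝ)
    (hη : 0 < η) : ∀ᶠ q in 𝓝[C.LL] p, Agree N (M.F p).1 (M.F q).1 ∧
      Agree N (M.F p).2.1 (M.F q).2.1 ∧ |(M.F q).2.2 - (M.F p).2.2| < η := by
  obtain ⟨h1, h2, h3⟩ := (LL_iff C p).1 hp
  have h4 : (sh 1 p.1, sh 1 p.2.1) ∈ C.X := X_sh h1 1
  obtain ⟨N2, hN2⟩ := cont_all M hC hC' _ _ h4 h2 (N + 1) (η / 2) (half_pos hη) (p.2.2 + 1)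
  have e1 : ∀ᶠ q : Pt in 𝓝[C.LL] p, Agree (1 + N2) p.1 q.1 :=
    (continuous_fst.continuousWithinAt (x := p) (s := C.LL)).tendsto.eventually
      (eventually_agree (1 + N2) p.1)
  have e2 : ∀ᶠ q : Pt in 𝓝[C.LL] p, Agree (1 + N2) p.2.1 q.2.1 :=
    ((continuous_fst.comp continuous_snd).continuousWithinAt (x := p) (s := C.LL)).tendsto.eventually
      (eventually_agree (1 + N2) p.2.1)
  have e3 : ∀ᶠ q : Pt in 𝓝[C.LL] p, |q.2.2 - p.2.2| < min 1 (η / 2) :=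
    ((continuous_snd.comp continuous_snd).continuousWithinAt (x := p) (s := C.LL)).tendsto.eventually
      (Metric.ball_mem_nhds p.2.2 (lt_min one_pos (half_pos hη)))
  filter_upwards [e1, e2, e3, self_mem_nhdsWithin] with q q1 q2 q3 hq
  obtain ⟨k1, k2, k3⟩ := (LL_iff C q).1 hq
  have k4 : (sh 1 q.1, sh 1 q.2.1) ∈ C.X := X_sh k1 1
  have q4 := abs_lt.1 (lt_of_lt_of_le q3 (min_le_left _ _))
  have q5 := lt_of_lt_of_le q3 (min_le_right _ _)
  obtain ⟨r1, r2, r3⟩ := hN2 _ _ k4 (agree_sh q1) (agree_sh q2) k2 (by linarith)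
  have q0 : p.1 0 = q.1 0 := q1 0 (by omega)
  have r0 : M.arc (sh 1 p.1) (sh 1 p.2.1) 0 = M.arc (sh 1 q.1) (sh 1 q.2.1) 0 := r2 0 (by omega)
  refine ⟨?_, ?_, ?_⟩
  · simp only [Mt.F, q0]
    exact (agree_consS _ r1).mono (by omega)
  · simp only [Mt.F, q0, r0]
    exact (agree_consS _ r2).mono (by omega)
  · simp only [Mt.F]
    rw [show q.2.2 + (mu (M.out s0 (sh 1 q.1)) - mu (sh 1 q.1)) -
      (p.2.2 + (mu (M.out s0 (sh 1 p.1)) - mu (sh 1 p.1))) = (q.2.2 - p.2.2) +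
      ((mu (M.out s0 (sh 1 q.1)) - mu (sh 1 q.1)) -
        (mu (M.out s0 (sh 1 p.1)) - mu (sh 1 p.1))) by ring]
    refine (abs_add_le _ _).trans_lt ?_
    linarith

theorem F_cont (hC : C.Sym) (hC' : C'.Sym) : ContinuousOn M.F C.LL := by
  intro p hp
  have h := F_cont_aux M hC hC' p hp
  have t1 : Tendsto (fun q => (M.F q).1) (𝓝[C.LL] p) (𝓝 (M.F p).1) :=
    tendsto_of_agree fun N => (h N 1 one_pos).mono fun q hq => hq.1
  have t2 : Tendsto (fun q => (M.F q).2.1) (𝓝[C.LL] p) (𝓝 (M.F p).2.1) :=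
    tendsto_of_agree fun N => (h N 1 one_pos).mono fun q hq => hq.2.1
  have t3 : Tendsto (fun q => (M.F q).2.2) (𝓝[C.LL] p) (𝓝 (M.F p).2.2) := by
    rw [Metric.tendsto_nhds]
    intro η hη
    filter_upwards [h 0 η hη] with q hq
    rw [Real.dist_eq]
    exact hq.2.2
  exact t1.prodMk_nhds (t2.prodMk_nhds t3)

end PJ
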