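import Pool.Agent.Lib.H31J.CD
import Pool.Agent.Lib.H31J.CCor

/-! # PJ part C, file CGo: continuity at a sequence whose parse never stops -/

set_option autoImplicit false

namespace PJ

open Filter Topology

variable {C C' : Comb} (M : Mt C C')

/-- by `stg_agree`, `stg_out`, `stg_len` -/
theorem go_out (v : ℕ → ℤ) (hg : ∀ i, M.Go (s0, v) i) (N : ℕ) :
    ∃ N2, ∀ w, Agree N2 v w → Agree N (M.out s0 v) (M.out s0 w) := by
  refine ⟨(M.stg v N).1.x.length, fun w hw => ?_⟩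
  obtain ⟨-, h2, -⟩ := stg_agree M v w N (hg N) hw
  have h3 := stg_out M v N
  have h4 := stg_out M w N
  rw [h2] at h4
  rw [← h3, ← h4]
  exact (agree_pre _ _ _).mono (stg_len M v N (hg N)).2

/-- by `go_out`, `unique_of_go`, `arcs_cont` -/
theorem go_arc (hC : C.Sym) (hC' : C'.Sym) (v : ℕ → ℤ) (f : ℕ → ℕ) (h : (v, f) ∈ C.X)
    (hg : ∀ i, M.Go (s0, v) i) (N : ℕ) :
    ∃ N2, ∀ w g, (w, g) ∈ C.X → Agree N2 v w → Agree N (M.arc v f) (M.arc w g) := by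
  have h1 := (arc_spec M hC hC' v f h).1
  obtain ⟨N1, hN1⟩ := arcs_cont hC' (M.out s0 v) (M.arc v f) h1
    (fun e' he' => unique_of_go M hC' v hg e' (M.arc v f) he' h1) N
  obtain ⟨N2, hN2⟩ := go_out M v hg N1
  exact ⟨N2, fun w g hwg hw => hN1 _ _ (arc_spec M hC hC' w g hwg).1 (hN2 w hw)⟩

/-- by `main_stg` for `v` and `w` at the same stage, `kap_tendsto` -/
theorem go_pot (v : ℕ → ℤ) (hg : ∀ i, M.Go (s0, v) i) (hv : Ad v) (η : ℝ) (hη : 0 < η) :
    ∃ N2, ∀ w, Ad w → Agree N2 v w →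
      |(mu (M.out s0 w) - mu w) - (mu (M.out s0 v) - mu v)| < η := by
  obtain ⟨i0, hi0⟩ := kap_tendsto M v hg (η / 400) (by linarith)
  obtain ⟨hk, hk'⟩ := hi0 i0 le_rfl
  refine ⟨(M.stg v i0).1.x.length, fun w hAw hw => ?_⟩
  obtain ⟨-, h2, -⟩ := stg_agree M v w i0 (hg i0) hw
  have h3 := main_stg M v hv i0
  have h4 := main_stg M w hAw i0
  rw [h2] at h4
  rw [abs_le] at h3 h4
  rw [abs_lt]
  constructor <;> linarith [h3.1, h3.2, h4.1, h4.2]

end PJ
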