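import Mathlib

/-! # PJ part C, file CM: the matching lemma (abstract, countable sets of reals) -/

set_option autoImplicit false

namespace PJ

open Filter Topology

/-- injective choice from infinite sets, indexed by `ℕ` -/
theorem inj_choice_nat {A' : Type} (T : ℕ → Set A') (hT : ∀ n, (T n).Infinite) :
    ∃ g : ℕ → A', Function.Injective g ∧ ∀ n, g n ∈ T n := by
  classical
  have hp : ∀ (n : ℕ) (s : Finset A'), ∃ a ∈ T n, a ∉ s := fun n s =>
    (hT n).exists_notMem_finset s
  choose pick hpT hps using hp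
  let st : ℕ → Finset A' := fun n => Nat.rec ∅ (fun n s => insert (pick n s) s) n
  have hst : ∀ n, st (n + 1) = insert (pick n (st n)) (st n) := fun n => rfl
  have hmono : Monotone st := monotone_nat_of_le_succ fun n => by
    rw [hst]; exact Finset.subset_insert _ _
  refine ⟨fun n => pick n (st n), ?_, fun n => hpT _ _⟩
  have key : ∀ m n, m < n → pick m (st m) ≠ pick n (st n) := by
    intro m n hmn heq
    apply hps n (st n)
    rw [← heq]
    apply hmono hmn
    rw [Nat.succ_eq_add_one, hst]
    exact Finset.mem_insert_self _ _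
  intro m n h
  rcases lt_trichotomy m n with h1 | h1 | h1
  · exact absurd h (key m n h1)
  · exact h1
  · exact absurd h.symm (key n m h1)

/-- injective choice from infinite sets -/
theorem inj_choice {A A' : Type} [Countable A] (S : A → Set A') (hS : ∀ a, (S a).Infinite) :
    ∃ F : A → A', Function.Injective F ∧ ∀ a, F a ∈ S a := by
  classical
  obtain ⟨e, he⟩ := exists_injective_nat A
  rcases isEmpty_or_nonempty A with hA | ⟨⟨a₀⟩⟩
  · exact ⟨fun a => hA.elim a, fun a => hA.elim a, fun a => hA.elim a⟩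
  · obtain ⟨g, hg, hgT⟩ := inj_choice_nat (fun n => if h : ∃ a, e a = n then S h.choose else S a₀)
      (fun n => by
        by_cases h : ∃ a, e a = n
        · simp only [dif_pos h]; exact hS _
        · simp only [dif_neg h]; exact hS _)
    refine ⟨fun a => g (e a), hg.comp he, fun a => ?_⟩
    have h1 := hgT (e a)
    have h2 : ∃ a', e a' = e a := ⟨a, rfl⟩
    simp only [dif_pos h2] at h1
    rwa [he h2.choose_spec] at h1

/-- a positive summable-like tolerance on a countable type -/
theorem exists_tol {A : Type} [Countable A] (ε : ℝ) (hε : 0 < ε) :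
    ∃ tol : A → ℝ, (∀ a, 0 < tol a) ∧ (∀ a, tol a ≤ ε) ∧ Tendsto tol cofinite (𝓝 0) := by
  obtain ⟨e, he⟩ := exists_injective_nat A
  refine ⟨fun a => ε / ((e a : ℝ) + 1), fun a => by positivity, fun a => ?_, ?_⟩
  · apply div_le_self hε.le
    have : (0 : ℝ) ≤ e a := Nat.cast_nonneg _
    linarith
  · have h1 : Tendsto e cofinite atTop := by
      rw [← Nat.cofinite_eq_atTop]; exact he.tendsto_cofinite
    have h2 : Tendsto (fun n : ℕ => ε / ((n : ℝ) + 1)) atTop (𝓝 0) :=
      tendsto_const_div_atTop_nhds_zero_nat ε |>.comp (tendsto_add_atTop_nat 1) |>.congr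
        fun n => by simp
    exact h2.comp h1

theorem match_infinite {A A' : Type} (g : A → ℝ) (f' : A' → ℝ)
    (c : A → A' → Prop) (hg : ∀ a, 0 ≤ g a)
    (hd : ∀ a r η, 0 < r → 0 < η → {a' | c a a' ∧ |f' a' - r| < η}.Infinite)
    (tol : A → ℝ) (htol : ∀ a, 0 < tol a) (a : A) :
    {a' | c a a' ∧ |max (f' a') 0 - g a| < tol a}.Infinite := by
  have h := hd a (g a + tol a / 2) (tol a / 2) (by have := hg a; have := htol a; linarith)
    (half_pos (htol a))
  refine h.mono ?_
  rintro a' ⟨h1, h2⟩
  refine ⟨h1, ?_⟩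
  have hga := hg a
  have hta := htol a
  rw [abs_lt] at h2 ⊢
  have h3 : 0 < f' a' := by linarith
  rw [max_eq_left h3.le]
  constructor <;> linarith

/-- MATCHING LEMMA.  Put `g = max f 0`, `g' = max f' 0`; tolerances `tol a → 0` along cofinite
(`A` is countable), `tol a ≤ ε`; `inj_choice` gives injections `F : A → A'`, `G : A' → A` with
`c a (F a)`, `|g' (F a) - g a| < tol a`, `c (G a') a'`, `|g (G a') - g' a'| < tol' a'`;
`Function.Embedding.schroeder_bernstein_of_rel` with the relation
`c a a' ∧ |g' a' - g a| < max (tol a) (tol' a')`; finally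
`|f' - f| ≤ |g' - g| + |max (-f') 0 - max (-f) 0|`. -/
theorem matching {A A' : Type} [Countable A] [Countable A'] (f : A → ℝ) (f' : A' → ℝ)
    (c : A → A' → Prop) (b ε : ℝ) (hε : 0 < ε)
    (hf : ∀ a, -b ≤ f a) (hf' : ∀ a, -b ≤ f' a)
    (hfin : ∀ η, 0 < η → {a | f a < -η}.Finite) (hfin' : ∀ η, 0 < η → {a | f' a < -η}.Finite)
    (hd : ∀ a r η, 0 < r → 0 < η → {a' | c a a' ∧ |f' a' - r| < η}.Infinite)
    (hd' : ∀ a' r η, 0 < r → 0 < η → {a | c a a' ∧ |f a - r| < η}.Infinite) :
    ∃ φ : A ≃ A', (∀ a, c a (φ a)) ∧ (∀ a, |f' (φ a) - f a| ≤ b + ε) ∧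
      Tendsto (fun a => f' (φ a) - f a) cofinite (𝓝 0) := by
  obtain ⟨tol, ht0, htε, htl⟩ := exists_tol (A := A) ε hε
  obtain ⟨tol', ht0', htε', htl'⟩ := exists_tol (A := A') ε hε
  obtain ⟨F, hFi, hF⟩ := inj_choice _ (match_infinite (fun a => max (f a) 0) f' c
    (fun a => le_max_right _ _) hd tol ht0)
  obtain ⟨G, hGi, hG⟩ := inj_choice _ (match_infinite (fun a => max (f' a) 0) f
    (fun a' a => c a a') (fun a => le_max_right _ _) hd' tol' ht0')
  obtain ⟨h, hb, hR⟩ := Function.Embedding.schroeder_bernstein_of_rel hFi hGi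
    (fun a a' => c a a' ∧ |max (f' a') 0 - max (f a) 0| < max (tol a) (tol' a'))
    (fun a => ⟨(hF a).1, lt_of_lt_of_le (hF a).2 (le_max_left _ _)⟩)
    (fun a' => ⟨(hG a').1, by
      rw [abs_sub_comm]
      exact lt_of_lt_of_le (hG a').2 (le_max_right _ _)⟩)
  have hb0 : ∀ _ : A, 0 ≤ b := by
    intro a
    by_contra hneg
    push Not at hneg
    obtain ⟨a', -, ha'⟩ := (hd a (-b / 2) (-b / 2) (by linarith) (by linarith)).nonempty
    rw [abs_lt] at ha'
    have := hf' a'
    linarith
  have hsplit : ∀ x : ℝ, x = max x 0 - max (-x) 0 := by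
    intro x
    rcases le_total x 0 with hx | hx
    · rw [max_eq_right hx, max_eq_left (by linarith : 0 ≤ -x)]; ring
    · rw [max_eq_left hx, max_eq_right (by linarith : -x ≤ 0)]; ring
  refine ⟨Equiv.ofBijective h hb, fun a => (hR a).1, fun a => ?_, ?_⟩
  · have h1 : |max (f' (h a)) 0 - max (f a) 0| < max (tol a) (tol' (h a)) := (hR a).2
    have h2 : max (tol a) (tol' (h a)) ≤ ε := max_le (htε a) (htε' _)
    have h3 : |max (-f' (h a)) 0 - max (-f a) 0| ≤ b := by
      have e1 : max (-f' (h a)) 0 ≤ b := max_le (by have := hf' (h a); linarith) (hb0 a)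
      have e2 : max (-f a) 0 ≤ b := max_le (by have := hf a; linarith) (hb0 a)
      have e3 : 0 ≤ max (-f' (h a)) 0 := le_max_right _ _
      have e4 : 0 ≤ max (-f a) 0 := le_max_right _ _
      rw [abs_le]; constructor <;> linarith
    have h4 : f' (h a) - f a = (max (f' (h a)) 0 - max (f a) 0)
        - (max (-f' (h a)) 0 - max (-f a) 0) := by
      have := hsplit (f' (h a))
      have := hsplit (f a)
      linarith
    change |f' (h a) - f a| ≤ b + ε
    rw [h4]
    refine (abs_sub _ _).trans ?_
    linarith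
  · change Tendsto (fun a => f' (h a) - f a) cofinite (𝓝 0)
    have hneg : ∀ {B : Type} (k : B → ℝ) (_ : ∀ η, 0 < η → {a | k a < -η}.Finite),
        Tendsto (fun a => max (-k a) 0) cofinite (𝓝 0) := by
      intro B k hk
      rw [Metric.tendsto_nhds]
      intro η hη
      rw [eventually_cofinite]
      refine (hk (η / 2) (half_pos hη)).subset ?_
      intro a ha
      simp only [Set.mem_ofPred_eq, dist_zero_right, Real.norm_eq_abs, not_lt] at ha ⊢
      rw [abs_of_nonneg (le_max_right _ _)] at ha
      rcases le_max_iff.1 ha with h1 | h1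
      · linarith
      · linarith
    have t1 : Tendsto (fun a => max (tol a) (tol' (h a))) cofinite (𝓝 0) := by
      have := htl.max (htl'.comp hb.injective.tendsto_cofinite)
      simpa using this
    have t2 : Tendsto (fun a => max (f' (h a)) 0 - max (f a) 0) cofinite (𝓝 0) := by
      refine squeeze_zero_norm (fun a => ?_) t1
      exact (hR a).2.le
    have t3 : Tendsto (fun a => max (-f' (h a)) 0 - max (-f a) 0) cofinite (𝓝 0) := by
      have := ((hneg f' hfin').comp hb.injective.tendsto_cofinite).sub (hneg f hfin)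
      simpa using this
    have t4 := t2.sub t3
    rw [sub_zero] at t4
    refine t4.congr fun a => ?_
    have := hsplit (f' (h a))
    have := hsplit (f a)
    linarith

end PJ
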