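import Pool.Agent.Lib.H31J.CTab

/-! # PJ part C, file CS1: return map and windows (finite checks)

Hint: with the tables of CTab everything is a finite computation by the periodicity `cen_add`
(`i` and `p` modulo 18, `j` in `{-1,0,1,2,3}`); use `decide +kernel` on statements about the tables
(lists of naturals), e.g. represent a function `{0..17} → {0..17}` by the list of its values. -/

set_option autoImplicit false

namespace PJ

lemma cs1_arm_le : ∀ τ, ∀ b ∈ arm τ, b ≤ 17 := by decide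

theorem ret_memA : ∀ τ e, e ≤ 17 → combA.ret τ e ∈ arm τ := by
  have h : ∀ τ e, e ≤ 17 → twr tabA τ 0 18 e ∈ arm τ := by decide +kernel
  intro τ e he
  unfold Comb.ret
  rw [tabOf_A.dw_seg _ _ _ _ he]
  exact h τ e he

theorem ret_memB : ∀ τ e, e ≤ 17 → combB.ret τ e ∈ arm τ := by
  have h : ∀ τ e, e ≤ 17 → twr tabB τ 0 18 e ∈ arm τ := by decide +kernel
  intro τ e he
  unfold Comb.ret
  rw [tabOf_B.dw_seg _ _ _ _ he]
  exact h τ e he

theorem ret_armA : ∀ τ b, b ∈ arm τ → combA.ret τ b = b := by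
  have h : ∀ τ, ∀ b ∈ arm τ, twr tabA τ 0 18 b = b := by decide +kernel
  intro τ b hb
  unfold Comb.ret
  rw [tabOf_A.dw_seg _ _ _ _ (cs1_arm_le τ b hb)]
  exact h τ b hb

theorem ret_armB : ∀ τ b, b ∈ arm τ → combB.ret τ b = b := by
  have h : ∀ τ, ∀ b ∈ arm τ, twr tabB τ 0 18 b = b := by decide +kernel
  intro τ b hb
  unfold Comb.ret
  rw [tabOf_B.dw_seg _ _ _ _ (cs1_arm_le τ b hb)]
  exact h τ b hb

lemma cs1_pow {C : Comb} (h : ∀ τ b, b ∈ arm τ → C.ret τ b = b) (τ : Fin 3) (b : ℕ)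
    (hb : b ∈ arm τ) (k : ℕ) : C.dw (seg (cen τ) 0 (18 * k)) b = b := by
  induction k with
  | zero => simp [seg_zero, dw_nil]
  | succ k ih =>
    rw [show 18 * (k + 1) = 18 * k + 18 by ring, seg_add, dw_append, zero_add, seg_cen_mul]
    have := h τ b hb
    unfold Comb.ret at this
    rw [this, ih]

/-- `Ea` is periodic -/
lemma cs1_Ea {C : Comb} (h : ∀ τ b, b ∈ arm τ → C.ret τ b = b) (τ : Fin 3) (b : ℕ)
    (hb : b ∈ arm τ) (i : ℕ) :
    C.Ea τ b i = C.dw (seg (cen τ) (i % 18) (18 - i % 18)) b := by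
  have hi := Nat.mod_add_div i 18
  have hlt : i % 18 < 18 := Nat.mod_lt _ (by norm_num)
  unfold Comb.Ea
  rw [seg_cen_mod]
  set r := i % 18 with hr
  set q := i / 18 with hq
  rcases Nat.eq_zero_or_pos r with h0 | h0
  · rw [h0, show 17 * i = 18 * (17 * q) by omega, cs1_pow h τ b hb]
    exact (h τ b hb).symm
  · obtain ⟨r', hr'⟩ : ∃ r', r = r' + 1 := ⟨r - 1, by omega⟩
    have e : 17 * i = (18 - r) + 18 * (r' + 17 * q) := by omega
    rw [e, seg_add, dw_append]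
    congr 1
    rw [show r + (18 - r) = 18 * 1 by omega, seg_cen_mul]
    exact cs1_pow h τ b hb _

theorem winA : ∀ τ i e, e ≤ 17 → ∃ b ∈ arm τ, combA.dw (seg (cen τ) i 6) e = combA.Ea τ b i := by
  have h : ∀ τ i, i < 18 → ∀ e, e ≤ 17 → ∃ b ∈ arm τ,
      twr tabA τ i 6 e = twr tabA τ i (18 - i) b := by decide +kernel
  intro τ i e he
  obtain ⟨b, hb, hh⟩ := h τ (i % 18) (Nat.mod_lt _ (by norm_num)) e he
  refine ⟨b, hb, ?_⟩
  rw [cs1_Ea ret_armA τ b hb, seg_cen_mod τ i, tabOf_A.dw_seg _ _ _ _ he,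
    tabOf_A.dw_seg _ _ _ _ (cs1_arm_le τ b hb)]
  exact hh

theorem winB : ∀ τ i e, e ≤ 17 → ∃ b ∈ arm τ, combB.dw (seg (cen τ) i 6) e = combB.Ea τ b i := by
  have h : ∀ τ i, i < 18 → ∀ e, e ≤ 17 → ∃ b ∈ arm τ,
      twr tabB τ i 6 e = twr tabB τ i (18 - i) b := by decide +kernel
  intro τ i e he
  obtain ⟨b, hb, hh⟩ := h τ (i % 18) (Nat.mod_lt _ (by norm_num)) e he
  refine ⟨b, hb, ?_⟩
  rw [cs1_Ea ret_armB τ b hb, seg_cen_mod τ i, tabOf_B.dw_seg _ _ _ _ he,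
    tabOf_B.dw_seg _ _ _ _ (cs1_arm_le τ b hb)]
  exact hh

theorem win_injA : ∀ τ i b b', b ∈ arm τ → b' ∈ arm τ → combA.Ea τ b i = combA.Ea τ b' i →
    b = b' := by
  have h : ∀ τ i, i < 18 → ∀ b ∈ arm τ, ∀ b' ∈ arm τ,
      twr tabA τ i (18 - i) b = twr tabA τ i (18 - i) b' → b = b' := by decide +kernel
  intro τ i b b' hb hb' he
  rw [cs1_Ea ret_armA τ b hb, cs1_Ea ret_armA τ b' hb',
    tabOf_A.dw_seg _ _ _ _ (cs1_arm_le τ b hb), tabOf_A.dw_seg _ _ _ _ (cs1_arm_le τ b' hb')] at he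
  exact h τ (i % 18) (Nat.mod_lt _ (by norm_num)) b hb b' hb' he

theorem win_injB : ∀ τ i b b', b ∈ arm τ → b' ∈ arm τ → combB.Ea τ b i = combB.Ea τ b' i →
    b = b' := by
  have h : ∀ τ i, i < 18 → ∀ b ∈ arm τ, ∀ b' ∈ arm τ,
      twr tabB τ i (18 - i) b = twr tabB τ i (18 - i) b' → b = b' := by decide +kernel
  intro τ i b b' hb hb' he
  rw [cs1_Ea ret_armB τ b hb, cs1_Ea ret_armB τ b' hb',
    tabOf_B.dw_seg _ _ _ _ (cs1_arm_le τ b hb), tabOf_B.dw_seg _ _ _ _ (cs1_arm_le τ b' hb')] at he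
  exact h τ (i % 18) (Nat.mod_lt _ (by norm_num)) b hb b' hb' he

end PJ
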