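import Pool.Agent.Lib.H31J.CTab
import Pool.Agent.Lib.H31J.CS1

/-! # PJ part C, file CS2: compatibility of the parents (finite checks)

`C.par τ (p, j) e` only depends on `p` modulo 18 (as `ret ∘ ret = ret`, see CS1, which may be
imported) and on `j` through `max (-1) (min 3 j)`. -/

set_option autoImplicit false

namespace PJ

/-- `par`, computed with the table -/
def tpar (T : List (List ℕ)) (τ : Fin 3) (r : ℕ) (x : ℕ) : ℕ := twr T τ 0 18 (twr T τ 0 r x)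

/-- reading a table of tables -/
def pt (p : List (List (List ℕ))) (τ : Fin 3) (r x : ℕ) : ℕ := ((p.getD τ []).getD r []).getD x 0

/-- values of `tpar tabA` -/
def ptA : List (List (List ℕ)) :=
  [[[0, 9, 9, 9, 9, 9, 9, 9, 9, 9, 0, 0, 0, 0, 0, 0, 0, 0],
   [9, 0, 0, 0, 0, 0, 0, 0, 0, 0, 9, 9, 9, 9, 9, 9, 9, 9],
   [0, 9, 9, 9, 9, 9, 9, 9, 9, 9, 0, 0, 0, 0, 0, 0, 0, 0],
   [9, 0, 0, 0, 0, 0, 0, 0, 0, 0, 9, 9, 9, 9, 9, 9, 9, 9],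
   [0, 9, 9, 9, 9, 9, 9, 9, 9, 9, 0, 0, 0, 0, 0, 0, 0, 0],
   [9, 0, 0, 0, 0, 0, 0, 0, 0, 0, 9, 9, 9, 9, 9, 9, 9, 9],
   [0, 9, 9, 9, 9, 9, 9, 9, 9, 9, 0, 0, 0, 0, 0, 0, 0, 0],
   [9, 0, 0, 0, 0, 0, 0, 0, 0, 0, 9, 9, 9, 9, 9, 9, 9, 9],
   [0, 9, 9, 9, 9, 9, 9, 9, 9, 9, 0, 0, 0, 0, 0, 0, 0, 0],
   [9, 0, 0, 0, 0, 0, 0, 0, 0, 0, 9, 9, 9, 9, 9, 9, 9, 9],
   [0, 9, 9, 9, 9, 9, 9, 9, 9, 9, 0, 0, 0, 0, 0, 0, 0, 0],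
   [9, 0, 0, 0, 0, 0, 0, 0, 0, 0, 9, 9, 9, 9, 9, 9, 9, 9],
   [0, 9, 9, 9, 9, 9, 9, 9, 9, 9, 0, 0, 0, 0, 0, 0, 0, 0],
   [9, 0, 0, 0, 0, 0, 0, 0, 0, 0, 9, 9, 9, 9, 9, 9, 9, 9],
   [0, 9, 9, 9, 9, 9, 9, 9, 9, 9, 0, 0, 0, 0, 0, 0, 0, 0],
   [9, 0, 0, 0, 0, 0, 0, 0, 0, 0, 9, 9, 9, 9, 9, 9, 9, 9],
   [0, 9, 9, 9, 9, 9, 9, 9, 9, 9, 0, 0, 0, 0, 0, 0, 0, 0],
   [9, 0, 0, 0, 0, 0, 0, 0, 0, 0, 9, 9, 9, 9, 9, 9, 9, 9]],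
  [[0, 3, 3, 3, 6, 6, 6, 0, 0, 0, 0, 0, 0, 0, 0, 0, 0, 0],
   [0, 0, 0, 0, 0, 0, 0, 0, 0, 0, 3, 3, 3, 6, 6, 6, 0, 0],
   [6, 0, 0, 0, 3, 3, 3, 6, 6, 6, 6, 6, 6, 6, 6, 6, 6, 6],
   [6, 6, 6, 6, 6, 6, 6, 6, 6, 6, 0, 0, 0, 3, 3, 3, 6, 6],
   [3, 6, 6, 6, 0, 0, 0, 3, 3, 3, 3, 3, 3, 3, 3, 3, 3, 3],
   [3, 3, 3, 3, 3, 3, 3, 3, 3, 3, 6, 6, 6, 0, 0, 0, 3, 3],
   [0, 3, 3, 3, 6, 6, 6, 0, 0, 0, 0, 0, 0, 0, 0, 0, 0, 0],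
   [0, 0, 0, 0, 0, 0, 0, 0, 0, 0, 3, 3, 3, 6, 6, 6, 0, 0],
   [6, 0, 0, 0, 3, 3, 3, 6, 6, 6, 6, 6, 6, 6, 6, 6, 6, 6],
   [6, 6, 6, 6, 6, 6, 6, 6, 6, 6, 0, 0, 0, 3, 3, 3, 6, 6],
   [3, 6, 6, 6, 0, 0, 0, 3, 3, 3, 3, 3, 3, 3, 3, 3, 3, 3],
   [3, 3, 3, 3, 3, 3, 3, 3, 3, 3, 6, 6, 6, 0, 0, 0, 3, 3],
   [0, 3, 3, 3, 6, 6, 6, 0, 0, 0, 0, 0, 0, 0, 0, 0, 0, 0],
   [0, 0, 0, 0, 0, 0, 0, 0, 0, 0, 3, 3, 3, 6, 6, 6, 0, 0],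
   [6, 0, 0, 0, 3, 3, 3, 6, 6, 6, 6, 6, 6, 6, 6, 6, 6, 6],
   [6, 6, 6, 6, 6, 6, 6, 6, 6, 6, 0, 0, 0, 3, 3, 3, 6, 6],
   [3, 6, 6, 6, 0, 0, 0, 3, 3, 3, 3, 3, 3, 3, 3, 3, 3, 3],
   [3, 3, 3, 3, 3, 3, 3, 3, 3, 3, 6, 6, 6, 0, 0, 0, 3, 3]],
  [[0, 1, 2, 0, 0, 0, 0, 0, 0, 0, 0, 0, 0, 0, 0, 0, 0, 0],
   [0, 0, 0, 0, 0, 0, 0, 0, 0, 0, 1, 2, 0, 0, 0, 0, 0, 0],
   [0, 0, 0, 0, 1, 2, 0, 0, 0, 0, 0, 0, 0, 0, 0, 0, 0, 0],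
   [0, 0, 0, 0, 0, 0, 0, 0, 0, 0, 0, 0, 0, 1, 2, 0, 0, 0],
   [0, 0, 0, 0, 0, 0, 0, 1, 2, 0, 0, 0, 0, 0, 0, 0, 0, 0],
   [0, 0, 0, 0, 0, 0, 0, 0, 0, 0, 0, 0, 0, 0, 0, 0, 1, 2],
   [2, 0, 1, 2, 2, 2, 2, 2, 2, 2, 2, 2, 2, 2, 2, 2, 2, 2],
   [2, 2, 2, 2, 2, 2, 2, 2, 2, 2, 0, 1, 2, 2, 2, 2, 2, 2],
   [2, 2, 2, 2, 0, 1, 2, 2, 2, 2, 2, 2, 2, 2, 2, 2, 2, 2],
   [2, 2, 2, 2, 2, 2, 2, 2, 2, 2, 2, 2, 2, 0, 1, 2, 2, 2],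
   [2, 2, 2, 2, 2, 2, 2, 0, 1, 2, 2, 2, 2, 2, 2, 2, 2, 2],
   [2, 2, 2, 2, 2, 2, 2, 2, 2, 2, 2, 2, 2, 2, 2, 2, 0, 1],
   [1, 2, 0, 1, 1, 1, 1, 1, 1, 1, 1, 1, 1, 1, 1, 1, 1, 1],
   [1, 1, 1, 1, 1, 1, 1, 1, 1, 1, 2, 0, 1, 1, 1, 1, 1, 1],
   [1, 1, 1, 1, 2, 0, 1, 1, 1, 1, 1, 1, 1, 1, 1, 1, 1, 1],
   [1, 1, 1, 1, 1, 1, 1, 1, 1, 1, 1, 1, 1, 2, 0, 1, 1, 1],
   [1, 1, 1, 1, 1, 1, 1, 2, 0, 1, 1, 1, 1, 1, 1, 1, 1, 1],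
   [1, 1, 1, 1, 1, 1, 1, 1, 1, 1, 1, 1, 1, 1, 1, 1, 2, 0]]]

/-- values of `tpar tabB` -/
def ptB : List (List (List ℕ)) :=
  [[[0, 0, 9, 9, 9, 9, 9, 9, 9, 9, 9, 0, 0, 0, 0, 0, 0, 0],
   [9, 9, 0, 0, 0, 0, 0, 0, 0, 0, 0, 9, 9, 9, 9, 9, 9, 9],
   [0, 0, 9, 9, 9, 9, 9, 9, 9, 9, 9, 0, 0, 0, 0, 0, 0, 0],
   [9, 9, 0, 0, 0, 0, 0, 0, 0, 0, 0, 9, 9, 9, 9, 9, 9, 9],
   [0, 0, 9, 9, 9, 9, 9, 9, 9, 9, 9, 0, 0, 0, 0, 0, 0, 0],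
   [9, 9, 0, 0, 0, 0, 0, 0, 0, 0, 0, 9, 9, 9, 9, 9, 9, 9],
   [0, 0, 9, 9, 9, 9, 9, 9, 9, 9, 9, 0, 0, 0, 0, 0, 0, 0],
   [9, 9, 0, 0, 0, 0, 0, 0, 0, 0, 0, 9, 9, 9, 9, 9, 9, 9],
   [0, 0, 9, 9, 9, 9, 9, 9, 9, 9, 9, 0, 0, 0, 0, 0, 0, 0],
   [9, 9, 0, 0, 0, 0, 0, 0, 0, 0, 0, 9, 9, 9, 9, 9, 9, 9],
   [0, 0, 9, 9, 9, 9, 9, 9, 9, 9, 9, 0, 0, 0, 0, 0, 0, 0],
   [9, 9, 0, 0, 0, 0, 0, 0, 0, 0, 0, 9, 9, 9, 9, 9, 9, 9],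
   [0, 0, 9, 9, 9, 9, 9, 9, 9, 9, 9, 0, 0, 0, 0, 0, 0, 0],
   [9, 9, 0, 0, 0, 0, 0, 0, 0, 0, 0, 9, 9, 9, 9, 9, 9, 9],
   [0, 0, 9, 9, 9, 9, 9, 9, 9, 9, 9, 0, 0, 0, 0, 0, 0, 0],
   [9, 9, 0, 0, 0, 0, 0, 0, 0, 0, 0, 9, 9, 9, 9, 9, 9, 9],
   [0, 0, 9, 9, 9, 9, 9, 9, 9, 9, 9, 0, 0, 0, 0, 0, 0, 0],
   [9, 9, 0, 0, 0, 0, 0, 0, 0, 0, 0, 9, 9, 9, 9, 9, 9, 9]],
  [[0, 0, 3, 3, 3, 6, 6, 6, 0, 0, 0, 0, 0, 0, 0, 0, 0, 0],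
   [0, 0, 0, 0, 0, 0, 0, 0, 0, 0, 0, 3, 3, 3, 6, 6, 6, 0],
   [6, 6, 0, 0, 0, 3, 3, 3, 6, 6, 6, 6, 6, 6, 6, 6, 6, 6],
   [6, 6, 6, 6, 6, 6, 6, 6, 6, 6, 6, 0, 0, 0, 3, 3, 3, 6],
   [3, 3, 6, 6, 6, 0, 0, 0, 3, 3, 3, 3, 3, 3, 3, 3, 3, 3],
   [3, 3, 3, 3, 3, 3, 3, 3, 3, 3, 3, 6, 6, 6, 0, 0, 0, 3],
   [0, 0, 3, 3, 3, 6, 6, 6, 0, 0, 0, 0, 0, 0, 0, 0, 0, 0],
   [0, 0, 0, 0, 0, 0, 0, 0, 0, 0, 0, 3, 3, 3, 6, 6, 6, 0],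
   [6, 6, 0, 0, 0, 3, 3, 3, 6, 6, 6, 6, 6, 6, 6, 6, 6, 6],
   [6, 6, 6, 6, 6, 6, 6, 6, 6, 6, 6, 0, 0, 0, 3, 3, 3, 6],
   [3, 3, 6, 6, 6, 0, 0, 0, 3, 3, 3, 3, 3, 3, 3, 3, 3, 3],
   [3, 3, 3, 3, 3, 3, 3, 3, 3, 3, 3, 6, 6, 6, 0, 0, 0, 3],
   [0, 0, 3, 3, 3, 6, 6, 6, 0, 0, 0, 0, 0, 0, 0, 0, 0, 0],
   [0, 0, 0, 0, 0, 0, 0, 0, 0, 0, 0, 3, 3, 3, 6, 6, 6, 0],
   [6, 6, 0, 0, 0, 3, 3, 3, 6, 6, 6, 6, 6, 6, 6, 6, 6, 6],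
   [6, 6, 6, 6, 6, 6, 6, 6, 6, 6, 6, 0, 0, 0, 3, 3, 3, 6],
   [3, 3, 6, 6, 6, 0, 0, 0, 3, 3, 3, 3, 3, 3, 3, 3, 3, 3],
   [3, 3, 3, 3, 3, 3, 3, 3, 3, 3, 3, 6, 6, 6, 0, 0, 0, 3]],
  [[0, 1, 2, 0, 0, 0, 0, 0, 0, 0, 0, 0, 0, 0, 0, 0, 0, 0],
   [0, 0, 0, 0, 0, 0, 0, 0, 0, 0, 1, 2, 0, 0, 0, 0, 0, 0],
   [0, 0, 0, 0, 1, 2, 0, 0, 0, 0, 0, 0, 0, 0, 0, 0, 0, 0],
   [0, 0, 0, 0, 0, 0, 0, 0, 0, 0, 0, 0, 0, 1, 2, 0, 0, 0],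
   [0, 0, 0, 0, 0, 0, 0, 1, 2, 0, 0, 0, 0, 0, 0, 0, 0, 0],
   [0, 0, 0, 0, 0, 0, 0, 0, 0, 0, 0, 0, 0, 0, 0, 0, 1, 2],
   [1, 2, 0, 1, 1, 1, 1, 1, 1, 1, 1, 1, 1, 1, 1, 1, 1, 1],
   [1, 1, 1, 1, 1, 1, 1, 1, 1, 1, 2, 0, 1, 1, 1, 1, 1, 1],
   [1, 1, 1, 1, 2, 0, 1, 1, 1, 1, 1, 1, 1, 1, 1, 1, 1, 1],
   [1, 1, 1, 1, 1, 1, 1, 1, 1, 1, 1, 1, 1, 2, 0, 1, 1, 1],
   [1, 1, 1, 1, 1, 1, 1, 2, 0, 1, 1, 1, 1, 1, 1, 1, 1, 1],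
   [1, 1, 1, 1, 1, 1, 1, 1, 1, 1, 1, 1, 1, 1, 1, 1, 2, 0],
   [2, 0, 1, 2, 2, 2, 2, 2, 2, 2, 2, 2, 2, 2, 2, 2, 2, 2],
   [2, 2, 2, 2, 2, 2, 2, 2, 2, 2, 0, 1, 2, 2, 2, 2, 2, 2],
   [2, 2, 2, 2, 0, 1, 2, 2, 2, 2, 2, 2, 2, 2, 2, 2, 2, 2],
   [2, 2, 2, 2, 2, 2, 2, 2, 2, 2, 2, 2, 2, 0, 1, 2, 2, 2],
   [2, 2, 2, 2, 2, 2, 2, 0, 1, 2, 2, 2, 2, 2, 2, 2, 2, 2],
   [2, 2, 2, 2, 2, 2, 2, 2, 2, 2, 2, 2, 2, 2, 2, 2, 0, 1]]]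

lemma twr_snoc (T : List (List ℕ)) (τ : Fin 3) (i k e : ℕ) :
    twr T τ i (k + 1) e = twr T τ i k (tv T (cen τ (i + k)) e) := by
  induction k generalizing i with
  | zero => simp [twr]
  | succ k ih =>
    rw [twr, ih (i + 1), twr, show i + 1 + k = i + (k + 1) by ring]

/-- `p` is the table of `tpar T` -/
structure PtOf (T : List (List ℕ)) (p : List (List (List ℕ))) : Prop where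
  zero : ∀ τ x, x ≤ 17 → twr T τ 0 18 x = pt p τ 0 x
  succ : ∀ τ r, r < 17 → ∀ x, x ≤ 17 → pt p τ (r + 1) x = pt p τ r (tv T (cen τ r) x)
  le : ∀ j ∈ [(0 : ℤ), 1, 2], ∀ x, x ≤ 17 → tv T j x ≤ 17
  cen_mem : ∀ τ r, r < 18 → cen τ r ∈ [(0 : ℤ), 1, 2]

lemma ptOf_A : PtOf tabA ptA where
  zero := by decide +kernel
  succ := by decide +kernel
  le := by decide +kernel
  cen_mem := by decide +kernel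

lemma ptOf_B : PtOf tabB ptB where
  zero := by decide +kernel
  succ := by decide +kernel
  le := by decide +kernel
  cen_mem := by decide +kernel

lemma PtOf.eq {T : List (List ℕ)} {p : List (List (List ℕ))} (h : PtOf T p) (τ : Fin 3) (r : ℕ)
    (hr : r < 18) (x : ℕ) (hx : x ≤ 17) : tpar T τ r x = pt p τ r x := by
  induction r generalizing x with
  | zero => exact h.zero τ x hx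
  | succ r ih =>
    rw [h.succ τ r (by omega) x hx,
      ← ih (by omega) _ (h.le _ (h.cen_mem τ r (by omega)) x hx)]
    unfold tpar
    rw [twr_snoc T τ 0 r x, zero_add]

lemma PtOf.compat {T : List (List ℕ)} {p : List (List (List ℕ))} (h : PtOf T p)
    (h1 : ∀ τ r, r < 18 → ∀ j ∈ [(0 : ℤ), 1, 2], j ≠ cen τ r → ∀ e, e ≤ 17 →
      pt p τ r (tv T j e) = pt p τ r (tv T j (pt p (cty τ (r, j)) 0 e)))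
    (h2 : ∀ τ x, x ≤ 17 → pt p τ 0 x ≤ 17) :
    ∀ τ r, r < 18 → ∀ j ∈ [(0 : ℤ), 1, 2], j ≠ cen τ r → ∀ e, e ≤ 17 →
      tpar T τ r (tv T j e) = tpar T τ r (tv T j (twr T (cty τ (r, j)) 0 18 e)) := by
  intro τ r hr j hj hne e he
  rw [h.zero _ e he, h.eq τ r hr _ (h.le j hj e he), h.eq τ r hr _ (h.le j hj _ (h2 _ e he))]
  exact h1 τ r hr j hj hne e he

lemma PtOf.compat0 {T : List (List ℕ)} {p : List (List (List ℕ))} (h : PtOf T p)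
    (h1 : ∀ τ r, r < 18 → ∀ j ∈ [(0 : ℤ), 1, 2], j ≠ cen τ r → cty τ (r, j) = 0 → ∀ e, e ≤ 17 →
      pt p τ r (tv T j e) = pt p τ r (tv T j 0)) :
    ∀ τ r, r < 18 → ∀ j ∈ [(0 : ℤ), 1, 2], j ≠ cen τ r → cty τ (r, j) = 0 → ∀ e, e ≤ 17 →
      tpar T τ r (tv T j e) = tpar T τ r (tv T j 0) := by
  intro τ r hr j hj hne hc e he
  rw [h.eq τ r hr _ (h.le j hj e he), h.eq τ r hr _ (h.le j hj _ (Nat.zero_le _))]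
  exact h1 τ r hr j hj hne hc e he

lemma cs2_par {C : Comb} {T : List (List ℕ)} (hT : TabOf C T)
    (hm : ∀ τ e, e ≤ 17 → C.ret τ e ∈ arm τ) (ha : ∀ τ b, b ∈ arm τ → C.ret τ b = b)
    (τ : Fin 3) (p : ℕ) (j : ℤ) (e : ℕ) :
    C.par τ (p, j) e = tpar T τ (p % 18) (C.de j e) := by
  have hx : C.de j e ≤ 17 := hT.le _ _
  set x := C.de j e with hxd
  have h1 : C.par τ (p, j) e = C.ret τ (C.dw (seg (cen τ) 0 p) x) := by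
    unfold Comb.par blk
    rw [dw_append, dw_cons, dw_nil]
  have h2 : C.dw (seg (cen τ) 0 p) x = C.dw (seg (cen τ) 0 (18 * (p / 18)))
      (C.dw (seg (cen τ) 0 (p % 18)) x) := by
    conv_lhs => rw [← Nat.div_add_mod p 18]
    rw [seg_add, dw_append, zero_add, seg_cen_mul]
  have hy : C.dw (seg (cen τ) 0 (p % 18)) x ≤ 17 := hT.dw_le _ _ hx
  have h3 : ∀ q y, y ≤ 17 → C.ret τ (C.dw (seg (cen τ) 0 (18 * q)) y) = C.ret τ y := by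
    intro q y hy
    cases q with
    | zero => simp [seg_zero, dw_nil]
    | succ q =>
      have h4 : C.dw (seg (cen τ) 0 (18 * (q + 1))) y = C.ret τ y := by
        rw [show 18 * (q + 1) = 18 * q + 18 by ring, seg_add, dw_append, zero_add, seg_cen_mul]
        exact cs1_pow ha τ _ (hm τ y hy) q
      rw [h4]
      exact ha τ _ (hm τ y hy)
  rw [h1, h2, h3 _ _ hy]
  unfold Comb.ret tpar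
  rw [hT.dw_seg _ _ _ _ hy, hT.dw_seg _ _ _ _ hx]

lemma cs2_cty (τ : Fin 3) (p : ℕ) (j : ℤ) : cty τ (p, j) = cty τ (p % 18, j) := by
  unfold cty
  have : (p % 18) % 2 = p % 2 := by omega
  simp only [this]

lemma cs2_cen (τ : Fin 3) (p : ℕ) : cen τ p = cen τ (p % 18) := by
  conv_lhs => rw [← Nat.mod_add_div p 18]
  exact cen_add τ _ _

lemma cs2_ext {C : Comb} {T : List (List ℕ)} (hT : TabOf C T) (j : ℤ) (hj : j < 0 ∨ 3 ≤ j)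
    (e e' : ℕ) (he : e ≤ 17) (he' : e' ≤ 17) : C.de j e = C.de j e' := by
  rw [hT.eq _ _ he, hT.eq _ _ he', tv, tv]
  rcases hj with h | h
  · rw [if_pos h, if_pos h]
  · have hn : ¬ j < 0 := by omega
    simp only [if_neg hn, if_pos h]

lemma cs2_compat {C : Comb} {T : List (List ℕ)} (hT : TabOf C T)
    (hm : ∀ τ e, e ≤ 17 → C.ret τ e ∈ arm τ) (ha : ∀ τ b, b ∈ arm τ → C.ret τ b = b)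
    (h : ∀ τ r, r < 18 → ∀ j ∈ [(0 : ℤ), 1, 2], j ≠ cen τ r → ∀ e, e ≤ 17 →
      tpar T τ r (tv T j e) = tpar T τ r (tv T j (twr T (cty τ (r, j)) 0 18 e))) :
    ∀ τ (a : Dv τ) e, e ≤ 17 → C.par τ a.1 e = C.par τ a.1 (C.ret (cty τ a.1) e) := by
  rintro τ ⟨⟨p, j⟩, hne⟩ e he
  simp only at hne
  have hr : C.ret (cty τ (p, j)) e ≤ 17 := hT.dw_le _ _ he
  show C.par τ (p, j) e = C.par τ (p, j) (C.ret (cty τ (p, j)) e)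
  rw [cs2_par hT hm ha, cs2_par hT hm ha]
  by_cases hj : j < 0 ∨ 3 ≤ j
  · rw [cs2_ext hT j hj e _ he hr]
  · have hj' : j ∈ [(0 : ℤ), 1, 2] := by
      have : j = 0 ∨ j = 1 ∨ j = 2 := by omega
      simpa using this
    rw [hT.eq _ _ he, hT.eq _ _ hr]
    have hne' : j ≠ cen τ (p % 18) := by rw [← cs2_cen]; exact hne
    have := h τ (p % 18) (Nat.mod_lt _ (by norm_num)) j hj' hne' e he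
    rw [this, ← cs2_cty]
    unfold Comb.ret
    rw [hT.dw_seg _ _ _ _ he]

lemma cs2_compat0 {C : Comb} {T : List (List ℕ)} (hT : TabOf C T)
    (hm : ∀ τ e, e ≤ 17 → C.ret τ e ∈ arm τ) (ha : ∀ τ b, b ∈ arm τ → C.ret τ b = b)
    (h : ∀ τ r, r < 18 → ∀ j ∈ [(0 : ℤ), 1, 2], j ≠ cen τ r → cty τ (r, j) = 0 → ∀ e, e ≤ 17 →
      tpar T τ r (tv T j e) = tpar T τ r (tv T j 0)) :
    ∀ τ (a : Dv τ) e e', cty τ a.1 = 0 → e ≤ 17 → e' ≤ 17 →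
      C.par τ a.1 e = C.par τ a.1 e' := by
  rintro τ ⟨⟨p, j⟩, hne⟩ e e' hc he he'
  simp only at hne hc
  show C.par τ (p, j) e = C.par τ (p, j) e'
  rw [cs2_par hT hm ha, cs2_par hT hm ha]
  by_cases hj : j < 0 ∨ 3 ≤ j
  · rw [cs2_ext hT j hj e _ he he']
  · have hj' : j ∈ [(0 : ℤ), 1, 2] := by
      have : j = 0 ∨ j = 1 ∨ j = 2 := by omega
      simpa using this
    rw [hT.eq _ _ he, hT.eq _ _ he']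
    have hne' : j ≠ cen τ (p % 18) := by rw [← cs2_cen]; exact hne
    rw [cs2_cty] at hc
    rw [h τ (p % 18) (Nat.mod_lt _ (by norm_num)) j hj' hne' hc e he,
      h τ (p % 18) (Nat.mod_lt _ (by norm_num)) j hj' hne' hc e' he']

theorem compatA : ∀ τ (a : Dv τ) e, e ≤ 17 →
    combA.par τ a.1 e = combA.par τ a.1 (combA.ret (cty τ a.1) e) :=
  cs2_compat tabOf_A ret_memA ret_armA (ptOf_A.compat (by decide +kernel) (by decide +kernel))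

theorem compatB : ∀ τ (a : Dv τ) e, e ≤ 17 →
    combB.par τ a.1 e = combB.par τ a.1 (combB.ret (cty τ a.1) e) :=
  cs2_compat tabOf_B ret_memB ret_armB (ptOf_B.compat (by decide +kernel) (by decide +kernel))

theorem compat0A : ∀ τ (a : Dv τ) e e', cty τ a.1 = 0 → e ≤ 17 → e' ≤ 17 →
    combA.par τ a.1 e = combA.par τ a.1 e' :=
  cs2_compat0 tabOf_A ret_memA ret_armA (ptOf_A.compat0 (by decide +kernel))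

theorem compat0B : ∀ τ (a : Dv τ) e e', cty τ a.1 = 0 → e ≤ 17 → e' ≤ 17 →
    combB.par τ a.1 e = combB.par τ a.1 e' :=
  cs2_compat0 tabOf_B ret_memB ret_armB (ptOf_B.compat0 (by decide +kernel))

lemma cs2_dens {C : Comb} {T : List (List ℕ)} (hT : TabOf C T)
    (hm : ∀ τ e, e ≤ 17 → C.ret τ e ∈ arm τ) (ha : ∀ τ b, b ∈ arm τ → C.ret τ b = b)
    (h : ∀ τ, ∀ b ∈ arm τ, ∃ p, p < 18 ∧ tpar T τ p 17 = b) :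
    ∀ τ b, b ∈ arm τ → ∃ p0 : ℕ, ∀ (q : ℕ) (j : ℤ), 3 ≤ j → ∀ e, e ≤ 17 →
      C.par τ (p0 + 18 * q, j) e = b := by
  intro τ b hb
  obtain ⟨p, hp, hpb⟩ := h τ b hb
  refine ⟨p, fun q j hj e he => ?_⟩
  rw [cs2_par hT hm ha, hT.eq _ _ he, tv, if_neg (by omega), if_pos hj,
    show (p + 18 * q) % 18 = p by omega]
  exact hpb

/-- `p0` for A: `τ = 0`: `0 ↦ 0, 9 ↦ 1`; `τ = 1`: `0 ↦ 0, 6 ↦ 2, 3 ↦ 4`; `τ = 2`: `0 ↦ 0, 2 ↦ 5,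
1 ↦ 11` -/
theorem densA : ∀ τ b, b ∈ arm τ → ∃ p0 : ℕ, ∀ (q : ℕ) (j : ℤ), 3 ≤ j → ∀ e, e ≤ 17 →
    combA.par τ (p0 + 18 * q, j) e = b :=
  cs2_dens tabOf_A ret_memA ret_armA (by decide +kernel)

/-- `p0` for B: `τ = 0`: `0 ↦ 0, 9 ↦ 1`; `τ = 1`: `0 ↦ 0, 6 ↦ 2, 3 ↦ 4`; `τ = 2`: `0 ↦ 0, 2 ↦ 5,
1 ↦ 6` -/
theorem densB : ∀ τ b, b ∈ arm τ → ∃ p0 : ℕ, ∀ (q : ℕ) (j : ℤ), 3 ≤ j → ∀ e, e ≤ 17 →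
    combB.par τ (p0 + 18 * q, j) e = b :=
  cs2_dens tabOf_B ret_memB ret_armB (by decide +kernel)

end PJ
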