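import Pool.Agent.Lib.H31J.CTab

/-! # PJ part C, file CS5: uniqueness of the arm (pair graph)

If `(u,e), (u,e') ∈ X` and `e ≠ e'` then from some index on `e_n ≠ e'_n`.  The image of the set of all
pairs under `6` letters is contained in the set of the 25 alive pairs (list in PROOF.md, S5; the
sizes of the successive images are 153, 69, 49, 41, 33, 29, 25), so all pairs `{e_n, e'_n}` are
alive.  Classes: `K0 = {(0,9)}`, `K1 = {(0,3),(0,6),(3,6)}`, `K1' = {(9,12),(9,15),(12,15)}`,
cluster pairs with phases `0..5`: `{0,1,2}, {9,10,11}, {3,4,5}, {12,13,14}, {6,7,8}, {15,16,17}`.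
Transitions `P_n = de(u_n, P_{n+1})`: `K0 -0-> K0, K1` or phase 0; `K1 -0-> K1'`,
`K1' -1-> K1` or phase 0; phase `k -cen 2 k-> ` phase `k+1` mod 6.  So eventually
constant class and `sh k u = cen τ`. -/

set_option autoImplicit false

namespace PJ

/-- unordered pair -/
def c5n (a b : ℕ) : ℕ × ℕ := if a < b then (a, b) else (b, a)

/-- image of an unordered pair under a letter -/
def c5im (T : List (List ℕ)) (j : ℤ) (p : ℕ × ℕ) : ℕ × ℕ := c5n (tv T j p.1) (tv T j p.2)

/-- image of a set of pairs -/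
def c5S (T : List (List ℕ)) (S : List (ℕ × ℕ)) : List (ℕ × ℕ) :=
  ((S.map (c5im T 0) ++ (S.map (c5im T 1) ++ S.map (c5im T 2))).filter
    fun p => p.1 < p.2).dedup

/-- all pairs -/
def c5all : List (ℕ × ℕ) := ((List.range 18).product (List.range 18)).filter fun p => p.1 < p.2

/-- classes -/
def c5cl (p : ℕ × ℕ) : ℕ :=
  if p = (0, 9) then 0
  else if p ∈ [(0, 3), (0, 6), (3, 6)] then 1
  else if p ∈ [(9, 12), (9, 15), (12, 15)] then 2
  else 3 + [0, 2, 4, 1, 3, 5].getD (p.1 / 3) 0

/-- transition of classes: `c` class of `P_n`, `j = u_n`, `c'` class of `P_{n+1}` -/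
def c5ok (c : ℕ) (j : ℤ) (c' : ℕ) : Bool :=
  if c = 0 then j = 0
  else if c = 1 then j = 0 ∧ (c' = 2 ∨ 3 ≤ c')
  else if c = 2 then j = 1 ∧ (c' = 1 ∨ 3 ≤ c')
  else j = cen 2 (c - 3) ∧ c' = 3 + (c - 3 + 1) % 6

/-- the finite check -/
def c5chk (T : List (List ℕ)) : Prop :=
  ∀ p ∈ (c5S T (c5S T (c5S T (c5S T (c5S T (c5S T c5all)))))), c5cl p < 9 ∧
    ∀ j ∈ [(0 : ℤ), 1, 2], (c5im T j p).1 < (c5im T j p).2 →
      c5ok (c5cl (c5im T j p)) j (c5cl p) = true

instance (T : List (List ℕ)) : Decidable (c5chk T) := by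
  unfold c5chk; infer_instance

lemma c5n_comm (a b : ℕ) : c5n a b = c5n b a := by
  unfold c5n
  split_ifs with h1 h2 h2
  · omega
  · rfl
  · rfl
  · have : a = b := by omega
    rw [this]

lemma c5n_lt {a b : ℕ} (h : a ≠ b) : (c5n a b).1 < (c5n a b).2 := by
  unfold c5n
  split_ifs with h1
  · exact h1
  · show b < a
    omega

lemma c5im_n (T : List (List ℕ)) (j : ℤ) (a b : ℕ) :
    c5im T j (c5n a b) = c5n (tv T j a) (tv T j b) := by
  unfold c5im
  by_cases h : a < b
  · rw [show c5n a b = (a, b) by rw [c5n, if_pos h]]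
  · rw [show c5n a b = (b, a) by rw [c5n, if_neg h]]
    exact c5n_comm _ _

lemma c5_step (T : List (List ℕ)) (S : List (ℕ × ℕ)) (j : ℤ) (hj : j = 0 ∨ j = 1 ∨ j = 2)
    (a b : ℕ) (h : c5n a b ∈ S) (hne : tv T j a ≠ tv T j b) :
    c5n (tv T j a) (tv T j b) ∈ c5S T S := by
  unfold c5S
  rw [List.mem_dedup, List.mem_filter]
  refine ⟨?_, by simpa using c5n_lt hne⟩
  rw [← c5im_n]
  rw [List.mem_append, List.mem_append]
  rcases hj with rfl | rfl | rfl
  · exact Or.inl (List.mem_map_of_mem h)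
  · exact Or.inr (Or.inl (List.mem_map_of_mem h))
  · exact Or.inr (Or.inr (List.mem_map_of_mem h))

lemma c5_all {a b : ℕ} (ha : a ≤ 17) (hb : b ≤ 17) (h : a ≠ b) : c5n a b ∈ c5all := by
  unfold c5all
  rw [List.mem_filter]
  refine ⟨?_, by simpa using c5n_lt h⟩
  unfold c5n
  split_ifs with h1
  · exact List.pair_mem_product.2 ⟨List.mem_range.2 (by omega), List.mem_range.2 (by omega)⟩
  · exact List.pair_mem_product.2 ⟨List.mem_range.2 (by omega), List.mem_range.2 (by omega)⟩

lemma c5_cen_two (x : ℕ) : cen 2 (x % 6) = cen 2 x := by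
  have h1 : (x % 6) % 6 = x % 6 := by omega
  have h2 : (x % 6) % 2 = x % 2 := by omega
  unfold cen
  rw [h1, h2]

lemma c5_cen_six (x : ℕ) : cen 2 (6 + x) = cen 2 x := by
  rw [← c5_cen_two, ← c5_cen_two x]
  congr 1
  omega

lemma c5_seq (u : ℕ → ℤ) (c : ℕ → ℕ) (n : ℕ) (hlt : ∀ k, c k < 9)
    (hok : ∀ k, c5ok (c k) (u (n + k)) (c (k + 1)) = true) :
    ∃ (k : ℕ) (τ : Fin 3), sh k u = cen τ := by
  by_cases h3 : ∃ k, 3 ≤ c k
  · obtain ⟨k, hk⟩ := h3
    have step : ∀ m, 3 ≤ c m → u (n + m) = cen 2 (c m - 3) ∧ c (m + 1) = 3 + (c m - 3 + 1) % 6 := by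
      intro m hm
      have := hok m
      unfold c5ok at this
      rw [if_neg (by omega), if_neg (by omega), if_neg (by omega)] at this
      simpa using this
    have hc : ∀ m, c (k + m) = 3 + (c k - 3 + m) % 6 := by
      intro m
      induction m with
      | zero =>
        have := hlt k
        rw [Nat.add_zero, Nat.add_zero, Nat.mod_eq_of_lt (by omega)]
        omega
      | succ m ih =>
        have := (step (k + m) (by omega)).2
        rw [← Nat.add_assoc, this, ih]
        omega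
    refine ⟨n + k + (6 - (c k - 3)), 2, ?_⟩
    funext m
    have h1 := hc (6 - (c k - 3) + m)
    have h2 := (step (k + (6 - (c k - 3) + m)) (by omega)).1
    have h3 := hlt k
    rw [h1] at h2
    show u (n + k + (6 - (c k - 3)) + m) = _
    rw [show n + k + (6 - (c k - 3)) + m = n + (k + (6 - (c k - 3) + m)) by omega, h2,
      show 3 + (c k - 3 + (6 - (c k - 3) + m)) % 6 - 3 = (6 + m) % 6 by omega, c5_cen_two,
      c5_cen_six]
  push Not at h3
  by_cases h1 : ∃ k, c k = 1
  · obtain ⟨k, hk⟩ := h1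
    have step1 : ∀ m, c m = 1 → u (n + m) = 0 ∧ c (m + 1) = 2 := by
      intro m hm
      have h := hok m
      have h4 := h3 (m + 1)
      unfold c5ok at h
      rw [hm, if_neg (by omega), if_pos rfl] at h
      simp only [decide_eq_true_eq] at h
      exact ⟨h.1, by omega⟩
    have step2 : ∀ m, c m = 2 → u (n + m) = 1 ∧ c (m + 1) = 1 := by
      intro m hm
      have h := hok m
      have h4 := h3 (m + 1)
      unfold c5ok at h
      rw [hm, if_neg (by omega), if_neg (by omega), if_pos rfl] at h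
      simp only [decide_eq_true_eq] at h
      exact ⟨h.1, by omega⟩
    have hc : ∀ m, c (k + m) = 1 + m % 2 := by
      intro m
      induction m with
      | zero => simpa using hk
      | succ m ih =>
        rcases Nat.mod_two_eq_zero_or_one m with h | h
        · have := (step1 (k + m) (by omega)).2
          rw [← Nat.add_assoc, this]
          omega
        · have := (step2 (k + m) (by omega)).2
          rw [← Nat.add_assoc, this]
          omega
    refine ⟨n + k, 1, ?_⟩
    funext m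
    show u (n + k + m) = _
    rw [Nat.add_assoc]
    rcases Nat.mod_two_eq_zero_or_one m with h | h
    · rw [(step1 (k + m) (by rw [hc]; omega)).1]
      unfold cen
      rw [if_neg (by decide), if_pos rfl, if_neg (by omega)]
    · rw [(step2 (k + m) (by rw [hc]; omega)).1]
      unfold cen
      rw [if_neg (by decide), if_pos rfl, if_pos h]
  push Not at h1
  by_cases h2 : ∃ k, c k = 2
  · obtain ⟨k, hk⟩ := h2
    exfalso
    have h := hok k
    have h4 := h3 (k + 1)
    have h5 := h1 (k + 1)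
    unfold c5ok at h
    rw [hk, if_neg (by omega), if_neg (by omega), if_pos rfl] at h
    simp only [decide_eq_true_eq] at h
    omega
  push Not at h2
  refine ⟨n, 0, ?_⟩
  funext m
  have h0 : c m = 0 := by
    have := h1 m
    have := h2 m
    have := h3 m
    omega
  have h := hok m
  unfold c5ok at h
  rw [if_pos h0] at h
  simpa [cen, sh] using h

theorem c5_main {C : Comb} {T : List (List ℕ)} (hT : TabOf C T)
    (hneg : ∀ j : ℤ, j < 0 → ∀ e, C.de j e = 0) (hbig : ∀ j : ℤ, 3 ≤ j → ∀ e, C.de j e = 17)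
    (hc : c5chk T) (u : ℕ → ℤ) (e e' : ℕ → ℕ) (h : (u, e) ∈ C.X) (h' : (u, e') ∈ C.X)
    (hne : e ≠ e') : ∃ (k : ℕ) (τ : Fin 3), sh k u = cen τ := by
  obtain ⟨n, hn⟩ := Function.ne_iff.1 hne
  have hr : ∀ k, e k = C.de (u k) (e (k + 1)) := fun k => h k
  have hr' : ∀ k, e' k = C.de (u k) (e' (k + 1)) := fun k => h' k
  have h1 : ∀ k, e (n + k) ≠ e' (n + k) := by
    intro k
    induction k with
    | zero => exact hn
    | succ k ih =>
      intro hk
      apply ih
      rw [hr, hr', show n + k + 1 = n + (k + 1) from rfl, hk]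
  have h2 : ∀ k, 0 ≤ u (n + k) ∧ u (n + k) < 3 := by
    intro k
    constructor
    · by_contra hc
      push Not at hc
      apply h1 k
      rw [hr, hr', hneg _ hc, hneg _ hc]
    · by_contra hc
      push Not at hc
      apply h1 k
      rw [hr, hr', hbig _ hc, hbig _ hc]
  have hle : ∀ k, e k ≤ 17 := fun k => by rw [hr]; exact hT.le _ _
  have hle' : ∀ k, e' k ≤ 17 := fun k => by rw [hr']; exact hT.le _ _
  have hq : ∀ k, e k = tv T (u k) (e (k + 1)) := fun k => by rw [hr, hT.eq _ _ (hle _)]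
  have hq' : ∀ k, e' k = tv T (u k) (e' (k + 1)) := fun k => by rw [hr', hT.eq _ _ (hle' _)]
  have hS : ∀ S : List (ℕ × ℕ), (∀ k, c5n (e (n + k)) (e' (n + k)) ∈ S) →
      ∀ k, c5n (e (n + k)) (e' (n + k)) ∈ c5S T S := by
    intro S hS k
    have a := hS (k + 1)
    have b := h1 k
    rw [hq, hq'] at b ⊢
    exact c5_step T S _ (by have := h2 k; omega) _ _ a b
  have h6 := hS _ (hS _ (hS _ (hS _ (hS _ (hS _ (fun k =>
    c5_all (hle (n + k)) (hle' (n + k)) (h1 k)))))))
  apply c5_seq u (fun k => c5cl (c5n (e (n + k)) (e' (n + k)))) n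
  · intro k
    exact (hc _ (h6 k)).1
  · intro k
    have hj : u (n + k) ∈ [(0 : ℤ), 1, 2] := by
      have : u (n + k) = 0 ∨ u (n + k) = 1 ∨ u (n + k) = 2 := by have := h2 k; omega
      simpa using this
    have a := (hc _ (h6 (k + 1))).2 _ hj
    rw [c5im_n] at a
    have e1 : tv T (u (n + k)) (e (n + (k + 1))) = e (n + k) := (hq _).symm
    have e2 : tv T (u (n + k)) (e' (n + (k + 1))) = e' (n + k) := (hq' _).symm
    rw [e1, e2] at a
    exact a (c5n_lt (h1 k))

theorem uniqA : ∀ (u : ℕ → ℤ) (e e' : ℕ → ℕ), (u, e) ∈ combA.X → (u, e') ∈ combA.X → e ≠ e' →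
    ∃ (k : ℕ) (τ : Fin 3), sh k u = cen τ :=
  c5_main tabOf_A good_A_neg good_A_big (by decide +kernel)

theorem uniqB : ∀ (u : ℕ → ℤ) (e e' : ℕ → ℕ), (u, e) ∈ combB.X → (u, e') ∈ combB.X → e ≠ e' →
    ∃ (k : ℕ) (τ : Fin 3), sh k u = cen τ :=
  c5_main tabOf_B good_B_neg good_B_big (by decide +kernel)

end PJ
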