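import Pool.Agent.Lib.H31J.CTab
import Pool.Agent.Lib.H31J.CS2

/-! # PJ part C, file CS6: matching of the special children of A and B (finite checks) -/

set_option autoImplicit false

namespace PJ

/-- the matching of the arms -/
def thAB (τ : Fin 3) : Equiv.Perm ℕ := if τ = 1 then Equiv.swap 0 6 else 1

/-- matching of the special children of a node of type 1 -/
def phiq (q : ℕ) : ℕ := if q % 3 = 0 then q else if q % 3 = 1 then q + 1 else q - 1

theorem thAB_mem : ∀ τ b, thAB τ b ∈ arm τ ↔ b ∈ arm τ := by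
  intro τ b
  by_cases h : τ = 1
  · subst h
    have e : thAB 1 = Equiv.swap 0 6 := rfl
    have ea : arm 1 = {0, 3, 6} := rfl
    rw [e, ea]
    by_cases h0 : b = 0
    · subst h0
      rw [Equiv.swap_apply_left]; simp
    by_cases h6 : b = 6
    · subst h6
      rw [Equiv.swap_apply_right]; simp
    rw [Equiv.swap_apply_of_ne_of_ne h0 h6]
  · have e : thAB τ = 1 := by rw [thAB, if_neg h]
    rw [e, Equiv.Perm.one_apply]

theorem phiq_phiq (q : ℕ) : phiq (phiq q) = q := by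
  unfold phiq
  split_ifs <;> omega

lemma phiq_mod (q : ℕ) : phiq q % 9 = phiq (q % 9) % 9 := by
  unfold phiq
  split_ifs <;> omega

/-- first part of (S6); periodic in `p`, see CS2 -/
theorem s6_one (p g : ℕ) (hg : g ∈ arm 1) :
    combB.par 0 (p, 1) (thAB 1 g) = thAB 0 (combA.par 0 (p, 1) g) := by
  have hg' : thAB 1 g ∈ arm 1 := (thAB_mem 1 g).2 hg
  have h : ∀ r, r < 18 → ∀ g ∈ arm 1, tpar tabB 0 r (tv tabB 1 (thAB 1 g)) =
      tpar tabA 0 r (tv tabA 1 g) := by decide +kernel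
  have e : thAB 0 = 1 := rfl
  rw [e, Equiv.Perm.one_apply, cs2_par tabOf_B ret_memB ret_armB,
    cs2_par tabOf_A ret_memA ret_armA, deA _ _ (cs1_arm_le 1 g hg),
    deB _ _ (cs1_arm_le 1 _ hg')]
  exact h _ (Nat.mod_lt _ (by norm_num)) g hg

/-- second part of (S6) -/
theorem s6_two (q g : ℕ) (hg : g ∈ arm 2) :
    combB.par 1 (2 * phiq q + 1, 2) (thAB 2 g) = thAB 1 (combA.par 1 (2 * q + 1, 2) g) := by
  have hg' : thAB 2 g ∈ arm 2 := (thAB_mem 2 g).2 hg
  have h : ∀ r, r < 9 → ∀ g ∈ arm 2,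
      tpar tabB 1 (2 * (phiq r % 9) + 1) (tv tabB 2 (thAB 2 g)) =
      thAB 1 (tpar tabA 1 (2 * r + 1) (tv tabA 2 g)) := by decide +kernel
  rw [cs2_par tabOf_B ret_memB ret_armB,
    cs2_par tabOf_A ret_memA ret_armA, deA _ _ (cs1_arm_le 2 g hg),
    deB _ _ (cs1_arm_le 2 _ hg')]
  have e1 : (2 * phiq q + 1) % 18 = 2 * (phiq (q % 9) % 9) + 1 := by
    have := phiq_mod q
    omega
  have e2 : (2 * q + 1) % 18 = 2 * (q % 9) + 1 := by omega
  rw [e1, e2]
  exact h _ (Nat.mod_lt _ (by norm_num)) g hg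

end PJ
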