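import Pool.Agent.Lib.H31J.CS1
import Pool.Agent.Lib.H31J.CS2
import Pool.Agent.Lib.H31J.CS5
import Pool.Agent.Lib.H31J.CS6

/-! # PJ part C, file CSym: the symbolic facts -/

set_option autoImplicit false

namespace PJ

theorem symA : combA.Sym :=
  ⟨deA_le, ret_memA, ret_armA, winA, win_injA, compatA, compat0A, densA, uniqA⟩

theorem symB : combB.Sym :=
  ⟨deB_le, ret_memB, ret_armB, winB, win_injB, compatB, compat0B, densB, uniqB⟩

end PJ
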