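import Pool.Agent.Lib.H31J.CC2
import Pool.Agent.Lib.H31J.CM
import Pool.Agent.Lib.H31J.CSym

/-! # PJ part C, file CPhi0: existence of the matching of the deviations at a pair of nodes.

Children with `cty ≠ 0` are matched by `(p,1) ↦ (p,1)` (type 0) and `(2q+1,2) ↦ (2 phiq q + 1, 2)`
(type 1), the children of type 0 by `matching` with `f a = mw (x ++ blk τ a) 0 - mw x (Y (cen τ))`,
`f` with a prime the same with the primed word,
`c a b := combB.par τ b 0 = thAB τ (combA.par τ a 0)`,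
`b = 16 (kap x + kap x)`, `ε = kap x + kap x` (second summand primed); hypotheses from CC2 and `dens`.
Glue with `Equiv.Perm.subtypeCongr` or `Equiv.sumCompl`. -/

set_option autoImplicit false

namespace PJ

open Filter Topology

theorem CPhi0_cty (τ : Fin 3) (a : ℕ × ℤ) (h : 3 ≤ a.2) : cty τ a = 0 := by
  have h1 : a.2 ≠ 1 := by omega
  have h2 : a.2 ≠ 2 := by omega
  simp [cty, h1, h2]

theorem CPhi0_fin (x : List ℤ) (τ : Fin 3) (η : ℝ) (hη : 0 < η) :
    {a : {a : Dv τ // cty τ a.1 = 0} | mw (x ++ blk τ a.1.1) 0 - mw x (Y (cen τ)) < -η}.Finite := by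
  have h := blk_finite_below x τ η hη
  exact h.preimage (f := fun a : {a : Dv τ // cty τ a.1 = 0} => a.1)
    (Subtype.val_injective.injOn)

theorem CPhi0_par_mem {C : Comb} (hC : C.Sym) (τ : Fin 3) (a : ℕ × ℤ) : C.par τ a 0 ∈ arm τ :=
  hC.ret_mem τ _ (dw_le hC _ _ (by norm_num))

theorem CPhi0_dense {C : Comb} (hC : C.Sym) (x : List ℤ) (τ : Fin 3) (b : ℕ) (hb : b ∈ arm τ)
    (r η : ℝ) (hr : 0 < r) (hη : 0 < η) :
    {a : {a : Dv τ // cty τ a.1 = 0} | C.par τ a.1.1 0 = b ∧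
      |(mw (x ++ blk τ a.1.1) 0 - mw x (Y (cen τ))) - r| < η}.Infinite := by
  obtain ⟨p0, hp0⟩ := hC.dens τ b hb
  have h := blk_dense x τ p0 r η hr hη
  apply Set.Infinite.of_image (fun a : {a : Dv τ // cty τ a.1 = 0} => a.1)
  refine h.mono ?_
  rintro a ⟨⟨q, hq⟩, h3, h4⟩
  refine ⟨⟨a, CPhi0_cty τ a.1 h3⟩, ⟨?_, h4⟩, rfl⟩
  have h5 := hp0 q a.1.2 h3 0 (by norm_num)
  rw [← hq] at h5
  exact h5

theorem phi_zero (τ : Fin 3) (x x' : List ℤ) :
    ∃ φ : {a : Dv τ // cty τ a.1 = 0} ≃ {a : Dv τ // cty τ a.1 = 0},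
      (∀ a, combB.par τ (φ a).1.1 0 = thAB τ (combA.par τ a.1.1 0)) ∧
      (∀ a, |(mw (x' ++ blk τ (φ a).1.1) 0 - mw x' (Y (cen τ)))
          - (mw (x ++ blk τ a.1.1) 0 - mw x (Y (cen τ)))| ≤ 17 * (kap x + kap x')) ∧
      Tendsto (fun a : {a : Dv τ // cty τ a.1 = 0} =>
        (mw (x' ++ blk τ (φ a).1.1) 0 - mw x' (Y (cen τ)))
          - (mw (x ++ blk τ a.1.1) 0 - mw x (Y (cen τ)))) cofinite (𝓝 0) := by
  have hk := kap_pos x
  have hk' := kap_pos x'
  obtain ⟨φ, h1, h2, h3⟩ := matching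
    (A := {a : Dv τ // cty τ a.1 = 0}) (A' := {a : Dv τ // cty τ a.1 = 0})
    (fun a => mw (x ++ blk τ a.1.1) 0 - mw x (Y (cen τ)))
    (fun a => mw (x' ++ blk τ a.1.1) 0 - mw x' (Y (cen τ)))
    (fun a b => combB.par τ b.1.1 0 = thAB τ (combA.par τ a.1.1 0))
    (16 * (kap x + kap x')) (kap x + kap x') (by linarith)
    (fun a => by
      have := blk_lower x τ a.1.1
      linarith)
    (fun a => by
      have := blk_lower x' τ a.1.1
      linarith)
    (fun η hη => CPhi0_fin x τ η hη) (fun η hη => CPhi0_fin x' τ η hη)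
    (fun a r η hr hη => CPhi0_dense symB x' τ _
      ((thAB_mem τ _).2 (CPhi0_par_mem symA τ a.1.1)) r η hr hη)
    (fun a' r η hr hη => by
      have hb : (thAB τ).symm (combB.par τ a'.1.1 0) ∈ arm τ := by
        rw [← thAB_mem, Equiv.apply_symm_apply]
        exact CPhi0_par_mem symB τ a'.1.1
      have h := CPhi0_dense symA x τ _ hb r η hr hη
      refine h.mono ?_
      rintro a ⟨h4, h5⟩
      refine ⟨?_, h5⟩
      show combB.par τ a'.1.1 0 = thAB τ (combA.par τ a.1.1 0)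
      rw [h4, Equiv.apply_symm_apply])
  refine ⟨φ, h1, fun a => ?_, h3⟩
  have := h2 a
  linarith

end PJ
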