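import Pool.Agent.Lib.H31J.CSym

/-! # PJ part C, file CPhi1: matching of the special children -/

set_option autoImplicit false

namespace PJ

open Filter Topology

theorem cphi1_cty0 (a : ℕ × ℤ) (h : cty 0 a ≠ 0) : a.2 = 1 ∧ cty 0 a = 1 := by
  by_cases h1 : a.2 = 1
  · refine ⟨h1, ?_⟩
    simp [cty, h1]
  · exact absurd (by simp [cty, h1]) h

theorem cphi1_cty1 (a : ℕ × ℤ) : cty 1 a ≠ 0 ↔ a.2 = 2 ∧ a.1 % 2 = 1 := by
  by_cases h : a.2 = 2 ∧ a.1 % 2 = 1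
  · simp [cty, h.1, h.2]
  · simp only [cty]
    constructor
    · intro h1
      by_contra h2
      apply h1
      rw [if_neg (by simp), if_neg (by simpa using h2)]
    · intro h1
      exact absurd h1 h

theorem cphi1_cty1' (a : ℕ × ℤ) (h : cty 1 a ≠ 0) : cty 1 a = 2 := by
  have h1 := (cphi1_cty1 a).1 h
  simp [cty, h1.1, h1.2]

theorem cphi1_cty2 (a : ℕ × ℤ) : cty 2 a = 0 := by
  simp [cty]

/-- the image of a special child of a node of type 1 -/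
def cphi1_f (a : ℕ × ℤ) : ℕ × ℤ := (2 * phiq ((a.1 - 1) / 2) + 1, 2)

theorem cphi1_ne (a : ℕ × ℤ) : (cphi1_f a).2 ≠ cen 1 (cphi1_f a).1 := by
  have h := cen_le 1 (cphi1_f a).1
  have h2 : cen 1 (cphi1_f a).1 ≠ 2 := by
    unfold cen
    split_ifs <;> simp_all
  exact fun h3 => h2 h3.symm

theorem cphi1_sp (a : ℕ × ℤ) : cty 1 (cphi1_f a) ≠ 0 := by
  rw [cphi1_cty1]
  refine ⟨rfl, ?_⟩
  simp only [cphi1_f]
  omega

theorem cphi1_inv (a : ℕ × ℤ) (h : cty 1 a ≠ 0) : cphi1_f (cphi1_f a) = a := by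
  obtain ⟨h1, h2⟩ := (cphi1_cty1 a).1 h
  have h3 : (2 * phiq ((a.1 - 1) / 2) + 1 - 1) / 2 = phiq ((a.1 - 1) / 2) := by omega
  apply Prod.ext
  · simp only [cphi1_f]
    rw [h3, phiq_phiq]
    omega
  · simp only [cphi1_f]
    exact h1.symm

/-- the involution on the special children of a node of type 1 -/
def cphi1_e : {a : Dv 1 // cty 1 a.1 ≠ 0} ≃ {a : Dv 1 // cty 1 a.1 ≠ 0} where
  toFun a := ⟨⟨cphi1_f a.1.1, cphi1_ne _⟩, cphi1_sp _⟩
  invFun a := ⟨⟨cphi1_f a.1.1, cphi1_ne _⟩, cphi1_sp _⟩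
  left_inv a := Subtype.ext (Subtype.ext (cphi1_inv a.1.1 a.2))
  right_inv a := Subtype.ext (Subtype.ext (cphi1_inv a.1.1 a.2))

theorem phi_special (τ : Fin 3) :
    ∃ φ : {a : Dv τ // cty τ a.1 ≠ 0} ≃ {a : Dv τ // cty τ a.1 ≠ 0},
      (∀ a, cty τ (φ a).1.1 = cty τ a.1.1) ∧
      (∀ a g, g ∈ arm (cty τ a.1.1) → combB.par τ (φ a).1.1 (thAB (cty τ a.1.1) g)
        = thAB τ (combA.par τ a.1.1 g)) := by
  obtain ⟨τ, hτ⟩ := τ
  interval_cases τ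
  · refine ⟨Equiv.refl _, fun a => rfl, fun a g hg => ?_⟩
    obtain ⟨h1, h2⟩ := cphi1_cty0 a.1.1 a.2
    have h2' : cty ⟨0, hτ⟩ a.1.1 = 1 := h2
    rw [h2'] at hg ⊢
    have h3 : a.1.1 = (a.1.1.1, 1) := Prod.ext rfl h1
    have h4 := s6_one a.1.1.1 g hg
    rw [← h3] at h4
    exact h4
  · refine ⟨cphi1_e, fun a => ?_, fun a g hg => ?_⟩
    · have h1 : cty 1 (cphi1_f a.1.1) = 2 := cphi1_cty1' _ (cphi1_sp _)
      have h2 : cty 1 a.1.1 = 2 := cphi1_cty1' _ a.2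
      exact h1.trans h2.symm
    · have h2 : cty 1 a.1.1 = 2 := cphi1_cty1' _ a.2
      obtain ⟨h5, h6⟩ := (cphi1_cty1 a.1.1).1 a.2
      have h2' : cty ⟨1, hτ⟩ a.1.1 = 2 := h2
      rw [h2'] at hg ⊢
      have h4 := s6_two ((a.1.1.1 - 1) / 2) g hg
      have h3 : a.1.1 = (2 * ((a.1.1.1 - 1) / 2) + 1, 2) := by
        apply Prod.ext
        · simp only
          omega
        · exact h5
      rw [← h3] at h4
      exact h4
  · refine ⟨Equiv.refl _, fun a => rfl, fun a g hg => ?_⟩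
    exact absurd (cphi1_cty2 a.1.1) a.2

end PJ
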