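import Pool.Agent.Lib.H31J.CC3
import Pool.Agent.Lib.H31J.CPhi0
import Pool.Agent.Lib.H31J.CPhi1

/-! # PJ part C, file CPhi: existence of the matching of the nodes of A and B -/

set_option autoImplicit false

namespace PJ

open Filter Topology

theorem arm_le (τ : Fin 3) (b : ℕ) (h : b ∈ arm τ) : b ≤ 17 := by
  unfold arm at h
  split_ifs at h <;> simp at h <;> omega

/-- finitely many special deviations with bounded position -/
theorem special_finite (τ : Fin 3) (P : ℕ) : {a : Dv τ | cty τ a.1 ≠ 0 ∧ a.1.1 < P}.Finite := by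
  have h : ((fun a : Dv τ => a.1) ''
      {a : Dv τ | cty τ a.1 ≠ 0 ∧ a.1.1 < P}).Finite := by
    refine ((Set.finite_lt_nat P).prod (Set.finite_Icc (1 : ℤ) 2)).subset ?_
    rintro _ ⟨a, ⟨h1, h2⟩, rfl⟩
    refine ⟨h2, ?_⟩
    unfold cty at h1
    split_ifs at h1 with h3 h4
    · rw [h3.2]; exact ⟨le_rfl, by norm_num⟩
    · rw [h4.2.1]; exact ⟨by norm_num, le_rfl⟩
    · exact absurd rfl h1
  exact Set.Finite.of_finite_image h (fun a _ b _ hab => Subtype.ext hab)

theorem exists_phi (s : St) : ∃ φ : Dv s.ty ≃ Dv s.ty,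
    (∀ a, cty s.ty (φ a).1 = cty s.ty a.1) ∧
    (∀ a g, g ∈ arm (cty s.ty a.1) → combB.par s.ty (φ a).1 (thAB (cty s.ty a.1) g)
      = thAB s.ty (combA.par s.ty a.1 g)) ∧
    (∀ a, |dd (s.nx a.1 (φ a).1) - dd s| ≤ 17 * (kap s.x + kap s.x')) ∧
    Tendsto (fun a : Dv s.ty => dd (s.nx a.1 (φ a).1)) cofinite (𝓝 (dd s)) := by
  classical
  obtain ⟨φ0, a1, a2, a3⟩ := phi_zero s.ty s.x s.x'
  obtain ⟨φ1, b1, b2⟩ := phi_special s.ty
  set φ : Dv s.ty ≃ Dv s.ty := Equiv.Perm.subtypeCongr φ0 φ1 with hφ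
  have l0 : ∀ (a : Dv s.ty) (h : cty s.ty a.1 = 0), φ a = (φ0 ⟨a, h⟩ : Dv s.ty) := fun a h =>
    Equiv.Perm.subtypeCongr.left_apply φ0 φ1 h
  have l1 : ∀ (a : Dv s.ty) (h : cty s.ty a.1 ≠ 0), φ a = (φ1 ⟨a, h⟩ : Dv s.ty) := fun a h =>
    Equiv.Perm.subtypeCongr.right_apply φ0 φ1 h
  have hcty : ∀ a, cty s.ty (φ a).1 = cty s.ty a.1 := by
    intro a
    by_cases h : cty s.ty a.1 = 0
    · rw [l0 a h, h]; exact (φ0 ⟨a, h⟩).2
    · rw [l1 a h]; exact b1 ⟨a, h⟩
  -- the difference for children of type 0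
  have d0 : ∀ (a : Dv s.ty) (h : cty s.ty a.1 = 0), dd (s.nx a.1 (φ a).1) - dd s =
      (mw (s.x' ++ blk s.ty (φ0 ⟨a, h⟩).1.1) 0 - mw s.x' (Y (cen s.ty)))
        - (mw (s.x ++ blk s.ty a.1) 0 - mw s.x (Y (cen s.ty))) := by
    intro a h
    simp only [dd, St.nx, l0 a h, h, Y_cen_zero]
    ring
  have d1 : ∀ (a : Dv s.ty), dd (s.nx a.1 (φ a).1) - dd s =
      (mw (s.x' ++ blk s.ty (φ a).1) (Y (cen (cty s.ty (φ a).1))) - mw s.x' (Y (cen s.ty)))
        - (mw (s.x ++ blk s.ty a.1) (Y (cen (cty s.ty a.1))) - mw s.x (Y (cen s.ty))) := by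
    intro a
    simp only [dd, St.nx, hcty]
    ring
  refine ⟨φ, hcty, ?_, ?_, ?_⟩
  · intro a g hg
    by_cases h : cty s.ty a.1 = 0
    · have h1 := a1 ⟨a, h⟩
      have hg' : g ≤ 17 := arm_le _ _ hg
      have hth : thAB (cty s.ty a.1) g ≤ 17 := arm_le _ _ ((thAB_mem _ _).2 hg)
      rw [compat0A s.ty a g 0 h hg' (by norm_num), ← h1,
        compat0B s.ty (φ a) _ 0 (by rw [hcty, h]) hth (by norm_num), l0 a h]
    · have h1 := b2 ⟨a, h⟩ g hg
      rw [l1 a h]
      exact h1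
  · intro a
    by_cases h : cty s.ty a.1 = 0
    · rw [d0 a h]
      exact a2 ⟨a, h⟩
    · rw [d1 a]
      have h1 := blk_special s.x' s.ty (φ a).1 (by rw [hcty]; exact h)
      have h2 := blk_special s.x s.ty a.1 h
      have h3 := kap_pos s.x
      have h4 := kap_pos s.x'
      rw [abs_le] at h1 h2 ⊢
      constructor <;> linarith [h1.1, h1.2, h2.1, h2.2]
  · rw [Metric.tendsto_nhds]
    intro η hη
    rw [eventually_cofinite]
    obtain ⟨P, hP⟩ := blk_special_small s.x s.ty (η / 2) (half_pos hη)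
    obtain ⟨P', hP'⟩ := blk_special_small s.x' s.ty (η / 2) (half_pos hη)
    have f0 := (Metric.tendsto_nhds.1 a3) η hη
    rw [eventually_cofinite] at f0
    have f1 := special_finite s.ty P
    have f2 := (special_finite s.ty P').preimage (φ.injective.injOn)
    refine ((f0.image Subtype.val).union (f1.union f2)).subset ?_
    intro a ha
    have ha' : ¬ |dd (s.nx a.1 (φ a).1) - dd s| < η := ha
    by_cases h : cty s.ty a.1 = 0
    · left
      refine ⟨⟨a, h⟩, ?_, rfl⟩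
      show ¬ dist _ (0 : ℝ) < η
      rw [Real.dist_eq, sub_zero]
      rw [d0 a h] at ha'
      exact ha'
    · right
      by_contra hcon
      simp only [Set.mem_union, not_or] at hcon
      have h5 : P ≤ a.1.1 := by
        by_contra hlt
        exact hcon.1 ⟨h, by omega⟩
      have h6 : P' ≤ (φ a).1.1 := by
        by_contra hlt
        refine hcon.2 ?_
        show φ a ∈ {a : Dv s.ty | cty s.ty a.1 ≠ 0 ∧ a.1.1 < P'}
        exact ⟨by rw [hcty]; exact h, by omega⟩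
      have h7 := hP a.1 h h5
      have h8 := hP' (φ a).1 (by rw [hcty]; exact h) h6
      apply ha'
      rw [d1 a]
      rw [abs_lt] at h7 h8 ⊢
      constructor <;> linarith [h7.1, h7.2, h8.1, h8.2]

theorem exists_Mt : Nonempty (Mt combA combB) := by
  choose phi h1 h2 h3 h4 using exists_phi
  exact ⟨⟨thAB, thAB_mem, phi, h1, h2, h3, h4⟩⟩

end PJ
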