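import Pool.Agent.Lib.H31J.CF2
import Pool.Agent.Lib.H31J.CPhi

/-! # PJ part C, file CMain: assembly of part C -/

set_option autoImplicit false

namespace PJ

open Filter Topology

theorem Mt.homeo {C C' : Comb} (M : Mt C C') (hC : C.Sym) (hC' : C'.Sym) :
    ∃ h : C.LL ≃ₜ C'.LL, ∀ p q : C.LL, Rel p.1 q.1 ↔ Rel (h p).1 (h q).1 := by
  let h : C.LL ≃ₜ C'.LL :=
    { toFun := fun p => ⟨M.F p.1, F_mem M hC hC' p.1 p.2⟩
      invFun := fun p => ⟨M.symm.F p.1, F_mem M.symm hC' hC p.1 p.2⟩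
      left_inv := fun p => Subtype.ext (F_symm M hC hC' p.1 p.2)
      right_inv := fun p => Subtype.ext (F_symm M.symm hC' hC p.1 p.2)
      continuous_toFun := (continuousOn_iff_continuous_domRestrict.1 (F_cont M hC hC')).subtype_mk _
      continuous_invFun :=
        (continuousOn_iff_continuous_domRestrict.1 (F_cont M.symm hC' hC)).subtype_mk _ }
  refine ⟨h, fun p q => ⟨fun hr => F_rel M hC hC' p.1 q.1 p.2 q.2 hr, fun hr => ?_⟩⟩
  have h1 := F_rel M.symm hC' hC (h p).1 (h q).1 (h p).2 (h q).2 hr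
  have h2 : M.symm.F (h p).1 = p.1 := F_symm M hC hC' p.1 p.2
  have h3 : M.symm.F (h q).1 = q.1 := F_symm M hC hC' q.1 q.2
  rwa [h2, h3] at h1

/-- Part C of the project PJ. -/
theorem homeoModel' : ∃ h : combA.LL ≃ₜ combB.LL,
    ∀ p q : combA.LL, Rel p.1 q.1 ↔ Rel (h p).1 (h q).1 := by
  obtain ⟨M⟩ := exists_Mt
  exact M.homeo symA symB

end PJ
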