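import Pool.Agent.Lib.H31J.CW

/-! # PJ part C, file CP: potentials of words (real analysis of iterated logarithms).

`Lw w y` is the composition of `y ↦ 2π|j| + log (1 + y)` over the letters of `w`,
`mw w y = log (1 + Lw w y)`, `kap w` is the derivative of `mw w` at `0`. -/

set_option autoImplicit false

namespace PJ

open Filter Topology

theorem Lw_cons_eq (j : ℤ) (x : List ℤ) (y : ℝ) :
    Lw (j :: x) y = 2 * Real.pi * |(j : ℝ)| + mw x y := rfl

theorem log_sub_le {a b : ℝ} (ha : 0 < a) (hb : 0 < b) :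
    Real.log b - Real.log a ≤ (b - a) / a := by
  rw [← Real.log_div hb.ne' ha.ne']
  have h := Real.log_le_sub_one_of_pos (div_pos hb ha)
  have e : (b - a) / a = b / a - 1 := by field_simp
  rw [e]; exact h

theorem Lw_nonneg (w : List ℤ) (y : ℝ) (hy : 0 ≤ y) : 0 ≤ Lw w y := by
  induction w with
  | nil => exact hy
  | cons j x ih =>
    have h1 : 0 ≤ Real.log (1 + Lw x y) := Real.log_nonneg (by linarith)
    have h2 : 0 ≤ 2 * Real.pi * |(j : ℝ)| := by positivity
    show 0 ≤ 2 * Real.pi * |(j : ℝ)| + Real.log (1 + Lw x y)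
    linarith

theorem Lw_append (x y : List ℤ) (t : ℝ) : Lw (x ++ y) t = Lw x (Lw y t) := by
  induction x with
  | nil => rfl
  | cons j x ih =>
    show 2 * Real.pi * |(j : ℝ)| + Real.log (1 + Lw (x ++ y) t) =
      2 * Real.pi * |(j : ℝ)| + Real.log (1 + Lw x (Lw y t))
    rw [ih]

theorem mw_append (x y : List ℤ) (t : ℝ) : mw (x ++ y) t = mw x (Lw y t) := by
  rw [mw, mw, Lw_append]

theorem Lw_mono (w : List ℤ) (y y' : ℝ) (hy : 0 ≤ y) (h : y ≤ y') : Lw w y ≤ Lw w y' := by
  induction w with
  | nil => exact h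
  | cons j x ih =>
    show 2 * Real.pi * |(j : ℝ)| + Real.log (1 + Lw x y) ≤
      2 * Real.pi * |(j : ℝ)| + Real.log (1 + Lw x y')
    have h1 := Lw_nonneg x y hy
    have h2 : Real.log (1 + Lw x y) ≤ Real.log (1 + Lw x y') :=
      Real.log_le_log (by linarith) (by linarith)
    linarith

theorem mw_mono (w : List ℤ) (y y' : ℝ) (hy : 0 ≤ y) (h : y ≤ y') : mw w y ≤ mw w y' := by
  have h1 := Lw_nonneg w y hy
  have h2 := Lw_mono w y y' hy h
  exact Real.log_le_log (by linarith) (by linarith)

theorem mw_nonneg (w : List ℤ) (y : ℝ) (hy : 0 ≤ y) : 0 ≤ mw w y := by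
  have h1 := Lw_nonneg w y hy
  exact Real.log_nonneg (by linarith)

theorem Lw_cont (w : List ℤ) : ContinuousOn (Lw w) (Set.Ici 0) := by
  induction w with
  | nil => exact continuousOn_id
  | cons j x ih =>
    show ContinuousOn (fun y => 2 * Real.pi * |(j : ℝ)| + Real.log (1 + Lw x y)) (Set.Ici 0)
    refine continuousOn_const.add ((continuousOn_const.add ih).log fun y hy => ?_)
    have := Lw_nonneg x y hy
    show 1 + Lw x y ≠ 0
    linarith

theorem Lw_atTop (w : List ℤ) : Tendsto (Lw w) atTop atTop := by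
  induction w with
  | nil => exact tendsto_id
  | cons j x ih =>
    show Tendsto (fun y => 2 * Real.pi * |(j : ℝ)| + Real.log (1 + Lw x y)) atTop atTop
    exact tendsto_atTop_add_const_left _ _
      (Real.tendsto_log_atTop.comp (tendsto_atTop_add_const_left _ _ ih))

theorem mw_cont (w : List ℤ) : ContinuousOn (mw w) (Set.Ici 0) := by
  show ContinuousOn (fun y => Real.log (1 + Lw w y)) (Set.Ici 0)
  refine (continuousOn_const.add (Lw_cont w)).log fun y hy => ?_
  have := Lw_nonneg w y hy
  show 1 + Lw w y ≠ 0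
  linarith

theorem mw_atTop (w : List ℤ) : Tendsto (mw w) atTop atTop := by
  show Tendsto (fun y => Real.log (1 + Lw w y)) atTop atTop
  exact Real.tendsto_log_atTop.comp (tendsto_atTop_add_const_left _ _ (Lw_atTop w))

theorem kap_pos (w : List ℤ) : 0 < kap w := by
  induction w with
  | nil => exact one_pos
  | cons j x ih =>
    have := Lw_nonneg (j :: x) 0 le_rfl
    exact div_pos ih (by linarith)

theorem kap_le_one (w : List ℤ) : kap w ≤ 1 := by
  induction w with
  | nil => exact le_rfl
  | cons j x ih =>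
    have := Lw_nonneg (j :: x) 0 le_rfl
    show kap x / (1 + Lw (j :: x) 0) ≤ 1
    rw [div_le_one (by linarith)]
    linarith

/-- the refined contraction estimate (induction on `w`) -/
theorem mw_sub_le (w : List ℤ) (y y' : ℝ) (hy : 0 ≤ y) (h : y ≤ y') :
    mw w y' - mw w y ≤ kap w * (Real.log (1 + y') - Real.log (1 + y)) := by
  induction w with
  | nil =>
    show Real.log (1 + y') - Real.log (1 + y) ≤ 1 * (Real.log (1 + y') - Real.log (1 + y))
    rw [one_mul]
  | cons j x ih =>
    have h0 := Lw_nonneg (j :: x) 0 le_rfl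
    have h1 := Lw_nonneg (j :: x) y hy
    have h2 := Lw_mono (j :: x) y y' hy h
    have h3 := Lw_mono (j :: x) 0 y le_rfl hy
    have h4 := mw_mono x y y' hy h
    have h5 : mw (j :: x) y' - mw (j :: x) y ≤
        (Lw (j :: x) y' - Lw (j :: x) y) / (1 + Lw (j :: x) y) := by
      have := log_sub_le (a := 1 + Lw (j :: x) y) (b := 1 + Lw (j :: x) y') (by linarith)
        (by linarith)
      rw [show 1 + Lw (j :: x) y' - (1 + Lw (j :: x) y) = Lw (j :: x) y' - Lw (j :: x) y by ring]
        at this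
      exact this
    rw [Lw_cons_eq j x y', show 2 * Real.pi * |(j : ℝ)| + mw x y' - Lw (j :: x) y =
      mw x y' - mw x y by rw [Lw_cons_eq]; ring] at h5
    calc mw (j :: x) y' - mw (j :: x) y ≤ (mw x y' - mw x y) / (1 + Lw (j :: x) y) := h5
      _ ≤ (mw x y' - mw x y) / (1 + Lw (j :: x) 0) := by
        apply div_le_div_of_nonneg_left <;> linarith
      _ ≤ (kap x * (Real.log (1 + y') - Real.log (1 + y))) / (1 + Lw (j :: x) 0) := by
        apply div_le_div_of_nonneg_right ih; linarith
      _ = kap (j :: x) * (Real.log (1 + y') - Real.log (1 + y)) := by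
        rw [kap]; ring

theorem mw_lip (w : List ℤ) (y y' : ℝ) (hy : 0 ≤ y) (hy' : 0 ≤ y') :
    |mw w y' - mw w y| ≤ kap w * |y' - y| := by
  have key : ∀ y y' : ℝ, 0 ≤ y → y ≤ y' → |mw w y' - mw w y| ≤ kap w * |y' - y| := by
    intro y y' hy h
    rw [abs_of_nonneg (sub_nonneg.2 (mw_mono w y y' hy h)), abs_of_nonneg (sub_nonneg.2 h)]
    refine (mw_sub_le w y y' hy h).trans (mul_le_mul_of_nonneg_left ?_ (kap_pos w).le)
    have h1 := log_sub_le (a := 1 + y) (b := 1 + y') (by linarith) (by linarith)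
    refine h1.trans ?_
    rw [show 1 + y' - (1 + y) = y' - y by ring]
    apply div_le_self <;> linarith
  rcases le_total y y' with h | h
  · exact key y y' hy h
  · rw [abs_sub_comm, abs_sub_comm y' y]
    exact key y' y hy' h

/-- small slope far out, uniformly in `w` -/
theorem mw_sub_le' (w : List ℤ) (y y' : ℝ) (hy : 0 ≤ y) (h : y ≤ y') :
    mw w y' - mw w y ≤ (y' - y) / (1 + y) := by
  have h1 := log_sub_le (a := 1 + y) (b := 1 + y') (by linarith) (by linarith)
  rw [show 1 + y' - (1 + y) = y' - y by ring] at h1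
  have h2 : 0 ≤ Real.log (1 + y') - Real.log (1 + y) :=
    sub_nonneg.2 (Real.log_le_log (by linarith) (by linarith))
  refine (mw_sub_le w y y' hy h).trans (le_trans ?_ h1)
  calc kap w * (Real.log (1 + y') - Real.log (1 + y))
      ≤ 1 * (Real.log (1 + y') - Real.log (1 + y)) :=
        mul_le_mul_of_nonneg_right (kap_le_one w) h2
    _ = _ := one_mul _

theorem kap_append (x y : List ℤ) : kap (x ++ y) ≤ kap x * kap y := by
  induction x with
  | nil => simp [kap]
  | cons j x ih =>
    have h0 := Lw_nonneg (j :: x) 0 le_rfl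
    have h1 : Lw (j :: x) 0 ≤ Lw (j :: x ++ y) 0 := by
      rw [Lw_append]
      exact Lw_mono _ _ _ le_rfl (Lw_nonneg y 0 le_rfl)
    show kap (x ++ y) / (1 + Lw (j :: x ++ y) 0) ≤ kap x / (1 + Lw (j :: x) 0) * kap y
    calc kap (x ++ y) / (1 + Lw (j :: x ++ y) 0) ≤ kap (x ++ y) / (1 + Lw (j :: x) 0) := by
          apply div_le_div_of_nonneg_left (kap_pos _).le <;> linarith
      _ ≤ (kap x * kap y) / (1 + Lw (j :: x) 0) := by
          apply div_le_div_of_nonneg_right ih; linarith
      _ = _ := by ring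

end PJ
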