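import Pool.Agent.Lib.H31J.CD
import Pool.Agent.Lib.H31J.CC2

/-! # PJ part C, file CStop1: continuity at a sequence whose parse stops.

`s = (M.stg v i).1`, `v = pre s.x (cen s.ty)`.  A sequence `w` close to `v` with `w ≠ v` passes through
`s` and through the child `a = dv s.ty (sh s.x.length w)` with `a.1.1` large; the deviation of the
image is `M.phi s a`. -/

set_option autoImplicit false

namespace PJ

open Filter Topology

variable {C C' : Comb} (M : Mt C C')

/-- far deviations with bounded potential of the image have far images (`blk_finite`, `phi` is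
injective) -/
theorem phi_far (s : St) (P' : ℕ) (B : ℝ) : ∃ P : ℕ, ∀ a : Dv s.ty, P ≤ a.1.1 →
    mw (s.x' ++ blk s.ty (M.phi s a).1) 0 ≤ B → P' ≤ (M.phi s a).1.1 := by
  have h1 := ((blk_finite s.x' s.ty P' B).preimage (M.phi s).injective.injOn)
  obtain ⟨P0, hP0⟩ := (h1.image (fun a : Dv s.ty => a.1.1)).bddAbove
  refine ⟨P0 + 1, fun a ha hB => ?_⟩
  by_contra hlt
  have h2 : a ∈ (M.phi s) ⁻¹' {a : Dv s.ty | a.1.1 ≤ P' ∧ mw (s.x' ++ blk s.ty a.1) 0 ≤ B} :=
    ⟨by omega, hB⟩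
  have h3 : a.1.1 ≤ P0 := hP0 ⟨a, h2, rfl⟩
  omega

/-- description of the sequences close to `v` -/
theorem stop_near (v : ℕ → ℤ) (i : ℕ) (hg : M.Go (s0, v) i)
    (hs : (M.stg v i).2 = cen (M.stg v i).1.ty) (P : ℕ) (w : ℕ → ℤ)
    (hw : Agree ((M.stg v i).1.x.length + P) v w) (hne : w ≠ v) :
    ∃ a : Dv (M.stg v i).1.ty, P ≤ a.1.1 ∧ M.stg w (i + 1) = (M.nxt (M.stg v i).1 a,
      sh ((M.stg v i).1.x.length + (a.1.1 + 1)) w) ∧
      Agree ((M.stg v i).1.x'.length + (M.phi (M.stg v i).1 a).1.1) (M.out s0 v) (M.out s0 w) := by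
  obtain ⟨-, h2, h3⟩ := stg_agree M v w i hg (hw.mono (Nat.le_add_right _ _))
  have hv2 : sh (M.stg v i).1.x.length v = cen (M.stg v i).1.ty := by
    rw [← stg_sh]; exact hs
  have hvp : v = pre (M.stg v i).1.x (cen (M.stg v i).1.ty) := by
    have := stg_pre M v i
    rw [hs] at this
    exact this.symm
  have hwp : w = pre (M.stg v i).1.x (sh (M.stg v i).1.x.length w) := by
    have := stg_pre M w i
    rw [h2, h3] at this
    exact this.symm
  have hne' : sh (M.stg v i).1.x.length w ≠ cen (M.stg v i).1.ty := by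
    intro h0
    rw [h0, ← hvp] at hwp
    exact hne hwp
  have hst : M.stg w i = ((M.stg v i).1, sh (M.stg v i).1.x.length w) := Prod.ext h2 h3
  refine ⟨dv _ _ hne', ?_, ?_, ?_⟩
  · by_contra hlt
    push Not at hlt
    have h4 := agree_sh hw _ hlt
    rw [hv2] at h4
    have h5 := (dv _ _ hne').2
    rw [dv_snd] at h5
    exact h5 h4.symm
  · rw [stg_succ, hst, step_dev M _ _ hne', sh_sh]
  · have h5 := stg_out M v i
    rw [hs, out_cen] at h5
    have h6 := stg_out M w i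
    rw [hst] at h6
    simp only at h6
    rw [← h5, ← h6, out_dev M _ _ hne']
    apply agree_pre_add
    intro k hk
    exact (pre_blk_lt _ _ _ _ hk).symm

/-- potentials of the images are bounded -/
theorem stop_bdd (w : ℕ → ℤ) (hw : Ad w) : mu (M.out s0 w) ≤ mu w + 136 := by
  have h1 := main_stg M w hw 0
  have h2 : dd (M.stg w 0).1 = 0 := by
    rw [stg_zero]
    simp [dd, s0]
  have h3 : kap (M.stg w 0).1.x + kap (M.stg w 0).1.x' = 2 := by
    rw [stg_zero]
    simp only [s0, kap]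
    norm_num
  rw [h2, h3] at h1
  have h4 := (abs_le.1 h1).2
  linarith

/-- with bounded potentials the image deviation is far as well (`stop_near`, `stop_bdd`, `phi_far`) -/
theorem stop_far (v : ℕ → ℤ) (i : ℕ) (hg : M.Go (s0, v) i)
    (hs : (M.stg v i).2 = cen (M.stg v i).1.ty) (P : ℕ) (B : ℝ) :
    ∃ N2, ∀ w, Agree N2 v w → Ad w → mu w ≤ B → w ≠ v →
      ∃ a : Dv (M.stg v i).1.ty, P ≤ a.1.1 ∧ P ≤ (M.phi (M.stg v i).1 a).1.1 ∧
        M.stg w (i + 1) = (M.nxt (M.stg v i).1 a,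
          sh ((M.stg v i).1.x.length + (a.1.1 + 1)) w) ∧
        Agree ((M.stg v i).1.x'.length + P) (M.out s0 v) (M.out s0 w) := by
  obtain ⟨P1, hP1⟩ := phi_far M (M.stg v i).1 P (B + 136)
  refine ⟨(M.stg v i).1.x.length + max P P1, fun w hw hwa hwB hne => ?_⟩
  obtain ⟨a, ha1, ha2, ha3⟩ := stop_near M v i hg hs (max P P1) w hw hne
  have h1 : (M.stg w (i + 1)).1.x' = (M.stg v i).1.x' ++ blk (M.stg v i).1.ty
      (M.phi (M.stg v i).1 a).1 := by
    rw [ha2]
    rfl
  have h2 : mw ((M.stg v i).1.x' ++ blk (M.stg v i).1.ty (M.phi (M.stg v i).1 a).1) 0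
      ≤ B + 136 := by
    have h3 := stg_out M w (i + 1)
    rw [h1] at h3
    have h4 : Ad (M.out s0 w) := (main_est M s0 w hwa).1
    have h5 := mw_seg_le_mu (M.out s0 w) h4 ((M.stg v i).1.x' ++ blk (M.stg v i).1.ty
      (M.phi (M.stg v i).1 a).1).length
    conv_lhs at h5 => rw [← h3]
    rw [seg_pre] at h5
    have h6 := stop_bdd M w hwa
    linarith
  have h7 := hP1 a (le_trans (le_max_right _ _) ha1) h2
  exact ⟨a, le_trans (le_max_left _ _) ha1, h7, ha2, ha3.mono (by omega)⟩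

theorem stop_out (v : ℕ → ℤ) (i : ℕ) (hg : M.Go (s0, v) i)
    (hs : (M.stg v i).2 = cen (M.stg v i).1.ty) (N : ℕ) (B : ℝ) :
    ∃ N2, ∀ w, Agree N2 v w → Ad w → mu w ≤ B → Agree N (M.out s0 v) (M.out s0 w) := by
  obtain ⟨N2, h⟩ := stop_far M v i hg hs N B
  refine ⟨N2, fun w hw hwa hwB => ?_⟩
  by_cases hne : w = v
  · rw [hne]
    exact fun _ _ => rfl
  · obtain ⟨a, -, -, -, h4⟩ := h w hw hwa hwB hne
    exact h4.mono (Nat.le_add_left _ _)

end PJ
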