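import Pool.Agent.Lib.H31J.CW

/-! # PJ part C, file CT: the transducer, the inverse matching, the stages of the parse -/

set_option autoImplicit false

namespace PJ

open Filter Topology

theorem swap_swap (s : St) : s.swap.swap = s := rfl

theorem dd_swap (s : St) : dd s.swap = - dd s := by
  simp only [dd]; ring

theorem nx_swap (s : St) (a b : ℕ × ℤ) (h : cty s.ty a = cty s.ty b) :
    s.nx a b = (s.swap.nx b a).swap := by
  simp only [St.nx, St.swap, h]

/-- the inverse matching -/
noncomputable def Mt.symm {C C' : Comb} (M : Mt C C') : Mt C' C where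
  th τ := (M.th τ).symm
  th_mem τ b := by
    rw [← M.th_mem τ, Equiv.apply_symm_apply]
  phi s := (M.phi s.swap).symm
  cty_phi s a := by
    have := M.cty_phi s.swap ((M.phi s.swap).symm a)
    rw [Equiv.apply_symm_apply] at this
    exact this.symm
  par_phi s a g hg := by
    have hb : M.phi s.swap ((M.phi s.swap).symm a) = a := Equiv.apply_symm_apply _ _
    have hc := M.cty_phi s.swap ((M.phi s.swap).symm a)
    rw [hb] at hc
    have hg' : (M.th (cty s.ty a.1)).symm g ∈ arm (cty s.ty a.1) := by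
      rw [← M.th_mem, Equiv.apply_symm_apply]
      exact hg
    have hc2 : cty s.ty ((M.phi s.swap).symm a).1 = cty s.ty a.1 := hc.symm
    have h1 := M.par_phi s.swap ((M.phi s.swap).symm a) ((M.th (cty s.ty a.1)).symm g) (by
      show _ ∈ arm (cty s.ty ((M.phi s.swap).symm a).1)
      rw [hc2]
      exact hg')
    rw [hb] at h1
    have h2 : M.th (cty s.swap.ty ((M.phi s.swap).symm a).1) = M.th (cty s.ty a.1) := by
      show M.th (cty s.ty ((M.phi s.swap).symm a).1) = _
      rw [hc2]
    rw [h2, Equiv.apply_symm_apply] at h1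
    exact ((Equiv.symm_apply_eq (M.th s.ty)).2 h1).symm
  dd_phi s a := by
    have hb : M.phi s.swap ((M.phi s.swap).symm a) = a := Equiv.apply_symm_apply _ _
    have hc := M.cty_phi s.swap ((M.phi s.swap).symm a)
    have h1 := M.dd_phi s.swap ((M.phi s.swap).symm a)
    rw [hb] at h1 hc
    rw [nx_swap s a.1 _ hc, dd_swap]
    have h2 : dd s = - dd s.swap := by rw [dd_swap, neg_neg]
    rw [h2]
    have h3 : -dd (s.swap.nx (((M.phi s.swap).symm a)).1 a.1) - -dd s.swap
        = -(dd (s.swap.nx (((M.phi s.swap).symm a)).1 a.1) - dd s.swap) := by ring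
    rw [h3, abs_neg]
    have h4 : kap s.x + kap s.x' = kap s.swap.x + kap s.swap.x' := by
      simp only; ring
    rw [h4]
    exact h1
  dd_tend s := by
    have h1 := (M.dd_tend s.swap).comp
      ((M.phi s.swap).symm.injective.tendsto_cofinite)
    have h2 := h1.neg
    have h3 : - dd s.swap = dd s := by rw [dd_swap, neg_neg]
    rw [h3] at h2
    refine h2.congr (fun a => ?_)
    have hb : M.phi s.swap ((M.phi s.swap).symm a) = a := Equiv.apply_symm_apply _ _
    have hc := M.cty_phi s.swap ((M.phi s.swap).symm a)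
    rw [hb] at hc
    rw [nx_swap s a.1 _ hc, dd_swap]
    simp only [Function.comp, hb]

variable {C C' : Comb} (M : Mt C C')

theorem symm_symm_phi (s : St) : M.symm.symm.phi s = M.phi s := rfl

theorem nxt_swap (s : St) (a : Dv s.ty) : M.symm.nxt s.swap (M.phi s a) = (M.nxt s a).swap := by
  have h1 : M.symm.phi s.swap (M.phi s a) = a := Equiv.symm_apply_apply _ _
  have h2 := M.cty_phi s a
  unfold Mt.nxt
  rw [h1]
  exact nx_swap s.swap _ _ h2

theorem out_cen (s : St) : M.out s (cen s.ty) = cen s.ty := by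
  funext n
  rw [Mt.out, dif_pos rfl]

theorem out_dev (s : St) (v : ℕ → ℤ) (h : v ≠ cen s.ty) :
    M.out s v = pre (blk s.ty (M.phi s (dv s.ty v h)).1)
      (M.out (M.nxt s (dv s.ty v h)) (sh ((dv s.ty v h).1.1 + 1) v)) := by
  funext n
  rw [Mt.out, dif_neg h]
  rcases lt_trichotomy n (M.phi s (dv s.ty v h)).1.1 with h1 | h1 | h1
  · rw [if_pos h1, pre_blk_lt _ _ _ _ h1]
  · rw [if_neg (by omega), if_pos h1, h1, pre_blk_eq]
  · rw [if_neg (by omega), if_neg (by omega)]
    obtain ⟨k, hk⟩ : ∃ k, n = (M.phi s (dv s.ty v h)).1.1 + 1 + k :=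
      ⟨n - (M.phi s (dv s.ty v h)).1.1 - 1, by omega⟩
    have h2 : n - (M.phi s (dv s.ty v h)).1.1 - 1 = k := by omega
    have h3 := congrFun (sh_pre (blk s.ty (M.phi s (dv s.ty v h)).1)
      (M.out (M.nxt s (dv s.ty v h)) (sh ((dv s.ty v h).1.1 + 1) v))) k
    rw [blk_length] at h3
    rw [h2, ← h3, hk]
    rfl

theorem out_ne (s : St) (v : ℕ → ℤ) (h : v ≠ cen s.ty) : M.out s v ≠ cen s.ty := by
  rw [out_dev M s v h]
  exact pre_blk_ne _ _ _

theorem dv_out (s : St) (v : ℕ → ℤ) (h : v ≠ cen s.ty) (h2 : M.out s v ≠ cen s.ty) :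
    dv s.ty (M.out s v) h2 = M.phi s (dv s.ty v h) := by
  have h1 := out_dev M s v h
  apply dv_eq
  · intro k hk
    rw [h1]
    exact pre_blk_lt _ _ _ _ hk
  · rw [h1]
    exact pre_blk_eq _ _ _

theorem sh_out (s : St) (v : ℕ → ℤ) (h : v ≠ cen s.ty) :
    sh ((M.phi s (dv s.ty v h)).1.1 + 1) (M.out s v)
      = M.out (M.nxt s (dv s.ty v h)) (sh ((dv s.ty v h).1.1 + 1) v) := by
  conv_lhs => rw [out_dev M s v h]
  have := sh_pre (blk s.ty (M.phi s (dv s.ty v h)).1)
    (M.out (M.nxt s (dv s.ty v h)) (sh ((dv s.ty v h).1.1 + 1) v))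
  rwa [blk_length] at this

/-- the inverse transducer -/
theorem out_symm (s : St) (v : ℕ → ℤ) : M.symm.out s.swap (M.out s v) = v := by
  suffices H : ∀ n : ℕ, ∀ (s : St) (v : ℕ → ℤ), M.symm.out s.swap (M.out s v) n = v n from
    funext fun n => H n s v
  intro n
  induction n using Nat.strong_induction_on with
  | _ n ih =>
    intro s v
    by_cases h : v = cen s.ty
    · subst h
      rw [out_cen]
      exact congrFun (out_cen M.symm s.swap) n
    · have h1 := out_dev M s v h
      set a := dv s.ty v h with ha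
      set r := sh (a.1.1 + 1) v with hr
      have h2 : M.out s v ≠ cen s.swap.ty := out_ne M s v h
      have h3 : dv s.swap.ty (M.out s v) h2 = M.phi s a := by
        apply dv_eq
        · intro k hk
          rw [h1]
          exact pre_blk_lt _ _ _ _ hk
        · rw [h1]
          exact pre_blk_eq _ _ _
      have h4 : sh ((M.phi s a).1.1 + 1) (M.out s v) = M.out (M.nxt s a) r := by
        conv_lhs => rw [h1]
        have := sh_pre (blk s.ty (M.phi s a).1) (M.out (M.nxt s a) r)
        rwa [blk_length] at this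
      have h5 : M.symm.phi s.swap (M.phi s a) = a := Equiv.symm_apply_apply _ _
      have h6 := out_dev M.symm s.swap (M.out s v) h2
      rw [h3, h4, nxt_swap, h5] at h6
      rw [h6]
      have h7 := pre_blk_dv s.ty v h
      rw [← ha, ← hr] at h7
      rcases lt_or_ge n (a.1.1 + 1) with hn | hn
      · have h8 := agree_pre (blk s.ty a.1) (M.symm.out (M.nxt s a).swap (M.out (M.nxt s a) r)) r
        rw [blk_length] at h8
        have h9 := h8 n hn
        rw [h7] at h9
        exact h9
      · obtain ⟨k, hk⟩ : ∃ k, n = a.1.1 + 1 + k := ⟨n - (a.1.1 + 1), by omega⟩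
        have h8 := congrFun (sh_pre (blk s.ty a.1)
          (M.symm.out (M.nxt s a).swap (M.out (M.nxt s a) r))) k
        rw [blk_length] at h8
        have h9 := ih k (by omega) (M.nxt s a) r
        have h10 : v n = r k := by rw [hk, hr]; rfl
        rw [h10, ← h9, ← h8, hk]
        rfl

/-! ### stages from an arbitrary state -/

theorem step_cen (s : St) : M.step (s, cen s.ty) = (s, cen s.ty) := by
  rw [Mt.step, dif_pos rfl]

theorem step_stop (q : St × (ℕ → ℤ)) (h : q.2 = cen q.1.ty) : M.step q = q := by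
  rw [Mt.step, dif_pos h]

theorem step_dev (s : St) (v : ℕ → ℤ) (h : v ≠ cen s.ty) :
    M.step (s, v) = (M.nxt s (dv s.ty v h), sh ((dv s.ty v h).1.1 + 1) v) := by
  rw [Mt.step, dif_neg h]

/-- The parse has not stopped before the stage `i` (started from `q`). -/
def Mt.Go (q : St × (ℕ → ℤ)) (i : ℕ) : Prop :=
  ∀ k, k < i → (M.step^[k] q).2 ≠ cen (M.step^[k] q).1.ty

/-- words read and written in the first `i` stages -/
theorem stages (s : St) (v : ℕ → ℤ) (i : ℕ) : ∃ z z' : List ℤ,
    (M.step^[i] (s, v)).1.x = s.x ++ z ∧ (M.step^[i] (s, v)).1.x' = s.x' ++ z' ∧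
    v = pre z (M.step^[i] (s, v)).2 ∧
    M.out s v = pre z' (M.out (M.step^[i] (s, v)).1 (M.step^[i] (s, v)).2) ∧
    (M.Go (s, v) i → i ≤ z.length ∧ i ≤ z'.length) := by
  induction i with
  | zero => exact ⟨[], [], by simp, by simp, rfl, rfl, fun _ => by simp⟩
  | succ i ih =>
    obtain ⟨z, z', h1, h2, h3, h4, h5⟩ := ih
    rw [Function.iterate_succ_apply']
    set q := M.step^[i] (s, v) with hq
    by_cases h : q.2 = cen q.1.ty
    · refine ⟨z, z', ?_, ?_, ?_, ?_, fun hg => absurd h (hg i (Nat.lt_succ_self i))⟩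
      · rw [step_stop M q h, h1]
      · rw [step_stop M q h, h2]
      · rw [step_stop M q h, ← h3]
      · rw [step_stop M q h, ← h4]
    · have hs := step_dev M q.1 q.2 h
      have hs' : M.step q = (M.nxt q.1 (dv q.1.ty q.2 h), sh ((dv q.1.ty q.2 h).1.1 + 1) q.2) := hs
      rw [hs']
      refine ⟨z ++ blk q.1.ty (dv q.1.ty q.2 h).1, z' ++ blk q.1.ty (M.phi q.1 (dv q.1.ty q.2 h)).1,
        ?_, ?_, ?_, ?_, ?_⟩
      · simp only [Mt.nxt, St.nx, h1, List.append_assoc]
      · simp only [Mt.nxt, St.nx, h2, List.append_assoc]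
      · rw [pre_append, pre_blk_dv]
        exact h3
      · rw [pre_append, ← out_dev M q.1 q.2 h]
        exact h4
      · intro hg
        have := h5 (fun k hk => hg k (by omega))
        simp only [List.length_append, blk_length]
        omega

/-! ### stages from the root -/

theorem stg_zero (v : ℕ → ℤ) : M.stg v 0 = (s0, v) := rfl

theorem stg_succ (v : ℕ → ℤ) (i : ℕ) : M.stg v (i + 1) = M.step (M.stg v i) := by
  rw [Mt.stg, Function.iterate_succ_apply', Mt.stg]

theorem stg_pre (v : ℕ → ℤ) (i : ℕ) : pre (M.stg v i).1.x (M.stg v i).2 = v := by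
  obtain ⟨z, z', h1, -, h3, -, -⟩ := stages M s0 v i
  have h4 : (M.stg v i).1.x = z := by rw [Mt.stg, h1]; rfl
  rw [h4]
  exact h3.symm

theorem stg_sh (v : ℕ → ℤ) (i : ℕ) : (M.stg v i).2 = sh (M.stg v i).1.x.length v := by
  have h := congrArg (sh (M.stg v i).1.x.length) (stg_pre M v i)
  rw [sh_pre] at h
  exact h

theorem stg_out (v : ℕ → ℤ) (i : ℕ) :
    pre (M.stg v i).1.x' (M.out (M.stg v i).1 (M.stg v i).2) = M.out s0 v := by
  obtain ⟨z, z', -, h2, -, h4, -⟩ := stages M s0 v i
  have h5 : (M.stg v i).1.x' = z' := by rw [Mt.stg, h2]; rfl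
  rw [h5]
  exact h4.symm

theorem stg_len (v : ℕ → ℤ) (i : ℕ) (h : M.Go (s0, v) i) :
    i ≤ (M.stg v i).1.x.length ∧ i ≤ (M.stg v i).1.x'.length := by
  obtain ⟨z, z', h1, h2, -, -, h5⟩ := stages M s0 v i
  have h4 : (M.stg v i).1.x = z := by rw [Mt.stg, h1]; rfl
  have h6 : (M.stg v i).1.x' = z' := by rw [Mt.stg, h2]; rfl
  rw [h4, h6]
  exact h5 h

end PJ
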