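import Pool.Agent.Lib.H31J.CT

/-! # PJ part C, file CT2: stages of the inverse, agreement -/

set_option autoImplicit false

namespace PJ

open Filter Topology

variable {C C' : Comb} (M : Mt C C')

theorem step_symm (q : St × (ℕ → ℤ)) :
    M.symm.step (q.1.swap, M.out q.1 q.2) = ((M.step q).1.swap, M.out (M.step q).1 (M.step q).2) := by
  obtain ⟨s, v⟩ := q
  by_cases h : v = cen s.ty
  · subst h
    rw [step_cen]
    have h1 : M.out s (cen s.ty) = cen s.swap.ty := out_cen M s
    simp only
    rw [h1, step_cen]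
  · have h2 : M.out s v ≠ cen s.swap.ty := out_ne M s v h
    simp only
    rw [step_dev M s v h, step_dev M.symm s.swap (M.out s v) h2]
    have h3 : dv s.swap.ty (M.out s v) h2 = M.phi s (dv s.ty v h) := dv_out M s v h h2
    rw [h3, nxt_swap, sh_out M s v h]

/-- stages of the inverse -/
theorem stg_symm (v : ℕ → ℤ) (i : ℕ) :
    M.symm.stg (M.out s0 v) i = ((M.stg v i).1.swap, M.out (M.stg v i).1 (M.stg v i).2) := by
  induction i with
  | zero => rfl
  | succ i ih => rw [stg_succ, ih, step_symm, ← stg_succ]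

theorem out_eq_cen (s : St) (v : ℕ → ℤ) : M.out s v = cen s.ty ↔ v = cen s.ty := by
  constructor
  · intro h
    by_contra h1
    exact out_ne M s v h1 h
  · rintro rfl
    exact out_cen M s

theorem go_symm (v : ℕ → ℤ) (i : ℕ) : M.symm.Go (s0, M.out s0 v) i ↔ M.Go (s0, v) i := by
  have key : ∀ k, (M.symm.step^[k] (s0, M.out s0 v)).2 = cen (M.symm.step^[k] (s0, M.out s0 v)).1.ty
      ↔ (M.step^[k] (s0, v)).2 = cen (M.step^[k] (s0, v)).1.ty := by
    intro k
    have h := stg_symm M v k
    rw [Mt.stg] at h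
    rw [h]
    exact out_eq_cen M _ _
  constructor
  · intro h k hk h1
    exact h k hk ((key k).2 h1)
  · intro h k hk h1
    exact h k hk ((key k).1 h1)

/-- the parse of a sequence `w` that agrees with `v` on the word read in the first `i` stages -/
theorem stg_agree (v w : ℕ → ℤ) (i : ℕ) (hg : M.Go (s0, v) i)
    (h : Agree (M.stg v i).1.x.length v w) :
    M.Go (s0, w) i ∧ (M.stg w i).1 = (M.stg v i).1 ∧
      (M.stg w i).2 = sh (M.stg v i).1.x.length w := by
  induction i with
  | zero =>
    refine ⟨fun k hk => absurd hk (Nat.not_lt_zero k), rfl, ?_⟩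
    show w = sh 0 w
    rw [sh_zero]
  | succ i ih =>
    have hgi : M.Go (s0, v) i := fun k hk => hg k (by omega)
    have hne : (M.stg v i).2 ≠ cen (M.stg v i).1.ty := hg i (Nat.lt_succ_self i)
    have hst := step_dev M (M.stg v i).1 (M.stg v i).2 hne
    have hst' : M.stg v (i + 1) = (M.nxt (M.stg v i).1 (dv (M.stg v i).1.ty (M.stg v i).2 hne),
        sh ((dv (M.stg v i).1.ty (M.stg v i).2 hne).1.1 + 1) (M.stg v i).2) := by
      rw [stg_succ]; exact hst
    have hlen : (M.stg v (i + 1)).1.x.length = (M.stg v i).1.x.length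
        + ((dv (M.stg v i).1.ty (M.stg v i).2 hne).1.1 + 1) := by
      rw [hst']
      simp only [Mt.nxt, St.nx, List.length_append, blk_length]
    rw [hlen] at h
    obtain ⟨h1, h2, h3⟩ := ih hgi (h.mono (Nat.le_add_right _ _))
    have h4 := agree_sh h
    rw [← stg_sh M v i] at h4
    obtain ⟨h5, h6⟩ := dv_agree _ _ _ hne h4
    have h7 : (M.stg w i).2 ≠ cen (M.stg w i).1.ty := by
      rw [h2, h3]; exact h5
    have h8 : M.stg w (i + 1) = (M.nxt (M.stg v i).1 (dv (M.stg v i).1.ty (M.stg v i).2 hne),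
        sh ((dv (M.stg v i).1.ty (M.stg v i).2 hne).1.1 + 1) (sh (M.stg v i).1.x.length w)) := by
      rw [stg_succ]
      have e1 : M.stg w i = ((M.stg v i).1, sh (M.stg v i).1.x.length w) := Prod.ext h2 h3
      rw [e1, step_dev M _ _ h5, h6]
    refine ⟨?_, ?_, ?_⟩
    · intro k hk
      rcases Nat.lt_succ_iff_lt_or_eq.1 hk with hk' | rfl
      · exact h1 k hk'
      · exact h7
    · rw [h8, hst']
    · rw [h8, hlen]
      simp only
      rw [sh_sh]

/-- either the parse never stops or there is a first stage where it stops -/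
theorem go_or_stop (v : ℕ → ℤ) : (∀ i, M.Go (s0, v) i) ∨
    ∃ i, M.Go (s0, v) i ∧ (M.stg v i).2 = cen (M.stg v i).1.ty := by
  classical
  by_cases h : ∃ i, (M.stg v i).2 = cen (M.stg v i).1.ty
  · right
    exact ⟨Nat.find h, fun k hk => Nat.find_min h hk, Nat.find_spec h⟩
  · left
    intro i k _ h1
    exact h ⟨k, h1⟩

/-- after a stop the stages do not change -/
theorem stg_stop (v : ℕ → ℤ) (i : ℕ) (h : (M.stg v i).2 = cen (M.stg v i).1.ty) (k : ℕ)
    (hk : i ≤ k) : M.stg v k = M.stg v i := by
  induction k, hk using Nat.le_induction with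
  | base => rfl
  | succ k _ ih => rw [stg_succ, ih, step_stop M _ h]

end PJ
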