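import Pool.Agent.Lib.H31J.CT2

/-! # PJ part C, file CT3: the parse of an eventually central sequence stops -/

set_option autoImplicit false

namespace PJ

open Filter Topology

variable {C C' : Comb} (M : Mt C C')

/-- the parse of `v`, started in any state of type `τ`, stops -/
def CT3_Sp (τ : Fin 3) (v : ℕ → ℤ) : Prop :=
  ∀ s : St, s.ty = τ → ∃ i, (M.step^[i] (s, v)).2 = cen (M.step^[i] (s, v)).1.ty

theorem CT3_cen (τ : Fin 3) : CT3_Sp M τ (cen τ) := by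
  intro s hs
  exact ⟨0, by simp [hs]⟩

theorem CT3_dev (τ : Fin 3) (v : ℕ → ℤ) (p : ℕ) (hlt : ∀ k, k < p → v k = cen τ k)
    (hne : v p ≠ cen τ p) (h : CT3_Sp M (cty τ (p, v p)) (sh (p + 1) v)) : CT3_Sp M τ v := by
  intro s hs
  subst hs
  have hv : v ≠ cen s.ty := fun h0 => hne (congrFun h0 p)
  have hd : dv s.ty v hv = ⟨(p, v p), hne⟩ := dv_eq s.ty v hv ⟨(p, v p), hne⟩ hlt rfl
  have hstep := step_dev M s v hv
  rw [hd] at hstep
  obtain ⟨i, hi⟩ := h (M.nxt s ⟨(p, v p), hne⟩) rfl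
  refine ⟨i + 1, ?_⟩
  rw [Function.iterate_succ_apply, hstep]
  exact hi

theorem CT3_dev' (τ : Fin 3) (v : ℕ → ℤ) (hv : v ≠ cen τ)
    (h : ∀ a : Dv τ, CT3_Sp M (cty τ a.1) (sh (a.1.1 + 1) v)) : CT3_Sp M τ v := by
  refine CT3_dev M τ v (dv τ v hv).1.1 (fun k hk => dv_lt τ v hv k hk) ?_ ?_
  · have h1 := (dv τ v hv).2
    rw [dv_snd] at h1
    exact h1
  · exact h (dv τ v hv)

theorem CT3_c0 (r : ℕ) : sh r (cen 0) = cen 0 := by
  funext n; simp [sh, cen]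

theorem CT3_c1 (r : ℕ) : sh r (cen 1) = sh (r % 2) (cen 1) := by
  funext n
  have h : (r + n) % 2 = (r % 2 + n) % 2 := by omega
  simp only [sh, cen]
  rw [h]
  simp only [if_true]

theorem CT3_c2 (r : ℕ) : sh r (cen 2) = sh (r % 6) (cen 2) := by
  funext n
  have h : (r + n) % 2 = (r % 6 + n) % 2 := by omega
  have h' : (r + n) % 6 = (r % 6 + n) % 6 := by omega
  simp only [sh, cen]
  rw [h, h']

theorem CT3_s1 : CT3_Sp M 1 (sh 2 (cen 1)) := by
  rw [CT3_c1, show 2 % 2 = 0 from rfl, sh_zero]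
  exact CT3_cen M 1

/-- type `2`, rest `(010102)^∞` -/
theorem CT3_s2 : CT3_Sp M 2 (sh 6 (cen 2)) := by
  rw [CT3_c2, show 6 % 6 = 0 from rfl, sh_zero]
  exact CT3_cen M 2

theorem CT3_t1_2 : CT3_Sp M 1 (sh 2 (cen 2)) := by
  refine CT3_dev M 1 _ 3 (fun k hk => ?_) ?_ ?_
  · interval_cases k <;> simp [sh, cen]
  · simp [sh, cen]
  · have h1 : cty 1 (3, sh 2 (cen 2) 3) = 2 := by simp [cty, sh, cen]
    rw [h1, sh_sh]
    exact CT3_s2 M

theorem CT3_t1_4 : CT3_Sp M 1 (sh 4 (cen 2)) := by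
  refine CT3_dev M 1 _ 1 (fun k hk => ?_) ?_ ?_
  · interval_cases k; simp [sh, cen]
  · simp [sh, cen]
  · have h1 : cty 1 (1, sh 4 (cen 2) 1) = 2 := by simp [cty, sh, cen]
    rw [h1, sh_sh]
    exact CT3_s2 M

theorem CT3_t0_0 : CT3_Sp M 0 (sh 0 (cen 2)) := by
  refine CT3_dev M 0 _ 1 (fun k hk => ?_) ?_ ?_
  · interval_cases k; simp [sh, cen]
  · simp [sh, cen]
  · have h1 : cty 0 (1, sh 0 (cen 2) 1) = 1 := by simp [cty, sh, cen]
    rw [h1, sh_sh]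
    exact CT3_t1_2 M

theorem CT3_t0_1 : CT3_Sp M 0 (sh 1 (cen 2)) := by
  refine CT3_dev M 0 _ 0 (fun k hk => absurd hk (Nat.not_lt_zero _)) ?_ ?_
  · simp [sh, cen]
  · have h1 : cty 0 (0, sh 1 (cen 2) 0) = 1 := by simp [cty, sh, cen]
    rw [h1, sh_sh]
    exact CT3_t1_2 M

theorem CT3_t0_2 : CT3_Sp M 0 (sh 2 (cen 2)) := by
  refine CT3_dev M 0 _ 1 (fun k hk => ?_) ?_ ?_
  · interval_cases k; simp [sh, cen]
  · simp [sh, cen]
  · have h1 : cty 0 (1, sh 2 (cen 2) 1) = 1 := by simp [cty, sh, cen]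
    rw [h1, sh_sh]
    exact CT3_t1_4 M

theorem CT3_t0_3 : CT3_Sp M 0 (sh 3 (cen 2)) := by
  refine CT3_dev M 0 _ 0 (fun k hk => absurd hk (Nat.not_lt_zero _)) ?_ ?_
  · simp [sh, cen]
  · have h1 : cty 0 (0, sh 3 (cen 2) 0) = 1 := by simp [cty, sh, cen]
    rw [h1, sh_sh]
    exact CT3_t1_4 M

theorem CT3_t0_4 : CT3_Sp M 0 (sh 4 (cen 2)) := by
  refine CT3_dev M 0 _ 1 (fun k hk => ?_) ?_ ?_
  · interval_cases k; simp [sh, cen]
  · simp [sh, cen]
  · have h1 : cty 0 (1, sh 4 (cen 2) 1) = 0 := by simp [cty, sh, cen]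
    rw [h1, sh_sh, CT3_c2]
    exact CT3_t0_0 M

theorem CT3_t0_5 : CT3_Sp M 0 (sh 5 (cen 2)) := by
  refine CT3_dev M 0 _ 0 (fun k hk => absurd hk (Nat.not_lt_zero _)) ?_ ?_
  · simp [sh, cen]
  · have h1 : cty 0 (0, sh 5 (cen 2) 0) = 0 := by simp [cty, sh, cen]
    rw [h1, sh_sh, CT3_c2]
    exact CT3_t0_0 M

theorem CT3_zero (σ : Fin 3) (r : ℕ) : CT3_Sp M 0 (sh r (cen σ)) := by
  match σ with
  | 0 =>
    rw [CT3_c0]
    exact CT3_cen M 0
  | 1 =>
    rw [CT3_c1]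
    have h : r % 2 = 0 ∨ r % 2 = 1 := by omega
    rcases h with h | h <;> rw [h]
    · refine CT3_dev M 0 _ 1 (fun k hk => ?_) ?_ ?_
      · interval_cases k; simp [sh, cen]
      · simp [sh, cen]
      · have h1 : cty 0 (1, sh 0 (cen 1) 1) = 1 := by simp [cty, sh, cen]
        rw [h1, sh_sh]
        exact CT3_s1 M
    · refine CT3_dev M 0 _ 0 (fun k hk => absurd hk (Nat.not_lt_zero _)) ?_ ?_
      · simp [sh, cen]
      · have h1 : cty 0 (0, sh 1 (cen 1) 0) = 1 := by simp [cty, sh, cen]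
        rw [h1, sh_sh]
        exact CT3_s1 M
  | 2 =>
    rw [CT3_c2]
    have h : r % 6 = 0 ∨ r % 6 = 1 ∨ r % 6 = 2 ∨ r % 6 = 3 ∨ r % 6 = 4 ∨ r % 6 = 5 := by omega
    rcases h with h | h | h | h | h | h <;> rw [h]
    · exact CT3_t0_0 M
    · exact CT3_t0_1 M
    · exact CT3_t0_2 M
    · exact CT3_t0_3 M
    · exact CT3_t0_4 M
    · exact CT3_t0_5 M

theorem CT3_two (σ : Fin 3) (r : ℕ) : CT3_Sp M 2 (sh r (cen σ)) := by
  by_cases hv : sh r (cen σ) = cen 2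
  · rw [hv]
    exact CT3_cen M 2
  · refine CT3_dev' M 2 _ hv fun a => ?_
    have h1 : cty 2 a.1 = 0 := by simp [cty]
    rw [h1, sh_sh]
    exact CT3_zero M σ _

theorem CT3_one (σ : Fin 3) (r : ℕ) : CT3_Sp M 1 (sh r (cen σ)) := by
  by_cases hv : sh r (cen σ) = cen 1
  · rw [hv]
    exact CT3_cen M 1
  · refine CT3_dev' M 1 _ hv fun a => ?_
    rw [sh_sh]
    have h1 : cty 1 a.1 = 2 ∨ cty 1 a.1 = 0 := by
      unfold cty
      split_ifs <;> simp_all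
    rcases h1 with h1 | h1 <;> rw [h1]
    · exact CT3_two M σ _
    · exact CT3_zero M σ _

theorem CT3_all (τ σ : Fin 3) (r : ℕ) : CT3_Sp M τ (sh r (cen σ)) := by
  match τ with
  | 0 => exact CT3_zero M σ r
  | 1 => exact CT3_one M σ r
  | 2 => exact CT3_two M σ r

/-- The parse stops if some shift of `v` is a center.  A stage with type `0` is reached after at
most 3 further stages, and there the rest is a shift of a center; then the explicit list: from type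
`0` and rest `sh r (cen σ)`: `σ = 0` stops; `σ = 1` one more stage; `σ = 2`: two or three. -/
theorem stops (v : ℕ → ℤ) (k : ℕ) (σ : Fin 3) (h : sh k v = cen σ) :
    ∃ i, (M.stg v i).2 = cen (M.stg v i).1.ty := by
  rcases go_or_stop M v with hg | ⟨i, -, hi⟩
  · have hlen := (stg_len M v k (hg k)).1
    have h2 : (M.stg v k).2 = sh ((M.stg v k).1.x.length - k) (cen σ) := by
      rw [stg_sh M v k, ← h, sh_sh]
      congr 1
      omega
    obtain ⟨i, hi⟩ := CT3_all M (M.stg v k).1.ty σ ((M.stg v k).1.x.length - k) (M.stg v k).1 rfl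
    rw [← h2] at hi
    refine ⟨i + k, ?_⟩
    have h3 : M.stg v (i + k) = M.step^[i] ((M.stg v k).1, (M.stg v k).2) := by
      rw [Mt.stg, Function.iterate_add_apply]
      rfl
    rw [h3]
    exact hi
  · exact ⟨i, hi⟩

end PJ
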