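import Pool.Agent.Lib.H31J.Quot

/-! Part B: the two concrete combinatorial data sets are good. -/

set_option autoImplicit false

namespace PJ

lemma good_A_neg (j : ℤ) (hj : j < 0) (e : ℕ) : combA.de j e = 0 := by
  unfold Comb.de Comb.x
  rw [Finset.card_eq_zero, Finset.filter_eq_empty_iff]
  intro i hi
  have hi' : i < 17 := Finset.mem_range.1 hi
  clear hi
  interval_cases i <;> simp only [combA, List.getD_cons_zero, List.getD_cons_succ] <;>
    split_ifs <;> omega

lemma good_B_neg (j : ℤ) (hj : j < 0) (e : ℕ) : combB.de j e = 0 := by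
  unfold Comb.de Comb.x
  rw [Finset.card_eq_zero, Finset.filter_eq_empty_iff]
  intro i hi
  have hi' : i < 17 := Finset.mem_range.1 hi
  clear hi
  interval_cases i <;> simp only [combB, List.getD_cons_zero, List.getD_cons_succ] <;>
    split_ifs <;> omega

lemma good_A_big (j : ℤ) (hj : 3 ≤ j) (e : ℕ) : combA.de j e = 17 := by
  unfold Comb.de Comb.x
  rw [Finset.filter_true_of_mem]
  · rfl
  intro i hi
  have hi' : i < 17 := Finset.mem_range.1 hi
  clear hi
  interval_cases i <;> simp only [combA, List.getD_cons_zero, List.getD_cons_succ] <;>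
    split_ifs <;> first | omega | (left; refine ⟨?_, ?_⟩ <;> first | trivial | omega)

lemma good_B_big (j : ℤ) (hj : 3 ≤ j) (e : ℕ) : combB.de j e = 17 := by
  unfold Comb.de Comb.x
  rw [Finset.filter_true_of_mem]
  · rfl
  intro i hi
  have hi' : i < 17 := Finset.mem_range.1 hi
  clear hi
  interval_cases i <;> simp only [combB, List.getD_cons_zero, List.getD_cons_succ] <;>
    split_ifs <;> first | omega | (left; refine ⟨?_, ?_⟩ <;> first | trivial | omega)

/-- two different sequences of arcs over the same itinerary: the itinerary is bounded -/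
lemma good_multi (C : Comb) (hneg : ∀ j : ℤ, j < 0 → ∀ e, C.de j e = 0)
    (hbig : ∀ j : ℤ, 3 ≤ j → ∀ e, C.de j e = C.m + 1)
    (u : ℕ → ℤ) (e e' : ℕ → ℕ) (h : (u, e) ∈ C.X) (h' : (u, e') ∈ C.X) (hne : e ≠ e') :
    ∃ B : ℤ, ∀ n, |u n| ≤ B := by
  obtain ⟨n, hn⟩ := Function.ne_iff.1 hne
  have h1 : ∀ k, e (n + k) ≠ e' (n + k) := by
    intro k
    induction k with
    | zero => exact hn
    | succ k ih =>
      intro hk
      apply ih
      have a := h (n + k)
      have b := h' (n + k)
      simp only at a b
      rw [a, b, show n + k + 1 = n + (k + 1) from rfl, hk]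
  have h2 : ∀ k, 0 ≤ u (n + k) ∧ u (n + k) < 3 := by
    intro k
    have a := h (n + k)
    have b := h' (n + k)
    simp only at a b
    constructor
    · by_contra hc
      push Not at hc
      apply h1 k
      rw [a, b, hneg _ hc, hneg _ hc]
    · by_contra hc
      push Not at hc
      apply h1 k
      rw [a, b, hbig _ hc, hbig _ hc]
  refine ⟨(∑ k ∈ Finset.range n, |u k|) + 3, ?_⟩
  intro k
  have h0 : 0 ≤ ∑ k ∈ Finset.range n, |u k| := Finset.sum_nonneg fun _ _ => abs_nonneg _
  by_cases hk : k < n
  · have := Finset.single_le_sum (f := fun k => |u k|) (fun i _ => abs_nonneg (u i))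
      (Finset.mem_range.2 hk)
    have h3 : |u k| ≤ ∑ k ∈ Finset.range n, |u k| := this
    linarith
  · obtain ⟨l, rfl⟩ := Nat.exists_eq_add_of_le (not_lt.1 hk)
    have := h2 l
    rw [abs_of_nonneg this.1]
    linarith [this.2]

/-- Part B (symbolic checks). -/
theorem good_A : combA.Good where
  m_pos := by decide
  sg0 := by decide
  sg_le := by
    intro i
    by_cases hi : i < 16
    · interval_cases i <;> decide
    · have : combA.sg i = 0 := by
        show List.getD _ i 0 = 0
        rw [List.getD_eq_default]
        simpa using hi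
      rw [this]; decide
  rk_le := by
    intro i hi
    have hi' : i ≤ 16 := hi
    clear hi
    interval_cases i <;> decide
  rk_inj := by
    have : ∀ i, i ≤ 16 → ∀ j, j ≤ 16 → combA.rk i = combA.rk j → i = j := by decide +kernel
    exact this
  rk_cmp := by
    have : ∀ i, i < 16 → ∀ j, j < 16 →
      (combA.rk i < combA.rk j ↔ (combA.sg i < combA.sg j ∨
        (combA.sg i = combA.sg j ∧ combA.rk (i + 1) < combA.rk (j + 1)))) := by decide +kernel
    exact this
  rk_last := by
    have : ∀ i, i < 16 → (combA.rk i < combA.rk 16 ↔ combA.sg i ≤ 0) := by decide +kernel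
    exact this
  surj := by
    have h : ∀ e, e ≤ 17 → ∃ j ∈ [0, 1, 2], ∃ e', e' ≤ 17 ∧ combA.de j e' = e := by
      decide +kernel
    intro e he
    obtain ⟨j, hj, e', he', h1⟩ := h e he
    refine ⟨j, ?_, e', he', h1⟩
    fin_cases hj <;> decide
  multi := good_multi combA (fun j hj e => good_A_neg j hj e) (fun j hj e => good_A_big j hj e)

theorem good_B : combB.Good where
  m_pos := by decide
  sg0 := by decide
  sg_le := by
    intro i
    by_cases hi : i < 16
    · interval_cases i <;> decide
    · have : combB.sg i = 0 := by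
        show List.getD _ i 0 = 0
        rw [List.getD_eq_default]
        simpa using hi
      rw [this]; decide
  rk_le := by
    intro i hi
    have hi' : i ≤ 16 := hi
    clear hi
    interval_cases i <;> decide
  rk_inj := by
    have : ∀ i, i ≤ 16 → ∀ j, j ≤ 16 → combB.rk i = combB.rk j → i = j := by decide +kernel
    exact this
  rk_cmp := by
    have : ∀ i, i < 16 → ∀ j, j < 16 →
      (combB.rk i < combB.rk j ↔ (combB.sg i < combB.sg j ∨
        (combB.sg i = combB.sg j ∧ combB.rk (i + 1) < combB.rk (j + 1)))) := by decide +kernel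
    exact this
  rk_last := by
    have : ∀ i, i < 16 → (combB.rk i < combB.rk 16 ↔ combB.sg i ≤ 0) := by decide +kernel
    exact this
  surj := by
    have h : ∀ e, e ≤ 17 → ∃ j ∈ [0, 1, 2], ∃ e', e' ≤ 17 ∧ combB.de j e' = e := by
      decide +kernel
    intro e he
    obtain ⟨j, hj, e', he', h1⟩ := h e he
    refine ⟨j, ?_, e', he', h1⟩
    fin_cases hj <;> decide
  multi := good_multi combB (fun j hj e => good_B_neg j hj e) (fun j hj e => good_B_big j hj e)

end PJ
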