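import Pool.Agent.Lib.H31J.CW
import Pool.Agent.Lib.H31J.Good

/-! # PJ part C, file CTab: tables of the transition functions -/

set_option autoImplicit false

namespace PJ

/-- rows `j = 0, 1, 2` of the transition function of `combA` -/
def tabA : List (List ℕ) :=
  [[9, 0, 0, 0, 0, 0, 0, 0, 0, 0, 1, 2, 3, 4, 5, 6, 7, 8],
   [15, 9, 9, 9, 10, 11, 12, 13, 14, 15, 15, 15, 15, 15, 15, 15, 15, 15],
   [17, 15, 16, 17, 17, 17, 17, 17, 17, 17, 17, 17, 17, 17, 17, 17, 17, 17]]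

/-- rows `j = 0, 1, 2` of the transition function of `combB` -/
def tabB : List (List ℕ) :=
  [[9, 9, 0, 0, 0, 0, 0, 0, 0, 0, 1, 2, 3, 4, 5, 6, 7, 8],
   [15, 15, 9, 9, 10, 11, 12, 13, 14, 15, 15, 15, 15, 15, 15, 15, 15, 15],
   [16, 17, 15, 16, 16, 16, 16, 16, 16, 16, 16, 16, 16, 16, 16, 16, 16, 16]]

/-- value of a table, letters `j < 0` give `0`, letters `j ≥ 3` give `17` -/
def tv (T : List (List ℕ)) (j : ℤ) (e : ℕ) : ℕ :=
  if j < 0 then 0 else if 3 ≤ j then 17 else (T.getD j.toNat []).getD e 0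

lemma ctab_A : ∀ e, e ≤ 17 → combA.de 0 e = tv tabA 0 e ∧ combA.de 1 e = tv tabA 1 e ∧
    combA.de 2 e = tv tabA 2 e := by decide +kernel

lemma ctab_B : ∀ e, e ≤ 17 → combB.de 0 e = tv tabB 0 e ∧ combB.de 1 e = tv tabB 1 e ∧
    combB.de 2 e = tv tabB 2 e := by decide +kernel

theorem deA (j : ℤ) (e : ℕ) (he : e ≤ 17) : combA.de j e = tv tabA j e := by
  obtain ⟨h0, h1, h2⟩ := ctab_A e he
  by_cases hn : j < 0
  · rw [good_A_neg j hn, tv, if_pos hn]
  by_cases hb : 3 ≤ j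
  · rw [good_A_big j hb, tv, if_neg hn, if_pos hb]
  have : j = 0 ∨ j = 1 ∨ j = 2 := by omega
  rcases this with rfl | rfl | rfl
  · exact h0
  · exact h1
  · exact h2

theorem deB (j : ℤ) (e : ℕ) (he : e ≤ 17) : combB.de j e = tv tabB j e := by
  obtain ⟨h0, h1, h2⟩ := ctab_B e he
  by_cases hn : j < 0
  · rw [good_B_neg j hn, tv, if_pos hn]
  by_cases hb : 3 ≤ j
  · rw [good_B_big j hb, tv, if_neg hn, if_pos hb]
  have : j = 0 ∨ j = 1 ∨ j = 2 := by omega
  rcases this with rfl | rfl | rfl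
  · exact h0
  · exact h1
  · exact h2

theorem deA_le (j : ℤ) (e : ℕ) : combA.de j e ≤ 17 := quot_de_le combA j e

theorem deB_le (j : ℤ) (e : ℕ) : combB.de j e ≤ 17 := quot_de_le combB j e

/-! ### composition along the centers, computed with the tables -/

/-- value of the word `seg (cen τ) i k`, computed with the table `T` -/
def twr (T : List (List ℕ)) (τ : Fin 3) : ℕ → ℕ → ℕ → ℕ
  | _, 0, e => e
  | i, k + 1, e => tv T (cen τ i) (twr T τ (i + 1) k e)

/-- `T` is the table of `C` -/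
structure TabOf (C : Comb) (T : List (List ℕ)) : Prop where
  eq : ∀ (j : ℤ) (e : ℕ), e ≤ 17 → C.de j e = tv T j e
  le : ∀ (j : ℤ) (e : ℕ), C.de j e ≤ 17

theorem tabOf_A : TabOf combA tabA := ⟨deA, deA_le⟩

theorem tabOf_B : TabOf combB tabB := ⟨deB, deB_le⟩

lemma TabOf.dw_le {C : Comb} {T : List (List ℕ)} (h : TabOf C T) (x : List ℤ) (e : ℕ)
    (he : e ≤ 17) : C.dw x e ≤ 17 := by
  cases x with
  | nil => exact he
  | cons j x => exact h.le _ _

lemma TabOf.dw_seg {C : Comb} {T : List (List ℕ)} (h : TabOf C T) (τ : Fin 3) (i k e : ℕ)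
    (he : e ≤ 17) : C.dw (seg (cen τ) i k) e = twr T τ i k e := by
  induction k generalizing i with
  | zero => simp [seg_zero, dw_nil, twr]
  | succ k ih =>
    rw [seg_succ, dw_cons, twr, ← ih, h.eq _ _ (h.dw_le _ _ he)]

lemma seg_cen_add (τ : Fin 3) (i q k : ℕ) : seg (cen τ) (i + 18 * q) k = seg (cen τ) i k := by
  unfold seg
  apply List.map_congr_left
  intro r _
  rw [show i + 18 * q + r = i + r + 18 * q by ring, cen_add]

lemma seg_cen_mod (τ : Fin 3) (i k : ℕ) : seg (cen τ) i k = seg (cen τ) (i % 18) k := by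
  conv_lhs => rw [← Nat.mod_add_div i 18]
  exact seg_cen_add τ _ _ _

lemma seg_cen_mul (τ : Fin 3) (i k : ℕ) : seg (cen τ) (18 * i) k = seg (cen τ) 0 k := by
  have := seg_cen_add τ 0 i k
  rwa [zero_add] at this

end PJ
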