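import Pool.Agent.Lib.H31J.CDefs

/-! # PJ part C, file CW: words and sequences, first deviations, arcs over words (elementary) -/

set_option autoImplicit false

namespace PJ

section seq
variable {α : Type}

@[simp] theorem consS_zero (a : α) (v : ℕ → α) : consS a v 0 = a := rfl

@[simp] theorem consS_succ (a : α) (v : ℕ → α) (n : ℕ) : consS a v (n + 1) = v n := rfl

theorem consS_sh (u : ℕ → α) : consS (u 0) (sh 1 u) = u := by
  funext n
  cases n with
  | zero => rfl
  | succ n => simp [sh, Nat.add_comm]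

theorem sh_consS (a : α) (v : ℕ → α) : sh 1 (consS a v) = v := by
  funext n
  simp [sh, Nat.add_comm 1 n]

theorem sh_zero (v : ℕ → α) : sh 0 v = v := by
  funext n
  simp [sh]

theorem sh_sh (a b : ℕ) (v : ℕ → α) : sh a (sh b v) = sh (b + a) v := by
  funext n
  simp [sh, Nat.add_assoc]

theorem pre_append (x y : List α) (v : ℕ → α) : pre (x ++ y) v = pre x (pre y v) := by
  induction x with
  | nil => rfl
  | cons a x ih => simp [pre, ih]

theorem sh_pre (x : List α) (v : ℕ → α) : sh x.length (pre x v) = v := by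
  induction x with
  | nil => simp [pre, sh_zero]
  | cons a x ih =>
    have h : sh (x.length + 1) (consS a (pre x v)) = sh x.length (pre x v) := by
      funext n
      have : x.length + 1 + n = (x.length + n) + 1 := by omega
      simp [sh, this]
    simp only [List.length_cons, pre, h, ih]

@[simp] theorem seg_length (v : ℕ → α) (i k : ℕ) : (seg v i k).length = k := by
  simp [seg]

theorem seg_zero (v : ℕ → α) (i : ℕ) : seg v i 0 = [] := by
  simp [seg]

theorem seg_add (v : ℕ → α) (i k l : ℕ) : seg v i (k + l) = seg v i k ++ seg v (i + k) l := by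
  simp only [seg, List.range_add, List.map_append, List.map_map]
  congr 1
  apply List.map_congr_left
  intro r _
  simp [Nat.add_assoc]

theorem seg_succ (v : ℕ → α) (i k : ℕ) : seg v i (k + 1) = v i :: seg v (i + 1) k := by
  rw [Nat.add_comm, seg_add]
  simp [seg]

theorem seg_succ' (v : ℕ → α) (i k : ℕ) : seg v i (k + 1) = seg v i k ++ [v (i + k)] := by
  rw [seg_add]
  simp [seg]

theorem seg_sh (v : ℕ → α) (n i k : ℕ) : seg (sh n v) i k = seg v (n + i) k := by
  simp [seg, sh, Nat.add_assoc]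

theorem pre_seg (v : ℕ → α) (n : ℕ) : pre (seg v 0 n) (sh n v) = v := by
  induction n generalizing v with
  | zero => simp [seg_zero, pre, sh_zero]
  | succ n ih =>
    rw [seg_succ]
    have h1 : seg v (0 + 1) n = seg (sh 1 v) 0 n := by rw [seg_sh]
    have h2 : sh (n + 1) v = sh n (sh 1 v) := by rw [sh_sh, Nat.add_comm]
    rw [h1, h2]
    simp only [pre]
    rw [ih, consS_sh]

theorem seg_pre (x : List α) (v : ℕ → α) : seg (pre x v) 0 x.length = x := by
  induction x with
  | nil => simp [seg_zero]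
  | cons a x ih =>
    simp only [List.length_cons]
    rw [seg_succ]
    have h1 : seg (pre (a :: x) v) (0 + 1) x.length = seg (sh 1 (pre (a :: x) v)) 0 x.length := by
      rw [seg_sh]
    rw [h1]
    simp only [pre, sh_consS, ih, consS_zero]

theorem agree_iff_seg (n : ℕ) (v w : ℕ → α) : Agree n v w ↔ seg v 0 n = seg w 0 n := by
  simp [Agree, seg]

theorem Agree.symm {n : ℕ} {v w : ℕ → α} (h : Agree n v w) : Agree n w v :=
  fun k hk => (h k hk).symm

theorem Agree.trans {n : ℕ} {v w z : ℕ → α} (h : Agree n v w) (h' : Agree n w z) : Agree n v z :=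
  fun k hk => (h k hk).trans (h' k hk)

theorem Agree.mono {n k : ℕ} {v w : ℕ → α} (h : Agree n v w) (hk : k ≤ n) : Agree k v w :=
  fun i hi => h i (lt_of_lt_of_le hi hk)

theorem agree_pre (x : List α) (v w : ℕ → α) : Agree x.length (pre x v) (pre x w) := by
  rw [agree_iff_seg, seg_pre, seg_pre]

theorem agree_consS {n : ℕ} {v w : ℕ → α} (a : α) (h : Agree n v w) :
    Agree (n + 1) (consS a v) (consS a w) := by
  intro k hk
  cases k with
  | zero => rfl
  | succ k => exact h k (by omega)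

theorem agree_sh {n k : ℕ} {v w : ℕ → α} (h : Agree (n + k) v w) : Agree k (sh n v) (sh n w) := by
  intro i hi
  exact h (n + i) (by omega)

theorem agree_pre_add {k : ℕ} (x : List α) {v w : ℕ → α} (h : Agree k v w) :
    Agree (x.length + k) (pre x v) (pre x w) := by
  induction x with
  | nil => simpa [pre] using h
  | cons a x ih =>
    have h2 := agree_consS a ih
    have e : (a :: x).length + k = x.length + k + 1 := by simp; omega
    rw [e]
    exact h2

/-- if `w` begins with the word `x` then `w = pre x (sh x.length w)` -/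
theorem eq_pre_of_agree (x : List α) (v w : ℕ → α) (h : Agree x.length (pre x v) w) :
    w = pre x (sh x.length w) := by
  have h1 := pre_seg w x.length
  rw [agree_iff_seg, seg_pre] at h
  rw [← h] at h1
  exact h1.symm

theorem pre_inj {x : List α} {v w : ℕ → α} (h : pre x v = pre x w) : v = w := by
  rw [← sh_pre x v, h, sh_pre]

end seq

/-! ### centers and deviations -/

theorem cen_add (τ : Fin 3) (n q : ℕ) : cen τ (n + 18 * q) = cen τ n := by
  have h2 : (n + 18 * q) % 2 = n % 2 := by omega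
  have h6 : (n + 18 * q) % 6 = n % 6 := by omega
  simp [cen, h2, h6]

theorem cen_nonneg (τ : Fin 3) (n : ℕ) : 0 ≤ cen τ n := by
  unfold cen; split_ifs <;> norm_num

theorem cen_le (τ : Fin 3) (n : ℕ) : cen τ n ≤ 2 := by
  unfold cen; split_ifs <;> norm_num

@[simp] theorem blk_length (τ : Fin 3) (a : ℕ × ℤ) : (blk τ a).length = a.1 + 1 := by
  simp [blk]

theorem dv_lt (τ : Fin 3) (v : ℕ → ℤ) (h : v ≠ cen τ) (k : ℕ) (hk : k < (dv τ v h).1.1) :
    v k = cen τ k := by
  by_contra hne
  exact absurd hk (not_lt.2 (@Nat.find_min' _ (Classical.decPred _) (Function.ne_iff.1 h) k hne))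

theorem dv_snd (τ : Fin 3) (v : ℕ → ℤ) (h : v ≠ cen τ) : (dv τ v h).1.2 = v (dv τ v h).1.1 := rfl

theorem dv_eq (τ : Fin 3) (v : ℕ → ℤ) (h : v ≠ cen τ) (a : Dv τ)
    (h1 : ∀ k, k < a.1.1 → v k = cen τ k) (h2 : v a.1.1 = a.1.2) : dv τ v h = a := by
  have h3 : (dv τ v h).1.1 = a.1.1 := by
    rcases lt_trichotomy (dv τ v h).1.1 a.1.1 with hlt | heq | hgt
    · exact absurd (h1 _ hlt) (by
        have := (dv τ v h).2
        rw [dv_snd] at this
        exact this)
    · exact heq
    · exact absurd (dv_lt τ v h _ hgt) (by rw [h2]; exact a.2)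
  apply Subtype.ext
  apply Prod.ext
  · exact h3
  · rw [dv_snd, h3, h2]

theorem pre_blk_lt (τ : Fin 3) (a : ℕ × ℤ) (w : ℕ → ℤ) (k : ℕ) (hk : k < a.1) :
    pre (blk τ a) w k = cen τ k := by
  have h1 : Agree a.1 (pre (seg (cen τ) 0 a.1) (sh a.1 (cen τ))) (pre (seg (cen τ) 0 a.1)
      (pre [a.2] w)) := by
    have := agree_pre (seg (cen τ) 0 a.1) (sh a.1 (cen τ)) (pre [a.2] w)
    simpa using this
  have h2 := h1 k hk
  rw [pre_seg] at h2
  rw [blk, pre_append]
  exact h2.symm

theorem pre_blk_eq (τ : Fin 3) (a : ℕ × ℤ) (w : ℕ → ℤ) : pre (blk τ a) w a.1 = a.2 := by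
  have h1 := congrFun (sh_pre (seg (cen τ) 0 a.1) (pre [a.2] w)) 0
  rw [← pre_append, seg_length] at h1
  simpa [sh, pre, blk] using h1

theorem pre_blk_ne (τ : Fin 3) (a : Dv τ) (w : ℕ → ℤ) : pre (blk τ a.1) w ≠ cen τ := by
  intro h
  have h1 := pre_blk_eq τ a.1 w
  rw [h] at h1
  exact a.2 h1.symm

theorem dv_pre_blk (τ : Fin 3) (a : Dv τ) (w : ℕ → ℤ) (h : pre (blk τ a.1) w ≠ cen τ) :
    dv τ (pre (blk τ a.1) w) h = a :=
  dv_eq τ _ h a (fun k hk => pre_blk_lt τ a.1 w k hk) (pre_blk_eq τ a.1 w)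

theorem pre_blk_dv (τ : Fin 3) (v : ℕ → ℤ) (h : v ≠ cen τ) :
    pre (blk τ (dv τ v h).1) (sh ((dv τ v h).1.1 + 1) v) = v := by
  have h1 : blk τ (dv τ v h).1 = seg v 0 ((dv τ v h).1.1 + 1) := by
    rw [seg_succ', blk]
    congr 1
    · have : Agree (dv τ v h).1.1 (cen τ) v := fun k hk => (dv_lt τ v h k hk).symm
      exact (agree_iff_seg _ _ _).1 this
    · rw [dv_snd]; simp
  rw [h1, pre_seg]

/-- agreement with `v` up to the first deviation of `v` gives the same first deviation -/
theorem dv_agree (τ : Fin 3) (v w : ℕ → ℤ) (h : v ≠ cen τ)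
    (hw : Agree ((dv τ v h).1.1 + 1) v w) : ∃ h' : w ≠ cen τ, dv τ w h' = dv τ v h := by
  have h1 : w (dv τ v h).1.1 = (dv τ v h).1.2 := by
    rw [dv_snd]
    exact (hw _ (Nat.lt_succ_self _)).symm
  have h' : w ≠ cen τ := by
    intro h0
    rw [h0] at h1
    exact (dv τ v h).2 h1.symm
  refine ⟨h', dv_eq τ w h' _ (fun k hk => ?_) h1⟩
  rw [← dv_lt τ v h k hk]
  exact (hw k (by omega)).symm

/-! ### arcs -/

section arcs
variable {C : Comb}

theorem dw_nil (C : Comb) (e : ℕ) : C.dw [] e = e := rfl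

theorem dw_cons (C : Comb) (j : ℤ) (x : List ℤ) (e : ℕ) : C.dw (j :: x) e = C.de j (C.dw x e) := rfl

theorem dw_append (C : Comb) (x y : List ℤ) (e : ℕ) : C.dw (x ++ y) e = C.dw x (C.dw y e) := by
  simp [Comb.dw]

theorem dw_le (hC : C.Sym) (x : List ℤ) (e : ℕ) (he : e ≤ 17) : C.dw x e ≤ 17 := by
  cases x with
  | nil => exact he
  | cons j x => exact hC.de_le _ _

theorem mem_X {u : ℕ → ℤ} {e : ℕ → ℕ} : (u, e) ∈ C.X ↔ ∀ n, e n = C.de (u n) (e (n + 1)) := Iff.rfl

theorem X_sh {u : ℕ → ℤ} {e : ℕ → ℕ} (h : (u, e) ∈ C.X) (n : ℕ) : (sh n u, sh n e) ∈ C.X := by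
  intro k
  have := h (n + k)
  simpa [sh, Nat.add_assoc] using this

theorem X_dw {u : ℕ → ℤ} {e : ℕ → ℕ} (h : (u, e) ∈ C.X) (i k : ℕ) :
    e i = C.dw (seg u i k) (e (i + k)) := by
  induction k with
  | zero => simp [seg_zero, dw_nil]
  | succ k ih =>
    rw [seg_succ', dw_append, dw_cons, dw_nil]
    have := h (i + k)
    rw [ih]
    congr 1

theorem X_le (hC : C.Sym) {u : ℕ → ℤ} {e : ℕ → ℕ} (h : (u, e) ∈ C.X) (n : ℕ) : e n ≤ 17 := by
  have := h n
  simp only at this
  rw [this]
  exact hC.de_le _ _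

theorem X_consS {v : ℕ → ℤ} {f : ℕ → ℕ} (a : ℤ) (b : ℕ) :
    (consS a v, consS b f) ∈ C.X ↔ b = C.de a (f 0) ∧ (v, f) ∈ C.X := by
  constructor
  · intro h
    refine ⟨h 0, fun n => ?_⟩
    exact h (n + 1)
  · rintro ⟨h0, h⟩ n
    cases n with
    | zero => exact h0
    | succ n => exact h n

theorem pe_zero (C : Comb) (w : List ℤ) (f : ℕ → ℕ) : C.pe w f 0 = C.dw w (f 0) := by
  cases w with
  | nil => rfl
  | cons a w => rfl

theorem pe_mem {v : ℕ → ℤ} {f : ℕ → ℕ} (h : (v, f) ∈ C.X) (w : List ℤ) :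
    (pre w v, C.pe w f) ∈ C.X := by
  induction w with
  | nil => exact h
  | cons a w ih =>
    refine (X_consS a _).2 ⟨?_, ih⟩
    rw [pe_zero, dw_cons]

theorem sh_pe (C : Comb) (w : List ℤ) (f : ℕ → ℕ) : sh w.length (C.pe w f) = f := by
  induction w with
  | nil => simp [Comb.pe, sh_zero]
  | cons a w ih =>
    have h : sh (w.length + 1) (consS (C.dw (a :: w) (f 0)) (C.pe w f)) = sh w.length (C.pe w f) := by
      funext n
      have : w.length + 1 + n = (w.length + n) + 1 := by omega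
      simp [sh, this]
    simp only [List.length_cons, Comb.pe, h, ih]

theorem pe_eq {v : ℕ → ℤ} {e : ℕ → ℕ} {w : List ℤ} (h : (pre w v, e) ∈ C.X) :
    e = C.pe w (sh w.length e) := by
  induction w generalizing e with
  | nil => simp [Comb.pe, sh_zero]
  | cons a w ih =>
    have h1 : e = consS (e 0) (sh 1 e) := (consS_sh e).symm
    rw [h1] at h
    have h2 := (X_consS a _).1 h
    have h3 := ih h2.2
    have h4 : sh w.length (sh 1 e) = sh (a :: w).length e := by
      rw [sh_sh]; simp [Nat.add_comm]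
    rw [h4] at h3
    conv_lhs => rw [h1]
    simp only [Comb.pe]
    rw [← h3]
    congr 1
    have h5 := X_dw h 0 (w.length + 1)
    have h6 : seg (consS a (pre w v)) 0 (w.length + 1) = a :: w := by
      have := seg_pre (a :: w) v
      simpa [pre] using this
    rw [← h1] at h5
    have h7 : seg (pre (a :: w) v) 0 (w.length + 1) = a :: w := h6
    rw [h7] at h5
    simpa [sh] using h5

theorem pe_agree (C : Comb) (w : List ℤ) (f g : ℕ → ℕ) (k : ℕ) (hk : 1 ≤ k) (h : Agree k f g) :
    Agree (w.length + k) (C.pe w f) (C.pe w g) := by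
  induction w with
  | nil => simpa [Comb.pe] using h
  | cons a w ih =>
    have h0 : f 0 = g 0 := h 0 (by omega)
    have e : (a :: w).length + k = w.length + k + 1 := by simp; omega
    rw [e]
    simp only [Comb.pe]
    rw [h0]
    exact agree_consS _ ih

end arcs

end PJ
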