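import Pool.Agent.Lib.H31J.CP

/-! # PJ part C, file CY: smallest potentials of sequences -/

set_option autoImplicit false

namespace PJ

open Filter Topology

theorem Ltr_mono (v : ℕ → ℤ) : Monotone fun n => Lw (seg v 0 n) 0 := by
  refine monotone_nat_of_le_succ fun n => ?_
  show Lw (seg v 0 n) 0 ≤ Lw (seg v 0 (n + 1)) 0
  rw [seg_succ', Lw_append]
  exact Lw_mono _ _ _ le_rfl (Lw_nonneg _ _ le_rfl)

theorem Y_nonneg (v : ℕ → ℤ) : 0 ≤ Y v :=
  Real.iSup_nonneg fun _ => Lw_nonneg _ _ le_rfl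

theorem le_Y (v : ℕ → ℤ) (h : Ad v) (n : ℕ) : Lw (seg v 0 n) 0 ≤ Y v :=
  le_ciSup h n

theorem tendsto_Y (v : ℕ → ℤ) (h : Ad v) : Tendsto (fun n => Lw (seg v 0 n) 0) atTop (𝓝 (Y v)) :=
  tendsto_atTop_ciSup (Ltr_mono v) h

theorem seg_pre_add (x : List ℤ) (v : ℕ → ℤ) (n : ℕ) :
    seg (pre x v) 0 (x.length + n) = x ++ seg v 0 n := by
  have h1 : seg (pre x v) (0 + x.length) n = seg v 0 n := by
    have h2 := seg_sh (pre x v) x.length 0 n
    rw [sh_pre] at h2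
    rw [h2, Nat.add_comm]
  rw [seg_add, seg_pre, h1]

theorem Ad_iff (v : ℕ → ℤ) : Ad v ↔ ∃ B, 0 ≤ B ∧ ∀ n, Lw (seg v 0 n) 0 ≤ B := by
  constructor
  · intro h
    exact ⟨Y v, Y_nonneg v, le_Y v h⟩
  · rintro ⟨B, -, h⟩
    exact ⟨B, by rintro _ ⟨n, rfl⟩; exact h n⟩

theorem Ad_pre (x : List ℤ) (v : ℕ → ℤ) : Ad (pre x v) ↔ Ad v := by
  rw [Ad_iff, Ad_iff]
  constructor
  · rintro ⟨B, hB, h⟩
    obtain ⟨R, hR⟩ := ((Lw_atTop x).eventually_gt_atTop B).and (eventually_ge_atTop 0) |>.exists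
    refine ⟨R, hR.2, fun n => ?_⟩
    by_contra hlt
    push Not at hlt
    have h1 := h (x.length + n)
    rw [seg_pre_add, Lw_append] at h1
    have h2 := Lw_mono x R (Lw (seg v 0 n) 0) hR.2 hlt.le
    linarith [hR.1]
  · rintro ⟨B, hB, h⟩
    refine ⟨Lw x B, Lw_nonneg x B hB, fun n => ?_⟩
    have h1 := Ltr_mono (pre x v) (show n ≤ x.length + n by omega)
    simp only at h1
    refine h1.trans ?_
    rw [seg_pre_add, Lw_append]
    exact Lw_mono x _ _ (Lw_nonneg _ _ le_rfl) (h n)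

theorem Y_pre (x : List ℤ) (v : ℕ → ℤ) (h : Ad v) : Y (pre x v) = Lw x (Y v) := by
  have h1 := tendsto_Y (pre x v) ((Ad_pre x v).2 h)
  have h2 : Tendsto (fun n => Lw (seg (pre x v) 0 (x.length + n)) 0) atTop (𝓝 (Y (pre x v))) :=
    h1.comp (tendsto_atTop_mono (fun n => by simp : ∀ n : ℕ, n ≤ x.length + n) tendsto_id)
  have h3 : Tendsto (fun n => Lw x (Lw (seg v 0 n) 0)) atTop (𝓝 (Lw x (Y v))) := by
    have hc := (Lw_cont x) (Y v) (Y_nonneg v)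
    refine Tendsto.comp hc ?_
    refine tendsto_nhdsWithin_iff.2 ⟨tendsto_Y v h, Eventually.of_forall fun n => ?_⟩
    exact Lw_nonneg _ _ le_rfl
  refine tendsto_nhds_unique h2 (h3.congr fun n => ?_)
  rw [seg_pre_add, Lw_append]

theorem mu_pre (x : List ℤ) (v : ℕ → ℤ) (h : Ad v) : mu (pre x v) = mw x (Y v) := by
  rw [mu, mw, Y_pre x v h]

theorem mw_seg_le_mu (v : ℕ → ℤ) (h : Ad v) (n : ℕ) : mw (seg v 0 n) 0 ≤ mu v := by
  have h1 := Lw_nonneg (seg v 0 n) 0 le_rfl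
  have h2 := le_Y v h n
  exact Real.log_le_log (by linarith) (by linarith)

theorem tendsto_mu (v : ℕ → ℤ) (h : Ad v) : Tendsto (fun n => mw (seg v 0 n) 0) atTop (𝓝 (mu v)) := by
  have h1 := Y_nonneg v
  have h2 : Tendsto (fun n => 1 + Lw (seg v 0 n) 0) atTop (𝓝 (1 + Y v)) :=
    (tendsto_Y v h).const_add 1
  exact h2.log (by linarith)

theorem mu_le (v : ℕ → ℤ) (t : ℝ) (h : ∀ n, mw (seg v 0 n) 0 ≤ t) : Ad v ∧ mu v ≤ t := by
  have h1 : Ad v := by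
    refine (Ad_iff v).2 ⟨Real.exp t, (Real.exp_pos t).le, fun n => ?_⟩
    have h2 := h n
    have h3 := Lw_nonneg (seg v 0 n) 0 le_rfl
    rw [mw, Real.log_le_iff_le_exp (by linarith)] at h2
    linarith
  exact ⟨h1, le_of_tendsto' (tendsto_mu v h1) h⟩

theorem log17 : Real.log 17 ≤ 3 := by
  rw [Real.log_le_iff_le_exp (by norm_num)]
  have h1 : (2.7 : ℝ) ≤ Real.exp 1 := by
    have := Real.exp_one_gt_d9
    linarith
  have h2 : Real.exp 3 = Real.exp 1 ^ 3 := by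
    rw [← Real.exp_nat_mul]; norm_num
  rw [h2]
  have h3 : (2.7 : ℝ) ^ 3 ≤ Real.exp 1 ^ 3 := pow_le_pow_left₀ (by norm_num) h1 3
  refine le_trans ?_ h3
  norm_num

theorem Ad_of_bdd (v : ℕ → ℤ) (h : ∀ n, |v n| ≤ 2) : Ad v ∧ Y v ≤ 16 := by
  have key : ∀ (n : ℕ) (v : ℕ → ℤ), (∀ n, |v n| ≤ 2) → Lw (seg v 0 n) 0 ≤ 16 := by
    intro n
    induction n with
    | zero => intro v _; simp [seg_zero, Lw]
    | succ n ih =>
      intro v hv
      rw [seg_succ, Lw_cons_eq]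
      have h1 : seg v (0 + 1) n = seg (sh 1 v) 0 n := by rw [seg_sh]
      rw [h1]
      have h2 := ih (sh 1 v) (fun k => hv (1 + k))
      have h3 := Lw_nonneg (seg (sh 1 v) 0 n) 0 le_rfl
      have h4 : mw (seg (sh 1 v) 0 n) 0 ≤ Real.log 17 :=
        Real.log_le_log (by linarith) (by linarith)
      have h5 : |((v 0 : ℤ) : ℝ)| ≤ 2 := by
        have := hv 0
        exact_mod_cast this
      have h6 := Real.pi_lt_d2
      have h7 := Real.pi_pos
      have h8 := log17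
      nlinarith [abs_nonneg ((v 0 : ℤ) : ℝ)]
  have h1 : Ad v := (Ad_iff v).2 ⟨16, by norm_num, fun n => key n v h⟩
  exact ⟨h1, le_of_tendsto' (tendsto_Y v h1) fun n => key n v h⟩

end PJ
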