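import Pool.Agent.Lib.H31J.Defs

/-!
# Project PJ, part D (planar inequivalence): definitions and elementary facts

Everything of part D lives in the namespace `PJ.D`.
-/

set_option autoImplicit false

namespace PJ
namespace D

open Filter Topology

/-- The end `s → ∞` of `f` lies below the end `t → ∞` of `g`. -/
def Blw (f g : ℝ → ℂ) : Prop :=
  ∃ κ : ℝ, 0 < κ ∧ ∃ S : ℝ, ∀ s, S ≤ s → ∀ t, S ≤ t →
    (f s - g t).im < κ * |(f s - g t).re|

/-- The address of the arm `e` over the itinerary `u`. -/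
def adr (C : Comb) (u : ℕ → ℤ) (e : ℕ → ℕ) (n : ℕ) : ℤ := C.x (u n) (e (n + 1))

/-- Lexicographic order of the addresses. -/
def LexLt (C : Comb) (u : ℕ → ℤ) (e : ℕ → ℕ) (u' : ℕ → ℤ) (e' : ℕ → ℕ) : Prop :=
  ∃ n, (∀ i, i < n → adr C u e i = adr C u' e' i) ∧ adr C u e n < adr C u' e' n

/-- The component of the Julia set with itinerary `u`. -/
def Star (C : Comb) (G : Pt → ℂ) (u : ℕ → ℤ) : Set ℂ :=
  {z | ∃ (e : ℕ → ℕ) (t : ℝ), (u, e, t) ∈ C.LL ∧ G (u, e, t) = z}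

/-! ### The potentials -/

theorem Tn_mono (u : ℕ → ℤ) {s t : ℝ} (h : s ≤ t) (n : ℕ) : Tn u s n ≤ Tn u t n := by
  induction n with
  | zero => exact h
  | succ n ih =>
    simp only [Tn]
    have := Real.exp_le_exp.2 ih
    linarith

theorem Tn_strict (u : ℕ → ℤ) {s t : ℝ} (h : s < t) (n : ℕ) : Tn u s n < Tn u t n := by
  induction n with
  | zero => exact h
  | succ n ih =>
    simp only [Tn]
    have := Real.exp_lt_exp.2 ih
    linarith

theorem Tn_shift (u : ℕ → ℤ) (t : ℝ) (n : ℕ) :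
    Tn (fun k => u (k + 1)) (Tn u t 1) n = Tn u t (n + 1) := by
  induction n with
  | zero => rfl
  | succ n ih =>
    rw [Tn, ih]
    conv_rhs => rw [Tn]

theorem Tn_continuous (n : ℕ) : Continuous (fun p : (ℕ → ℤ) × ℝ => Tn p.1 p.2 n) := by
  induction n with
  | zero => exact continuous_snd
  | succ n ih =>
    have h1 : Continuous (fun p : (ℕ → ℤ) × ℝ => ((p.1 (n + 1) : ℤ) : ℝ)) :=
      continuous_of_discreteTopology.comp ((continuous_apply (n + 1)).comp continuous_fst)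
    have : (fun p : (ℕ → ℤ) × ℝ => Tn p.1 p.2 (n + 1)) =
        fun p => Real.exp (Tn p.1 p.2 n) - 1 - 2 * Real.pi * |((p.1 (n + 1) : ℤ) : ℝ)| := by
      funext p; rfl
    rw [this]
    fun_prop

theorem Tn_tendsto (u : ℕ → ℤ) (n : ℕ) : Tendsto (fun s => Tn u s n) atTop atTop := by
  induction n with
  | zero => exact tendsto_id
  | succ n ih =>
    have h : Tendsto (fun s => Real.exp (Tn u s n) + (- 1 - 2 * Real.pi * |(u (n + 1) : ℝ)|))
        atTop atTop := tendsto_atTop_add_const_right _ _ (Real.tendsto_exp_atTop.comp ih)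
    refine h.congr fun s => ?_
    simp only [Tn]
    ring

/-! ### The model space -/

theorem de_le (C : Comb) (j : ℤ) (e : ℕ) : C.de j e ≤ C.m + 1 := by
  unfold Comb.de
  exact (Finset.card_filter_le _ _).trans (by simp)

theorem LL_iff {C : Comb} {u : ℕ → ℤ} {e : ℕ → ℕ} {t : ℝ} :
    (u, e, t) ∈ C.LL ↔ (∀ n, 0 ≤ Tn u t n) ∧ (u, e) ∈ C.X := by
  constructor
  · intro h
    exact ⟨fun n => (h n).1, fun n => (h n).2⟩
  · rintro ⟨h1, h2⟩ n
    exact ⟨h1 n, h2 n⟩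

theorem LL_up {C : Comb} {u : ℕ → ℤ} {e : ℕ → ℕ} {s t : ℝ} (h : (u, e, s) ∈ C.LL)
    (hst : s ≤ t) : (u, e, t) ∈ C.LL := by
  rw [LL_iff] at h ⊢
  exact ⟨fun n => (h.1 n).trans (Tn_mono u hst n), h.2⟩

theorem LL_arm {C : Comb} {u : ℕ → ℤ} {e e' : ℕ → ℕ} {t : ℝ} (h : (u, e, t) ∈ C.LL)
    (he : (u, e') ∈ C.X) : (u, e', t) ∈ C.LL := by
  rw [LL_iff] at h ⊢
  exact ⟨h.1, he⟩

theorem shift_mem {C : Comb} {p : Pt} (h : p ∈ C.LL) : shiftPt p ∈ C.LL := by
  intro n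
  have h1 : Tn (shiftPt p).1 (shiftPt p).2.2 n = Tn p.1 p.2.2 (n + 1) := Tn_shift _ _ _
  rw [h1]
  exact ⟨(h (n + 1)).1, (h (n + 1)).2⟩

theorem shift_def (u : ℕ → ℤ) (e : ℕ → ℕ) (t : ℝ) :
    shiftPt (u, e, t) = (fun n => u (n + 1), fun n => e (n + 1), Tn u t 1) := rfl

theorem LL_nonneg {C : Comb} {p : Pt} (h : p ∈ C.LL) : 0 ≤ p.2.2 := (h 0).1

theorem LL_closed (C : Comb) : IsClosed C.LL := by
  have : C.LL = ⋂ n : ℕ, ({p : Pt | 0 ≤ Tn p.1 p.2.2 n} ∩
      {p : Pt | p.2.1 n = C.de (p.1 n) (p.2.1 (n + 1))}) := by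
    ext p
    simp only [Comb.LL, Set.mem_ofPred_eq, Set.mem_iInter, Set.mem_inter_iff]
  rw [this]
  refine isClosed_iInter fun n => IsClosed.inter ?_ ?_
  · refine isClosed_le continuous_const ?_
    exact (Tn_continuous n).comp (continuous_fst.prodMk continuous_snd.snd)
  · have hf : Continuous (fun p : Pt => (p.2.1 n, (p.1 n, p.2.1 (n + 1)))) := by fun_prop
    have hd : IsClosed {q : ℕ × (ℤ × ℕ) | q.1 = C.de q.2.1 q.2.2} := isClosed_discrete _
    exact hd.preimage hf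

/-- arms are determined by infinitely many of their entries -/
theorem X_ext {C : Comb} {u : ℕ → ℤ} {e e' : ℕ → ℕ} (h : (u, e) ∈ C.X) (h' : (u, e') ∈ C.X)
    (hi : ∀ N, ∃ n, N ≤ n ∧ e n = e' n) : e = e' := by
  have key : ∀ d n, e (n + d) = e' (n + d) → e n = e' n := by
    intro d
    induction d with
    | zero => intro n hn; exact hn
    | succ d ih =>
      intro n hn
      apply ih
      have h1 := h (n + d)
      have h2 := h' (n + d)
      simp only at h1 h2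
      rw [h1, h2, show n + d + 1 = n + (d + 1) from rfl, hn]
  funext n
  obtain ⟨k, hk, hk'⟩ := hi n
  obtain ⟨d, rfl⟩ := Nat.exists_eq_add_of_le hk
  exact key d n hk'

theorem X_down {C : Comb} {u : ℕ → ℤ} {e e' : ℕ → ℕ} (h : (u, e) ∈ C.X) (h' : (u, e') ∈ C.X)
    {n k : ℕ} (hk : n ≤ k) (hi : e k = e' k) : e n = e' n := by
  obtain ⟨d, rfl⟩ := Nat.exists_eq_add_of_le hk
  clear hk
  induction d with
  | zero => exact hi
  | succ d ih =>
    apply ih
    have h1 := h (n + d)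
    have h2 := h' (n + d)
    simp only at h1 h2
    rw [h1, h2, show n + d + 1 = n + (d + 1) from rfl, hi]

/-! ### End points -/

/-- The minimal potential over an admissible itinerary. -/
theorem exists_end {u : ℕ → ℤ} {t : ℝ} (h : ∀ n, 0 ≤ Tn u t n) :
    ∃ μ : ℝ, μ ≤ t ∧ IsEnd u μ ∧ ∀ s, (∀ n, 0 ≤ Tn u s n) ↔ μ ≤ s := by
  set A : Set ℝ := {s | ∀ n, 0 ≤ Tn u s n} with hA
  have hne : A.Nonempty := ⟨t, h⟩
  have hbd : BddBelow A := ⟨0, fun s hs => hs 0⟩
  have hcl : IsClosed A := by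
    have : A = ⋂ n : ℕ, {s : ℝ | 0 ≤ Tn u s n} := by
      ext s; simp [hA]
    rw [this]
    refine isClosed_iInter fun n => isClosed_le continuous_const ?_
    exact (Tn_continuous n).comp (continuous_const.prodMk continuous_id)
  have hmem : sInf A ∈ A := hcl.csInf_mem hne hbd
  refine ⟨sInf A, csInf_le hbd h, ?_, ?_⟩
  · intro s hs
    by_contra hcon
    push Not at hcon
    exact absurd (csInf_le hbd (show s ∈ A from hcon)) (not_le.2 hs)
  · intro s
    exact ⟨fun hs => csInf_le hbd hs, fun hs n => (hmem n).trans (Tn_mono u hs n)⟩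

theorem isEnd_unique {u : ℕ → ℤ} {s t : ℝ} (hs : ∀ n, 0 ≤ Tn u s n) (ht : ∀ n, 0 ≤ Tn u t n)
    (h1 : IsEnd u s) (h2 : IsEnd u t) : s = t := by
  rcases lt_trichotomy s t with h | h | h
  · obtain ⟨n, hn⟩ := h2 s h
    exact absurd (hs n) (not_le.2 hn)
  · exact h
  · obtain ⟨n, hn⟩ := h1 t h
    exact absurd (ht n) (not_le.2 hn)

theorem not_isEnd_of_lt {u : ℕ → ℤ} {s t : ℝ} (hs : ∀ n, 0 ≤ Tn u s n) (h : s < t) :
    ¬ IsEnd u t := by
  intro h2
  obtain ⟨n, hn⟩ := h2 s h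
  exact absurd (hs n) (not_le.2 hn)

/-- All potentials at least `3` are admissible for itineraries with small letters. -/
theorem LL_small {C : Comb} {u : ℕ → ℤ} {e : ℕ → ℕ} {t : ℝ} (hu : ∀ i, |u i| ≤ 2)
    (he : (u, e) ∈ C.X) (ht : 3 ≤ t) : (u, e, t) ∈ C.LL := by
  rw [LL_iff]
  refine ⟨?_, he⟩
  have key : ∀ n, 3 ≤ Tn u t n := by
    intro n
    induction n with
    | zero => exact ht
    | succ n ih =>
      simp only [Tn]
      have h1 : Real.exp 3 ≤ Real.exp (Tn u t n) := Real.exp_le_exp.2 ih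
      have h2 : (17 : ℝ) ≤ Real.exp 3 := by
        have h3 : (2.7 : ℝ) ≤ Real.exp 1 := by linarith [Real.exp_one_gt_d9]
        have h4 : Real.exp 3 = Real.exp 1 ^ 3 := by rw [← Real.exp_nat_mul]; norm_num
        rw [h4]
        calc (17 : ℝ) ≤ 2.7 ^ 3 := by norm_num
          _ ≤ _ := by gcongr
      have h5 : |(u (n + 1) : ℝ)| ≤ 2 := by
        have := hu (n + 1)
        exact_mod_cast this
      have h6 : Real.pi < 3.15 := Real.pi_lt_d2
      have h7 : 2 * Real.pi * |(u (n + 1) : ℝ)| ≤ 2 * 3.15 * 2 := by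
        gcongr
      have h8 : (20 : ℝ) ≤ Real.exp 3 := by
        have h3 : (2.718 : ℝ) ≤ Real.exp 1 := by linarith [Real.exp_one_gt_d9]
        have h4 : Real.exp 3 = Real.exp 1 ^ 3 := by rw [← Real.exp_nat_mul]; norm_num
        rw [h4]
        calc (20 : ℝ) ≤ 2.718 ^ 3 := by norm_num
          _ ≤ _ := by gcongr
      linarith
  intro n
  linarith [key n]

/-- pointwise stabilisation gives convergence in the model -/
theorem pt_tendsto {u : ℕ → ℕ → ℤ} {e : ℕ → ℕ → ℕ} {U : ℕ → ℤ} {E : ℕ → ℕ} {s : ℝ}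
    (hu : ∀ i, ∀ᶠ n in atTop, u n i = U i) (he : ∀ i, ∀ᶠ n in atTop, e n i = E i) :
    Tendsto (fun n => ((u n, e n, s) : Pt)) atTop (𝓝 (U, E, s)) := by
  have h1 : Tendsto u atTop (𝓝 U) := by
    rw [tendsto_pi_nhds]
    intro i
    exact tendsto_nhds_of_eventually_eq (hu i)
  have h2 : Tendsto e atTop (𝓝 E) := by
    rw [tendsto_pi_nhds]
    intro i
    exact tendsto_nhds_of_eventually_eq (he i)
  exact h1.prodMk_nhds (h2.prodMk_nhds tendsto_const_nhds)

theorem itin_ev {p : ℕ → Pt} {q : Pt} (h : Tendsto p atTop (𝓝 q)) (i : ℕ) :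
    ∀ᶠ n in atTop, (p n).1 i = q.1 i := by
  have h1 : Tendsto (fun n => (p n).1 i) atTop (𝓝 (q.1 i)) :=
    (((continuous_apply i).comp continuous_fst).tendsto q).comp h
  rw [nhds_discrete, tendsto_pure] at h1
  exact h1

theorem arm_ev {p : ℕ → Pt} {q : Pt} (h : Tendsto p atTop (𝓝 q)) (i : ℕ) :
    ∀ᶠ n in atTop, (p n).2.1 i = q.2.1 i := by
  have h1 : Tendsto (fun n => (p n).2.1 i) atTop (𝓝 (q.2.1 i)) :=
    (((continuous_apply i).comp (continuous_fst.comp continuous_snd)).tendsto q).comp h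
  rw [nhds_discrete, tendsto_pure] at h1
  exact h1

end D
end PJ
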