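import Pool.Agent.Lib.H31J.DBase

/-! Part D, chunk DCOMP: compactness and convergence in the model.

`compact_sub`: all letters `u n` are bounded on `{‖G p‖ ≤ R}` (iterate `I.proper` with `I.equiv`:
`‖G (shift p)‖ ≤ ‖lam‖ exp R`), the arcs are `≤ C.m + 1` (`de_le`), the potential is in `[0,B]`;
`LL` is closed (`LL_closed`).
`itin_conv`, `pt_conv`: every subsequence has a convergent subsequence, use `I.fib`. -/

set_option autoImplicit false

namespace PJ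
namespace D

open Filter Topology

theorem letters_bounded {C : Comb} {lam : ℂ} {G : Pt → ℂ} (I : Interface C lam G) (n : ℕ) :
    ∀ R : ℝ, ∃ B : ℝ, ∀ p ∈ C.LL, ‖G p‖ ≤ R → |(p.1 n : ℝ)| ≤ B := by
  induction n with
  | zero =>
    intro R
    obtain ⟨B, hB⟩ := I.proper R
    exact ⟨B, fun p hp h => (hB p hp h).2⟩
  | succ n ih =>
    intro R
    obtain ⟨B, hB⟩ := ih (‖lam‖ * Real.exp R)
    refine ⟨B, fun p hp h => ?_⟩
    have h1 := hB (shiftPt p) (shift_mem hp) (by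
      rw [← I.equiv p hp, norm_mul, Complex.norm_exp]
      have : (G p).re ≤ R := (Complex.re_le_norm _).trans h
      gcongr)
    exact h1

theorem compact_sub {C : Comb} {lam : ℂ} {G : Pt → ℂ} (I : Interface C lam G) (R : ℝ) :
    IsCompact {p | p ∈ C.LL ∧ ‖G p‖ ≤ R} := by
  have hb := fun n => letters_bounded I n R
  choose B hB using hb
  obtain ⟨B', hB'⟩ := I.proper R
  have hcl : IsClosed {p | p ∈ C.LL ∧ ‖G p‖ ≤ R} := by
    have h1 : {p | p ∈ C.LL ∧ ‖G p‖ ≤ R} = C.LL ∩ (fun p => ‖G p‖) ⁻¹' Set.Iic R := rfl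
    rw [h1]
    exact I.cont.norm.preimage_isClosed_of_isClosed (LL_closed C) isClosed_Iic
  have hc1 : IsCompact (Set.pi Set.univ fun n : ℕ => {z : ℤ | |(z : ℝ)| ≤ B n}) := by
    refine isCompact_univ_pi fun n => Set.Finite.isCompact ?_
    refine (Set.finite_Icc (-⌈B n⌉) ⌈B n⌉).subset fun z hz => ?_
    have h1 : |(z : ℝ)| ≤ B n := hz
    have h2 := Int.le_ceil (B n)
    have h3 := abs_le.1 (h1.trans h2)
    exact ⟨by exact_mod_cast h3.1, by exact_mod_cast h3.2⟩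
  have hc2 : IsCompact (Set.pi Set.univ fun _ : ℕ => {e : ℕ | e ≤ C.m + 1}) := by
    refine isCompact_univ_pi fun n => Set.Finite.isCompact ?_
    exact Set.finite_Iic (C.m + 1)
  have hc3 : IsCompact (Set.Icc 0 B') := isCompact_Icc
  refine (hc1.prod (hc2.prod hc3)).of_isClosed_subset hcl ?_
  rintro p ⟨hp, hpR⟩
  refine ⟨fun n _ => hB n p hp hpR, fun n _ => ?_, LL_nonneg hp, (hB' p hp hpR).1⟩
  change p.2.1 n ≤ C.m + 1
  rw [(hp n).2]
  exact de_le _ _ _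

theorem sub_conv {C : Comb} {lam : ℂ} {G : Pt → ℂ} (I : Interface C lam G) {p : ℕ → Pt}
    {q : Pt} (hp : ∀ k, p k ∈ C.LL) (hq : q ∈ C.LL)
    (h : Tendsto (fun k => G (p k)) atTop (𝓝 (G q))) (ns : ℕ → ℕ) (hns : Tendsto ns atTop atTop) :
    ∃ ms : ℕ → ℕ, ∃ p' : Pt, Rel p' q ∧ Tendsto (fun k => p (ns (ms k))) atTop (𝓝 p') := by
  obtain ⟨R, hR⟩ := h.norm.bddAbove_range
  have hR' : ∀ k, ‖G (p k)‖ ≤ R := fun k => hR ⟨k, rfl⟩
  obtain ⟨p', hp', φ, hφ, hlim⟩ := (compact_sub I R).tendsto_subseq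
    (x := fun k => p (ns k)) (fun k => ⟨hp _, hR' _⟩)
  refine ⟨φ, p', ?_, hlim⟩
  rw [← I.fib p' hp'.1 q hq]
  have h1 : Tendsto (fun k => G (p (ns (φ k)))) atTop (𝓝 (G q)) :=
    h.comp (hns.comp hφ.tendsto_atTop)
  have h2 : Tendsto (fun k => G (p (ns (φ k)))) atTop (𝓝 (G p')) := by
    have h3 : Tendsto (fun k => p (ns (φ k))) atTop (𝓝[C.LL] p') :=
      tendsto_nhdsWithin_iff.2 ⟨hlim, Eventually.of_forall fun k => hp _⟩
    exact (I.cont p' hp'.1).tendsto.comp h3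
  exact tendsto_nhds_unique h2 h1

theorem itin_conv {C : Comb} {lam : ℂ} {G : Pt → ℂ} (I : Interface C lam G) {p : ℕ → Pt}
    {q : Pt} (hp : ∀ k, p k ∈ C.LL) (hq : q ∈ C.LL)
    (h : Tendsto (fun k => G (p k)) atTop (𝓝 (G q))) :
    Tendsto (fun k => (p k).1) atTop (𝓝 q.1) := by
  refine tendsto_of_subseq_tendsto fun ns hns => ?_
  obtain ⟨ms, p', hrel, hlim⟩ := sub_conv I hp hq h ns hns
  refine ⟨ms, ?_⟩
  have h1 : p'.1 = q.1 := by
    rcases hrel with h1 | h1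
    · rw [h1]
    · exact h1.1
  rw [← h1]
  exact (continuous_fst.tendsto p').comp hlim

theorem pt_conv {C : Comb} {lam : ℂ} {G : Pt → ℂ} (I : Interface C lam G) {p : ℕ → Pt}
    {q : Pt} (hp : ∀ k, p k ∈ C.LL) (hq : q ∈ C.LL) (hne : ¬ IsEnd q.1 q.2.2)
    (h : Tendsto (fun k => G (p k)) atTop (𝓝 (G q))) :
    Tendsto p atTop (𝓝 q) := by
  refine tendsto_of_subseq_tendsto fun ns hns => ?_
  obtain ⟨ms, p', hrel, hlim⟩ := sub_conv I hp hq h ns hns
  refine ⟨ms, ?_⟩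
  have h1 : p' = q := by
    rcases hrel with h1 | ⟨h1, h2, h3⟩
    · exact h1
    · rw [h1, h2] at h3
      exact absurd h3 hne
  rw [← h1]
  exact hlim

end D
end PJ
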