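import Pool.Agent.Lib.H31J.DComp

/-! Part D, chunk DCONST: itinerary and arm are constant on connected subsets.

The itinerary is a continuous map from the Julia set to the totally disconnected space `ℕ → ℤ`
(`itin_conv`), the arm is a continuous map on the set of non end points (`pt_conv`). -/

set_option autoImplicit false

namespace PJ
namespace D

open Filter Topology

theorem itin_const {C : Comb} {lam : ℂ} {G : Pt → ℂ} (I : Interface C lam G) {K : Set ℂ}
    (hK : IsPreconnected K) (hKJ : K ⊆ Jul lam) {p q : Pt} (hp : p ∈ C.LL) (hq : q ∈ C.LL)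
    (hpK : G p ∈ K) (hqK : G q ∈ K) : p.1 = q.1 := by
  have hex : ∀ z : K, ∃ r : Pt, r ∈ C.LL ∧ G r = z := by
    intro z
    have h1 : (z : ℂ) ∈ G '' C.LL := by rw [I.image]; exact hKJ z.2
    obtain ⟨r, hr, hz⟩ := h1
    exact ⟨r, hr, hz⟩
  choose r hr hrz using hex
  have hcont : Continuous (fun z : K => (r z).1) := by
    apply SeqContinuous.continuous
    intro z w hz
    apply itin_conv I (fun k => hr (z k)) (hr w)
    simp only [hrz]
    exact (continuous_subtype_val.tendsto w).comp hz
  have hpre : IsPreconnected (Set.range (fun z : K => (r z).1)) := by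
    have hK' : PreconnectedSpace K := Subtype.preconnectedSpace hK
    exact isPreconnected_range hcont
  have hsub := hpre.subsingleton
  have h1 := hsub (Set.mem_range_self (⟨G p, hpK⟩ : K)) (Set.mem_range_self (⟨G q, hqK⟩ : K))
  have key : ∀ (x : Pt) (hx : x ∈ C.LL) (hxK : G x ∈ K), (r ⟨G x, hxK⟩).1 = x.1 := by
    intro x hx hxK
    have h2 : G (r ⟨G x, hxK⟩) = G x := hrz _
    rcases (I.fib _ (hr _) _ hx).mp h2 with h3 | h3
    · rw [h3]
    · exact h3.1
  rw [key p hp hpK, key q hq hqK] at h1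
  exact h1

theorem arm_const {C : Comb} {lam : ℂ} {G : Pt → ℂ} (I : Interface C lam G) {K : Set ℂ}
    (hK : IsPreconnected K) (hKJ : K ⊆ Jul lam)
    (hne : ∀ p ∈ C.LL, G p ∈ K → ¬ IsEnd p.1 p.2.2) {p q : Pt} (hp : p ∈ C.LL) (hq : q ∈ C.LL)
    (hpK : G p ∈ K) (hqK : G q ∈ K) : p.2.1 = q.2.1 := by
  have hex : ∀ z : K, ∃ r : Pt, r ∈ C.LL ∧ G r = z := by
    intro z
    have h1 : (z : ℂ) ∈ G '' C.LL := by rw [I.image]; exact hKJ z.2
    obtain ⟨r, hr, hz⟩ := h1
    exact ⟨r, hr, hz⟩
  choose r hr hrz using hex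
  have hcont0 : Continuous r := by
    apply SeqContinuous.continuous
    intro z w hz
    apply pt_conv I (fun k => hr (z k)) (hr w) (hne _ (hr w) (by rw [hrz]; exact w.2))
    simp only [hrz]
    exact (continuous_subtype_val.tendsto w).comp hz
  have hcont : Continuous (fun z : K => (r z).2.1) :=
    (continuous_fst.comp continuous_snd).comp hcont0
  have hpre : IsPreconnected (Set.range (fun z : K => (r z).2.1)) := by
    have hK' : PreconnectedSpace K := Subtype.preconnectedSpace hK
    exact isPreconnected_range hcont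
  have hsub := hpre.subsingleton
  have h1 := hsub (Set.mem_range_self (⟨G p, hpK⟩ : K)) (Set.mem_range_self (⟨G q, hqK⟩ : K))
  have key : ∀ (x : Pt) (hx : x ∈ C.LL) (hxK : G x ∈ K), (r ⟨G x, hxK⟩).2.1 = x.2.1 := by
    intro x hx hxK
    have h2 : G (r ⟨G x, hxK⟩) = G x := hrz _
    rcases (I.fib _ (hr _) _ hx).mp h2 with h3 | h3
    · rw [h3]
    · exact absurd h3.2.2 (hne _ (hr _) (by rw [h2]; exact hxK))
  rw [key p hp hpK, key q hq hqK] at h1
  exact h1

end D
end PJ
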