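import Pool.Agent.Lib.H31J.DBase

/-! Part D, chunk DCROSS: the crossing lemma for two proper curves.

Proof: `F (s,t) = Γ s - ℓ t` is a nowhere zero continuous function on `ℝ × ℝ`; it has a
continuous logarithm (`Complex.isCoveringMapOn_exp`,
`IsCoveringMapOn.existsUnique_continuousMap_lifts`), let `θ` be its imaginary part.  For each of
the four corners (quadrants `±s ≥ S`, `±t ≥ S`) `F` omits the ray `-i[0,∞)` (if `Γ` is above) or
`i[0,∞)` (below), so on the quadrant `θ` is a fixed branch of the argument.  On the side `s = ±S'`,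
`|t| ≤ S'`-ish, `Re F > 0`, so `θ ∈ (-π/2, π/2) + 2π k_{±}` on the whole side; on the sides
`t = ±T`, `Re F < 0` and `θ ∈ (π/2, 3π/2) + 2π j_{±}`.  In the corner `(a,b)`:
`j_b = k_a - below(a,b)`.  Subtracting gives the claim. -/

set_option autoImplicit false

namespace PJ
namespace D

open Filter Topology

/-- Position of the end of `f` relative to the end of `g`: `b = 1` if below, `b = 0` if above. -/
def Pos (f g : ℝ → ℂ) (b : ℤ) : Prop := (b = 1 ∧ Blw f g) ∨ (b = 0 ∧ Blw g f)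

theorem DCROSS_const {X : Type*} [TopologicalSpace X] {Q : Set X} (hQ : IsPreconnected Q)
    {L A : X → ℂ} (hL : ContinuousOn L Q) (hA : ContinuousOn A Q)
    (h : ∀ p ∈ Q, Complex.exp (L p) = Complex.exp (A p)) {p q : X} (hp : p ∈ Q) (hq : q ∈ Q) :
    L p - A p = L q - A q := by
  have hdt : DiscreteTopology (Set.range (fun n : ℤ => (n : ℝ))) :=
    (Int.isClosedEmbedding_coe_real.isEmbedding.toHomeomorph).symm.isEmbedding.discreteTopology
  have hpi : (2 * Real.pi * Complex.I : ℂ) ≠ 0 := Complex.two_pi_I_ne_zero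
  have key : ∀ x ∈ Q, ∃ n : ℤ, L x - A x = (n : ℂ) * (2 * Real.pi * Complex.I) := by
    intro x hx
    obtain ⟨n, hn⟩ := Complex.exp_eq_exp_iff_exists_int.1 (h x hx)
    exact ⟨n, by rw [hn]; ring⟩
  have hc : ContinuousOn (fun x => ((L x - A x) / (2 * Real.pi * Complex.I)).re) Q :=
    Complex.continuous_re.comp_continuousOn ((hL.sub hA).div_const _)
  have hm : Set.MapsTo (fun x => ((L x - A x) / (2 * Real.pi * Complex.I)).re) Q
      (Set.range (fun n : ℤ => (n : ℝ))) := by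
    intro x hx
    obtain ⟨n, hn⟩ := key x hx
    refine ⟨n, ?_⟩
    simp only [hn]
    rw [mul_div_cancel_right₀ _ hpi]
    simp
  have heq := hQ.constant_of_mapsTo (isDiscrete_iff_discreteTopology.2 hdt) hc hm hp hq
  obtain ⟨n, hn⟩ := key p hp
  obtain ⟨k, hk⟩ := key q hq
  simp only [hn, hk] at heq
  rw [mul_div_cancel_right₀ _ hpi, mul_div_cancel_right₀ _ hpi] at heq
  simp only [Complex.intCast_re] at heq
  have : n = k := by exact_mod_cast heq
  rw [hn, hk, this]

theorem DCROSS_log_I {w : ℂ} (hw : 0 < w.re) :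
    Complex.log (Complex.I * w) = Complex.log w + Real.pi / 2 * Complex.I := by
  have hne : w ≠ 0 := by
    rintro rfl
    simp at hw
  have ha : |w.arg| < Real.pi / 2 := Complex.abs_arg_lt_pi_div_two_iff.2 (Or.inl hw)
  have ha' := abs_lt.1 ha
  rw [(Complex.log_mul_eq_add_log_iff Complex.I_ne_zero hne).2, Complex.log_I]
  · ring
  · rw [Complex.arg_I]
    constructor <;> linarith [ha'.1, ha'.2, Real.pi_pos]

theorem DCROSS_log_negI {w : ℂ} (hw : 0 < w.re) :
    Complex.log (-Complex.I * w) = Complex.log w - Real.pi / 2 * Complex.I := by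
  have hne : w ≠ 0 := by
    rintro rfl
    simp at hw
  have ha : |w.arg| < Real.pi / 2 := Complex.abs_arg_lt_pi_div_two_iff.2 (Or.inl hw)
  have ha' := abs_lt.1 ha
  rw [(Complex.log_mul_eq_add_log_iff (neg_ne_zero.2 Complex.I_ne_zero) hne).2, Complex.log_neg_I]
  · ring
  · rw [Complex.arg_neg_I]
    constructor <;> linarith [ha'.1, ha'.2, Real.pi_pos]

theorem DCROSS_slit {z : ℂ} {κ : ℝ} (h : z.im < κ * |z.re|) :
    Complex.I * z ∈ Complex.slitPlane := by
  rw [Complex.mem_slitPlane_iff]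
  by_cases hz : z.re = 0
  · left
    rw [hz, abs_zero, mul_zero] at h
    simp only [Complex.mul_re, Complex.I_re, Complex.I_im]
    linarith
  · right
    simpa using hz

theorem DCROSS_slit' {z : ℂ} {κ : ℝ} (h : (-z).im < κ * |(-z).re|) :
    -Complex.I * z ∈ Complex.slitPlane := by
  have := DCROSS_slit h
  rwa [mul_neg, ← neg_mul] at this

/-- The branch of the logarithm in one corner. -/
theorem DCROSS_corner {F : ℝ × ℝ → ℂ} (hF : Continuous F) {L : ℝ × ℝ → ℂ} (hL : Continuous L)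
    (hexp : ∀ p, Complex.exp (L p) = F p) {b : ℤ} {κ S : ℝ}
    (hb : (b = 1 ∧ ∀ s t, S ≤ s → S ≤ t → (F (s, t)).im < κ * |(F (s, t)).re|) ∨
      (b = 0 ∧ ∀ s t, S ≤ s → S ≤ t → (-F (s, t)).im < κ * |(-F (s, t)).re|)) :
    ∃ n : ℂ, (∀ s t, S ≤ s → S ≤ t → 0 < (F (s, t)).re →
        L (s, t) = Complex.log (F (s, t)) + n) ∧
      (∀ s t, S ≤ s → S ≤ t → (F (s, t)).re < 0 →
        L (s, t) = Complex.log (-F (s, t)) + Real.pi * Complex.I + n
          - b * (2 * Real.pi * Complex.I)) := by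
  set Q : Set (ℝ × ℝ) := Set.Ici S ×ˢ Set.Ici S with hQdef
  have hQ : IsPreconnected Q := isPreconnected_Ici.prod isPreconnected_Ici
  have hF0 : ∀ p, F p ≠ 0 := fun p => by rw [← hexp]; exact Complex.exp_ne_zero _
  have h0 : ((S, S) : ℝ × ℝ) ∈ Q := ⟨Set.self_mem_Ici, Set.self_mem_Ici⟩
  rcases hb with ⟨rfl, hb⟩ | ⟨rfl, hb⟩
  · -- below: the branch `log (I z) - π/2 I`
    set A : ℝ × ℝ → ℂ := fun p => Complex.log (Complex.I * F p) - Real.pi / 2 * Complex.I
      with hAdef
    have hA : ContinuousOn A Q := by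
      intro p hp
      have hs : Complex.I * F p ∈ Complex.slitPlane := DCROSS_slit (hb p.1 p.2 hp.1 hp.2)
      exact (((continuous_const.mul hF).continuousAt.clog hs).sub
        continuousAt_const).continuousWithinAt
    have hexpA : ∀ p ∈ Q, Complex.exp (L p) = Complex.exp (A p) := by
      intro p _
      rw [hexp, hAdef]
      simp only
      rw [Complex.exp_sub, Complex.exp_log (mul_ne_zero Complex.I_ne_zero (hF0 p)),
        Complex.exp_pi_div_two_mul_I]
      field_simp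
    have hc := fun p (hp : p ∈ Q) => DCROSS_const hQ hL.continuousOn hA hexpA hp h0
    refine ⟨L (S, S) - A (S, S), ?_, ?_⟩
    · intro s t hs ht hre
      have h1 := hc (s, t) ⟨hs, ht⟩
      rw [← h1, hAdef]
      simp only
      rw [DCROSS_log_I hre]
      ring
    · intro s t hs ht hre
      have h1 := hc (s, t) ⟨hs, ht⟩
      have hre' : 0 < (-F (s, t)).re := by rw [Complex.neg_re]; linarith
      have h2 := DCROSS_log_negI hre'
      rw [neg_mul_neg] at h2
      rw [← h1, hAdef]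
      simp only
      rw [h2]
      push_cast
      ring
  · set A : ℝ × ℝ → ℂ := fun p => Complex.log (-Complex.I * F p) + Real.pi / 2 * Complex.I
      with hAdef
    have hA : ContinuousOn A Q := by
      intro p hp
      have hs : -Complex.I * F p ∈ Complex.slitPlane := DCROSS_slit' (hb p.1 p.2 hp.1 hp.2)
      exact (((continuous_const.mul hF).continuousAt.clog hs).add
        continuousAt_const).continuousWithinAt
    have hexpA : ∀ p ∈ Q, Complex.exp (L p) = Complex.exp (A p) := by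
      intro p _
      rw [hexp, hAdef]
      simp only
      rw [Complex.exp_add, Complex.exp_log (mul_ne_zero (neg_ne_zero.2 Complex.I_ne_zero) (hF0 p)),
        Complex.exp_pi_div_two_mul_I]
      linear_combination (F p) * Complex.I_mul_I
    have hc := fun p (hp : p ∈ Q) => DCROSS_const hQ hL.continuousOn hA hexpA hp h0
    refine ⟨L (S, S) - A (S, S), ?_, ?_⟩
    · intro s t hs ht hre
      have h1 := hc (s, t) ⟨hs, ht⟩
      rw [← h1, hAdef]
      simp only
      rw [DCROSS_log_negI hre]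
      ring
    · intro s t hs ht hre
      have h1 := hc (s, t) ⟨hs, ht⟩
      have hre' : 0 < (-F (s, t)).re := by rw [Complex.neg_re]; linarith
      have h2 := DCROSS_log_I hre'
      rw [mul_neg, ← neg_mul] at h2
      rw [← h1, hAdef]
      simp only
      rw [h2]
      push_cast
      ring

/-- `L - log F` has the same value at two points of a preconnected set with `Re F > 0`. -/
theorem DCROSS_edge {F L : ℝ × ℝ → ℂ} (hF : Continuous F) (hL : Continuous L)
    (hexp : ∀ p, Complex.exp (L p) = F p) {Q : Set (ℝ × ℝ)} (hQ : IsPreconnected Q)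
    (hre : ∀ p ∈ Q, 0 < (F p).re) {p q : ℝ × ℝ} (hp : p ∈ Q) (hq : q ∈ Q) :
    L p - Complex.log (F p) = L q - Complex.log (F q) := by
  refine DCROSS_const (A := fun p => Complex.log (F p)) hQ hL.continuousOn ?_ ?_ hp hq
  · intro p hp
    exact (hF.continuousAt.clog (Complex.mem_slitPlane_iff.2
      (Or.inl (hre p hp)))).continuousWithinAt
  · intro p hp
    have : F p ≠ 0 := by
      intro h
      have := hre p hp
      rw [h] at this
      simp at this
    rw [hexp, Complex.exp_log this]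

/-- Same with `Re F < 0`. -/
theorem DCROSS_edge' {F L : ℝ × ℝ → ℂ} (hF : Continuous F) (hL : Continuous L)
    (hexp : ∀ p, Complex.exp (L p) = F p) {Q : Set (ℝ × ℝ)} (hQ : IsPreconnected Q)
    (hre : ∀ p ∈ Q, (F p).re < 0) {p q : ℝ × ℝ} (hp : p ∈ Q) (hq : q ∈ Q) :
    L p - Complex.log (-F p) = L q - Complex.log (-F q) := by
  have h1 : ∀ p, Complex.exp (L p + Real.pi * Complex.I) = -F p := by
    intro p
    rw [Complex.exp_add, Complex.exp_pi_mul_I, hexp]
    ring
  have := DCROSS_edge (F := fun p => -F p) (L := fun p => L p + Real.pi * Complex.I)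
    hF.neg (hL.add continuous_const) h1 hQ
    (fun p hp => by have := hre p hp; simp only [Complex.neg_re]; linarith) hp hq
  linear_combination this

theorem DCROSS_pos {f g : ℝ → ℂ} {b : ℤ} (h : Pos f g b) :
    ∃ κ S : ℝ, ∀ S', S ≤ S' → ((b = 1 ∧ ∀ s t, S' ≤ s → S' ≤ t →
      (f s - g t).im < κ * |(f s - g t).re|) ∨
      (b = 0 ∧ ∀ s t, S' ≤ s → S' ≤ t →
      (-(f s - g t)).im < κ * |(-(f s - g t)).re|)) := by
  rcases h with ⟨hb, κ, _, S, h⟩ | ⟨hb, κ, _, S, h⟩
  · refine ⟨κ, S, fun S' hS' => Or.inl ⟨hb, fun s t hs ht => h s (hS'.trans hs) t (hS'.trans ht)⟩⟩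
  · refine ⟨κ, S, fun S' hS' => Or.inr ⟨hb, fun s t hs ht => ?_⟩⟩
    have := h t (hS'.trans ht) s (hS'.trans hs)
    rwa [neg_sub]

theorem crossing {Γ l : ℝ → ℂ} (hΓ : Continuous Γ) (hl : Continuous l)
    (hd : ∀ s t, Γ s ≠ l t)
    (h1 : Tendsto (fun s => (Γ s).re) atTop atTop)
    (h2 : Tendsto (fun s => (Γ (-s)).re) atTop atTop)
    (h3 : Tendsto (fun s => (l s).re) atTop atTop)
    (h4 : Tendsto (fun s => (l (-s)).re) atTop atTop)
    {b11 b12 b21 b22 : ℤ}
    (p11 : Pos Γ l b11) (p12 : Pos Γ (fun s => l (-s)) b12)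
    (p21 : Pos (fun s => Γ (-s)) l b21)
    (p22 : Pos (fun s => Γ (-s)) (fun s => l (-s)) b22) :
    b11 - b12 = b21 - b22 := by
  -- the continuous logarithm
  set F : ℝ × ℝ → ℂ := fun p => Γ p.1 - l p.2 with hFdef
  have hF : Continuous F := (hΓ.comp continuous_fst).sub (hl.comp continuous_snd)
  have hF0 : ∀ p, F p ≠ 0 := fun p => sub_ne_zero.2 (hd p.1 p.2)
  obtain ⟨L, hL, hexp⟩ : ∃ L : ℝ × ℝ → ℂ, Continuous L ∧ ∀ p, Complex.exp (L p) = F p := by
    obtain ⟨f, ⟨-, hf⟩, -⟩ := Complex.isCoveringMapOn_exp.existsUnique_continuousMap_lifts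
      ⟨F, hF⟩ (a₀ := (0, 0)) (e₀ := Complex.log (F (0, 0))) (Complex.exp_log (hF0 _))
      (fun p => hF0 p)
    exact ⟨f, f.continuous, fun p => congrFun hf p⟩
  obtain ⟨κ11, S11, q11⟩ := DCROSS_pos p11
  obtain ⟨κ12, S12, q12⟩ := DCROSS_pos p12
  obtain ⟨κ21, S21, q21⟩ := DCROSS_pos p21
  obtain ⟨κ22, S22, q22⟩ := DCROSS_pos p22
  obtain ⟨T, hT0, hT11, hT12, hT21, hT22⟩ :
      ∃ T : ℝ, 0 ≤ T ∧ S11 ≤ T ∧ S12 ≤ T ∧ S21 ≤ T ∧ S22 ≤ T :=
    ⟨max 0 (max S11 (max S12 (max S21 S22))), by simp, by simp, by simp, by simp, by simp⟩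
  -- sign changes
  have hc1 : Continuous (fun p : ℝ × ℝ => ((p.1, -p.2) : ℝ × ℝ)) := by fun_prop
  have hc2 : Continuous (fun p : ℝ × ℝ => ((-p.1, p.2) : ℝ × ℝ)) := by fun_prop
  have hc3 : Continuous (fun p : ℝ × ℝ => ((-p.1, -p.2) : ℝ × ℝ)) := by fun_prop
  obtain ⟨n11, a11, c11⟩ := DCROSS_corner hF hL hexp (q11 T hT11)
  obtain ⟨n12, a12, c12⟩ := DCROSS_corner (hF.comp hc1) (hL.comp hc1) (fun p => hexp _)
    (q12 T hT12)
  obtain ⟨n21, a21, c21⟩ := DCROSS_corner (hF.comp hc2) (hL.comp hc2) (fun p => hexp _)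
    (q21 T hT21)
  obtain ⟨n22, a22, c22⟩ := DCROSS_corner (hF.comp hc3) (hL.comp hc3) (fun p => hexp _)
    (q22 T hT22)
  simp only [Function.comp_apply] at a12 c12 a21 c21 a22 c22
  -- bounds on compact sets
  obtain ⟨M, hM⟩ : ∃ M : ℝ, ∀ t ∈ Set.Icc (-T) T, |(l t).re| ≤ M ∧ |(Γ t).re| ≤ M := by
    obtain ⟨M1, hM1⟩ := (isCompact_Icc (a := -T) (b := T)).exists_bound_of_continuousOn
      (Complex.continuous_re.comp hl).continuousOn
    obtain ⟨M2, hM2⟩ := (isCompact_Icc (a := -T) (b := T)).exists_bound_of_continuousOn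
      (Complex.continuous_re.comp hΓ).continuousOn
    exact ⟨max M1 M2, fun t ht => ⟨(hM1 t ht).trans (le_max_left _ _),
      (hM2 t ht).trans (le_max_right _ _)⟩⟩
  obtain ⟨S', hS'T, hS1, hS2, hS3, hS4⟩ : ∃ S' : ℝ, T ≤ S' ∧ M < (Γ S').re ∧ M < (Γ (-S')).re ∧
      M < (l S').re ∧ M < (l (-S')).re := by
    have := (eventually_ge_atTop T).and ((h1.eventually_gt_atTop M).and
      ((h2.eventually_gt_atTop M).and ((h3.eventually_gt_atTop M).and
      (h4.eventually_gt_atTop M))))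
    exact this.exists
  have hTT : T ∈ Set.Icc (-T) T := ⟨by linarith, le_refl _⟩
  have hTT' : -T ∈ Set.Icc (-T) T := ⟨le_refl _, by linarith⟩
  have hreR : ∀ a : ℝ, M < (Γ a).re → ∀ t ∈ Set.Icc (-T) T, 0 < (F (a, t)).re := by
    intro a ha t ht
    have := (abs_le.1 (hM t ht).1).2
    simp only [hFdef, Complex.sub_re]
    linarith
  have hreL : ∀ a : ℝ, M < (l a).re → ∀ t ∈ Set.Icc (-T) T, (F (t, a)).re < 0 := by
    intro a ha t ht
    have := (abs_le.1 (hM t ht).2).2
    simp only [hFdef, Complex.sub_re]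
    linarith
  -- vertical edges
  have hedge : ∀ a : ℝ, M < (Γ a).re →
      L (a, T) - Complex.log (F (a, T)) = L (a, -T) - Complex.log (F (a, -T)) := by
    intro a ha
    refine DCROSS_edge (Q := ({a} : Set ℝ) ×ˢ Set.Icc (-T) T) hF hL hexp
      (isPreconnected_singleton.prod isPreconnected_Icc) ?_ ⟨rfl, hTT⟩ ⟨rfl, hTT'⟩
    rintro ⟨a', t⟩ ⟨ha', ht⟩
    rw [Set.mem_singleton_iff] at ha'
    simp only at ha' ht
    subst ha'
    exact hreR _ ha t ht
  have hedge' : ∀ a : ℝ, M < (l a).re →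
      L (T, a) - Complex.log (-F (T, a)) = L (-T, a) - Complex.log (-F (-T, a)) := by
    intro a ha
    refine DCROSS_edge' (Q := Set.Icc (-T) T ×ˢ ({a} : Set ℝ)) hF hL hexp
      (isPreconnected_Icc.prod isPreconnected_singleton) ?_ ⟨hTT, rfl⟩ ⟨hTT', rfl⟩
    rintro ⟨t, a'⟩ ⟨ht, ha'⟩
    rw [Set.mem_singleton_iff] at ha'
    simp only at ha' ht
    subst ha'
    exact hreL _ ha t ht
  have e1 : n11 = n12 := by
    have x1 := a11 S' T hS'T le_rfl (hreR _ hS1 T hTT)
    have x2 := a12 S' T hS'T le_rfl (hreR _ hS1 (-T) hTT')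
    have x3 := hedge S' hS1
    linear_combination x3 - x1 + x2
  have e2 : n21 = n22 := by
    have x1 := a21 S' T hS'T le_rfl (hreR _ hS2 T hTT)
    have x2 := a22 S' T hS'T le_rfl (hreR _ hS2 (-T) hTT')
    have x3 := hedge (-S') hS2
    linear_combination x3 - x1 + x2
  have e3 : n11 - b11 * (2 * Real.pi * Complex.I) = n21 - b21 * (2 * Real.pi * Complex.I) := by
    have x1 := c11 T S' le_rfl hS'T (hreL _ hS3 T hTT)
    have x2 := c21 T S' le_rfl hS'T (hreL _ hS3 (-T) hTT')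
    have x3 := hedge' S' hS3
    linear_combination x3 - x1 + x2
  have e4 : n12 - b12 * (2 * Real.pi * Complex.I) = n22 - b22 * (2 * Real.pi * Complex.I) := by
    have x1 := c12 T S' le_rfl hS'T (hreL _ hS4 T hTT)
    have x2 := c22 T S' le_rfl hS'T (hreL _ hS4 (-T) hTT')
    have x3 := hedge' (-S') hS4
    linear_combination x3 - x1 + x2
  have hpi : (2 * Real.pi * Complex.I : ℂ) ≠ 0 := Complex.two_pi_I_ne_zero
  have e5 : ((b11 - b12 : ℤ) : ℂ) * (2 * Real.pi * Complex.I) =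
      ((b21 - b22 : ℤ) : ℂ) * (2 * Real.pi * Complex.I) := by
    push_cast
    linear_combination e1 - e2 - e3 + e4
  have e6 := mul_right_cancel₀ hpi e5
  exact_mod_cast e6

end D
end PJ
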