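import Pool.Agent.Lib.H31J.DCross

/-! Part D, chunk DRAYS: the crossing lemma for a curve composed of two rays and a path.

Proof: `Γ` = the ray `f` on `[0,∞)` (shifted to start at parameter `0`), the path on `[-1,0]`,
the ray `g` on `(-∞,-1]`; `l` = `x` on `[0,∞)`, `y` on `(-∞,0]`; apply `crossing`. -/

set_option autoImplicit false

namespace PJ
namespace D

open Filter Topology

theorem rays_Blw {f g f' g' : ℝ → ℂ} {a b : ℝ} (h : Blw f g)
    (hf : ∀ᶠ s in atTop, f' s = f (s + a)) (hg : ∀ᶠ s in atTop, g' s = g (s + b)) :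
    Blw f' g' := by
  obtain ⟨κ, hκ, S, hS⟩ := h
  obtain ⟨A, hA⟩ := eventually_atTop.1 hf
  obtain ⟨B, hB⟩ := eventually_atTop.1 hg
  refine ⟨κ, hκ, max (max A (S - a)) (max B (S - b)), fun s hs t ht => ?_⟩
  have h1 : A ≤ s := (le_max_left _ _).trans ((le_max_left _ _).trans hs)
  have h2 : S - a ≤ s := (le_max_right _ _).trans ((le_max_left _ _).trans hs)
  have h3 : B ≤ t := (le_max_left _ _).trans ((le_max_right _ _).trans ht)
  have h4 : S - b ≤ t := (le_max_right _ _).trans ((le_max_right _ _).trans ht)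
  rw [hA s h1, hB t h3]
  exact hS _ (by linarith) _ (by linarith)

theorem rays_Pos {f g f' g' : ℝ → ℂ} {a b : ℝ} {c : ℤ} (h : Pos f g c)
    (hf : ∀ᶠ s in atTop, f' s = f (s + a)) (hg : ∀ᶠ s in atTop, g' s = g (s + b)) :
    Pos f' g' c := by
  rcases h with ⟨h1, h2⟩ | ⟨h1, h2⟩
  · exact Or.inl ⟨h1, rays_Blw h2 hf hg⟩
  · exact Or.inr ⟨h1, rays_Blw h2 hg hf⟩

theorem rays_tendsto {f f' : ℝ → ℂ} {a : ℝ} (h : Tendsto (fun s => (f s).re) atTop atTop)
    (hf : ∀ᶠ s in atTop, f' s = f (s + a)) : Tendsto (fun s => (f' s).re) atTop atTop := by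
  have h1 : Tendsto (fun s : ℝ => s + a) atTop atTop := tendsto_atTop_add_const_right _ _ tendsto_id
  refine (h.comp h1).congr' ?_
  filter_upwards [hf] with s hs
  rw [hs]
  rfl

theorem crossing_rays {f g x y : ℝ → ℂ} {a b m : ℝ} (hf : ContinuousOn f (Set.Ici a))
    (hg : ContinuousOn g (Set.Ici b)) (hx : ContinuousOn x (Set.Ici m))
    (hy : ContinuousOn y (Set.Ici m)) (hxy : x m = y m)
    (h1 : Tendsto (fun s => (f s).re) atTop atTop)
    (h2 : Tendsto (fun s => (g s).re) atTop atTop)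
    (h3 : Tendsto (fun s => (x s).re) atTop atTop)
    (h4 : Tendsto (fun s => (y s).re) atTop atTop)
    {K : Set ℂ} (hxK : ∀ s, m ≤ s → x s ∈ K) (hyK : ∀ s, m ≤ s → y s ∈ K)
    (hfK : ∀ s, a ≤ s → f s ∉ K) (hgK : ∀ s, b ≤ s → g s ∉ K)
    (hJ : JoinedIn Kᶜ (f a) (g b)) {b11 b12 b21 b22 : ℤ}
    (p11 : Pos f x b11) (p12 : Pos f y b12) (p21 : Pos g x b21) (p22 : Pos g y b22) :
    b11 - b12 = b21 - b22 := by
  obtain ⟨γ, hγ⟩ := hJ
  have hcomp : ∀ {F : ℝ → ℂ} {c : ℝ} {φ : ℝ → ℝ}, ContinuousOn F (Set.Ici c) →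
      Continuous φ → Continuous fun s => F (max c (φ s)) := by
    intro F c φ hF hφ
    refine hF.comp_continuous (continuous_const.max hφ) fun s => ?_
    exact le_max_left c (φ s)
  -- the curve `Γ`
  set Γ : ℝ → ℂ := fun s => f (max a (a + s)) + γ.extend (-s) + g (max b (b - 1 - s)) - f a - g b
    with hΓ
  have hΓc : Continuous Γ := by
    have c1 : Continuous fun s : ℝ => f (max a (a + s)) := hcomp hf (by fun_prop)
    have c2 : Continuous fun s : ℝ => g (max b (b - 1 - s)) := hcomp hg (by fun_prop)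
    have c3 : Continuous fun s : ℝ => γ.extend (-s) := γ.continuous_extend.comp continuous_neg
    exact (((c1.add c3).add c2).sub continuous_const).sub continuous_const
  have hΓ1 : ∀ s, 0 ≤ s → Γ s = f (s + a) := by
    intro s hs
    have e1 : max a (a + s) = s + a := by rw [max_eq_right (by linarith)]; ring
    have e2 : max b (b - 1 - s) = b := max_eq_left (by linarith)
    have e3 : γ.extend (-s) = f a := γ.extend_of_le_zero (by linarith)
    simp only [hΓ, e1, e2, e3]
    ring
  have hΓ2 : ∀ s, s ≤ -1 → Γ s = g (-s + (b - 1)) := by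
    intro s hs
    have e1 : max a (a + s) = a := max_eq_left (by linarith)
    have e2 : max b (b - 1 - s) = -s + (b - 1) := by rw [max_eq_right (by linarith)]; ring
    have e3 : γ.extend (-s) = g b := γ.extend_of_one_le (by linarith)
    simp only [hΓ, e1, e2, e3]
    ring
  have hΓ3 : ∀ s, -1 ≤ s → s ≤ 0 → Γ s ∉ K := by
    intro s hs hs0
    have e1 : max a (a + s) = a := max_eq_left (by linarith)
    have e2 : max b (b - 1 - s) = b := max_eq_left (by linarith)
    have e3 : Γ s = γ.extend (-s) := by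
      simp only [hΓ, e1, e2]
      ring
    have hmem : (-s) ∈ Set.Icc (0 : ℝ) 1 := ⟨by linarith, by linarith⟩
    rw [e3, γ.extend_apply hmem]
    exact hγ _
  have hΓK : ∀ s, Γ s ∉ K := by
    intro s
    rcases le_or_gt 0 s with h5 | h5
    · rw [hΓ1 s h5]
      exact hfK _ (by linarith)
    · rcases le_or_gt (-1) s with h6 | h6
      · exact hΓ3 s h6 h5.le
      · rw [hΓ2 s h6.le]
        exact hgK _ (by linarith)
  -- the curve `l`
  set l : ℝ → ℂ := fun s => x (max m (m + s)) + y (max m (m - s)) - x m with hl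
  have hlc : Continuous l := by
    have c1 : Continuous fun s : ℝ => x (max m (m + s)) := hcomp hx (by fun_prop)
    have c2 : Continuous fun s : ℝ => y (max m (m - s)) := hcomp hy (by fun_prop)
    exact (c1.add c2).sub continuous_const
  have hl1 : ∀ s, 0 ≤ s → l s = x (s + m) := by
    intro s hs
    have e1 : max m (m + s) = s + m := by rw [max_eq_right (by linarith)]; ring
    have e2 : max m (m - s) = m := max_eq_left (by linarith)
    simp only [hl, e1, e2, ← hxy]
    ring
  have hl2 : ∀ s, s ≤ 0 → l s = y (-s + m) := by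
    intro s hs
    have e1 : max m (m + s) = m := max_eq_left (by linarith)
    have e2 : max m (m - s) = -s + m := by rw [max_eq_right (by linarith)]; ring
    simp only [hl, e1, e2]
    ring
  have hlK : ∀ s, l s ∈ K := by
    intro s
    rcases le_total 0 s with h5 | h5
    · rw [hl1 s h5]
      exact hxK _ (by linarith)
    · rw [hl2 s h5]
      exact hyK _ (by linarith)
  have k1 : ∀ᶠ s in atTop, Γ s = f (s + a) := by
    filter_upwards [eventually_ge_atTop 0] with s hs using hΓ1 s hs
  have k2 : ∀ᶠ s in atTop, (fun s => Γ (-s)) s = g (s + (b - 1)) := by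
    filter_upwards [eventually_ge_atTop 1] with s hs
    rw [hΓ2 (-s) (by linarith), neg_neg]
  have k3 : ∀ᶠ s in atTop, l s = x (s + m) := by
    filter_upwards [eventually_ge_atTop 0] with s hs using hl1 s hs
  have k4 : ∀ᶠ s in atTop, (fun s => l (-s)) s = y (s + m) := by
    filter_upwards [eventually_ge_atTop 0] with s hs
    rw [hl2 (-s) (by linarith), neg_neg]
  exact crossing hΓc hlc (fun s t h => hΓK s (h ▸ hlK t)) (rays_tendsto h1 k1)
    (rays_tendsto h2 k2) (rays_tendsto h3 k3) (rays_tendsto h4 k4) (rays_Pos p11 k1 k3)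
    (rays_Pos p12 k1 k4) (rays_Pos p21 k2 k3) (rays_Pos p22 k2 k4)

end D
end PJ
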