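import Pool.Agent.Lib.H31J.DStar

/-! Part D, chunk DSEG: the vertical segment.

There are finitely many arms over `u`.  Choose `S` that works for all the relations `Blw` and
`X` larger than all real parts of the points `G (u,e,τ)`, `τ ≤ S`, and than the real parts of `f`,
`g` at `max S a`, `max S b`.  By the intermediate value theorem there are `s, t ≥ S` with
`Re f s = Re g t = X`.  A point `G (u,e,τ)` with real part `X` has `τ > S`, so its imaginary part is
bigger than those of `f s` and `g t`. -/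

set_option autoImplicit false

namespace PJ
namespace D

open Filter Topology

theorem seg_bd {C : Comb} {lam : ℂ} {G : Pt → ℂ} (I : Interface C lam G) (u : ℕ → ℤ)
    (e : ℕ → ℕ) (S : ℝ) : ∃ X : ℝ, ∀ τ, τ ≤ S → (u, e, τ) ∈ C.LL → (G (u, e, τ)).re ≤ X := by
  set K : Set ℝ := {τ | τ ≤ S ∧ (u, e, τ) ∈ C.LL} with hKdef
  have hcontm : Continuous (fun s : ℝ => ((u, e, s) : Pt)) := by fun_prop
  have hK : IsCompact K := by
    refine (isCompact_Icc (a := (0 : ℝ)) (b := S)).of_isClosed_subset ?_ ?_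
    · exact (isClosed_Iic (a := S)).inter ((LL_closed C).preimage hcontm)
    · rintro τ ⟨h1, h2⟩
      exact ⟨LL_nonneg h2, h1⟩
  have hc : ContinuousOn (fun τ : ℝ => (G (u, e, τ)).re) K := by
    refine Complex.continuous_re.comp_continuousOn ?_
    exact I.cont.comp hcontm.continuousOn (fun τ hτ => hτ.2)
  obtain ⟨X, hX⟩ := (hK.image_of_continuousOn hc).bddAbove
  exact ⟨X, fun τ h1 h2 => hX ⟨τ, ⟨h1, h2⟩, rfl⟩⟩

theorem seg_ivt {f : ℝ → ℂ} {a : ℝ} (hf : ContinuousOn f (Set.Ici a))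
    (h1 : Tendsto (fun s => (f s).re) atTop atTop) {X : ℝ} (hX : (f a).re ≤ X) :
    ∃ s, a ≤ s ∧ (f s).re = X := by
  have h2 := isPreconnected_Ici.intermediate_value_Ici (s := Set.Ici a) (a := a)
    (Set.mem_Ici.mpr le_rfl) (l := atTop) (Filter.le_principal_iff.mpr (Ici_mem_atTop a))
    (Complex.continuous_re.comp_continuousOn hf) h1
  obtain ⟨s, hs, hs2⟩ := h2 (show X ∈ Set.Ici _ from hX)
  exact ⟨s, hs, hs2⟩

theorem seg_avoid {C : Comb} {lam : ℂ} {G : Pt → ℂ} (I : Interface C lam G) {u : ℕ → ℤ}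
    {f g : ℝ → ℂ} {a b : ℝ} (hf : ContinuousOn f (Set.Ici a)) (hg : ContinuousOn g (Set.Ici b))
    (h1 : Tendsto (fun s => (f s).re) atTop atTop)
    (h2 : Tendsto (fun s => (g s).re) atTop atTop)
    (hfin : {e : ℕ → ℕ | (u, e) ∈ C.X}.Finite)
    (h3 : ∀ e, (u, e) ∈ C.X → Blw f (fun s => G (u, e, s)))
    (h4 : ∀ e, (u, e) ∈ C.X → Blw g (fun s => G (u, e, s))) :
    ∃ s t : ℝ, a ≤ s ∧ b ≤ t ∧ ∀ z ∈ segment ℝ (f s) (g t), z ∉ Star C G u := by
  have h3' : ∀ e : {e : ℕ → ℕ | (u, e) ∈ C.X}, ∃ S : ℝ, ∀ s, S ≤ s → ∀ t, S ≤ t →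
      (f s).re = (G (u, e.1, t)).re → (f s).im < (G (u, e.1, t)).im := by
    intro e
    obtain ⟨κ, hκ, S, hS⟩ := h3 e.1 e.2
    refine ⟨S, fun s hs t ht hre => ?_⟩
    have := hS s hs t ht
    rw [Complex.sub_re, hre, sub_self, abs_zero, mul_zero, Complex.sub_im] at this
    linarith
  have h4' : ∀ e : {e : ℕ → ℕ | (u, e) ∈ C.X}, ∃ S : ℝ, ∀ s, S ≤ s → ∀ t, S ≤ t →
      (g s).re = (G (u, e.1, t)).re → (g s).im < (G (u, e.1, t)).im := by
    intro e
    obtain ⟨κ, hκ, S, hS⟩ := h4 e.1 e.2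
    refine ⟨S, fun s hs t ht hre => ?_⟩
    have := hS s hs t ht
    rw [Complex.sub_re, hre, sub_self, abs_zero, mul_zero, Complex.sub_im] at this
    linarith
  choose S3 hS3 using h3'
  choose S4 hS4 using h4'
  have hfin' : Finite {e : ℕ → ℕ | (u, e) ∈ C.X} := hfin
  obtain ⟨M3, hM3⟩ := (Set.finite_range S3).bddAbove
  obtain ⟨M4, hM4⟩ := (Set.finite_range S4).bddAbove
  set S := max (max M3 M4) (max a b) with hSdef
  have hSa : a ≤ S := (le_max_left _ _).trans (le_max_right _ _)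
  have hSb : b ≤ S := (le_max_right _ _).trans (le_max_right _ _)
  have hSM3 : M3 ≤ S := (le_max_left _ _).trans (le_max_left _ _)
  have hSM4 : M4 ≤ S := (le_max_right _ _).trans (le_max_left _ _)
  choose XX hXX using fun e : {e : ℕ → ℕ | (u, e) ∈ C.X} => seg_bd I u e.1 S
  obtain ⟨MX, hMX⟩ := (Set.finite_range XX).bddAbove
  set X := max (MX + 1) (max (f S).re (g S).re) with hXdef
  have hXM : MX < X := lt_of_lt_of_le (lt_add_one _) (le_max_left _ _)
  obtain ⟨s, hs, hsX⟩ := seg_ivt (hf.mono (Set.Ici_subset_Ici.mpr hSa)) h1 (X := X)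
    ((le_max_left _ _).trans (le_max_right _ _))
  obtain ⟨t, ht, htX⟩ := seg_ivt (hg.mono (Set.Ici_subset_Ici.mpr hSb)) h2 (X := X)
    ((le_max_right _ _).trans (le_max_right _ _))
  refine ⟨s, t, hSa.trans hs, hSb.trans ht, ?_⟩
  rintro z hz ⟨e, τ, hLL, rfl⟩
  have heX : (u, e) ∈ C.X := (LL_iff.mp hLL).2
  obtain ⟨x, y, hx, hy, hxy, hz'⟩ := hz
  have hre := congrArg Complex.re hz'
  have him := congrArg Complex.im hz'
  simp only [Complex.add_re, Complex.real_smul, Complex.mul_re, Complex.ofReal_re,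
    Complex.ofReal_im, zero_mul, sub_zero, Complex.add_im, Complex.mul_im, add_zero] at hre him
  rw [hsX, htX, ← add_mul, hxy, one_mul] at hre
  have hτ : S < τ := by
    by_contra hcon
    push Not at hcon
    have h5 := hXX ⟨e, heX⟩ τ hcon hLL
    have h6 := hMX (Set.mem_range_self (⟨e, heX⟩ : {e : ℕ → ℕ | (u, e) ∈ C.X}))
    linarith
  have h7 := hM3 (Set.mem_range_self (⟨e, heX⟩ : {e : ℕ → ℕ | (u, e) ∈ C.X}))
  have h8 := hM4 (Set.mem_range_self (⟨e, heX⟩ : {e : ℕ → ℕ | (u, e) ∈ C.X}))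
  have h9 := hS3 ⟨e, heX⟩ s (by linarith) τ (by linarith) (by rw [hsX]; exact hre)
  have h10 := hS4 ⟨e, heX⟩ t (by linarith) τ (by linarith) (by rw [htX]; exact hre)
  simp only at h9 h10
  have h11 : x * (f s).im + y * (g t).im ≤ (x + y) * max (f s).im (g t).im := by
    rw [add_mul]
    exact add_le_add (mul_le_mul_of_nonneg_left (le_max_left _ _) hx)
      (mul_le_mul_of_nonneg_left (le_max_right _ _) hy)
  rw [hxy, one_mul] at h11
  have h12 : max (f s).im (g t).im < (G (u, e, τ)).im := max_lt h9 h10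
  linarith

end D
end PJ
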