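import Pool.Agent.Lib.H31J.DBase

/-! Part D, chunk DSYMA: the symbolic facts about the system A.

Explicit formulas, with `M = 2 (n+1) + 6 k + 2` (all checked by computer):
`T0 i = 0, 9, 0, 9, …`, `T9 i = 9, 0, 9, 0, …`,
`zu n i = 0` for `i < 2 (n+1)`, `= i % 2` else,
`z0 n i = T0 i` for `i < 2 (n+1)`, else entry number `(i - 2 (n+1)) % 6` of `[0,9,3,12,6,15]`,
`z3 n i = T9 i` for `i < 2 (n+1)`, else entry number `(i - 2 (n+1) + 2) % 6` of the same list,
`z6 n i = T9 i` for `i < 2 (n+1)`, else entry number `(i - 2 (n+1) + 4) % 6`,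
`wu n k i = 0` for `i < 2 (n+1)`, `i % 2` for `i < M`, `[0,1,0,1,0,2]` at `(i - M) % 6` else,
`w0 n k i = z6 n i` for `i < M`, `w1 n k i = w2 n k i = z0 n i` for `i < M`, and for `i ≥ M` the entry
number `(i - M + 6 b) % 18` of `[0,9,3,12,6,15,1,10,4,13,7,16,2,11,5,14,8,17]` for `wb`.
`zall`: all entries `e (2 (n+1) + 6 j)` are in `{0,3,6}` and equal, `X_ext`. -/

set_option autoImplicit false

namespace PJ
namespace D

open Filter Topology

structure SymA (T0 T9 : ℕ → ℕ) (zu : ℕ → ℕ → ℤ) (z0 z3 z6 : ℕ → ℕ → ℕ)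
    (wu : ℕ → ℕ → ℕ → ℤ) (w0 w1 w2 : ℕ → ℕ → ℕ → ℕ) : Prop where
  T0X : ((fun _ => 0 : ℕ → ℤ), T0) ∈ combA.X
  T9X : ((fun _ => 0 : ℕ → ℤ), T9) ∈ combA.X
  Tne : T0 ≠ T9
  z0X : ∀ n, (zu n, z0 n) ∈ combA.X
  z3X : ∀ n, (zu n, z3 n) ∈ combA.X
  z6X : ∀ n, (zu n, z6 n) ∈ combA.X
  w0X : ∀ n k, (wu n k, w0 n k) ∈ combA.X
  w1X : ∀ n k, (wu n k, w1 n k) ∈ combA.X
  w2X : ∀ n k, (wu n k, w2 n k) ∈ combA.X
  zu_bd : ∀ n i, |zu n i| ≤ 2
  wu_bd : ∀ n k i, |wu n k i| ≤ 2
  z03 : ∀ n, z0 n ≠ z3 n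
  z06 : ∀ n, z0 n ≠ z6 n
  z36 : ∀ n, z3 n ≠ z6 n
  w01 : ∀ n k, w0 n k ≠ w1 n k
  w02 : ∀ n k, w0 n k ≠ w2 n k
  w12 : ∀ n k, w1 n k ≠ w2 n k
  zu_ne : ∀ n, zu n ≠ fun _ => 0
  wu_ne : ∀ n k, wu n k ≠ zu n
  zall : ∀ n e, (zu n, e) ∈ combA.X → e = z0 n ∨ e = z3 n ∨ e = z6 n
  zlim : ∀ i, ∀ᶠ n in atTop, zu n i = 0 ∧ z0 n i = T0 i ∧ z3 n i = T9 i ∧ z6 n i = T9 i
  wlim : ∀ n i, ∀ᶠ k in atTop, wu n k i = zu n i ∧ w0 n k i = z6 n i ∧ w1 n k i = z0 n i ∧
    w2 n k i = z0 n i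
  T_lt0 : ∀ n, LexLt combA (fun _ => 0) T0 (zu n) (z0 n)
  T_lt3 : ∀ n, LexLt combA (fun _ => 0) T0 (zu n) (z3 n)
  T_lt6 : ∀ n, LexLt combA (fun _ => 0) T0 (zu n) (z6 n)
  w_lt0 : ∀ n k, LexLt combA (wu n k) (w1 n k) (zu n) (z0 n)
  w_lt3 : ∀ n k, LexLt combA (wu n k) (w1 n k) (zu n) (z3 n)
  w_lt6 : ∀ n k, LexLt combA (wu n k) (w1 n k) (zu n) (z6 n)

namespace SA

def T0 (i : ℕ) : ℕ := if i % 2 = 0 then 0 else 9
def T9 (i : ℕ) : ℕ := if i % 2 = 0 then 9 else 0
def C6 (r : ℕ) : ℕ := [0,9,3,12,6,15].getD r 0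
def C18 (r : ℕ) : ℕ := [0,9,3,12,6,15,1,10,4,13,7,16,2,11,5,14,8,17].getD r 0
def L6 (r : ℕ) : ℤ := [0,1,0,1,0,2].getD r 0
def zu (n i : ℕ) : ℤ := if i < 2 * (n + 1) then 0 else ((i % 2 : ℕ) : ℤ)
def zs (a : ℕ) (T : ℕ → ℕ) (n i : ℕ) : ℕ :=
  if i < 2 * (n + 1) then T i else C6 ((i - 2 * (n + 1) + a) % 6)
def MM (n k : ℕ) : ℕ := 2 * (n + 1) + 6 * k + 2
def wu (n k i : ℕ) : ℤ := if i < MM n k then zu n i else L6 ((i - MM n k) % 6)
def ws (b a : ℕ) (T : ℕ → ℕ) (n k i : ℕ) : ℕ :=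
  if i < MM n k then zs a T n i else C18 ((i - MM n k + 6 * b) % 18)

theorem de_six : ∀ s < 6, C6 s = combA.de ((s % 2 : ℕ) : ℤ) (C6 ((s + 1) % 6)) := by
  decide +kernel

theorem de_eighteen : ∀ s < 18, C18 s = combA.de (L6 (s % 6)) (C18 ((s + 1) % 18)) := by
  decide +kernel

theorem de_z9 : combA.de 0 9 = 0 := by decide +kernel
theorem de_z0 : combA.de 0 0 = 9 := by decide +kernel
theorem de_z3 : combA.de 0 3 = 0 := by decide +kernel
theorem de_z6 : combA.de 0 6 = 0 := by decide +kernel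

/-- first step at the end of the initial block, `T` is `T0` with `a = 0` or `T9` with `a = 2, 4`. -/
def OKT (a : ℕ) (T : ℕ → ℕ) : Prop := (a = 0 ∧ T = T0) ∨ (a = 2 ∧ T = T9) ∨ (a = 4 ∧ T = T9)

theorem T0_step (i : ℕ) : T0 i = combA.de 0 (T0 (i + 1)) := by
  unfold T0
  rcases Nat.mod_two_eq_zero_or_one i with h | h
  · rw [if_pos h, if_neg (by omega), de_z9]
  · rw [if_neg (by omega), if_pos (by omega), de_z0]

theorem T9_step (i : ℕ) : T9 i = combA.de 0 (T9 (i + 1)) := by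
  unfold T9
  rcases Nat.mod_two_eq_zero_or_one i with h | h
  · rw [if_pos h, if_neg (by omega), de_z0]
  · rw [if_neg (by omega), if_pos (by omega), de_z9]

theorem OKT_step {a : ℕ} {T : ℕ → ℕ} (h : OKT a T) (i : ℕ) : T i = combA.de 0 (T (i + 1)) := by
  rcases h with ⟨-, rfl⟩ | ⟨-, rfl⟩ | ⟨-, rfl⟩
  · exact T0_step i
  · exact T9_step i
  · exact T9_step i

theorem OKT_last {a : ℕ} {T : ℕ → ℕ} (h : OKT a T) (i : ℕ) (hi : i % 2 = 1) :
    T i = combA.de 0 (C6 (a % 6)) := by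
  rcases h with ⟨rfl, rfl⟩ | ⟨rfl, rfl⟩ | ⟨rfl, rfl⟩
  · have : C6 (0 % 6) = 0 := rfl
    rw [this, de_z0, T0, if_neg (by omega)]
  · have : C6 (2 % 6) = 3 := rfl
    rw [this, de_z3, T9, if_neg (by omega)]
  · have : C6 (4 % 6) = 6 := rfl
    rw [this, de_z6, T9, if_neg (by omega)]

theorem OKT_even {a : ℕ} {T : ℕ → ℕ} (h : OKT a T) : a % 2 = 0 := by
  rcases h with ⟨rfl, -⟩ | ⟨rfl, -⟩ | ⟨rfl, -⟩ <;> rfl

theorem zs_step {a : ℕ} {T : ℕ → ℕ} (h : OKT a T) (n i : ℕ) :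
    zs a T n i = combA.de (zu n i) (zs a T n (i + 1)) := by
  unfold zs zu
  have ha := OKT_even h
  by_cases h1 : i + 1 < 2 * (n + 1)
  · rw [if_pos (by omega), if_pos (by omega), if_pos h1]
    exact OKT_step h i
  · by_cases h2 : i < 2 * (n + 1)
    · rw [if_pos h2, if_pos h2, if_neg h1]
      have : i + 1 - 2 * (n + 1) + a = a := by omega
      rw [this]
      exact OKT_last h i (by omega)
    · rw [if_neg h2, if_neg h2, if_neg h1]
      obtain ⟨s, hs⟩ : ∃ s, s = (i - 2 * (n + 1) + a) % 6 := ⟨_, rfl⟩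
      have h3 : (i + 1 - 2 * (n + 1) + a) % 6 = (s + 1) % 6 := by omega
      have h4 : i % 2 = s % 2 := by omega
      rw [h3, h4, ← hs]
      exact de_six s (by omega)

theorem ws_step {b a : ℕ} {T : ℕ → ℕ} (h : OKT a T)
    (hab : ∀ s, s = (a + 1) % 6 → C6 s = combA.de 1 (C18 ((6 * b) % 18))) (n k i : ℕ) :
    ws b a T n k i = combA.de (wu n k i) (ws b a T n k (i + 1)) := by
  unfold ws wu
  have hM : MM n k = 2 * (n + 1) + 6 * k + 2 := rfl
  by_cases h1 : i + 1 < MM n k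
  · rw [if_pos (by omega), if_pos (by omega), if_pos h1]
    exact zs_step h n i
  · by_cases h2 : i < MM n k
    · rw [if_pos h2, if_pos h2, if_neg h1]
      have h3 : i + 1 - MM n k + 6 * b = 6 * b := by omega
      rw [h3]
      have h4 : zu n i = 1 := by
        unfold zu
        rw [if_neg (by omega)]
        have : i % 2 = 1 := by omega
        rw [this]
        rfl
      rw [h4]
      unfold zs
      rw [if_neg (by omega)]
      exact hab _ (by omega)
    · rw [if_neg h2, if_neg h2, if_neg h1]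
      obtain ⟨s, hs⟩ : ∃ s, s = (i - MM n k + 6 * b) % 18 := ⟨_, rfl⟩
      have h3 : (i + 1 - MM n k + 6 * b) % 18 = (s + 1) % 18 := by omega
      have h4 : (i - MM n k) % 6 = s % 6 := by omega
      rw [h3, h4, ← hs]
      exact de_eighteen s (by omega)

theorem okt0 : OKT 0 T0 := Or.inl ⟨rfl, rfl⟩
theorem okt3 : OKT 2 T9 := Or.inr (Or.inl ⟨rfl, rfl⟩)
theorem okt6 : OKT 4 T9 := Or.inr (Or.inr ⟨rfl, rfl⟩)

theorem zu_bd (n i : ℕ) : |zu n i| ≤ 2 := by
  unfold zu
  split_ifs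
  · norm_num
  · rcases Nat.mod_two_eq_zero_or_one i with h | h <;> rw [h] <;> norm_num

theorem L6_bd : ∀ s < 6, |L6 s| ≤ 2 := by decide +kernel

theorem wu_bd (n k i : ℕ) : |wu n k i| ≤ 2 := by
  unfold wu
  split_ifs
  · exact zu_bd n i
  · exact L6_bd _ (Nat.mod_lt _ (by norm_num))

theorem f6_mem : ∀ e ≤ 17, (combA.de 0 (combA.de 1 (combA.de 0 (combA.de 1 (combA.de 0
    (combA.de 1 e)))))) ∈ [0, 3, 6] := by
  decide +kernel

theorem f6_fix : ∀ e ∈ [0, 3, 6], (combA.de 0 (combA.de 1 (combA.de 0 (combA.de 1 (combA.de 0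
    (combA.de 1 e)))))) = e := by
  decide +kernel

theorem zall (n : ℕ) (e : ℕ → ℕ) (he : (zu n, e) ∈ combA.X) :
    e = zs 0 T0 n ∨ e = zs 2 T9 n ∨ e = zs 4 T9 n := by
  have hlet : ∀ i, 2 * (n + 1) ≤ i → zu n i = ((i % 2 : ℕ) : ℤ) := by
    intro i hi
    unfold zu
    rw [if_neg (by omega)]
  have hstep : ∀ i, e i = combA.de (zu n i) (e (i + 1)) := fun i => he i
  have hf6 : ∀ i, 2 * (n + 1) ≤ i → i % 2 = 0 → e i =
      (combA.de 0 (combA.de 1 (combA.de 0 (combA.de 1 (combA.de 0 (combA.de 1 (e (i + 6)))))))) := by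
    intro i hi hpar
    have h0 : zu n i = 0 := by rw [hlet i hi, hpar]; rfl
    have h1 : zu n (i + 1) = 1 := by
      rw [hlet _ (by omega), show (i + 1) % 2 = 1 by omega]; rfl
    have h2 : zu n (i + 2) = 0 := by
      rw [hlet _ (by omega), show (i + 2) % 2 = 0 by omega]; rfl
    have h3 : zu n (i + 3) = 1 := by
      rw [hlet _ (by omega), show (i + 3) % 2 = 1 by omega]; rfl
    have h4 : zu n (i + 4) = 0 := by
      rw [hlet _ (by omega), show (i + 4) % 2 = 0 by omega]; rfl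
    have h5 : zu n (i + 5) = 1 := by
      rw [hlet _ (by omega), show (i + 5) % 2 = 1 by omega]; rfl
    rw [hstep i, h0, hstep (i + 1), h1, hstep (i + 1 + 1), show i + 1 + 1 = i + 2 from rfl, h2,
      hstep (i + 2 + 1), show i + 2 + 1 = i + 3 from rfl, h3, hstep (i + 3 + 1),
      show i + 3 + 1 = i + 4 from rfl, h4, hstep (i + 4 + 1), show i + 4 + 1 = i + 5 from rfl, h5]
  have hmem : ∀ q, e (2 * (n + 1) + 6 * q) ∈ [0, 3, 6] := by
    intro q
    rw [hf6 _ (by omega) (by omega)]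
    refine f6_mem _ ?_
    have := hstep (2 * (n + 1) + 6 * q + 6)
    rw [this]
    exact de_le _ _ _
  have hconst : ∀ q, e (2 * (n + 1) + 6 * q) = e (2 * (n + 1)) := by
    intro q
    induction q with
    | zero => rfl
    | succ q ih =>
      rw [← ih, hf6 (2 * (n + 1) + 6 * q) (by omega) (by omega)]
      have h1 : 2 * (n + 1) + 6 * q + 6 = 2 * (n + 1) + 6 * (q + 1) := by ring
      rw [h1, f6_fix _ (hmem (q + 1))]
  have hz : ∀ a T q, OKT a T → zs a T n (2 * (n + 1) + 6 * q) = C6 a := by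
    intro a T q h
    unfold zs
    rw [if_neg (by omega)]
    congr 1
    rcases h with ⟨rfl, -⟩ | ⟨rfl, -⟩ | ⟨rfl, -⟩ <;> omega
  have hkey : ∀ a T, OKT a T → e (2 * (n + 1)) = C6 a → e = zs a T n := by
    intro a T h h1
    refine X_ext he (fun i => zs_step h n i) ?_
    intro N
    refine ⟨2 * (n + 1) + 6 * N, by omega, ?_⟩
    rw [hconst N, hz a T N h, h1]
  have h0 := hmem 0
  rw [show 2 * (n + 1) + 6 * 0 = 2 * (n + 1) from rfl] at h0
  simp only [List.mem_cons, List.not_mem_nil, or_false] at h0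
  rcases h0 with h | h | h
  · exact Or.inl (hkey 0 T0 okt0 h)
  · exact Or.inr (Or.inl (hkey 2 T9 okt3 h))
  · exact Or.inr (Or.inr (hkey 4 T9 okt6 h))

theorem adr_eq (u : ℕ → ℤ) (e : ℕ → ℕ) (i : ℕ) :
    adr combA u e i = u i + if e (i + 1) = 0 then 1 else 0 := by
  unfold adr Comb.x
  have : combA.rk 0 = 0 := rfl
  rw [this]
  simp only [Nat.le_zero]

theorem zu_lt {n i : ℕ} (h : i < 2 * (n + 1)) : zu n i = 0 := if_pos h
theorem zu_ge {n i : ℕ} (h : 2 * (n + 1) ≤ i) : zu n i = ((i % 2 : ℕ) : ℤ) := if_neg (not_lt.2 h)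
theorem zs_lt {a : ℕ} {T : ℕ → ℕ} {n i : ℕ} (h : i < 2 * (n + 1)) : zs a T n i = T i := if_pos h
theorem zs_ge {a : ℕ} {T : ℕ → ℕ} {n i : ℕ} (h : 2 * (n + 1) ≤ i) :
    zs a T n i = C6 ((i - 2 * (n + 1) + a) % 6) := if_neg (not_lt.2 h)
theorem wu_lt {n k i : ℕ} (h : i < MM n k) : wu n k i = zu n i := if_pos h
theorem wu_ge {n k i : ℕ} (h : MM n k ≤ i) : wu n k i = L6 ((i - MM n k) % 6) := if_neg (not_lt.2 h)
theorem ws_lt {b a : ℕ} {T : ℕ → ℕ} {n k i : ℕ} (h : i < MM n k) : ws b a T n k i = zs a T n i :=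
  if_pos h
theorem ws_ge {b a : ℕ} {T : ℕ → ℕ} {n k i : ℕ} (h : MM n k ≤ i) :
    ws b a T n k i = C18 ((i - MM n k + 6 * b) % 18) := if_neg (not_lt.2 h)

theorem symA' : SymA T0 T9 zu (zs 0 T0) (zs 2 T9) (zs 4 T9) wu (ws 0 4 T9) (ws 1 0 T0)
    (ws 2 0 T0) where
  T0X := T0_step
  T9X := T9_step
  Tne := fun h => absurd (congrFun h 0) (by decide)
  z0X n := zs_step okt0 n
  z3X n := zs_step okt3 n
  z6X n := zs_step okt6 n
  w0X n k := ws_step okt6 (by rintro s rfl; decide +kernel) n k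
  w1X n k := ws_step okt0 (by rintro s rfl; decide +kernel) n k
  w2X n k := ws_step okt0 (by rintro s rfl; decide +kernel) n k
  zu_bd := zu_bd
  wu_bd := wu_bd
  z03 n := by
    intro h
    have := congrFun h 0
    unfold zs at this
    rw [if_pos (by omega), if_pos (by omega)] at this
    exact absurd this (by decide)
  z06 n := by
    intro h
    have := congrFun h 0
    unfold zs at this
    rw [if_pos (by omega), if_pos (by omega)] at this
    exact absurd this (by decide)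
  z36 n := by
    intro h
    have := congrFun h (2 * (n + 1))
    unfold zs at this
    rw [if_neg (by omega), if_neg (by omega), Nat.sub_self] at this
    exact absurd this (by decide)
  w01 n k := by
    intro h
    have := congrFun h 0
    unfold ws zs MM at this
    rw [if_pos (by omega), if_pos (by omega), if_pos (by omega), if_pos (by omega)] at this
    exact absurd this (by decide)
  w02 n k := by
    intro h
    have := congrFun h 0
    unfold ws zs MM at this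
    rw [if_pos (by omega), if_pos (by omega), if_pos (by omega), if_pos (by omega)] at this
    exact absurd this (by decide)
  w12 n k := by
    intro h
    have := congrFun h (MM n k)
    unfold ws at this
    rw [if_neg (lt_irrefl _), if_neg (lt_irrefl _), Nat.sub_self] at this
    exact absurd this (by decide)
  zu_ne n := by
    intro h
    have := congrFun h (2 * (n + 1) + 1)
    unfold zu at this
    rw [if_neg (by omega), show (2 * (n + 1) + 1) % 2 = 1 by omega] at this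
    exact absurd this (by decide)
  wu_ne n k := by
    intro h
    have := congrFun h (MM n k + 5)
    have hM : MM n k = 2 * (n + 1) + 6 * k + 2 := rfl
    unfold wu zu at this
    rw [if_neg (by omega), if_neg (by omega), show (MM n k + 5) % 2 = 1 by omega,
      show (MM n k + 5 - MM n k) % 6 = 5 by omega] at this
    exact absurd this (by decide)
  zall := zall
  zlim i := by
    filter_upwards [eventually_ge_atTop i] with n hn
    unfold zu zs
    rw [if_pos (by omega), if_pos (by omega), if_pos (by omega), if_pos (by omega)]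
    exact ⟨rfl, rfl, rfl, rfl⟩
  wlim n i := by
    filter_upwards [eventually_ge_atTop i] with k hk
    have hM : MM n k = 2 * (n + 1) + 6 * k + 2 := rfl
    unfold wu ws
    rw [if_pos (by omega), if_pos (by omega), if_pos (by omega), if_pos (by omega)]
    exact ⟨rfl, rfl, rfl, rfl⟩
  T_lt0 n := by
    refine ⟨2 * (n + 1) + 5, ?_, ?_⟩
    · intro i hi
      rw [adr_eq, adr_eq]
      by_cases h1 : i + 1 < 2 * (n + 1)
      · rw [zu_lt (by omega), zs_lt h1]
      · by_cases h2 : i < 2 * (n + 1)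
        · rw [zu_lt h2, zs_ge (by omega)]
          have h4 : T0 (i + 1) = 0 := by unfold T0; rw [if_pos (by omega)]
          have h5 : (i + 1 - 2 * (n + 1) + 0) % 6 = 0 := by omega
          rw [h4, h5]
          rfl
        · rw [zu_ge (by omega), zs_ge (by omega)]
          obtain ⟨r, hr⟩ : ∃ r, i = 2 * (n + 1) + r := ⟨i - 2 * (n + 1), by omega⟩
          have h3 : i + 1 - 2 * (n + 1) + 0 = r + 1 := by omega
          have h4 : i % 2 = r % 2 := by omega
          have h5 : T0 (i + 1) = T0 (r + 1) := by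
            unfold T0
            have : (i + 1) % 2 = (r + 1) % 2 := by omega
            rw [this]
          have h6 : r < 5 := by omega
          rw [h3, h4, h5]
          revert h6
          clear h3 h4 h5 hr h1 h2 hi
          revert r
          decide +kernel
    · rw [adr_eq, adr_eq, zu_ge (by omega), zs_ge (by omega),
        show (2 * (n + 1) + 5 + 1 - 2 * (n + 1) + 0) % 6 = 0 by omega,
        show (2 * (n + 1) + 5) % 2 = 1 by omega]
      have h4 : T0 (2 * (n + 1) + 5 + 1) = 0 := by unfold T0; rw [if_pos (by omega)]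
      rw [h4]
      decide
  T_lt3 n := by
    refine ⟨0, fun i hi => absurd hi (Nat.not_lt_zero i), ?_⟩
    rw [adr_eq, adr_eq, zu_lt (by omega), zs_lt (by omega)]
    decide
  T_lt6 n := by
    refine ⟨0, fun i hi => absurd hi (Nat.not_lt_zero i), ?_⟩
    rw [adr_eq, adr_eq, zu_lt (by omega), zs_lt (by omega)]
    decide
  w_lt0 n k := by
    have hM : MM n k = 2 * (n + 1) + 6 * k + 2 := rfl
    refine ⟨MM n k + 3, ?_, ?_⟩
    · intro i hi
      rw [adr_eq, adr_eq]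
      by_cases h1 : i + 1 < MM n k
      · rw [wu_lt (by omega), ws_lt h1]
      · by_cases h2 : i < MM n k
        · rw [wu_lt h2, ws_ge (by omega), zs_ge (by omega),
            show (i + 1 - 2 * (n + 1) + 0) % 6 = 2 by omega,
            show (i + 1 - MM n k + 6 * 1) % 18 = 6 by omega]
          rfl
        · rw [wu_ge (by omega), ws_ge (by omega), zu_ge (by omega), zs_ge (by omega)]
          obtain ⟨r, hr⟩ : ∃ r, i = MM n k + r := ⟨i - MM n k, by omega⟩
          have h3 : (i - MM n k) % 6 = r % 6 := by omega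
          have h4 : (i + 1 - 2 * (n + 1) + 0) % 6 = (r + 3) % 6 := by omega
          have h5 : i % 2 = r % 2 := by omega
          have h6 : (i + 1 - MM n k + 6 * 1) % 18 = (r + 7) % 18 := by omega
          have h7 : r < 3 := by omega
          rw [h3, h4, h5, h6]
          revert h7
          clear h3 h4 h5 h6 hr h1 h2 hi
          revert r
          decide +kernel
    · rw [adr_eq, adr_eq, wu_ge (by omega), ws_ge (by omega), zu_ge (by omega), zs_ge (by omega),
        show (MM n k + 3 - MM n k) % 6 = 3 by omega,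
        show (MM n k + 3 + 1 - MM n k + 6 * 1) % 18 = 10 by omega,
        show (MM n k + 3) % 2 = 1 by omega,
        show (MM n k + 3 + 1 - 2 * (n + 1) + 0) % 6 = 0 by omega]
      decide
  w_lt3 n k := by
    have hM : MM n k = 2 * (n + 1) + 6 * k + 2 := rfl
    refine ⟨0, fun i hi => absurd hi (Nat.not_lt_zero i), ?_⟩
    rw [adr_eq, adr_eq, wu_lt (by omega), ws_lt (by omega), zu_lt (by omega), zs_lt (by omega),
      zs_lt (by omega)]
    decide
  w_lt6 n k := by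
    have hM : MM n k = 2 * (n + 1) + 6 * k + 2 := rfl
    refine ⟨0, fun i hi => absurd hi (Nat.not_lt_zero i), ?_⟩
    rw [adr_eq, adr_eq, wu_lt (by omega), ws_lt (by omega), zu_lt (by omega), zs_lt (by omega),
      zs_lt (by omega)]
    decide

end SA

theorem symA : ∃ (T0 T9 : ℕ → ℕ) (zu : ℕ → ℕ → ℤ) (z0 z3 z6 : ℕ → ℕ → ℕ)
    (wu : ℕ → ℕ → ℕ → ℤ) (w0 w1 w2 : ℕ → ℕ → ℕ → ℕ),
    SymA T0 T9 zu z0 z3 z6 wu w0 w1 w2 :=
  ⟨SA.T0, SA.T9, SA.zu, SA.zs 0 SA.T0, SA.zs 2 SA.T9, SA.zs 4 SA.T9, SA.wu, SA.ws 0 4 SA.T9,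
    SA.ws 1 0 SA.T0, SA.ws 2 0 SA.T0, SA.symA'⟩

end D
end PJ
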