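import Pool.Agent.Lib.H31J.DBase

/-! Part D, chunk DSYMB: the symbolic facts about the system B. See DPLAN.md for the complete
argument (pair graph). -/

set_option autoImplicit false

namespace PJ
namespace D

open Filter Topology

/-! ### Finite tables -/

def tB (j a : ℕ) : ℕ :=
  match j with
  | 0 => ([9, 9, 0, 0, 0, 0, 0, 0, 0, 0, 1, 2, 3, 4, 5, 6, 7, 8] : List ℕ).getD a 0
  | 1 => ([15, 15, 9, 9, 10, 11, 12, 13, 14, 15, 15, 15, 15, 15, 15, 15, 15, 15] :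
      List ℕ).getD a 0
  | _ => ([16, 17, 15, 16, 16, 16, 16, 16, 16, 16, 16, 16, 16, 16, 16, 16, 16, 16] :
      List ℕ).getD a 0

theorem tB_eq : ∀ j : ℕ, j < 3 → ∀ a : ℕ, a < 18 → combB.de (j : ℤ) a = tB j a := by
  decide +kernel

theorem deB_const {j : ℤ} (hj : j < 0 ∨ 3 ≤ j) {a b : ℕ} (ha : a < 18) (hb : b < 18) :
    combB.de j a = combB.de j b := by
  have hsg : ∀ i < 16, 0 ≤ combB.sg i ∧ combB.sg i ≤ 3 := by decide +kernel
  have hx : ∀ a, combB.x j a = j ∨ combB.x j a = j + 1 := by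
    intro a
    unfold Comb.x
    split_ifs
    · right; rfl
    · left; simp
  rcases lt_or_ge j (-1) with h | h
  · have key : ∀ a, combB.de j a = 0 := by
      intro a
      unfold Comb.de
      rw [Finset.card_eq_zero, Finset.filter_eq_empty_iff]
      intro i hi hcon
      have hm : combB.m = 16 := rfl
      rw [hm] at hcon
      rcases hcon with ⟨-, h1⟩ | ⟨h1, h2⟩
      · rcases hx a with h3 | h3 <;> omega
      · have := hsg i h1
        rcases hx a with h3 | h3 <;> omega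
    rw [key, key]
  rcases lt_or_ge 3 j with h' | h'
  · have key : ∀ a, combB.de j a = combB.m + 1 := by
      intro a
      unfold Comb.de
      rw [Finset.filter_true_of_mem, Finset.card_range]
      intro i hi
      have hm : combB.m = 16 := rfl
      rw [Finset.mem_range, hm] at hi
      rw [hm]
      rcases Nat.lt_or_ge i 16 with h1 | h1
      · right
        refine ⟨h1, Or.inl ?_⟩
        have := hsg i h1
        rcases hx a with h3 | h3 <;> omega
      · left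
        refine ⟨by omega, ?_⟩
        rcases hx a with h3 | h3 <;> omega
    rw [key, key]
  · have h2 : j = -1 ∨ j = 3 := by omega
    rcases h2 with rfl | rfl
    · have : ∀ a < 18, combB.de (-1) a = 0 := by decide +kernel
      rw [this a ha, this b hb]
    · have : ∀ a < 18, combB.de 3 a = 17 := by decide +kernel
      rw [this a ha, this b hb]

/-- codes of the pairs: `51` = P1, `52, 53` = P2, `60 + i` = P3 phase `i`, `49` diagonal, `< 49`
rank of a dead pair -/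
def KB (a b : ℕ) : ℕ :=
  (([[49,60,60,52,3,3,52,1,1,51,0,0,0,0,0,0,0,0],
 [60,49,60,5,3,3,5,1,1,1,0,0,0,0,0,0,0,0],
 [60,60,49,5,3,3,5,1,1,1,0,0,0,0,0,0,0,0],
 [52,5,5,49,62,62,52,1,1,1,0,0,0,0,0,0,0,0],
 [3,3,3,62,49,62,3,1,1,1,0,0,0,0,0,0,0,0],
 [3,3,3,62,62,49,3,1,1,1,0,0,0,0,0,0,0,0],
 [52,5,5,52,3,3,49,64,64,1,0,0,0,0,0,0,0,0],
 [1,1,1,1,1,1,64,49,64,1,0,0,0,0,0,0,0,0],
 [1,1,1,1,1,1,64,64,49,1,0,0,0,0,0,0,0,0],
 [51,1,1,1,1,1,1,1,1,49,61,61,53,2,2,53,0,0],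
 [0,0,0,0,0,0,0,0,0,61,49,61,4,2,2,4,0,0],
 [0,0,0,0,0,0,0,0,0,61,61,49,4,2,2,4,0,0],
 [0,0,0,0,0,0,0,0,0,53,4,4,49,63,63,53,0,0],
 [0,0,0,0,0,0,0,0,0,2,2,2,63,49,63,2,0,0],
 [0,0,0,0,0,0,0,0,0,2,2,2,63,63,49,2,0,0],
 [0,0,0,0,0,0,0,0,0,53,4,4,53,2,2,49,65,65],
 [0,0,0,0,0,0,0,0,0,0,0,0,0,0,0,65,49,65],
 [0,0,0,0,0,0,0,0,0,0,0,0,0,0,0,65,65,49]] : List (List ℕ)).getD a []).getD b 0

/-- one transition of the pair graph: code `k` at `n`, letter `j`, code `k'` at `n + 1` -/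
def StepOK (k j k' : ℕ) : Prop :=
  (k = 51 ∧ j = 0 ∧ (k' = 51 ∨ k' = 52 ∨ k' = 60)) ∨
  (k = 52 ∧ j = 0 ∧ k' = 53) ∨
  (k = 53 ∧ j = 1 ∧ (k' = 52 ∨ k' = 60)) ∨
  (k = 60 ∧ j = 0 ∧ k' = 61) ∨ (k = 61 ∧ j = 1 ∧ k' = 62) ∨
  (k = 62 ∧ j = 0 ∧ k' = 63) ∨ (k = 63 ∧ j = 1 ∧ k' = 64) ∨
  (k = 64 ∧ j = 0 ∧ k' = 65) ∨ (k = 65 ∧ j = 2 ∧ k' = 60)

instance (k j k' : ℕ) : Decidable (StepOK k j k') := by
  unfold StepOK
  infer_instance

theorem KB_dead : ∀ j : ℕ, j < 3 → ∀ a : ℕ, a < 18 → ∀ b : ℕ, b < 18 → tB j a ≠ tB j b →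
    KB (tB j a) (tB j b) < 50 → KB a b < KB (tB j a) (tB j b) := by
  decide +kernel

theorem KB_step : ∀ j : ℕ, j < 3 → ∀ a : ℕ, a < 18 → ∀ b : ℕ, b < 18 →
    (tB j a ≠ tB j b ∧ 50 ≤ KB a b) → StepOK (KB (tB j a) (tB j b)) j (KB a b) := by
  decide +kernel

/-! ### Pairs of arms -/

theorem arcB_lt {u : ℕ → ℤ} {e : ℕ → ℕ} (h : (u, e) ∈ combB.X) (n : ℕ) : e n < 18 := by
  have h1 := h n
  simp only at h1
  have h2 := de_le combB (u n) (e (n + 1))
  have h3 : combB.m = 16 := rfl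
  omega

theorem arcB_step {u : ℕ → ℤ} {e : ℕ → ℕ} (h : (u, e) ∈ combB.X) {n j : ℕ} (hj : j < 3)
    (hu : u n = j) : e n = tB j (e (n + 1)) := by
  have h1 := h n
  simp only at h1
  rw [h1, hu, tB_eq j hj _ (arcB_lt h (n + 1))]

theorem letterB {u : ℕ → ℤ} {e e' : ℕ → ℕ} (h : (u, e) ∈ combB.X) (h' : (u, e') ∈ combB.X)
    {n : ℕ} (hn : e n ≠ e' n) : ∃ j : ℕ, j < 3 ∧ u n = j := by
  by_contra hcon
  apply hn
  have h1 := h n
  have h2 := h' n
  simp only at h1 h2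
  rw [h1, h2]
  apply deB_const _ (arcB_lt h _) (arcB_lt h' _)
  by_contra hcon2
  push Not at hcon2
  apply hcon
  exact ⟨(u n).toNat, by omega, by omega⟩

theorem pair_up {u : ℕ → ℤ} {e e' : ℕ → ℕ} (h : (u, e) ∈ combB.X) (h' : (u, e') ∈ combB.X)
    {n k : ℕ} (hk : n ≤ k) (hn : e n ≠ e' n) : e k ≠ e' k :=
  fun hc => hn (X_down h h' hk hc)

theorem pair_alive_aux {u : ℕ → ℤ} {e e' : ℕ → ℕ} (h : (u, e) ∈ combB.X)
    (h' : (u, e') ∈ combB.X) : ∀ m n, KB (e n) (e' n) = m → m < 50 → e n = e' n := by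
  intro m
  induction m using Nat.strong_induction_on with
  | _ m ih =>
    intro n hm hm50
    by_contra hn
    obtain ⟨j, hj, hu⟩ := letterB h h' hn
    have h1 := arcB_step h hj hu
    have h2 := arcB_step h' hj hu
    have h3 := KB_dead j hj _ (arcB_lt h (n + 1)) _ (arcB_lt h' (n + 1))
      (by rw [← h1, ← h2]; exact hn) (by rw [← h1, ← h2]; omega)
    rw [← h1, ← h2, hm] at h3
    exact pair_up h h' (Nat.le_succ n) hn (ih _ h3 (n + 1) rfl (by omega))

theorem pair_alive {u : ℕ → ℤ} {e e' : ℕ → ℕ} (h : (u, e) ∈ combB.X)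
    (h' : (u, e') ∈ combB.X) {n : ℕ} (hn : e n ≠ e' n) : 50 ≤ KB (e n) (e' n) := by
  by_contra hc
  exact hn (pair_alive_aux h h' _ n rfl (by omega))

theorem pair_step {u : ℕ → ℤ} {e e' : ℕ → ℕ} (h : (u, e) ∈ combB.X)
    (h' : (u, e') ∈ combB.X) {n : ℕ} (hn : e n ≠ e' n) :
    ∃ j : ℕ, u n = j ∧ StepOK (KB (e n) (e' n)) j (KB (e (n + 1)) (e' (n + 1))) := by
  obtain ⟨j, hj, hu⟩ := letterB h h' hn
  have h1 := arcB_step h hj hu
  have h2 := arcB_step h' hj hu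
  refine ⟨j, hu, ?_⟩
  rw [h1, h2]
  exact KB_step j hj _ (arcB_lt h (n + 1)) _ (arcB_lt h' (n + 1))
    ⟨by rw [← h1, ← h2]; exact hn, pair_alive h h' (pair_up h h' (Nat.le_succ n) hn)⟩

/-- the periodic sequence 010102 -/
def c2 (i : ℕ) : ℤ := ([0, 1, 0, 1, 0, 2] : List ℤ).getD (i % 6) 0

theorem tail3 {u : ℕ → ℤ} {e e' : ℕ → ℕ} (h : (u, e) ∈ combB.X) (h' : (u, e') ∈ combB.X)
    {n i : ℕ} (hn : e n ≠ e' n) (hi : i < 6) (hc : KB (e n) (e' n) = 60 + i) (d : ℕ) :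
    KB (e (n + d)) (e' (n + d)) = 60 + (i + d) % 6 ∧ u (n + d) = c2 (i + d) := by
  have key : ∀ d, KB (e (n + d)) (e' (n + d)) = 60 + (i + d) % 6 := by
    intro d
    induction d with
    | zero => rw [Nat.add_zero, Nat.add_zero, hc, Nat.mod_eq_of_lt hi]
    | succ d ih =>
      obtain ⟨j, hu, hs⟩ := pair_step h h' (pair_up h h' (Nat.le_add_right n d) hn)
      unfold StepOK at hs
      rw [← add_assoc n d 1]
      omega
  refine ⟨key d, ?_⟩
  obtain ⟨j, hu, hs⟩ := pair_step h h' (pair_up h h' (Nat.le_add_right n d) hn)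
  unfold StepOK at hs
  have h1 := key d
  have h2 : (i + d) % 6 < 6 := Nat.mod_lt _ (by norm_num)
  rw [hu]
  unfold c2
  generalize (i + d) % 6 = r at h1 h2
  interval_cases r <;> simp at h1 ⊢ <;> omega

theorem tail2 {u : ℕ → ℤ} {e e' : ℕ → ℕ} (h : (u, e) ∈ combB.X) (h' : (u, e') ∈ combB.X)
    {n i : ℕ} (hn : e n ≠ e' n) (hi : i < 2) (hc : KB (e n) (e' n) = 52 + i) (d : ℕ)
    (hlt : ∀ k, k ≤ d → KB (e (n + k)) (e' (n + k)) < 60) :
    KB (e (n + d)) (e' (n + d)) = 52 + (i + d) % 2 ∧ u (n + d) = ((i + d) % 2 : ℕ) := by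
  have key : KB (e (n + d)) (e' (n + d)) = 52 + (i + d) % 2 := by
    induction d with
    | zero => rw [Nat.add_zero, Nat.add_zero, hc, Nat.mod_eq_of_lt hi]
    | succ d ih =>
      have ih' := ih fun k hk => hlt k (by omega)
      obtain ⟨j, hu, hs⟩ := pair_step h h' (pair_up h h' (Nat.le_add_right n d) hn)
      have h1 := hlt (d + 1) le_rfl
      unfold StepOK at hs
      rw [← add_assoc n d 1] at h1 ⊢
      omega
  refine ⟨key, ?_⟩
  obtain ⟨j, hu, hs⟩ := pair_step h h' (pair_up h h' (Nat.le_add_right n d) hn)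
  unfold StepOK at hs
  rw [hu]
  have : j = (i + d) % 2 := by omega
  rw [this]

theorem tail1 {u : ℕ → ℤ} {e e' : ℕ → ℕ} (h : (u, e) ∈ combB.X) (h' : (u, e') ∈ combB.X)
    {n : ℕ} (hn : e n ≠ e' n) (hc : KB (e n) (e' n) = 51) : u n = 0 := by
  obtain ⟨j, hu, hs⟩ := pair_step h h' hn
  unfold StepOK at hs
  have : j = 0 := by omega
  rw [hu, this]
  rfl

theorem code_lt {u : ℕ → ℤ} {e e' : ℕ → ℕ} (h : (u, e) ∈ combB.X) (h' : (u, e') ∈ combB.X)
    {n : ℕ} (hn : e n ≠ e' n) : KB (e n) (e' n) < 66 := by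
  obtain ⟨j, hu, hs⟩ := pair_step h h' hn
  unfold StepOK at hs
  omega

theorem same3 {u u' : ℕ → ℤ} {e e' f f' : ℕ → ℕ} (h : (u, e) ∈ combB.X)
    (h' : (u, e') ∈ combB.X) (g : (u', f) ∈ combB.X) (g' : (u', f') ∈ combB.X) {n : ℕ}
    (hn : e n ≠ e' n) (h60 : 60 ≤ KB (e n) (e' n)) (h1 : f n = e n) (h2 : f' n = e' n)
    (hlt : ∀ i, i < n → u i = u' i) : u = u' := by
  have h66 := code_lt h h' hn
  obtain ⟨i, hi⟩ : ∃ i, KB (e n) (e' n) = 60 + i := ⟨_, (Nat.add_sub_cancel' h60).symm⟩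
  have hi6 : i < 6 := by omega
  funext k
  rcases Nat.lt_or_ge k n with hk | hk
  · exact hlt k hk
  · obtain ⟨d, rfl⟩ := Nat.exists_eq_add_of_le hk
    rw [(tail3 h h' hn hi6 hi d).2,
      (tail3 g g' (n := n) (by rw [h1, h2]; exact hn) hi6 (by rw [h1, h2]; exact hi) d).2]

/-- two itineraries with the same letters before `n` and the same arc at `n` -/
theorem X_down' {C : Comb} {u u' : ℕ → ℤ} {e e' : ℕ → ℕ} (h : (u, e) ∈ C.X)
    (h' : (u', e') ∈ C.X) {n k : ℕ} (hu : ∀ i, i < n → u i = u' i) (hn : e n = e' n)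
    (hk : k ≤ n) : e k = e' k := by
  obtain ⟨d, rfl⟩ := Nat.exists_eq_add_of_le hk
  clear hk
  induction d with
  | zero => exact hn
  | succ d ih =>
    apply ih (fun i hi => hu i (by omega))
    have h1 := h (k + d)
    have h2 := h' (k + d)
    simp only at h1 h2
    rw [h1, h2, show k + d + 1 = k + (d + 1) from rfl, hn, hu (k + d) (by omega)]

/-! ### Explicit arms over (01)^∞ and (010102)^∞ -/

def L1 (i : ℕ) : ℕ := ([0, 9, 3, 12, 6, 15] : List ℕ).getD (i % 6) 0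

theorem win01 : ∀ a : ℕ, a < 18 → (tB 0 (tB 1 (tB 0 (tB 1 (tB 0 (tB 1 a)))))) = 0 ∨
    (tB 0 (tB 1 (tB 0 (tB 1 (tB 0 (tB 1 a)))))) = 3 ∨
    (tB 0 (tB 1 (tB 0 (tB 1 (tB 0 (tB 1 a)))))) = 6 := by decide +kernel

theorem arm01_mem {u : ℕ → ℤ} {e : ℕ → ℕ} (h : (u, e) ∈ combB.X) {N : ℕ}
    (hu : ∀ d, u (N + d) = (d % 2 : ℕ)) (k : ℕ) :
    e (N + 2 * k) = 0 ∨ e (N + 2 * k) = 3 ∨ e (N + 2 * k) = 6 := by
  have s0 : e (N + 2 * k) = tB 0 (e (N + 2 * k + 1)) :=
    arcB_step h (by norm_num) (by rw [hu]; norm_cast; omega)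
  have s1 : e (N + 2 * k + 1) = tB 1 (e (N + 2 * k + 2)) :=
    arcB_step h (by norm_num) (by rw [add_assoc, hu]; norm_cast; omega)
  have s2 : e (N + 2 * k + 2) = tB 0 (e (N + 2 * k + 3)) :=
    arcB_step h (by norm_num) (by rw [add_assoc, hu]; norm_cast; omega)
  have s3 : e (N + 2 * k + 3) = tB 1 (e (N + 2 * k + 4)) :=
    arcB_step h (by norm_num) (by rw [add_assoc, hu]; norm_cast; omega)
  have s4 : e (N + 2 * k + 4) = tB 0 (e (N + 2 * k + 5)) :=
    arcB_step h (by norm_num) (by rw [add_assoc, hu]; norm_cast; omega)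
  have s5 : e (N + 2 * k + 5) = tB 1 (e (N + 2 * k + 6)) :=
    arcB_step h (by norm_num) (by rw [add_assoc, hu]; norm_cast; omega)
  rw [s0, s1, s2, s3, s4, s5]
  exact win01 _ (arcB_lt h _)

theorem arm01 {u : ℕ → ℤ} {e : ℕ → ℕ} (h : (u, e) ∈ combB.X) {N : ℕ}
    (hu : ∀ d, u (N + d) = (d % 2 : ℕ)) :
    ∃ r, (r = 0 ∨ r = 2 ∨ r = 4) ∧ ∀ i, e (N + i) = L1 (i + r) := by
  obtain ⟨r, hr, hr0⟩ : ∃ r, (r = 0 ∨ r = 2 ∨ r = 4) ∧ e N = L1 r := by
    rcases arm01_mem h hu 0 with h0 | h0 | h0 <;> rw [Nat.mul_zero, Nat.add_zero] at h0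
    · exact ⟨0, by simp, by rw [h0]; rfl⟩
    · exact ⟨2, by simp, by rw [h0]; rfl⟩
    · exact ⟨4, by simp, by rw [h0]; rfl⟩
  refine ⟨r, hr, ?_⟩
  have st : ∀ k, e (N + 2 * k) = tB 0 (tB 1 (e (N + 2 * (k + 1)))) := by
    intro k
    have s0 : e (N + 2 * k) = tB 0 (e (N + 2 * k + 1)) :=
      arcB_step h (by norm_num) (by rw [hu]; norm_cast; omega)
    have s1 : e (N + 2 * k + 1) = tB 1 (e (N + 2 * k + 2)) :=
      arcB_step h (by norm_num) (by rw [add_assoc, hu]; norm_cast; omega)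
    rw [s0, s1]
    rfl
  have ev : ∀ k, e (N + 2 * k) = L1 (2 * k + r) := by
    intro k
    induction k with
    | zero => rw [Nat.mul_zero, Nat.add_zero, Nat.zero_add, hr0]
    | succ k ih =>
      have h1 := st k
      have h2 := arm01_mem h hu (k + 1)
      have h3 : (2 * k + r) % 6 = 0 ∨ (2 * k + r) % 6 = 2 ∨ (2 * k + r) % 6 = 4 := by omega
      rw [ih] at h1
      unfold L1 at h1 ⊢
      rcases h3 with h3 | h3 | h3 <;> rw [h3] at h1 <;>
        rcases h2 with h2 | h2 | h2 <;> rw [h2] at h1 ⊢ <;>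
        first
        | (exfalso; revert h1; decide)
        | (have h4 : (2 * (k + 1) + r) % 6 = 2 := by omega
           rw [h4]; rfl)
        | (have h4 : (2 * (k + 1) + r) % 6 = 4 := by omega
           rw [h4]; rfl)
        | (have h4 : (2 * (k + 1) + r) % 6 = 0 := by omega
           rw [h4]; rfl)
  intro i
  obtain ⟨k, hk | hk⟩ := Nat.even_or_odd' i
  · subst hk; exact ev k
  · subst hk
    have s1 : e (N + 2 * k + 1) = tB 1 (e (N + 2 * k + 2)) :=
      arcB_step h (by norm_num) (by rw [add_assoc, hu]; norm_cast; omega)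
    have h2 := ev (k + 1)
    rw [← add_assoc, s1, show N + 2 * k + 2 = N + 2 * (k + 1) by ring, h2]
    have h3 : (2 * k + r) % 6 = 0 ∨ (2 * k + r) % 6 = 2 ∨ (2 * k + r) % 6 = 4 := by omega
    unfold L1
    rcases h3 with h3 | h3 | h3
    · rw [show (2 * (k + 1) + r) % 6 = 2 by omega, show (2 * k + 1 + r) % 6 = 1 by omega]
      rfl
    · rw [show (2 * (k + 1) + r) % 6 = 4 by omega, show (2 * k + 1 + r) % 6 = 3 by omega]
      rfl
    · rw [show (2 * (k + 1) + r) % 6 = 0 by omega, show (2 * k + 1 + r) % 6 = 5 by omega]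
      rfl

theorem win2 : ∀ a : ℕ, a < 18 → (tB 0 (tB 1 (tB 0 (tB 1 (tB 0 (tB 2 a)))))) < 3 := by
  decide +kernel

theorem win2_inj : ∀ a : ℕ, a < 3 → ∀ b : ℕ, b < 3 →
    (tB 0 (tB 1 (tB 0 (tB 1 (tB 0 (tB 2 a)))))) = (tB 0 (tB 1 (tB 0 (tB 1 (tB 0 (tB 2 b)))))) →
    a = b := by
  decide +kernel

theorem arm2_win {u : ℕ → ℤ} {e : ℕ → ℕ} (h : (u, e) ∈ combB.X) {M : ℕ}
    (hu : ∀ d, u (M + d) = c2 d) (k : ℕ) :
    e (M + 6 * k) = tB 0 (tB 1 (tB 0 (tB 1 (tB 0 (tB 2 (e (M + 6 * (k + 1)))))))) := by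
  have s0 : e (M + 6 * k) = tB 0 (e (M + 6 * k + 1)) :=
    arcB_step h (by norm_num) (by
      rw [hu]; unfold c2; rw [show (6 * k) % 6 = 0 by omega]; rfl)
  have s1 : e (M + 6 * k + 1) = tB 1 (e (M + 6 * k + 2)) :=
    arcB_step h (by norm_num) (by
      rw [add_assoc, hu]; unfold c2; rw [show (6 * k + 1) % 6 = 1 by omega]; rfl)
  have s2 : e (M + 6 * k + 2) = tB 0 (e (M + 6 * k + 3)) :=
    arcB_step h (by norm_num) (by
      rw [add_assoc, hu]; unfold c2; rw [show (6 * k + 2) % 6 = 2 by omega]; rfl)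
  have s3 : e (M + 6 * k + 3) = tB 1 (e (M + 6 * k + 4)) :=
    arcB_step h (by norm_num) (by
      rw [add_assoc, hu]; unfold c2; rw [show (6 * k + 3) % 6 = 3 by omega]; rfl)
  have s4 : e (M + 6 * k + 4) = tB 0 (e (M + 6 * k + 5)) :=
    arcB_step h (by norm_num) (by
      rw [add_assoc, hu]; unfold c2; rw [show (6 * k + 4) % 6 = 4 by omega]; rfl)
  have s5 : e (M + 6 * k + 5) = tB 2 (e (M + 6 * k + 6)) :=
    arcB_step h (by norm_num) (by
      rw [add_assoc, hu]; unfold c2; rw [show (6 * k + 5) % 6 = 5 by omega]; rfl)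
  rw [s0, s1, s2, s3, s4, s5]
  rfl

theorem arm2_mem {u : ℕ → ℤ} {e : ℕ → ℕ} (h : (u, e) ∈ combB.X) {M : ℕ}
    (hu : ∀ d, u (M + d) = c2 d) (k : ℕ) : e (M + 6 * k) < 3 := by
  rw [arm2_win h hu k]
  exact win2 _ (arcB_lt h _)

theorem arm2_ext {u : ℕ → ℤ} {e f : ℕ → ℕ} (h : (u, e) ∈ combB.X) (h' : (u, f) ∈ combB.X)
    {M : ℕ} (hu : ∀ d, u (M + d) = c2 d) (he : e M = f M) : e = f := by
  have key : ∀ k, e (M + 6 * k) = f (M + 6 * k) := by
    intro k
    induction k with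
    | zero => exact he
    | succ k ih =>
      apply win2_inj _ (arm2_mem h hu _) _ (arm2_mem h' hu _)
      rw [← arm2_win h hu k, ← arm2_win h' hu k, ih]
  exact X_ext h h' fun N => ⟨M + 6 * N, by omega, key N⟩

/-! ### Going down through (01)^q -/

def gB (a : ℕ) : ℕ := tB 0 (tB 1 a)

theorem iter01 {u : ℕ → ℤ} {e : ℕ → ℕ} (h : (u, e) ∈ combB.X) {N : ℕ} (q : ℕ)
    (hu : ∀ d, d < 2 * q → u (N + d) = (d % 2 : ℕ)) : e N = gB^[q] (e (N + 2 * q)) := by
  induction q with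
  | zero => rfl
  | succ q ih =>
    rw [ih fun d hd => hu d (by omega), Function.iterate_succ_apply]
    congr 1
    have s0 : e (N + 2 * q) = tB 0 (e (N + 2 * q + 1)) :=
      arcB_step h (by norm_num) (by rw [hu _ (by omega)]; norm_cast; omega)
    have s1 : e (N + 2 * q + 1) = tB 1 (e (N + 2 * q + 2)) :=
      arcB_step h (by norm_num) (by rw [add_assoc, hu _ (by omega)]; norm_cast; omega)
    rw [s0, s1]
    rfl

theorem gB3 (k : ℕ) : gB^[3 * k] 0 = 0 ∧ gB^[3 * k] 3 = 3 ∧ gB^[3 * k] 6 = 6 := by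
  induction k with
  | zero => simp
  | succ k ih =>
    have h : 3 * (k + 1) = 3 * k + 3 := by ring
    rw [h, Function.iterate_add_apply, Function.iterate_add_apply, Function.iterate_add_apply]
    have h0 : gB^[3] 0 = 0 := by decide
    have h3 : gB^[3] 3 = 3 := by decide
    have h6 : gB^[3] 6 = 6 := by decide
    rw [h0, h3, h6]
    exact ih

theorem gB_low {q x : ℕ} (hx : x = 0 ∨ x = 1) (h : gB^[q] x = 0) : q % 3 = 0 := by
  have h6 : gB x = 6 := by rcases hx with rfl | rfl <;> decide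
  by_contra hcon
  have hq' : q = 3 * (q / 3) + 1 ∨ q = 3 * (q / 3) + 2 := by omega
  rcases hq' with hq' | hq'
  · rw [hq', Function.iterate_add_apply, Function.iterate_one, h6, (gB3 _).2.2] at h
    omega
  · rw [hq', Function.iterate_add_apply] at h
    have : gB^[2] x = 3 := by
      rw [Function.iterate_succ_apply, Function.iterate_one, h6]
      decide
    rw [this, (gB3 _).2.1] at h
    omega

theorem gB_two {q : ℕ} (hq : 0 < q) (h3 : q % 3 = 0) : gB^[q] 2 = 3 := by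
  obtain ⟨k, rfl⟩ : ∃ k, q = 3 * k + 3 := ⟨q / 3 - 1, by omega⟩
  rw [Function.iterate_add_apply]
  have : gB^[3] 2 = 3 := by decide
  rw [this, (gB3 _).2.1]

/-! ### The main argument -/

theorem ev_le {P : ℕ → ℕ → Prop} (h : ∀ i, ∀ᶠ m in atTop, P m i) (n : ℕ) :
    ∀ᶠ m in atTop, ∀ i, i ≤ n → P m i := by
  induction n with
  | zero =>
    refine (h 0).mono fun m hm i hi => ?_
    rw [Nat.le_zero.1 hi]
    exact hm
  | succ n ih =>
    refine (ih.and (h (n + 1))).mono fun m hm i hi => ?_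
    rcases Nat.lt_or_ge i (n + 1) with h1 | h1
    · exact hm.1 i (by omega)
    · rw [le_antisymm hi h1]
      exact hm.2

theorem lex_final {A0 C B R : ℕ → ℤ} {n1 n2 n3 : ℕ} (h1 : ∀ i, i < n1 → A0 i = C i)
    (h2 : ∀ i, i < n2 → R i = B i) (h3 : n3 < n1) (h4 : n3 < n2) (h5 : C n3 ≠ B n3) :
    ((∃ n, (∀ i, i < n → A0 i = B i) ∧ A0 n < B n) ∧
      (∃ n, (∀ i, i < n → C i = R i) ∧ C n < R n)) ∨
    ((∃ n, (∀ i, i < n → B i = A0 i) ∧ B n < A0 n) ∧
      (∃ n, (∀ i, i < n → R i = C i) ∧ R n < C n)) := by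
  classical
  have hex : ∃ n, C n ≠ B n := ⟨n3, h5⟩
  obtain ⟨m, hm, hmin⟩ : ∃ m, C m ≠ B m ∧ ∀ i, i < m → C i = B i :=
    ⟨Nat.find hex, Nat.find_spec hex, fun i hi => not_not.1 (Nat.find_min hex hi)⟩
  have hm3 : m ≤ n3 := by
    by_contra hc
    exact h5 (hmin n3 (by omega))
  rcases lt_or_gt_of_ne hm with h | h
  · left
    exact ⟨⟨m, fun i hi => by rw [h1 i (by omega), hmin i hi], by rw [h1 m (by omega)]; exact h⟩,
      ⟨m, fun i hi => by rw [h2 i (by omega), hmin i hi], by rw [h2 m (by omega)]; exact h⟩⟩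
  · right
    exact ⟨⟨m, fun i hi => by rw [h1 i (by omega), hmin i hi], by rw [h1 m (by omega)]; exact h⟩,
      ⟨m, fun i hi => by rw [h2 i (by omega), hmin i hi], by rw [h2 m (by omega)]; exact h⟩⟩

theorem K51 : ∀ a : ℕ, a < 18 → ∀ b : ℕ, b < 18 → KB a b = 51 →
    (a = 0 ∧ b = 9) ∨ (a = 9 ∧ b = 0) := by decide +kernel

theorem K60 : ∀ a : ℕ, a < 18 → ∀ b : ℕ, b < 18 → KB a b = 60 → a < 3 ∧ b < 3 := by
  decide +kernel

theorem pre2 : ∀ a : ℕ, a < 18 → (tB 0 a = 2 → a = 11) ∧ (tB 1 a = 11 → a = 5) ∧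
    (tB 0 a = 5 → a = 14) ∧ (tB 1 a = 14 → a = 8) := by decide +kernel

theorem adrB (u : ℕ → ℤ) (e : ℕ → ℕ) (n : ℕ) :
    adr combB u e n = u n + if e (n + 1) ≤ 1 then 1 else 0 := rfl

theorem symB {U : ℕ → ℤ} {a0 a9 : ℕ → ℕ} (h0 : (U, a0) ∈ combB.X) (h9 : (U, a9) ∈ combB.X)
    (hne : a0 ≠ a9) {u : ℕ → ℕ → ℤ} {a b c : ℕ → ℕ → ℕ}
    (ha : ∀ n, (u n, a n) ∈ combB.X) (hb : ∀ n, (u n, b n) ∈ combB.X)
    (hc : ∀ n, (u n, c n) ∈ combB.X) (hab : ∀ n, a n ≠ b n) (hac : ∀ n, a n ≠ c n)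
    (hbc : ∀ n, b n ≠ c n) (hu : ∀ i, ∀ᶠ n in atTop, u n i = U i)
    (hal : ∀ i, ∀ᶠ n in atTop, a n i = a9 i) (hbl : ∀ i, ∀ᶠ n in atTop, b n i = a9 i)
    (hcl : ∀ i, ∀ᶠ n in atTop, c n i = a0 i) (huU : ∀ n, u n ≠ U)
    {v : ℕ → ℕ → ℕ → ℤ} {r0 r1 r2 : ℕ → ℕ → ℕ → ℕ}
    (hr0 : ∀ n k, (v n k, r0 n k) ∈ combB.X) (hr1 : ∀ n k, (v n k, r1 n k) ∈ combB.X)
    (hr2 : ∀ n k, (v n k, r2 n k) ∈ combB.X)
    (r01 : ∀ n k, r0 n k ≠ r1 n k) (r02 : ∀ n k, r0 n k ≠ r2 n k)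
    (r12 : ∀ n k, r1 n k ≠ r2 n k)
    (hv : ∀ n i, ∀ᶠ k in atTop, v n k i = u n i)
    (hr0l : ∀ n i, ∀ᶠ k in atTop, r0 n k i = b n i)
    (hr1l : ∀ n i, ∀ᶠ k in atTop, r1 n k i = c n i)
    (hr2l : ∀ n i, ∀ᶠ k in atTop, r2 n k i = c n i)
    (hvu : ∀ n k, v n k ≠ u n) :
    ∃ n k, LexLt combB U a0 (u n) (c n) ∧ LexLt combB (v n k) (r0 n k) (u n) (b n) ∧
      ((LexLt combB U a0 (u n) (b n) ∧ LexLt combB (u n) (c n) (v n k) (r0 n k)) ∨
        (LexLt combB (u n) (b n) U a0 ∧ LexLt combB (v n k) (r0 n k) (u n) (c n))) := by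
  classical
  obtain ⟨L, hL⟩ : ∃ L, a0 L ≠ a9 L := Function.ne_iff.1 hne
  have hLn : ∀ n, L ≤ n → a0 n ≠ a9 n := fun n hn => pair_up h0 h9 hn hL
  have close : ∀ n, ∀ᶠ m in atTop, ∀ i, i ≤ n →
      u m i = U i ∧ a m i = a9 i ∧ b m i = a9 i ∧ c m i = a0 i := fun n =>
    ev_le (fun i => (hu i).and ((hal i).and ((hbl i).and (hcl i)))) n
  have close2 : ∀ m n, ∀ᶠ k in atTop, ∀ i, i ≤ n →
      v m k i = u m i ∧ r0 m k i = b m i ∧ r1 m k i = c m i ∧ r2 m k i = c m i := fun m n =>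
    ev_le (fun i => (hv m i).and ((hr0l m i).and ((hr1l m i).and (hr2l m i)))) n
  -- step 1
  have st1 : ∀ n, L ≤ n → KB (a0 n) (a9 n) < 60 := by
    intro n hn
    by_contra hcon
    push Not at hcon
    obtain ⟨m, hm⟩ := (close n).exists
    exact huU m (same3 h0 h9 (hc m) (ha m) (hLn n hn) hcon (hm n le_rfl).2.2.2
      (hm n le_rfl).2.1 fun i hi => (hm i hi.le).1.symm).symm
  -- step 2
  have st2 : ∀ m, (∀ i, i ≤ L → u m i = U i ∧ a m i = a9 i ∧ b m i = a9 i ∧ c m i = a0 i) →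
      ∀ n, L ≤ n → KB (c m n) (b m n) < 60 := by
    intro m hm n hn
    by_contra hcon
    push Not at hcon
    have hd : c m n ≠ b m n := pair_up (hc m) (hb m) hn (by
      rw [(hm L le_rfl).2.2.2, (hm L le_rfl).2.2.1]; exact hL)
    obtain ⟨k, hk⟩ := (close2 m n).exists
    exact hvu m k (same3 (hc m) (hb m) (hr1 m k) (hr0 m k) hd hcon (hk n le_rfl).2.2.1
      (hk n le_rfl).2.1 fun i hi => (hk i hi.le).1.symm).symm
  -- step 3
  have st3 : ∀ n, L ≤ n → KB (a0 n) (a9 n) = 51 := by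
    intro n hn
    by_contra hcon
    obtain ⟨j, -, hs⟩ := pair_step h0 h9 (hLn n hn)
    have h60 := st1 n hn
    unfold StepOK at hs
    obtain ⟨i, hi, hi2⟩ : ∃ i, KB (a0 n) (a9 n) = 52 + i ∧ i < 2 :=
      ⟨KB (a0 n) (a9 n) - 52, by omega, by omega⟩
    obtain ⟨m, hm⟩ := (close n).exists
    have hm' := st2 m fun i hi => hm i (hi.trans hn)
    apply huU m
    funext x
    rcases Nat.lt_or_ge x n with hx | hx
    · exact (hm x hx.le).1
    · obtain ⟨d, rfl⟩ := Nat.exists_eq_add_of_le hx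
      rw [(tail2 h0 h9 (hLn n hn) hi2 hi d fun k hk => st1 _ (by omega)).2,
        (tail2 (hc m) (hb m) (n := n) (i := i) (by
          rw [(hm n le_rfl).2.2.2, (hm n le_rfl).2.2.1]; exact hLn n hn) hi2 (by
          rw [(hm n le_rfl).2.2.2, (hm n le_rfl).2.2.1]; exact hi) d
          fun k hk => hm' _ (by omega)).2]
  have hU0 : ∀ n, L ≤ n → U n = 0 := fun n hn => tail1 h0 h9 (hLn n hn) (st3 n hn)
  have ha0 : ∀ n, L ≤ n → a0 n = 0 ∨ a0 n = 9 := by
    intro n hn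
    rcases K51 _ (arcB_lt h0 n) _ (arcB_lt h9 n) (st3 n hn) with h | h
    · exact Or.inl h.1
    · exact Or.inr h.1
  -- step 4
  obtain ⟨m, hm⟩ := (close L).exists
  have hA := ha m
  have hB := hb m
  have hC := hc m
  have hcb : ∀ n, L ≤ n → c m n ≠ b m n := fun n hn => pair_up hC hB hn (by
    rw [(hm L le_rfl).2.2.2, (hm L le_rfl).2.2.1]; exact hL)
  have hca : ∀ n, L ≤ n → c m n ≠ a m n := fun n hn => pair_up hC hA hn (by
    rw [(hm L le_rfl).2.2.2, (hm L le_rfl).2.1]; exact hL)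
  have hlt60 := st2 m hm
  have hex : ∃ n, L ≤ n ∧ KB (c m n) (b m n) ≠ 51 := by
    by_contra hcon
    push Not at hcon
    apply huU m
    funext x
    rcases Nat.lt_or_ge x L with hx | hx
    · exact (hm x hx.le).1
    · rw [hU0 x hx, tail1 hC hB (hcb x hx) (hcon x hx)]
  obtain ⟨N, ⟨hLN, hN51⟩, hNmin⟩ : ∃ N, (L ≤ N ∧ KB (c m N) (b m N) ≠ 51) ∧
      ∀ n, L ≤ n → n < N → KB (c m n) (b m n) = 51 := by
    refine ⟨Nat.find hex, Nat.find_spec hex, fun n hn hlt => ?_⟩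
    have := Nat.find_min hex hlt
    by_contra hcc
    exact this ⟨hn, hcc⟩
  have hLN' : L < N := by
    rcases Nat.lt_or_ge L N with h | h
    · exact h
    · exfalso
      apply hN51
      rw [le_antisymm h hLN, (hm L le_rfl).2.2.2, (hm L le_rfl).2.2.1]
      exact st3 L le_rfl
  obtain ⟨N', rfl⟩ : ∃ N', N = N' + 1 := ⟨N - 1, by omega⟩
  have hN52 : KB (c m (N' + 1)) (b m (N' + 1)) = 52 := by
    obtain ⟨j, -, hs⟩ := pair_step hC hB (hcb N' (by omega))
    have h1 := hNmin N' (by omega) (by omega)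
    have h2 := hlt60 (N' + 1) hLN
    unfold StepOK at hs
    omega
  have hu01 : ∀ d, u m (N' + 1 + d) = (d % 2 : ℕ) := by
    intro d
    have := (tail2 hC hB (n := N' + 1) (i := 0) (hcb _ hLN) (by norm_num) hN52 d
      fun k hk => hlt60 _ (by omega)).2
    rwa [Nat.zero_add] at this
  have hu0 : ∀ n, L ≤ n → n < N' + 1 → u m n = 0 := fun n hn hn' =>
    tail1 hC hB (hcb n hn) (hNmin n hn hn')
  have hc09 : ∀ n, L ≤ n → n < N' + 1 → c m n = 0 ∨ c m n = 9 := by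
    intro n hn hn'
    rcases K51 _ (arcB_lt hC n) _ (arcB_lt hB n) (hNmin n hn hn') with h | h
    · exact Or.inl h.1
    · exact Or.inr h.1
  -- step 5
  obtain ⟨ra, hra, hea⟩ := arm01 hA hu01
  obtain ⟨rb, hrb, heb⟩ := arm01 hB hu01
  obtain ⟨rc, hrc, hec⟩ := arm01 hC hu01
  have hrab : ra ≠ rb := by
    intro h
    apply hab m
    exact X_ext hA hB fun K => ⟨N' + 1 + K, by omega, by rw [hea, heb, h]⟩
  have hrbc : rb ≠ rc := by
    intro h
    apply hbc m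
    exact X_ext hB hC fun K => ⟨N' + 1 + K, by omega, by rw [heb, hec, h]⟩
  have hrac : ra ≠ rc := by
    intro h
    apply hac m
    exact X_ext hA hC fun K => ⟨N' + 1 + K, by omega, by rw [hea, hec, h]⟩
  have huN' : u m N' = (0 : ℕ) := by
    rw [hu0 N' (by omega) (by omega)]; rfl
  have e1 := arcB_step hC (by norm_num) huN'
  have e2 := arcB_step hB (by norm_num) huN'
  have e3 := arcB_step hA (by norm_num) huN'
  have hecN : c m (N' + 1) = L1 rc := by simpa using hec 0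
  have hebN : b m (N' + 1) = L1 rb := by simpa using heb 0
  have heaN : a m (N' + 1) = L1 ra := by simpa using hea 0
  rw [hecN] at e1
  rw [hebN] at e2
  rw [heaN] at e3
  have d1 := hcb N' (by omega)
  have d2 := hca N' (by omega)
  rw [e1, e2] at d1
  rw [e1, e3] at d2
  have hrc0 : rc = 0 := by
    rcases hrc with rfl | rfl | rfl
    · rfl
    · exfalso
      rcases hrb with rfl | rfl | rfl
      · rcases hra with rfl | rfl | rfl
        · exact hrab rfl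
        · exact hrac rfl
        · exact d2 (by decide)
      · exact hrbc rfl
      · exact d1 (by decide)
    · exfalso
      rcases hrb with rfl | rfl | rfl
      · rcases hra with rfl | rfl | rfl
        · exact hrab rfl
        · exact d2 (by decide)
        · exact hrac rfl
      · exact d1 (by decide)
      · exact hrbc rfl
  subst hrc0
  have hcN0 : c m (N' + 1) = 0 := by rw [hecN]; rfl
  -- step 6
  have ha0N : a0 (N' + 1) = 0 := by
    by_contra hcon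
    have h9' : a0 (N' + 1) = 9 := (ha0 _ hLN).resolve_left hcon
    have key : ∀ d, L + d ≤ N' + 1 → a0 (N' + 1 - d) ≠ c m (N' + 1 - d) := by
      intro d
      induction d with
      | zero =>
        intro _
        rw [Nat.sub_zero, h9', hcN0]
        norm_num
      | succ d ih =>
        intro hd
        have ih' := ih (by omega)
        obtain ⟨x, hx⟩ : ∃ x, x = N' + 1 - (d + 1) := ⟨_, rfl⟩
        have hx1 : N' + 1 - d = x + 1 := by omega
        rw [hx1] at ih'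
        rw [← hx]
        have hux : u m x = (0 : ℕ) := by rw [hu0 x (by omega) (by omega)]; rfl
        have hUx : U x = (0 : ℕ) := by rw [hU0 x (by omega)]; rfl
        have f1 := arcB_step hC (by norm_num) hux
        have f2 := arcB_step h0 (by norm_num) hUx
        have g1 : c m (x + 1) = 0 ∨ c m (x + 1) = 9 := by
          rcases Nat.lt_or_ge (x + 1) (N' + 1) with h | h
          · exact hc09 _ (by omega) h
          · left
            rw [show x + 1 = N' + 1 by omega, hcN0]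
        have g2 := ha0 (x + 1) (by omega)
        rw [f1, f2]
        rcases g1 with g1 | g1 <;> rcases g2 with g2 | g2 <;> rw [g1, g2] at ih' ⊢
        · exact absurd rfl ih'
        · decide
        · decide
        · exact absurd rfl ih'
    have := key (N' + 1 - L) (by omega)
    rw [show N' + 1 - (N' + 1 - L) = L by omega] at this
    exact this (hm L le_rfl).2.2.2.symm
  have hUu : ∀ i, i < N' + 1 → U i = u m i := by
    intro i hi
    rcases Nat.lt_or_ge i L with h | h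
    · exact (hm i h.le).1.symm
    · rw [hU0 i h, hu0 i h hi]
  have ha0c : ∀ i, i ≤ N' + 1 → a0 i = c m i := fun i hi =>
    X_down' h0 hC hUu (by rw [ha0N, hcN0]) hi
  -- values of a0 after N
  have ha0s : ∀ d, a0 (N' + 1 + d) = if d % 2 = 0 then 0 else 9 := by
    intro d
    induction d with
    | zero => simpa using ha0N
    | succ d ih =>
      have hUx : U (N' + 1 + d) = (0 : ℕ) := by rw [hU0 _ (by omega)]; rfl
      have f2 := arcB_step h0 (by norm_num) hUx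
      have g2 := ha0 (N' + 1 + d + 1) (by omega)
      rw [ih] at f2
      rw [← add_assoc]
      rcases Nat.mod_two_eq_zero_or_one d with h | h
      · rw [if_pos h] at f2
        rw [if_neg (by omega)]
        rcases g2 with g2 | g2
        · rw [g2] at f2; exfalso; revert f2; decide
        · exact g2
      · rw [if_neg (by omega)] at f2
        rw [if_pos (by omega)]
        rcases g2 with g2 | g2
        · exact g2
        · rw [g2] at f2; exfalso; revert f2; decide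
  -- step 7
  obtain ⟨k, hk⟩ := (close2 m (N' + 1)).exists
  have hV0 := hr0 m k
  have hV1 := hr1 m k
  have hV2 := hr2 m k
  have r1N : r1 m k (N' + 1) = 0 := by rw [(hk _ le_rfl).2.2.1, hcN0]
  have r2N : r2 m k (N' + 1) = 0 := by rw [(hk _ le_rfl).2.2.2, hcN0]
  have r0N : r0 m k (N' + 1) = b m (N' + 1) := (hk _ le_rfl).2.1
  have h10 : ∀ n, N' + 1 ≤ n → r1 m k n ≠ r0 m k n := fun n hn => pair_up hV1 hV0 hn (by
    rw [(hk _ le_rfl).2.2.1, r0N]; exact hcb _ hLN)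
  have h20 : ∀ n, N' + 1 ≤ n → r2 m k n ≠ r0 m k n := fun n hn => pair_up hV2 hV0 hn (by
    rw [(hk _ le_rfl).2.2.2, r0N]; exact hcb _ hLN)
  have hl52 : KB (r1 m k (N' + 1)) (r0 m k (N' + 1)) = 52 := by
    rw [(hk _ le_rfl).2.2.1, r0N]; exact hN52
  have hex2 : ∃ n, N' + 1 ≤ n ∧ 60 ≤ KB (r1 m k n) (r0 m k n) := by
    by_contra hcon
    push Not at hcon
    apply hvu m k
    funext x
    rcases Nat.lt_or_ge x (N' + 1) with hx | hx
    · exact (hk x hx.le).1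
    · obtain ⟨d, rfl⟩ := Nat.exists_eq_add_of_le hx
      rw [hu01 d]
      have := (tail2 hV1 hV0 (n := N' + 1) (i := 0) (h10 _ le_rfl) (by norm_num) hl52 d
        fun k hk => hcon _ (by omega)).2
      rwa [Nat.zero_add] at this
  obtain ⟨M, ⟨hNM, hM60⟩, hMmin⟩ : ∃ M, (N' + 1 ≤ M ∧ 60 ≤ KB (r1 m k M) (r0 m k M)) ∧
      ∀ n, N' + 1 ≤ n → n < M → KB (r1 m k n) (r0 m k n) < 60 := by
    refine ⟨Nat.find hex2, Nat.find_spec hex2, fun n hn hlt => ?_⟩
    have := Nat.find_min hex2 hlt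
    by_contra hcc
    exact this ⟨hn, by omega⟩
  have hNM' : N' + 1 < M := by
    rcases Nat.lt_or_ge (N' + 1) M with h | h
    · exact h
    · exfalso
      rw [le_antisymm h hNM, hl52] at hM60
      omega
  have htl : ∀ d, N' + 1 + d < M → KB (r1 m k (N' + 1 + d)) (r0 m k (N' + 1 + d)) =
      52 + d % 2 ∧ v m k (N' + 1 + d) = (d % 2 : ℕ) := by
    intro d hd
    have := tail2 hV1 hV0 (n := N' + 1) (i := 0) (h10 _ le_rfl) (by norm_num) hl52 d
        fun k hk => hMmin _ (by omega) (by omega)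
    rwa [Nat.zero_add] at this
  obtain ⟨d0, hd0⟩ : ∃ d0, M = N' + 1 + d0 + 1 := ⟨M - 1 - (N' + 1), by omega⟩
  have hstep : d0 % 2 = 1 ∧ KB (r1 m k M) (r0 m k M) = 60 := by
    obtain ⟨j, -, hs⟩ := pair_step hV1 hV0 (h10 (N' + 1 + d0) (by omega))
    have h1 := (htl d0 (by omega)).1
    rw [← hd0] at hs
    unfold StepOK at hs
    omega
  obtain ⟨q, hq⟩ : ∃ q, M = N' + 1 + 2 * q := ⟨(d0 + 1) / 2, by omega⟩
  have hq0 : 0 < q := by omega
  have hv01 : ∀ d, d < 2 * q → v m k (N' + 1 + d) = (d % 2 : ℕ) := fun d hd =>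
    (htl d (by omega)).2
  have hvc2 : ∀ d, v m k (M + d) = c2 d := by
    intro d
    have := (tail3 hV1 hV0 (n := M) (i := 0) (h10 _ hNM) (by norm_num) (by
      rw [hstep.2]) d).2
    rwa [Nat.zero_add] at this
  have m1 := arm2_mem hV1 hvc2 0
  have m2 := arm2_mem hV2 hvc2 0
  have m0 := arm2_mem hV0 hvc2 0
  rw [Nat.mul_zero, Nat.add_zero] at m0 m1 m2
  have n01 : r0 m k M ≠ r1 m k M := fun h => r01 m k (arm2_ext hV0 hV1 hvc2 h)
  have n02 : r0 m k M ≠ r2 m k M := fun h => r02 m k (arm2_ext hV0 hV2 hvc2 h)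
  have n12 : r1 m k M ≠ r2 m k M := fun h => r12 m k (arm2_ext hV1 hV2 hvc2 h)
  obtain ⟨M', hM'⟩ : ∃ M', M = M' + 1 := ⟨M - 1, by omega⟩
  have hvM' : v m k M' = (1 : ℕ) := by
    have := hv01 (2 * q - 1) (by omega)
    rw [show N' + 1 + (2 * q - 1) = M' by omega, show (2 * q - 1) % 2 = 1 by omega] at this
    exact this
  have w0 := arcB_step hV0 (by norm_num) hvM'
  have w1 := arcB_step hV1 (by norm_num) hvM'
  have w2 := arcB_step hV2 (by norm_num) hvM'
  rw [← hM'] at w0 w1 w2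
  have x1 := h10 M' (by omega)
  have x2 := h20 M' (by omega)
  rw [w1, w0] at x1
  rw [w2, w0] at x2
  have hfin : r0 m k M = 2 ∧ (r1 m k M = 0 ∨ r1 m k M = 1) := by
    generalize r0 m k M = y0 at *
    generalize r1 m k M = y1 at *
    generalize r2 m k M = y2 at *
    clear w0 w1 w2
    interval_cases y0 <;> interval_cases y1 <;> interval_cases y2 <;>
      first
      | exact ⟨rfl, Or.inl rfl⟩
      | exact ⟨rfl, Or.inr rfl⟩
      | exact absurd rfl n01
      | exact absurd rfl n02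
      | exact absurd rfl n12
      | exact absurd (by decide) x1
      | exact absurd (by decide) x2
  obtain ⟨hR0M, hR1M⟩ := hfin
  have it1 := iter01 hV1 q hv01
  have it0 := iter01 hV0 q hv01
  rw [← hq] at it1 it0
  have hq3 : q % 3 = 0 := gB_low hR1M (by rw [← it1]; exact r1N)
  rw [hR0M, gB_two hq0 hq3, r0N, hebN] at it0
  have hrb2 : rb = 2 := by
    rcases hrb with rfl | rfl | rfl
    · exact absurd rfl hrbc
    · rfl
    · exfalso; revert it0; decide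
  subst hrb2
  -- values of r0 after M
  have v0 : v m k M = (0 : ℕ) := by simpa [c2] using hvc2 0
  have v1 : v m k (M + 1) = (1 : ℕ) := by simpa [c2] using hvc2 1
  have v2 : v m k (M + 2) = (0 : ℕ) := by simpa [c2] using hvc2 2
  have v3 : v m k (M + 3) = (1 : ℕ) := by simpa [c2] using hvc2 3
  have y1 : r0 m k (M + 1) = 11 := (pre2 _ (arcB_lt hV0 _)).1
    (by rw [← arcB_step hV0 (by norm_num) v0, hR0M])
  have y2 : r0 m k (M + 2) = 5 := (pre2 _ (arcB_lt hV0 _)).2.1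
    (by rw [← arcB_step hV0 (by norm_num) v1, y1])
  have y3 : r0 m k (M + 3) = 14 := (pre2 _ (arcB_lt hV0 _)).2.2.1
    (by rw [← arcB_step hV0 (by norm_num) v2, y2])
  have y4 : r0 m k (M + 4) = 8 := (pre2 _ (arcB_lt hV0 _)).2.2.2
    (by rw [← arcB_step hV0 (by norm_num) v3, y3])
  have y0 : r0 m k M' = 9 := by rw [w0, hR0M]; rfl
  -- values of b around M
  have bv : ∀ i, b m (M + i) = L1 (i + 2) := by
    intro i
    rw [hq, add_assoc, heb]
    unfold L1
    rw [show (2 * q + i + 2) % 6 = (i + 2) % 6 by omega]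
  have bM' : b m M' = 9 := by
    have := heb (2 * q - 1)
    rw [show N' + 1 + (2 * q - 1) = M' by omega] at this
    rw [this]
    unfold L1
    rw [show (2 * q - 1 + 2) % 6 = 1 by omega]
    rfl
  have uv : ∀ i, i < M → v m k i = u m i := by
    intro i hi
    rcases Nat.lt_or_ge i (N' + 1) with h | h
    · exact (hk i h.le).1
    · obtain ⟨d, rfl⟩ := Nat.exists_eq_add_of_le h
      rw [hu01, hv01 d (by omega)]
  have r0b : ∀ i, i ≤ M' → r0 m k i = b m i := fun i hi =>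
    X_down' hV0 hB (fun i hi => uv i (by omega)) (by rw [y0, bM']) hi
  have uM : ∀ i, u m (M + i) = (i % 2 : ℕ) := by
    intro i
    rw [hq, add_assoc, hu01]
    congr 1
    omega
  -- comparisons
  have cmp1 : ∀ i, i < N' + 1 + 5 → adr combB U a0 i = adr combB (u m) (c m) i := by
    intro i hi
    rw [adrB, adrB]
    rcases Nat.lt_or_ge i (N' + 1) with h | h
    · rw [hUu i h, ha0c (i + 1) (by omega)]
    · obtain ⟨d, rfl⟩ := Nat.exists_eq_add_of_le h
      have hd : d < 5 := by omega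
      rw [hU0 _ (by omega), hu01, add_assoc, ha0s, hec]
      interval_cases d <;> decide
  have cmp1' : adr combB U a0 (N' + 1 + 5) < adr combB (u m) (c m) (N' + 1 + 5) := by
    rw [adrB, adrB, hU0 _ (by omega), hu01, add_assoc, ha0s, hec]
    decide
  have cmp2 : ∀ i, i < M + 3 → adr combB (v m k) (r0 m k) i = adr combB (u m) (b m) i := by
    intro i hi
    rw [adrB, adrB]
    rcases Nat.lt_or_ge i M' with h | h
    · rw [uv i (by omega), r0b (i + 1) (by omega)]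
    · have h1 : i = M' ∨ i = M ∨ i = M + 1 ∨ i = M + 2 := by omega
      rcases h1 with rfl | rfl | rfl | rfl
      · rw [uv _ (by omega), ← hM', hR0M]
        have := bv 0
        rw [Nat.add_zero] at this
        rw [this]
        rfl
      · have := uM 0
        rw [Nat.add_zero] at this
        rw [v0, this, y1, bv 1]
        rfl
      · rw [v1, uM 1, add_assoc, y2, bv 2]
        rfl
      · rw [v2, uM 2, add_assoc, y3, bv 3]
        rfl
  have cmp2' : adr combB (v m k) (r0 m k) (M + 3) < adr combB (u m) (b m) (M + 3) := by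
    rw [adrB, adrB, v3, uM 3, add_assoc, y4, bv 4]
    decide
  have cmp3 : adr combB (u m) (c m) (N' + 1 + 3) ≠ adr combB (u m) (b m) (N' + 1 + 3) := by
    rw [adrB, adrB, hu01, add_assoc, hec, heb]
    decide
  exact ⟨m, k, ⟨N' + 1 + 5, cmp1, cmp1'⟩, ⟨M + 3, cmp2, cmp2'⟩,
    lex_final cmp1 cmp2 (by omega) (by omega) cmp3⟩

end D
end PJ
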