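import Pool.Agent.Lib.H31J.DTwo

/-! Part D, chunk DTHREE: a homeomorphism maps the arms of a star with three arms to arms.

Let `c` be the end point (center) of the star over `u` in `C`.  If `H c` is not the center of the
image star, then the image star minus `H c` is the union of two preconnected sets (the tail of
the arm through `H c` beyond `H c` and the rest), so one of them, `K`, contains two of the
images of the three given points; `H⁻¹ K` is a preconnected subset of the Julia set of `C`, all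
its points have itinerary `u` (`itin_const`) and are different from `c`, so they are not end
points; by `arm_const` two of the arms coincide, contradiction.  So `H c` is the center of the
image star and the three image points are not end points; if two of them are on the same arm
`e'`, take `K` = the arm without its end point. -/

set_option autoImplicit false

namespace PJ
namespace D

open Filter Topology

/-- the potential of a point is determined by the point -/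
theorem three_pot {C : Comb} {lam : ℂ} {G : Pt → ℂ} (I : Interface C lam G) {p q : Pt}
    (hp : p ∈ C.LL) (hq : q ∈ C.LL) (h : G p = G q) : p.1 = q.1 ∧ p.2.2 = q.2.2 := by
  rcases (I.fib _ hp _ hq).1 h with h1 | h1
  · rw [h1]; exact ⟨rfl, rfl⟩
  · exact ⟨h1.1, h1.2.1⟩

/-- the star without a point that is not its center is the union of two preconnected sets -/
theorem three_rest {C : Comb} {lam : ℂ} {G : Pt → ℂ} (I : Interface C lam G) {u : ℕ → ℤ}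
    {e : ℕ → ℕ} {μ τc : ℝ} (hμ : (u, e, μ) ∈ C.LL) (hend : IsEnd u μ) (hc : μ < τc) :
    IsPreconnected {z : ℂ | ∃ (ε : ℕ → ℕ) (τ : ℝ), (u, ε, τ) ∈ C.LL ∧ (ε ≠ e ∨ τ < τc) ∧
      G (u, ε, τ) = z} := by
  refine isPreconnected_of_forall (G (u, e, μ)) ?_
  rintro _ ⟨ε, τ, hτ, hor, rfl⟩
  have hμτ : μ ≤ τ := by
    by_contra hcon
    push Not at hcon
    obtain ⟨n, hn⟩ := hend τ hcon
    exact absurd ((LL_iff.1 hτ).1 n) (not_le.2 hn)
  have hεμ : (u, ε, μ) ∈ C.LL := LL_arm hμ (LL_iff.1 hτ).2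
  have hcen : G (u, ε, μ) = G (u, e, μ) := two_end I hεμ hμ hend hend
  refine ⟨(fun σ => G (u, ε, σ)) '' Set.Icc μ τ, ?_, ⟨μ, ⟨le_rfl, hμτ⟩, hcen⟩,
    ⟨τ, ⟨hμτ, le_rfl⟩, rfl⟩, (two_ray_in I hεμ isPreconnected_Icc fun x hx => hx.1).1⟩
  rintro _ ⟨σ, hσ, rfl⟩
  refine ⟨ε, σ, LL_up hεμ hσ.1, ?_, rfl⟩
  rcases hor with h1 | h1
  · exact Or.inl h1
  · exact Or.inr (hσ.2.trans_lt h1)

theorem three_star {C C' : Comb} {lam lam' : ℂ} {G G' : Pt → ℂ} (I : Interface C lam G)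
    (I' : Interface C' lam' G') (H : ℂ ≃ₜ ℂ) (hH : H '' Jul lam = Jul lam')
    {u : ℕ → ℤ} {e1 e2 e3 : ℕ → ℕ} {t : ℝ}
    (h1 : (u, e1, t) ∈ C.LL) (h2 : (u, e2, t) ∈ C.LL) (h3 : (u, e3, t) ∈ C.LL)
    (hend : ¬ IsEnd u t) (h12 : e1 ≠ e2) (h13 : e1 ≠ e3) (h23 : e2 ≠ e3) {p1 p2 p3 : Pt}
    (hp1 : p1 ∈ C'.LL) (hp2 : p2 ∈ C'.LL) (hp3 : p3 ∈ C'.LL)
    (g1 : H (G (u, e1, t)) = G' p1) (g2 : H (G (u, e2, t)) = G' p2)
    (g3 : H (G (u, e3, t)) = G' p3) :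
    ¬ IsEnd p1.1 p1.2.2 ∧ ¬ IsEnd p2.1 p2.2.2 ∧ ¬ IsEnd p3.1 p3.2.2 ∧
      p1.2.1 ≠ p2.2.1 ∧ p1.2.1 ≠ p3.2.1 ∧ p2.2.1 ≠ p3.2.1 := by
  -- the center
  obtain ⟨μ, hμ, hendμ, hiff⟩ := exists_end (LL_iff.1 h1).1
  have hcL : (u, e1, μ) ∈ C.LL := LL_iff.2 ⟨(hiff μ).2 le_rfl, (LL_iff.1 h1).2⟩
  have hμt : μ ≠ t := fun h => hend (h ▸ hendμ)
  obtain ⟨⟨u', εc, τc⟩, hq, hqe⟩ := two_img I I' H hH hcL
  obtain ⟨μ', hμ', hend', hiff'⟩ := exists_end (LL_iff.1 hq).1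
  have hcL' : (u', εc, μ') ∈ C'.LL := LL_iff.2 ⟨(hiff' μ').2 le_rfl, (LL_iff.1 hq).2⟩
  -- itineraries of the image points
  have hit : ∀ (ε : ℕ → ℕ), (u, ε, t) ∈ C.LL → ∀ p ∈ C'.LL, H (G (u, ε, t)) = G' p →
      p.1 = u' := fun ε hε p hp hpe =>
    ((itin_transfer I I' H hH hcL hε hq hp hqe hpe).1 rfl).symm
  -- the center is not among the three points
  have hnc : ∀ (ε : ℕ → ℕ), (u, ε, t) ∈ C.LL → H (G (u, ε, t)) ≠ G' (u', εc, τc) := by
    intro ε hε hc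
    rw [← hqe] at hc
    have h5 := (three_pot I hε hcL (H.injective hc)).2
    exact hμt h5.symm
  -- avoiding the center
  have havoid : ∀ K : Set ℂ, G' (u', εc, τc) ∉ K → ∀ (e'' : ℕ → ℕ) (τ : ℝ), (u, e'', τ) ∈ C.LL →
      IsEnd u τ → H (G (u, e'', τ)) ∉ K := by
    intro K hK e'' τ hτL hτe
    rw [two_end I hτL hcL hτe hendμ, hqe]
    exact hK
  -- the center is mapped to the center
  have hcen : τc = μ' := by
    by_contra hne
    have hlt : μ' < τc := lt_of_le_of_ne hμ' (Ne.symm hne)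
    set R : Set ℂ := {z : ℂ | ∃ (ε : ℕ → ℕ) (τ : ℝ), (u', ε, τ) ∈ C'.LL ∧ (ε ≠ εc ∨ τ < τc) ∧
      G' (u', ε, τ) = z} with hR
    set T : Set ℂ := (fun τ => G' (u', εc, τ)) '' Set.Ioi τc with hT
    have hRp : IsPreconnected R := three_rest I' hcL' hend' hlt
    have hRJ : R ⊆ Jul lam' := by
      rintro _ ⟨ε, τ, hτ, -, rfl⟩
      rw [← I'.image]
      exact ⟨_, hτ, rfl⟩
    have hRc : G' (u', εc, τc) ∉ R := by
      rintro ⟨ε, τ, hτ, hor, he⟩
      rcases (I'.fib _ hτ _ hq).1 he with h5 | h5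
      · have h6 : ε = εc := congrArg (fun p : Pt => p.2.1) h5
        have h7 : τ = τc := congrArg (fun p : Pt => p.2.2) h5
        rcases hor with h8 | h8
        · exact h8 h6
        · rw [h7] at h8; exact lt_irrefl _ h8
      · have h7 : τ = τc := h5.2.1
        have h8 : IsEnd u' τ := h5.2.2
        rw [h7] at h8
        exact not_isEnd_of_lt (LL_iff.1 hcL').1 hlt h8
    obtain ⟨hTp, hTJ⟩ := two_ray_in I' hcL' (isPreconnected_Ioi (a := τc))
      (fun x hx => hlt.le.trans (le_of_lt hx))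
    have hTc : G' (u', εc, τc) ∉ T := by
      rintro ⟨τ, hτ, he⟩
      have h7 : τ = τc := (three_pot I' (LL_up hcL' (hlt.le.trans (le_of_lt hτ))) hq he).2
      rw [h7] at hτ
      exact lt_irrefl τc hτ
    have hor : ∀ (ε : ℕ → ℕ), (u, ε, t) ∈ C.LL → H (G (u, ε, t)) ∈ R ∨ H (G (u, ε, t)) ∈ T := by
      intro ε hε
      obtain ⟨⟨v, η, σ⟩, hr, hre⟩ := two_img I I' H hH hε
      have hv : v = u' := hit ε hε _ hr hre
      subst hv
      by_cases hη : η = εc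
      · subst hη
        rcases lt_trichotomy σ τc with h5 | h5 | h5
        · exact Or.inl ⟨η, σ, hr, Or.inr h5, hre.symm⟩
        · subst h5
          exact absurd hre (hnc ε hε)
        · exact Or.inr ⟨σ, h5, hre.symm⟩
      · exact Or.inl ⟨η, σ, hr, Or.inl hη, hre.symm⟩
    have hR2 : ∀ {ε ε' : ℕ → ℕ}, (u, ε, t) ∈ C.LL → (u, ε', t) ∈ C.LL → H (G (u, ε, t)) ∈ R →
        H (G (u, ε', t)) ∈ R → ε = ε' := fun {ε ε'} a b c d =>
      two_same I I' H hH a b hRp hRJ (havoid R hRc) c d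
    have hT2 : ∀ {ε ε' : ℕ → ℕ}, (u, ε, t) ∈ C.LL → (u, ε', t) ∈ C.LL → H (G (u, ε, t)) ∈ T →
        H (G (u, ε', t)) ∈ T → ε = ε' := fun {ε ε'} a b c d =>
      two_same I I' H hH a b hTp hTJ (havoid T hTc) c d
    rcases hor e1 h1 with a1 | a1 <;> rcases hor e2 h2 with a2 | a2 <;>
      rcases hor e3 h3 with a3 | a3
    · exact h12 (hR2 h1 h2 a1 a2)
    · exact h12 (hR2 h1 h2 a1 a2)
    · exact h13 (hR2 h1 h3 a1 a3)
    · exact h23 (hT2 h2 h3 a2 a3)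
    · exact h23 (hR2 h2 h3 a2 a3)
    · exact h13 (hT2 h1 h3 a1 a3)
    · exact h12 (hT2 h1 h2 a1 a2)
    · exact h12 (hT2 h1 h2 a1 a2)
  subst hcen
  -- no image point is an end point
  have hne : ∀ (ε : ℕ → ℕ), (u, ε, t) ∈ C.LL → ∀ p ∈ C'.LL, H (G (u, ε, t)) = G' p →
      ¬ IsEnd p.1 p.2.2 := by
    rintro ε hε ⟨v, η, σ⟩ hp hpe hpend
    have hv : v = u' := hit ε hε _ hp hpe
    subst hv
    have h5 := two_end I' hp hcL' hpend hend'
    rw [h5] at hpe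
    exact hnc ε hε hpe
  -- different arms
  have harm : ∀ (ε ε' : ℕ → ℕ), (u, ε, t) ∈ C.LL → (u, ε', t) ∈ C.LL → ε ≠ ε' → ∀ p ∈ C'.LL,
      ∀ p' ∈ C'.LL, H (G (u, ε, t)) = G' p → H (G (u, ε', t)) = G' p' → p.2.1 ≠ p'.2.1 := by
    rintro ε ε' hε hε' hd ⟨v, η, σ⟩ hp ⟨v', η', σ'⟩ hp' hpe hpe' hηη
    have hv : v = u' := hit ε hε _ hp hpe
    have hv' : v' = u' := hit ε' hε' _ hp' hpe'
    have hηη' : η = η' := hηη
    subst hv
    subst hv'
    subst hηη'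
    have n1 := hne ε hε _ hp hpe
    have n2 := hne ε' hε' _ hp' hpe'
    have b1 : τc < σ := lt_of_le_of_ne ((hiff' σ).1 (LL_iff.1 hp).1)
      (fun h => n1 (by rw [← h]; exact hend'))
    have b2 : τc < σ' := lt_of_le_of_ne ((hiff' σ').1 (LL_iff.1 hp').1)
      (fun h => n2 (by rw [← h]; exact hend'))
    have hηL : (v', η, τc) ∈ C'.LL := LL_arm hcL' (LL_iff.1 hp).2
    obtain ⟨hTp, hTJ⟩ := two_ray_in I' hηL (isPreconnected_Ioi (a := τc))
      Set.Ioi_subset_Ici_self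
    apply hd
    refine two_same I I' H hH hε hε' hTp hTJ (havoid _ ?_) ⟨σ, b1, hpe.symm⟩ ⟨σ', b2, hpe'.symm⟩
    rintro ⟨τ, hτ, he⟩
    have h7 : τ = τc := (three_pot I' (LL_up hηL (le_of_lt hτ)) hq he).2
    rw [h7] at hτ
    exact lt_irrefl τc hτ
  exact ⟨hne e1 h1 _ hp1 g1, hne e2 h2 _ hp2 g2, hne e3 h3 _ hp3 g3,
    harm e1 e2 h1 h2 h12 _ hp1 _ hp2 g1 g2, harm e1 e3 h1 h3 h13 _ hp1 _ hp3 g1 g3,
    harm e2 e3 h2 h3 h23 _ hp2 _ hp3 g2 g3⟩

end D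
end PJ
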