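import Pool.Agent.Lib.H31J.DStar

/-! Part D, chunk DTWO: points far out on two different arms have images on different arms.

Let `c'` be the center of the image star.  For `s ≥ t0` the points `G (u,e,s)`, `G (u,e',s)` are
different from `H⁻¹ c'` (`I.tail`), so the images of the two tails are preconnected sets without
end points, each lies on one arm (`itin_const`, `arm_const`), say `e1`, `e2`.  Suppose `e1 = e2`.
Let `τc` be the potential of the image of the center `c` of the star over `u`.  The part of the arm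
`e1` of potential `> τc` is preconnected and does not contain `H c`, and it contains the images of the
points `G (u,e,s)`, `G (u,e',s)` for large `s` (compactness).  Its preimage under `H` is
preconnected and contains no end point, so `e = e'` by `arm_const`, contradiction. -/

set_option autoImplicit false

namespace PJ
namespace D

open Filter Topology

/-- image points of points of the Julia set -/
theorem two_img {C C' : Comb} {lam lam' : ℂ} {G G' : Pt → ℂ} (I : Interface C lam G)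
    (I' : Interface C' lam' G') (H : ℂ ≃ₜ ℂ) (hH : H '' Jul lam = Jul lam') {p : Pt}
    (hp : p ∈ C.LL) : ∃ q ∈ C'.LL, H (G p) = G' q := by
  have h1 : G p ∈ Jul lam := by
    rw [← I.image]
    exact ⟨p, hp, rfl⟩
  have h2 : H (G p) ∈ Jul lam' := by
    rw [← hH]
    exact ⟨_, h1, rfl⟩
  rw [← I'.image] at h2
  obtain ⟨q, hq, hq'⟩ := h2
  exact ⟨q, hq, hq'.symm⟩

/-- two points with images in a preconnected set avoiding the image of the center are on the same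
arm -/
theorem two_same {C C' : Comb} {lam lam' : ℂ} {G G' : Pt → ℂ} (I : Interface C lam G)
    (_I' : Interface C' lam' G') (H : ℂ ≃ₜ ℂ) (hH : H '' Jul lam = Jul lam')
    {u : ℕ → ℤ} {e e' : ℕ → ℕ} {s s' : ℝ} (h : (u, e, s) ∈ C.LL) (h' : (u, e', s') ∈ C.LL)
    {K : Set ℂ} (hK : IsPreconnected K) (hKJ : K ⊆ Jul lam')
    (hc : ∀ (e'' : ℕ → ℕ) (τ : ℝ), (u, e'', τ) ∈ C.LL → IsEnd u τ → H (G (u, e'', τ)) ∉ K)
    (h1 : H (G (u, e, s)) ∈ K) (h2 : H (G (u, e', s')) ∈ K) : e = e' := by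
  set K0 : Set ℂ := H.symm '' K with hK0
  have hK0p : IsPreconnected K0 := hK.image _ H.symm.continuous.continuousOn
  have hmem : ∀ z : ℂ, z ∈ K0 ↔ H z ∈ K := by
    intro z
    constructor
    · rintro ⟨w, hw, rfl⟩
      rwa [H.apply_symm_apply]
    · intro hz
      exact ⟨H z, hz, H.symm_apply_apply z⟩
  have hK0J : K0 ⊆ Jul lam := by
    intro z hz
    have h3 := hKJ ((hmem z).1 hz)
    rw [← hH] at h3
    obtain ⟨w, hw, hwz⟩ := h3
    rwa [← H.injective hwz]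
  have h1' : G (u, e, s) ∈ K0 := (hmem _).2 h1
  have h2' : G (u, e', s') ∈ K0 := (hmem _).2 h2
  have hne : ∀ p ∈ C.LL, G p ∈ K0 → ¬ IsEnd p.1 p.2.2 := by
    rintro ⟨v, ε, τ⟩ hp hpK hend
    have hv : v = u := itin_const I hK0p hK0J hp h hpK h1'
    subst hv
    exact hc ε τ hp hend ((hmem _).1 hpK)
  exact arm_const I hK0p hK0J hne h h' h1' h2'

/-- the end points over one itinerary have the same image -/
theorem two_end {C : Comb} {lam : ℂ} {G : Pt → ℂ} (I : Interface C lam G) {u : ℕ → ℤ}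
    {e e' : ℕ → ℕ} {s s' : ℝ} (h : (u, e, s) ∈ C.LL) (h' : (u, e', s') ∈ C.LL)
    (hs : IsEnd u s) (hs' : IsEnd u s') : G (u, e, s) = G (u, e', s') := by
  have h3 : s = s' := isEnd_unique (LL_iff.1 h).1 (LL_iff.1 h').1 hs hs'
  subst h3
  exact (I.fib _ h _ h').2 (Or.inr ⟨rfl, rfl, hs⟩)

/-- the points of a ray leave every compact part of an arm -/
theorem two_leave {C' : Comb} {lam' : ℂ} {G' : Pt → ℂ}
    (I' : Interface C' lam' G') (H : ℂ ≃ₜ ℂ) {f : ℝ → ℂ}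
    (hf : Tendsto (fun s => (f s).re) atTop atTop) {u : ℕ → ℤ} {e : ℕ → ℕ} {μ : ℝ}
    (h : (u, e, μ) ∈ C'.LL) (τc : ℝ) :
    ∀ᶠ s in atTop, ∀ τ, μ ≤ τ → τ ≤ τc → H (f s) ≠ G' (u, e, τ) := by
  have hcont : ContinuousOn (fun τ : ℝ => (H.symm (G' (u, e, τ))).re) (Set.Icc μ τc) := by
    have h1 : ContinuousOn (fun τ : ℝ => G' (u, e, τ)) (Set.Icc μ τc) :=
      (arm_cont I' h).mono fun x hx => hx.1
    exact Complex.continuous_re.comp_continuousOn (H.symm.continuous.comp_continuousOn h1)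
  obtain ⟨M, hM⟩ := (isCompact_Icc.image_of_continuousOn hcont).bddAbove
  filter_upwards [hf.eventually_gt_atTop M] with s hs τ h1 h2 h3
  have h4 : f s = H.symm (G' (u, e, τ)) := by rw [← h3, H.symm_apply_apply]
  have h5 : (H.symm (G' (u, e, τ))).re ≤ M := hM ⟨τ, ⟨h1, h2⟩, rfl⟩
  rw [← h4] at h5
  linarith

theorem two_ray_in {C : Comb} {lam : ℂ} {G : Pt → ℂ} (I : Interface C lam G) {u : ℕ → ℤ}
    {e : ℕ → ℕ} {μ : ℝ} (h : (u, e, μ) ∈ C.LL) {S : Set ℝ} (hS : IsPreconnected S)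
    (hSμ : S ⊆ Set.Ici μ) : IsPreconnected ((fun τ => G (u, e, τ)) '' S) ∧
      (fun τ => G (u, e, τ)) '' S ⊆ Jul lam := by
  refine ⟨hS.image _ ((arm_cont I h).mono hSμ), ?_⟩
  rintro _ ⟨τ, hτ, rfl⟩
  rw [← I.image]
  exact ⟨_, LL_up h (hSμ hτ), rfl⟩

theorem two_star {C C' : Comb} {lam lam' : ℂ} {G G' : Pt → ℂ} (I : Interface C lam G)
    (I' : Interface C' lam' G') (H : ℂ ≃ₜ ℂ) (hH : H '' Jul lam = Jul lam')
    {u : ℕ → ℤ} {e e' : ℕ → ℕ} {t : ℝ} (h : (u, e, t) ∈ C.LL) (h' : (u, e', t) ∈ C.LL)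
    (hne : e ≠ e') :
    ∃ t0 : ℝ, ∀ s, t0 ≤ s → ∀ p ∈ C'.LL, ∀ p' ∈ C'.LL, H (G (u, e, s)) = G' p →
      H (G (u, e', s)) = G' p' →
      ¬ IsEnd p.1 p.2.2 ∧ ¬ IsEnd p'.1 p'.2.2 ∧ p.2.1 ≠ p'.2.1 := by
  obtain ⟨⟨u', ε0, τ0⟩, hq0, hq0e⟩ := two_img I I' H hH h
  obtain ⟨μ', hμ', hend', hiff'⟩ := exists_end (LL_iff.1 hq0).1
  have hLμ' : ∀ {ε : ℕ → ℕ}, (u', ε) ∈ C'.X → (u', ε, μ') ∈ C'.LL := fun {ε} hε =>
    LL_iff.2 ⟨(hiff' μ').2 le_rfl, hε⟩
  have hX0 : (u', ε0) ∈ C'.X := (LL_iff.1 hq0).2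
  set z0 : ℂ := H.symm (G' (u', ε0, μ')) with hz0
  have hf1 := (I.tail u e t h).eventually_gt_atTop z0.re
  have hg1 := (I.tail u e' t h').eventually_gt_atTop z0.re
  obtain ⟨t1', ht1'⟩ := eventually_atTop.1 (hf1.and hg1)
  set t1 : ℝ := max t t1' with ht1
  have ht1t : t ≤ t1 := le_max_left _ _
  have ht11 : t1' ≤ t1 := le_max_right _ _
  -- points over the arms
  have key : ∀ ε : ℕ → ℕ, (u, ε, t) ∈ C.LL → (∀ s, t1 ≤ s → z0.re < (G (u, ε, s)).re) →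
      ∀ s, t1 ≤ s → ∀ p ∈ C'.LL, H (G (u, ε, s)) = G' p → p.1 = u' ∧ ¬ IsEnd p.1 p.2.2 := by
    rintro ε hε hre s hs ⟨v, ε1, τ⟩ hp hpe
    have hv : u' = v := (itin_transfer I I' H hH h (LL_up hε (ht1t.trans hs)) hq0 hp hq0e hpe).1 rfl
    subst hv
    refine ⟨rfl, fun hend => ?_⟩
    have h3 := two_end I' hp (hLμ' hX0) hend hend'
    rw [h3] at hpe
    have h4 : G (u, ε, s) = z0 := by rw [hz0, ← hpe, H.symm_apply_apply]
    have h5 := hre s hs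
    rw [h4] at h5
    exact lt_irrefl _ h5
  have keyf := key e h (fun s hs => (ht1' s (ht11.trans hs)).1)
  have keyg := key e' h' (fun s hs => (ht1' s (ht11.trans hs)).2)
  -- the arms are constant
  have key2 : ∀ ε : ℕ → ℕ, (u, ε, t) ∈ C.LL → (∀ s, t1 ≤ s → z0.re < (G (u, ε, s)).re) →
      ∀ s, t1 ≤ s → ∀ p ∈ C'.LL, H (G (u, ε, s)) = G' p →
      ∀ s', t1 ≤ s' → ∀ p' ∈ C'.LL, H (G (u, ε, s')) = G' p' → p.2.1 = p'.2.1 := by
    intro ε hε hre s hs p hp hpe s' hs' p' hp' hpe'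
    obtain ⟨hr1, hr2⟩ := two_ray_in I hε (isPreconnected_Ici (a := t1))
      (fun x hx => ht1t.trans hx)
    have hK : IsPreconnected (H '' ((fun τ => G (u, ε, τ)) '' Set.Ici t1)) :=
      hr1.image _ H.continuous.continuousOn
    have hKJ : H '' ((fun τ => G (u, ε, τ)) '' Set.Ici t1) ⊆ Jul lam' := by
      rw [← hH]
      exact Set.image_mono hr2
    refine arm_const I' hK hKJ ?_ hp hp' ?_ ?_
    · rintro q hq ⟨_, ⟨τ, hτ, rfl⟩, hτ2⟩
      exact (key ε hε hre τ hτ q hq hτ2).2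
    · exact ⟨_, ⟨s, hs, rfl⟩, hpe⟩
    · exact ⟨_, ⟨s', hs', rfl⟩, hpe'⟩
  have key2f := key2 e h (fun s hs => (ht1' s (ht11.trans hs)).1)
  have key2g := key2 e' h' (fun s hs => (ht1' s (ht11.trans hs)).2)
  obtain ⟨⟨v1, ε1, τ1⟩, hp1, hp1e⟩ := two_img I I' H hH (LL_up h ht1t)
  obtain ⟨⟨v2, ε2, τ2⟩, hp2, hp2e⟩ := two_img I I' H hH (LL_up h' ht1t)
  have hv1 : v1 = u' := (keyf t1 le_rfl _ hp1 hp1e).1
  have hv2 : v2 = u' := (keyg t1 le_rfl _ hp2 hp2e).1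
  subst hv1
  subst hv2
  by_cases h12 : ε1 = ε2
  swap
  · refine ⟨t1, fun s hs p hp p' hp' hpe hpe' => ⟨(keyf s hs p hp hpe).2,
      (keyg s hs p' hp' hpe').2, ?_⟩⟩
    rw [key2f s hs p hp hpe t1 le_rfl _ hp1 hp1e, key2g s hs p' hp' hpe' t1 le_rfl _ hp2 hp2e]
    exact h12
  exfalso
  subst h12
  -- the center
  obtain ⟨μ, hμ, hend, hiff⟩ := exists_end (LL_iff.1 h).1
  have hcL : (u, e, μ) ∈ C.LL := LL_iff.2 ⟨(hiff μ).2 le_rfl, (LL_iff.1 h).2⟩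
  obtain ⟨⟨vc, εc, τc⟩, hqc, hqce⟩ := two_img I I' H hH hcL
  have hvc : v2 = vc := (itin_transfer I I' H hH h hcL hq0 hqc hq0e hqce).1 rfl
  subst hvc
  have hμc : μ' ≤ τc := (hiff' τc).1 (LL_iff.1 hqc).1
  have hX1 : (v2, ε1) ∈ C'.X := (LL_iff.1 hp1).2
  have hL1 := hLμ' hX1
  obtain ⟨s, hsf, hsg, hs1⟩ := ((two_leave I' H (I.tail u e t h) hL1 τc).and
    ((two_leave I' H (I.tail u e' t h') hL1 τc).and (eventually_ge_atTop t1))).exists
  obtain ⟨⟨w1, η1, σ1⟩, hr1, hr1e⟩ := two_img I I' H hH (LL_up h (ht1t.trans hs1))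
  obtain ⟨⟨w2, η2, σ2⟩, hr2, hr2e⟩ := two_img I I' H hH (LL_up h' (ht1t.trans hs1))
  have a1 : w1 = v2 := (keyf s hs1 _ hr1 hr1e).1
  have a2 : w2 = v2 := (keyg s hs1 _ hr2 hr2e).1
  have a3 : η1 = ε1 := key2f s hs1 _ hr1 hr1e t1 le_rfl _ hp1 hp1e
  have a4 : η2 = ε1 := key2g s hs1 _ hr2 hr2e t1 le_rfl _ hp2 hp2e
  subst a1 a2 a3
  subst a4
  have b1 : τc < σ1 := by
    by_contra hcon
    push Not at hcon
    exact hsf σ1 ((hiff' σ1).1 (LL_iff.1 hr1).1) hcon hr1e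
  have b2 : τc < σ2 := by
    by_contra hcon
    push Not at hcon
    exact hsg σ2 ((hiff' σ2).1 (LL_iff.1 hr2).1) hcon hr2e
  obtain ⟨hk1, hk2⟩ := two_ray_in I' hL1 (isPreconnected_Ioi (a := τc))
    (fun x hx => hμc.trans (le_of_lt hx))
  apply hne
  refine two_same I I' H hH (LL_up h (ht1t.trans hs1)) (LL_up h' (ht1t.trans hs1)) hk1 hk2 ?_
    ⟨σ1, b1, hr1e.symm⟩ ⟨σ2, b2, hr2e.symm⟩
  rintro e'' τ hτL hτe ⟨σ, hσ, hσe⟩
  have c1 : G (u, e'', τ) = G (u, e, μ) := two_end I hτL hcL hτe hend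
  have hσe' : G' (w2, η2, σ) = H (G (u, e'', τ)) := hσe
  rw [c1, hqce] at hσe'
  have c2 := (I'.fib _ (LL_up hL1 (hμc.trans (le_of_lt hσ))) _ hqc).1 hσe'
  have c3 : σ = τc := by
    rcases c2 with c2 | c2
    · exact congrArg (fun p : Pt => p.2.2) c2
    · exact c2.2.1
  rw [c3] at hσ
  exact lt_irrefl τc hσ

end D
end PJ
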