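import Pool.Agent.Lib.H31J.DHair
import Pool.Agent.Lib.H31J.DRays
import Pool.Agent.Lib.H31J.DThree
import Pool.Agent.Lib.H31J.DTwo
import Pool.Agent.Lib.H31J.DSeg
import Pool.Agent.Lib.H31J.DSymA
import Pool.Agent.Lib.H31J.DSymB

/-! Part D: the assembly of the planar inequivalence from the chunks. -/

set_option autoImplicit false

namespace PJ
namespace D

open Filter Topology

theorem planar_D (lamA lamB : ℂ) (GA GB : Pt → ℂ) (IA : Interface combA lamA GA)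
    (IB : Interface combB lamB GB) : ¬ ∃ h : ℂ ≃ₜ ℂ, h '' Jul lamA = Jul lamB := by
  rintro ⟨H, hH⟩
  obtain ⟨T0, T9, zu, z0, z3, z6, wu, w0, w1, w2, S⟩ := symA
  -- preimages in the model B
  have pre : ∀ p ∈ combA.LL, ∃ q ∈ combB.LL, H (GA p) = GB q := by
    intro p hp
    have h1 : H (GA p) ∈ Jul lamB := by
      rw [← hH]
      exact ⟨GA p, by rw [← IA.image]; exact ⟨p, hp, rfl⟩, rfl⟩
    rw [← IB.image] at h1
    obtain ⟨q, hq, hq'⟩ := h1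
    exact ⟨q, hq, hq'.symm⟩
  choose! F hF hFG using pre
  have tr : ∀ p ∈ combA.LL, ∀ q ∈ combA.LL, (p.1 = q.1 ↔ (F p).1 = (F q).1) := fun p hp q hq =>
    itin_transfer IA IB H hH hp hq (hF p hp) (hF q hq) (hFG p hp) (hFG q hq)
  have cv : ∀ (p : ℕ → Pt) (q : Pt), (∀ k, p k ∈ combA.LL) → q ∈ combA.LL →
      Tendsto p atTop (𝓝 q) → ¬ IsEnd (F q).1 (F q).2.2 →
      Tendsto (fun k => F (p k)) atTop (𝓝 (F q)) := by
    intro p q hp hq h hne
    apply pt_conv IB (fun k => hF _ (hp k)) (hF q hq) hne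
    have h1 : Tendsto (fun k => GA (p k)) atTop (𝓝 (GA q)) := by
      have h2 : Tendsto p atTop (𝓝[combA.LL] q) :=
        tendsto_nhdsWithin_iff.2 ⟨h, Eventually.of_forall hp⟩
      exact (IA.cont q hq).tendsto.comp h2
    have h3 : Tendsto (fun k => H (GA (p k))) atTop (𝓝 (H (GA q))) :=
      (H.continuous.tendsto _).comp h1
    rw [hFG q hq] at h3
    exact h3.congr fun k => hFG _ (hp k)
  have zero_bd : ∀ i : ℕ, |((fun _ => 0 : ℕ → ℤ) i)| ≤ 2 := by intro i; simp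
  obtain ⟨t0, ht0⟩ := two_star IA IB H hH (LL_small zero_bd S.T0X le_rfl)
    (LL_small zero_bd S.T9X le_rfl) S.Tne
  obtain ⟨s, hs⟩ : ∃ s : ℝ, s = max t0 4 := ⟨_, rfl⟩
  have hs0 : t0 ≤ s := hs ▸ le_max_left _ _
  have hs3 : (3 : ℝ) < s := lt_of_lt_of_le (by norm_num) (hs ▸ le_max_right _ _)
  have mem : ∀ (u : ℕ → ℤ) (e : ℕ → ℕ), (∀ i, |u i| ≤ 2) → (u, e) ∈ combA.X →
      ((u, e, s) : Pt) ∈ combA.LL := fun u e h1 h2 => LL_small h1 h2 hs3.le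
  have nend : ∀ (u : ℕ → ℤ) (e : ℕ → ℕ), (∀ i, |u i| ≤ 2) → (u, e) ∈ combA.X →
      ¬ IsEnd u s := fun u e h1 h2 =>
    not_isEnd_of_lt (LL_iff.1 (LL_small h1 h2 le_rfl)).1 hs3
  -- the points in A
  have mT0 : (((fun _ => 0 : ℕ → ℤ), T0, s) : Pt) ∈ combA.LL := mem _ _ zero_bd S.T0X
  have mT9 : (((fun _ => 0 : ℕ → ℤ), T9, s) : Pt) ∈ combA.LL := mem _ _ zero_bd S.T9X
  have mz0 : ∀ n, ((zu n, z0 n, s) : Pt) ∈ combA.LL := fun n => mem _ _ (S.zu_bd n) (S.z0X n)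
  have mz3 : ∀ n, ((zu n, z3 n, s) : Pt) ∈ combA.LL := fun n => mem _ _ (S.zu_bd n) (S.z3X n)
  have mz6 : ∀ n, ((zu n, z6 n, s) : Pt) ∈ combA.LL := fun n => mem _ _ (S.zu_bd n) (S.z6X n)
  have mw0 : ∀ n k, ((wu n k, w0 n k, s) : Pt) ∈ combA.LL :=
    fun n k => mem _ _ (S.wu_bd n k) (S.w0X n k)
  have mw1 : ∀ n k, ((wu n k, w1 n k, s) : Pt) ∈ combA.LL :=
    fun n k => mem _ _ (S.wu_bd n k) (S.w1X n k)
  have mw2 : ∀ n k, ((wu n k, w2 n k, s) : Pt) ∈ combA.LL :=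
    fun n k => mem _ _ (S.wu_bd n k) (S.w2X n k)
  obtain ⟨nT0, nT9, neT⟩ := ht0 s hs0 _ (hF _ mT0) _ (hF _ mT9) (hFG _ mT0) (hFG _ mT9)
  have hz : ∀ n, _ := fun n => three_star IA IB H hH (mz0 n) (mz3 n) (mz6 n)
    (nend _ _ (S.zu_bd n) (S.z0X n)) (S.z03 n) (S.z06 n) (S.z36 n) (hF _ (mz0 n)) (hF _ (mz3 n))
    (hF _ (mz6 n)) (hFG _ (mz0 n)) (hFG _ (mz3 n)) (hFG _ (mz6 n))
  have hw : ∀ n k, _ := fun n k => three_star IA IB H hH (mw0 n k) (mw1 n k) (mw2 n k)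
    (nend _ _ (S.wu_bd n k) (S.w0X n k)) (S.w01 n k) (S.w02 n k) (S.w12 n k) (hF _ (mw0 n k))
    (hF _ (mw1 n k)) (hF _ (mw2 n k)) (hFG _ (mw0 n k)) (hFG _ (mw1 n k)) (hFG _ (mw2 n k))
  -- convergence
  have c0 := cv (fun n => (zu n, z0 n, s)) _ mz0 mT0
    (pt_tendsto (fun i => (S.zlim i).mono fun n h => h.1)
      (fun i => (S.zlim i).mono fun n h => h.2.1)) nT0
  have c3 := cv (fun n => (zu n, z3 n, s)) _ mz3 mT9
    (pt_tendsto (fun i => (S.zlim i).mono fun n h => h.1)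
      (fun i => (S.zlim i).mono fun n h => h.2.2.1)) nT9
  have c6 := cv (fun n => (zu n, z6 n, s)) _ mz6 mT9
    (pt_tendsto (fun i => (S.zlim i).mono fun n h => h.1)
      (fun i => (S.zlim i).mono fun n h => h.2.2.2)) nT9
  have d0 : ∀ n, _ := fun n => cv (fun k => (wu n k, w0 n k, s)) _ (mw0 n) (mz6 n)
    (pt_tendsto (fun i => (S.wlim n i).mono fun k h => h.1)
      (fun i => (S.wlim n i).mono fun k h => h.2.1)) (hz n).2.2.1
  have d1 : ∀ n, _ := fun n => cv (fun k => (wu n k, w1 n k, s)) _ (mw1 n) (mz0 n)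
    (pt_tendsto (fun i => (S.wlim n i).mono fun k h => h.1)
      (fun i => (S.wlim n i).mono fun k h => h.2.2.1)) (hz n).1
  have d2 : ∀ n, _ := fun n => cv (fun k => (wu n k, w2 n k, s)) _ (mw2 n) (mz0 n)
    (pt_tendsto (fun i => (S.wlim n i).mono fun k h => h.1)
      (fun i => (S.wlim n i).mono fun k h => h.2.2.2)) (hz n).1
  -- itineraries in B
  obtain ⟨U, hU⟩ : ∃ U : ℕ → ℤ, U = (F ((fun _ => 0), T0, s)).1 := ⟨_, rfl⟩
  have hU9 : (F ((fun _ => 0), T9, s)).1 = U := by rw [hU]; exact ((tr _ mT9 _ mT0).1 rfl)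
  have hu3 : ∀ n, (F (zu n, z3 n, s)).1 = (F (zu n, z0 n, s)).1 :=
    fun n => (tr _ (mz3 n) _ (mz0 n)).1 rfl
  have hu6 : ∀ n, (F (zu n, z6 n, s)).1 = (F (zu n, z0 n, s)).1 :=
    fun n => (tr _ (mz6 n) _ (mz0 n)).1 rfl
  have hv0 : ∀ n k, (F (wu n k, w0 n k, s)).1 = (F (wu n k, w1 n k, s)).1 :=
    fun n k => (tr _ (mw0 n k) _ (mw1 n k)).1 rfl
  have hv2 : ∀ n k, (F (wu n k, w2 n k, s)).1 = (F (wu n k, w1 n k, s)).1 :=
    fun n k => (tr _ (mw2 n k) _ (mw1 n k)).1 rfl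
  have XB : ∀ p ∈ combB.LL, (p.1, p.2.1) ∈ combB.X := fun p hp n => (hp n).2
  have huU : ∀ n, (F (zu n, z0 n, s)).1 ≠ U := by
    intro n h
    rw [hU] at h
    exact S.zu_ne n ((tr _ (mz0 n) _ mT0).2 h)
  have hvu : ∀ n k, (F (wu n k, w1 n k, s)).1 ≠ (F (zu n, z0 n, s)).1 := by
    intro n k h
    exact S.wu_ne n k ((tr _ (mw1 n k) _ (mz0 n)).2 h)
  obtain ⟨n, k, L1, L2, L3⟩ := symB (U := U) (a0 := (F ((fun _ => 0), T0, s)).2.1)
    (a9 := (F ((fun _ => 0), T9, s)).2.1) (by rw [hU]; exact XB _ (hF _ mT0))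
    (by rw [← hU9]; exact XB _ (hF _ mT9)) neT
    (u := fun n => (F (zu n, z0 n, s)).1) (a := fun n => (F (zu n, z3 n, s)).2.1)
    (b := fun n => (F (zu n, z6 n, s)).2.1) (c := fun n => (F (zu n, z0 n, s)).2.1)
    (fun n => by rw [← hu3]; exact XB _ (hF _ (mz3 n)))
    (fun n => by rw [← hu6]; exact XB _ (hF _ (mz6 n)))
    (fun n => XB _ (hF _ (mz0 n)))
    (fun n => (hz n).2.2.2.2.2) (fun n => (hz n).2.2.2.1.symm) (fun n => (hz n).2.2.2.2.1.symm)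
    (fun i => by rw [hU]; exact itin_ev c0 i) (fun i => arm_ev c3 i) (fun i => arm_ev c6 i)
    (fun i => arm_ev c0 i) huU
    (v := fun n k => (F (wu n k, w1 n k, s)).1) (r0 := fun n k => (F (wu n k, w0 n k, s)).2.1)
    (r1 := fun n k => (F (wu n k, w1 n k, s)).2.1) (r2 := fun n k => (F (wu n k, w2 n k, s)).2.1)
    (fun n k => by rw [← hv0]; exact XB _ (hF _ (mw0 n k)))
    (fun n k => XB _ (hF _ (mw1 n k)))
    (fun n k => by rw [← hv2]; exact XB _ (hF _ (mw2 n k)))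
    (fun n k => (hw n k).2.2.2.1) (fun n k => (hw n k).2.2.2.2.1)
    (fun n k => (hw n k).2.2.2.2.2)
    (fun n i => itin_ev (d1 n) i) (fun n i => arm_ev (d0 n) i) (fun n i => arm_ev (d1 n) i)
    (fun n i => arm_ev (d2 n) i) hvu
  -- the segment
  have ctA : ∀ (u : ℕ → ℤ) (e : ℕ → ℕ), (∀ i, |u i| ≤ 2) → (u, e) ∈ combA.X →
      ((u, e, 3) : Pt) ∈ combA.LL := fun u e h1 h2 => LL_small h1 h2 le_rfl
  have mT0' := ctA _ _ zero_bd S.T0X
  have mw1' := ctA _ _ (S.wu_bd n k) (S.w1X n k)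
  obtain ⟨σ, τ, hσ, hτ, hav⟩ := seg_avoid IA (u := zu n)
    (f := fun s => GA ((fun _ => 0), T0, s)) (g := fun s => GA (wu n k, w1 n k, s)) (a := 3)
    (b := 3) (arm_cont IA mT0') (arm_cont IA mw1') (IA.tail _ _ _ mT0') (IA.tail _ _ _ mw1')
    (by
      refine Set.Finite.subset (Set.toFinite {z0 n, z3 n, z6 n}) fun e he => ?_
      rcases S.zall n e he with h | h | h <;> simp [h])
    (by
      intro e he
      rcases S.zall n e he with h | h | h <;> subst h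
      · exact hair_order IA mT0' (mz0 n) (S.T_lt0 n)
      · exact hair_order IA mT0' (mz3 n) (S.T_lt3 n)
      · exact hair_order IA mT0' (mz6 n) (S.T_lt6 n))
    (by
      intro e he
      rcases S.zall n e he with h | h | h <;> subst h
      · exact hair_order IA mw1' (mz0 n) (S.w_lt0 n k)
      · exact hair_order IA mw1' (mz3 n) (S.w_lt3 n k)
      · exact hair_order IA mw1' (mz6 n) (S.w_lt6 n k))
  have mσ : (((fun _ => 0 : ℕ → ℤ), T0, σ) : Pt) ∈ combA.LL := LL_up mT0' hσ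
  have mτ : ((wu n k, w1 n k, τ) : Pt) ∈ combA.LL := LL_up mw1' hτ
  -- the four arms in B
  obtain ⟨A, hA⟩ : ∃ A : ℝ, A = (F ((fun _ => 0), T0, s)).2.2 := ⟨_, rfl⟩
  obtain ⟨B, hB⟩ : ∃ B : ℝ, B = (F (wu n k, w0 n k, s)).2.2 := ⟨_, rfl⟩
  have memf : ((U, (F ((fun _ => 0), T0, s)).2.1, A) : Pt) ∈ combB.LL := by
    rw [hU, hA]; exact hF _ mT0
  have memg : (((F (wu n k, w1 n k, s)).1, (F (wu n k, w0 n k, s)).2.1, B) : Pt) ∈
      combB.LL := by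
    rw [← hv0, hB]; exact hF _ (mw0 n k)
  obtain ⟨μ, hμ, hμe, hμs⟩ := exists_end (LL_iff.1 (show (((F (zu n, z0 n, s)).1,
    (F (zu n, z0 n, s)).2.1, (F (zu n, z0 n, s)).2.2) : Pt) ∈ combB.LL from hF _ (mz0 n))).1
  have memx : (((F (zu n, z0 n, s)).1, (F (zu n, z0 n, s)).2.1, μ) : Pt) ∈ combB.LL :=
    LL_iff.2 ⟨(hμs μ).2 le_rfl, XB _ (hF _ (mz0 n))⟩
  have memy : (((F (zu n, z0 n, s)).1, (F (zu n, z6 n, s)).2.1, μ) : Pt) ∈ combB.LL :=
    LL_iff.2 ⟨(hμs μ).2 le_rfl, by rw [← hu6]; exact XB _ (hF _ (mz6 n))⟩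
  -- the stars avoided
  have hUne : ∀ z, z ∈ Star combB GB U → z ∈ (Star combB GB (F (zu n, z0 n, s)).1)ᶜ :=
    fun z hz1 hz2 => huU n (star_disjoint IB hz1 hz2).symm
  have hVne : ∀ z, z ∈ Star combB GB (F (wu n k, w1 n k, s)).1 →
      z ∈ (Star combB GB (F (zu n, z0 n, s)).1)ᶜ :=
    fun z hz1 hz2 => hvu n k (star_disjoint IB hz1 hz2)
  have inStar : ∀ p ∈ combB.LL, GB p ∈ Star combB GB p.1 := fun p hp =>
    ⟨p.2.1, p.2.2, hp, rfl⟩
  have j1 : JoinedIn (Star combB GB (F (zu n, z0 n, s)).1)ᶜ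
      (GB (U, (F ((fun _ => 0), T0, s)).2.1, A)) (H (GA ((fun _ => 0), T0, σ))) := by
    refine (star_joined IB (u := U) (inStar _ memf) ?_).mono hUne
    rw [hFG _ mσ]
    have := inStar _ (hF _ mσ)
    rwa [show (F ((fun _ => 0), T0, σ)).1 = U from by rw [hU]; exact (tr _ mσ _ mT0).1 rfl]
      at this
  have j3 : JoinedIn (Star combB GB (F (zu n, z0 n, s)).1)ᶜ
      (H (GA (wu n k, w1 n k, τ)))
      (GB ((F (wu n k, w1 n k, s)).1, (F (wu n k, w0 n k, s)).2.1, B)) := by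
    refine (star_joined IB (u := (F (wu n k, w1 n k, s)).1) ?_ ⟨_, _, memg, rfl⟩).mono hVne
    rw [hFG _ mτ]
    have := inStar _ (hF _ mτ)
    rwa [show (F (wu n k, w1 n k, τ)).1 = (F (wu n k, w1 n k, s)).1 from
      (tr _ mτ _ (mw1 n k)).1 rfl] at this
  have j2 : JoinedIn (Star combB GB (F (zu n, z0 n, s)).1)ᶜ
      (H (GA ((fun _ => 0), T0, σ))) (H (GA (wu n k, w1 n k, τ))) := by
    have h1 : JoinedIn (segment ℝ (GA ((fun _ => 0), T0, σ)) (GA (wu n k, w1 n k, τ)))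
        (GA ((fun _ => 0), T0, σ)) (GA (wu n k, w1 n k, τ)) :=
      JoinedIn.of_segment_subset subset_rfl
    refine (h1.map H.continuous).mono ?_
    rintro _ ⟨z, hz1, rfl⟩ hz2
    obtain ⟨e, t, het, hz3⟩ := hz2
    have hzJ : z ∈ Jul lamA := by
      have h3 : H z ∈ Jul lamB := by
        rw [← hz3, ← IB.image]
        exact ⟨_, het, rfl⟩
      rw [← hH] at h3
      obtain ⟨z', hz', hz''⟩ := h3
      rwa [H.injective hz''] at hz'
    rw [← IA.image] at hzJ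
    obtain ⟨p, hp, rfl⟩ := hzJ
    have h4 : p.1 = zu n :=
      (itin_transfer IA IB H hH hp (mz0 n) het (hF _ (mz0 n)) hz3.symm (hFG _ (mz0 n))).2 rfl
    exact hav _ hz1 ⟨p.2.1, p.2.2, by rw [← h4]; exact hp, by rw [← h4]⟩
  -- positions
  have B1 := hair_order IB memf memx L1
  have B2 := hair_order IB memg memy L2
  have hxy : GB ((F (zu n, z0 n, s)).1, (F (zu n, z0 n, s)).2.1, μ) =
      GB ((F (zu n, z0 n, s)).1, (F (zu n, z6 n, s)).2.1, μ) :=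
    (IB.fib _ memx _ memy).2 (Or.inr ⟨rfl, rfl, hμe⟩)
  rcases L3 with ⟨L3, L4⟩ | ⟨L3, L4⟩
  · have B3 := hair_order IB memf memy L3
    have B4 := hair_order IB memx memg L4
    have := crossing_rays (K := Star combB GB (F (zu n, z0 n, s)).1)
      (f := fun t => GB (U, (F ((fun _ => 0), T0, s)).2.1, t))
      (g := fun t => GB ((F (wu n k, w1 n k, s)).1, (F (wu n k, w0 n k, s)).2.1, t))
      (x := fun t => GB ((F (zu n, z0 n, s)).1, (F (zu n, z0 n, s)).2.1, t))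
      (y := fun t => GB ((F (zu n, z0 n, s)).1, (F (zu n, z6 n, s)).2.1, t))
      (a := A) (b := B) (m := μ)
      (arm_cont IB memf) (arm_cont IB memg) (arm_cont IB memx) (arm_cont IB memy) hxy
      (IB.tail _ _ _ memf) (IB.tail _ _ _ memg) (IB.tail _ _ _ memx) (IB.tail _ _ _ memy)
      (fun s hs => ⟨_, _, LL_up memx hs, rfl⟩) (fun s hs => ⟨_, _, LL_up memy hs, rfl⟩)
      (fun s hs => hUne _ ⟨_, _, LL_up memf hs, rfl⟩)
      (fun s hs => hVne _ ⟨_, _, LL_up memg hs, rfl⟩) (j1.trans (j2.trans j3))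
      (b11 := 1) (b12 := 1) (b21 := 0) (b22 := 1)
      (Or.inl ⟨rfl, B1⟩) (Or.inl ⟨rfl, B3⟩) (Or.inr ⟨rfl, B4⟩) (Or.inl ⟨rfl, B2⟩)
    norm_num at this
  · have B3 := hair_order IB memy memf L3
    have B4 := hair_order IB memg memx L4
    have := crossing_rays (K := Star combB GB (F (zu n, z0 n, s)).1)
      (f := fun t => GB (U, (F ((fun _ => 0), T0, s)).2.1, t))
      (g := fun t => GB ((F (wu n k, w1 n k, s)).1, (F (wu n k, w0 n k, s)).2.1, t))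
      (x := fun t => GB ((F (zu n, z0 n, s)).1, (F (zu n, z0 n, s)).2.1, t))
      (y := fun t => GB ((F (zu n, z0 n, s)).1, (F (zu n, z6 n, s)).2.1, t))
      (a := A) (b := B) (m := μ)
      (arm_cont IB memf) (arm_cont IB memg) (arm_cont IB memx) (arm_cont IB memy) hxy
      (IB.tail _ _ _ memf) (IB.tail _ _ _ memg) (IB.tail _ _ _ memx) (IB.tail _ _ _ memy)
      (fun s hs => ⟨_, _, LL_up memx hs, rfl⟩) (fun s hs => ⟨_, _, LL_up memy hs, rfl⟩)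
      (fun s hs => hUne _ ⟨_, _, LL_up memf hs, rfl⟩)
      (fun s hs => hVne _ ⟨_, _, LL_up memg hs, rfl⟩) (j1.trans (j2.trans j3))
      (b11 := 1) (b12 := 0) (b21 := 1) (b22 := 1)
      (Or.inl ⟨rfl, B1⟩) (Or.inr ⟨rfl, B3⟩) (Or.inl ⟨rfl, B4⟩) (Or.inl ⟨rfl, B2⟩)
    norm_num at this

end D
end PJ
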