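import Pool.Agent.Lib.H31J.DLog

/-! Part D, chunk DHAIR: asymptotics and order of the hairs.

`hair_im`: by `I.branch`, `Im G(u,e,s) = arg G(shift) - arg lam + 2π x₀` and the argument tends
to `0` since the real part tends to infinity (`I.tail`) and the imaginary part is bounded
(`I.im_bd`).
`hair_order`: induction on the first position where the addresses differ; base: `hair_im`
and `Blw_of_lt`; step: `I.branch` and `Blw_log`, `Blw_comp`, `Blw_congr`. -/

set_option autoImplicit false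

namespace PJ
namespace D

open Filter Topology

theorem Blw_comp {f g : ℝ → ℂ} (h : Blw f g) {φ ψ : ℝ → ℝ} (hφ : Tendsto φ atTop atTop)
    (hψ : Tendsto ψ atTop atTop) : Blw (fun s => f (φ s)) (fun s => g (ψ s)) := by
  obtain ⟨κ, hκ, S, hS⟩ := h
  obtain ⟨S1, hS1⟩ := ((hφ.eventually_ge_atTop S).and (hψ.eventually_ge_atTop S)).exists_forall_of_atTop
  exact ⟨κ, hκ, S1, fun s hs t ht => hS _ (hS1 s hs).1 _ (hS1 t ht).2⟩

theorem Blw_congr {f g f' g' : ℝ → ℂ} (h : Blw f g) (hf : f =ᶠ[atTop] f')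
    (hg : g =ᶠ[atTop] g') : Blw f' g' := by
  obtain ⟨κ, hκ, S, hS⟩ := h
  obtain ⟨S1, hS1⟩ := (hf.and hg).exists_forall_of_atTop
  refine ⟨κ, hκ, max S S1, fun s hs t ht => ?_⟩
  have h1 := hS s ((le_max_left _ _).trans hs) t ((le_max_left _ _).trans ht)
  rw [(hS1 s ((le_max_right _ _).trans hs)).1, (hS1 t ((le_max_right _ _).trans ht)).2] at h1
  exact h1

theorem Blw_of_lt {f g : ℝ → ℂ} {a b : ℝ} (hf : Tendsto (fun s => (f s).im) atTop (𝓝 a))
    (hg : Tendsto (fun s => (g s).im) atTop (𝓝 b)) (hab : a < b) : Blw f g := by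
  have h1 : ∀ᶠ s in atTop, (f s).im < (a + b) / 2 := hf.eventually (gt_mem_nhds (by linarith))
  have h2 : ∀ᶠ s in atTop, (a + b) / 2 < (g s).im := hg.eventually (lt_mem_nhds (by linarith))
  obtain ⟨S1, hS1⟩ := (h1.and h2).exists_forall_of_atTop
  refine ⟨1, one_pos, S1, fun s hs t ht => ?_⟩
  have h3 := (hS1 s hs).1
  have h4 := (hS1 t ht).2
  rw [Complex.sub_im]
  have h5 := abs_nonneg (f s - g t).re
  linarith

theorem dhair_arg {f : ℝ → ℂ} (hf : Tendsto (fun s => (f s).re) atTop atTop) {B : ℝ}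
    (hB : ∀ᶠ s in atTop, |(f s).im| ≤ B) : Tendsto (fun s => (f s).arg) atTop (𝓝 0) := by
  have h1 : Tendsto (fun s => (f s).im / ‖f s‖) atTop (𝓝 0) := by
    have hn : Tendsto (fun s => ‖f s‖) atTop atTop :=
      tendsto_atTop_mono (fun s => Complex.re_le_norm _) hf
    have h2 : Tendsto (fun s => B / ‖f s‖) atTop (𝓝 0) := hn.const_div_atTop B
    refine squeeze_zero_norm' ?_ h2
    filter_upwards [hB] with s hs
    rw [norm_div, norm_norm, Real.norm_eq_abs]
    exact div_le_div_of_nonneg_right hs (norm_nonneg _)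
  have h2 : Tendsto (fun s => Real.arcsin ((f s).im / ‖f s‖)) atTop (𝓝 (Real.arcsin 0)) :=
    (Real.continuous_arcsin.tendsto 0).comp h1
  rw [Real.arcsin_zero] at h2
  refine h2.congr' ?_
  filter_upwards [hf.eventually_ge_atTop 0] with s hs
  rw [Complex.arg_of_re_nonneg hs]

/-- the shifted hair -/
theorem dhair_shift {C : Comb} {lam : ℂ} {G : Pt → ℂ} (I : Interface C lam G) {u : ℕ → ℤ}
    {e : ℕ → ℕ} {t : ℝ} (h : (u, e, t) ∈ C.LL) :
    Tendsto (fun s : ℝ => (G (shiftPt (u, e, s))).re) atTop atTop ∧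
    (∀ᶠ s in atTop, |(G (shiftPt (u, e, s))).im| ≤ 10 + |2 * Real.pi * (u 1 : ℝ)|) := by
  constructor
  · have h1 : (fun s : ℝ => (G (shiftPt (u, e, s))).re) =
        (fun s : ℝ => (G (fun n => u (n + 1), fun n => e (n + 1), s)).re) ∘
          (fun s => Tn u s 1) := by
      funext s; rfl
    rw [h1]
    exact (I.tail _ _ _ (shift_mem h)).comp (Tn_tendsto u 1)
  · filter_upwards [eventually_ge_atTop t] with s hs
    have h2 := I.im_bd _ (shift_mem (LL_up h hs))
    have h3 : ((shiftPt (u, e, s)).1 0 : ℝ) = (u 1 : ℝ) := rfl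
    rw [h3] at h2
    have h4 := abs_le.mp h2
    have h5 := neg_abs_le (2 * Real.pi * (u 1 : ℝ))
    have h6 := le_abs_self (2 * Real.pi * (u 1 : ℝ))
    rw [abs_le]
    constructor <;> linarith [h4.1, h4.2]

theorem hair_im {C : Comb} {lam : ℂ} {G : Pt → ℂ} (I : Interface C lam G) {u : ℕ → ℤ}
    {e : ℕ → ℕ} {t : ℝ} (h : (u, e, t) ∈ C.LL) :
    Tendsto (fun s : ℝ => (G (u, e, s)).im) atTop
      (𝓝 (2 * Real.pi * (adr C u e 0 : ℝ) - lam.arg)) := by
  obtain ⟨h1, h2⟩ := dhair_shift I h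
  have h3 := dhair_arg h1 h2
  obtain ⟨T, hT⟩ := I.branch u e t h
  have h4 : Tendsto (fun s : ℝ => (G (shiftPt (u, e, s))).arg +
      (2 * Real.pi * (adr C u e 0 : ℝ) - lam.arg)) atTop
      (𝓝 (0 + (2 * Real.pi * (adr C u e 0 : ℝ) - lam.arg))) := h3.add_const _
  rw [zero_add] at h4
  refine h4.congr' ?_
  filter_upwards [eventually_ge_atTop T] with s hs
  rw [hT s hs]
  simp only [Complex.add_im, Complex.sub_im, Complex.log_im, adr]
  simp
  ring

theorem hair_order {C : Comb} {lam : ℂ} {G : Pt → ℂ} (I : Interface C lam G)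
    {u u' : ℕ → ℤ} {e e' : ℕ → ℕ} {t t' : ℝ} (h : (u, e, t) ∈ C.LL) (h' : (u', e', t') ∈ C.LL)
    (hlt : LexLt C u e u' e') :
    Blw (fun s : ℝ => G (u, e, s)) (fun s : ℝ => G (u', e', s)) := by
  obtain ⟨n, hn1, hn2⟩ := hlt
  induction n generalizing u u' e e' t t' with
  | zero =>
    refine Blw_of_lt (hair_im I h) (hair_im I h') ?_
    have h1 : (adr C u e 0 : ℝ) < (adr C u' e' 0 : ℝ) := by exact_mod_cast hn2
    have h2 := Real.pi_pos
    nlinarith
  | succ n ih =>
    have h0 : adr C u e 0 = adr C u' e' 0 := hn1 0 (Nat.succ_pos n)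
    have h1 : Blw (fun s : ℝ => G (fun n => u (n + 1), fun n => e (n + 1), s))
        (fun s : ℝ => G (fun n => u' (n + 1), fun n => e' (n + 1), s)) :=
      ih (shift_mem h) (shift_mem h') (fun i hi => hn1 (i + 1) (by omega)) hn2
    have h2 : Blw (fun s : ℝ => G (shiftPt (u, e, s))) (fun s : ℝ => G (shiftPt (u', e', s))) :=
      Blw_comp h1 (Tn_tendsto u 1) (Tn_tendsto u' 1)
    obtain ⟨a1, a2⟩ := dhair_shift I h
    obtain ⟨b1, b2⟩ := dhair_shift I h'
    set B := max (10 + |2 * Real.pi * (u 1 : ℝ)|) (10 + |2 * Real.pi * (u' 1 : ℝ)|) with hB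
    have h3 := Blw_log a1 b1 (B := B) (a2.mono fun s hs => hs.trans (le_max_left _ _))
      (b2.mono fun s hs => hs.trans (le_max_right _ _)) h2
      (2 * Real.pi * Complex.I * (adr C u e 0 : ℂ) - Complex.log lam)
    obtain ⟨T, hT⟩ := I.branch u e t h
    obtain ⟨T', hT'⟩ := I.branch u' e' t' h'
    refine Blw_congr h3 ?_ ?_
    · filter_upwards [eventually_ge_atTop T] with s hs
      rw [hT s hs]
      simp only [adr]
      ring
    · filter_upwards [eventually_ge_atTop T'] with s hs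
      rw [hT' s hs, h0]
      simp only [adr]
      ring

end D
end PJ
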