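import Pool.Agent.Lib.H31J.DBase

/-! Part D, chunk DLOG: the relation `Blw` and the principal logarithm.

Proof of `Blw_log`: for `z, w` with real parts `≥ R` and `|Im| ≤ B` one has
`Log z - Log w = (z - w) * I`, `I = ∫_0^1 dτ / (w + τ (z - w))`, hence `I = I₁ - i I₂`
with `I₁ > 0`, `|I₂| ≤ (B / R) I₁` (an elementary alternative: `Im (Log z - Log w)` and
`Re (Log z - Log w)` separately by the mean value theorem).  With `ε = B / R` small,
`Im (z-w) < κ |Re (z-w)|` implies `Im (Log z - Log w) < 2 κ |Re (Log z - Log w)|`. -/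

set_option autoImplicit false

namespace PJ
namespace D

open Filter Topology

/-- pointwise estimate -/
theorem dlog_pt {κ ε x y a b : ℝ} (hκ : 0 < κ) (hε : 0 ≤ ε) (hεκ : ε * (1 + 2 * κ ^ 2) ≤ κ)
    (ha : 0 < a) (hb : |b| ≤ ε * a) (hy : y < κ * |x|) (σ : ℝ) (hσ : |σ| = 1) (hx : σ * x = |x|) :
    y * a - x * b < 2 * κ * σ * (x * a + y * b) := by
  have h1 : -(x * b) ≤ |x| * (ε * a) := by
    calc -(x * b) ≤ |x * b| := neg_le_abs _
      _ = |x| * |b| := abs_mul _ _
      _ ≤ |x| * (ε * a) := mul_le_mul_of_nonneg_left hb (abs_nonneg _)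
  have h2 : -(|y| * (ε * a)) ≤ σ * (y * b) := by
    have h3 : |σ * (y * b)| ≤ |y| * (ε * a) := by
      rw [abs_mul, hσ, one_mul, abs_mul]
      exact mul_le_mul_of_nonneg_left hb (abs_nonneg _)
    linarith [(abs_le.mp h3).1]
  have h4 : 2 * κ * (|x| * a - |y| * (ε * a)) ≤ 2 * κ * σ * (x * a + y * b) := by
    have h5 : 2 * κ * σ * (x * a + y * b) = 2 * κ * ((σ * x) * a + σ * (y * b)) := by ring
    rw [h5, hx]
    exact mul_le_mul_of_nonneg_left (by linarith) (by positivity)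
  have hX : 0 ≤ |x| := abs_nonneg x
  have hεκ2 : 2 * κ * ε < 1 := by
    by_contra hcon
    push Not at hcon
    have h7 : (1 + 2 * κ ^ 2) * 1 ≤ (1 + 2 * κ ^ 2) * (2 * κ * ε) :=
      mul_le_mul_of_nonneg_left hcon (by positivity)
    have h8 : 2 * κ * (ε * (1 + 2 * κ ^ 2)) ≤ 2 * κ * κ :=
      mul_le_mul_of_nonneg_left hεκ (by positivity)
    nlinarith
  have h6 : ε * |x| + y < 2 * κ * (|x| - ε * |y|) := by
    rcases le_or_gt 0 y with h | h
    · rw [abs_of_nonneg h]
      nlinarith [mul_nonneg hε hκ.le, mul_nonneg (mul_nonneg hε hκ.le) h]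
    · rw [abs_of_neg h]
      have hεk : ε ≤ 2 * κ := by nlinarith [mul_nonneg hε (sq_nonneg κ)]
      have h7 : 0 < (1 - 2 * κ * ε) * (-y) := mul_pos (by linarith) (by linarith)
      nlinarith [mul_nonneg hX (sub_nonneg.mpr hεk)]
  have h7 : a * (ε * |x| + y) < a * (2 * κ * (|x| - ε * |y|)) := mul_lt_mul_of_pos_left h6 ha
  nlinarith

theorem dlog_seg {κ ε R B : ℝ} (hκ : 0 < κ) (hε : 0 ≤ ε) (hεκ : ε * (1 + 2 * κ ^ 2) ≤ κ)
    (hR : 0 < R) (hB : B ≤ ε * R) {z w : ℂ} (hz : R ≤ z.re) (hw : R ≤ w.re) (hz' : |z.im| ≤ B)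
    (hw' : |w.im| ≤ B) (h : (z - w).im < κ * |(z - w).re|) :
    (Complex.log z - Complex.log w).im < 2 * κ * |(Complex.log z - Complex.log w).re| := by
  obtain ⟨σ, hσ, hx⟩ : ∃ σ : ℝ, |σ| = 1 ∧ σ * (z - w).re = |(z - w).re| := by
    rcases le_or_gt 0 (z - w).re with h0 | h0
    · exact ⟨1, by simp, by rw [abs_of_nonneg h0, one_mul]⟩
    · exact ⟨-1, by simp, by rw [abs_of_neg h0]; ring⟩
  set p : ℝ → ℂ := fun τ => w + (τ : ℂ) * (z - w) with hp
  have hpre : ∀ τ ∈ Set.Icc (0 : ℝ) 1, R ≤ (p τ).re ∧ |(p τ).im| ≤ B := by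
    intro τ hτ
    have e1 : (p τ).re = (1 - τ) * w.re + τ * z.re := by
      simp [hp]; ring
    have e2 : (p τ).im = (1 - τ) * w.im + τ * z.im := by
      simp [hp]; ring
    have h1 := hτ.1
    have h2 : 0 ≤ 1 - τ := by linarith [hτ.2]
    rw [e1, e2]
    refine ⟨by nlinarith, ?_⟩
    have h3 := abs_le.mp hz'
    have h4 := abs_le.mp hw'
    rw [abs_le]
    constructor
    · nlinarith [h3.1, h3.2, h4.1, h4.2]
    · nlinarith [h3.1, h3.2, h4.1, h4.2]
  have hder : ∀ τ ∈ Set.Icc (0 : ℝ) 1,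
      HasDerivAt (fun τ : ℝ => Complex.log (p τ)) ((z - w) / p τ) τ := by
    intro τ hτ
    have h1 : HasDerivAt p (z - w) τ := by
      have h2 : HasDerivAt (fun τ : ℝ => ((τ : ℝ) : ℂ)) 1 τ := by
        simpa using (hasDerivAt_id τ).ofReal_comp
      have h3 := (h2.mul_const (z - w)).const_add w
      exact h3.congr_deriv (one_mul _)
    have h4 : p τ ∈ Complex.slitPlane := Or.inl (lt_of_lt_of_le hR (hpre τ hτ).1)
    exact h1.clog_real h4
  set F : ℝ → ℝ := fun τ => (Complex.log (p τ)).im - 2 * κ * σ * (Complex.log (p τ)).re with hF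
  have hFd : ∀ τ ∈ Set.Icc (0 : ℝ) 1,
      HasDerivAt F (((z - w) / p τ).im - 2 * κ * σ * ((z - w) / p τ).re) τ := by
    intro τ hτ
    have h1 := hder τ hτ
    have h2 : HasDerivAt (fun τ : ℝ => (Complex.log (p τ)).im) ((z - w) / p τ).im τ :=
      Complex.imCLM.hasFDerivAt.comp_hasDerivAt τ h1
    have h3 : HasDerivAt (fun τ : ℝ => (Complex.log (p τ)).re) ((z - w) / p τ).re τ :=
      Complex.reCLM.hasFDerivAt.comp_hasDerivAt τ h1
    exact h2.sub (h3.const_mul _)
  obtain ⟨c, hc, hc'⟩ := exists_hasDerivAt_eq_slope F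
    (fun τ => ((z - w) / p τ).im - 2 * κ * σ * ((z - w) / p τ).re) (zero_lt_one)
    (fun τ hτ => (hFd τ hτ).continuousAt.continuousWithinAt)
    (fun τ hτ => hFd τ ⟨hτ.1.le, hτ.2.le⟩)
  have hcI : c ∈ Set.Icc (0 : ℝ) 1 := ⟨hc.1.le, hc.2.le⟩
  have hneg : ((z - w) / p c).im - 2 * κ * σ * ((z - w) / p c).re < 0 := by
    have h1 : 0 < (p c).re := lt_of_lt_of_le hR (hpre c hcI).1
    have h2 : |(p c).im| ≤ ε * (p c).re :=
      ((hpre c hcI).2.trans hB).trans (mul_le_mul_of_nonneg_left (hpre c hcI).1 hε)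
    have h3 := dlog_pt hκ hε hεκ h1 h2 h σ hσ hx
    have h4 : 0 < Complex.normSq (p c) := by
      rw [Complex.normSq_pos]
      intro h0
      rw [h0] at h1
      simp at h1
    rw [Complex.div_im, Complex.div_re]
    have h5 : (z - w).im * (p c).re / Complex.normSq (p c)
        - (z - w).re * (p c).im / Complex.normSq (p c)
        - 2 * κ * σ * ((z - w).re * (p c).re / Complex.normSq (p c)
          + (z - w).im * (p c).im / Complex.normSq (p c)) =
        ((z - w).im * (p c).re - (z - w).re * (p c).im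
          - 2 * κ * σ * ((z - w).re * (p c).re + (z - w).im * (p c).im))
          / Complex.normSq (p c) := by
      ring
    rw [h5]
    exact div_neg_of_neg_of_pos (by linarith) h4
  have hF0 : F 0 = (Complex.log w).im - 2 * κ * σ * (Complex.log w).re := by
    simp [hF, hp]
  have hF1 : F 1 = (Complex.log z).im - 2 * κ * σ * (Complex.log z).re := by
    simp [hF, hp]
  have h8 : F 1 - F 0 < 0 := by
    have : F 1 - F 0 = (F 1 - F 0) / (1 - 0) := by simp
    rw [this, ← hc']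
    exact hneg
  rw [hF0, hF1] at h8
  have h9 : σ * (Complex.log z - Complex.log w).re ≤ |(Complex.log z - Complex.log w).re| := by
    calc _ ≤ |σ * (Complex.log z - Complex.log w).re| := le_abs_self _
      _ = _ := by rw [abs_mul, hσ, one_mul]
  rw [Complex.sub_im]
  rw [Complex.sub_re] at h9 ⊢
  nlinarith

theorem Blw_log {f g : ℝ → ℂ} (hf : Tendsto (fun s => (f s).re) atTop atTop)
    (hg : Tendsto (fun s => (g s).re) atTop atTop) {B : ℝ}
    (hfB : ∀ᶠ s in atTop, |(f s).im| ≤ B) (hgB : ∀ᶠ s in atTop, |(g s).im| ≤ B)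
    (h : Blw f g) (c : ℂ) :
    Blw (fun s => Complex.log (f s) + c) (fun s => Complex.log (g s) + c) := by
  obtain ⟨κ, hκ, S, hS⟩ := h
  set ε := κ / (1 + 2 * κ ^ 2) with hε
  have hε0 : 0 < ε := by positivity
  have hεκ : ε * (1 + 2 * κ ^ 2) ≤ κ := by
    rw [hε, div_mul_cancel₀ _ (by positivity)]
  set R := max 1 (B / ε) with hR
  have hR0 : 0 < R := lt_of_lt_of_le one_pos (le_max_left _ _)
  have hB : B ≤ ε * R := by
    have h1 : B / ε ≤ R := le_max_right _ _
    rw [div_le_iff₀ hε0] at h1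
    linarith
  obtain ⟨S1, hS1⟩ := ((hf.eventually_ge_atTop R).and ((hg.eventually_ge_atTop R).and
    (hfB.and hgB))).exists_forall_of_atTop
  refine ⟨2 * κ, by positivity, max S S1, fun s hs t ht => ?_⟩
  have h1 := hS1 s ((le_max_right _ _).trans hs)
  have h2 := hS1 t ((le_max_right _ _).trans ht)
  have h3 := hS s ((le_max_left _ _).trans hs) t ((le_max_left _ _).trans ht)
  have h4 := dlog_seg hκ hε0.le hεκ hR0 hB h1.1 h2.2.1 h1.2.2.1 h2.2.2.2 h3
  have h5 : Complex.log (f s) + c - (Complex.log (g t) + c) =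
      Complex.log (f s) - Complex.log (g t) := by ring
  rw [h5]
  exact h4

end D
end PJ
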