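import Pool.Agent.Lib.H31J.DConst

/-! Part D, chunk DSTAR: the components of the Julia set and homeomorphisms of the plane.

`arm_cont`: the arm `s ↦ G (u,e,s)` is continuous on `[μ,∞)` (`I.cont`, `LL_up`).
`star_joined`: two arms over the same itinerary meet in the end point (`exists_end`, `I.fib`).
`itin_transfer`: the star is preconnected, so its image is a preconnected subset of the other
Julia set; `itin_const`. -/

set_option autoImplicit false

namespace PJ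
namespace D

open Filter Topology

theorem arm_cont {C : Comb} {lam : ℂ} {G : Pt → ℂ} (I : Interface C lam G) {u : ℕ → ℤ}
    {e : ℕ → ℕ} {t : ℝ} (h : (u, e, t) ∈ C.LL) :
    ContinuousOn (fun s : ℝ => G (u, e, s)) (Set.Ici t) := by
  have h1 : Continuous (fun s : ℝ => ((u, e, s) : Pt)) := by fun_prop
  exact I.cont.comp h1.continuousOn (fun s hs => LL_up h hs)

theorem star_subset {C : Comb} {lam : ℂ} {G : Pt → ℂ} (I : Interface C lam G) (u : ℕ → ℤ) :
    Star C G u ⊆ Jul lam := by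
  rintro z ⟨e, t, h, rfl⟩
  rw [← I.image]
  exact ⟨_, h, rfl⟩

theorem star_joined {C : Comb} {lam : ℂ} {G : Pt → ℂ} (I : Interface C lam G) {u : ℕ → ℤ}
    {z w : ℂ} (hz : z ∈ Star C G u) (hw : w ∈ Star C G u) : JoinedIn (Star C G u) z w := by
  obtain ⟨e, t, h, rfl⟩ := hz
  obtain ⟨e', t', h', rfl⟩ := hw
  obtain ⟨μ, hμ, hend, hiff⟩ := exists_end (LL_iff.mp h).1
  have hX := (LL_iff.mp h).2
  have hX' := (LL_iff.mp h').2
  have hμ' : μ ≤ t' := (hiff t').mp (LL_iff.mp h').1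
  have hmem : ∀ {a : ℕ → ℕ}, (u, a) ∈ C.X → (u, a, μ) ∈ C.LL := fun ha =>
    LL_iff.mpr ⟨(hiff μ).mpr le_rfl, ha⟩
  have key : ∀ (a : ℕ → ℕ) (s : ℝ), (u, a) ∈ C.X → μ ≤ s →
      JoinedIn (Star C G u) (G (u, a, μ)) (G (u, a, s)) := by
    intro a s ha hs
    have h1 : IsPathConnected (Set.Ici μ) := (convex_Ici μ).isPathConnected ⟨μ, le_refl μ⟩
    have h2 := h1.image' (arm_cont I (hmem ha))
    have h3 := h2.joinedIn (G (u, a, μ)) ⟨μ, le_refl μ, rfl⟩ (G (u, a, s)) ⟨s, hs, rfl⟩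
    refine h3.mono ?_
    rintro _ ⟨x, hx, rfl⟩
    exact ⟨a, x, LL_up (hmem ha) hx, rfl⟩
  have heq : G (u, e, μ) = G (u, e', μ) :=
    (I.fib _ (hmem hX) _ (hmem hX')).mpr (Or.inr ⟨rfl, rfl, hend⟩)
  have h1 := (key e t hX hμ).symm
  rw [heq] at h1
  exact h1.trans (key e' t' hX' hμ')

/-- points of a star are not on other stars -/
theorem star_disjoint {C : Comb} {lam : ℂ} {G : Pt → ℂ} (I : Interface C lam G)
    {u u' : ℕ → ℤ} {z : ℂ} (hz : z ∈ Star C G u) (hz' : z ∈ Star C G u') : u = u' := by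
  obtain ⟨e, t, h, rfl⟩ := hz
  obtain ⟨e', t', h', heq⟩ := hz'
  rcases (I.fib _ h' _ h).mp heq with h1 | h1
  · exact (congrArg Prod.fst h1).symm
  · exact h1.1.symm

theorem star_preconn {C : Comb} {lam : ℂ} {G : Pt → ℂ} (I : Interface C lam G) {u : ℕ → ℤ} :
    IsPreconnected (Star C G u) := by
  rcases (Star C G u).eq_empty_or_nonempty with h | ⟨x, hx⟩
  · rw [h]; exact isPreconnected_empty
  · have h1 : IsPathConnected (Star C G u) := ⟨x, hx, fun _ hy => star_joined I hx hy⟩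
    exact h1.isConnected.isPreconnected

theorem star_transfer_aux {C C' : Comb} {lam lam' : ℂ} {G G' : Pt → ℂ} (I : Interface C lam G)
    (I' : Interface C' lam' G') (H : ℂ ≃ₜ ℂ) (hH : H '' Jul lam = Jul lam') {p q p' q' : Pt}
    (hp : p ∈ C.LL) (hq : q ∈ C.LL) (hp' : p' ∈ C'.LL) (hq' : q' ∈ C'.LL)
    (h1 : H (G p) = G' p') (h2 : H (G q) = G' q') (h : p.1 = q.1) : p'.1 = q'.1 := by
  have hpS : G p ∈ Star C G p.1 := ⟨p.2.1, p.2.2, hp, rfl⟩
  have hqS : G q ∈ Star C G p.1 := ⟨q.2.1, q.2.2, by rw [h]; exact hq, by rw [h]⟩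
  refine itin_const I' (K := H '' Star C G p.1) ((star_preconn I).image H H.continuous.continuousOn)
    ?_ hp' hq' ?_ ?_
  · rw [← hH]
    exact Set.image_mono (star_subset I _)
  · rw [← h1]; exact ⟨_, hpS, rfl⟩
  · rw [← h2]; exact ⟨_, hqS, rfl⟩

theorem itin_transfer {C C' : Comb} {lam lam' : ℂ} {G G' : Pt → ℂ} (I : Interface C lam G)
    (I' : Interface C' lam' G') (H : ℂ ≃ₜ ℂ) (hH : H '' Jul lam = Jul lam') {p q p' q' : Pt}
    (hp : p ∈ C.LL) (hq : q ∈ C.LL) (hp' : p' ∈ C'.LL) (hq' : q' ∈ C'.LL)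
    (h1 : H (G p) = G' p') (h2 : H (G q) = G' q') : p.1 = q.1 ↔ p'.1 = q'.1 := by
  constructor
  · exact star_transfer_aux I I' H hH hp hq hp' hq' h1 h2
  · have hH' : H.symm '' Jul lam' = Jul lam := by
      rw [← hH, ← Set.image_comp]
      simp
    exact star_transfer_aux I' I H.symm hH' hp' hq' hp hq (by rw [← h1]; simp)
      (by rw [← h2]; simp)

end D
end PJ
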