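import Mathlib

/-!
# Project PJ (MP_3a87b6_an): common definitions

Planar embeddings of homeomorphic exponential Julia sets.  See README.md / PROOF.md in this
directory for the complete proof.

`Comb` is the combinatorial data (addresses of the `m+1` cutting curves `γ_0,…,γ_m`), `Comb.LL` the
model space, `Interface C lam G` the statement that `G` is a parametrization of the Julia set of
`z ↦ lam * exp z` by the model space.
-/

set_option autoImplicit false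

namespace PJ

open Complex

/-- A point of the model: (itinerary `u`, sequence `e` of arcs, potential `t`). -/
abbrev Pt : Type := (ℕ → ℤ) × (ℕ → ℕ) × ℝ

/-- Combinatorial data: `m+1` cutting curves, `sg i` the number of the strip that contains the
`i`-th one (`i < m`; the last one, number `m`, lies between strip `0` and strip `1`), `rk i` the
vertical rank (`0` = lowest) of the `i`-th curve among all of them. -/
structure Comb where
  m : ℕ
  sg : ℕ → ℤ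
  rk : ℕ → ℕ

/-- Strip number of `L_j z` for the principal branch, if `z` is in the arc number `e`
(`e` = number of curves below `z`). -/
def Comb.x (C : Comb) (j : ℤ) (e : ℕ) : ℤ := j + if e ≤ C.rk 0 then 1 else 0

/-- Transition function of the arcs: if `z` is in the arc `e`, then `L_j z` is in the arc
`C.de j e`. -/
def Comb.de (C : Comb) (j : ℤ) (e : ℕ) : ℕ :=
  ((Finset.range (C.m + 1)).filter (fun i =>
    (i = C.m ∧ 1 ≤ C.x j e) ∨
    (i < C.m ∧ (C.sg i < C.x j e ∨ (C.sg i = C.x j e ∧ C.rk (i + 1) < e))))).card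

/-- compatible pairs (itinerary, sequence of arcs) -/
def Comb.X (C : Comb) : Set ((ℕ → ℤ) × (ℕ → ℕ)) :=
  {x | ∀ n, x.2 n = C.de (x.1 n) (x.2 (n + 1))}

/-- The potentials along the orbit: `T_0 = t`, `T_{n+1} = exp T_n - 1 - 2π |u_{n+1}|`. -/
noncomputable def Tn (u : ℕ → ℤ) (t : ℝ) : ℕ → ℝ
  | 0 => t
  | n + 1 => Real.exp (Tn u t n) - 1 - 2 * Real.pi * |(u (n + 1) : ℝ)|

/-- The model space. -/
def Comb.LL (C : Comb) : Set Pt :=
  {p | ∀ n, 0 ≤ Tn p.1 p.2.2 n ∧ p.2.1 n = C.de (p.1 n) (p.2.1 (n + 1))}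

/-- shift of the model -/
noncomputable def shiftPt (p : Pt) : Pt :=
  (fun n => p.1 (n + 1), fun n => p.2.1 (n + 1), Tn p.1 p.2.2 1)

/-- `t` is the smallest potential allowed for the itinerary `u`. -/
def IsEnd (u : ℕ → ℤ) (t : ℝ) : Prop := ∀ s, s < t → ∃ n, Tn u s n < 0

/-- The identification of end points with the same itinerary. -/
def Rel (p q : Pt) : Prop := p = q ∨ (p.1 = q.1 ∧ p.2.2 = q.2.2 ∧ IsEnd p.1 p.2.2)

/-- The consistency conditions on the combinatorial data. -/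
structure Comb.Good (C : Comb) : Prop where
  m_pos : 1 ≤ C.m
  sg0 : C.sg 0 = 0
  sg_le : ∀ i, |C.sg i| ≤ 3
  rk_le : ∀ i, i ≤ C.m → C.rk i ≤ C.m
  rk_inj : ∀ i, i ≤ C.m → ∀ j, j ≤ C.m → C.rk i = C.rk j → i = j
  rk_cmp : ∀ i, i < C.m → ∀ j, j < C.m →
    (C.rk i < C.rk j ↔ (C.sg i < C.sg j ∨ (C.sg i = C.sg j ∧ C.rk (i + 1) < C.rk (j + 1))))
  rk_last : ∀ i, i < C.m → (C.rk i < C.rk C.m ↔ C.sg i ≤ 0)
  surj : ∀ e, e ≤ C.m + 1 → ∃ j : ℤ, |j| ≤ 3 ∧ ∃ e', e' ≤ C.m + 1 ∧ C.de j e' = e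
  multi : ∀ (u : ℕ → ℤ) (e e' : ℕ → ℕ), (u, e) ∈ C.X → (u, e') ∈ C.X → e ≠ e' →
    ∃ B : ℤ, ∀ n, |u n| ≤ B

/-- The Julia set of `z ↦ c * exp z`, exactly as in the frozen statement. -/
def Jul (c : ℂ) : Set ℂ :=
  {z | ¬ ∃ U ∈ nhds z, ∀ φ : ℕ → ℕ, StrictMono φ → ∃ ψ : ℕ → ℕ, StrictMono ψ ∧
          ((∃ g : ℂ → ℂ, TendstoLocallyUniformlyOn
              (fun k : ℕ => (fun w : ℂ => c * Complex.exp w)^[φ (ψ k)]) g Filter.atTop U) ∨
           (∀ K : Set ℂ, K ⊆ U → IsCompact K → ∀ R : ℝ, ∀ᶠ k in Filter.atTop,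
              ∀ x ∈ K, R < ‖(fun w : ℂ => c * Complex.exp w)^[φ (ψ k)] x‖))}

/-- `G` parametrizes the Julia set of `z ↦ lam * exp z` by the model space of `C`. -/
structure Interface (C : Comb) (lam : ℂ) (G : Pt → ℂ) : Prop where
  lam_ne : lam ≠ 0
  cont : ContinuousOn G C.LL
  image : G '' C.LL = Jul lam
  fib : ∀ p ∈ C.LL, ∀ q ∈ C.LL, (G p = G q ↔ Rel p q)
  proper : ∀ R : ℝ, ∃ B : ℝ, ∀ p ∈ C.LL, ‖G p‖ ≤ R → p.2.2 ≤ B ∧ |(p.1 0 : ℝ)| ≤ B
  im_bd : ∀ p ∈ C.LL, |(G p).im - 2 * Real.pi * (p.1 0 : ℝ)| ≤ 10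
  re_bd : ∃ M : ℝ, ∀ p ∈ C.LL, -M ≤ (G p).re
  equiv : ∀ p ∈ C.LL, lam * Complex.exp (G p) = G (shiftPt p)
  tail : ∀ (u : ℕ → ℤ) (e : ℕ → ℕ) (t : ℝ), (u, e, t) ∈ C.LL →
    Filter.Tendsto (fun s : ℝ => (G (u, e, s)).re) Filter.atTop Filter.atTop
  branch : ∀ (u : ℕ → ℤ) (e : ℕ → ℕ) (t : ℝ), (u, e, t) ∈ C.LL → ∃ T : ℝ, ∀ s, T ≤ s →
    G (u, e, s) = Complex.log (G (shiftPt (u, e, s))) - Complex.log lam
      + 2 * Real.pi * Complex.I * (C.x (u 0) (e 1) : ℂ)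

/-! ### The two concrete data sets -/

/-- kneading address 0101020101020101½ -/
def combA : Comb where
  m := 16
  sg := fun i => [0,1,0,1,0,2,0,1,0,1,0,2,0,1,0,1].getD i 0
  rk := fun i => [0,9,3,12,6,15,1,10,4,13,7,16,2,11,5,14,8].getD i 0

/-- kneading address 0101030101020101½ -/
def combB : Comb where
  m := 16
  sg := fun i => [0,1,0,1,0,3,0,1,0,1,0,2,0,1,0,1].getD i 0
  rk := fun i => [1,10,4,13,7,16,0,9,3,12,6,15,2,11,5,14,8].getD i 0

end PJ
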