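import Pool.Agent.Lib.H31J.Defs

set_option autoImplicit false

namespace PJ

open Complex Filter Topology Set

/-- the map `z ↦ c * exp z` -/
noncomputable def ff (c : ℂ) : ℂ → ℂ := fun w => c * Complex.exp w

theorem JEQ_diff (c : ℂ) (n : ℕ) : Differentiable ℂ ((ff c)^[n]) := by
  induction n with
  | zero => simpa using differentiable_id
  | succ n ih =>
    rw [Function.iterate_succ]
    exact ih.comp (by unfold ff; fun_prop)

/-- A holomorphic function on a ball whose imaginary part oscillates by at most `C`. -/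
theorem JEQ_cauchy {g : ℂ → ℂ} (hg : Differentiable ℂ g) {z : ℂ} {r C : ℝ} (hr : 0 < r)
    (hC : 0 < C) (h : ∀ w ∈ Metric.ball z r, |(g w).im - (g z).im| ≤ C) :
    ‖deriv g z‖ ≤ 2 * Real.exp 1 * C / r := by
  set a : ℝ := 1 / C with ha
  have ha0 : 0 < a := by positivity
  set E : ℂ → ℂ := fun w => Complex.exp (-Complex.I * a * (g w - g z)) with hE
  have hEd : Differentiable ℂ E := by
    intro w
    exact (((hg w).sub_const _).const_mul _).cexp
  have hEn : ∀ w ∈ Metric.closedBall z (r / 2), ‖E w‖ ≤ Real.exp 1 := by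
    intro w hw
    have hw' : w ∈ Metric.ball z r := by
      rw [Metric.mem_closedBall] at hw
      rw [Metric.mem_ball]; linarith
    have := h w hw'
    rw [hE]
    simp only [Complex.norm_exp]
    apply Real.exp_le_exp.2
    have e1 : (-Complex.I * (a : ℂ) * (g w - g z)).re = a * ((g w).im - (g z).im) := by
      simp [Complex.mul_re, Complex.mul_im]
    rw [e1]
    have : a * ((g w).im - (g z).im) ≤ a * C :=
      mul_le_mul_of_nonneg_left (le_trans (le_abs_self _) this) ha0.le
    have e2 : a * C = 1 := by rw [ha]; field_simp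
    linarith
  have hEz : ‖deriv E z‖ ≤ Real.exp 1 / (r / 2) :=
    Complex.norm_deriv_le_of_forall_mem_sphere_norm_le (by positivity)
      (hEd.diffContOnCl) (fun w hw => hEn w (Metric.sphere_subset_closedBall hw))
  have hd : deriv E z = -Complex.I * a * deriv g z := by
    have h1 : HasDerivAt g (deriv g z) z := (hg z).hasDerivAt
    have h2 : HasDerivAt (fun w => -Complex.I * (a : ℂ) * (g w - g z))
        (-Complex.I * a * deriv g z) z := (h1.sub_const _).const_mul _
    have h3 := h2.cexp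
    have h4 : deriv E z = Complex.exp (-Complex.I * (a : ℂ) * (g z - g z)) *
      (-Complex.I * a * deriv g z) := h3.deriv
    rw [h4]; simp
  rw [hd] at hEz
  have e3 : ‖-Complex.I * (a : ℂ) * deriv g z‖ = a * ‖deriv g z‖ := by
    rw [norm_mul, norm_mul]
    simp [abs_of_pos ha0]
  rw [e3] at hEz
  have e4 : ‖deriv g z‖ = C * (a * ‖deriv g z‖) := by rw [ha]; field_simp
  rw [e4]
  calc C * (a * ‖deriv g z‖) ≤ C * (Real.exp 1 / (r / 2)) :=
        mul_le_mul_of_nonneg_left hEz hC.le
    _ = 2 * Real.exp 1 * C / r := by field_simp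

/-- Identification of the Julia set. -/
theorem jul_eq (c : ℂ) (J0 : Set ℂ) (hinv : ∀ z ∈ J0, ff c z ∈ J0)
    (hexp : ∀ z ∈ J0, Tendsto (fun n : ℕ => ‖deriv ((ff c)^[n]) z‖) atTop atTop)
    (hstrip : ∃ C : ℝ, ∀ S : Set ℂ, S ⊆ J0 → IsPreconnected S → ∀ w ∈ S, ∀ w' ∈ S,
      |w.im - w'.im| ≤ C)
    (hout : ∀ z, z ∉ J0 → ∃ U ∈ 𝓝 z, ∃ q : ℕ, 0 < q ∧ ∃ p : ℕ → ℂ, ∀ r < q,
      TendstoUniformlyOn (fun n : ℕ => (ff c)^[q * n + r]) (fun _ => p r) atTop U) :
    Jul c = J0 := by
  obtain ⟨C0, hC0⟩ := hstrip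
  set C : ℝ := max C0 1 with hCdef
  have hC : 0 < C := lt_of_lt_of_le one_pos (le_max_right _ _)
  have hfor : ∀ n : ℕ, ∀ z ∈ J0, (ff c)^[n] z ∈ J0 := by
    intro n
    induction n with
    | zero => intro z hz; simpa using hz
    | succ n ih =>
      intro z hz
      rw [Function.iterate_succ_apply]
      exact ih _ (hinv z hz)
  -- empty interior
  have hint : ∀ z ∈ J0, ∀ U ∈ 𝓝 z, ∃ w ∈ U, w ∉ J0 := by
    intro z hz U hU
    by_contra hcon
    push Not at hcon
    obtain ⟨r, hr, hrU⟩ := Metric.mem_nhds_iff.1 hU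
    have hball : ∀ w ∈ Metric.ball z r, w ∈ J0 := fun w hw => hcon w (hrU hw)
    have hb : ∀ n : ℕ, ‖deriv ((ff c)^[n]) z‖ ≤ 2 * Real.exp 1 * C / r := by
      intro n
      apply JEQ_cauchy (JEQ_diff c n) hr hC
      intro w hw
      have hS : IsPreconnected ((ff c)^[n] '' Metric.ball z r) :=
        (convex_ball z r).isPreconnected.image _ (JEQ_diff c n).continuous.continuousOn
      have := hC0 _ (by rintro _ ⟨y, hy, rfl⟩; exact hfor n y (hball y hy)) hS
        ((ff c)^[n] w) ⟨w, hw, rfl⟩ ((ff c)^[n] z) ⟨z, Metric.mem_ball_self hr, rfl⟩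
      exact le_trans this (le_max_left _ _)
    obtain ⟨n, hn⟩ := ((hexp z hz).eventually_gt_atTop (2 * Real.exp 1 * C / r)).exists
    exact absurd (hb n) (not_le.2 hn)
  apply Set.Subset.antisymm
  · -- outside `J0` the family is normal
    intro z hz
    by_contra hzJ
    apply hz
    obtain ⟨U, hU, q, hq, p, hp⟩ := hout z hzJ
    refine ⟨U, hU, ?_⟩
    intro φ hφ
    -- a residue class that occurs infinitely often
    have hfreq : ∃ r < q, ∃ᶠ k in atTop, φ k % q = r := by
      by_contra hcon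
      push Not at hcon
      have h1 : ∀ r ∈ Finset.range q, ∀ᶠ k in atTop, φ k % q ≠ r := by
        intro r hr
        have := hcon r (Finset.mem_range.1 hr)
        exact this
      have h2 : ∀ᶠ k in atTop, ∀ r ∈ Finset.range q, φ k % q ≠ r :=
        (Filter.eventually_all_finset _).2 h1
      obtain ⟨k, hk⟩ := h2.exists
      exact hk (φ k % q) (Finset.mem_range.2 (Nat.mod_lt _ hq)) rfl
    obtain ⟨r, hr, hfr⟩ := hfreq
    obtain ⟨ψ, hψ, hψr⟩ := Filter.extraction_of_frequently_atTop hfr
    refine ⟨ψ, hψ, Or.inl ⟨fun _ => p r, ?_⟩⟩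
    have h3 := hp r hr
    have h4 : Tendsto (fun k => φ (ψ k) / q) atTop atTop := by
      have h5 : Tendsto (fun k => φ (ψ k)) atTop atTop := (hφ.comp hψ).tendsto_atTop
      exact (Nat.tendsto_div_const_atTop hq.ne').comp h5
    have h6 : TendstoUniformlyOn (fun k : ℕ => (ff c)^[q * (φ (ψ k) / q) + r]) (fun _ => p r)
        atTop U := by
      intro u hu
      exact h4.eventually (h3 u hu)
    have h7 : (fun k : ℕ => (ff c)^[q * (φ (ψ k) / q) + r]) = fun k : ℕ => (ff c)^[φ (ψ k)] := by
      funext k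
      have : q * (φ (ψ k) / q) + r = φ (ψ k) := by
        have := Nat.div_add_mod (φ (ψ k)) q
        rw [hψr k] at this
        exact this
      rw [this]
    rw [h7] at h6
    exact h6.tendstoLocallyUniformlyOn
  · intro z hz
    rintro ⟨U, hU, hnorm⟩
    obtain ⟨ψ, hψ, hcase⟩ := hnorm id strictMono_id
    rcases hcase with ⟨g, hg⟩ | hinf
    · -- locally uniform limit
      set V := interior U with hV
      have hVo : IsOpen V := isOpen_interior
      have hzV : z ∈ V := mem_interior_iff_mem_nhds.2 hU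
      have hg' : TendstoLocallyUniformlyOn (fun k : ℕ => (ff c)^[ψ k]) g atTop V :=
        hg.mono interior_subset
      have hder := hg'.deriv (Eventually.of_forall fun k => (JEQ_diff c (ψ k)).differentiableOn)
        hVo
      have h1 : Tendsto (fun k => deriv ((ff c)^[ψ k]) z) atTop (𝓝 (deriv g z)) :=
        hder.tendsto_at hzV
      have h2 := h1.norm
      have h3 : Tendsto (fun k => ‖deriv ((ff c)^[ψ k]) z‖) atTop atTop :=
        (hexp z hz).comp hψ.tendsto_atTop
      exact not_tendsto_nhds_of_tendsto_atTop h3 _ h2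
    · obtain ⟨w, hwU, hwJ⟩ := hint z hz U hU
      obtain ⟨U', hU', q, hq, p, hp⟩ := hout w hwJ
      -- the orbit of `w` is bounded
      have hwU' : w ∈ U' := mem_of_mem_nhds hU'
      have hb : ∃ R : ℝ, ∀ᶠ n : ℕ in atTop, ‖(ff c)^[n] w‖ ≤ R := by
        have h1 : ∀ r ∈ Finset.range q, ∀ᶠ n : ℕ in atTop,
            ‖(ff c)^[q * n + r] w‖ ≤ ‖p r‖ + 1 := by
          intro r hr
          have h2 : Tendsto (fun n : ℕ => (ff c)^[q * n + r] w) atTop (𝓝 (p r)) :=
            (hp r (Finset.mem_range.1 hr)).tendsto_at hwU'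
          have h3 := h2.norm
          exact (h3.eventually_lt_const (lt_add_one _)).mono fun n hn => hn.le
        have h4 : ∀ᶠ n : ℕ in atTop, ∀ r ∈ Finset.range q,
            ‖(ff c)^[q * n + r] w‖ ≤ ‖p r‖ + 1 := (Filter.eventually_all_finset _).2 h1
        refine ⟨∑ r ∈ Finset.range q, (‖p r‖ + 1), ?_⟩
        have h5 : Tendsto (fun n : ℕ => n / q) atTop atTop := Nat.tendsto_div_const_atTop hq.ne'
        filter_upwards [h5.eventually h4] with n hn
        have h6 := hn (n % q) (Finset.mem_range.2 (Nat.mod_lt _ hq))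
        rw [Nat.div_add_mod] at h6
        refine le_trans h6 ?_
        exact Finset.single_le_sum (f := fun r => ‖p r‖ + 1) (fun i _ => by positivity)
          (Finset.mem_range.2 (Nat.mod_lt _ hq))
      obtain ⟨R, hR⟩ := hb
      have h7 := hinf {w} (by simpa using hwU) isCompact_singleton R
      have h8 : ∀ᶠ k in atTop, ‖(ff c)^[ψ k] w‖ ≤ R := hψ.tendsto_atTop.eventually hR
      obtain ⟨k, hk7, hk8⟩ := (h7.and h8).exists
      have := hk7 w rfl
      exact absurd hk8 (not_le.2 this)

end PJ
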