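import Pool.Agent.Lib.H31J.Defs

/-! Chunk QUOT: the parametrization is a closed quotient map onto the Julia set. -/

set_option autoImplicit false

namespace PJ

open Filter Topology

lemma quot_continuous_Tn (n : ℕ) : Continuous (fun p : Pt => Tn p.1 p.2.2 n) := by
  induction n with
  | zero => exact continuous_snd.comp continuous_snd
  | succ n ih =>
    have h : (fun p : Pt => Tn p.1 p.2.2 (n + 1)) = fun p : Pt =>
        Real.exp (Tn p.1 p.2.2 n) - 1 - 2 * Real.pi * |((p.1 (n + 1) : ℤ) : ℝ)| := rfl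
    rw [h]
    have h1 : Continuous (fun p : Pt => ((p.1 (n + 1) : ℤ) : ℝ)) :=
      (continuous_of_discreteTopology (f := fun k : ℤ => (k : ℝ))).comp
        ((continuous_apply (n + 1)).comp continuous_fst)
    exact ((Real.continuous_exp.comp ih).sub continuous_const).sub (continuous_const.mul h1.abs)

lemma Comb.isClosed_LL (C : Comb) : IsClosed C.LL := by
  have h : C.LL = (⋂ n, {p : Pt | 0 ≤ Tn p.1 p.2.2 n}) ∩
      ⋂ n, {p : Pt | p.2.1 n = C.de (p.1 n) (p.2.1 (n + 1))} := by
    ext p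
    simp only [Comb.LL, Set.mem_setOf_eq, Set.mem_inter_iff, Set.mem_iInter]
    exact forall_and
  rw [h]
  refine (isClosed_iInter fun n => ?_).inter (isClosed_iInter fun n => ?_)
  · exact isClosed_le continuous_const (quot_continuous_Tn n)
  · have h1 : Continuous (fun p : Pt => p.2.1 n) :=
      (continuous_apply n).comp (continuous_fst.comp continuous_snd)
    have h2 : Continuous (fun p : Pt => (p.1 n, p.2.1 (n + 1))) :=
      ((continuous_apply n).comp continuous_fst).prodMk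
        ((continuous_apply (n + 1)).comp (continuous_fst.comp continuous_snd))
    have h3 : Continuous (fun p : Pt => C.de (p.1 n) (p.2.1 (n + 1))) :=
      (continuous_of_discreteTopology (f := fun x : ℤ × ℕ => C.de x.1 x.2)).comp h2
    exact isClosed_eq h1 h3

/-- upper bounds for the potentials along the orbit -/
noncomputable def quotM (B : ℝ) : ℕ → ℝ
  | 0 => B
  | n + 1 => Real.exp (quotM B n)

lemma quot_Tn_le {u : ℕ → ℤ} {t B : ℝ} (h : t ≤ B) (n : ℕ) : Tn u t n ≤ quotM B n := by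
  induction n with
  | zero => exact h
  | succ n ih =>
    have h1 : 0 ≤ 2 * Real.pi * |((u (n + 1) : ℤ) : ℝ)| := by positivity
    have h2 : Real.exp (Tn u t n) ≤ Real.exp (quotM B n) := Real.exp_le_exp.2 ih
    show Real.exp (Tn u t n) - 1 - 2 * Real.pi * |((u (n + 1) : ℤ) : ℝ)| ≤
      Real.exp (quotM B n)
    linarith

/-- bounds for the letters -/
noncomputable def quotb (B : ℝ) : ℕ → ℝ
  | 0 => B
  | n + 1 => quotM B (n + 1)

lemma quot_letter {u : ℕ → ℤ} {t B : ℝ} (h : t ≤ B) (h0 : |((u 0 : ℤ) : ℝ)| ≤ B)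
    (hT : ∀ n, 0 ≤ Tn u t n) (n : ℕ) : |((u n : ℤ) : ℝ)| ≤ quotb B n := by
  cases n with
  | zero => exact h0
  | succ n =>
    have h1 : 0 ≤ Real.exp (Tn u t n) - 1 - 2 * Real.pi * |((u (n + 1) : ℤ) : ℝ)| := hT (n + 1)
    have h2 : Real.exp (Tn u t n) ≤ Real.exp (quotM B n) :=
      Real.exp_le_exp.2 (quot_Tn_le h n)
    have h3 : (1 : ℝ) ≤ 2 * Real.pi := by linarith [Real.pi_gt_three]
    have h4 : |((u (n + 1) : ℤ) : ℝ)| ≤ 2 * Real.pi * |((u (n + 1) : ℤ) : ℝ)| :=
      le_mul_of_one_le_left (abs_nonneg _) h3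
    show |((u (n + 1) : ℤ) : ℝ)| ≤ Real.exp (quotM B n)
    linarith

lemma quot_de_le (C : Comb) (j : ℤ) (e : ℕ) : C.de j e ≤ C.m + 1 := by
  unfold Comb.de
  calc _ ≤ (Finset.range (C.m + 1)).card := Finset.card_filter_le _ _
    _ = C.m + 1 := Finset.card_range _

lemma quot_isCompact (C : Comb) (B : ℝ) :
    IsCompact {p : Pt | p ∈ C.LL ∧ p.2.2 ≤ B ∧ |(p.1 0 : ℝ)| ≤ B} := by
  have hk1 : IsCompact (Set.pi Set.univ fun n : ℕ => {k : ℤ | |(k : ℝ)| ≤ quotb B n}) := by
    apply isCompact_univ_pi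
    intro n
    apply Set.Finite.isCompact
    apply (Set.finite_Icc (-⌈quotb B n⌉) ⌈quotb B n⌉).subset
    intro k hk
    have hk' : |(k : ℝ)| ≤ quotb B n := hk
    rw [abs_le] at hk'
    constructor
    · have : (-(⌈quotb B n⌉ : ℤ) : ℝ) ≤ (k : ℝ) := by
        linarith [Int.le_ceil (quotb B n)]
      exact_mod_cast this
    · have : (k : ℝ) ≤ (⌈quotb B n⌉ : ℝ) := by
        linarith [Int.le_ceil (quotb B n)]
      exact_mod_cast this
  have hk2 : IsCompact (Set.pi Set.univ fun _ : ℕ => Set.Iic (C.m + 1)) :=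
    isCompact_univ_pi fun n => (Set.finite_Iic _).isCompact
  have hk3 : IsCompact (Set.Icc (0 : ℝ) B) := isCompact_Icc
  have hk := hk1.prod (hk2.prod hk3)
  have hc : IsClosed {p : Pt | p ∈ C.LL ∧ p.2.2 ≤ B ∧ |(p.1 0 : ℝ)| ≤ B} := by
    have h1 : IsClosed {p : Pt | p.2.2 ≤ B} :=
      isClosed_le (continuous_snd.comp continuous_snd) continuous_const
    have h2 : IsClosed {p : Pt | |(p.1 0 : ℝ)| ≤ B} := by
      have h3 : Continuous (fun p : Pt => ((p.1 0 : ℤ) : ℝ)) :=
        (continuous_of_discreteTopology (f := fun k : ℤ => (k : ℝ))).comp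
          ((continuous_apply 0).comp continuous_fst)
      exact isClosed_le h3.abs continuous_const
    exact C.isClosed_LL.inter (h1.inter h2)
  refine hk.of_isClosed_subset hc ?_
  rintro ⟨u, e, t⟩ ⟨h1, h2, h3⟩
  refine ⟨?_, ?_, ?_⟩
  · intro n _
    exact quot_letter h2 h3 (fun n => (h1 n).1) n
  · intro n _
    have := (h1 n).2
    simp only at this
    show e n ≤ C.m + 1
    rw [this]
    exact quot_de_le C _ _
  · exact ⟨(h1 0).1, h2⟩

/-- The parametrization restricted to the model space is a closed quotient map onto the Julia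
set. -/
theorem Interface.quot {C : Comb} {lam : ℂ} {G : Pt → ℂ} (I : Interface C lam G) :
    ∃ q : C.LL → Jul lam, (∀ p : C.LL, (q p : ℂ) = G p.1) ∧ Topology.IsQuotientMap q ∧
      ∀ p p' : C.LL, q p = q p' ↔ Rel p.1 p'.1 := by
  let g : C.LL → ℂ := fun p => G p.1
  have hg : Continuous g := continuousOn_iff_continuous_restrict.1 I.cont
  have hmem : ∀ p : C.LL, G p.1 ∈ Jul lam := fun p => by
    rw [← I.image]
    exact ⟨p.1, p.2, rfl⟩
  let q : C.LL → Jul lam := fun p => ⟨G p.1, hmem p⟩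
  have hq : Continuous q := hg.subtype_mk _
  have hs : Function.Surjective q := by
    rintro ⟨z, hz⟩
    rw [← I.image] at hz
    obtain ⟨p, hp, rfl⟩ := hz
    exact ⟨⟨p, hp⟩, rfl⟩
  have hproper : IsProperMap g := by
    rw [isProperMap_iff_isCompact_preimage]
    refine ⟨hg, ?_⟩
    intro K hK
    obtain ⟨R, hR⟩ := hK.isBounded.exists_norm_le
    obtain ⟨B, hB⟩ := I.proper R
    have hcl : IsClosed (g ⁻¹' K) := hK.isClosed.preimage hg
    rw [Subtype.isCompact_iff]
    have hcl' : IsClosed (Subtype.val '' (g ⁻¹' K)) :=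
      C.isClosed_LL.isClosedEmbedding_subtypeVal.isClosedMap _ hcl
    refine (quot_isCompact C B).of_isClosed_subset hcl' ?_
    rintro _ ⟨p, hp, rfl⟩
    exact ⟨p.2, hB p.1 p.2 (hR _ hp)⟩
  have hclosed : IsClosedMap q := by
    intro F hF
    have h1 : IsClosed (g '' F) := hproper.isClosedMap F hF
    have h2 : q '' F = Subtype.val ⁻¹' (g '' F) := by
      ext z
      constructor
      · rintro ⟨p, hp, rfl⟩
        exact ⟨p, hp, rfl⟩
      · rintro ⟨p, hp, hpz⟩
        exact ⟨p, hp, Subtype.ext hpz⟩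
    rw [h2]
    exact h1.preimage continuous_subtype_val
  refine ⟨q, fun _ => rfl, hclosed.isQuotientMap hq hs, ?_⟩
  intro p p'
  rw [← I.fib p.1 p.2 p'.1 p'.2]
  exact Subtype.ext_iff

end PJ
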