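import Pool.Agent.Lib.H31J.Top
import Pool.Agent.Lib.H31J.Quot
import Pool.Agent.Lib.H31J.Good

/-! Assembly of the project PJ down to the frozen statement S04385. -/

set_option autoImplicit false

namespace PJ

open Filter Topology

theorem homeoJ {C C' : Comb} {lam lam' : ℂ} {G G' : Pt → ℂ} (I : Interface C lam G)
    (I' : Interface C' lam' G') (h : C.LL ≃ₜ C'.LL)
    (hh : ∀ p q : C.LL, Rel p.1 q.1 ↔ Rel (h p).1 (h q).1) :
    Nonempty (↥(Jul lam) ≃ₜ ↥(Jul lam')) := by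
  obtain ⟨q, hq, hqq, hqr⟩ := I.quot
  obtain ⟨q', hq', hqq', hqr'⟩ := I'.quot
  have hs : Function.Surjective q := hqq.surjective
  have hs' : Function.Surjective q' := hqq'.surjective
  have e1 : ∀ a b : C.LL, q a = q b → q' (h a) = q' (h b) := fun a b hab =>
    (hqr' _ _).2 ((hh a b).1 ((hqr a b).1 hab))
  have e2 : ∀ a b : C'.LL, q' a = q' b → q (h.symm a) = q (h.symm b) := fun a b hab => by
    apply (hqr _ _).2
    apply (hh _ _).2
    rw [h.apply_symm_apply, h.apply_symm_apply]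
    exact (hqr' a b).1 hab
  let F : Jul lam → Jul lam' := fun z => q' (h (Function.surjInv hs z))
  let F' : Jul lam' → Jul lam := fun z => q (h.symm (Function.surjInv hs' z))
  have hF : ∀ a : C.LL, F (q a) = q' (h a) := fun a => e1 _ _ (Function.surjInv_eq hs (q a))
  have hF' : ∀ a : C'.LL, F' (q' a) = q (h.symm a) :=
    fun a => e2 _ _ (Function.surjInv_eq hs' (q' a))
  refine ⟨⟨⟨F, F', ?_, ?_⟩, ?_, ?_⟩⟩
  · intro z
    obtain ⟨a, rfl⟩ := hs z
    rw [hF, hF', h.symm_apply_apply]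
  · intro z
    obtain ⟨a, rfl⟩ := hs' z
    rw [hF', hF, h.apply_symm_apply]
  · rw [hqq.continuous_iff]
    have : F ∘ q = q' ∘ h := funext hF
    rw [this]
    exact hqq'.continuous.comp h.continuous
  · rw [hqq'.continuous_iff]
    have : F' ∘ q' = q ∘ h.symm := funext hF'
    rw [this]
    exact hqq.continuous.comp h.symm.continuous

theorem final : ∀ J : ℂ → Set ℂ,
      (∀ c z : ℂ, z ∈ J c ↔
        ¬ ∃ U ∈ nhds z, ∀ φ : ℕ → ℕ, StrictMono φ → ∃ ψ : ℕ → ℕ, StrictMono ψ ∧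
          ((∃ g : ℂ → ℂ, TendstoLocallyUniformlyOn
              (fun k : ℕ => (fun w : ℂ => c * Complex.exp w)^[φ (ψ k)]) g Filter.atTop U) ∨
           (∀ K : Set ℂ, K ⊆ U → IsCompact K → ∀ R : ℝ, ∀ᶠ k in Filter.atTop,
              ∀ x ∈ K, R < ‖(fun w : ℂ => c * Complex.exp w)^[φ (ψ k)] x‖))) →
      ∃ a b : ℂ, a ≠ 0 ∧ b ≠ 0 ∧ Nonempty (↥(J a) ≃ₜ ↥(J b)) ∧
        ¬ ∃ h : ℂ ≃ₜ ℂ, h '' J a = J b := by
  intro J hJ
  have hJJ : J = Jul := by
    funext c
    ext z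
    rw [hJ c z]
    rfl
  subst hJJ
  obtain ⟨lamA, GA, IA⟩ := analytic combA good_A
  obtain ⟨lamB, GB, IB⟩ := analytic combB good_B
  obtain ⟨h, hh⟩ := homeoModel
  exact ⟨lamA, lamB, IA.lam_ne, IB.lam_ne, homeoJ IA IB h hh, planar lamA lamB GA GB IA IB⟩

end PJ
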