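import Pool.Agent.Lib.H31J.AMain
import Pool.Agent.Lib.H31J.CMain
import Pool.Agent.Lib.H31J.DFin

/-! The three top statements of the project PJ: part A (`PJ.analytic`, file AMain), part C
(`homeoModel`) and part D (`planar`). -/

set_option autoImplicit false

namespace PJ

/-- Part C (abstract homeomorphism of the two model spaces). -/
theorem homeoModel : ∃ h : combA.LL ≃ₜ combB.LL,
    ∀ p q : combA.LL, Rel p.1 q.1 ↔ Rel (h p).1 (h q).1 := homeoModel'

/-- Part D (planar inequivalence). -/
theorem planar (lamA lamB : ℂ) (GA GB : Pt → ℂ) (IA : Interface combA lamA GA)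
    (IB : Interface combB lamB GB) : ¬ ∃ h : ℂ ≃ₜ ℂ, h '' Jul lamA = Jul lamB :=
  D.planar_D lamA lamB GA GB IA IB

end PJ
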